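import Mathlib

/-!
# Common definitions for the project ZCM (MP_c9768e_nt: zeta(p) algebraic, CM)
FINAL: do not change.
-/

namespace Pool.Agent.ZCM

open scoped NNReal ENNReal
open PowerSeries

noncomputable section

/-! ## The differential polynomial rings -/

section rings
variable {R : Type*} [CommRing R]

/-- the derivation of `R[t,w]` (`t = X 0`, `w = X 1`):
`Dt = -1 + 2 a t w + 3 b w^2`, `Dw = -3 t^2 - a w^2`. -/
def Dtw (a b : R) : Derivation R (MvPolynomial (Fin 2) R) (MvPolynomial (Fin 2) R) :=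
  MvPolynomial.mkDerivation R
    ![-1 + 2 * MvPolynomial.C a * MvPolynomial.X 0 * MvPolynomial.X 1
        + 3 * MvPolynomial.C b * MvPolynomial.X 1 ^ 2,
      -(3 * MvPolynomial.X 0 ^ 2) - MvPolynomial.C a * MvPolynomial.X 1 ^ 2]

/-- `T_n = (D^n t)(0,0)` -/
def Tn (a b : R) (n : ℕ) : R :=
  MvPolynomial.eval (0 : Fin 2 → R) ((⇑(Dtw a b))^[n] (MvPolynomial.X 0))

/-- `W_n = (D^n w)(0,0)` -/
def Wn (a b : R) (n : ℕ) : R :=
  MvPolynomial.eval (0 : Fin 2 → R) ((⇑(Dtw a b))^[n] (MvPolynomial.X 1))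

/-- the derivation of `R[z,X,y]` : `z ↦ 1`, `X ↦ 2y`, `y ↦ 3X^2 + a`. -/
def D3 (a : R) : Derivation R (MvPolynomial (Fin 3) R) (MvPolynomial (Fin 3) R) :=
  MvPolynomial.mkDerivation R
    ![1, 2 * MvPolynomial.X 2, 3 * MvPolynomial.X 1 ^ 2 + MvPolynomial.C a]

/-- the derivation of `R[z,X,y,Y]` : `z ↦ 1`, `X ↦ 2y`, `y ↦ 3X^2 + a`, `Y ↦ -X`. -/
def D4 (a : R) : Derivation R (MvPolynomial (Fin 4) R) (MvPolynomial (Fin 4) R) :=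
  MvPolynomial.mkDerivation R
    ![1, 2 * MvPolynomial.X 2, 3 * MvPolynomial.X 1 ^ 2 + MvPolynomial.C a, -MvPolynomial.X 1]

/-- the auxiliary polynomial `P = ∑ p_ijk z^i X^j Y^k`, `i < L`, `j, k < N0`. -/
def PP (R : Type*) [CommRing R] (L N0 : ℕ) (p : ℕ → ℕ → ℕ → ℤ) : MvPolynomial (Fin 4) R :=
  ∑ i ∈ Finset.range L, ∑ j ∈ Finset.range N0, ∑ k ∈ Finset.range N0,
    MvPolynomial.C ((p i j k : ℤ) : R) * MvPolynomial.X 0 ^ i * MvPolynomial.X 1 ^ j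
      * MvPolynomial.X 3 ^ k

end rings

/-! ## Formal series -/

section formal
variable {K : Type*} [Field K]

/-- `t(z)` -/
def tS (a b : K) : K⟦X⟧ := PowerSeries.mk fun n => Tn a b n / (n.factorial : K)
/-- `w(z)` -/
def wS (a b : K) : K⟦X⟧ := PowerSeries.mk fun n => Wn a b n / (n.factorial : K)
/-- `t(z)/z` -/
def uS (a b : K) : K⟦X⟧ := PowerSeries.mk fun n => Tn a b (n + 1) / ((n + 1).factorial : K)
/-- `1 - a t w - b w^2` -/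
def eS (a b : K) : K⟦X⟧ := 1 - C a * tS a b * wS a b - C b * wS a b ^ 2
/-- `z^2 ℘(z)` -/
def xS (a b : K) : K⟦X⟧ := eS a b * ((uS a b)⁻¹) ^ 2
/-- `z^3 ℘'(z)/2` -/
def yS (a b : K) : K⟦X⟧ := xS a b * (uS a b)⁻¹
/-- `z ζ(z)` -/
def zS (a b : K) : K⟦X⟧ := PowerSeries.mk fun n => - coeff n (xS a b) / ((n : K) - 1)
/-- the coefficients of `σ(z)/z` -/
def sC (a b : K) : ℕ → K
  | 0 => 1
  | n + 1 => (∑ m : Fin (n + 1), sC a b m * coeff (n + 1 - m) (zS a b)) / ((n : K) + 1)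
/-- `σ(z)/z` -/
def sS (a b : K) : K⟦X⟧ := PowerSeries.mk (sC a b)

/-- `σ` -/
def SS (a b : K) : K⟦X⟧ := X * sS a b
/-- `σ^2 ℘` -/
def QQ (a b : K) : K⟦X⟧ := sS a b ^ 2 * xS a b
/-- `σ^3 ℘'/2` -/
def qq (a b : K) : K⟦X⟧ := sS a b ^ 3 * yS a b
/-- `σ' = σ ζ` -/
def RR (a b : K) : K⟦X⟧ := sS a b * zS a b

/-- `z^{3 N0} F(z)` as a formal series -/
def FS (a b : K) (L N0 : ℕ) (p : ℕ → ℕ → ℕ → ℤ) : K⟦X⟧ :=
  ∑ i ∈ Finset.range L, ∑ j ∈ Finset.range N0, ∑ k ∈ Finset.range N0,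
    C ((p i j k : ℤ) : K) * X ^ (i + (3 * N0 - 2 * j - k)) * xS a b ^ j * zS a b ^ k

/-- `σ^{3 N0} F(z)` as a formal series -/
def GS (a b : K) (L N0 : ℕ) (p : ℕ → ℕ → ℕ → ℤ) : K⟦X⟧ :=
  ∑ i ∈ Finset.range L, ∑ j ∈ Finset.range N0, ∑ k ∈ Finset.range N0,
    C ((p i j k : ℤ) : K) * X ^ i * SS a b ^ (3 * N0 - 2 * j - k) * QQ a b ^ j * RR a b ^ k

end formal

/-! ## `ℓ¹`-norms and entire functions -/

/-- `∑ |f_n| r^n` -/
def nr (r : ℝ≥0) (f : ℂ⟦X⟧) : ℝ≥0∞ := ∑' n : ℕ, ((‖coeff n f‖₊ * r ^ n : ℝ≥0) : ℝ≥0∞)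

/-- entire power series -/
def Ent (f : ℂ⟦X⟧) : Prop := ∀ r : ℝ≥0, nr r f ≠ ∞

/-- growth of order two -/
def Gr (f : ℂ⟦X⟧) : Prop :=
  ∃ C : ℝ, 0 ≤ C ∧ ∀ r : ℝ≥0, nr r f ≤ ENNReal.ofReal (Real.exp (C * (1 + (r : ℝ) ^ 2)))

/-- value of a power series -/
def ev (f : ℂ⟦X⟧) (z : ℂ) : ℂ := ∑' n : ℕ, coeff n f * z ^ n

/-- sum of the absolute values of the coefficients -/
def nm {σ : Type*} (p : MvPolynomial σ ℂ) : ℝ := ∑ m ∈ p.support, ‖p.coeff m‖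

/-- the same for polynomials in one variable -/
def nm1 (p : Polynomial ℂ) : ℝ := ∑ m ∈ p.support, ‖p.coeff m‖

/-- the ring hom `𝓞 K → ℂ` given by an embedding -/
noncomputable abbrev oc {K : Type*} [Field K] (σ : K →+* ℂ) : NumberField.RingOfIntegers K →+* ℂ :=
  σ.comp (algebraMap (NumberField.RingOfIntegers K) K)

/-! ## Lattice functions -/

/-- the Weierstrass zeta function (the term `l = 0` is `1/z`) -/
def zetaL (L : PeriodPair) (z : ℂ) : ℂ := ∑' l : L.lattice, (1 / (z - l) + 1 / l + z / l ^ 2)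

/-- `(z, ℘(z), ℘'(z)/2)` -/
def v3 (L : PeriodPair) (z : ℂ) : Fin 3 → ℂ :=
  ![z, L.weierstrassP z, L.derivWeierstrassP z / 2]

/-- `(z, ℘(z), ℘'(z)/2, ζ(z))` -/
def v4 (L : PeriodPair) (z : ℂ) : Fin 4 → ℂ :=
  ![z, L.weierstrassP z, L.derivWeierstrassP z / 2, zetaL L z]

/-! ## Arithmetic hypotheses -/

/-- denominators of the coefficients of `xS^j zS^k` -/
def GoodDen (K : Type*) [Field K] (a b : K) (N0 : ℕ) : Prop :=
  ∃ D : ℕ → ℕ, (∀ n, 0 < D n) ∧ (∀ m n, m ≤ n → D m ∣ D n) ∧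
    (∃ C : ℝ, 0 ≤ C ∧ ∀ n : ℕ, Real.log (D n) ≤ (1 / 2) * n * Real.log n + C * n + C) ∧
    ∀ j k n : ℕ, j < N0 → k < N0 →
      IsIntegral ℤ ((D n : K) * coeff n (xS a b ^ j * zS a b ^ k))

open Classical in
/-- the supersingular hypothesis -/
def HS (K : Type*) [Field K] (a b : K) : Prop :=
  ∃ S : Set ℕ, (∀ p ∈ S, p.Prime) ∧
    (∃ C : ℝ, ∀ N : ℕ, 1 ≤ N →
      ∑ p ∈ (Finset.range (N + 1)).filter (fun p => p.Prime ∧ p ∉ S), Real.log p / p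
        ≤ (1 / 2) * Real.log N + C) ∧
    ∀ p ∈ S, ∀ n : ℕ, IsIntegral ℤ (Tn a b n / (p : K) ^ (n / p)) ∧
      IsIntegral ℤ (Wn a b n / (p : K) ^ (n / p))

end

end Pool.Agent.ZCM
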