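import Pool.Agent.ZCM.Gel

/-! # G2: heights of factors (Mahler measure) -/

namespace Pool.Agent.ZCM
open Polynomial

theorem GelHt_nm1_eq (p : ℂ[X]) : nm1 p = ∑ i ∈ Finset.range (p.natDegree + 1), ‖p.coeff i‖ := by
  unfold nm1
  refine Finset.sum_subset supp_subset_range_natDegree_succ fun i _ hi => ?_
  rw [notMem_support_iff.1 hi, norm_zero]

theorem GelHt_mahler_le (p : ℂ[X]) : p.mahlerMeasure ≤ nm1 p :=
  mahlerMeasure_le_sum_norm_coeff p

theorem GelHt_le_mahler (p : ℂ[X]) : nm1 p ≤ 2 ^ p.natDegree * p.mahlerMeasure := by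
  rw [GelHt_nm1_eq]
  calc ∑ i ∈ Finset.range (p.natDegree + 1), ‖p.coeff i‖
      ≤ ∑ i ∈ Finset.range (p.natDegree + 1), (p.natDegree.choose i : ℝ) * p.mahlerMeasure :=
        Finset.sum_le_sum fun i _ => norm_coeff_le_choose_mul_mahlerMeasure i p
    _ = 2 ^ p.natDegree * p.mahlerMeasure := by
        rw [← Finset.sum_mul]
        congr 1
        have := Nat.sum_range_choose p.natDegree
        exact_mod_cast this

theorem nmZ_mul_ge (δ : ℕ) : ∃ C : ℝ, 1 ≤ C ∧ ∀ A B : ℤ[X], A ≠ 0 → B ≠ 0 →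
    (A * B).natDegree ≤ δ → nmZ A * nmZ B ≤ C * nmZ (A * B) := by
  refine ⟨2 ^ δ, one_le_pow₀ (by norm_num), ?_⟩
  intro A B hA hB hd
  have hinj : Function.Injective (Int.castRingHom ℂ) := RingHom.injective_int _
  have hdA : (A.map (Int.castRingHom ℂ)).natDegree = A.natDegree :=
    natDegree_map_eq_of_injective hinj A
  have hdB : (B.map (Int.castRingHom ℂ)).natDegree = B.natDegree :=
    natDegree_map_eq_of_injective hinj B
  have hAB : A.natDegree + B.natDegree ≤ δ := by
    rw [← natDegree_mul hA hB]; exact hd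
  have h1 := GelHt_le_mahler (A.map (Int.castRingHom ℂ))
  have h2 := GelHt_le_mahler (B.map (Int.castRingHom ℂ))
  have h3 := GelHt_mahler_le ((A * B).map (Int.castRingHom ℂ))
  rw [Polynomial.map_mul, mahlerMeasure_mul] at h3
  have h0A := mahlerMeasure_nonneg (A.map (Int.castRingHom ℂ))
  have h0B := mahlerMeasure_nonneg (B.map (Int.castRingHom ℂ))
  calc nmZ A * nmZ B ≤ (2 ^ A.natDegree * (A.map (Int.castRingHom ℂ)).mahlerMeasure) *
        (2 ^ B.natDegree * (B.map (Int.castRingHom ℂ)).mahlerMeasure) := by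
        rw [hdA] at h1; rw [hdB] at h2
        exact mul_le_mul h1 h2 (nm1_nonneg _) (by positivity)
    _ = 2 ^ (A.natDegree + B.natDegree) * ((A.map (Int.castRingHom ℂ)).mahlerMeasure *
        (B.map (Int.castRingHom ℂ)).mahlerMeasure) := by rw [pow_add]; ring
    _ ≤ 2 ^ δ * nmZ (A * B) := by
        refine mul_le_mul (pow_le_pow_right₀ (by norm_num) hAB) ?_ (by positivity) (by positivity)
        rw [nmZ, Polynomial.map_mul]; exact h3

end Pool.Agent.ZCM
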