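import Pool.Agent.ZCM.Gel

/-! # G1: the resultant inequality -/

namespace Pool.Agent.ZCM
open Polynomial

/-- Leibniz bound of a determinant with entries bounded by `r i * c j`. -/
theorem GelRes_det_le {N : ℕ} (M : Matrix (Fin N) (Fin N) ℂ) (r c : Fin N → ℝ)
    (h : ∀ i j, ‖M i j‖ ≤ r i * c j) :
    ‖M.det‖ ≤ N.factorial * ((∏ i, r i) * ∏ j, c j) := by
  rw [Matrix.det_apply']
  refine (norm_sum_le _ _).trans ?_
  have hterm : ∀ σ ∈ (Finset.univ : Finset (Equiv.Perm (Fin N))),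
      ‖((Equiv.Perm.sign σ : ℤ) : ℂ) * ∏ i, M (σ i) i‖ ≤ (∏ i, r i) * ∏ j, c j := by
    intro σ _
    have h1 : ‖((Equiv.Perm.sign σ : ℤ) : ℂ)‖ = 1 := by
      rcases Int.units_eq_one_or (Equiv.Perm.sign σ) with h | h <;> simp [h]
    rw [norm_mul, h1, one_mul, norm_prod]
    calc ∏ i, ‖M (σ i) i‖ ≤ ∏ i, (r (σ i) * c i) :=
          Finset.prod_le_prod (fun i _ => norm_nonneg _) fun i _ => h _ _
      _ = (∏ i, r i) * ∏ j, c j := by
          rw [Finset.prod_mul_distrib, Equiv.prod_comp σ r]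
  refine (Finset.sum_le_sum hterm).trans ?_
  rw [Finset.sum_const, Finset.card_univ, Fintype.card_perm, Fintype.card_fin, nsmul_eq_mul]

/-- relatively prime integer polynomials are coprime over the rationals -/
theorem GelRes_coprime (A B : ℤ[X]) (hA : A ≠ 0) (h : IsRelPrime A B) :
    IsCoprime (A.map (algebraMap ℤ ℚ)) (B.map (algebraMap ℤ ℚ)) := by
  rw [← isRelPrime_iff_isCoprime]
  intro z hzA hzB
  have hz0 : z ≠ 0 := by
    rintro rfl
    rw [zero_dvd_iff] at hzA
    exact hA ((Polynomial.map_eq_zero_iff (algebraMap ℤ ℚ).injective_int).1 hzA)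
  have hy0 : IsLocalization.integerNormalization (nonZeroDivisors ℤ) z ≠ 0 := fun hh =>
    hz0 (IsFractionRing.integerNormalization_eq_zero_iff.1 hh)
  set y := IsLocalization.integerNormalization (nonZeroDivisors ℤ) z with hy
  obtain ⟨b, hb0, hb⟩ := IsLocalization.integerNormalization_spec (nonZeroDivisors ℤ) z
  rw [← hy] at hb
  have hb0' : (b : ℚ) ≠ 0 := by
    have : b ≠ 0 := nonZeroDivisors.ne_zero hb0
    exact_mod_cast this
  have hdvd : y.primPart.map (algebraMap ℤ ℚ) ∣ z := by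
    have h1 : y.primPart.map (algebraMap ℤ ℚ) ∣ y.map (algebraMap ℤ ℚ) :=
      Polynomial.map_dvd _ y.primPart_dvd
    rw [hb] at h1
    have h2 : b • z = C (b : ℚ) * z := by
      rw [← Polynomial.smul_eq_C_mul]
      ext i
      simp
    rw [h2] at h1
    exact (IsUnit.dvd_mul_left (isUnit_C.2 (isUnit_iff_ne_zero.2 hb0'))).1 h1
  have hA' : y.primPart ∣ A :=
    y.isPrimitive_primPart.dvd_of_fraction_map_dvd_fraction_map (K := ℚ) (hdvd.trans hzA)
  have hB' : y.primPart ∣ B :=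
    y.isPrimitive_primPart.dvd_of_fraction_map_dvd_fraction_map (K := ℚ) (hdvd.trans hzB)
  exact isUnit_or_eq_zero_of_isUnit_integerNormalization_primPart hz0 (h hA' hB')

theorem GelRes_res_ne_zero (A B : ℤ[X]) (hA : A ≠ 0) (h : IsRelPrime A B) :
    resultant A B A.natDegree B.natDegree ≠ 0 := by
  intro h0
  have h1 := resultant_ne_zero _ _ (GelRes_coprime A B hA h)
  apply h1
  have hinj : Function.Injective (algebraMap ℤ ℚ) := (algebraMap ℤ ℚ).injective_int
  rw [natDegree_map_eq_of_injective hinj, natDegree_map_eq_of_injective hinj,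
    resultant_map_map, h0, map_zero]

/-- entries of the Sylvester matrix, left block -/
theorem GelRes_syl_left (f g : ℂ[X]) (m n : ℕ) (hg : g.natDegree ≤ n) (i : Fin (m + n))
    (j : Fin m) : sylvester f g m n i (Fin.castAdd n j) = (X ^ (j : ℕ) * g).coeff i := by
  rw [sylvester, Matrix.of_apply, Fin.addCases_left, coeff_X_pow_mul']
  by_cases h1 : (j : ℕ) ≤ i
  · by_cases h2 : (i : ℕ) ≤ j + n
    · simp [h1, h2]
    · rw [if_neg (by simp [h2]), if_pos h1, coeff_eq_zero_of_natDegree_lt (by omega)]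
  · simp [h1]

theorem GelRes_syl_right (f g : ℂ[X]) (m n : ℕ) (hf : f.natDegree ≤ m) (i : Fin (m + n))
    (j : Fin n) : sylvester f g m n i (Fin.natAdd m j) = (X ^ (j : ℕ) * f).coeff i := by
  rw [sylvester, Matrix.of_apply, Fin.addCases_right, coeff_X_pow_mul']
  by_cases h1 : (j : ℕ) ≤ i
  · by_cases h2 : (i : ℕ) ≤ j + m
    · simp [h1, h2]
    · rw [if_neg (by simp [h2]), if_pos h1, coeff_eq_zero_of_natDegree_lt (by omega)]
  · simp [h1]

theorem GelRes_sum (p : ℂ[X]) (θ : ℂ) (N : ℕ) (hp : p.natDegree < N) :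
    ∑ k : Fin N, θ ^ (k : ℕ) * p.coeff k = p.eval θ := by
  rw [eval_eq_sum_range' hp θ, Finset.sum_range]
  exact Finset.sum_congr rfl fun i _ => mul_comm _ _

theorem GelRes_coeff_le (p : ℂ[X]) (j i : ℕ) : ‖(X ^ j * p).coeff i‖ ≤ nm1 p := by
  rw [coeff_X_pow_mul']
  split_ifs
  · exact norm_coeff_le_nm1 p _
  · simpa using nm1_nonneg p

/-- the analytic part of the inequality -/
theorem GelRes_le (f g : ℂ[X]) (m n : ℕ) (hf : f.natDegree ≤ m) (hg : g.natDegree ≤ n)
    (hmn : 0 < m + n) (hf1 : 1 ≤ nm1 f) (hg1 : 1 ≤ nm1 g) (θ : ℂ) :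
    ‖resultant f g m n‖ ≤ (m + n).factorial * (max 1 ‖θ‖ ^ (m + n)
      * max ‖f.eval θ‖ ‖g.eval θ‖ * (nm1 g ^ m * nm1 f ^ n)) := by
  obtain ⟨N, hN⟩ : ∃ N, m + n = N := ⟨_, rfl⟩
  have : NeZero (m + n) := ⟨hmn.ne'⟩
  set M := sylvester f g m n with hM
  set μ : ℝ := max 1 ‖θ‖ ^ (m + n) * max ‖f.eval θ‖ ‖g.eval θ‖ with hμ
  have hμ0 : 0 ≤ μ := by positivity
  set v : Fin (m + n) → ℂ := ∑ k : Fin (m + n), (θ ^ (k : ℕ)) • M k with hv
  have hdet : (M.updateRow 0 v).det = M.det := by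
    rw [hv, Matrix.det_updateRow_sum]
    simp
  have hres : resultant f g m n = (M.updateRow 0 v).det := by
    rw [hdet]; rfl
  rw [hres]
  have hθ1 : (1 : ℝ) ≤ max 1 ‖θ‖ := le_max_left _ _
  have hpow : ∀ j : ℕ, j ≤ m + n → ‖θ‖ ^ j ≤ max 1 ‖θ‖ ^ (m + n) := fun j hj =>
    (pow_le_pow_left₀ (norm_nonneg _) (le_max_right _ _) _).trans (pow_le_pow_right₀ hθ1 hj)
  have hvl : ∀ j : Fin m, ‖v (Fin.castAdd n j)‖ ≤ μ := by
    intro j
    have h1 : v (Fin.castAdd n j) = (X ^ (j : ℕ) * g).eval θ := by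
      rw [← GelRes_sum (X ^ (j : ℕ) * g) θ (m + n), hv, Finset.sum_apply]
      · refine Finset.sum_congr rfl fun k _ => ?_
        rw [Pi.smul_apply, smul_eq_mul, hM, GelRes_syl_left f g m n hg]
      · have := natDegree_mul_le (p := (X ^ (j : ℕ) : ℂ[X])) (q := g)
        rw [natDegree_X_pow] at this
        have := j.2
        omega
    rw [h1, eval_mul, eval_pow, eval_X, norm_mul, norm_pow, hμ]
    exact mul_le_mul (hpow _ (by have := j.2; omega)) (le_max_right _ _) (norm_nonneg _)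
      (by positivity)
  have hvr : ∀ j : Fin n, ‖v (Fin.natAdd m j)‖ ≤ μ := by
    intro j
    have h1 : v (Fin.natAdd m j) = (X ^ (j : ℕ) * f).eval θ := by
      rw [← GelRes_sum (X ^ (j : ℕ) * f) θ (m + n), hv, Finset.sum_apply]
      · refine Finset.sum_congr rfl fun k _ => ?_
        rw [Pi.smul_apply, smul_eq_mul, hM, GelRes_syl_right f g m n hf]
      · have := natDegree_mul_le (p := (X ^ (j : ℕ) : ℂ[X])) (q := f)
        rw [natDegree_X_pow] at this
        have := j.2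
        omega
    rw [h1, eval_mul, eval_pow, eval_X, norm_mul, norm_pow, hμ]
    exact mul_le_mul (hpow _ (by have := j.2; omega)) (le_max_left _ _) (norm_nonneg _)
      (by positivity)
  set r : Fin (m + n) → ℝ := fun i => if i = 0 then μ else 1 with hr
  set c : Fin (m + n) → ℝ := fun j => j.addCases (fun _ => nm1 g) (fun _ => nm1 f) with hc
  have hcl : ∀ j : Fin m, c (Fin.castAdd n j) = nm1 g := fun j => by
    simp only [hc, Fin.addCases_left]
  have hcr : ∀ j : Fin n, c (Fin.natAdd m j) = nm1 f := fun j => by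
    simp only [hc, Fin.addCases_right]
  have key := GelRes_det_le (M.updateRow 0 v) r c (by
    intro i j
    by_cases hi : i = 0
    · subst hi
      rw [Matrix.updateRow_self, hr]
      simp only [if_true]
      induction j using Fin.addCases with
      | left j =>
        rw [hcl]
        exact (hvl j).trans (le_mul_of_one_le_right hμ0 hg1)
      | right j =>
        rw [hcr]
        exact (hvr j).trans (le_mul_of_one_le_right hμ0 hf1)
    · rw [Matrix.updateRow_ne hi, hr]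
      simp only [hi, if_false, one_mul]
      induction j using Fin.addCases with
      | left j =>
        rw [hcl, hM, GelRes_syl_left f g m n hg]
        exact GelRes_coeff_le _ _ _
      | right j =>
        rw [hcr, hM, GelRes_syl_right f g m n hf]
        exact GelRes_coeff_le _ _ _)
  have hprodr : ∏ i, r i = μ := by
    rw [hr, Finset.prod_ite_eq' Finset.univ (0 : Fin (m + n)) (fun _ => μ)]
    simp
  have hprodc : ∏ j, c j = nm1 g ^ m * nm1 f ^ n := by
    rw [Fin.prod_univ_add]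
    simp only [hcl, hcr, Finset.prod_const, Finset.card_univ, Fintype.card_fin]
  rw [hprodr, hprodc] at key
  exact key

theorem res_ineq (δ : ℕ) (θ : ℂ) : ∃ C : ℝ, 1 ≤ C ∧ ∀ A B : ℤ[X], A ≠ 0 → B ≠ 0 →
    IsRelPrime A B → A.natDegree ≤ δ → B.natDegree ≤ δ →
    1 ≤ C * (nmZ A * nmZ B) ^ δ * max ‖aeval θ A‖ ‖aeval θ B‖ := by
  have hT : (1 : ℝ) ≤ max 1 ‖θ‖ := le_max_left _ _
  refine ⟨((2 * δ).factorial : ℝ) * max 1 ‖θ‖ ^ (2 * δ), ?_, ?_⟩
  · have h1 : (1 : ℝ) ≤ ((2 * δ).factorial : ℝ) := by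
      exact_mod_cast Nat.one_le_iff_ne_zero.2 (Nat.factorial_ne_zero _)
    exact one_le_mul_of_one_le_of_one_le h1 (one_le_pow₀ hT)
  intro A B hA hB hAB hdA hdB
  have hinj : Function.Injective (Int.castRingHom ℂ) := (Int.castRingHom ℂ).injective_int
  have hA1 := one_le_nmZ A hA
  have hB1 := one_le_nmZ B hB
  have hevA : aeval θ A = (A.map (Int.castRingHom ℂ)).eval θ := by
    rw [eval_map, aeval_def]; rfl
  have hevB : aeval θ B = (B.map (Int.castRingHom ℂ)).eval θ := by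
    rw [eval_map, aeval_def]; rfl
  have hfac : (1 : ℝ) ≤ ((2 * δ).factorial : ℝ) := by
    exact_mod_cast Nat.one_le_iff_ne_zero.2 (Nat.factorial_ne_zero _)
  rcases Nat.eq_zero_or_pos (A.natDegree + B.natDegree) with h0 | h0
  · have hA0 : A.natDegree = 0 := by omega
    have hAC := eq_C_of_natDegree_eq_zero hA0
    have ha : A.coeff 0 ≠ 0 := by
      intro h
      rw [h, map_zero] at hAC
      exact hA hAC
    have h1 : (1 : ℝ) ≤ ‖aeval θ A‖ := by
      rw [hAC, aeval_C]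
      have : (1 : ℝ) ≤ |(A.coeff 0 : ℝ)| := by
        exact_mod_cast Int.one_le_abs ha
      simpa using this
    have h2 : (1 : ℝ) ≤ max ‖aeval θ A‖ ‖aeval θ B‖ := h1.trans (le_max_left _ _)
    have h3 : (1 : ℝ) ≤ (nmZ A * nmZ B) ^ δ :=
      one_le_pow₀ (one_le_mul_of_one_le_of_one_le hA1 hB1)
    have h4 : (1 : ℝ) ≤ ((2 * δ).factorial : ℝ) * max 1 ‖θ‖ ^ (2 * δ) :=
      one_le_mul_of_one_le_of_one_le hfac (one_le_pow₀ hT)
    exact one_le_mul_of_one_le_of_one_le (one_le_mul_of_one_le_of_one_le h4 h3) h2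
  · have hres := GelRes_res_ne_zero A B hA hAB
    have h1 : (1 : ℝ) ≤ ‖resultant (A.map (Int.castRingHom ℂ)) (B.map (Int.castRingHom ℂ))
        A.natDegree B.natDegree‖ := by
      rw [resultant_map_map]
      have : (1 : ℝ) ≤ |((resultant A B A.natDegree B.natDegree : ℤ) : ℝ)| := by
        exact_mod_cast Int.one_le_abs hres
      simpa using this
    have h2 := GelRes_le (A.map (Int.castRingHom ℂ)) (B.map (Int.castRingHom ℂ))
      A.natDegree B.natDegree (natDegree_map_le) (natDegree_map_le) h0 hA1 hB1 θ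
    refine h1.trans (h2.trans ?_)
    rw [hevA, hevB]
    set μ := max ‖(A.map (Int.castRingHom ℂ)).eval θ‖ ‖(B.map (Int.castRingHom ℂ)).eval θ‖ with hμ
    have hμ0 : 0 ≤ μ := le_max_of_le_left (norm_nonneg _)
    have hf1 : ((A.natDegree + B.natDegree).factorial : ℝ) ≤ ((2 * δ).factorial : ℝ) := by
      exact_mod_cast Nat.factorial_le (by omega)
    have hT1 : max 1 ‖θ‖ ^ (A.natDegree + B.natDegree) ≤ max 1 ‖θ‖ ^ (2 * δ) :=
      pow_le_pow_right₀ hT (by omega)
    have hn1 : nm1 (B.map (Int.castRingHom ℂ)) ^ A.natDegree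
        * nm1 (A.map (Int.castRingHom ℂ)) ^ B.natDegree ≤ (nmZ A * nmZ B) ^ δ := by
      rw [mul_pow, mul_comm (nmZ A ^ δ)]
      exact mul_le_mul (pow_le_pow_right₀ hB1 hdA) (pow_le_pow_right₀ hA1 hdB)
        (pow_nonneg (nm1_nonneg _) _) (pow_nonneg (nm1_nonneg _) _)
    have hn0 : 0 ≤ nm1 (B.map (Int.castRingHom ℂ)) ^ A.natDegree
        * nm1 (A.map (Int.castRingHom ℂ)) ^ B.natDegree :=
      mul_nonneg (pow_nonneg (nm1_nonneg _) _) (pow_nonneg (nm1_nonneg _) _)
    calc ((A.natDegree + B.natDegree).factorial : ℝ) *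
          (max 1 ‖θ‖ ^ (A.natDegree + B.natDegree) * μ *
            (nm1 (B.map (Int.castRingHom ℂ)) ^ A.natDegree
              * nm1 (A.map (Int.castRingHom ℂ)) ^ B.natDegree))
        ≤ ((2 * δ).factorial : ℝ) * (max 1 ‖θ‖ ^ (2 * δ) * μ * (nmZ A * nmZ B) ^ δ) := by
          gcongr
      _ = ((2 * δ).factorial : ℝ) * max 1 ‖θ‖ ^ (2 * δ) * (nmZ A * nmZ B) ^ δ * μ := by ring

end Pool.Agent.ZCM
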