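import Pool.Agent.ZCM.Link

/-! # L3: quasi-periodicity, lower bound for `σ'` at lattice points, Legendre -/

namespace Pool.Agent.ZCM
open Filter Topology PowerSeries

theorem Quasi_dense (L : PeriodPair) : Dense ((L.lattice : Set ℂ)ᶜ) := by
  intro z
  by_cases hz : z ∈ L.lattice
  · rw [mem_closure_iff_frequently]
    have h := (eventually_notMem' L z hz).frequently
    exact (h.filter_mono nhdsWithin_le_nhds)
  · exact subset_closure hz

variable (L : PeriodPair) (a b : ℂ) (h2 : L.g₂ = -4 * a) (h3 : L.g₃ = -4 * b)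

include h2 h3

theorem S_add (ω : L.lattice) (e : ℂ) (he : ∀ z ∉ L.lattice, zetaL L (z + ω) = zetaL L z + e) :
    ev (RR a b) ω ≠ 0 ∧
      ∀ z : ℂ, ev (SS a b) (z + ω) = ev (RR a b) ω * Complex.exp (e * z) * ev (SS a b) z := by
  have hF : ∀ z : ℂ, HasDerivAt (fun z : ℂ => ev (SS a b) (z + ω) * Complex.exp (-(e * z)))
      (ev (RR a b) (z + ω) * Complex.exp (-(e * z))
        + ev (SS a b) (z + ω) * (Complex.exp (-(e * z)) * (-e))) z := by
    intro z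
    have h1 : HasDerivAt (fun z : ℂ => ev (SS a b) (z + ω)) (ev (RR a b) (z + ω)) z :=
      (hasDerivAt_S a b (z + ω)).comp_add_const z ω
    have h4 : HasDerivAt (fun z : ℂ => Complex.exp (-(e * z)))
        (Complex.exp (-(e * z)) * (-e)) z := by
      have h5 : HasDerivAt (fun z : ℂ => -(e * z)) (-(e * 1)) z :=
        ((hasDerivAt_id z).const_mul e).neg
      rw [mul_one] at h5
      exact h5.cexp
    exact h1.mul h4
  have hne : ∀ z ∉ L.lattice, ev (SS a b) z ≠ 0 := fun z hz h =>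
    hz ((S_eq_zero_iff L a b h2 h3 z).1 h)
  have hadd : ∀ z ∉ L.lattice, z + (ω : ℂ) ∉ L.lattice := fun z hz h =>
    hz (by simpa using L.lattice.sub_mem h ω.2)
  have hq : ∀ z ∉ L.lattice, HasDerivAt
      (fun z : ℂ => ev (SS a b) (z + ω) * Complex.exp (-(e * z)) / ev (SS a b) z) 0 z := by
    intro z hz
    have h := (hF z).div (hasDerivAt_S a b z) (hne z hz)
    have h6 := link_R L a b h2 h3 hz
    have h7 := link_R L a b h2 h3 (hadd z hz)
    rw [he z hz] at h7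
    have h8 : ((ev (RR a b) (z + ω) * Complex.exp (-(e * z))
        + ev (SS a b) (z + ω) * (Complex.exp (-(e * z)) * (-e))) * ev (SS a b) z
        - ev (SS a b) (z + ω) * Complex.exp (-(e * z)) * ev (RR a b) z) / ev (SS a b) z ^ 2
        = 0 := by
      rw [← h6, ← h7]
      ring_nf
    rw [h8] at h
    exact h
  obtain ⟨z₀, hz₀⟩ : ∃ z, z ∉ L.lattice := ⟨_, L.ω₁_div_two_notMem_lattice⟩
  have hconst : ∀ z ∉ L.lattice,
      ev (SS a b) (z + ω) * Complex.exp (-(e * z)) / ev (SS a b) z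
        = ev (SS a b) (z₀ + ω) * Complex.exp (-(e * z₀)) / ev (SS a b) z₀ := by
    intro z hz
    exact (isOpen_compl L).is_const_of_deriv_eq_zero (isPreconnected_compl L)
      (fun x hx => (hq x hx).differentiableAt.differentiableWithinAt)
      (fun x hx => (hq x hx).deriv) hz hz₀
  obtain ⟨c, hc⟩ : ∃ c, c = ev (SS a b) (z₀ + ω) * Complex.exp (-(e * z₀)) / ev (SS a b) z₀ :=
    ⟨_, rfl⟩
  have hc0 : c ≠ 0 := by
    rw [hc]
    exact div_ne_zero (mul_ne_zero (hne _ (hadd _ hz₀)) (Complex.exp_ne_zero _)) (hne _ hz₀)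
  have hall : (fun z : ℂ => ev (SS a b) (z + ω) * Complex.exp (-(e * z)))
      = fun z => c * ev (SS a b) z := by
    have hcont1 : Continuous fun z : ℂ => ev (SS a b) (z + ω) * Complex.exp (-(e * z)) :=
      continuous_iff_continuousAt.2 fun z => (hF z).continuousAt
    have hcont2 : Continuous fun z : ℂ => c * ev (SS a b) z :=
      continuous_const.mul (continuous_iff_continuousAt.2 fun z => (hasDerivAt_S a b z).continuousAt)
    refine hcont1.ext_on (Quasi_dense L) hcont2 ?_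
    intro z hz
    have h9 := hconst z hz
    rw [← hc, div_eq_iff (hne z hz)] at h9
    exact h9
  have hS : ∀ z : ℂ, ev (SS a b) (z + ω) = c * Complex.exp (e * z) * ev (SS a b) z := by
    intro z
    have h10 : ev (SS a b) (z + ω) * Complex.exp (-(e * z)) = c * ev (SS a b) z :=
      congrFun hall z
    have h11 : Complex.exp (-(e * z)) * Complex.exp (e * z) = 1 := by
      rw [← Complex.exp_add]; simp
    calc ev (SS a b) (z + ω) = (ev (SS a b) (z + ω) * Complex.exp (-(e * z)))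
          * Complex.exp (e * z) := by rw [mul_assoc, h11, mul_one]
      _ = c * ev (SS a b) z * Complex.exp (e * z) := by rw [h10]
      _ = _ := by ring
  have hR : ev (RR a b) ω = c := by
    have h12 := (hF 0).unique (by
      rw [hall]
      exact (hasDerivAt_S a b 0).const_mul c)
    rw [zero_add, (S_eq_zero_iff L a b h2 h3 (ω : ℂ)).2 ω.2, R_zero] at h12
    simpa using h12
  rw [hR]
  exact ⟨hc0, hS⟩

theorem Quasi_R_add (ω ω' : L.lattice) (e : ℂ)
    (he : ∀ z ∉ L.lattice, zetaL L (z + ω) = zetaL L z + e) :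
    ev (RR a b) (ω' + ω) = ev (RR a b) ω * Complex.exp (e * ω') * ev (RR a b) ω' := by
  obtain ⟨-, hS⟩ := S_add L a b h2 h3 ω e he
  have h1 : HasDerivAt (fun z : ℂ => ev (SS a b) (z + ω)) (ev (RR a b) (ω' + ω)) ω' :=
    (hasDerivAt_S a b (ω' + ω)).comp_add_const (ω' : ℂ) ω
  have h4 : HasDerivAt (fun z : ℂ => Complex.exp (e * z))
      (Complex.exp (e * ω') * e) ω' := by
    have h5 : HasDerivAt (fun z : ℂ => e * z) (e * 1) ω' :=
      (hasDerivAt_id (ω' : ℂ)).const_mul e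
    rw [mul_one] at h5
    exact h5.cexp
  have h6 := (h4.const_mul (ev (RR a b) ω)).mul (hasDerivAt_S a b (ω' : ℂ))
  have h7 : (fun z : ℂ => ev (SS a b) (z + ω))
      = (fun z : ℂ => ev (RR a b) ω * Complex.exp (e * z)) * ev (SS a b) := by
    funext z
    simp [hS z]
  rw [h7] at h1
  have h8 := h1.unique h6
  rw [(S_eq_zero_iff L a b h2 h3 (ω' : ℂ)).2 ω'.2] at h8
  simpa using h8

theorem RR_lower : ∃ C : ℝ, 0 ≤ C ∧ ∀ m n : ℕ,
    Real.exp (-C * ((m : ℝ) ^ 2 + (n : ℝ) ^ 2 + 1)) ≤ ‖ev (RR a b) (m * L.ω₁ + n * L.ω₂)‖ := by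
  obtain ⟨η, hη⟩ := zetaL_add L
  obtain ⟨l1, hl1⟩ : ∃ l : L.lattice, (l : ℂ) = L.ω₁ := ⟨⟨L.ω₁, L.ω₁_mem_lattice⟩, rfl⟩
  obtain ⟨l2, hl2⟩ : ∃ l : L.lattice, (l : ℂ) = L.ω₂ := ⟨⟨L.ω₂, L.ω₂_mem_lattice⟩, rfl⟩
  -- the one step estimate
  have hstep : ∀ l : L.lattice, ∃ K : ℝ, 0 ≤ K ∧ ∀ (m n : ℕ) (x : ℂ),
      x = m * L.ω₁ + n * L.ω₂ →
      Real.exp (-K * (1 + m + n)) * ‖ev (RR a b) x‖ ≤ ‖ev (RR a b) (x + l)‖ := by
    intro l
    have h0 : ev (RR a b) l ≠ 0 := (S_add L a b h2 h3 l (η l) fun z hz => hη z hz l).1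
    refine ⟨|Real.log ‖ev (RR a b) l‖| + ‖η l‖ * (‖L.ω₁‖ + ‖L.ω₂‖), by positivity, ?_⟩
    intro m n x hx
    have hxm : x ∈ L.lattice := by
      rw [hx, PeriodPair.mem_lattice]
      exact ⟨m, n, by push_cast; rfl⟩
    have h := Quasi_R_add L a b h2 h3 l ⟨x, hxm⟩ (η l) fun z hz => hη z hz l
    simp only at h
    rw [h, norm_mul, norm_mul, Complex.norm_exp]
    refine mul_le_mul_of_nonneg_right ?_ (norm_nonneg _)
    have h1 : Real.exp (-|Real.log ‖ev (RR a b) l‖|) ≤ ‖ev (RR a b) l‖ := by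
      calc Real.exp (-|Real.log ‖ev (RR a b) l‖|) ≤ Real.exp (Real.log ‖ev (RR a b) l‖) :=
            Real.exp_le_exp.2 (neg_abs_le _)
        _ = _ := Real.exp_log (norm_pos_iff.2 h0)
    have hm : (0 : ℝ) ≤ m := m.cast_nonneg
    have hn : (0 : ℝ) ≤ n := n.cast_nonneg
    have hxn : ‖x‖ ≤ (‖L.ω₁‖ + ‖L.ω₂‖) * (m + n) := by
      rw [hx]
      refine (norm_add_le _ _).trans ?_
      rw [norm_mul, norm_mul, Complex.norm_natCast, Complex.norm_natCast]
      nlinarith [mul_nonneg hm (norm_nonneg L.ω₂), mul_nonneg hn (norm_nonneg L.ω₁)]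
    have h2' : -(‖η l‖ * (‖L.ω₁‖ + ‖L.ω₂‖) * (m + n)) ≤ (η l * x).re := by
      have h3' : |(η l * x).re| ≤ ‖η l * x‖ := Complex.abs_re_le_norm _
      rw [norm_mul] at h3'
      have h4 : ‖η l‖ * ‖x‖ ≤ ‖η l‖ * ((‖L.ω₁‖ + ‖L.ω₂‖) * (m + n)) :=
        mul_le_mul_of_nonneg_left hxn (norm_nonneg _)
      have h5 := neg_abs_le (η l * x).re
      nlinarith
    calc Real.exp (-(|Real.log ‖ev (RR a b) l‖| + ‖η l‖ * (‖L.ω₁‖ + ‖L.ω₂‖)) * (1 + m + n))
        ≤ Real.exp (-|Real.log ‖ev (RR a b) l‖| + -(‖η l‖ * (‖L.ω₁‖ + ‖L.ω₂‖) * (m + n))) := by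
          refine Real.exp_le_exp.2 ?_
          have h6 : 0 ≤ |Real.log ‖ev (RR a b) l‖| := abs_nonneg _
          have h7 : 0 ≤ ‖η l‖ * (‖L.ω₁‖ + ‖L.ω₂‖) := by positivity
          nlinarith [mul_nonneg h6 hm, mul_nonneg h6 hn]
      _ = Real.exp (-|Real.log ‖ev (RR a b) l‖|)
            * Real.exp (-(‖η l‖ * (‖L.ω₁‖ + ‖L.ω₂‖) * (m + n))) := Real.exp_add _ _
      _ ≤ ‖ev (RR a b) l‖ * Real.exp (η l * x).re :=
          mul_le_mul h1 (Real.exp_le_exp.2 h2') (Real.exp_nonneg _) (norm_nonneg _)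
  obtain ⟨K1, hK1, hs1⟩ := hstep l1
  obtain ⟨K2, hK2, hs2⟩ := hstep l2
  obtain ⟨K, hK⟩ : ∃ K, K = max K1 K2 := ⟨_, rfl⟩
  have hKK1 : K1 ≤ K := hK ▸ le_max_left _ _
  have hKK2 : K2 ≤ K := hK ▸ le_max_right _ _
  have hK0 : 0 ≤ K := hK1.trans hKK1
  have hmain : ∀ m n : ℕ, Real.exp (-K * ((m : ℝ) + n) ^ 2)
      ≤ ‖ev (RR a b) (m * L.ω₁ + n * L.ω₂)‖ := by
    intro m
    induction m with
    | zero =>
      intro n
      induction n with
      | zero => simp [R_zero]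
      | succ n ih =>
        have h := hs2 0 n _ rfl
        have hn : (0 : ℝ) ≤ n := n.cast_nonneg
        rw [hl2] at h
        have e1 : ((0 : ℕ) : ℂ) * L.ω₁ + (n : ℂ) * L.ω₂ + L.ω₂
            = ((0 : ℕ) : ℂ) * L.ω₁ + ((n + 1 : ℕ) : ℂ) * L.ω₂ := by push_cast; ring
        rw [e1] at h
        refine le_trans ?_ (le_trans (mul_le_mul_of_nonneg_left ih (Real.exp_nonneg _)) h)
        rw [← Real.exp_add]
        refine Real.exp_le_exp.2 ?_
        push_cast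
        nlinarith [mul_nonneg hK0 hn]
    | succ m ih =>
      intro n
      have h := hs1 m n _ rfl
      have hn : (0 : ℝ) ≤ n := n.cast_nonneg
      have hm : (0 : ℝ) ≤ m := m.cast_nonneg
      rw [hl1] at h
      have e1 : (m : ℂ) * L.ω₁ + (n : ℂ) * L.ω₂ + L.ω₁
          = ((m + 1 : ℕ) : ℂ) * L.ω₁ + (n : ℂ) * L.ω₂ := by push_cast; ring
      rw [e1] at h
      refine le_trans ?_ (le_trans (mul_le_mul_of_nonneg_left (ih n) (Real.exp_nonneg _)) h)
      rw [← Real.exp_add]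
      refine Real.exp_le_exp.2 ?_
      push_cast
      nlinarith [mul_nonneg hK0 hn, mul_nonneg hK0 hm, mul_nonneg (sub_nonneg.2 hKK1) hn,
        mul_nonneg (sub_nonneg.2 hKK1) hm]
  refine ⟨2 * K, by positivity, fun m n => le_trans (Real.exp_le_exp.2 ?_) (hmain m n)⟩
  nlinarith [mul_nonneg hK0 (sq_nonneg ((m : ℝ) - n))]

/-- non-vanishing of the Legendre determinant -/
theorem legendre (η : L.lattice →+ ℂ)
    (hη : ∀ z ∉ L.lattice, ∀ l : L.lattice, zetaL L (z + l) = zetaL L z + η l) :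
    η ⟨L.ω₁, L.ω₁_mem_lattice⟩ * L.ω₂ ≠ η ⟨L.ω₂, L.ω₂_mem_lattice⟩ * L.ω₁ := by
  intro hEq
  obtain ⟨l1, hl1⟩ : ∃ l : L.lattice, l = ⟨L.ω₁, L.ω₁_mem_lattice⟩ := ⟨_, rfl⟩
  obtain ⟨l2, hl2⟩ : ∃ l : L.lattice, l = ⟨L.ω₂, L.ω₂_mem_lattice⟩ := ⟨_, rfl⟩
  have hv1 : (l1 : ℂ) = L.ω₁ := by rw [hl1]
  have hv2 : (l2 : ℂ) = L.ω₂ := by rw [hl2]
  rw [← hl1, ← hl2] at hEq
  have hω1 : L.ω₁ ≠ 0 := by
    have h := L.indep.ne_zero 0
    simpa using h
  obtain ⟨c, hc⟩ : ∃ c, c = η l1 / L.ω₁ := ⟨_, rfl⟩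
  have hc1 : η l1 = c * l1 := by
    rw [hc, hv1]; field_simp
  have hc2 : η l2 = c * l2 := by
    rw [hc, hv2]
    field_simp
    exact hEq.symm
  -- the function τ
  obtain ⟨τ, hτ⟩ : ∃ τ : ℂ → ℂ, τ = fun z => ev (SS a b) z * Complex.exp (-(c * z ^ 2 / 2)) :=
    ⟨_, rfl⟩
  have hτd : Differentiable ℂ τ := by
    rw [hτ]
    refine Differentiable.mul (fun z => (hasDerivAt_S a b z).differentiableAt) ?_
    fun_prop
  have hquasi : ∀ l : L.lattice, η l = c * l → ∃ K : ℂ, K ≠ 0 ∧ ∀ z, τ (z + l) = K * τ z := by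
    intro l hl
    obtain ⟨h0, h1⟩ := S_add L a b h2 h3 l (η l) fun z hz => hη z hz l
    refine ⟨ev (RR a b) l * Complex.exp (-(c * (l : ℂ) ^ 2 / 2)),
      mul_ne_zero h0 (Complex.exp_ne_zero _), fun z => ?_⟩
    simp only [hτ]
    rw [h1 z, hl]
    have h4 : Complex.exp (c * l * z) * Complex.exp (-(c * (z + l) ^ 2 / 2))
        = Complex.exp (-(c * (l : ℂ) ^ 2 / 2)) * Complex.exp (-(c * z ^ 2 / 2)) := by
      rw [← Complex.exp_add, ← Complex.exp_add]
      congr 1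
      ring
    calc ev (RR a b) l * Complex.exp (c * l * z) * ev (SS a b) z
          * Complex.exp (-(c * (z + l) ^ 2 / 2))
        = ev (RR a b) l * ev (SS a b) z
          * (Complex.exp (c * l * z) * Complex.exp (-(c * (z + l) ^ 2 / 2))) := by ring
      _ = _ := by rw [h4]; ring
  obtain ⟨K1, hK1, hp1⟩ := hquasi l1 hc1
  obtain ⟨K2, hK2, hp2⟩ := hquasi l2 hc2
  rw [hv1] at hp1
  rw [hv2] at hp2
  -- the linear functional
  obtain ⟨φ, hφ⟩ : ∃ φ : ℂ →ₗ[ℝ] ℝ,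
      φ = L.basis.constr ℝ ![Real.log ‖K1‖, Real.log ‖K2‖] := ⟨_, rfl⟩
  have hφ1 : φ L.ω₁ = Real.log ‖K1‖ := by
    have h : φ (L.basis 0) = ![Real.log ‖K1‖, Real.log ‖K2‖] 0 := by
      rw [hφ]; exact L.basis.constr_basis ℝ _ 0
    simpa using h
  have hφ2 : φ L.ω₂ = Real.log ‖K2‖ := by
    have h : φ (L.basis 1) = ![Real.log ‖K1‖, Real.log ‖K2‖] 1 := by
      rw [hφ]; exact L.basis.constr_basis ℝ _ 1
    simpa using h
  obtain ⟨lam, hlam⟩ : ∃ lam : ℂ, ∀ z : ℂ, (lam * z).re = φ z := by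
    refine ⟨⟨φ 1, -φ Complex.I⟩, fun z => ?_⟩
    have h : z = z.re • (1 : ℂ) + z.im • Complex.I := by
      simp [Complex.re_add_im]
    conv_rhs => rw [h, map_add, map_smul, map_smul]
    simp [Complex.mul_re]
    ring
  obtain ⟨g, hg⟩ : ∃ g : ℂ → ℂ, g = fun z => τ z * Complex.exp (-(lam * z)) := ⟨_, rfl⟩
  have hgd : Differentiable ℂ g := by
    rw [hg]
    refine hτd.mul ?_
    fun_prop
  have hper : ∀ (w K : ℂ), K ≠ 0 → φ w = Real.log ‖K‖ → (∀ z, τ (z + w) = K * τ z) →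
      ∀ z, ‖g (z + w)‖ = ‖g z‖ := by
    intro w K hK hφw hp z
    simp only [hg]
    rw [hp z, norm_mul, norm_mul, norm_mul, Complex.norm_exp, Complex.norm_exp, Complex.neg_re,
      Complex.neg_re, hlam, hlam, map_add, hφw, neg_add, Real.exp_add, Real.exp_neg (Real.log ‖K‖),
      Real.exp_log (norm_pos_iff.2 hK)]
    have hK' : ‖K‖ ≠ 0 := norm_ne_zero_iff.2 hK
    field_simp
  have hg1 := hper L.ω₁ K1 hK1 hφ1 hp1
  have hg2 := hper L.ω₂ K2 hK2 hφ2 hp2
  have hint : ∀ (w : ℂ), (∀ z, ‖g (z + w)‖ = ‖g z‖) → ∀ (m : ℤ) (z : ℂ), ‖g (z + m * w)‖ = ‖g z‖ := by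
    intro w hw m
    induction m using Int.induction_on with
    | zero => intro z; simp
    | succ m ih =>
      intro z
      have e1 : z + ((m : ℤ) + 1 : ℤ) * w = z + (m : ℤ) * w + w := by push_cast; ring
      rw [e1, hw, ih]
    | pred m ih =>
      intro z
      have e1 : z + (-(m : ℤ) : ℤ) * w = z + (-(m : ℤ) - 1 : ℤ) * w + w := by push_cast; ring
      rw [← ih z, e1, hw]
  have hbdd : Bornology.IsBounded (Set.range g) := by
    obtain ⟨B, hB⟩ := (isCompact_closedBall (0 : ℂ) (‖L.ω₁‖ + ‖L.ω₂‖)).exists_bound_of_continuousOn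
      hgd.continuous.continuousOn
    rw [isBounded_iff_forall_norm_le]
    refine ⟨B, ?_⟩
    rintro _ ⟨z, rfl⟩
    obtain ⟨x, hx⟩ : ∃ x, x = L.basis.repr z 0 := ⟨_, rfl⟩
    obtain ⟨y, hy⟩ : ∃ y, y = L.basis.repr z 1 := ⟨_, rfl⟩
    have hz : z = x * L.ω₁ + y * L.ω₂ := by
      have h := L.basis.sum_repr z
      rw [Fin.sum_univ_two, PeriodPair.basis_zero, PeriodPair.basis_one, ← hx, ← hy,
        Complex.real_smul, Complex.real_smul] at h
      exact h.symm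
    have hz' : z = (Int.fract x * L.ω₁ + Int.fract y * L.ω₂) + (⌊x⌋ : ℤ) * L.ω₁
        + (⌊y⌋ : ℤ) * L.ω₂ := by
      have hx' : (x : ℂ) = (Int.fract x : ℝ) + (⌊x⌋ : ℤ) := by
        have := Int.fract_add_floor x
        exact_mod_cast this.symm
      have hy' : (y : ℂ) = (Int.fract y : ℝ) + (⌊y⌋ : ℤ) := by
        have := Int.fract_add_floor y
        exact_mod_cast this.symm
      rw [hz]
      conv_lhs => rw [hx', hy']
      ring
    rw [hz', hint _ hg2, hint _ hg1]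
    refine hB _ ?_
    rw [mem_closedBall_zero_iff]
    refine (norm_add_le _ _).trans (add_le_add ?_ ?_)
    · rw [norm_mul, Complex.norm_real, Real.norm_of_nonneg (Int.fract_nonneg x)]
      exact mul_le_of_le_one_left (norm_nonneg _) (Int.fract_lt_one x).le
    · rw [norm_mul, Complex.norm_real, Real.norm_of_nonneg (Int.fract_nonneg y)]
      exact mul_le_of_le_one_left (norm_nonneg _) (Int.fract_lt_one y).le
  have hfin := hgd.apply_eq_apply_of_bounded hbdd (L.ω₁ / 2) 0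
  simp only [hg, hτ] at hfin
  rw [S_zero] at hfin
  have h9 : ev (SS a b) (L.ω₁ / 2) = 0 := by
    simpa [Complex.exp_ne_zero] using hfin
  exact L.ω₁_div_two_notMem_lattice ((S_eq_zero_iff L a b h2 h3 _).1 h9)

end Pool.Agent.ZCM
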