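import Pool.Agent.ZCM.NormR

/-! # F7: evaluation of entire power series -/

namespace Pool.Agent.ZCM
open PowerSeries Filter Topology Asymptotics
open scoped NNReal ENNReal

variable {f g : ℂ⟦X⟧}

lemma Ev_summable_nn {r : ℝ≥0} (h : nr r f ≠ ∞) : Summable (fun n : ℕ => ‖coeff n f‖₊ * r ^ n) :=
  ENNReal.tsum_coe_ne_top_iff_summable.1 h

lemma Ev_summable {r : ℝ≥0} (h : nr r f ≠ ∞) :
    Summable (fun n : ℕ => ‖coeff n f‖ * (r : ℝ) ^ n) := by
  have := NNReal.summable_coe.2 (Ev_summable_nn h)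
  simpa using this

lemma Ev_toReal {r : ℝ≥0} (h : nr r f ≠ ∞) :
    (nr r f).toReal = ∑' n : ℕ, ‖coeff n f‖ * (r : ℝ) ^ n := by
  unfold nr
  rw [← ENNReal.coe_tsum (Ev_summable_nn h), ENNReal.coe_toReal, NNReal.coe_tsum]
  simp

lemma Ev_summable_norm (hf : Ent f) (z : ℂ) : Summable (fun n : ℕ => ‖coeff n f * z ^ n‖) := by
  have := Ev_summable (hf ‖z‖₊)
  simpa [norm_mul, norm_pow] using this

theorem Gr.ent (h : Gr f) : Ent f := by
  obtain ⟨C, _, hC⟩ := h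
  intro r
  exact ne_top_of_le_ne_top ENNReal.ofReal_ne_top (hC r)
theorem Ent.add (hf : Ent f) (hg : Ent g) : Ent (f + g) := fun r =>
  ne_top_of_le_ne_top (ENNReal.add_ne_top.2 ⟨hf r, hg r⟩) (nr_add_le r f g)
theorem Ent.sub (hf : Ent f) (hg : Ent g) : Ent (f - g) := fun r =>
  ne_top_of_le_ne_top (ENNReal.add_ne_top.2 ⟨hf r, hg r⟩) (nr_sub_le r f g)
theorem Ent.neg (hf : Ent f) : Ent (-f) := fun r => by
  rw [nr_neg]; exact hf r
theorem Ent.mul (hf : Ent f) (hg : Ent g) : Ent (f * g) := fun r =>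
  ne_top_of_le_ne_top (ENNReal.mul_ne_top (hf r) (hg r)) (nr_mul_le r f g)
theorem Ent.pow (hf : Ent f) (n : ℕ) : Ent (f ^ n) := fun r =>
  ne_top_of_le_ne_top (ENNReal.pow_ne_top (hf r)) (nr_pow_le r f n)
theorem Ent_C (c : ℂ) : Ent (C c) := fun r => by
  rw [nr_C]; exact ENNReal.coe_ne_top
theorem Ent_X : Ent (X : ℂ⟦X⟧) := fun r => by
  rw [nr_X]; exact ENNReal.coe_ne_top
theorem Ent_sum {ι : Type*} (s : Finset ι) (F : ι → ℂ⟦X⟧) (h : ∀ i ∈ s, Ent (F i)) :
    Ent (∑ i ∈ s, F i) := fun r =>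
  ne_top_of_le_ne_top (ENNReal.sum_ne_top.2 fun i hi => h i hi r) (nr_sum_le r s F)

theorem Ent.deriv (hf : Ent f) : Ent (d⁄dX ℂ f) := by
  intro r
  refine ne_top_of_le_ne_top (hf (2 * (r + 1))) ?_
  unfold nr
  rw [tsum_eq_zero_add' (f := fun n : ℕ => ((‖coeff n f‖₊ * (2 * (r + 1)) ^ n : ℝ≥0) : ℝ≥0∞))
    ENNReal.summable]
  refine le_trans (ENNReal.tsum_le_tsum fun n => ?_) le_add_self
  rw [ENNReal.coe_le_coe, coeff_derivative, nnnorm_mul, mul_pow, mul_assoc]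
  refine mul_le_mul_right ?_ _
  have h1 : ‖((n : ℂ) + 1)‖₊ ≤ 2 ^ (n + 1) := by
    have h2 : ((n : ℂ) + 1) = ((n + 1 : ℕ) : ℂ) := by push_cast; rfl
    rw [h2, ← NNReal.coe_le_coe, coe_nnnorm, Complex.norm_natCast]
    exact_mod_cast (Nat.lt_two_pow_self (n := n + 1)).le
  have h2 : r ^ n ≤ (r + 1) ^ (n + 1) := by
    calc r ^ n ≤ (r + 1) ^ n := pow_le_pow_left₀ (zero_le) (le_add_of_nonneg_right zero_le_one) _
      _ ≤ (r + 1) ^ (n + 1) := pow_le_pow_right₀ (le_add_of_nonneg_left (zero_le)) (Nat.le_succ n)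
  exact mul_le_mul' h1 h2

theorem hasSum_ev (hf : Ent f) (z : ℂ) : HasSum (fun n : ℕ => coeff n f * z ^ n) (ev f z) :=
  (Ev_summable_norm hf z).of_norm.hasSum
theorem ev_add (hf : Ent f) (hg : Ent g) (z : ℂ) : ev (f + g) z = ev f z + ev g z := by
  refine (hasSum_ev (hf.add hg) z).unique ?_
  have := (hasSum_ev hf z).add (hasSum_ev hg z)
  refine this.congr_fun ?_
  intro n
  simp [add_mul]
theorem ev_neg (z : ℂ) : ev (-f) z = - ev f z := by
  unfold ev
  rw [← tsum_neg]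
  simp
theorem ev_sub (hf : Ent f) (hg : Ent g) (z : ℂ) : ev (f - g) z = ev f z - ev g z := by
  rw [sub_eq_add_neg, ev_add hf hg.neg, ev_neg, sub_eq_add_neg]
theorem ev_mul (hf : Ent f) (hg : Ent g) (z : ℂ) : ev (f * g) z = ev f z * ev g z := by
  unfold ev
  rw [tsum_mul_tsum_eq_tsum_sum_antidiagonal_of_summable_norm (Ev_summable_norm hf z)
    (Ev_summable_norm hg z)]
  refine tsum_congr fun n => ?_
  rw [coeff_mul, Finset.sum_mul]
  refine Finset.sum_congr rfl fun p hp => ?_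
  rw [← Finset.HasAntidiagonal.mem_antidiagonal.1 hp, pow_add]
  ring
theorem ev_C (c z : ℂ) : ev (C c) z = c := by
  unfold ev
  rw [tsum_eq_single 0]
  · simp
  · intro n hn
    simp [coeff_C, hn]
theorem ev_X (z : ℂ) : ev (X : ℂ⟦X⟧) z = z := by
  unfold ev
  rw [tsum_eq_single 1]
  · simp
  · intro n hn
    simp [coeff_X, hn]
theorem ev_pow (hf : Ent f) (n : ℕ) (z : ℂ) : ev (f ^ n) z = ev f z ^ n := by
  induction n with
  | zero =>
    rw [pow_zero, pow_zero]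
    have : (1 : ℂ⟦X⟧) = C 1 := by simp
    rw [this, ev_C]
  | succ n ih => rw [pow_succ, ev_mul (hf.pow n) hf, ih, pow_succ]
theorem ev_sum {ι : Type*} (s : Finset ι) (F : ι → ℂ⟦X⟧) (h : ∀ i ∈ s, Ent (F i)) (z : ℂ) :
    ev (∑ i ∈ s, F i) z = ∑ i ∈ s, ev (F i) z := by
  classical
  induction s using Finset.induction_on with
  | empty =>
    rw [Finset.sum_empty, Finset.sum_empty]
    unfold ev
    simp
  | insert i s hi ih =>
    rw [Finset.sum_insert hi, Finset.sum_insert hi,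
      ev_add (h i (Finset.mem_insert_self _ _))
        (Ent_sum s F fun j hj => h j (Finset.mem_insert_of_mem hj)),
      ih fun j hj => h j (Finset.mem_insert_of_mem hj)]
theorem ev_zero (f : ℂ⟦X⟧) : ev f 0 = constantCoeff f := by
  unfold ev
  rw [tsum_eq_single 0]
  · simp
  · intro n hn
    simp [hn]

theorem hasDerivAt_ev (hf : Ent f) (z : ℂ) : HasDerivAt (ev f) (ev (d⁄dX ℂ f) z) z := by
  set R : ℝ≥0 := ‖z‖₊ + 1 with hR
  have hsum : Summable fun n : ℕ => ‖coeff n (d⁄dX ℂ f)‖ * (R : ℝ) ^ n := Ev_summable (hf.deriv R)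
  let u : ℕ → ℝ := fun n => ‖coeff n f‖ * (n * (R : ℝ) ^ (n - 1))
  have hu : Summable u := by
    rw [← summable_nat_add_iff 1]
    refine hsum.congr fun n => ?_
    simp only [u]
    rw [coeff_derivative, norm_mul]
    have h2 : ((n : ℂ) + 1) = ((n + 1 : ℕ) : ℂ) := by push_cast; rfl
    rw [h2, Complex.norm_natCast, Nat.add_sub_cancel]
    ring
  have hz : z ∈ Metric.ball (0 : ℂ) R := by
    rw [mem_ball_zero_iff, hR]
    simp
  have h0 : (0 : ℂ) ∈ Metric.ball (0 : ℂ) R := by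
    rw [mem_ball_zero_iff, hR, norm_zero]
    positivity
  have key := hasDerivAt_tsum_of_isPreconnected (𝕜 := ℂ) (F := ℂ) (u := u)
    (g := fun n y => coeff n f * y ^ n) (g' := fun n y => coeff n f * (n * y ^ (n - 1)))
    (t := Metric.ball (0 : ℂ) R) hu Metric.isOpen_ball
    (convex_ball (0 : ℂ) R).isPreconnected
    (fun n y _ => by
      simpa using (hasDerivAt_pow n y).const_mul (coeff n f))
    (fun n y hy => by
      simp only [u]
      rw [norm_mul, norm_mul, norm_pow, Complex.norm_natCast]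
      rw [mem_ball_zero_iff] at hy
      gcongr)
    h0 (hasSum_ev hf 0).summable hz
  have h3 : ∑' n : ℕ, coeff n f * (n * z ^ (n - 1)) = ev (d⁄dX ℂ f) z := by
    rw [tsum_eq_zero_add']
    · unfold ev
      simp only [Nat.cast_zero, zero_mul, mul_zero, zero_add]
      refine tsum_congr fun n => ?_
      rw [coeff_derivative, Nat.add_sub_cancel]
      push_cast
      ring
    · have := (hasSum_ev hf.deriv z).summable
      refine this.congr fun n => ?_
      rw [coeff_derivative, Nat.add_sub_cancel]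
      push_cast
      ring
  rw [h3] at key
  exact key

theorem differentiable_ev (hf : Ent f) : Differentiable ℂ (ev f) :=
  fun z => (hasDerivAt_ev hf z).differentiableAt

theorem norm_ev_le (hf : Ent f) {z : ℂ} {r : ℝ≥0} (hz : ‖z‖ ≤ r) :
    ‖ev f z‖ ≤ (nr r f).toReal := by
  rw [Ev_toReal (hf r)]
  unfold ev
  refine (norm_tsum_le_tsum_norm (Ev_summable_norm hf z)).trans ?_
  refine (Ev_summable_norm hf z).tsum_le_tsum (fun n => ?_) (Ev_summable (hf r))
  rw [norm_mul, norm_pow]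
  gcongr

/-- Schwarz lemma -/
theorem ev_schwarz (hf : Ent f) {n : ℕ} (h : ∀ k < n, coeff k f = 0) {z : ℂ} {r : ℝ≥0}
    (hr : 0 < r) (hz : ‖z‖ ≤ r) : ‖ev f z‖ ≤ (‖z‖ / r) ^ n * (nr r f).toReal := by
  have hr' : (0 : ℝ) < r := by exact_mod_cast hr
  rw [Ev_toReal (hf r), ← tsum_mul_left]
  unfold ev
  refine (norm_tsum_le_tsum_norm (Ev_summable_norm hf z)).trans ?_
  refine (Ev_summable_norm hf z).tsum_le_tsum (fun k => ?_) ((Ev_summable (hf r)).mul_left _)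
  by_cases hk : k < n
  · rw [h k hk]; simp
  · rw [norm_mul, norm_pow]
    have h1 : ‖z‖ ^ k = (‖z‖ / r) ^ k * (r : ℝ) ^ k := by
      rw [← mul_pow, div_mul_cancel₀ _ hr'.ne']
    have h2 : (‖z‖ / r) ^ k ≤ (‖z‖ / r) ^ n := by
      apply pow_le_pow_of_le_one (by positivity)
      · rw [div_le_one hr']; exact hz
      · omega
    rw [h1]
    calc ‖coeff k f‖ * ((‖z‖ / r) ^ k * (r : ℝ) ^ k) ≤ ‖coeff k f‖ * ((‖z‖ / r) ^ n * (r : ℝ) ^ k) := by
          gcongr
      _ = (‖z‖ / r) ^ n * (‖coeff k f‖ * (r : ℝ) ^ k) := by ring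

/-- factoring out a power of `X` -/
theorem exists_factor (hf : Ent f) (n : ℕ) (h : ∀ k < n, coeff k f = 0) :
    ∃ g : ℂ⟦X⟧, Ent g ∧ f = X ^ n * g ∧ constantCoeff g = coeff n f := by
  refine ⟨PowerSeries.mk fun k => coeff (k + n) f, ?_, ?_, ?_⟩
  · intro r
    refine ne_top_of_le_ne_top (hf (r + 1)) ?_
    unfold nr
    refine le_trans (ENNReal.tsum_le_tsum fun k => ?_)
      (ENNReal.tsum_comp_le_tsum_of_injective (f := fun k : ℕ => k + n) (add_left_injective n)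
        (fun m : ℕ => ((‖coeff m f‖₊ * (r + 1) ^ m : ℝ≥0) : ℝ≥0∞)))
    rw [ENNReal.coe_le_coe, coeff_mk]
    refine mul_le_mul_right ?_ _
    calc r ^ k ≤ (r + 1) ^ k := pow_le_pow_left₀ (zero_le) (le_add_of_nonneg_right zero_le_one) _
      _ ≤ (r + 1) ^ (k + n) := pow_le_pow_right₀ (le_add_of_nonneg_left (zero_le)) (Nat.le_add_right k n)
  · ext k
    rw [coeff_X_pow_mul']
    split_ifs with hk
    · rw [coeff_mk, Nat.sub_add_cancel hk]
    · exact h k (by omega)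
  · rw [← coeff_zero_eq_constantCoeff_apply, coeff_mk, zero_add]

lemma Ev_continuous (hf : Ent f) : Continuous (ev f) := (differentiable_ev hf).continuous

lemma Ev_factor_eval {n : ℕ} (hg : Ent g) (hfg : f = X ^ n * g) (z : ℂ) :
    ev f z = z ^ n * ev g z := by
  rw [hfg, ev_mul (Ent_X.pow n) hg, ev_pow Ent_X, ev_X]

/-- a big-O condition at 0 kills the low coefficients -/
theorem coeff_zero_of_isBigO (hf : Ent f) (n : ℤ)
    (h : (ev f) =O[𝓝[≠] (0 : ℂ)] fun z => z ^ n) : ∀ k : ℕ, (k : ℤ) < n → coeff k f = 0 := by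
  intro k
  induction k using Nat.strong_induction_on with
  | _ k ih =>
    intro hk
    obtain ⟨g, hg, hfg, hg0⟩ := exists_factor hf k (fun j hj => ih j hj (by omega))
    rw [← hg0, ← ev_zero]
    -- `ev g z → ev g 0` and `ev g z = O(z^(n-k)) → 0`
    have h1 : Tendsto (ev g) (𝓝[≠] (0 : ℂ)) (𝓝 (ev g 0)) :=
      ((Ev_continuous hg).tendsto 0).mono_left nhdsWithin_le_nhds
    have h2 : (ev g) =O[𝓝[≠] (0 : ℂ)] fun z => z ^ (n - k) := by
      rw [isBigO_iff] at h ⊢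
      obtain ⟨c, hc⟩ := h
      refine ⟨c, ?_⟩
      filter_upwards [hc, self_mem_nhdsWithin] with z hz hz0
      have hz0' : z ≠ 0 := hz0
      rw [Ev_factor_eval hg hfg, norm_mul, norm_pow] at hz
      rw [zpow_sub₀ hz0', zpow_natCast, norm_div, norm_pow, ← mul_div_assoc,
        le_div_iff₀ (by positivity), mul_comm]
      exact hz
    have h3 : Tendsto (fun z : ℂ => z ^ (n - k)) (𝓝[≠] (0 : ℂ)) (𝓝 0) := by
      obtain ⟨m, hm⟩ : ∃ m : ℕ, n - k = (m : ℤ) + 1 := ⟨(n - k - 1).toNat, by omega⟩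
      rw [hm]
      have h4 : Tendsto (fun z : ℂ => z ^ (m + 1)) (𝓝[≠] (0 : ℂ)) (𝓝 ((0 : ℂ) ^ (m + 1))) :=
        ((continuous_pow (m + 1)).tendsto 0).mono_left nhdsWithin_le_nhds
      rw [zero_pow (Nat.succ_ne_zero m)] at h4
      exact_mod_cast h4
    exact tendsto_nhds_unique h1 (h2.trans_tendsto h3)

theorem isBigO_of_coeff_zero (hf : Ent f) (n : ℕ) (h : ∀ k < n, coeff k f = 0) :
    (ev f) =O[𝓝 (0 : ℂ)] fun z => z ^ n := by
  obtain ⟨g, hg, hfg, hg0⟩ := exists_factor hf n h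
  have h1 : (ev g) =O[𝓝 (0 : ℂ)] fun _ => (1 : ℂ) :=
    ((Ev_continuous hg).tendsto 0).isBigO_one ℂ
  have h2 : (fun z => z ^ n * ev g z) =O[𝓝 (0 : ℂ)] fun z => z ^ n * (1 : ℂ) :=
    (isBigO_refl (fun z : ℂ => z ^ n) _).mul h1
  simp only [mul_one] at h2
  have h3 : ev f = fun z => z ^ n * ev g z := funext fun z => Ev_factor_eval hg hfg z
  rw [h3]
  exact h2

/-- identity theorem -/
theorem ev_eq_zero (hf : Ent f) (h : ∀ᶠ z in 𝓝[≠] (0 : ℂ), ev f z = 0) : f = 0 := by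
  ext k
  rw [map_zero]
  refine coeff_zero_of_isBigO hf (k + 1) ?_ k (by omega)
  rw [isBigO_iff]
  refine ⟨0, ?_⟩
  filter_upwards [h] with z hz
  rw [hz]
  simp

end Pool.Agent.ZCM
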