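import Pool.Agent.ZCM.Uniq

/-! # F3: duplication -/

set_option linter.unusedSectionVars false

namespace Pool.Agent.ZCM
open PowerSeries

variable {K : Type*} [Field K] [CharZero K] (a b : K)

/-- `V = (3 x^2 + a z^4)/y` -/
noncomputable def VV : K⟦X⟧ := (3 * xS a b ^ 2 + C a * X ^ 4) * (yS a b)⁻¹

theorem Dup_Vy : VV a b * yS a b = 3 * xS a b ^ 2 + C a * X ^ 4 := by
  have h : (yS a b)⁻¹ * yS a b = 1 :=
    PowerSeries.inv_mul_cancel _ (by rw [const_yS]; simp)
  rw [VV, mul_assoc, h, mul_one]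

theorem Dup_y_ne : yS a b ≠ 0 := by
  intro h
  have := const_yS a b
  rw [h] at this
  simp at this

theorem Dup_const_V : constantCoeff (VV a b) = -3 := by
  simp [VV, const_xS, const_yS, PowerSeries.constantCoeff_inv, map_ofNat]

theorem Dup_dX4 : X * d⁄dX K (C a * X ^ 4) = 4 * (C a * X ^ 4) := by
  rw [← smul_eq_C_mul, Derivation.map_smul, Derivation.leibniz_pow]
  simp only [smul_eq_mul, nsmul_eq_mul, derivative_X, smul_eq_C_mul]
  push_cast
  ring

theorem Dup_dV : X * d⁄dX K (VV a b) = VV a b + 12 * xS a b - VV a b ^ 2 := by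
  have hV := Dup_Vy a b
  have h2 := R2 a b
  have h3 := R3 a b
  have h4 := Dup_dX4 a
  have hd := congrArg (d⁄dX K) hV
  have e3 : d⁄dX K (3 * xS a b ^ 2) = 6 * xS a b * d⁄dX K (xS a b) := by
    rw [← map_ofNat (C (R := K)) 3, ← smul_eq_C_mul, Derivation.map_smul, Derivation.leibniz_pow]
    simp only [smul_eq_mul, nsmul_eq_mul, smul_eq_C_mul, map_ofNat]
    push_cast
    ring
  rw [map_add, e3, Derivation.leibniz] at hd
  simp only [smul_eq_mul] at hd
  apply mul_left_cancel₀ (Dup_y_ne a b)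
  linear_combination X * hd + h4 + 6 * xS a b * h2 - VV a b * h3 + (VV a b - 4) * hV

theorem Dup_xy : VV a b ^ 2 - 8 * xS a b = xS ((2 : K) ^ 4 * a) ((2 : K) ^ 6 * b) ∧
    VV a b * (12 * xS a b - VV a b ^ 2) - 8 * yS a b =
      yS ((2 : K) ^ 4 * a) ((2 : K) ^ 6 * b) := by
  have hV := Dup_Vy a b
  have hdV := Dup_dV a b
  have h1 := R1 a b
  have h2 := R2 a b
  have h3 := R3 a b
  have n8 : ∀ f : K⟦X⟧, d⁄dX K (8 * f) = 8 * d⁄dX K f := by
    intro f
    rw [← map_ofNat (C (R := K)) 8, ← smul_eq_C_mul, Derivation.map_smul, smul_eq_C_mul]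
  have n12 : ∀ f : K⟦X⟧, d⁄dX K (12 * f) = 12 * d⁄dX K f := by
    intro f
    rw [← map_ofNat (C (R := K)) 12, ← smul_eq_C_mul, Derivation.map_smul, smul_eq_C_mul]
  have c4 : (C ((2 : K) ^ 4 * a) : K⟦X⟧) = 16 * C a := by
    rw [map_mul, map_pow, map_ofNat]; norm_num
  have c6 : (C ((2 : K) ^ 6 * b) : K⟦X⟧) = 64 * C b := by
    rw [map_mul, map_pow, map_ofNat]; norm_num
  apply uniq_xy
  · simp [Dup_const_V, const_xS, map_ofNat]; norm_num
  · simp [Dup_const_V, const_xS, const_yS, map_ofNat]; norm_num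
  · rw [c4, c6]
    linear_combination (-(16 * (12 * xS a b - VV a b ^ 2))) * hV + 64 * h1
  · rw [map_sub, n8, Derivation.leibniz_pow]
    simp only [smul_eq_mul, nsmul_eq_mul]
    push_cast
    linear_combination 2 * VV a b * hdV - 8 * h2
  · rw [c4, map_sub, n8, Derivation.leibniz, map_sub, n12, Derivation.leibniz_pow]
    simp only [smul_eq_mul, nsmul_eq_mul]
    push_cast
    linear_combination (12 * xS a b - 3 * VV a b ^ 2) * hdV + 12 * VV a b * h2 - 8 * h3 +
      24 * hV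

theorem dup_x : rescale (2 : K) (xS a b) = VV a b ^ 2 - 8 * xS a b := by
  rw [rescale_xS, (Dup_xy a b).1]

theorem dup_y : rescale (2 : K) (yS a b) = VV a b * (12 * xS a b - VV a b ^ 2) - 8 * yS a b := by
  rw [rescale_yS, (Dup_xy a b).2]

theorem Dup_V1 : coeff 1 (VV a b) = 0 := by
  have h := congrArg (coeff 1) (Dup_dV a b)
  have c0 := Dup_const_V a b
  rw [← coeff_zero_eq_constantCoeff_apply] at c0
  have e1 : (coeff 1 (X * d⁄dX K (VV a b)) : K) = coeff 1 (VV a b) := by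
    rw [show (1 : ℕ) = 0 + 1 from rfl, coeff_succ_X_mul, coeff_derivative]; simp
  have n12 : ∀ f : K⟦X⟧, coeff 1 (12 * f) = 12 * coeff 1 f := by
    intro f
    rw [← map_ofNat (C (R := K)) 12, coeff_C_mul]
  have sq : coeff 1 (VV a b ^ 2) = -6 * coeff 1 (VV a b) := by
    rw [pow_two, coeff_mul, Finset.Nat.antidiagonal_succ]
    simp [c0]
    ring
  rw [e1, map_sub, map_add, n12, coeff_one_xS, sq] at h
  have h6 : (6 : K) * coeff 1 (VV a b) = 0 := by linear_combination -h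
  exact (mul_eq_zero.1 h6).resolve_left (by norm_num)

theorem dup_z : rescale (2 : K) (zS a b) = 4 * zS a b + VV a b := by
  have n4 : ∀ f : K⟦X⟧, d⁄dX K (4 * f) = 4 * d⁄dX K f := by
    intro f
    rw [← map_ofNat (C (R := K)) 4, ← smul_eq_C_mul, Derivation.map_smul, smul_eq_C_mul]
  rw [rescale_zS]
  symm
  apply uniq_z
  · have h4 := R4 a b
    have hV := Dup_dV a b
    rw [← (Dup_xy a b).1, map_add, n4]
    linear_combination 4 * h4 + hV
  · rw [map_add, ← map_ofNat (C (R := K)) 4, coeff_C_mul, coeff_one_zS, Dup_V1]; simp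

theorem dup_s : rescale (2 : K) (sS a b) = -(yS a b * sS a b ^ 4) := by
  rw [rescale_sS]
  symm
  apply uniq_s
  · simp [const_yS, const_sS]
  · have hz : zS ((2 : K) ^ 4 * a) ((2 : K) ^ 6 * b) = 4 * zS a b + VV a b := by
      rw [← rescale_zS, dup_z]
    have h3 := R3 a b
    have h5 := R5 a b
    have hV := Dup_Vy a b
    rw [hz, Derivation.map_neg, Derivation.leibniz, Derivation.leibniz_pow]
    simp only [smul_eq_mul, nsmul_eq_mul]
    push_cast
    linear_combination (-(sS a b ^ 4)) * h3 - 4 * yS a b * sS a b ^ 3 * h5 +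
      sS a b ^ 4 * hV

theorem dup_SS : rescale (2 : K) (SS a b) = -(2 * qq a b * SS a b) := by
  rw [SS, map_mul, dup_s, rescale_X, qq, map_ofNat]
  ring

theorem dup_QQ : rescale (2 : K) (QQ a b) =
    (3 * QQ a b ^ 2 + C a * SS a b ^ 4) ^ 2 - 8 * QQ a b * qq a b ^ 2 := by
  have hV := Dup_Vy a b
  rw [QQ, map_mul, map_pow, dup_s, dup_x, qq, SS]
  linear_combination (sS a b ^ 8 * (VV a b * yS a b + (3 * xS a b ^ 2 + C a * X ^ 4))) * hV

theorem dup_qq : rescale (2 : K) (qq a b) =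
    (3 * QQ a b ^ 2 + C a * SS a b ^ 4) ^ 3
      - 12 * qq a b ^ 2 * QQ a b * (3 * QQ a b ^ 2 + C a * SS a b ^ 4) + 8 * qq a b ^ 4 := by
  have hV := Dup_Vy a b
  rw [qq, map_mul, map_pow, dup_s, dup_y, QQ, SS]
  linear_combination (sS a b ^ 12 * ((VV a b * yS a b) ^ 2 +
    (VV a b * yS a b) * (3 * xS a b ^ 2 + C a * X ^ 4) + (3 * xS a b ^ 2 + C a * X ^ 4) ^ 2 -
    12 * xS a b * yS a b ^ 2)) * hV

theorem dup_RR : rescale (2 : K) (RR a b) =
    -(4 * qq a b * RR a b + 3 * QQ a b ^ 2 + C a * SS a b ^ 4) := by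
  have hV := Dup_Vy a b
  rw [RR, map_mul, dup_s, dup_z, qq, QQ, SS]
  linear_combination (-(sS a b ^ 4)) * hV

end Pool.Agent.ZCM
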