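import Pool.Agent.ZCM.Conv
import Pool.Agent.ZCM.Dup

/-! # F6: order-two growth for arbitrary `(a,b)` -/

namespace Pool.Agent.ZCM
open PowerSeries
open scoped NNReal ENNReal

theorem Grow_mul {r : ℝ≥0} {f g : ℂ⟦X⟧} {A B : ℝ≥0∞} (hf : nr r f ≤ A) (hg : nr r g ≤ B) :
    nr r (f * g) ≤ A * B := (nr_mul_le r f g).trans (mul_le_mul' hf hg)

theorem Grow_add {r : ℝ≥0} {f g : ℂ⟦X⟧} {A B : ℝ≥0∞} (hf : nr r f ≤ A) (hg : nr r g ≤ B) :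
    nr r (f + g) ≤ A + B := (nr_add_le r f g).trans (add_le_add hf hg)

theorem Grow_sub {r : ℝ≥0} {f g : ℂ⟦X⟧} {A B : ℝ≥0∞} (hf : nr r f ≤ A) (hg : nr r g ≤ B) :
    nr r (f - g) ≤ A + B := (nr_sub_le r f g).trans (add_le_add hf hg)

theorem Grow_pow {r : ℝ≥0} {f : ℂ⟦X⟧} {A : ℝ≥0∞} (hf : nr r f ≤ A) (n : ℕ) :
    nr r (f ^ n) ≤ A ^ n := (nr_pow_le r f n).trans (pow_le_pow_left' hf n)

theorem Grow_nat {r : ℝ≥0} {f : ℂ⟦X⟧} {A : ℝ≥0∞} (n : ℕ) (hf : nr r f ≤ A) :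
    nr r ((n : ℂ⟦X⟧) * f) ≤ n * A := (nr_ofNat_mul r f n).trans (mul_le_mul' le_rfl hf)

/-- simultaneous bounds -/
def GrowBd (a b : ℂ) (r : ℝ≥0) (M : ℝ≥0∞) : Prop :=
  nr r (SS a b) ≤ M ∧ nr r (QQ a b) ≤ M ^ 2 ∧ nr r (qq a b) ≤ M ^ 3 ∧ nr r (RR a b) ≤ M

theorem Grow_step (a b : ℂ) (r : ℝ≥0) (M : ℝ≥0∞) (h : GrowBd a b r M) :
    GrowBd a b (2 * r) ((7 + (‖a‖₊ : ℝ≥0∞)) * M ^ 4) := by
  obtain ⟨hS, hQ, hq, hR⟩ := h
  have h2 : ∀ f : ℂ⟦X⟧, nr (2 * r) f = nr r (rescale (2 : ℂ) f) := by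
    intro f
    rw [nr_rescale]
    congr 2
    ext
    simp
  set α : ℝ≥0∞ := (‖a‖₊ : ℝ≥0∞) with hα
  have hC : nr r (C a) ≤ α := (nr_C r a).le
  have hW : nr r (3 * QQ a b ^ 2 + C a * SS a b ^ 4) ≤ (3 + α) * M ^ 4 := by
    have h1 : nr r (((3 : ℕ) : ℂ⟦X⟧) * QQ a b ^ 2) ≤ ((3 : ℕ) : ℝ≥0∞) * (M ^ 2) ^ 2 :=
      Grow_nat 3 (Grow_pow hQ 2)
    have h3 := Grow_add h1 (Grow_mul hC (Grow_pow hS 4))
    push_cast at h3
    refine h3.trans (le_of_eq ?_)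
    ring
  refine ⟨?_, ?_, ?_, ?_⟩
  · rw [h2, dup_SS, nr_neg]
    have h1 : nr r (((2 : ℕ) : ℂ⟦X⟧) * qq a b) ≤ ((2 : ℕ) : ℝ≥0∞) * M ^ 3 := Grow_nat 2 hq
    have h3 := Grow_mul h1 hS
    push_cast at h3
    refine h3.trans ?_
    calc 2 * M ^ 3 * M ≤ 2 * M ^ 3 * M + (5 + α) * M ^ 4 := le_self_add
      _ = (7 + α) * M ^ 4 := by ring
  · rw [h2, dup_QQ]
    have h1 : nr r (((8 : ℕ) : ℂ⟦X⟧) * QQ a b) ≤ ((8 : ℕ) : ℝ≥0∞) * M ^ 2 := Grow_nat 8 hQ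
    have h3 := Grow_sub (Grow_pow hW 2) (Grow_mul h1 (Grow_pow hq 2))
    push_cast at h3
    refine h3.trans ?_
    calc ((3 + α) * M ^ 4) ^ 2 + 8 * M ^ 2 * (M ^ 3) ^ 2
        ≤ ((3 + α) * M ^ 4) ^ 2 + 8 * M ^ 2 * (M ^ 3) ^ 2 + (32 + 8 * α) * M ^ 8 := le_self_add
      _ = ((7 + α) * M ^ 4) ^ 2 := by ring
  · rw [h2, dup_qq]
    have h1 : nr r (((12 : ℕ) : ℂ⟦X⟧) * qq a b ^ 2) ≤ ((12 : ℕ) : ℝ≥0∞) * (M ^ 3) ^ 2 :=
      Grow_nat 12 (Grow_pow hq 2)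
    have h4 : nr r (((8 : ℕ) : ℂ⟦X⟧) * qq a b ^ 4) ≤ ((8 : ℕ) : ℝ≥0∞) * (M ^ 3) ^ 4 :=
      Grow_nat 8 (Grow_pow hq 4)
    have h3 := Grow_add (Grow_sub (Grow_pow hW 3) (Grow_mul (Grow_mul h1 hQ) hW)) h4
    push_cast at h3
    refine h3.trans ?_
    calc ((3 + α) * M ^ 4) ^ 3 + 12 * (M ^ 3) ^ 2 * M ^ 2 * ((3 + α) * M ^ 4)
          + 8 * (M ^ 3) ^ 4
        ≤ ((3 + α) * M ^ 4) ^ 3 + 12 * (M ^ 3) ^ 2 * M ^ 2 * ((3 + α) * M ^ 4)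
          + 8 * (M ^ 3) ^ 4 + (12 * (3 + α) ^ 2 + 36 * (3 + α) + 56) * M ^ 12 := le_self_add
      _ = ((7 + α) * M ^ 4) ^ 3 := by ring
  · rw [h2, dup_RR, nr_neg]
    have h1 : nr r (((4 : ℕ) : ℂ⟦X⟧) * qq a b) ≤ ((4 : ℕ) : ℝ≥0∞) * M ^ 3 := Grow_nat 4 hq
    have h3 := Grow_add (Grow_mul h1 hR) hW
    push_cast at h3
    rw [← add_assoc] at h3
    refine h3.trans (le_of_eq ?_)
    ring

theorem Grow_start (a b : ℂ) : ∃ (r : ℝ≥0) (m : ℝ), 0 < r ∧ 0 ≤ m ∧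
    GrowBd a b r (ENNReal.ofReal (Real.exp m)) := by
  obtain ⟨r, hr, hx, hy, hz, hs⟩ := conv_all a b
  have key : ∀ A B D E : ℝ≥0∞, A ≠ ∞ → B ≠ ∞ → D ≠ ∞ → E ≠ ∞ →
      ∃ M : ℝ≥0, 1 ≤ M ∧ A ≤ M ∧ B ≤ M ∧ D ≤ M ∧ E ≤ M := by
    intro A B D E hA hB hD hE
    lift A to ℝ≥0 using hA
    lift B to ℝ≥0 using hB
    lift D to ℝ≥0 using hD
    lift E to ℝ≥0 using hE
    refine ⟨1 + A + B + D + E, ?_, ?_, ?_, ?_, ?_⟩
    · rw [add_assoc, add_assoc, add_assoc]; exact le_self_add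
    · exact_mod_cast (by
        calc A ≤ A + (1 + B + D + E) := le_self_add
          _ = 1 + A + B + D + E := by ring)
    · exact_mod_cast (by
        calc B ≤ B + (1 + A + D + E) := le_self_add
          _ = 1 + A + B + D + E := by ring)
    · exact_mod_cast (by
        calc D ≤ D + (1 + A + B + E) := le_self_add
          _ = 1 + A + B + D + E := by ring)
    · exact_mod_cast (by
        calc E ≤ E + (1 + A + B + D) := le_self_add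
          _ = 1 + A + B + D + E := by ring)
  have hS : nr r (SS a b) ≠ ∞ :=
    ne_top_of_le_ne_top (ENNReal.mul_ne_top (by rw [nr_X]; exact ENNReal.coe_ne_top) hs)
      (nr_mul_le r X (sS a b))
  have hQ : nr r (QQ a b) ≠ ∞ :=
    ne_top_of_le_ne_top (ENNReal.mul_ne_top (ENNReal.pow_ne_top hs) hx)
      (Grow_mul (Grow_pow le_rfl 2) le_rfl)
  have hq : nr r (qq a b) ≠ ∞ :=
    ne_top_of_le_ne_top (ENNReal.mul_ne_top (ENNReal.pow_ne_top hs) hy)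
      (Grow_mul (Grow_pow le_rfl 3) le_rfl)
  have hR : nr r (RR a b) ≠ ∞ :=
    ne_top_of_le_ne_top (ENNReal.mul_ne_top hs hz) (nr_mul_le r _ _)
  obtain ⟨M, hM1, h1, h2, h3, h4⟩ := key _ _ _ _ hS hQ hq hR
  have hM1' : (1 : ℝ) ≤ M := by exact_mod_cast hM1
  refine ⟨r, Real.log M, hr, Real.log_nonneg hM1', ?_⟩
  have hM : ENNReal.ofReal (Real.exp (Real.log M)) = (M : ℝ≥0∞) := by
    rw [Real.exp_log (by linarith), ENNReal.ofReal_coe_nnreal]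
  rw [hM]
  have hM1e : (1 : ℝ≥0∞) ≤ M := by exact_mod_cast hM1
  exact ⟨h1, h2.trans (le_self_pow₀ hM1e (by norm_num)),
    h3.trans (le_self_pow₀ hM1e (by norm_num)), h4⟩

theorem Grow_iter (a b : ℂ) (r : ℝ≥0) (m : ℝ)
    (h : GrowBd a b r (ENNReal.ofReal (Real.exp m))) (n : ℕ) :
    ∃ k : ℝ, k + Real.log (7 + ‖a‖) ≤ (m + Real.log (7 + ‖a‖)) * 4 ^ n ∧
      GrowBd a b (2 ^ n * r) (ENNReal.ofReal (Real.exp k)) := by
  have hpos : (0 : ℝ) < 7 + ‖a‖ := by positivity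
  have hl : 0 ≤ Real.log (7 + ‖a‖) :=
    Real.log_nonneg (by have := norm_nonneg a; linarith)
  induction n with
  | zero => exact ⟨m, by simp, by simpa using h⟩
  | succ n ih =>
    obtain ⟨k, hk, hB⟩ := ih
    refine ⟨4 * k + Real.log (7 + ‖a‖), ?_, ?_⟩
    · rw [pow_succ]
      nlinarith
    · have h1 := Grow_step a b _ _ hB
      have e1 : (2 : ℝ≥0) ^ (n + 1) * r = 2 * (2 ^ n * r) := by ring
      have e2 : ENNReal.ofReal (Real.exp (4 * k + Real.log (7 + ‖a‖))) =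
          (7 + (‖a‖₊ : ℝ≥0∞)) * ENNReal.ofReal (Real.exp k) ^ 4 := by
        rw [Real.exp_add, Real.exp_log hpos, ENNReal.ofReal_mul (Real.exp_pos _).le, mul_comm]
        congr 1
        · rw [ENNReal.ofReal_add (by norm_num) (norm_nonneg _)]
          congr 1
          · norm_num
          · exact ofReal_norm a
        · rw [← ENNReal.ofReal_pow (Real.exp_pos _).le, ← Real.exp_nat_mul]
          norm_num
      rw [e1, e2]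
      exact h1

/-- one constant for all four series -/
theorem grow (a b : ℂ) : ∃ C : ℝ, 0 ≤ C ∧ ∀ r : ℝ≥0,
    nr r (SS a b) ≤ ENNReal.ofReal (Real.exp (C * (1 + (r : ℝ) ^ 2))) ∧
    nr r (QQ a b) ≤ ENNReal.ofReal (Real.exp (C * (1 + (r : ℝ) ^ 2))) ∧
    nr r (qq a b) ≤ ENNReal.ofReal (Real.exp (C * (1 + (r : ℝ) ^ 2))) ∧
    nr r (RR a b) ≤ ENNReal.ofReal (Real.exp (C * (1 + (r : ℝ) ^ 2))) := by
  obtain ⟨r₀, m, hr₀, hm, hst⟩ := Grow_start a b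
  set B : ℝ := m + Real.log (7 + ‖a‖) with hB
  have hl : 0 ≤ Real.log (7 + ‖a‖) :=
    Real.log_nonneg (by have := norm_nonneg a; linarith)
  have hB0 : 0 ≤ B := by positivity
  have hr₀' : (0 : ℝ) < r₀ := by exact_mod_cast hr₀
  -- the bound at `2 ^ n * r₀`
  have hn : ∀ n : ℕ, ∀ D : ℝ, 3 * B * 4 ^ n ≤ D → ∀ r : ℝ≥0, r ≤ 2 ^ n * r₀ →
      nr r (SS a b) ≤ ENNReal.ofReal (Real.exp D) ∧ nr r (QQ a b) ≤ ENNReal.ofReal (Real.exp D) ∧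
      nr r (qq a b) ≤ ENNReal.ofReal (Real.exp D) ∧
      nr r (RR a b) ≤ ENNReal.ofReal (Real.exp D) := by
    intro n D hD r hr
    obtain ⟨k, hk, h1, h2, h3, h4⟩ := Grow_iter a b r₀ m hst n
    have h4n : (0 : ℝ) ≤ 4 ^ n := by positivity
    have hBn : 0 ≤ B * 4 ^ n := by positivity
    have hk' : k ≤ B * 4 ^ n := by linarith
    have aux : ∀ j : ℕ, j ≤ 3 → ENNReal.ofReal (Real.exp k) ^ j ≤ ENNReal.ofReal (Real.exp D) := by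
      intro j hj
      rw [← ENNReal.ofReal_pow (Real.exp_pos _).le, ← Real.exp_nat_mul]
      refine ENNReal.ofReal_le_ofReal (Real.exp_le_exp.2 ?_)
      have hj' : (j : ℝ) ≤ 3 := by exact_mod_cast hj
      have hj0 : (0 : ℝ) ≤ j := by positivity
      calc (j : ℝ) * k ≤ j * (B * 4 ^ n) := mul_le_mul_of_nonneg_left hk' hj0
        _ ≤ 3 * (B * 4 ^ n) := mul_le_mul_of_nonneg_right hj' hBn
        _ = 3 * B * 4 ^ n := by ring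
        _ ≤ D := hD
    have a1 := aux 1 (by norm_num)
    rw [pow_one] at a1
    exact ⟨(nr_mono r _ hr).trans (h1.trans a1),
      (nr_mono r _ hr).trans (h2.trans (aux 2 (by norm_num))),
      (nr_mono r _ hr).trans (h3.trans (aux 3 le_rfl)),
      (nr_mono r _ hr).trans (h4.trans a1)⟩
  refine ⟨3 * B + 12 * B / (r₀ : ℝ) ^ 2, by positivity, fun r => ?_⟩
  rcases le_total r r₀ with hr | hr
  · refine hn 0 _ ?_ r (by simpa using hr)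
    have h1 : 0 ≤ 3 * B * (r : ℝ) ^ 2 + 12 * B / (r₀ : ℝ) ^ 2 * (1 + (r : ℝ) ^ 2) := by positivity
    rw [pow_zero, mul_one]
    nlinarith
  · have hx : 1 ≤ (r : ℝ) / r₀ := by
      rw [le_div_iff₀ hr₀', one_mul]; exact_mod_cast hr
    obtain ⟨n, hn1, hn2⟩ := exists_nat_pow_near hx (one_lt_two)
    refine hn (n + 1) _ ?_ r ?_
    · have h1 : (4 : ℝ) ^ (n + 1) ≤ 4 * ((r : ℝ) ^ 2 / (r₀ : ℝ) ^ 2) := by
        have h2 : ((2 : ℝ) ^ n) ^ 2 ≤ ((r : ℝ) / r₀) ^ 2 :=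
          pow_le_pow_left₀ (by positivity) hn1 2
        rw [div_pow] at h2
        have h3 : (4 : ℝ) ^ (n + 1) = 4 * ((2 : ℝ) ^ n) ^ 2 := by
          rw [← pow_mul, mul_comm n 2, pow_mul, pow_succ]; norm_num; ring
        rw [h3]
        exact mul_le_mul_of_nonneg_left h2 (by norm_num)
      calc 3 * B * 4 ^ (n + 1) ≤ 3 * B * (4 * ((r : ℝ) ^ 2 / (r₀ : ℝ) ^ 2)) :=
            mul_le_mul_of_nonneg_left h1 (by positivity)
        _ = 12 * B / (r₀ : ℝ) ^ 2 * (r : ℝ) ^ 2 := by ring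
        _ ≤ 12 * B / (r₀ : ℝ) ^ 2 * (r : ℝ) ^ 2 +
            (3 * B * (1 + (r : ℝ) ^ 2) + 12 * B / (r₀ : ℝ) ^ 2) :=
            le_add_of_nonneg_right (by positivity)
        _ = (3 * B + 12 * B / (r₀ : ℝ) ^ 2) * (1 + (r : ℝ) ^ 2) := by ring
    · have h2 : (r : ℝ) ≤ 2 ^ (n + 1) * r₀ := by
        rw [div_lt_iff₀ hr₀'] at hn2
        exact hn2.le
      exact_mod_cast h2

theorem Gr_SS (a b : ℂ) : Gr (SS a b) := by
  obtain ⟨C, hC, h⟩ := grow a b; exact ⟨C, hC, fun r => (h r).1⟩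
theorem Gr_QQ (a b : ℂ) : Gr (QQ a b) := by
  obtain ⟨C, hC, h⟩ := grow a b; exact ⟨C, hC, fun r => (h r).2.1⟩
theorem Gr_qq (a b : ℂ) : Gr (qq a b) := by
  obtain ⟨C, hC, h⟩ := grow a b; exact ⟨C, hC, fun r => (h r).2.2.1⟩
theorem Gr_RR (a b : ℂ) : Gr (RR a b) := by
  obtain ⟨C, hC, h⟩ := grow a b; exact ⟨C, hC, fun r => (h r).2.2.2⟩

end Pool.Agent.ZCM
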