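import Pool.Agent.ZCM.Formal

/-! # F1c: identities for `SS, QQ, qq, RR` -/

namespace Pool.Agent.ZCM
open PowerSeries

variable {K : Type*} [Field K] [CharZero K] (a b : K)

theorem d_SS : d⁄dX K (SS a b) = RR a b := by
  have h5 := R5 a b
  unfold SS RR
  rw [Derivation.leibniz, derivative_X, smul_eq_mul, smul_eq_mul, h5]
  ring

theorem const_SS : constantCoeff (SS a b) = 0 := by
  simp [SS]

theorem const_RR : constantCoeff (RR a b) = 1 := by
  simp [RR, const_sS, const_zS]

theorem sig_rel : SS a b * d⁄dX K (RR a b) - RR a b ^ 2 = - QQ a b := by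
  have h5 := R5 a b
  have h4 := R4 a b
  unfold SS RR QQ
  rw [Derivation.leibniz, smul_eq_mul, smul_eq_mul]
  linear_combination (sS a b ^ 2) * h4 + (sS a b * zS a b) * h5

theorem qq_sq : qq a b ^ 2 = QQ a b ^ 3 + C a * QQ a b * SS a b ^ 4 + C b * SS a b ^ 6 := by
  have h1 := R1 a b
  unfold SS QQ qq
  linear_combination (sS a b ^ 6) * h1

end Pool.Agent.ZCM
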