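import Pool.Agent.ZCM.Formal

/-! # F2: uniqueness and rescaling -/

namespace Pool.Agent.ZCM
open PowerSeries

variable {K : Type*} [Field K] [CharZero K] (a b : K)

omit [CharZero K] in
theorem Uniq_coeff_XD (f : K⟦X⟧) (n : ℕ) :
    coeff n (X * d⁄dX K f) = (n : K) * coeff n f := by
  cases n with
  | zero => simp
  | succ n =>
    rw [mul_comm, coeff_succ_mul_X, coeff_derivative]
    push_cast
    ring

omit [CharZero K] in
theorem Uniq_coeff_mul (D G : K⟦X⟧) (n : ℕ) (h : ∀ m < n, coeff m D = 0) :
    coeff n (D * G) = coeff n D * constantCoeff G := by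
  rw [coeff_mul, Finset.sum_eq_single (n, 0)]
  · simp
  · rintro ⟨i, j⟩ hij hne
    have hij' : i + j = n := by simpa using hij
    have hi : i < n := by
      rcases Nat.lt_or_ge i n with hlt | hge
      · exact hlt
      · exfalso
        apply hne
        have h1 : i = n := by omega
        have h2 : j = 0 := by omega
        rw [h1, h2]
    simp [h i hi]
  · intro hn
    exact absurd (by simp) hn

theorem uniq_xy (X1 Y1 : K⟦X⟧) (h0 : constantCoeff X1 = 1) (h0' : constantCoeff Y1 = -1)
    (h1 : Y1 ^ 2 = X1 ^ 3 + C a * X ^ 4 * X1 + C b * X ^ 6)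
    (h2 : X * d⁄dX K X1 = 2 * X1 + 2 * Y1)
    (h3 : X * d⁄dX K Y1 = 3 * Y1 + 3 * X1 ^ 2 + C a * X ^ 4) :
    X1 = xS a b ∧ Y1 = yS a b := by
  have e1 := R1 a b
  have e2 := R2 a b
  set D := X1 - xS a b with hD
  set E := Y1 - yS a b with hE
  have d2 : X * d⁄dX K D = D * 2 + E * 2 := by
    rw [hD, hE, map_sub, mul_sub, h2, e2]; ring
  have d1 : E * (Y1 + yS a b) = D * (X1 ^ 2 + X1 * xS a b + xS a b ^ 2 + C a * X ^ 4) := by
    have hs : E * (Y1 + yS a b) = Y1 ^ 2 - yS a b ^ 2 := by rw [hE]; ring
    rw [hs, h1, e1, hD]; ring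
  have key : ∀ n : ℕ, coeff n D = 0 ∧ coeff n E = 0 := by
    intro n
    induction n using Nat.strong_induction_on with
    | _ n ih =>
      have ihD : ∀ m < n, coeff m D = 0 := fun m hm => (ih m hm).1
      have ihE : ∀ m < n, coeff m E = 0 := fun m hm => (ih m hm).2
      rcases Nat.eq_zero_or_pos n with hn | hn
      · subst hn
        refine ⟨?_, ?_⟩
        · rw [coeff_zero_eq_constantCoeff_apply, hD, map_sub, h0, const_xS, sub_self]
        · rw [coeff_zero_eq_constantCoeff_apply, hE, map_sub, h0', const_yS, sub_self]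
      · have c2 := congrArg (coeff n) d2
        have c1 := congrArg (coeff n) d1
        rw [Uniq_coeff_XD, map_add, Uniq_coeff_mul D _ n ihD, Uniq_coeff_mul E _ n ihE] at c2
        rw [Uniq_coeff_mul D _ n ihD, Uniq_coeff_mul E _ n ihE] at c1
        have k1 : constantCoeff (Y1 + yS a b) = -2 := by
          rw [map_add, h0', const_yS]; ring
        have k2 : constantCoeff (X1 ^ 2 + X1 * xS a b + xS a b ^ 2 + C a * X ^ 4) = 3 := by
          simp only [map_add, map_mul, map_pow, h0, const_xS, constantCoeff_X]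
          norm_num
        have k4 : constantCoeff (2 : K⟦X⟧) = (2 : K) := map_ofNat _ 2
        rw [k4] at c2
        rw [k1, k2] at c1
        -- (n-2) D = 2 E, -2 E = 3 D
        have hDn : coeff n D = 0 := by
          have q3 : ((n : K) + 1) * coeff n D = 0 := by
            linear_combination c2 - c1
          rcases mul_eq_zero.1 q3 with h | h
          · exfalso
            have : ((n + 1 : ℕ) : K) = 0 := by push_cast; exact h
            exact absurd this (Nat.cast_ne_zero.2 (Nat.succ_ne_zero n))
          · exact h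
        refine ⟨hDn, ?_⟩
        rw [hDn] at c1
        have : (2 : K) * coeff n E = 0 := by linear_combination -c1
        rcases mul_eq_zero.1 this with h | h
        · exact absurd h two_ne_zero
        · exact h
  refine ⟨?_, ?_⟩
  · have : D = 0 := by
      ext n; simpa using (key n).1
    exact sub_eq_zero.1 this
  · have : E = 0 := by
      ext n; simpa using (key n).2
    exact sub_eq_zero.1 this

theorem uniq_z (Z1 : K⟦X⟧) (h : X * d⁄dX K Z1 = Z1 - xS a b) (h1 : coeff 1 Z1 = 0) :
    Z1 = zS a b := by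
  have e4 := R4 a b
  set D := Z1 - zS a b with hD
  have d : X * d⁄dX K D = D := by
    rw [hD, map_sub, mul_sub, h, e4]; ring
  have : D = 0 := by
    ext n
    have c := congrArg (coeff n) d
    rw [Uniq_coeff_XD] at c
    rw [map_zero]
    by_cases hn : n = 1
    · subst hn
      rw [hD, map_sub, h1, coeff_one_zS, sub_self]
    · have hq : ((n : K) - 1) * coeff n D = 0 := by linear_combination c
      rcases mul_eq_zero.1 hq with h | h
      · exfalso
        apply hn
        have : (n : K) = (1 : ℕ) := by push_cast; exact sub_eq_zero.1 h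
        exact_mod_cast this
      · exact h
  exact sub_eq_zero.1 this

theorem uniq_s (S1 : K⟦X⟧) (h0 : constantCoeff S1 = 1)
    (h : X * d⁄dX K S1 = S1 * (zS a b - 1)) : S1 = sS a b := by
  have e5 := R5 a b
  set D := S1 - sS a b with hD
  have d : X * d⁄dX K D = D * (zS a b - 1) := by
    rw [hD, map_sub, mul_sub, h, e5]; ring
  have key : ∀ n : ℕ, coeff n D = 0 := by
    intro n
    induction n using Nat.strong_induction_on with
    | _ n ih =>
      rcases Nat.eq_zero_or_pos n with hn | hn
      · subst hn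
        rw [coeff_zero_eq_constantCoeff_apply, hD, map_sub, h0, const_sS, sub_self]
      · have c := congrArg (coeff n) d
        have k : constantCoeff (zS a b - 1) = 0 := by
          rw [map_sub, const_zS, map_one, sub_self]
        rw [Uniq_coeff_XD, Uniq_coeff_mul D _ n ih, k, mul_zero] at c
        rcases mul_eq_zero.1 c with h | h
        · exact absurd h (Nat.cast_ne_zero.2 hn.ne')
        · exact h
  have : D = 0 := by
    ext n; simpa using key n
  exact sub_eq_zero.1 this

omit [CharZero K] in
theorem Uniq_XD_rescale (l : K) (f : K⟦X⟧) :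
    X * d⁄dX K (rescale l f) = rescale l (X * d⁄dX K f) := by
  ext n
  rw [Uniq_coeff_XD, coeff_rescale, coeff_rescale, Uniq_coeff_XD]
  ring

omit [CharZero K] in
theorem Uniq_rescale_C (l c : K) : rescale l (C c : K⟦X⟧) = C c := by
  ext n
  rw [coeff_rescale, coeff_C]
  split_ifs with h
  · rw [h, pow_zero, one_mul]
  · rw [mul_zero]

omit [CharZero K] in
theorem Uniq_rescale_X (l : K) : rescale l (X : K⟦X⟧) = C l * X := rescale_X l

theorem Uniq_rescale_xy (l : K) : rescale l (xS a b) = xS (l ^ 4 * a) (l ^ 6 * b) ∧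
    rescale l (yS a b) = yS (l ^ 4 * a) (l ^ 6 * b) := by
  have cc : ∀ f : K⟦X⟧, constantCoeff (rescale l f) = constantCoeff f := by
    intro f
    rw [← coeff_zero_eq_constantCoeff_apply, coeff_rescale, pow_zero, one_mul,
      coeff_zero_eq_constantCoeff_apply]
  refine uniq_xy _ _ _ _ ?_ ?_ ?_ ?_ ?_
  · rw [cc, const_xS]
  · rw [cc, const_yS]
  · rw [← map_pow, R1]
    simp only [map_add, map_mul, map_pow, Uniq_rescale_C, Uniq_rescale_X]
    ring
  · rw [Uniq_XD_rescale, R2]
    simp only [map_add, map_mul, map_ofNat]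
  · rw [Uniq_XD_rescale, R3]
    simp only [map_add, map_mul, map_pow, map_ofNat, Uniq_rescale_C, Uniq_rescale_X]
    ring

theorem rescale_xS (l : K) : rescale l (xS a b) = xS (l ^ 4 * a) (l ^ 6 * b) :=
  (Uniq_rescale_xy a b l).1

theorem rescale_yS (l : K) : rescale l (yS a b) = yS (l ^ 4 * a) (l ^ 6 * b) :=
  (Uniq_rescale_xy a b l).2

theorem rescale_zS (l : K) : rescale l (zS a b) = zS (l ^ 4 * a) (l ^ 6 * b) := by
  refine uniq_z _ _ _ ?_ ?_
  · rw [Uniq_XD_rescale, R4, map_sub, rescale_xS]
  · rw [coeff_rescale, coeff_one_zS, mul_zero]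

theorem rescale_sS (l : K) : rescale l (sS a b) = sS (l ^ 4 * a) (l ^ 6 * b) := by
  refine uniq_s _ _ _ ?_ ?_
  · rw [← coeff_zero_eq_constantCoeff_apply, coeff_rescale, pow_zero, one_mul,
      coeff_zero_eq_constantCoeff_apply, const_sS]
  · rw [Uniq_XD_rescale, R5, map_mul, map_sub, map_one, rescale_zS]

end Pool.Agent.ZCM
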