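import Pool.Agent.ZCM.Chain
import Pool.Agent.ZCM.Ev
import Pool.Agent.ZCM.Grow
import Pool.Agent.ZCM.Sig
import Pool.Agent.ZCM.Uniq

/-! # L2: the entire functions `S, Q, q, R` of a lattice -/

namespace Pool.Agent.ZCM
open Filter Topology PowerSeries

/-! ### Taylor series at a point -/

/-- the Taylor series of `f` at `z0` -/
noncomputable def Link_T (z0 : ℂ) (f : ℂ → ℂ) : ℂ⟦X⟧ :=
  PowerSeries.mk fun n => iteratedDeriv n f z0 / (n.factorial : ℂ)

theorem Link_coeff_T (z0 : ℂ) (f : ℂ → ℂ) (n : ℕ) :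
    coeff n (Link_T z0 f) = iteratedDeriv n f z0 / (n.factorial : ℂ) := coeff_mk _ _

theorem Link_const_T (z0 : ℂ) (f : ℂ → ℂ) : constantCoeff (Link_T z0 f) = f z0 := by
  rw [← coeff_zero_eq_constantCoeff_apply, Link_coeff_T]
  simp

theorem Link_T_congr {z0 : ℂ} {f g : ℂ → ℂ} (h : f =ᶠ[𝓝 z0] g) : Link_T z0 f = Link_T z0 g := by
  ext n
  rw [Link_coeff_T, Link_coeff_T, h.iteratedDeriv_eq n]

theorem Link_T_add {z0 : ℂ} {f g : ℂ → ℂ} (hf : AnalyticAt ℂ f z0) (hg : AnalyticAt ℂ g z0) :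
    Link_T z0 (fun z => f z + g z) = Link_T z0 f + Link_T z0 g := by
  ext n
  rw [map_add, Link_coeff_T, Link_coeff_T, Link_coeff_T,
    iteratedDeriv_fun_add hf.contDiffAt hg.contDiffAt, add_div]

theorem Link_T_sub {z0 : ℂ} {f g : ℂ → ℂ} (hf : AnalyticAt ℂ f z0) (hg : AnalyticAt ℂ g z0) :
    Link_T z0 (fun z => f z - g z) = Link_T z0 f - Link_T z0 g := by
  ext n
  rw [map_sub, Link_coeff_T, Link_coeff_T, Link_coeff_T,
    iteratedDeriv_fun_sub hf.contDiffAt hg.contDiffAt, sub_div]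

theorem Link_T_mul {z0 : ℂ} {f g : ℂ → ℂ} (hf : AnalyticAt ℂ f z0) (hg : AnalyticAt ℂ g z0) :
    Link_T z0 (fun z => f z * g z) = Link_T z0 f * Link_T z0 g := by
  ext n
  rw [PowerSeries.coeff_mul, Finset.Nat.sum_antidiagonal_eq_sum_range_succ
    (fun i j => coeff i (Link_T z0 f) * coeff j (Link_T z0 g)), Link_coeff_T,
    iteratedDeriv_fun_mul hf.contDiffAt hg.contDiffAt, Finset.sum_div]
  apply Finset.sum_congr rfl
  intro i hi
  have hi' : i ≤ n := by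
    have := Finset.mem_range.mp hi
    omega
  have h := Nat.choose_mul_factorial_mul_factorial hi'
  have h' : ((n.choose i : ℂ) * (i.factorial : ℂ) * ((n - i).factorial : ℂ)) =
      (n.factorial : ℂ) := by exact_mod_cast h
  have h1 : (i.factorial : ℂ) ≠ 0 := by exact_mod_cast Nat.factorial_ne_zero i
  have h2 : ((n - i).factorial : ℂ) ≠ 0 := by exact_mod_cast Nat.factorial_ne_zero (n - i)
  have h3 : (n.choose i : ℂ) ≠ 0 := by exact_mod_cast (Nat.choose_pos hi').ne'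
  rw [Link_coeff_T, Link_coeff_T, ← h']
  field_simp

theorem Link_T_const (z0 c : ℂ) : Link_T z0 (fun _ => c) = C c := by
  ext n
  rw [Link_coeff_T, coeff_C, iteratedDeriv_const]
  split_ifs with h
  · subst h; simp
  · simp

theorem Link_T_id : Link_T 0 (fun z => z) = X := by
  ext n
  rw [Link_coeff_T, coeff_X, iteratedDeriv_fun_id_zero]
  split_ifs with h
  · subst h; simp
  · simp

theorem Link_T_pow {z0 : ℂ} {f : ℂ → ℂ} (hf : AnalyticAt ℂ f z0) (k : ℕ) :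
    Link_T z0 (fun z => f z ^ k) = Link_T z0 f ^ k := by
  induction k with
  | zero =>
    simp only [pow_zero]
    rw [Link_T_const]
    simp
  | succ k ih =>
    have h : (fun z => f z ^ (k + 1)) = fun z => f z ^ k * f z := by
      funext z; rw [pow_succ]
    rw [h, Link_T_mul (hf.fun_pow k) hf, ih, pow_succ]

theorem Link_T_deriv (z0 : ℂ) (f : ℂ → ℂ) : Link_T z0 (deriv f) = d⁄dX ℂ (Link_T z0 f) := by
  ext n
  rw [coeff_derivative, Link_coeff_T, Link_coeff_T, ← iteratedDeriv_succ', Nat.factorial_succ]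
  have h1 : (n.factorial : ℂ) ≠ 0 := by exact_mod_cast Nat.factorial_ne_zero n
  have h2 : ((n : ℂ) + 1) ≠ 0 := by exact_mod_cast Nat.succ_ne_zero n
  push_cast
  field_simp

theorem Link_T_eq_zero {z0 : ℂ} {f : ℂ → ℂ} (hf : AnalyticAt ℂ f z0) (h : Link_T z0 f = 0) :
    ∀ᶠ z in 𝓝 z0, f z = 0 := by
  have h1 := hf.hasFPowerSeriesAt
  have h2 : (fun n => iteratedDeriv n f z0 / (n.factorial : ℂ)) = 0 := by
    funext n
    have := congrArg (coeff n) h
    rw [Link_coeff_T, map_zero] at this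
    exact this
  rw [h2] at h1
  have h3 : FormalMultilinearSeries.ofScalars ℂ (0 : ℕ → ℂ) = 0 := by
    ext n
    simp [FormalMultilinearSeries.ofScalars]
  rw [h3] at h1
  exact h1.eventually_eq_zero

theorem Link_T_inj {z0 : ℂ} {f g : ℂ → ℂ} (hf : AnalyticAt ℂ f z0) (hg : AnalyticAt ℂ g z0)
    (h : Link_T z0 f = Link_T z0 g) : ∀ᶠ z in 𝓝 z0, f z = g z := by
  have h1 : Link_T z0 (fun z => f z - g z) = 0 := by
    rw [Link_T_sub hf hg, h, sub_self]
  filter_upwards [Link_T_eq_zero (hf.fun_sub hg) h1] with z hz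
  exact sub_eq_zero.mp hz

theorem Link_analyticAt_ev {f : ℂ⟦X⟧} (hf : Ent f) (z : ℂ) : AnalyticAt ℂ (ev f) z :=
  (differentiable_ev hf).analyticAt z

theorem Link_T_ev {f : ℂ⟦X⟧} (hf : Ent f) : Link_T 0 (ev f) = f := by
  have key : ∀ n : ℕ, ∀ f : ℂ⟦X⟧, Ent f → coeff n (Link_T 0 (ev f)) = coeff n f := by
    intro n
    induction n with
    | zero =>
      intro f hf
      rw [coeff_zero_eq_constantCoeff_apply, Link_const_T, ev_zero,
        coeff_zero_eq_constantCoeff_apply]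
    | succ n ih =>
      intro f hf
      have h1 : deriv (ev f) = ev (d⁄dX ℂ f) := by
        funext z
        exact (hasDerivAt_ev hf z).deriv
      have h2 := ih (d⁄dX ℂ f) hf.deriv
      rw [← h1, Link_T_deriv, coeff_derivative, coeff_derivative] at h2
      have h3 : ((n : ℂ) + 1) ≠ 0 := by exact_mod_cast Nat.succ_ne_zero n
      exact mul_right_cancel₀ h3 h2
  ext n
  exact key n f hf

/-- a linear homogeneous equation `f' = g f`, `f(0) = 0` -/
theorem Link_ode_zero (f g : ℂ⟦X⟧) (h : d⁄dX ℂ f = g * f) (h0 : constantCoeff f = 0) : f = 0 := by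
  have key : ∀ n : ℕ, ∀ k ≤ n, coeff k f = 0 := by
    intro n
    induction n with
    | zero =>
      intro k hk
      have : k = 0 := by omega
      subst this
      rw [coeff_zero_eq_constantCoeff_apply]
      exact h0
    | succ n ih =>
      intro k hk
      rcases Nat.lt_or_ge k (n + 1) with hk' | hk'
      · exact ih k (by omega)
      · have hk1 : k = n + 1 := by omega
        subst hk1
        have h1 := congrArg (coeff n) h
        rw [coeff_derivative, PowerSeries.coeff_mul] at h1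
        rw [Finset.sum_eq_zero (fun p hp => by
          have hp' := Finset.HasAntidiagonal.mem_antidiagonal.mp hp
          rw [ih p.2 (by omega), mul_zero])] at h1
        have h3 : ((n : ℂ) + 1) ≠ 0 := by exact_mod_cast Nat.succ_ne_zero n
        exact (mul_eq_zero.mp h1).resolve_right h3
  ext n
  rw [key n n le_rfl, map_zero]

/-! ### basic facts on `S` and `R` -/

theorem Link_Ent_SS (a b : ℂ) : Ent (SS a b) := (Gr_SS a b).ent
theorem Link_Ent_QQ (a b : ℂ) : Ent (QQ a b) := (Gr_QQ a b).ent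
theorem Link_Ent_qq (a b : ℂ) : Ent (qq a b) := (Gr_qq a b).ent
theorem Link_Ent_RR (a b : ℂ) : Ent (RR a b) := (Gr_RR a b).ent

theorem hasDerivAt_S (a b : ℂ) (z : ℂ) : HasDerivAt (ev (SS a b)) (ev (RR a b) z) z := by
  have h := hasDerivAt_ev (Link_Ent_SS a b) z
  rw [d_SS] at h
  exact h

theorem S_zero (a b : ℂ) : ev (SS a b) 0 = 0 := by
  rw [ev_zero, const_SS]

theorem R_zero (a b : ℂ) : ev (RR a b) 0 = 1 := by
  rw [ev_zero, const_RR]

/-! ### identity theorem on the complement of the lattice -/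

theorem Link_ext (L : PeriodPair) {F : ℂ → ℂ} (hF : AnalyticOnNhd ℂ F (L.lattice : Set ℂ)ᶜ)
    (h : ∀ᶠ z in 𝓝[≠] (0 : ℂ), F z = 0) {z : ℂ} (hz : z ∉ L.lattice) : F z = 0 := by
  have h1 : ∀ᶠ y in 𝓝[≠] (0 : ℂ), ∀ᶠ x in 𝓝[≠] (0 : ℂ) ⊓ 𝓝 y, F x = 0 ∨ True := by
    filter_upwards with y
    filter_upwards with x
    exact Or.inr trivial
  have h2 : ∀ᶠ y in 𝓝[≠] (0 : ℂ), ∀ᶠ x in 𝓝[{0}ᶜ] y, F x = 0 :=
    eventually_eventually_nhdsWithin.mpr h
  have h3 : ∀ᶠ y in 𝓝[≠] (0 : ℂ), y ≠ 0 := eventually_mem_nhdsWithin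
  obtain ⟨z0, ⟨hz1, hz2⟩, hz3⟩ := ((h2.and (eventually_notMem L)).and h3).exists
  have h4 : ∀ᶠ x in 𝓝 z0, F x = 0 := by
    have h5 : 𝓝[{0}ᶜ] z0 = 𝓝 z0 := IsOpen.nhdsWithin_eq isOpen_compl_singleton hz3
    rw [h5] at hz1
    exact hz1
  exact hF.eqOn_zero_of_preconnected_of_eventuallyEq_zero (isPreconnected_compl L) hz2 h4 hz

theorem Link_analyticOnNhd_P (L : PeriodPair) :
    AnalyticOnNhd ℂ L.weierstrassP (L.lattice : Set ℂ)ᶜ := L.analyticOnNhd_weierstrassP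

theorem Link_analyticOnNhd_P' (L : PeriodPair) :
    AnalyticOnNhd ℂ L.derivWeierstrassP (L.lattice : Set ℂ)ᶜ := L.analyticOnNhd_derivWeierstrassP

theorem Link_analyticOnNhd_zeta (L : PeriodPair) :
    AnalyticOnNhd ℂ (zetaL L) (L.lattice : Set ℂ)ᶜ := by
  apply DifferentiableOn.analyticOnNhd _ (isOpen_compl L)
  intro z hz
  exact (hasDerivAt_zetaL L hz).differentiableAt.differentiableWithinAt

section near
variable (L : PeriodPair)

/-- `z² ℘(z)` -/
noncomputable def Link_x (z : ℂ) : ℂ := z ^ 2 * L.weierstrassPExcept 0 z + 1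
/-- `z³ ℘'(z)/2` -/
noncomputable def Link_y (z : ℂ) : ℂ := z ^ 3 * L.derivWeierstrassPExcept 0 z / 2 - 1

theorem Link_x_eq {z : ℂ} (hz : z ≠ 0) : Link_x L z = z ^ 2 * L.weierstrassP z := by
  have h := L.weierstrassPExcept_add 0 z
  simp only [ZeroMemClass.coe_zero, sub_zero] at h
  unfold Link_x
  rw [← h]
  field_simp
  simp

theorem Link_y_eq {z : ℂ} (hz : z ≠ 0) : Link_y L z = z ^ 3 * (L.derivWeierstrassP z / 2) := by
  have h := L.derivWeierstrassPExcept_sub 0 z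
  simp only [ZeroMemClass.coe_zero, sub_zero] at h
  unfold Link_y
  rw [← h]
  field_simp

theorem Link_x_zero : Link_x L 0 = 1 := by simp [Link_x]
theorem Link_y_zero : Link_y L 0 = -1 := by simp [Link_y]

theorem Link_analyticAt_x : AnalyticAt ℂ (Link_x L) 0 := by
  have h := L.analyticAt_weierstrassPExcept 0
  unfold Link_x
  fun_prop

theorem Link_analyticAt_y : AnalyticAt ℂ (Link_y L) 0 := by
  have h := L.analyticAt_derivWeierstrassPExcept 0
  unfold Link_y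
  fun_prop

end near

variable (L : PeriodPair) (a b : ℂ) (h2 : L.g₂ = -4 * a) (h3 : L.g₃ = -4 * b)

theorem Link_eventually_of {p : ℂ → Prop} (h0 : p 0)
    (h : ∀ z : ℂ, z ≠ 0 → z ∉ L.lattice → p z) : ∀ᶠ z in 𝓝 (0 : ℂ), p z := by
  have h1 := eventually_notMem L
  rw [eventually_nhdsWithin_iff] at h1
  filter_upwards [h1] with z hz
  by_cases hz0 : z = 0
  · rw [hz0]; exact h0
  · exact h z hz0 (hz hz0)

theorem Link_deriv_x {z : ℂ} (hz0 : z ≠ 0) (hz : z ∉ L.lattice) :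
    z * deriv (Link_x L) z = 2 * Link_x L z + 2 * Link_y L z := by
  have h1 : Link_x L =ᶠ[𝓝 z] fun z => z ^ 2 * L.weierstrassP z := by
    filter_upwards [isOpen_compl_singleton.mem_nhds hz0] with w hw
    exact Link_x_eq L hw
  have h2 : HasDerivAt (fun z => z ^ 2 * L.weierstrassP z)
      ((2 : ℕ) * z ^ (2 - 1) * L.weierstrassP z + z ^ 2 * (2 * (L.derivWeierstrassP z / 2))) z :=
    (hasDerivAt_pow 2 z).mul (hasDerivAt_P L hz)
  rw [h1.deriv_eq, h2.deriv, Link_x_eq L hz0, Link_y_eq L hz0]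
  push_cast
  ring

include h2 h3

theorem Link_deriv_y {z : ℂ} (hz0 : z ≠ 0) (hz : z ∉ L.lattice) :
    z * deriv (Link_y L) z = 3 * Link_y L z + 3 * Link_x L z ^ 2 + a * z ^ 4 := by
  have h1 : Link_y L =ᶠ[𝓝 z] fun z => z ^ 3 * (L.derivWeierstrassP z / 2) := by
    filter_upwards [isOpen_compl_singleton.mem_nhds hz0] with w hw
    exact Link_y_eq L hw
  have h4 : HasDerivAt (fun z => z ^ 3 * (L.derivWeierstrassP z / 2))
      ((3 : ℕ) * z ^ (3 - 1) * (L.derivWeierstrassP z / 2)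
        + z ^ 3 * (3 * L.weierstrassP z ^ 2 + a)) z :=
    (hasDerivAt_pow 3 z).mul (hasDerivAt_P' L a b h2 h3 hz)
  rw [h1.deriv_eq, h4.deriv, Link_x_eq L hz0, Link_y_eq L hz0]
  push_cast
  ring

theorem Link_curve {z : ℂ} (hz0 : z ≠ 0) (hz : z ∉ L.lattice) :
    Link_y L z ^ 2 = Link_x L z ^ 3 + a * z ^ 4 * Link_x L z + b * z ^ 6 := by
  have h := ode L a b h2 h3 hz
  rw [Link_x_eq L hz0, Link_y_eq L hz0]
  linear_combination z ^ 6 * h

theorem Link_T_xy : Link_T 0 (Link_x L) = xS a b ∧ Link_T 0 (Link_y L) = yS a b := by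
  have hx := Link_analyticAt_x L
  have hy := Link_analyticAt_y L
  have hid : AnalyticAt ℂ (fun z : ℂ => z) 0 := analyticAt_id
  have hc : ∀ c : ℂ, AnalyticAt ℂ (fun _ : ℂ => c) 0 := fun c => analyticAt_const
  apply uniq_xy
  · rw [Link_const_T, Link_x_zero]
  · rw [Link_const_T, Link_y_zero]
  · have h : ∀ᶠ z in 𝓝 (0 : ℂ), Link_y L z ^ 2 =
        Link_x L z ^ 3 + a * z ^ 4 * Link_x L z + b * z ^ 6 := by
      refine Link_eventually_of L ?_ (fun z hz0 hz => Link_curve L a b h2 h3 hz0 hz)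
      rw [Link_x_zero, Link_y_zero]; norm_num
    have h4 := Link_T_congr (f := fun z => Link_y L z ^ 2)
      (g := fun z => Link_x L z ^ 3 + a * z ^ 4 * Link_x L z + b * z ^ 6) h
    rw [Link_T_pow hy, Link_T_add (((hx.fun_pow 3).fun_add (((hc a).fun_mul (hid.fun_pow 4)).fun_mul hx)))
      ((hc b).fun_mul (hid.fun_pow 6)), Link_T_add (hx.fun_pow 3)
      (((hc a).fun_mul (hid.fun_pow 4)).fun_mul hx),
      Link_T_mul ((hc a).fun_mul (hid.fun_pow 4)) hx, Link_T_mul (hc a) (hid.fun_pow 4),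
      Link_T_mul (hc b) (hid.fun_pow 6), Link_T_pow hx, Link_T_pow hid, Link_T_pow hid,
      Link_T_const, Link_T_const, Link_T_id] at h4
    exact h4
  · have h : ∀ᶠ z in 𝓝 (0 : ℂ), z * deriv (Link_x L) z = 2 * Link_x L z + 2 * Link_y L z := by
      refine Link_eventually_of L ?_ (fun z hz0 hz => Link_deriv_x L hz0 hz)
      rw [Link_x_zero, Link_y_zero]; norm_num
    have h4 := Link_T_congr (f := fun z => z * deriv (Link_x L) z)
      (g := fun z => 2 * Link_x L z + 2 * Link_y L z) h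
    rw [Link_T_mul hid hx.deriv, Link_T_deriv, Link_T_id, Link_T_add ((hc 2).fun_mul hx)
      ((hc 2).fun_mul hy), Link_T_mul (hc 2) hx, Link_T_mul (hc 2) hy, Link_T_const] at h4
    rw [h4]
    have e : (C (2 : ℂ) : ℂ⟦X⟧) = 2 := map_ofNat (PowerSeries.C (R := ℂ)) 2
    rw [e]
  · have h : ∀ᶠ z in 𝓝 (0 : ℂ), z * deriv (Link_y L) z =
        3 * Link_y L z + 3 * Link_x L z ^ 2 + a * z ^ 4 := by
      refine Link_eventually_of L ?_ (fun z hz0 hz => Link_deriv_y L a b h2 h3 hz0 hz)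
      rw [Link_x_zero, Link_y_zero]; norm_num
    have h4 := Link_T_congr (f := fun z => z * deriv (Link_y L) z)
      (g := fun z => 3 * Link_y L z + 3 * Link_x L z ^ 2 + a * z ^ 4) h
    rw [Link_T_mul hid hy.deriv, Link_T_deriv, Link_T_id,
      Link_T_add (((hc 3).fun_mul hy).fun_add ((hc 3).fun_mul (hx.fun_pow 2)))
        ((hc a).fun_mul (hid.fun_pow 4)),
      Link_T_add ((hc 3).fun_mul hy) ((hc 3).fun_mul (hx.fun_pow 2)),
      Link_T_mul (hc 3) hy, Link_T_mul (hc 3) (hx.fun_pow 2), Link_T_mul (hc a) (hid.fun_pow 4),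
      Link_T_pow hx, Link_T_pow hid, Link_T_const, Link_T_const, Link_T_id] at h4
    rw [h4]
    have e : (C (3 : ℂ) : ℂ⟦X⟧) = 3 := map_ofNat (PowerSeries.C (R := ℂ)) 3
    rw [e]

theorem Link_T_z (g : ℂ → ℂ) (hg : AnalyticAt ℂ g 0) (hg0 : g 0 = 0)
    (h : ∀ᶠ z in 𝓝[≠] (0 : ℂ), zetaL L z = 1 / z + g z) :
    Link_T 0 (fun z => 1 + z * g z) = zS a b := by
  have hx := Link_analyticAt_x L
  have hid : AnalyticAt ℂ (fun z : ℂ => z) 0 := analyticAt_id
  have hc : ∀ c : ℂ, AnalyticAt ℂ (fun _ : ℂ => c) 0 := fun c => analyticAt_const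
  have hz1 : AnalyticAt ℂ (fun z => 1 + z * g z) 0 := (hc 1).fun_add (hid.fun_mul hg)
  apply uniq_z
  · -- z z1' = z1 - x1
    have h4 : ∀ᶠ y in 𝓝[≠] (0 : ℂ), ∀ᶠ x in 𝓝[{0}ᶜ] y, zetaL L x = 1 / x + g x :=
      eventually_eventually_nhdsWithin.mpr h
    have h5 := h4.and (eventually_notMem L)
    rw [eventually_nhdsWithin_iff] at h5
    have h6 : ∀ᶠ z in 𝓝 (0 : ℂ), z * deriv (fun z => 1 + z * g z) z =
        (1 + z * g z) - Link_x L z := by
      filter_upwards [h5] with z hz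
      by_cases hz0 : z = 0
      · rw [hz0, Link_x_zero]; simp
      · obtain ⟨hz2, hz3⟩ := hz hz0
        have h7 : 𝓝[{0}ᶜ] z = 𝓝 z := IsOpen.nhdsWithin_eq isOpen_compl_singleton hz0
        rw [h7] at hz2
        have h8 : (fun z => 1 + z * g z) =ᶠ[𝓝 z] fun z => z * zetaL L z := by
          filter_upwards [hz2, isOpen_compl_singleton.mem_nhds hz0] with w hw hw0
          have hw0' : w ≠ 0 := hw0
          rw [hw]
          field_simp
        have h9 : HasDerivAt (fun z => z * zetaL L z)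
            (1 * zetaL L z + z * (-L.weierstrassP z)) z :=
          (hasDerivAt_id z).mul (hasDerivAt_zetaL L hz3)
        have h10 : 1 + z * g z = z * zetaL L z := h8.self_of_nhds
        rw [h8.deriv_eq, h9.deriv, h10, Link_x_eq L hz0]
        ring
    have h7 := Link_T_congr (f := fun z => z * deriv (fun z => 1 + z * g z) z)
      (g := fun z => (1 + z * g z) - Link_x L z) h6
    rw [Link_T_mul hid hz1.deriv, Link_T_deriv, Link_T_id, Link_T_sub hz1 hx,
      (Link_T_xy L a b h2 h3).1] at h7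
    exact h7
  · rw [Link_T_add (hc 1) (hid.fun_mul hg), Link_T_mul hid hg, Link_T_id, Link_T_const, map_add,
      coeff_C]
    have e5 : coeff 1 (X * Link_T 0 g) = 0 := by
      have e6 := PowerSeries.coeff_succ_X_mul 0 (Link_T 0 g)
      rw [zero_add] at e6
      rw [e6, coeff_zero_eq_constantCoeff_apply, Link_const_T, hg0]
    rw [e5]
    simp

theorem Link_Q_near : ∀ᶠ z in 𝓝[≠] (0 : ℂ),
    ev (SS a b) z ^ 2 * L.weierstrassP z = ev (QQ a b) z := by
  have hx := Link_analyticAt_x L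
  have hid : AnalyticAt ℂ (fun z : ℂ => z) 0 := analyticAt_id
  have hS := Link_analyticAt_ev (Link_Ent_SS a b) 0
  have hQ := Link_analyticAt_ev (Link_Ent_QQ a b) 0
  have h := Link_T_inj (f := fun z => ev (SS a b) z ^ 2 * Link_x L z)
    (g := fun z => z ^ 2 * ev (QQ a b) z) ((hS.fun_pow 2).fun_mul hx) ((hid.fun_pow 2).fun_mul hQ) (by
      rw [Link_T_mul (hS.fun_pow 2) hx, Link_T_mul (hid.fun_pow 2) hQ, Link_T_pow hS,
        Link_T_pow hid, Link_T_id, Link_T_ev (Link_Ent_SS a b), Link_T_ev (Link_Ent_QQ a b),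
        (Link_T_xy L a b h2 h3).1]
      unfold SS QQ
      ring)
  rw [eventually_nhdsWithin_iff]
  filter_upwards [h] with z hz hz0
  have hz0' : z ≠ 0 := hz0
  rw [Link_x_eq L hz0'] at hz
  have h5 : z ^ 2 * (ev (SS a b) z ^ 2 * L.weierstrassP z) = z ^ 2 * ev (QQ a b) z := by
    rw [← hz]; ring
  exact mul_left_cancel₀ (pow_ne_zero 2 hz0') h5

theorem Link_q_near : ∀ᶠ z in 𝓝[≠] (0 : ℂ),
    ev (SS a b) z ^ 3 * (L.derivWeierstrassP z / 2) = ev (qq a b) z := by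
  have hy := Link_analyticAt_y L
  have hid : AnalyticAt ℂ (fun z : ℂ => z) 0 := analyticAt_id
  have hS := Link_analyticAt_ev (Link_Ent_SS a b) 0
  have hQ := Link_analyticAt_ev (Link_Ent_qq a b) 0
  have h := Link_T_inj (f := fun z => ev (SS a b) z ^ 3 * Link_y L z)
    (g := fun z => z ^ 3 * ev (qq a b) z) ((hS.fun_pow 3).fun_mul hy) ((hid.fun_pow 3).fun_mul hQ) (by
      rw [Link_T_mul (hS.fun_pow 3) hy, Link_T_mul (hid.fun_pow 3) hQ, Link_T_pow hS,
        Link_T_pow hid, Link_T_id, Link_T_ev (Link_Ent_SS a b), Link_T_ev (Link_Ent_qq a b),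
        (Link_T_xy L a b h2 h3).2]
      unfold SS qq
      ring)
  rw [eventually_nhdsWithin_iff]
  filter_upwards [h] with z hz hz0
  have hz0' : z ≠ 0 := hz0
  rw [Link_y_eq L hz0'] at hz
  have h5 : z ^ 3 * (ev (SS a b) z ^ 3 * (L.derivWeierstrassP z / 2)) = z ^ 3 * ev (qq a b) z := by
    rw [← hz]; ring
  exact mul_left_cancel₀ (pow_ne_zero 3 hz0') h5

theorem Link_R_near : ∀ᶠ z in 𝓝[≠] (0 : ℂ),
    ev (SS a b) z * zetaL L z = ev (RR a b) z := by
  obtain ⟨g, hg, hg0, hgz⟩ := zetaL_near_zero L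
  have hid : AnalyticAt ℂ (fun z : ℂ => z) 0 := analyticAt_id
  have hz1 : AnalyticAt ℂ (fun z => 1 + z * g z) 0 :=
    analyticAt_const.fun_add (hid.fun_mul hg)
  have hS := Link_analyticAt_ev (Link_Ent_SS a b) 0
  have hR := Link_analyticAt_ev (Link_Ent_RR a b) 0
  have h := Link_T_inj (f := fun z => ev (SS a b) z * (1 + z * g z))
    (g := fun z => z * ev (RR a b) z) (hS.fun_mul hz1) (hid.fun_mul hR) (by
      rw [Link_T_mul hS hz1, Link_T_mul hid hR, Link_T_id, Link_T_ev (Link_Ent_SS a b),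
        Link_T_ev (Link_Ent_RR a b), Link_T_z L a b h2 h3 g hg hg0 hgz]
      unfold SS RR
      ring)
  rw [eventually_nhdsWithin_iff] at hgz ⊢
  filter_upwards [h, hgz] with z hz hz2 hz0
  have hz0' : z ≠ 0 := hz0
  have h5 : z * (ev (SS a b) z * zetaL L z) = z * ev (RR a b) z := by
    rw [← hz, hz2 hz0]
    field_simp
  exact mul_left_cancel₀ hz0' h5

theorem link_Q {z : ℂ} (hz : z ∉ L.lattice) :
    ev (SS a b) z ^ 2 * L.weierstrassP z = ev (QQ a b) z := by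
  have h := Link_ext L (F := fun z => ev (SS a b) z ^ 2 * L.weierstrassP z - ev (QQ a b) z) (by
    intro w hw
    exact (((Link_analyticAt_ev (Link_Ent_SS a b) w).fun_pow 2).fun_mul
      (Link_analyticOnNhd_P L w hw)).fun_sub (Link_analyticAt_ev (Link_Ent_QQ a b) w)) (by
    filter_upwards [Link_Q_near L a b h2 h3] with w hw
    rw [hw, sub_self]) hz
  exact sub_eq_zero.mp h

theorem link_q {z : ℂ} (hz : z ∉ L.lattice) :
    ev (SS a b) z ^ 3 * (L.derivWeierstrassP z / 2) = ev (qq a b) z := by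
  have h := Link_ext L
    (F := fun z => ev (SS a b) z ^ 3 * (L.derivWeierstrassP z / 2) - ev (qq a b) z) (by
    intro w hw
    have h5 : AnalyticAt ℂ (fun z => L.derivWeierstrassP z / 2) w :=
      (Link_analyticOnNhd_P' L w hw).div_const
    exact (((Link_analyticAt_ev (Link_Ent_SS a b) w).fun_pow 3).fun_mul h5).fun_sub
      (Link_analyticAt_ev (Link_Ent_qq a b) w)) (by
    filter_upwards [Link_q_near L a b h2 h3] with w hw
    rw [hw, sub_self]) hz
  exact sub_eq_zero.mp h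

theorem link_R {z : ℂ} (hz : z ∉ L.lattice) :
    ev (SS a b) z * zetaL L z = ev (RR a b) z := by
  have h := Link_ext L (F := fun z => ev (SS a b) z * zetaL L z - ev (RR a b) z) (by
    intro w hw
    exact ((Link_analyticAt_ev (Link_Ent_SS a b) w).fun_mul
      (Link_analyticOnNhd_zeta L w hw)).fun_sub (Link_analyticAt_ev (Link_Ent_RR a b) w)) (by
    filter_upwards [Link_R_near L a b h2 h3] with w hw
    rw [hw, sub_self]) hz
  exact sub_eq_zero.mp h

theorem S_eq_zero_iff (z : ℂ) : ev (SS a b) z = 0 ↔ z ∈ L.lattice := by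
  constructor
  · intro hS
    by_contra hz
    -- `S' = ζ S` near `z`
    have hζ : AnalyticAt ℂ (zetaL L) z := Link_analyticOnNhd_zeta L z hz
    have hSa := Link_analyticAt_ev (Link_Ent_SS a b) z
    have h4 : deriv (ev (SS a b)) =ᶠ[𝓝 z] fun w => zetaL L w * ev (SS a b) w := by
      filter_upwards [(isOpen_compl L).mem_nhds hz] with w hw
      rw [(hasDerivAt_S a b w).deriv, ← link_R L a b h2 h3 hw, mul_comm]
    have h5 := Link_T_congr h4
    rw [Link_T_deriv, Link_T_mul hζ hSa] at h5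
    have h6 := Link_ode_zero _ _ h5 (by rw [Link_const_T, hS])
    have h7 := Link_T_eq_zero hSa h6
    have h8 : ev (SS a b) = fun _ => 0 := by
      have hA : AnalyticOnNhd ℂ (ev (SS a b)) Set.univ := fun w _ =>
        Link_analyticAt_ev (Link_Ent_SS a b) w
      have hB : AnalyticOnNhd ℂ (fun _ : ℂ => (0 : ℂ)) Set.univ := analyticOnNhd_const
      exact hA.eq_of_eventuallyEq hB h7
    have h9 := (hasDerivAt_S a b 0).deriv
    rw [h8, R_zero] at h9
    simp at h9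
  · intro hz
    -- `(w-z)² Q = S² (w-z)² ℘ → S(z)²`
    have h4 : ∀ᶠ w in 𝓝[≠] z, (w - z) ^ 2 * ev (QQ a b) w =
        ev (SS a b) w ^ 2 * ((w - z) ^ 2 * L.weierstrassPExcept z w + 1 - (w - z) ^ 2 / z ^ 2) := by
      have hne : ∀ᶠ w in 𝓝[≠] z, w ≠ z := eventually_mem_nhdsWithin
      filter_upwards [eventually_notMem' L z hz, hne] with w hw hwz
      rw [← link_Q L a b h2 h3 hw]
      have h5 := L.weierstrassPExcept_add ⟨z, hz⟩ w
      have h6 : w - z ≠ 0 := sub_ne_zero.mpr hwz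
      simp only at h5
      rw [← h5]
      field_simp
      ring
    have hc1 : Tendsto (fun w => (w - z) ^ 2 * ev (QQ a b) w) (𝓝[≠] z) (𝓝 ((z - z) ^ 2 * ev (QQ a b) z)) := by
      have hQc : ContinuousAt (ev (QQ a b)) z := (Link_analyticAt_ev (Link_Ent_QQ a b) z).continuousAt
      have : ContinuousAt (fun w => (w - z) ^ 2 * ev (QQ a b) w) z := by fun_prop
      exact this.tendsto.mono_left nhdsWithin_le_nhds
    have hc2 : Tendsto (fun w => ev (SS a b) w ^ 2 *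
        ((w - z) ^ 2 * L.weierstrassPExcept z w + 1 - (w - z) ^ 2 / z ^ 2)) (𝓝[≠] z)
        (𝓝 (ev (SS a b) z ^ 2 * ((z - z) ^ 2 * L.weierstrassPExcept z z + 1 - (z - z) ^ 2 / z ^ 2))) := by
      have hSc : ContinuousAt (ev (SS a b)) z := (Link_analyticAt_ev (Link_Ent_SS a b) z).continuousAt
      have hPc : ContinuousAt (L.weierstrassPExcept z) z :=
        (L.analyticAt_weierstrassPExcept z).continuousAt
      have : ContinuousAt (fun w => ev (SS a b) w ^ 2 *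
        ((w - z) ^ 2 * L.weierstrassPExcept z w + 1 - (w - z) ^ 2 / z ^ 2)) z := by
        have h5 : ContinuousAt (fun w : ℂ => (w - z) ^ 2 / z ^ 2) z := by
          apply ContinuousAt.div_const
          fun_prop
        fun_prop
      exact this.tendsto.mono_left nhdsWithin_le_nhds
    have h6 := tendsto_nhds_unique_of_eventuallyEq hc1 hc2 h4
    simp only [sub_self] at h6
    have h7 : ev (SS a b) z ^ 2 = 0 := by
      rw [show ev (SS a b) z ^ 2 = ev (SS a b) z ^ 2 *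
        ((0:ℂ) ^ 2 * L.weierstrassPExcept z z + 1 - 0 ^ 2 / z ^ 2) by simp, ← h6]
      simp
    exact pow_eq_zero_iff (two_ne_zero) |>.mp h7

theorem Q_lattice {ω : ℂ} (h : ω ∈ L.lattice) : ev (QQ a b) ω = ev (RR a b) ω ^ 2 := by
  have hS := (S_eq_zero_iff L a b h2 h3 ω).mpr h
  have h4 := congrArg (fun f => ev f ω) (sig_rel a b)
  have eS := Link_Ent_SS a b
  have eR := Link_Ent_RR a b
  rw [ev_sub (eS.mul eR.deriv) (eR.pow 2), ev_mul eS eR.deriv, ev_pow eR, ev_neg, hS] at h4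
  linear_combination h4

theorem q_lattice {ω : ℂ} (h : ω ∈ L.lattice) : ev (qq a b) ω ^ 2 = ev (QQ a b) ω ^ 3 := by
  have hS := (S_eq_zero_iff L a b h2 h3 ω).mpr h
  have h4 := congrArg (fun f => ev f ω) (qq_sq a b)
  have eS := Link_Ent_SS a b
  have eQ := Link_Ent_QQ a b
  have eq := Link_Ent_qq a b
  rw [ev_pow eq, ev_add ((eQ.pow 3).add (((Ent_C a).mul eQ).mul (eS.pow 4)))
    ((Ent_C b).mul (eS.pow 6)), ev_add (eQ.pow 3) (((Ent_C a).mul eQ).mul (eS.pow 4)),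
    ev_pow eQ, ev_mul ((Ent_C a).mul eQ) (eS.pow 4), ev_mul (Ent_C a) eQ,
    ev_mul (Ent_C b) (eS.pow 6), ev_pow eS, ev_pow eS, hS] at h4
  rw [h4]
  simp

omit h2 h3 in
theorem Link_Ent_GS_term (Lz N0 : ℕ) (p : ℕ → ℕ → ℕ → ℤ) (i j k : ℕ) :
    Ent (C ((p i j k : ℤ) : ℂ) * X ^ i * SS a b ^ (3 * N0 - 2 * j - k) * QQ a b ^ j
      * RR a b ^ k) :=
  ((((Ent_C _).mul (Ent_X.pow i)).mul ((Link_Ent_SS a b).pow _)).mul
    ((Link_Ent_QQ a b).pow j)).mul ((Link_Ent_RR a b).pow k)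

omit h2 h3 in
theorem Link_Ent_GS (Lz N0 : ℕ) (p : ℕ → ℕ → ℕ → ℤ) : Ent (GS a b Lz N0 p) := by
  unfold GS
  exact Ent_sum _ _ fun i _ => Ent_sum _ _ fun j _ => Ent_sum _ _ fun k _ =>
    Link_Ent_GS_term a b Lz N0 p i j k

omit h2 h3 in
theorem Link_ev_GS (Lz N0 : ℕ) (p : ℕ → ℕ → ℕ → ℤ) (z : ℂ) :
    ev (GS a b Lz N0 p) z = ∑ i ∈ Finset.range Lz, ∑ j ∈ Finset.range N0, ∑ k ∈ Finset.range N0,
      ((p i j k : ℤ) : ℂ) * z ^ i * ev (SS a b) z ^ (3 * N0 - 2 * j - k) * ev (QQ a b) z ^ j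
        * ev (RR a b) z ^ k := by
  unfold GS
  rw [ev_sum _ _ fun i _ => Ent_sum _ _ fun j _ => Ent_sum _ _ fun k _ =>
    Link_Ent_GS_term a b Lz N0 p i j k]
  refine Finset.sum_congr rfl fun i _ => ?_
  rw [ev_sum _ _ fun j _ => Ent_sum _ _ fun k _ => Link_Ent_GS_term a b Lz N0 p i j k]
  refine Finset.sum_congr rfl fun j _ => ?_
  rw [ev_sum _ _ fun k _ => Link_Ent_GS_term a b Lz N0 p i j k]
  refine Finset.sum_congr rfl fun k _ => ?_
  have eS := Link_Ent_SS a b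
  have eQ := Link_Ent_QQ a b
  have eR := Link_Ent_RR a b
  have e1 := (Ent_C (((p i j k : ℤ) : ℂ))).mul (Ent_X.pow i)
  have e2 := e1.mul (eS.pow (3 * N0 - 2 * j - k))
  have e3 := e2.mul (eQ.pow j)
  rw [ev_mul e3 (eR.pow k), ev_mul e2 (eQ.pow j), ev_mul e1 (eS.pow _),
    ev_mul (Ent_C _) (Ent_X.pow i), ev_pow eR, ev_pow eQ, ev_pow eS, ev_pow Ent_X, ev_C, ev_X]

omit h2 h3 in
theorem Link_eval_PP (Lz N0 : ℕ) (p : ℕ → ℕ → ℕ → ℤ) (z : ℂ) :
    MvPolynomial.eval (v4 L z) (PP ℂ Lz N0 p) =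
      ∑ i ∈ Finset.range Lz, ∑ j ∈ Finset.range N0, ∑ k ∈ Finset.range N0,
        ((p i j k : ℤ) : ℂ) * z ^ i * L.weierstrassP z ^ j * zetaL L z ^ k := by
  simp [PP, v4]

/-- `S^{3 N0} F = GS` -/
theorem link_GS (Lz N0 : ℕ) (p : ℕ → ℕ → ℕ → ℤ) {z : ℂ} (hz : z ∉ L.lattice) :
    ev (SS a b) z ^ (3 * N0) * MvPolynomial.eval (v4 L z) (PP ℂ Lz N0 p)
      = ev (GS a b Lz N0 p) z := by
  rw [Link_eval_PP, Link_ev_GS, Finset.mul_sum]
  refine Finset.sum_congr rfl fun i _ => ?_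
  rw [Finset.mul_sum]
  refine Finset.sum_congr rfl fun j hj => ?_
  rw [Finset.mul_sum]
  refine Finset.sum_congr rfl fun k hk => ?_
  rw [Finset.mem_range] at hj hk
  have e : 3 * N0 = (3 * N0 - 2 * j - k) + 2 * j + k := by omega
  rw [← link_Q L a b h2 h3 hz, ← link_R L a b h2 h3 hz]
  have e1 : ev (SS a b) z ^ (3 * N0) =
      ev (SS a b) z ^ (3 * N0 - 2 * j - k) * (ev (SS a b) z ^ 2) ^ j * ev (SS a b) z ^ k := by
    rw [← pow_mul, ← pow_add, ← pow_add, ← e]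
  rw [e1, mul_pow, mul_pow]
  ring

omit h2 h3 in
theorem Link_S_lower : ∀ᶠ z in 𝓝 (0 : ℂ), ‖z‖ ≤ 2 * ‖ev (SS a b) z‖ := by
  have h := hasDerivAt_S a b 0
  rw [R_zero, hasDerivAt_iff_isLittleO_nhds_zero] at h
  have h1 := h.def (show (0:ℝ) < 1 / 2 by norm_num)
  filter_upwards [h1] with z hz
  rw [zero_add, S_zero, sub_zero, smul_eq_mul, mul_one] at hz
  have h2 : ‖z‖ ≤ ‖ev (SS a b) z - z‖ + ‖ev (SS a b) z‖ := by
    have h3 : z = -(ev (SS a b) z - z) + ev (SS a b) z := by ring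
    calc ‖z‖ = ‖-(ev (SS a b) z - z) + ev (SS a b) z‖ := by rw [← h3]
      _ ≤ ‖-(ev (SS a b) z - z)‖ + ‖ev (SS a b) z‖ := norm_add_le _ _
      _ = _ := by rw [norm_neg]
  linarith

/-- near 0: `F = O(z^{n - 3 N0})` if the coefficients of `GS` below `n` vanish -/
theorem isBigO_F (Lz N0 : ℕ) (p : ℕ → ℕ → ℕ → ℤ) (n : ℕ)
    (h : ∀ k < n, coeff k (GS a b Lz N0 p) = 0) :
    (fun z => MvPolynomial.eval (v4 L z) (PP ℂ Lz N0 p)) =O[𝓝[≠] (0 : ℂ)]
      fun z => z ^ ((n : ℤ) - 3 * N0) := by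
  have h4 := (isBigO_of_coeff_zero (Link_Ent_GS a b Lz N0 p) n h).mono
    (nhdsWithin_le_nhds (a := (0:ℂ)) (s := {0}ᶜ))
  obtain ⟨Cc, hC0, hC⟩ := h4.exists_pos
  rw [Asymptotics.isBigOWith_iff] at hC
  refine Asymptotics.IsBigO.of_bound (Cc * 2 ^ (3 * N0)) ?_
  have hne : ∀ᶠ w in 𝓝[≠] (0:ℂ), w ≠ 0 := eventually_mem_nhdsWithin
  filter_upwards [hC, eventually_notMem L, hne,
    (Link_S_lower a b).filter_mono nhdsWithin_le_nhds] with z hz1 hz2 hz3 hz4
  have hS : ev (SS a b) z ≠ 0 := fun h0 => hz2 ((S_eq_zero_iff L a b h2 h3 z).mp h0)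
  have h5 := link_GS L a b h2 h3 Lz N0 p hz2
  rw [← h5, norm_mul, norm_pow, norm_pow] at hz1
  have hzpos : 0 < ‖z‖ := norm_pos_iff.mpr hz3
  have h6 : ‖z‖ ^ (3 * N0) ≤ 2 ^ (3 * N0) * ‖ev (SS a b) z‖ ^ (3 * N0) := by
    rw [← mul_pow]
    exact pow_le_pow_left₀ (norm_nonneg _) hz4 _
  have h7 : ‖(z ^ ((n : ℤ) - 3 * N0) : ℂ)‖ = ‖z‖ ^ n / ‖z‖ ^ (3 * N0) := by
    rw [norm_zpow, zpow_sub₀ hzpos.ne', zpow_natCast]
    have : ((3 : ℤ) * (N0 : ℤ)) = ((3 * N0 : ℕ) : ℤ) := by push_cast; ring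
    rw [this, zpow_natCast]
  rw [h7, mul_div_assoc', le_div_iff₀ (by positivity)]
  calc ‖MvPolynomial.eval (v4 L z) (PP ℂ Lz N0 p)‖ * ‖z‖ ^ (3 * N0)
      ≤ ‖MvPolynomial.eval (v4 L z) (PP ℂ Lz N0 p)‖ *
        (2 ^ (3 * N0) * ‖ev (SS a b) z‖ ^ (3 * N0)) :=
        mul_le_mul_of_nonneg_left h6 (norm_nonneg _)
    _ = 2 ^ (3 * N0) * (‖ev (SS a b) z‖ ^ (3 * N0) *
        ‖MvPolynomial.eval (v4 L z) (PP ℂ Lz N0 p)‖) := by ring
    _ ≤ 2 ^ (3 * N0) * (Cc * ‖z‖ ^ n) := mul_le_mul_of_nonneg_left hz1 (by positivity)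
    _ = _ := by ring

end Pool.Agent.ZCM
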