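import Pool.Agent.ZCM.EllEven

/-! # J4a: `℘(αz)` is a rational function of `℘(z)` -/

namespace Pool.Agent.ZCM
open Filter Topology Polynomial

/-- the norm of `α` multiplies `α⁻¹ Λ` into `Λ` -/
theorem Isog_norm (L : PeriodPair) (al : ℂ) (hal : al ≠ 0)
    (hL : ∀ l ∈ L.lattice, al * l ∈ L.lattice) :
    ∃ N : ℕ, 0 < N ∧ ∀ z : ℂ, al * z ∈ L.lattice → (N : ℂ) * z ∈ L.lattice := by
  obtain ⟨a, b, h1⟩ := PeriodPair.mem_lattice.mp (hL _ L.ω₁_mem_lattice)
  obtain ⟨c, d, h2⟩ := PeriodPair.mem_lattice.mp (hL _ L.ω₂_mem_lattice)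
  have hind := LinearIndependent.pair_iff.mp L.indep
  have hω1 : L.ω₁ ≠ 0 := by
    intro h
    have := hind 1 0 (by simp [h])
    exact one_ne_zero this.1
  have key : al ^ 2 - ((a + d : ℤ) : ℂ) * al + ((a * d - b * c : ℤ) : ℂ) = 0 := by
    have : (al ^ 2 - ((a + d : ℤ) : ℂ) * al + ((a * d - b * c : ℤ) : ℂ)) * L.ω₁ = 0 := by
      push_cast
      linear_combination (-(al - d)) * h1 - (b : ℂ) * h2
    exact (mul_eq_zero.mp this).resolve_right hω1
  have hN : (a * d - b * c : ℤ) ≠ 0 := by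
    intro h0
    rw [h0] at key
    have hal2 : al = ((a + d : ℤ) : ℂ) := by
      have : al * (al - ((a + d : ℤ) : ℂ)) = 0 := by linear_combination key
      rcases mul_eq_zero.mp this with h | h
      · exact absurd h hal
      · exact sub_eq_zero.mp h
    have e1 := hind (d : ℝ) (-b : ℝ) (by
      rw [hal2] at h1
      push_cast at h1 ⊢
      simp only [Complex.real_smul]
      push_cast
      linear_combination -h1)
    have e2 := hind (-c : ℝ) (a : ℝ) (by
      rw [hal2] at h2
      push_cast at h2 ⊢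
      simp only [Complex.real_smul]
      push_cast
      linear_combination -h2)
    have hd : d = 0 := by exact_mod_cast e1.1
    have ha : a = 0 := by exact_mod_cast e2.2
    apply hal
    rw [hal2, ha, hd]
    simp
  refine ⟨(a * d - b * c : ℤ).natAbs, Int.natAbs_pos.mpr hN, fun z hz => ?_⟩
  have hmem : ((a * d - b * c : ℤ) : ℂ) * z ∈ L.lattice := by
    have e : ((a * d - b * c : ℤ) : ℂ) * z = (a + d : ℤ) • (al * z) - al * (al * z) := by
      rw [zsmul_eq_mul]
      linear_combination z * key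
    rw [e]
    exact sub_mem (L.lattice.smul_mem _ hz) (hL _ hz)
  rcases Int.natAbs_eq (a * d - b * c : ℤ) with h | h
  · have : (((a * d - b * c : ℤ).natAbs : ℕ) : ℂ) = ((a * d - b * c : ℤ) : ℂ) := by
      rw [← Int.cast_natCast (R := ℂ), ← h]
    rw [this]
    exact hmem
  · have : (((a * d - b * c : ℤ).natAbs : ℕ) : ℂ) = -((a * d - b * c : ℤ) : ℂ) := by
      rw [← Int.cast_natCast (R := ℂ), ← Int.cast_neg]
      congr 1
      omega
    rw [this, neg_mul]
    exact neg_mem hmem

/-- representatives of `N⁻¹Λ / Λ` -/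
theorem Isog_rep (L : PeriodPair) (N : ℕ) (hN : 0 < N) (z : ℂ) (hz : (N : ℂ) * z ∈ L.lattice) :
    ∃ i < N, ∃ j < N, ∃ l : L.lattice, z = ((i : ℂ) * L.ω₁ + (j : ℂ) * L.ω₂) / N + l := by
  obtain ⟨m, n, h⟩ := PeriodPair.mem_lattice.mp hz
  have hNC : (N : ℂ) ≠ 0 := by exact_mod_cast hN.ne'
  have hNZ : (N : ℤ) ≠ 0 := by exact_mod_cast hN.ne'
  have hNZp : (0 : ℤ) < N := by exact_mod_cast hN
  refine ⟨(m % N).toNat, ?_, (n % N).toNat, ?_,
    ⟨((m / N : ℤ) : ℂ) * L.ω₁ + ((n / N : ℤ) : ℂ) * L.ω₂,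
      PeriodPair.mem_lattice.mpr ⟨_, _, rfl⟩⟩, ?_⟩
  · have := Int.emod_lt_of_pos m hNZp
    have := Int.emod_nonneg m hNZ
    omega
  · have := Int.emod_lt_of_pos n hNZp
    have := Int.emod_nonneg n hNZ
    omega
  · have e1 : (((m % N).toNat : ℕ) : ℂ) = ((m % N : ℤ) : ℂ) := by
      rw [← Int.cast_natCast (R := ℂ), Int.toNat_of_nonneg (Int.emod_nonneg m hNZ)]
    have e2 : (((n % N).toNat : ℕ) : ℂ) = ((n % N : ℤ) : ℂ) := by
      rw [← Int.cast_natCast (R := ℂ), Int.toNat_of_nonneg (Int.emod_nonneg n hNZ)]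
    have d1 : (m : ℂ) = (N : ℂ) * ((m / N : ℤ) : ℂ) + ((m % N : ℤ) : ℂ) := by
      have := Int.mul_ediv_add_emod m N
      rw [← Int.cast_natCast (R := ℂ), ← Int.cast_mul, ← Int.cast_add, this]
    have d2 : (n : ℂ) = (N : ℂ) * ((n / N : ℤ) : ℂ) + ((n % N : ℤ) : ℂ) := by
      have := Int.mul_ediv_add_emod n N
      rw [← Int.cast_natCast (R := ℂ), ← Int.cast_mul, ← Int.cast_add, this]
    rw [e1, e2]
    have hz' : z = ((m : ℂ) * L.ω₁ + (n : ℂ) * L.ω₂) / N := by
      rw [h]; field_simp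
    rw [hz', d1, d2]
    field_simp
    ring

/-- local computation at a pole of `℘(αz)` outside `Λ` -/
theorem Isog_local (L : PeriodPair) (al : ℂ) (hal : al ≠ 0) (z : ℂ) (hz : z ∉ L.lattice)
    (haz : al * z ∈ L.lattice) (C : ℂ[X]) :
    0 ≤ meromorphicOrderAt (fun w => L.weierstrassP (al * w) *
      ((L.weierstrassP w - L.weierstrassP z) ^ 2 * C.eval (L.weierstrassP w))) z := by
  have hP : AnalyticAt ℂ L.weierstrassP z := L.analyticOnNhd_weierstrassP z hz
  obtain ⟨p, hp⟩ := hP
  have hh : AnalyticAt ℂ (dslope L.weierstrassP z) z := ⟨_, hp.has_fpower_series_dslope_fslope⟩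
  have hP : AnalyticAt ℂ L.weierstrassP z := ⟨p, hp⟩
  have hE : AnalyticAt ℂ (fun w => L.weierstrassPExcept (al * z) (al * w)) z := by
    have h1 : AnalyticAt ℂ (L.weierstrassPExcept (al * z)) (al * z) :=
      L.analyticAt_weierstrassPExcept (al * z)
    exact h1.fun_comp (f := fun w => al * w) (by fun_prop)
  have hC : AnalyticAt ℂ (fun w => C.eval (L.weierstrassP w)) z := by
    have h1 : AnalyticAt ℂ (fun x : ℂ => C.eval x) (L.weierstrassP z) :=
      (Polynomial.differentiable C).analyticAt _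
    exact h1.fun_comp hP
  have hF : AnalyticAt ℂ (fun w =>
      ((L.weierstrassPExcept (al * z) (al * w) - 1 / (al * z) ^ 2) *
        (L.weierstrassP w - L.weierstrassP z) ^ 2
        + (al⁻¹) ^ 2 * (dslope L.weierstrassP z w) ^ 2) * C.eval (L.weierstrassP w)) z := by
    fun_prop
  have hcongr : (fun w => L.weierstrassP (al * w) *
      ((L.weierstrassP w - L.weierstrassP z) ^ 2 * C.eval (L.weierstrassP w))) =ᶠ[𝓝[≠] z]
      (fun w =>
      ((L.weierstrassPExcept (al * z) (al * w) - 1 / (al * z) ^ 2) *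
        (L.weierstrassP w - L.weierstrassP z) ^ 2
        + (al⁻¹) ^ 2 * (dslope L.weierstrassP z w) ^ 2) * C.eval (L.weierstrassP w)) := by
    filter_upwards [self_mem_nhdsWithin] with w hw
    have hw' : w ≠ z := hw
    have hwz : w - z ≠ 0 := sub_ne_zero.mpr hw'
    have e1 := L.weierstrassPExcept_add ⟨al * z, haz⟩ (al * w)
    simp only at e1
    have e2 : L.weierstrassP w - L.weierstrassP z = (w - z) * dslope L.weierstrassP z w := by
      have := sub_smul_dslope L.weierstrassP z w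
      rw [smul_eq_mul] at this
      exact this.symm
    rw [← e1]
    have e3 : al * w - al * z = al * (w - z) := by ring
    rw [e3, e2]
    field_simp
    ring
  rw [meromorphicOrderAt_congr hcongr]
  exact hF.meromorphicOrderAt_nonneg

theorem isog (L : PeriodPair) (al : ℂ) (hal : al ≠ 0)
    (hL : ∀ l ∈ L.lattice, al * l ∈ L.lattice) :
    ∃ A B : ℂ[X], B ≠ 0 ∧ ∀ᶠ z in 𝓝[≠] (0 : ℂ),
      L.weierstrassP (al * z) * B.eval (L.weierstrassP z) = A.eval (L.weierstrassP z) := by
  classical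
  obtain ⟨N, hN, hNL⟩ := Isog_norm L al hal hL
  set ρ : ℕ × ℕ → ℂ := fun q => ((q.1 : ℂ) * L.ω₁ + (q.2 : ℂ) * L.ω₂) / N with hρ
  set S : Finset (ℕ × ℕ) := Finset.range N ×ˢ Finset.range N with hS
  set B : ℂ[X] := ∏ q ∈ S, (X - Polynomial.C (L.weierstrassP (ρ q))) ^ 2 with hB
  have hB0 : B ≠ 0 := by
    rw [hB, Finset.prod_ne_zero_iff]
    intro q _
    exact pow_ne_zero _ (X_sub_C_ne_zero _)
  set f : ℂ → ℂ := fun w => L.weierstrassP (al * w) * B.eval (L.weierstrassP w) with hf
  have hmer : ∀ z, MeromorphicAt f z := by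
    intro z
    have h1 : MeromorphicAt (fun w => L.weierstrassP (al * w)) z :=
      (L.meromorphic_weierstrassP (al * z)).comp_analyticAt (g := fun w => al * w) (by fun_prop)
    have h2 : MeromorphicAt (fun w => B.eval (L.weierstrassP w)) z := by
      have hP := L.meromorphic_weierstrassP z
      rw [hB]
      simp only [Polynomial.eval_prod, Polynomial.eval_pow, Polynomial.eval_sub,
        Polynomial.eval_X, Polynomial.eval_C]
      apply MeromorphicAt.fun_prod
      intro q
      fun_prop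
    exact h1.mul h2
  have hper : ∀ l ∈ L.lattice, ∀ z, f (z + l) = f z := by
    intro l hl z
    simp only [hf]
    rw [mul_add, L.weierstrassP_add_coe (al * z) ⟨al * l, hL l hl⟩,
      L.weierstrassP_add_coe z ⟨l, hl⟩]
  have heven : ∀ z, f (-z) = f z := by
    intro z
    simp only [hf]
    rw [mul_neg, L.weierstrassP_neg, L.weierstrassP_neg]
  have hord : ∀ z, z ∉ L.lattice → 0 ≤ meromorphicOrderAt f z := by
    intro z hz
    by_cases haz : al * z ∈ L.lattice
    · obtain ⟨i, hi, j, hj, l, hl⟩ := Isog_rep L N hN z (hNL z haz)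
      have hq : (i, j) ∈ S := by
        rw [hS]; simp [hi, hj]
      have hPz : L.weierstrassP z = L.weierstrassP (ρ (i, j)) := by
        rw [hl, L.weierstrassP_add_coe]
      have hsplit : f = (fun w => L.weierstrassP (al * w) *
          ((L.weierstrassP w - L.weierstrassP z) ^ 2 *
            (∏ q ∈ S.erase (i, j), (X - Polynomial.C (L.weierstrassP (ρ q))) ^ 2).eval
              (L.weierstrassP w))) := by
        funext w
        simp only [hf]
        rw [hB, ← Finset.mul_prod_erase S _ hq, hPz]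
        simp only [Polynomial.eval_mul, Polynomial.eval_pow, Polynomial.eval_sub,
          Polynomial.eval_X, Polynomial.eval_C]
      rw [hsplit]
      exact Isog_local L al hal z hz haz _
    · have h1 : AnalyticAt ℂ (fun w => L.weierstrassP (al * w)) z := by
        have h1 : AnalyticAt ℂ L.weierstrassP (al * z) :=
          L.analyticOnNhd_weierstrassP (al * z) haz
        exact h1.fun_comp (f := fun w => al * w) (by fun_prop)
      have h2 : AnalyticAt ℂ (fun w => B.eval (L.weierstrassP w)) z := by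
        have h1 : AnalyticAt ℂ (fun x : ℂ => B.eval x) (L.weierstrassP z) :=
          (Polynomial.differentiable B).analyticAt _
        exact h1.fun_comp (L.analyticOnNhd_weierstrassP z hz)
      exact (h1.mul h2).meromorphicOrderAt_nonneg
  obtain ⟨k, hk⟩ : ∃ k : ℕ, -(2 * k : ℤ) ≤ meromorphicOrderAt f 0 := by
    rcases hm : meromorphicOrderAt f 0 with _ | m
    · exact ⟨0, le_top⟩
    · refine ⟨m.natAbs, ?_⟩
      have h1 : (-(2 * (m.natAbs : ℤ)) : ℤ) ≤ m := by omega
      exact WithTop.coe_le_coe.mpr h1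
  obtain ⟨A, hA⟩ := ell_even L f hmer hper heven hord k hk
  exact ⟨A, B, hB0, hA 0⟩

end Pool.Agent.ZCM
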