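import Pool.Agent.ZCM.Grow

/-! # F6b: the bound for `GS` -/

namespace Pool.Agent.ZCM
open PowerSeries
open scoped NNReal ENNReal

theorem GrowGS_C (r : ℝ≥0) (m : ℤ) :
    nr r (C ((m : ℤ) : ℂ)) ≤ ENNReal.ofReal |(m : ℝ)| := by
  rw [nr_C]
  have h : ‖(m : ℂ)‖ = |(m : ℝ)| := Complex.norm_intCast m
  rw [← h, ← enorm_eq_nnnorm, ofReal_norm]

/-- bound for one term -/
theorem GrowGS_term (a b : ℂ) (r : ℝ≥0) (E : ℝ≥0∞) (hE : 1 ≤ E) (hS : nr r (SS a b) ≤ E)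
    (hQ : nr r (QQ a b) ≤ E) (hR : nr r (RR a b) ≤ E) (L N0 i j k : ℕ) (m : ℤ)
    (hi : i < L) (hj : j < N0) (hk : k < N0) :
    nr r (C ((m : ℤ) : ℂ) * X ^ i * SS a b ^ (3 * N0 - 2 * j - k) * QQ a b ^ j * RR a b ^ k)
      ≤ ENNReal.ofReal |(m : ℝ)| * ((max 1 r : ℝ≥0) : ℝ≥0∞) ^ L * E ^ (3 * N0) := by
  have h1 : nr r (X ^ i : ℂ⟦X⟧) ≤ ((max 1 r : ℝ≥0) : ℝ≥0∞) ^ L := by
    calc nr r (X ^ i : ℂ⟦X⟧) ≤ nr r (X : ℂ⟦X⟧) ^ i := nr_pow_le r X i
      _ = (r : ℝ≥0∞) ^ i := by rw [nr_X]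
      _ ≤ ((max 1 r : ℝ≥0) : ℝ≥0∞) ^ i := by
          apply pow_le_pow_left₀ (by positivity)
          exact_mod_cast le_max_right _ _
      _ ≤ ((max 1 r : ℝ≥0) : ℝ≥0∞) ^ L := by
          apply pow_le_pow_right₀ _ hi.le
          exact_mod_cast le_max_left _ _
  have h2 : nr r (SS a b ^ (3 * N0 - 2 * j - k)) ≤ E ^ (3 * N0 - 2 * j - k) :=
    (nr_pow_le r _ _).trans (pow_le_pow_left₀ (by positivity) hS _)
  have h3 : nr r (QQ a b ^ j) ≤ E ^ j :=
    (nr_pow_le r _ _).trans (pow_le_pow_left₀ (by positivity) hQ _)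
  have h4 : nr r (RR a b ^ k) ≤ E ^ k :=
    (nr_pow_le r _ _).trans (pow_le_pow_left₀ (by positivity) hR _)
  calc nr r (C ((m : ℤ) : ℂ) * X ^ i * SS a b ^ (3 * N0 - 2 * j - k) * QQ a b ^ j * RR a b ^ k)
      ≤ nr r (C ((m : ℤ) : ℂ)) * nr r (X ^ i : ℂ⟦X⟧) * nr r (SS a b ^ (3 * N0 - 2 * j - k))
        * nr r (QQ a b ^ j) * nr r (RR a b ^ k) := by
        refine (nr_mul_le r _ _).trans (mul_le_mul' ?_ le_rfl)
        refine (nr_mul_le r _ _).trans (mul_le_mul' ?_ le_rfl)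
        refine (nr_mul_le r _ _).trans (mul_le_mul' ?_ le_rfl)
        exact nr_mul_le r _ _
    _ ≤ ENNReal.ofReal |(m : ℝ)| * ((max 1 r : ℝ≥0) : ℝ≥0∞) ^ L * E ^ (3 * N0 - 2 * j - k)
        * E ^ j * E ^ k :=
        mul_le_mul' (mul_le_mul' (mul_le_mul' (mul_le_mul' (GrowGS_C r m) h1) h2) h3) h4
    _ = ENNReal.ofReal |(m : ℝ)| * ((max 1 r : ℝ≥0) : ℝ≥0∞) ^ L
        * E ^ (3 * N0 - 2 * j - k + j + k) := by
        rw [pow_add, pow_add]
        ring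
    _ ≤ ENNReal.ofReal |(m : ℝ)| * ((max 1 r : ℝ≥0) : ℝ≥0∞) ^ L * E ^ (3 * N0) := by
        refine mul_le_mul' le_rfl (pow_le_pow_right₀ hE ?_)
        omega

theorem nr_GS_le (a b : ℂ) (N0 : ℕ) : ∃ C : ℝ, 0 ≤ C ∧ ∀ (L : ℕ) (p : ℕ → ℕ → ℕ → ℤ) (H : ℝ),
    0 ≤ H → (∀ i j k, |(p i j k : ℝ)| ≤ H) → ∀ r : ℝ≥0,
    nr r (GS a b L N0 p) ≤ ENNReal.ofReal
      (H * (L * (N0 : ℝ) ^ 2) * max 1 (r : ℝ) ^ L * Real.exp (C * (1 + (r : ℝ) ^ 2))) := by
  obtain ⟨C0, hC0, hg⟩ := grow a b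
  refine ⟨3 * N0 * C0, by positivity, fun L p H hH hp r => ?_⟩
  obtain ⟨hS, hQ, -, hR⟩ := hg r
  set E : ℝ≥0∞ := ENNReal.ofReal (Real.exp (C0 * (1 + (r : ℝ) ^ 2))) with hEdef
  have hE : 1 ≤ E := by
    rw [hEdef, ← ENNReal.ofReal_one]
    apply ENNReal.ofReal_le_ofReal
    apply Real.one_le_exp
    positivity
  have hEp : E ^ (3 * N0) = ENNReal.ofReal (Real.exp (3 * N0 * C0 * (1 + (r : ℝ) ^ 2))) := by
    rw [hEdef, ← ENNReal.ofReal_pow (Real.exp_pos _).le, ← Real.exp_nat_mul]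
    congr 2
    push_cast
    ring
  set B : ℝ≥0∞ := ENNReal.ofReal H * ((max 1 r : ℝ≥0) : ℝ≥0∞) ^ L * E ^ (3 * N0) with hB
  have hterm : ∀ i ∈ Finset.range L, ∀ j ∈ Finset.range N0, ∀ k ∈ Finset.range N0,
      nr r (C ((p i j k : ℤ) : ℂ) * X ^ i * SS a b ^ (3 * N0 - 2 * j - k) * QQ a b ^ j
        * RR a b ^ k) ≤ B := by
    intro i hi j hj k hk
    refine (GrowGS_term a b r E hE hS hQ hR L N0 i j k (p i j k) (Finset.mem_range.1 hi)
      (Finset.mem_range.1 hj) (Finset.mem_range.1 hk)).trans ?_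
    exact mul_le_mul' (mul_le_mul' (ENNReal.ofReal_le_ofReal (hp i j k)) le_rfl) le_rfl
  have h1 : nr r (GS a b L N0 p) ≤ L • (N0 • (N0 • B)) := by
    unfold GS
    refine (nr_sum_le r _ _).trans ?_
    refine (Finset.sum_le_card_nsmul _ _ (N0 • (N0 • B)) fun i hi => ?_).trans
      (by rw [Finset.card_range])
    refine (nr_sum_le r _ _).trans ?_
    refine (Finset.sum_le_card_nsmul _ _ (N0 • B) fun j hj => ?_).trans
      (by rw [Finset.card_range])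
    refine (nr_sum_le r _ _).trans ?_
    exact (Finset.sum_le_card_nsmul _ _ B fun k hk => hterm i hi j hj k hk).trans
      (by rw [Finset.card_range])
  refine h1.trans (le_of_eq ?_)
  have hmax : ((max 1 r : ℝ≥0) : ℝ≥0∞) ^ L = ENNReal.ofReal (max 1 (r : ℝ) ^ L) := by
    rw [ENNReal.ofReal_pow (by positivity)]
    congr 1
    rw [← ENNReal.ofReal_coe_nnreal]
    congr 1
  rw [hB, hEp, hmax, ← ENNReal.ofReal_mul hH, ← ENNReal.ofReal_mul (by positivity),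
    nsmul_eq_mul, nsmul_eq_mul, nsmul_eq_mul, ← ENNReal.ofReal_natCast N0,
    ← ENNReal.ofReal_natCast L, ← ENNReal.ofReal_mul (by positivity),
    ← ENNReal.ofReal_mul (by positivity), ← ENNReal.ofReal_mul (by positivity)]
  congr 1
  ring

theorem Ent_GS (a b : ℂ) (L N0 : ℕ) (p : ℕ → ℕ → ℕ → ℤ) : Ent (GS a b L N0 p) := by
  intro r
  obtain ⟨C0, hC0, hg⟩ := grow a b
  obtain ⟨hS, hQ, -, hR⟩ := hg r
  have hE : 1 ≤ ENNReal.ofReal (Real.exp (C0 * (1 + (r : ℝ) ^ 2))) := by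
    rw [← ENNReal.ofReal_one]
    apply ENNReal.ofReal_le_ofReal
    apply Real.one_le_exp
    positivity
  apply ne_of_lt
  unfold GS
  refine (nr_sum_le r _ _).trans_lt (ENNReal.sum_lt_top.2 fun i hi => ?_)
  refine (nr_sum_le r _ _).trans_lt (ENNReal.sum_lt_top.2 fun j hj => ?_)
  refine (nr_sum_le r _ _).trans_lt (ENNReal.sum_lt_top.2 fun k hk => ?_)
  refine (GrowGS_term a b r _ hE hS hQ hR L N0 i j k (p i j k) (Finset.mem_range.1 hi)
      (Finset.mem_range.1 hj) (Finset.mem_range.1 hk)).trans_lt ?_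
  refine ENNReal.mul_lt_top (ENNReal.mul_lt_top ENNReal.ofReal_lt_top ?_) ?_
  · exact ENNReal.pow_lt_top ENNReal.coe_lt_top
  · exact ENNReal.pow_lt_top ENNReal.ofReal_lt_top

/-- bound for the coefficients, `n ≥ 1`, `r = √n` -/
theorem coeff_GS_le (a b : ℂ) (N0 : ℕ) : ∃ C : ℝ, 0 ≤ C ∧
    ∀ (L : ℕ) (p : ℕ → ℕ → ℕ → ℤ) (H : ℝ),
    0 ≤ H → (∀ i j k, |(p i j k : ℝ)| ≤ H) → ∀ n : ℕ,
    ‖coeff n (GS a b L N0 p)‖ ≤ H * (L * (N0 : ℝ) ^ 2) *
      Real.exp ((L / 2) * Real.log (n + 1) - (n / 2) * Real.log n + C * (n + 1)) := by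
  obtain ⟨C1, hC1, h⟩ := nr_GS_le a b N0
  refine ⟨C1, hC1, fun L p H hH hp n => ?_⟩
  have h1 := h L p H hH hp (NNReal.sqrt n)
  have h2 := (coeff_le_nr (NNReal.sqrt n) (GS a b L N0 p) n).trans h1
  rw [← ENNReal.ofReal_coe_nnreal, ENNReal.ofReal_le_ofReal_iff (by positivity)] at h2
  have hs2 : ((NNReal.sqrt n : ℝ≥0) : ℝ) ^ 2 = n := by
    rw [← NNReal.coe_pow, NNReal.sq_sqrt]
    simp
  set s : ℝ := ((NNReal.sqrt n : ℝ≥0) : ℝ) with hs
  have h3 : ‖coeff n (GS a b L N0 p)‖ * s ^ n ≤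
      H * (L * (N0 : ℝ) ^ 2) * max 1 s ^ L * Real.exp (C1 * (1 + s ^ 2)) := by
    have h4 : ((‖coeff n (GS a b L N0 p)‖₊ * (NNReal.sqrt n) ^ n : ℝ≥0) : ℝ) =
        ‖coeff n (GS a b L N0 p)‖ * s ^ n := by
      rw [NNReal.coe_mul, NNReal.coe_pow, coe_nnnorm]
    rw [← h4]
    exact h2
  rw [hs2] at h3
  rcases Nat.eq_zero_or_pos n with hn | hn
  · subst hn
    have hs0 : s = 0 := by
      have : s ^ 2 = 0 := by rw [hs2]; simp
      exact pow_eq_zero_iff (two_ne_zero) |>.1 this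
    rw [hs0] at h3
    simp only [pow_zero, mul_one, zero_le_one, sup_of_le_left, one_pow] at h3
    refine h3.trans (le_of_eq ?_)
    congr 2
    simp
  · have hnpos : (0 : ℝ) < n := by exact_mod_cast hn
    have hn1 : (1 : ℝ) ≤ n := by exact_mod_cast hn
    have hspos : 0 < s := by
      rcases (NNReal.sqrt n).2.lt_or_eq with h5 | h5
      · exact h5
      · exfalso
        have h6 : s = 0 := h5.symm
        rw [h6] at hs2
        norm_num at hs2
        linarith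
    have hlog : Real.log n = 2 * Real.log s := by
      rw [← hs2, Real.log_pow]
      norm_num
    have hs1 : 1 ≤ s := by
      by_contra hlt
      push Not at hlt
      have : s ^ 2 < 1 := by nlinarith
      rw [hs2] at this
      linarith
    have hsn : s ^ n = Real.exp ((n / 2) * Real.log n) := by
      rw [hlog, ← Real.rpow_natCast, Real.rpow_def_of_pos hspos]
      congr 1
      ring
    have hsL : max 1 s ^ L ≤ Real.exp ((L / 2) * Real.log (n + 1)) := by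
      rw [max_eq_right hs1]
      have h5 : s ^ L = Real.exp ((L / 2) * Real.log n) := by
        rw [hlog, ← Real.rpow_natCast, Real.rpow_def_of_pos hspos]
        congr 1
        ring
      rw [h5]
      apply Real.exp_le_exp.2
      apply mul_le_mul_of_nonneg_left _ (by positivity)
      apply Real.log_le_log hnpos
      linarith
    have h6 : ‖coeff n (GS a b L N0 p)‖ =
        (‖coeff n (GS a b L N0 p)‖ * s ^ n) * Real.exp (-((n / 2) * Real.log n)) := by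
      rw [hsn, mul_assoc, ← Real.exp_add]
      simp
    rw [h6]
    calc (‖coeff n (GS a b L N0 p)‖ * s ^ n) * Real.exp (-((n / 2) * Real.log n))
        ≤ (H * (L * (N0 : ℝ) ^ 2) * Real.exp ((L / 2) * Real.log (n + 1))
          * Real.exp (C1 * (1 + n))) * Real.exp (-((n / 2) * Real.log n)) := by
          apply mul_le_mul_of_nonneg_right _ (Real.exp_pos _).le
          refine h3.trans ?_
          apply mul_le_mul_of_nonneg_right _ (Real.exp_pos _).le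
          apply mul_le_mul_of_nonneg_left hsL (by positivity)
      _ = H * (L * (N0 : ℝ) ^ 2) *
          Real.exp ((L / 2) * Real.log (n + 1) - (n / 2) * Real.log n + C1 * (n + 1)) := by
          rw [mul_assoc, mul_assoc, mul_assoc, ← Real.exp_add, ← Real.exp_add, ← mul_assoc]
          congr 2
          ring

end Pool.Agent.ZCM
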