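import Pool.Agent.ZCM.Defs

/-! # S0: Liouville inequality -/

namespace Pool.Agent.ZCM
open NumberField

/-- a nonzero algebraic integer with all conjugates bounded by `exp Θ` is, at every embedding,
at least `exp(-(κ-1)Θ)` -/
theorem liouville (K : Type*) [Field K] [NumberField K] (y : K) (hy : IsIntegral ℤ y)
    (h0 : y ≠ 0) (Θ : ℝ) (h : ∀ σ : K →+* ℂ, ‖σ y‖ ≤ Real.exp Θ) (ι : K →+* ℂ) :
    Real.exp (-((Module.finrank ℚ K : ℝ) - 1) * Θ) ≤ ‖ι y‖ := by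
  classical
  -- the norm is a non-zero integer
  have hn : (1 : ℝ) ≤ ∏ σ : K →+* ℂ, ‖σ y‖ := by
    have e1 : (algebraMap ℚ ℂ) (Algebra.norm ℚ y) = ∏ σ : K →ₐ[ℚ] ℂ, σ y :=
      Algebra.norm_eq_prod_embeddings ℚ ℂ y
    obtain ⟨m, hm⟩ : ∃ m : ℤ, (m : ℚ) = Algebra.norm ℚ y :=
      IsIntegrallyClosed.isIntegral_iff.1 (Algebra.isIntegral_norm ℚ hy)
    have hm0 : m ≠ 0 := by
      rintro rfl
      rw [Int.cast_zero] at hm
      exact h0 (Algebra.norm_eq_zero_iff.1 hm.symm)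
    have e2 : ∏ σ : K →+* ℂ, σ y = ∏ σ : K →ₐ[ℚ] ℂ, σ y :=
      Fintype.prod_equiv (RingHom.equivRatAlgHom K ℂ) _ _ (fun σ => rfl)
    rw [← norm_prod, e2, ← e1, ← hm]
    simp only [eq_ratCast, Rat.cast_intCast, Complex.norm_intCast]
    exact_mod_cast Int.one_le_abs hm0
  have hsplit : ∏ σ : K →+* ℂ, ‖σ y‖ = ‖ι y‖ * ∏ σ ∈ Finset.univ.erase ι, ‖σ y‖ :=
    (Finset.mul_prod_erase _ _ (Finset.mem_univ ι)).symm
  have hle : ∏ σ ∈ Finset.univ.erase ι, ‖σ y‖ ≤ Real.exp Θ ^ (Module.finrank ℚ K - 1) := by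
    have : ∏ σ ∈ Finset.univ.erase ι, ‖σ y‖ ≤ ∏ _σ ∈ Finset.univ.erase ι, Real.exp Θ :=
      Finset.prod_le_prod (fun _ _ => norm_nonneg _) (fun σ _ => h σ)
    rw [Finset.prod_const, Finset.card_erase_of_mem (Finset.mem_univ ι), Finset.card_univ,
      NumberField.Embeddings.card] at this
    exact this
  have hκ : 1 ≤ Module.finrank ℚ K := Module.finrank_pos
  rw [hsplit] at hn
  have h1 : 1 ≤ ‖ι y‖ * Real.exp Θ ^ (Module.finrank ℚ K - 1) :=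
    hn.trans (mul_le_mul_of_nonneg_left hle (norm_nonneg _))
  have h2 : Real.exp (-((Module.finrank ℚ K : ℝ) - 1) * Θ)
      * Real.exp Θ ^ (Module.finrank ℚ K - 1) = 1 := by
    rw [← Real.exp_nat_mul, ← Real.exp_add, Nat.cast_sub hκ]
    rw [Real.exp_eq_one_iff]; push_cast; ring
  have h3 : 0 < Real.exp Θ ^ (Module.finrank ℚ K - 1) := by positivity
  rw [← h2] at h1
  exact le_of_mul_le_mul_right h1 h3

end Pool.Agent.ZCM
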