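import Pool.Agent.ZCM.Defs

/-! # W1: sizes of polynomials -/

namespace Pool.Agent.ZCM
open MvPolynomial

section basic
variable {σ : Type*} (p q : MvPolynomial σ ℂ)

theorem Size_nm_eq (s : Finset (σ →₀ ℕ)) (hs : p.support ⊆ s) : nm p = ∑ m ∈ s, ‖p.coeff m‖ := by
  unfold nm
  refine Finset.sum_subset hs fun m _ hm => ?_
  rw [MvPolynomial.notMem_support_iff.mp hm, norm_zero]

theorem nm_nonneg : 0 ≤ nm p := Finset.sum_nonneg fun _ _ => norm_nonneg _

theorem nm_add_le : nm (p + q) ≤ nm p + nm q := by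
  classical
  rw [Size_nm_eq (p + q) (p.support ∪ q.support) MvPolynomial.support_add,
    Size_nm_eq p (p.support ∪ q.support) Finset.subset_union_left,
    Size_nm_eq q (p.support ∪ q.support) Finset.subset_union_right, ← Finset.sum_add_distrib]
  refine Finset.sum_le_sum fun m _ => ?_
  rw [coeff_add]
  exact norm_add_le _ _

theorem nm_neg : nm (-p) = nm p := by
  unfold nm
  rw [MvPolynomial.support_neg]
  refine Finset.sum_congr rfl fun m _ => ?_
  rw [coeff_neg, norm_neg]

theorem nm_sub_le : nm (p - q) ≤ nm p + nm q := by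
  rw [sub_eq_add_neg, ← nm_neg q]
  exact nm_add_le _ _

theorem Size_nm_zero : nm (0 : MvPolynomial σ ℂ) = 0 := by simp [nm]

theorem nm_sum_le {ι : Type*} (s : Finset ι) (F : ι → MvPolynomial σ ℂ) :
    nm (∑ i ∈ s, F i) ≤ ∑ i ∈ s, nm (F i) := by
  classical
  induction s using Finset.induction_on with
  | empty => simp [Size_nm_zero]
  | insert a s ha ih =>
    rw [Finset.sum_insert ha, Finset.sum_insert ha]
    exact (nm_add_le _ _).trans (add_le_add_right ih _)

theorem nm_monomial (m : σ →₀ ℕ) (c : ℂ) : nm (monomial m c : MvPolynomial σ ℂ) = ‖c‖ := by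
  classical
  rw [Size_nm_eq (monomial m c) {m} support_monomial_subset, Finset.sum_singleton,
    coeff_monomial, if_pos rfl]

theorem nm_mul_le : nm (p * q) ≤ nm p * nm q := by
  classical
  have h1 : p * q = ∑ m ∈ p.support, ∑ n ∈ q.support,
      monomial (m + n) (p.coeff m * q.coeff n) := by
    conv_lhs => rw [p.as_sum, q.as_sum]
    rw [Finset.sum_mul_sum]
    refine Finset.sum_congr rfl fun m _ => Finset.sum_congr rfl fun n _ => ?_
    rw [monomial_mul]
  rw [h1]
  refine (nm_sum_le _ _).trans ?_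
  unfold nm
  rw [Finset.sum_mul_sum]
  refine Finset.sum_le_sum fun m _ => ?_
  refine (nm_sum_le _ _).trans (Finset.sum_le_sum fun n _ => ?_)
  rw [nm_monomial, norm_mul]

theorem nm_C (c : ℂ) : nm (C c : MvPolynomial σ ℂ) = ‖c‖ := nm_monomial _ _

theorem nm_one_le : nm (1 : MvPolynomial σ ℂ) ≤ 1 := by
  have : (1 : MvPolynomial σ ℂ) = C 1 := C_1.symm
  rw [this, nm_C, norm_one]

theorem nm_X (i : σ) : nm (X i : MvPolynomial σ ℂ) = 1 := by
  rw [X, nm_monomial, norm_one]

theorem nm_pow_le (n : ℕ) : nm (p ^ n) ≤ nm p ^ n := by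
  induction n with
  | zero => rw [pow_zero, pow_zero]; exact nm_one_le
  | succ n ih =>
    rw [pow_succ, pow_succ]
    exact (nm_mul_le _ _).trans (mul_le_mul_of_nonneg_right ih (nm_nonneg _))

theorem norm_coeff_le_nm (m : σ →₀ ℕ) : ‖p.coeff m‖ ≤ nm p := by
  by_cases hm : m ∈ p.support
  · exact Finset.single_le_sum (f := fun m => ‖p.coeff m‖) (fun _ _ => norm_nonneg _) hm
  · rw [MvPolynomial.notMem_support_iff.mp hm, norm_zero]
    exact nm_nonneg _

theorem norm_eval_le (v : σ → ℂ) (M : ℝ) (hM : 1 ≤ M) (hv : ∀ i, ‖v i‖ ≤ M) :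
    ‖eval v p‖ ≤ nm p * M ^ p.totalDegree := by
  rw [eval_eq]
  refine (norm_sum_le _ _).trans ?_
  unfold nm
  rw [Finset.sum_mul]
  refine Finset.sum_le_sum fun m hm => ?_
  rw [norm_mul, norm_prod]
  refine mul_le_mul_of_nonneg_left ?_ (norm_nonneg _)
  have h1 : ∏ i ∈ m.support, ‖v i ^ m i‖ ≤ ∏ i ∈ m.support, M ^ m i := by
    refine Finset.prod_le_prod (fun _ _ => norm_nonneg _) fun i _ => ?_
    rw [norm_pow]
    exact pow_le_pow_left₀ (norm_nonneg _) (hv i) _
  refine h1.trans ?_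
  rw [Finset.prod_pow_eq_pow_sum]
  exact pow_le_pow_right₀ hM (le_totalDegree hm)

end basic

section gen
variable {σ : Type*}

/-- the norm of a derivation of a polynomial -/
theorem Size_nm_deriv (f : σ → MvPolynomial σ ℂ) (B : ℝ) (hB : ∀ i, nm (f i) ≤ B) (hB0 : 0 ≤ B)
    (p : MvPolynomial σ ℂ) : nm (mkDerivation ℂ f p) ≤ B * p.totalDegree * nm p := by
  classical
  have h1 : mkDerivation ℂ f p = ∑ m ∈ p.support, mkDerivation ℂ f (monomial m (p.coeff m)) := by
    conv_lhs => rw [p.as_sum]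
    rw [map_sum]
  rw [h1]
  refine (nm_sum_le _ _).trans ?_
  have h2 : ∀ m ∈ p.support, nm (mkDerivation ℂ f (monomial m (p.coeff m))) ≤
      B * p.totalDegree * ‖p.coeff m‖ := by
    intro m hm
    rw [mkDerivation_monomial, smul_eq_C_mul]
    refine (nm_mul_le _ _).trans ?_
    rw [nm_C, mul_comm]
    refine mul_le_mul_of_nonneg_right ?_ (norm_nonneg _)
    refine (nm_sum_le _ _).trans ?_
    have h3 : ∀ i ∈ m.support, nm (monomial (m - Finsupp.single i 1) ((m i : ℕ) : ℂ) • f i) ≤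
        B * (m i : ℝ) := by
      intro i _
      rw [smul_eq_mul]
      refine (nm_mul_le _ _).trans ?_
      rw [nm_monomial, Complex.norm_natCast, mul_comm]
      exact mul_le_mul_of_nonneg_right (hB i) (Nat.cast_nonneg _)
    refine (Finset.sum_le_sum h3).trans ?_
    rw [← Finset.mul_sum]
    refine mul_le_mul_of_nonneg_left ?_ hB0
    have h4 := le_totalDegree hm
    have h5 : ((m.sum fun _ e => e : ℕ) : ℝ) = ∑ i ∈ m.support, (m i : ℝ) := by
      rw [Finsupp.sum]; push_cast; rfl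
    rw [← h5]
    exact_mod_cast h4
  refine (Finset.sum_le_sum h2).trans ?_
  rw [← Finset.mul_sum]
  rfl

variable {R : Type*} [CommRing R]

theorem Size_totalDegree_deriv (f : σ → MvPolynomial σ R) (hf : ∀ i, (f i).totalDegree ≤ 2)
    (p : MvPolynomial σ R) : (mkDerivation R f p).totalDegree ≤ p.totalDegree + 1 := by
  classical
  have h1 : mkDerivation R f p = ∑ m ∈ p.support, mkDerivation R f (monomial m (p.coeff m)) := by
    conv_lhs => rw [p.as_sum]
    rw [map_sum]
  rw [h1]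
  refine totalDegree_finsetSum_le fun m hm => ?_
  rw [mkDerivation_monomial]
  refine (totalDegree_smul_le _ _).trans ?_
  rw [Finsupp.sum]
  refine totalDegree_finsetSum_le fun i hi => ?_
  rw [smul_eq_mul]
  refine (totalDegree_mul _ _).trans ?_
  have h2 : (monomial (m - Finsupp.single i 1) ((m i : ℕ) : R)).totalDegree ≤
      (m - Finsupp.single i 1).degree := totalDegree_monomial_le _ _
  have h3 : (m - Finsupp.single i 1).degree + 1 = m.degree := by
    have h4 : m - Finsupp.single i 1 + Finsupp.single i 1 = m := by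
      apply tsub_add_cancel_of_le
      rw [Finsupp.single_le_iff]
      exact Nat.one_le_iff_ne_zero.mpr (Finsupp.mem_support_iff.mp hi)
    conv_rhs => rw [← h4]
    rw [map_add, Finsupp.degree_single]
  have h5 : m.degree ≤ p.totalDegree := le_totalDegree hm
  have h6 := hf i
  omega

theorem Size_degreeOf_deriv (f : σ → MvPolynomial σ R) (j : σ) (B : ℕ)
    (hf : ∀ i, (f i).degreeOf j ≤ B)
    (p : MvPolynomial σ R) : (mkDerivation R f p).degreeOf j ≤ p.degreeOf j + B := by
  classical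
  have h1 : mkDerivation R f p = ∑ m ∈ p.support, mkDerivation R f (monomial m (p.coeff m)) := by
    conv_lhs => rw [p.as_sum]
    rw [map_sum]
  rw [h1]
  refine (degreeOf_sum_le _ _ _).trans ?_
  refine Finset.sup_le fun m hm => ?_
  rw [mkDerivation_monomial, smul_eq_C_mul]
  refine (degreeOf_C_mul_le _ _ _).trans ?_
  rw [Finsupp.sum]
  refine (degreeOf_sum_le _ _ _).trans ?_
  refine Finset.sup_le fun i hi => ?_
  rw [smul_eq_mul]
  refine (degreeOf_mul_le _ _ _).trans ?_
  refine add_le_add ?_ (hf i)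
  have h2 : (monomial (m - Finsupp.single i 1) ((m i : ℕ) : R)).degreeOf j ≤ m j := by
    rw [degreeOf_le_iff]
    intro m' hm'
    have := support_monomial_subset hm'
    rw [Finset.mem_singleton] at this
    rw [this]
    simp
  exact h2.trans (monomial_le_degreeOf j hm)

theorem Size_map_deriv {S : Type*} [CommRing S] (φ : R →+* S) (f : σ → MvPolynomial σ R)
    (g : σ → MvPolynomial σ S) (hfg : ∀ i, MvPolynomial.map φ (f i) = g i)
    (p : MvPolynomial σ R) :
    MvPolynomial.map φ (mkDerivation R f p) = mkDerivation S g (MvPolynomial.map φ p) := by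
  induction p using MvPolynomial.induction_on with
  | C c =>
    have h1 : mkDerivation R f (C c) = 0 := (mkDerivation R f).map_algebraMap c
    have h2 : mkDerivation S g (C (φ c)) = 0 := (mkDerivation S g).map_algebraMap (φ c)
    rw [map_C, h1, h2, map_zero]
  | add p q hp hq => rw [map_add, map_add, map_add, map_add, hp, hq]
  | mul_X p i hp =>
    rw [Derivation.leibniz, map_add, smul_eq_mul, smul_eq_mul, map_mul, map_mul, map_mul, map_X,
      Derivation.leibniz, smul_eq_mul, smul_eq_mul, hp, mkDerivation_X, mkDerivation_X, hfg]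

end gen

section D4
variable (a : ℂ) (p : MvPolynomial (Fin 4) ℂ)

theorem nm_D4_le : nm (D4 a p) ≤ (3 + ‖a‖) * p.totalDegree * nm p := by
  refine Size_nm_deriv _ _ (fun i => ?_) (by positivity) p
  have h0 := norm_nonneg a
  have h2 : nm (2 : MvPolynomial (Fin 4) ℂ) = 2 := by
    have : (2 : MvPolynomial (Fin 4) ℂ) = C 2 := (map_ofNat C 2).symm
    rw [this, nm_C]; simp
  have h3 : nm (3 : MvPolynomial (Fin 4) ℂ) = 3 := by
    have : (3 : MvPolynomial (Fin 4) ℂ) = C 3 := (map_ofNat C 3).symm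
    rw [this, nm_C]; simp
  fin_cases i
  · change nm (1 : MvPolynomial (Fin 4) ℂ) ≤ _
    exact nm_one_le.trans (by linarith)
  · change nm (2 * X 2 : MvPolynomial (Fin 4) ℂ) ≤ _
    refine (nm_mul_le _ _).trans ?_
    rw [h2, nm_X]; linarith
  · change nm (3 * X 1 ^ 2 + C a : MvPolynomial (Fin 4) ℂ) ≤ _
    refine (nm_add_le _ _).trans ?_
    have h4 : nm (3 * X 1 ^ 2 : MvPolynomial (Fin 4) ℂ) ≤ 3 := by
      refine (nm_mul_le _ _).trans ?_
      have h5 := nm_pow_le (X 1 : MvPolynomial (Fin 4) ℂ) 2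
      rw [nm_X, one_pow] at h5
      rw [h3]; linarith
    rw [nm_C]; linarith
  · change nm (-X 1 : MvPolynomial (Fin 4) ℂ) ≤ _
    rw [nm_neg, nm_X]; linarith

end D4

section D3
variable (a : ℂ) (p : MvPolynomial (Fin 3) ℂ)

theorem nm_D3_le : nm (D3 a p) ≤ (3 + ‖a‖) * p.totalDegree * nm p := by
  refine Size_nm_deriv _ _ (fun i => ?_) (by positivity) p
  have h0 := norm_nonneg a
  have h2 : nm (2 : MvPolynomial (Fin 3) ℂ) = 2 := by
    have : (2 : MvPolynomial (Fin 3) ℂ) = C 2 := (map_ofNat C 2).symm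
    rw [this, nm_C]; simp
  have h3 : nm (3 : MvPolynomial (Fin 3) ℂ) = 3 := by
    have : (3 : MvPolynomial (Fin 3) ℂ) = C 3 := (map_ofNat C 3).symm
    rw [this, nm_C]; simp
  fin_cases i
  · change nm (1 : MvPolynomial (Fin 3) ℂ) ≤ _
    exact nm_one_le.trans (by linarith)
  · change nm (2 * X 2 : MvPolynomial (Fin 3) ℂ) ≤ _
    refine (nm_mul_le _ _).trans ?_
    rw [h2, nm_X]; linarith
  · change nm (3 * X 1 ^ 2 + C a : MvPolynomial (Fin 3) ℂ) ≤ _
    refine (nm_add_le _ _).trans ?_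
    have h4 : nm (3 * X 1 ^ 2 : MvPolynomial (Fin 3) ℂ) ≤ 3 := by
      refine (nm_mul_le _ _).trans ?_
      have h5 := nm_pow_le (X 1 : MvPolynomial (Fin 3) ℂ) 2
      rw [nm_X, one_pow] at h5
      rw [h3]; linarith
    rw [nm_C]; linarith

end D3

section degrees
variable {R : Type*} [CommRing R] (a : R)

theorem Size_td_C_mul_X_pow {σ : Type*} (c : R) (i : σ) (n : ℕ) :
    (C c * X i ^ n : MvPolynomial σ R).totalDegree ≤ n := by
  refine (totalDegree_mul _ _).trans ?_
  rw [totalDegree_C, zero_add]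
  refine (totalDegree_pow _ _).trans ?_
  have h : (X i : MvPolynomial σ R).totalDegree ≤ 1 := by
    refine (totalDegree_monomial_le _ _).trans ?_
    change (Finsupp.single i 1).degree ≤ 1
    rw [Finsupp.degree_single]
  nlinarith

theorem totalDegree_D4_le (p : MvPolynomial (Fin 4) R) :
    (D4 a p).totalDegree ≤ p.totalDegree + 1 := by
  refine Size_totalDegree_deriv _ (fun i => ?_) p
  have e2 : (2 : MvPolynomial (Fin 4) R) = C 2 := (map_ofNat C 2).symm
  have e3 : (3 : MvPolynomial (Fin 4) R) = C 3 := (map_ofNat C 3).symm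
  fin_cases i
  · change (1 : MvPolynomial (Fin 4) R).totalDegree ≤ 2
    rw [totalDegree_one]; exact Nat.zero_le _
  · change (2 * X 2 : MvPolynomial (Fin 4) R).totalDegree ≤ 2
    have := Size_td_C_mul_X_pow (2 : R) (2 : Fin 4) 1
    rw [pow_one] at this
    rw [e2]; omega
  · change (3 * X 1 ^ 2 + C a : MvPolynomial (Fin 4) R).totalDegree ≤ 2
    refine (totalDegree_add _ _).trans (max_le ?_ ?_)
    · rw [e3]; exact Size_td_C_mul_X_pow _ _ _
    · rw [totalDegree_C]; exact Nat.zero_le _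
  · change (-X 1 : MvPolynomial (Fin 4) R).totalDegree ≤ 2
    have := Size_td_C_mul_X_pow (1 : R) (1 : Fin 4) 1
    rw [pow_one, C_1, one_mul] at this
    rw [totalDegree_neg]; omega

theorem totalDegree_D4_iterate_le (p : MvPolynomial (Fin 4) R) (t : ℕ) :
    ((⇑(D4 a))^[t] p).totalDegree ≤ p.totalDegree + t := by
  induction t with
  | zero => rfl
  | succ t ih =>
    rw [Function.iterate_succ_apply']
    have := totalDegree_D4_le a ((⇑(D4 a))^[t] p)
    omega

theorem Size_degreeOf_num {σ : Type*} (j : σ) (c : R) (i : σ) (n : ℕ) (hij : i ≠ j) :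
    (C c * X i ^ n : MvPolynomial σ R).degreeOf j ≤ 0 := by
  classical
  refine (degreeOf_C_mul_le _ _ _).trans ?_
  refine (degreeOf_pow_le _ _ _).trans ?_
  have h : (X i : MvPolynomial σ R).degreeOf j ≤ 0 := by
    rw [degreeOf_le_iff]
    intro m hm
    have := support_monomial_subset hm
    rw [Finset.mem_singleton] at this
    rw [this, Finsupp.single_apply, if_neg hij]
  nlinarith

theorem Size_degreeOf_self {σ : Type*} (j : σ) (c : R) (n : ℕ) :
    (C c * X j ^ n : MvPolynomial σ R).degreeOf j ≤ n := by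
  classical
  refine (degreeOf_C_mul_le _ _ _).trans ?_
  refine (degreeOf_pow_le _ _ _).trans ?_
  have h : (X j : MvPolynomial σ R).degreeOf j ≤ 1 := by
    rw [degreeOf_le_iff]
    intro m hm
    have := support_monomial_subset hm
    rw [Finset.mem_singleton] at this
    rw [this, Finsupp.single_eq_same]
  nlinarith

theorem Size_degreeOf_D4 (j : Fin 4) (hj1 : j ≠ 1) (hj2 : j ≠ 2) (p : MvPolynomial (Fin 4) R) :
    (D4 a p).degreeOf j ≤ p.degreeOf j := by
  refine Size_degreeOf_deriv _ j 0 (fun i => ?_) p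
  have e2 : (2 : MvPolynomial (Fin 4) R) = C 2 := (map_ofNat C 2).symm
  have e3 : (3 : MvPolynomial (Fin 4) R) = C 3 := (map_ofNat C 3).symm
  fin_cases i
  · change (1 : MvPolynomial (Fin 4) R).degreeOf j ≤ 0
    rw [degreeOf_one]
  · change (2 * X 2 : MvPolynomial (Fin 4) R).degreeOf j ≤ 0
    have := Size_degreeOf_num j (2 : R) (2 : Fin 4) 1 (Ne.symm hj2)
    rw [pow_one] at this
    rw [e2]; exact this
  · change (3 * X 1 ^ 2 + C a : MvPolynomial (Fin 4) R).degreeOf j ≤ 0
    refine (degreeOf_add_le _ _ _).trans (max_le ?_ ?_)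
    · rw [e3]; exact Size_degreeOf_num _ _ _ _ (Ne.symm hj1)
    · rw [degreeOf_C]
  · change (-X 1 : MvPolynomial (Fin 4) R).degreeOf j ≤ 0
    have := Size_degreeOf_num j (-1 : R) (1 : Fin 4) 1 (Ne.symm hj1)
    rw [pow_one] at this
    have e : (-X 1 : MvPolynomial (Fin 4) R) = C (-1) * X 1 := by simp
    rw [e]; exact this

theorem degreeOf_zero_D4_iterate_le (p : MvPolynomial (Fin 4) R) (t : ℕ) :
    ((⇑(D4 a))^[t] p).degreeOf 0 ≤ p.degreeOf 0 := by
  induction t with
  | zero => rfl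
  | succ t ih =>
    rw [Function.iterate_succ_apply']
    exact (Size_degreeOf_D4 a 0 (by decide) (by decide) _).trans ih

theorem degreeOf_three_D4_iterate_le (p : MvPolynomial (Fin 4) R) (t : ℕ) :
    ((⇑(D4 a))^[t] p).degreeOf 3 ≤ p.degreeOf 3 := by
  induction t with
  | zero => rfl
  | succ t ih =>
    rw [Function.iterate_succ_apply']
    exact (Size_degreeOf_D4 a 3 (by decide) (by decide) _).trans ih

theorem degreeOf_zero_D3_le (p : MvPolynomial (Fin 3) R) : (D3 a p).degreeOf 0 ≤ p.degreeOf 0 := by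
  refine Size_degreeOf_deriv _ 0 0 (fun i => ?_) p
  have e2 : (2 : MvPolynomial (Fin 3) R) = C 2 := (map_ofNat C 2).symm
  have e3 : (3 : MvPolynomial (Fin 3) R) = C 3 := (map_ofNat C 3).symm
  fin_cases i
  · change (1 : MvPolynomial (Fin 3) R).degreeOf 0 ≤ 0
    rw [degreeOf_one]
  · change (2 * X 2 : MvPolynomial (Fin 3) R).degreeOf 0 ≤ 0
    have := Size_degreeOf_num (0 : Fin 3) (2 : R) (2 : Fin 3) 1 (by decide)
    rw [pow_one] at this
    rw [e2]; exact this
  · change (3 * X 1 ^ 2 + C a : MvPolynomial (Fin 3) R).degreeOf 0 ≤ 0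
    refine (degreeOf_add_le _ _ _).trans (max_le ?_ ?_)
    · rw [e3]; exact Size_degreeOf_num _ _ _ _ (by decide)
    · rw [degreeOf_C]

theorem degreeOf_one_D3_le (p : MvPolynomial (Fin 3) R) :
    (D3 a p).degreeOf 1 ≤ p.degreeOf 1 + 2 := by
  refine Size_degreeOf_deriv _ 1 2 (fun i => ?_) p
  have e2 : (2 : MvPolynomial (Fin 3) R) = C 2 := (map_ofNat C 2).symm
  have e3 : (3 : MvPolynomial (Fin 3) R) = C 3 := (map_ofNat C 3).symm
  fin_cases i
  · change (1 : MvPolynomial (Fin 3) R).degreeOf 1 ≤ 2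
    rw [degreeOf_one]; exact Nat.zero_le _
  · change (2 * X 2 : MvPolynomial (Fin 3) R).degreeOf 1 ≤ 2
    have := Size_degreeOf_num (1 : Fin 3) (2 : R) (2 : Fin 3) 1 (by decide)
    rw [pow_one] at this
    rw [e2]; omega
  · change (3 * X 1 ^ 2 + C a : MvPolynomial (Fin 3) R).degreeOf 1 ≤ 2
    refine (degreeOf_add_le _ _ _).trans (max_le ?_ ?_)
    · rw [e3]; exact Size_degreeOf_self _ _ _
    · rw [degreeOf_C]; exact Nat.zero_le _

theorem degreeOf_two_D3_le (p : MvPolynomial (Fin 3) R) :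
    (D3 a p).degreeOf 2 ≤ p.degreeOf 2 + 1 := by
  refine Size_degreeOf_deriv _ 2 1 (fun i => ?_) p
  have e2 : (2 : MvPolynomial (Fin 3) R) = C 2 := (map_ofNat C 2).symm
  have e3 : (3 : MvPolynomial (Fin 3) R) = C 3 := (map_ofNat C 3).symm
  fin_cases i
  · change (1 : MvPolynomial (Fin 3) R).degreeOf 2 ≤ 1
    rw [degreeOf_one]; exact Nat.zero_le _
  · change (2 * X 2 : MvPolynomial (Fin 3) R).degreeOf 2 ≤ 1
    have := Size_degreeOf_self (2 : Fin 3) (2 : R) 1
    rw [pow_one] at this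
    rw [e2]; exact this
  · change (3 * X 1 ^ 2 + C a : MvPolynomial (Fin 3) R).degreeOf 2 ≤ 1
    refine (degreeOf_add_le _ _ _).trans (max_le ?_ ?_)
    · rw [e3]
      exact (Size_degreeOf_num _ _ _ _ (by decide)).trans (Nat.zero_le _)
    · rw [degreeOf_C]; exact Nat.zero_le _

theorem map_D4 {S : Type*} [CommRing S] (f : R →+* S) (p : MvPolynomial (Fin 4) R) :
    MvPolynomial.map f (D4 a p) = D4 (f a) (MvPolynomial.map f p) := by
  refine Size_map_deriv f _ _ (fun i => ?_) p
  fin_cases i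
  · change MvPolynomial.map f 1 = 1
    simp
  · change MvPolynomial.map f (2 * X 2) = 2 * X 2
    simp
  · change MvPolynomial.map f (3 * X 1 ^ 2 + C a) = 3 * X 1 ^ 2 + C (f a)
    simp
  · change MvPolynomial.map f (-X 1) = -X 1
    simp

theorem map_D4_iterate {S : Type*} [CommRing S] (f : R →+* S) (p : MvPolynomial (Fin 4) R)
    (t : ℕ) : MvPolynomial.map f ((⇑(D4 a))^[t] p) = (⇑(D4 (f a)))^[t] (MvPolynomial.map f p) := by
  induction t with
  | zero => rfl
  | succ t ih => rw [Function.iterate_succ_apply', Function.iterate_succ_apply', map_D4, ih]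

theorem map_D3 {S : Type*} [CommRing S] (f : R →+* S) (p : MvPolynomial (Fin 3) R) :
    MvPolynomial.map f (D3 a p) = D3 (f a) (MvPolynomial.map f p) := by
  refine Size_map_deriv f _ _ (fun i => ?_) p
  fin_cases i
  · change MvPolynomial.map f 1 = 1
    simp
  · change MvPolynomial.map f (2 * X 2) = 2 * X 2
    simp
  · change MvPolynomial.map f (3 * X 1 ^ 2 + C a) = 3 * X 1 ^ 2 + C (f a)
    simp

theorem map_PP {S : Type*} [CommRing S] (f : R →+* S) (L N0 : ℕ) (p : ℕ → ℕ → ℕ → ℤ) :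
    MvPolynomial.map f (PP R L N0 p) = PP S L N0 p := by
  unfold PP
  simp only [map_sum, map_mul, map_pow, map_X, map_C]
  refine Finset.sum_congr rfl fun i _ => Finset.sum_congr rfl fun j _ =>
    Finset.sum_congr rfl fun k _ => ?_
  simp

theorem Size_term_mono (i j k : ℕ) (c : R) :
    (C c * X 0 ^ i * X 1 ^ j * X 3 ^ k : MvPolynomial (Fin 4) R) =
      monomial (Finsupp.single 0 i + Finsupp.single 1 j + Finsupp.single 3 k) c := by
  rw [X_pow_eq_monomial, X_pow_eq_monomial, X_pow_eq_monomial, C_mul_monomial, monomial_mul,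
    monomial_mul, mul_one, mul_one, mul_one]

theorem totalDegree_PP_le (L N0 : ℕ) (p : ℕ → ℕ → ℕ → ℤ) :
    (PP R L N0 p).totalDegree ≤ L + 2 * N0 := by
  unfold PP
  refine totalDegree_finsetSum_le fun i hi => totalDegree_finsetSum_le fun j hj =>
    totalDegree_finsetSum_le fun k hk => ?_
  rw [Finset.mem_range] at hi hj hk
  rw [Size_term_mono]
  refine (totalDegree_monomial_le _ _).trans ?_
  change (Finsupp.single (0 : Fin 4) i + Finsupp.single 1 j + Finsupp.single 3 k).degree ≤ _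
  rw [map_add, map_add, Finsupp.degree_single, Finsupp.degree_single, Finsupp.degree_single]
  omega

theorem degreeOf_zero_PP_le (L N0 : ℕ) (p : ℕ → ℕ → ℕ → ℤ) : (PP R L N0 p).degreeOf 0 ≤ L := by
  classical
  unfold PP
  refine (degreeOf_sum_le _ _ _).trans (Finset.sup_le fun i hi => ?_)
  refine (degreeOf_sum_le _ _ _).trans (Finset.sup_le fun j hj => ?_)
  refine (degreeOf_sum_le _ _ _).trans (Finset.sup_le fun k hk => ?_)
  rw [Finset.mem_range] at hi hj hk
  rw [Size_term_mono, degreeOf_le_iff]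
  intro m hm
  have := support_monomial_subset hm
  rw [Finset.mem_singleton] at this
  rw [this]
  simp
  omega

theorem degreeOf_three_PP_le (L N0 : ℕ) (p : ℕ → ℕ → ℕ → ℤ) :
    (PP R L N0 p).degreeOf 3 ≤ N0 := by
  classical
  unfold PP
  refine (degreeOf_sum_le _ _ _).trans (Finset.sup_le fun i hi => ?_)
  refine (degreeOf_sum_le _ _ _).trans (Finset.sup_le fun j hj => ?_)
  refine (degreeOf_sum_le _ _ _).trans (Finset.sup_le fun k hk => ?_)
  rw [Finset.mem_range] at hi hj hk
  rw [Size_term_mono, degreeOf_le_iff]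
  intro m hm
  have := support_monomial_subset hm
  rw [Finset.mem_singleton] at this
  rw [this]
  simp [Finsupp.single_apply]
  omega

end degrees

theorem nm_D4_iterate_le (a : ℂ) (p : MvPolynomial (Fin 4) ℂ) (t : ℕ) :
    nm ((⇑(D4 a))^[t] p) ≤ ((3 + ‖a‖) * (p.totalDegree + t)) ^ t * nm p := by
  have h0 := norm_nonneg a
  induction t with
  | zero => simp
  | succ t ih =>
    rw [Function.iterate_succ_apply']
    refine (nm_D4_le a _).trans ?_
    have h1 : ((((⇑(D4 a))^[t] p).totalDegree : ℕ) : ℝ) ≤ p.totalDegree + t := by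
      exact_mod_cast totalDegree_D4_iterate_le a p t
    have h2 : (3 + ‖a‖) * (((⇑(D4 a))^[t] p).totalDegree : ℝ) ≤
        (3 + ‖a‖) * (p.totalDegree + (t + 1 : ℕ)) := by
      refine mul_le_mul_of_nonneg_left ?_ (by positivity)
      push_cast; linarith
    have h3 : ((3 + ‖a‖) * (p.totalDegree + t)) ^ t ≤
        ((3 + ‖a‖) * (p.totalDegree + (t + 1 : ℕ))) ^ t := by
      refine pow_le_pow_left₀ (by positivity) ?_ _
      refine mul_le_mul_of_nonneg_left ?_ (by positivity)
      push_cast; linarith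
    calc (3 + ‖a‖) * (((⇑(D4 a))^[t] p).totalDegree : ℝ) * nm ((⇑(D4 a))^[t] p)
        ≤ (3 + ‖a‖) * (p.totalDegree + (t + 1 : ℕ)) *
          (((3 + ‖a‖) * (p.totalDegree + (t + 1 : ℕ))) ^ t * nm p) := by
          refine mul_le_mul h2 (ih.trans ?_) (nm_nonneg _) (by positivity)
          exact mul_le_mul_of_nonneg_right h3 (nm_nonneg _)
      _ = ((3 + ‖a‖) * (p.totalDegree + (t + 1 : ℕ))) ^ (t + 1) * nm p := by ring

theorem nm_PP_le (L N0 : ℕ) (p : ℕ → ℕ → ℕ → ℤ) (H : ℝ) (hH : 0 ≤ H)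
    (hp : ∀ i j k, |(p i j k : ℝ)| ≤ H) : nm (PP ℂ L N0 p) ≤ H * (L * (N0 : ℝ) ^ 2) := by
  unfold PP
  have h1 : ∀ i j k, nm (C ((p i j k : ℤ) : ℂ) * X 0 ^ i * X 1 ^ j * X 3 ^ k :
      MvPolynomial (Fin 4) ℂ) ≤ H := by
    intro i j k
    rw [Size_term_mono, nm_monomial, Complex.norm_intCast]
    exact hp i j k
  refine (nm_sum_le _ _).trans ?_
  have h2 : ∀ i ∈ Finset.range L, nm (∑ j ∈ Finset.range N0, ∑ k ∈ Finset.range N0,
      C ((p i j k : ℤ) : ℂ) * X 0 ^ i * X 1 ^ j * X 3 ^ k : MvPolynomial (Fin 4) ℂ) ≤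
      (N0 : ℝ) * ((N0 : ℝ) * H) := by
    intro i _
    refine (nm_sum_le _ _).trans ?_
    refine (Finset.sum_le_sum (g := fun _ => (N0 : ℝ) * H) fun j _ => ?_).trans ?_
    · refine (nm_sum_le _ _).trans ?_
      refine (Finset.sum_le_sum (g := fun _ => H) fun k _ => h1 i j k).trans ?_
      simp
    · simp
  refine (Finset.sum_le_sum h2).trans ?_
  rw [Finset.sum_const, Finset.card_range, nsmul_eq_mul]
  apply le_of_eq
  ring

end Pool.Agent.ZCM
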