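import Pool.Agent.ZCM.Link
import Pool.Agent.ZCM.Size

/-! # P1: the first non-vanishing derivative along the curve has bounded pole order -/

namespace Pool.Agent.ZCM
open Filter Topology Asymptotics PowerSeries

/-- the point `(β, ℘(u), ℘'(u)/2, c)` of the curve -/
noncomputable def vc (L : PeriodPair) (β c u : ℂ) : Fin 4 → ℂ :=
  ![β, L.weierstrassP u, L.derivWeierstrassP u / 2, c]

/-- the moving point `(β+s, ℘(u+s), ℘'(u+s)/2, c+ζ(u+s)-ζ(u))` -/
noncomputable def Curve_pt (L : PeriodPair) (β c u s : ℂ) : Fin 4 → ℂ :=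
  ![β + s, L.weierstrassP (u + s), L.derivWeierstrassP (u + s) / 2,
    c + zetaL L (u + s) - zetaL L u]

theorem Curve_pt_zero (L : PeriodPair) (β c u : ℂ) : Curve_pt L β c u 0 = vc L β c u := by
  funext i
  fin_cases i <;> simp [Curve_pt, vc]

/-- the chain rule along the moving point -/
theorem Curve_hasDerivAt (L : PeriodPair) (a b : ℂ) (h2 : L.g₂ = -4 * a) (h3 : L.g₃ = -4 * b)
    (β c u : ℂ) (U : MvPolynomial (Fin 4) ℂ) {s : ℂ} (hs : u + s ∉ L.lattice) :
    HasDerivAt (fun s => MvPolynomial.eval (Curve_pt L β c u s) U)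
      (MvPolynomial.eval (Curve_pt L β c u s) (D4 a U)) s := by
  induction U using MvPolynomial.induction_on with
  | C r =>
    have h1 : D4 a (MvPolynomial.C r) = 0 := (D4 a).map_algebraMap r
    rw [h1, map_zero]
    simp only [MvPolynomial.eval_C]
    exact hasDerivAt_const s r
  | add p q hp hq =>
    rw [map_add, map_add]
    simp only [map_add]
    exact hp.add hq
  | mul_X p i hp =>
    rw [Derivation.leibniz]
    simp only [map_add, smul_eq_mul, map_mul, MvPolynomial.eval_X]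
    have hi : HasDerivAt (fun s => Curve_pt L β c u s i)
        (MvPolynomial.eval (Curve_pt L β c u s) (D4 a (MvPolynomial.X i))) s := by
      have hX : D4 a (MvPolynomial.X i) =
          (![1, 2 * MvPolynomial.X 2, 3 * MvPolynomial.X 1 ^ 2 + MvPolynomial.C a,
            -MvPolynomial.X 1] : Fin 4 → MvPolynomial (Fin 4) ℂ) i := by
        unfold D4; exact MvPolynomial.mkDerivation_X _ _ _
      rw [hX]
      fin_cases i
      · simpa [Curve_pt] using (hasDerivAt_id s).const_add β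
      · have := HasDerivAt.comp_const_add u s (hasDerivAt_P L hs)
        simpa [Curve_pt] using this
      · have := HasDerivAt.comp_const_add u s (hasDerivAt_P' L a b h2 h3 hs)
        simpa [Curve_pt] using this
      · have := ((HasDerivAt.comp_const_add u s (hasDerivAt_zetaL L hs)).const_add c).sub_const
          (zetaL L u)
        simpa [Curve_pt] using this
    have := hp.mul hi
    refine this.congr_deriv ?_
    ring

theorem Curve_isOpen (L : PeriodPair) (u : ℂ) : IsOpen {s : ℂ | u + s ∉ L.lattice} := by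
  have h := (isOpen_compl L).preimage (continuous_const.add continuous_id : Continuous fun s => u + s)
  exact h

theorem Curve_iteratedDeriv (L : PeriodPair) (a b : ℂ) (h2 : L.g₂ = -4 * a)
    (h3 : L.g₃ = -4 * b) (β c u : ℂ) (U : MvPolynomial (Fin 4) ℂ) (n : ℕ) :
    ∀ {s : ℂ}, u + s ∉ L.lattice →
      iteratedDeriv n (fun s => MvPolynomial.eval (Curve_pt L β c u s) U) s
        = MvPolynomial.eval (Curve_pt L β c u s) ((⇑(D4 a))^[n] U) := by
  induction n with
  | zero => intro s hs; simp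
  | succ n ih =>
    intro s hs
    rw [iteratedDeriv_succ]
    have hev : iteratedDeriv n (fun s => MvPolynomial.eval (Curve_pt L β c u s) U) =ᶠ[𝓝 s]
        fun s => MvPolynomial.eval (Curve_pt L β c u s) ((⇑(D4 a))^[n] U) := by
      filter_upwards [(Curve_isOpen L u).mem_nhds hs] with s' hs'
      exact ih hs'
    rw [hev.deriv_eq, (Curve_hasDerivAt L a b h2 h3 β c u _ hs).deriv,
      Function.iterate_succ_apply']

theorem Curve_analyticAt (L : PeriodPair) (a b : ℂ) (h2 : L.g₂ = -4 * a)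
    (h3 : L.g₃ = -4 * b) (β c u : ℂ) (U : MvPolynomial (Fin 4) ℂ) {s : ℂ}
    (hs : u + s ∉ L.lattice) :
    AnalyticAt ℂ (fun s => MvPolynomial.eval (Curve_pt L β c u s) U) s := by
  have hd : DifferentiableOn ℂ (fun s => MvPolynomial.eval (Curve_pt L β c u s) U)
      {s : ℂ | u + s ∉ L.lattice} := fun s' hs' =>
    (Curve_hasDerivAt L a b h2 h3 β c u U hs').differentiableAt.differentiableWithinAt
  exact hd.analyticAt ((Curve_isOpen L u).mem_nhds hs)

/-- a Leibniz formula with vanishing lower derivatives -/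
theorem Curve_leibniz (A φ : ℂ → ℂ) (t : ℕ) (z : ℂ) (hA : AnalyticAt ℂ A z)
    (hφ : AnalyticAt ℂ φ z) (h : ∀ j < t, iteratedDeriv j φ z = 0) :
    iteratedDeriv t (A * φ) z = A z * iteratedDeriv t φ z := by
  rw [iteratedDeriv_mul hA.contDiffAt hφ.contDiffAt, Finset.sum_eq_single 0]
  · simp
  · intro i hi hi0
    have : t - i < t := by
      have := Finset.mem_range.1 hi
      omega
    rw [h _ this, mul_zero]
  · simp

/-- the entire function `H(u, s)` -/
noncomputable def Curve_H (a b : ℂ) (N0 Lz : ℕ) (p : ℕ → ℕ → ℕ → ℤ) (β c : ℂ)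
    (w : ℂ × ℂ) : ℂ :=
  ∑ i ∈ Finset.range Lz, ∑ j ∈ Finset.range N0, ∑ k ∈ Finset.range N0,
    ((p i j k : ℤ) : ℂ) * (β + w.2) ^ i * ev (QQ a b) (w.1 + w.2) ^ j
      * ev (SS a b) (w.1 + w.2) ^ (3 * N0 - 2 * j - k)
      * (c * ev (SS a b) w.1 * ev (SS a b) (w.1 + w.2) + ev (RR a b) (w.1 + w.2) * ev (SS a b) w.1
          - ev (SS a b) (w.1 + w.2) * ev (RR a b) w.1) ^ k
      * ev (SS a b) w.1 ^ (N0 - k)

theorem Curve_H_continuous (a b : ℂ) (N0 Lz : ℕ) (p : ℕ → ℕ → ℕ → ℤ) (β c : ℂ) :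
    Continuous (Curve_H a b N0 Lz p β c) := by
  have hS : Continuous (ev (SS a b)) := (differentiable_ev (Gr_SS a b).ent).continuous
  have hQ : Continuous (ev (QQ a b)) := (differentiable_ev (Gr_QQ a b).ent).continuous
  have hR : Continuous (ev (RR a b)) := (differentiable_ev (Gr_RR a b).ent).continuous
  unfold Curve_H
  fun_prop

theorem Curve_H_differentiable (a b : ℂ) (N0 Lz : ℕ) (p : ℕ → ℕ → ℕ → ℤ) (β c u : ℂ) :
    Differentiable ℂ fun s => Curve_H a b N0 Lz p β c (u, s) := by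
  have hS : Differentiable ℂ (ev (SS a b)) := differentiable_ev (Gr_SS a b).ent
  have hQ : Differentiable ℂ (ev (QQ a b)) := differentiable_ev (Gr_QQ a b).ent
  have hR : Differentiable ℂ (ev (RR a b)) := differentiable_ev (Gr_RR a b).ent
  unfold Curve_H
  fun_prop

theorem Curve_H_eq (L : PeriodPair) (a b : ℂ) (h2 : L.g₂ = -4 * a) (h3 : L.g₃ = -4 * b)
    (N0 Lz : ℕ) (p : ℕ → ℕ → ℕ → ℤ) (β c : ℂ) {u s : ℂ} (hu : u ∉ L.lattice)
    (hs : u + s ∉ L.lattice) :
    Curve_H a b N0 Lz p β c (u, s) = ev (SS a b) (u + s) ^ (3 * N0) * ev (SS a b) u ^ N0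
      * MvPolynomial.eval (Curve_pt L β c u s) (PP ℂ Lz N0 p) := by
  have hQ := link_Q L a b h2 h3 hs
  have hR := link_R L a b h2 h3 hs
  have hR' := link_R L a b h2 h3 hu
  unfold Curve_H PP
  simp only [map_sum, Finset.mul_sum, map_mul, map_pow, MvPolynomial.eval_C, MvPolynomial.eval_X,
    ← hQ, ← hR, ← hR']
  refine Finset.sum_congr rfl fun i _ => Finset.sum_congr rfl fun j hj =>
    Finset.sum_congr rfl fun k hk => ?_
  have hj' := Finset.mem_range.1 hj
  have hk' := Finset.mem_range.1 hk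
  have e0 : Curve_pt L β c u s 0 = β + s := rfl
  have e1 : Curve_pt L β c u s 1 = L.weierstrassP (u + s) := rfl
  have e3 : Curve_pt L β c u s 3 = c + zetaL L (u + s) - zetaL L u := rfl
  rw [e0, e1, e3]
  set S := ev (SS a b) (u + s) with hS
  set S0 := ev (SS a b) u with hS0
  have hb : c * S0 * S + S * zetaL L (u + s) * S0 - S * (S0 * zetaL L u) =
      S * S0 * (c + zetaL L (u + s) - zetaL L u) := by ring
  rw [hb]
  have hS3 : S ^ (3 * N0) = S ^ (2 * j) * S ^ (3 * N0 - 2 * j - k) * S ^ k := by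
    rw [← pow_add, ← pow_add]
    congr 1
    omega
  have hS0' : S0 ^ N0 = S0 ^ k * S0 ^ (N0 - k) := by
    rw [← pow_add]
    congr 1
    omega
  rw [hS3, hS0', mul_pow, mul_pow, mul_pow, ← pow_mul]
  ring

theorem curve_pole (L : PeriodPair) (a b : ℂ) (h2 : L.g₂ = -4 * a) (h3 : L.g₃ = -4 * b)
    (N0 Lz : ℕ) (p : ℕ → ℕ → ℕ → ℤ) (β c : ℂ) (t : ℕ)
    (h : ∀ t' < t, ∀ u, u ∉ L.lattice →
      MvPolynomial.eval (vc L β c u) ((⇑(D4 a))^[t'] (PP ℂ Lz N0 p)) = 0) :
    (fun u => MvPolynomial.eval (vc L β c u) ((⇑(D4 a))^[t] (PP ℂ Lz N0 p)))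
      =O[𝓝[≠] (0 : ℂ)] fun u => u ^ (-(4 * N0 : ℤ)) := by
  -- the bound for `H`
  obtain ⟨M, hM⟩ := ((isCompact_closedBall (0 : ℂ) 1).prod
    (isCompact_closedBall (0 : ℂ) 1)).exists_bound_of_continuousOn
      (Curve_H_continuous a b N0 Lz p β c).continuousOn
  have key : ∀ u : ℂ, u ∉ L.lattice → ‖u‖ ≤ 1 →
      ‖ev (SS a b) u ^ (4 * N0) *
        MvPolynomial.eval (vc L β c u) ((⇑(D4 a))^[t] (PP ℂ Lz N0 p))‖ ≤ t.factorial * M := by
    intro u hu hu1
    have hu0 : u + 0 ∉ L.lattice := by rwa [add_zero]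
    -- Cauchy
    have hC := Complex.norm_iteratedDeriv_le_of_forall_mem_sphere_norm_le (c := 0) (R := 1)
      (C := M) (f := fun s => Curve_H a b N0 Lz p β c (u, s)) t one_pos
      (Curve_H_differentiable a b N0 Lz p β c u).diffContOnCl
      (fun s hs => hM (u, s) ⟨by simpa using hu1, by
        have : ‖s‖ = 1 := by simpa using hs
        simp [this]⟩)
    rw [one_pow, div_one] at hC
    refine le_trans (le_of_eq ?_) hC
    congr 1
    -- the `t`-th derivative of `H`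
    have hS : Differentiable ℂ (ev (SS a b)) := differentiable_ev (Gr_SS a b).ent
    have hA : AnalyticAt ℂ (fun s => ev (SS a b) (u + s) ^ (3 * N0) * ev (SS a b) u ^ N0) 0 := by
      have hdiff : Differentiable ℂ
          (fun s => ev (SS a b) (u + s) ^ (3 * N0) * ev (SS a b) u ^ N0) := by fun_prop
      exact hdiff.analyticAt 0
    have hφ := Curve_analyticAt L a b h2 h3 β c u (PP ℂ Lz N0 p) hu0
    have hlow : ∀ j < t, iteratedDeriv j
        (fun s => MvPolynomial.eval (Curve_pt L β c u s) (PP ℂ Lz N0 p)) 0 = 0 := by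
      intro j hj
      rw [Curve_iteratedDeriv L a b h2 h3 β c u _ j hu0, Curve_pt_zero]
      exact h j hj u hu
    have hL := Curve_leibniz _ _ t 0 hA hφ hlow
    have heq : (fun s => Curve_H a b N0 Lz p β c (u, s)) =ᶠ[𝓝 (0 : ℂ)]
        ((fun s => ev (SS a b) (u + s) ^ (3 * N0) * ev (SS a b) u ^ N0) *
          fun s => MvPolynomial.eval (Curve_pt L β c u s) (PP ℂ Lz N0 p)) := by
      filter_upwards [(Curve_isOpen L u).mem_nhds hu0] with s hs
      exact Curve_H_eq L a b h2 h3 N0 Lz p β c hu hs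
    rw [heq.iteratedDeriv_eq, hL, Curve_iteratedDeriv L a b h2 h3 β c u _ t hu0, Curve_pt_zero,
      add_zero, ← pow_add]
    congr 2
    ring
  -- `|S(u)| ≥ |u|/2` near `0`
  have hSlow : ∀ᶠ u in 𝓝 (0 : ℂ), ‖u‖ / 2 ≤ ‖ev (SS a b) u‖ := by
    have hd := hasDerivAt_S a b 0
    rw [R_zero] at hd
    have hlit := hd.isLittleO
    have hh : (fun u : ℂ => ev (SS a b) u - u) =o[𝓝 (0 : ℂ)] fun u => u := by
      simpa [S_zero] using hlit
    have := hh.bound (show (0 : ℝ) < 1 / 2 by norm_num)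
    filter_upwards [this] with u hu
    have h1 : ‖u‖ ≤ ‖ev (SS a b) u‖ + ‖ev (SS a b) u - u‖ := by
      have := norm_sub_le (ev (SS a b) u) (ev (SS a b) u - u)
      rw [sub_sub_cancel] at this
      exact this
    linarith
  refine IsBigO.of_bound (t.factorial * M * 2 ^ (4 * N0)) ?_
  have hne : ∀ᶠ u in 𝓝[≠] (0 : ℂ), u ≠ 0 := eventually_mem_nhdsWithin
  have hb : ∀ᶠ u in 𝓝[≠] (0 : ℂ), ‖u‖ ≤ 1 := by
    have : ∀ᶠ u in 𝓝 (0 : ℂ), ‖u‖ ≤ 1 := by
      filter_upwards [Metric.closedBall_mem_nhds (0 : ℂ) one_pos] with u hu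
      simpa using hu
    exact this.filter_mono nhdsWithin_le_nhds
  filter_upwards [eventually_notMem L, hne, hb, hSlow.filter_mono nhdsWithin_le_nhds] with u hu hu0
    hu1 hSu
  have h1 := key u hu hu1
  rw [norm_mul, norm_pow] at h1
  have hupos : 0 < ‖u‖ := norm_pos_iff.2 hu0
  have h2' : (‖u‖ / 2) ^ (4 * N0) ≤ ‖ev (SS a b) u‖ ^ (4 * N0) :=
    pow_le_pow_left₀ (by positivity) hSu _
  have hpos : 0 < (‖u‖ / 2) ^ (4 * N0) := by positivity
  have h3' : (‖u‖ / 2) ^ (4 * N0) *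
      ‖MvPolynomial.eval (vc L β c u) ((⇑(D4 a))^[t] (PP ℂ Lz N0 p))‖ ≤ t.factorial * M :=
    le_trans (mul_le_mul_of_nonneg_right h2' (norm_nonneg _)) h1
  have hz : ‖u ^ (-(4 * N0 : ℤ))‖ = (‖u‖ ^ (4 * N0))⁻¹ := by
    rw [zpow_neg, norm_inv]
    congr 1
    have : ((4 * N0 : ℤ)) = ((4 * N0 : ℕ) : ℤ) := by push_cast; rfl
    rw [this, zpow_natCast, norm_pow]
  rw [hz]
  rw [div_pow] at h3'
  have hu4 : 0 < ‖u‖ ^ (4 * N0) := by positivity
  have h24 : (0 : ℝ) < 2 ^ (4 * N0) := by positivity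
  rw [← div_eq_mul_inv, le_div_iff₀ hu4]
  have h5 := mul_le_mul_of_nonneg_right h3' h24.le
  calc ‖MvPolynomial.eval (vc L β c u) ((⇑(D4 a))^[t] (PP ℂ Lz N0 p))‖ * ‖u‖ ^ (4 * N0)
      = ‖u‖ ^ (4 * N0) / 2 ^ (4 * N0) *
        ‖MvPolynomial.eval (vc L β c u) ((⇑(D4 a))^[t] (PP ℂ Lz N0 p))‖ * 2 ^ (4 * N0) := by
        field_simp
    _ ≤ t.factorial * M * 2 ^ (4 * N0) := h5

end Pool.Agent.ZCM
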