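import Pool.Agent.ZCM.Defs

/-! # S1: counting algebraic integers and the triangular pigeonhole principle -/

namespace Pool.Agent.ZCM
open NumberField

theorem Count_coord (K : Type*) [Field K] [NumberField K] :
    ∃ (c : ℝ) (f : 𝓞 K →+ ((K →+* ℂ) → ℤ)), 0 ≤ c ∧ Function.Injective f ∧
      ∀ (ρ : ℝ), 0 ≤ ρ → ∀ y : 𝓞 K, (∀ σ : K →+* ℂ, ‖σ (y : K)‖ ≤ ρ) →
        ∀ i, |((f y i : ℤ) : ℝ)| ≤ c * ρ := by
  classical
  obtain ⟨c, hc⟩ : ∃ c : ℝ, ∀ (α : 𝓞 K) (i : K →+* ℂ),
      ‖(((integralBasis K).reindex (equivReindex K).symm).repr α i : ℂ)‖ ≤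
      c * house (algebraMap (𝓞 K) K α) := ⟨_, house.basis_repr_norm_le_const_mul_house K⟩
  refine ⟨|c|, ?_, abs_nonneg _, ?_, ?_⟩
  · exact
      { toFun := fun α i => (RingOfIntegers.basis K).repr α (equivReindex K i)
        map_zero' := by funext i; simp
        map_add' := by intro x y; funext i; simp }
  · intro x y hxy
    apply (RingOfIntegers.basis K).repr.injective
    ext j
    have := congrFun hxy ((equivReindex K).symm j)
    simpa using this
  · intro ρ hρ y hy i
    have h1 := hc y i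
    have h2 : house (algebraMap (𝓞 K) K y) ≤ ρ := by
      rw [house]
      rw [pi_norm_le_iff_of_nonneg hρ]
      intro σ
      exact hy σ
    have h3 : (((integralBasis K).reindex (equivReindex K).symm).repr y i : ℚ) =
        (((RingOfIntegers.basis K).repr y (equivReindex K i) : ℤ) : ℚ) := by
      rw [Module.Basis.repr_reindex_apply, Equiv.symm_symm]
      exact integralBasis_repr_apply K y _
    rw [h3] at h1
    have h4 : ‖(((((RingOfIntegers.basis K).repr y (equivReindex K i) : ℤ) : ℚ)) : ℂ)‖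
        = |(((RingOfIntegers.basis K).repr y (equivReindex K i) : ℤ) : ℝ)| := by
      push_cast
      exact Complex.norm_intCast _
    rw [h4] at h1
    calc |(((RingOfIntegers.basis K).repr y (equivReindex K i) : ℤ) : ℝ)|
        ≤ c * house (algebraMap (𝓞 K) K y) := h1
      _ ≤ |c| * house (algebraMap (𝓞 K) K y) := by
          apply mul_le_mul_of_nonneg_right (le_abs_self c) (house_nonneg _)
      _ ≤ |c| * ρ := by gcongr

theorem count (K : Type*) [Field K] [NumberField K] : ∃ C : ℝ, 1 ≤ C ∧ ∀ ρ : ℝ, 0 ≤ ρ →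
    ∀ A : Finset (𝓞 K), (∀ y ∈ A, ∀ y' ∈ A, ∀ σ : K →+* ℂ, ‖σ ((y : K) - (y' : K))‖ ≤ ρ) →
    (A.card : ℝ) ≤ (C * (1 + ρ)) ^ (Module.finrank ℚ K) := by
  classical
  obtain ⟨c, f, hc0, hf, hb⟩ := Count_coord K
  refine ⟨2 * c + 1, by linarith, ?_⟩
  intro ρ hρ A hA
  rcases A.eq_empty_or_nonempty with rfl | ⟨y0, hy0⟩
  · simp only [Finset.card_empty, Nat.cast_zero]
    positivity
  · have hcρ : 0 ≤ c * ρ := mul_nonneg hc0 hρ
    let M : ℤ := ⌊c * ρ⌋
    have hM : 0 ≤ M := Int.floor_nonneg.mpr hcρ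
    let B : Finset ((K →+* ℂ) → ℤ) := Fintype.piFinset (fun _ => Finset.Icc (-M) M)
    have h1 : A.card ≤ B.card := by
      apply Finset.card_le_card_of_injOn (fun y => f (y - y0))
      · intro y hy
        rw [Finset.mem_coe, Fintype.mem_piFinset]
        intro i
        have h2 := hb ρ hρ (y - y0) (by
          intro σ
          have := hA y hy y0 hy0 σ
          simpa using this) i
        rw [Finset.mem_Icc]
        have h3 := abs_le.mp h2
        constructor
        · have : -((f (y - y0) i : ℤ) : ℝ) ≤ c * ρ := by linarith [h3.1]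
          have h4 : -(f (y - y0) i) ≤ M := by
            apply Int.le_floor.mpr
            push_cast
            exact this
          linarith
        · exact Int.le_floor.mpr h3.2
      · intro y _ y' _ h
        have := hf h
        exact sub_left_injective this
    have h2 : (B.card : ℝ) = (2 * (M : ℝ) + 1) ^ (Module.finrank ℚ K) := by
      show ((Fintype.piFinset (fun _ : (K →+* ℂ) => Finset.Icc (-M) M)).card : ℝ) = _
      rw [Fintype.card_piFinset, Finset.prod_const, Finset.card_univ]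
      rw [← Embeddings.card K ℂ, Int.card_Icc]
      have h3 : ((M + 1 - -M).toNat : ℝ) = 2 * (M : ℝ) + 1 := by
        have h4 : (((M + 1 - -M).toNat : ℤ) : ℝ) = ((M + 1 - -M : ℤ) : ℝ) := by
          rw [Int.toNat_of_nonneg (by linarith)]
        rw [Int.cast_natCast] at h4
        rw [h4]; push_cast; ring
      push_cast
      rw [h3]
    have hMle : (M : ℝ) ≤ c * ρ := Int.floor_le _
    have hM' : (0 : ℝ) ≤ M := by exact_mod_cast hM
    calc (A.card : ℝ) ≤ B.card := by exact_mod_cast h1
      _ = (2 * (M : ℝ) + 1) ^ (Module.finrank ℚ K) := h2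
      _ ≤ ((2 * c + 1) * (1 + ρ)) ^ (Module.finrank ℚ K) := by
          apply pow_le_pow_left₀ (by linarith)
          nlinarith

theorem pigeon (K : Type*) [Field K] [NumberField K] : ∃ C : ℝ, 1 ≤ C ∧
    ∀ {α : Type} (Om : Finset α) (T1 : ℕ) (y : ℕ → α → 𝓞 K) (ρ : ℕ → ℝ), (∀ n, 0 ≤ ρ n) →
    (∀ p ∈ Om, ∀ p' ∈ Om, ∀ n < T1, (∀ i < n, y i p = y i p') →
      ∀ σ : K →+* ℂ, ‖σ ((y n p : K) - (y n p' : K))‖ ≤ ρ n) →
    ∏ n ∈ Finset.range T1, (C * (1 + ρ n)) ^ (Module.finrank ℚ K) < (Om.card : ℝ) →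
    ∃ p ∈ Om, ∃ p' ∈ Om, p ≠ p' ∧ ∀ n < T1, y n p = y n p' := by
  classical
  obtain ⟨C, hC1, hC⟩ := count K
  refine ⟨C, hC1, ?_⟩
  intro α Om T1 y ρ hρ hy hcard
  have key : ∀ m ≤ T1, ∃ S ⊆ Om, (∀ p ∈ S, ∀ p' ∈ S, ∀ i < m, y i p = y i p') ∧
      (Om.card : ℝ) ≤ S.card * ∏ n ∈ Finset.range m, (C * (1 + ρ n)) ^ (Module.finrank ℚ K) := by
    intro m
    induction m with
    | zero =>
      intro _
      exact ⟨Om, Finset.Subset.refl _, fun _ _ _ _ i hi => absurd hi (Nat.not_lt_zero i), by simp⟩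
    | succ m ih =>
      intro hm
      obtain ⟨S, hS, hconst, hle⟩ := ih (Nat.le_of_succ_le hm)
      rcases S.eq_empty_or_nonempty with rfl | hne
      · refine ⟨∅, Finset.empty_subset _, by simp, ?_⟩
        simpa using hle
      · have hA := hC (ρ m) (hρ m) (S.image (y m)) (by
          intro u hu u' hu' σ
          obtain ⟨p, hp, rfl⟩ := Finset.mem_image.mp hu
          obtain ⟨p', hp', rfl⟩ := Finset.mem_image.mp hu'
          exact hy p (hS hp) p' (hS hp') m hm (hconst p hp p' hp') σ)
        have hne' : (S.image (y m)).Nonempty := hne.image _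
        have hpos : (0 : ℝ) < (S.image (y m)).card := by exact_mod_cast hne'.card_pos
        obtain ⟨v, -, hv⟩ := Finset.exists_le_card_fiber_of_nsmul_le_card_of_maps_to
          (s := S) (t := S.image (y m)) (f := y m) (b := (S.card : ℝ) / (S.image (y m)).card)
          (fun a ha => Finset.mem_image_of_mem _ ha) hne' (by
            rw [nsmul_eq_mul, mul_div_cancel₀ _ hpos.ne'])
        refine ⟨S.filter (fun p => y m p = v), (Finset.filter_subset _ _).trans hS, ?_, ?_⟩
        · intro p hp p' hp' i hi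
          rw [Finset.mem_filter] at hp hp'
          rcases Nat.lt_succ_iff_lt_or_eq.mp hi with hi | rfl
          · exact hconst p hp.1 p' hp'.1 i hi
          · rw [hp.2, hp'.2]
        · rw [div_le_iff₀ hpos] at hv
          rw [Finset.prod_range_succ]
          have hP : 0 ≤ ∏ n ∈ Finset.range m, (C * (1 + ρ n)) ^ (Module.finrank ℚ K) := by
            apply Finset.prod_nonneg
            intro n _
            have := hρ n
            positivity
          calc (Om.card : ℝ) ≤ S.card * ∏ n ∈ Finset.range m, (C * (1 + ρ n)) ^ (Module.finrank ℚ K) := hle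
            _ ≤ ((S.filter (fun p => y m p = v)).card * (S.image (y m)).card) *
                ∏ n ∈ Finset.range m, (C * (1 + ρ n)) ^ (Module.finrank ℚ K) := by gcongr
            _ ≤ ((S.filter (fun p => y m p = v)).card * (C * (1 + ρ m)) ^ (Module.finrank ℚ K)) *
                ∏ n ∈ Finset.range m, (C * (1 + ρ n)) ^ (Module.finrank ℚ K) := by gcongr
            _ = _ := by ring
  obtain ⟨S, hS, hconst, hle⟩ := key T1 le_rfl
  have h1 : 1 < S.card := by
    by_contra hcon
    have h2 : (S.card : ℝ) ≤ 1 := by exact_mod_cast not_lt.mp hcon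
    have hP : 0 ≤ ∏ n ∈ Finset.range T1, (C * (1 + ρ n)) ^ (Module.finrank ℚ K) := by
      apply Finset.prod_nonneg
      intro n _
      have := hρ n
      positivity
    nlinarith
  obtain ⟨p, hp, p', hp', hne⟩ := Finset.one_lt_card.mp h1
  exact ⟨p, hS hp, p', hS hp', hne, fun n hn => hconst p hp p' hp' n hn⟩

end Pool.Agent.ZCM
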