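import Pool.Agent.ZCM.Zeta

/-! # L0: bridge between `PeriodPair` and the sums over `ℤ × ℤ` of the problem -/

namespace Pool.Agent.ZCM

variable (L : PeriodPair)

/-- re-indexing of sums over the lattice -/
theorem Bridge_tsum (f : ℂ → ℂ) :
    ∑' l : L.lattice, f l = ∑' q : ℤ × ℤ, f ((q.1 : ℂ) * L.ω₁ + (q.2 : ℂ) * L.ω₂) := by
  rw [← (L.latticeEquivProd.symm.toEquiv).tsum_eq (fun l : L.lattice => f l)]
  refine tsum_congr fun q => ?_
  have h := L.latticeEquiv_symm_apply q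
  show f ((L.latticeEquivProd.symm q : L.lattice) : ℂ) = _
  rw [h]

theorem Bridge_eq_zero (q : ℤ × ℤ) : (q.1 : ℂ) * L.ω₁ + (q.2 : ℂ) * L.ω₂ = 0 ↔ q = 0 := by
  constructor
  · intro h
    have h1 := L.latticeEquiv_symm_apply q
    rw [h] at h1
    have h2 : L.latticeEquivProd.symm q = 0 := Subtype.ext h1
    simpa using h2
  · rintro rfl
    simp

theorem Bridge_tsum_ite (f : ℂ → ℂ) (h0 : f 0 = 0) :
    ∑' l : L.lattice, f l = ∑' q : ℤ × ℤ, if q = 0 then (0 : ℂ) else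
      f ((q.1 : ℂ) * L.ω₁ + (q.2 : ℂ) * L.ω₂) := by
  rw [Bridge_tsum]
  refine tsum_congr fun q => ?_
  split_ifs with hq
  · rw [(Bridge_eq_zero L q).2 hq, h0]
  · rfl

theorem zetaL_eq_tsum (z : ℂ) :
    zetaL L z = 1 / z + ∑' q : ℤ × ℤ, if q = 0 then (0 : ℂ) else
      (1 / (z - ((q.1 : ℂ) * L.ω₁ + (q.2 : ℂ) * L.ω₂))
        + 1 / ((q.1 : ℂ) * L.ω₁ + (q.2 : ℂ) * L.ω₂)
        + z / ((q.1 : ℂ) * L.ω₁ + (q.2 : ℂ) * L.ω₂) ^ 2) := by
  have h := Zeta_exc_add L 0 z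
  have h1 : Zeta_exc L (0 : L.lattice) z = ∑' q : ℤ × ℤ, if q = 0 then (0 : ℂ) else
      (fun l : ℂ => if l = 0 then (0 : ℂ) else (1 / (z - l) + 1 / l + z / l ^ 2))
      ((q.1 : ℂ) * L.ω₁ + (q.2 : ℂ) * L.ω₂) := by
    rw [← Bridge_tsum_ite L
      (fun l : ℂ => if l = 0 then (0 : ℂ) else (1 / (z - l) + 1 / l + z / l ^ 2)) (if_pos rfl)]
    rfl
  rw [← h, h1, add_comm]
  congr 1
  · simp
  · refine tsum_congr fun q => ?_
    split_ifs with hq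
    · rfl
    · have hq' : (q.1 : ℂ) * L.ω₁ + (q.2 : ℂ) * L.ω₂ ≠ 0 := fun h => hq ((Bridge_eq_zero L q).1 h)
      exact if_neg hq'

theorem Bridge_G (n : ℕ) (hn : n ≠ 0) : L.G n = ∑' q : ℤ × ℤ,
      if q = 0 then (0 : ℂ) else 1 / ((q.1 : ℂ) * L.ω₁ + (q.2 : ℂ) * L.ω₂) ^ n := by
  unfold PeriodPair.G
  rw [Bridge_tsum_ite L (fun l : ℂ => (l ^ n)⁻¹) (by simp [hn])]
  simp only [one_div]

theorem g₂_eq_tsum : L.g₂ = 60 * ∑' q : ℤ × ℤ,
      if q = 0 then (0 : ℂ) else 1 / ((q.1 : ℂ) * L.ω₁ + (q.2 : ℂ) * L.ω₂) ^ 4 := by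
  rw [PeriodPair.g₂, Bridge_G L 4 (by norm_num)]

theorem g₃_eq_tsum : L.g₃ = 140 * ∑' q : ℤ × ℤ,
      if q = 0 then (0 : ℂ) else 1 / ((q.1 : ℂ) * L.ω₁ + (q.2 : ℂ) * L.ω₂) ^ 6 := by
  rw [PeriodPair.g₃, Bridge_G L 6 (by norm_num)]

/-- a period pair from `ω₁, ω₂` with non-real ratio -/
theorem exists_periodPair (ω₁ ω₂ : ℂ) (h : (ω₂ / ω₁).im ≠ 0) :
    ∃ L : PeriodPair, L.ω₁ = ω₁ ∧ L.ω₂ = ω₂ := by
  have h1 : ω₁ ≠ 0 := by
    rintro rfl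
    simp at h
  refine ⟨⟨ω₁, ω₂, ?_⟩, rfl, rfl⟩
  rw [LinearIndependent.pair_iff]
  intro s t hst
  have h2 : (s : ℂ) + t * (ω₂ / ω₁) = 0 := by
    have h3 : (s : ℂ) * ω₁ + t * ω₂ = 0 := by simpa using hst
    field_simp
    linear_combination h3
  have h3 := congrArg Complex.im h2
  simp only [Complex.add_im, Complex.ofReal_im, Complex.im_ofReal_mul, zero_add,
    Complex.zero_im, mul_eq_zero] at h3
  have ht : t = 0 := by
    rcases h3 with h3 | h3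
    · exact h3
    · exact absurd h3 h
  subst ht
  have h4 := congrArg Complex.re h2
  simp at h4
  exact ⟨h4, rfl⟩

/-- the scaled pair -/
noncomputable def Bridge_pair (m : ℕ) (hm : 0 < m) : PeriodPair where
  ω₁ := L.ω₁ / m
  ω₂ := L.ω₂ / m
  indep := by
    have hm' : (m : ℂ) ≠ 0 := by exact_mod_cast hm.ne'
    rw [LinearIndependent.pair_iff]
    intro s t hst
    have h := LinearIndependent.pair_iff.1 L.indep s t
    apply h
    have h2 : (s : ℂ) * (L.ω₁ / m) + t * (L.ω₂ / m) = 0 := by simpa using hst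
    have h3 : (s : ℂ) * L.ω₁ + t * L.ω₂ = 0 := by
      have h4 : (s : ℂ) * L.ω₁ + t * L.ω₂ = m * ((s : ℂ) * (L.ω₁ / m) + t * (L.ω₂ / m)) := by
        field_simp
      rw [h4, h2, mul_zero]
    simpa using h3

theorem Bridge_pt (m : ℕ) (hm : 0 < m) (q : ℤ × ℤ) :
    (q.1 : ℂ) * (Bridge_pair L m hm).ω₁ + (q.2 : ℂ) * (Bridge_pair L m hm).ω₂ =
      ((q.1 : ℂ) * L.ω₁ + (q.2 : ℂ) * L.ω₂) / m := by
  simp only [Bridge_pair]
  ring

theorem Bridge_Gscale (m : ℕ) (hm : 0 < m) (n : ℕ) :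
    (Bridge_pair L m hm).G n = (m : ℂ) ^ n * L.G n := by
  have hm' : (m : ℂ) ≠ 0 := by exact_mod_cast hm.ne'
  unfold PeriodPair.G
  rw [Bridge_tsum (Bridge_pair L m hm) (fun l : ℂ => (l ^ n)⁻¹),
    Bridge_tsum L (fun l : ℂ => (l ^ n)⁻¹), ← tsum_mul_left]
  refine tsum_congr fun q => ?_
  rw [Bridge_pt, div_pow, inv_div, div_eq_mul_inv]

/-- scaling: `Λ' = Λ/m` -/
theorem scale (m : ℕ) (hm : 0 < m) : ∃ L' : PeriodPair,
    (∀ z : ℂ, z ∈ L'.lattice ↔ (m : ℂ) * z ∈ L.lattice) ∧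
    L'.g₂ = (m : ℂ) ^ 4 * L.g₂ ∧ L'.g₃ = (m : ℂ) ^ 6 * L.g₃ ∧
    ∀ z : ℂ, zetaL L' z = m * zetaL L (m * z) := by
  have hm' : (m : ℂ) ≠ 0 := by exact_mod_cast hm.ne'
  refine ⟨Bridge_pair L m hm, ?_, ?_, ?_, ?_⟩
  · intro z
    rw [PeriodPair.mem_lattice, PeriodPair.mem_lattice]
    constructor
    · rintro ⟨a, b, hab⟩
      refine ⟨a, b, ?_⟩
      have h := Bridge_pt L m hm (a, b)
      simp only at h
      rw [h] at hab
      rw [← hab]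
      field_simp
    · rintro ⟨a, b, hab⟩
      refine ⟨a, b, ?_⟩
      have h := Bridge_pt L m hm (a, b)
      simp only at h
      rw [h, hab]
      field_simp
  · rw [PeriodPair.g₂, PeriodPair.g₂, Bridge_Gscale]
    ring
  · rw [PeriodPair.g₃, PeriodPair.g₃, Bridge_Gscale]
    ring
  · intro z
    unfold zetaL
    rw [Bridge_tsum (Bridge_pair L m hm) (fun l : ℂ => 1 / (z - l) + 1 / l + z / l ^ 2),
      Bridge_tsum L (fun l : ℂ => 1 / (m * z - l) + 1 / l + m * z / l ^ 2), ← tsum_mul_left]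
    refine tsum_congr fun q => ?_
    rw [Bridge_pt]
    generalize (q.1 : ℂ) * L.ω₁ + (q.2 : ℂ) * L.ω₂ = l
    have h1 : z - l / m = (m * z - l) / m := by
      field_simp
    rw [h1, one_div_div, one_div_div, div_pow, div_div_eq_mul_div]
    ring

end Pool.Agent.ZCM
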