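import Pool.Agent.ZCM.DenInt

/-! # A2: `HS → GoodDen` -/

namespace Pool.Agent.ZCM
open PowerSeries

/-- series with denominators `Den(n) lcm(1..n)^k` -/
def GoodDenOf_HD {K : Type*} [Field K] (S : Set ℕ) (k : ℕ) (f : K⟦X⟧) : Prop :=
  ∀ n : ℕ, IsIntegral ℤ (((Den S n * Nat.lcmUpto n ^ k : ℕ) : K) * coeff n f)

theorem GoodDenOf_lcm_dvd {m n : ℕ} (h : m ≤ n) :
    Nat.lcmUpto m ∣ Nat.lcmUpto n := by
  unfold Nat.lcmUpto
  apply Finset.lcm_dvd
  intro i hi
  apply Finset.dvd_lcm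
  rw [Finset.mem_Icc] at hi ⊢
  exact ⟨hi.1, hi.2.trans h⟩

theorem GoodDenOf_Den_dvd (S : Set ℕ) {m n : ℕ} (h : m ≤ n) : Den S m ∣ Den S n := by
  have h1 := Den_mul_dvd S m (n - m)
  rw [Nat.add_sub_cancel' h] at h1
  exact (Dvd.intro _ rfl).trans h1

section
variable {K : Type*} [Field K]

theorem GoodDenOf_isIntegral_nat (n : ℕ) : IsIntegral ℤ (n : K) := by
  have h := isIntegral_algebraMap (R := ℤ) (A := K) (x := (n : ℤ))
  simpa using h

theorem GoodDenOf_of_dvd {d e : ℕ} (h : d ∣ e) {x : K} (hx : IsIntegral ℤ ((d : K) * x)) :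
    IsIntegral ℤ ((e : K) * x) := by
  obtain ⟨c, rfl⟩ := h
  have h1 : ((d * c : ℕ) : K) * x = (c : K) * ((d : K) * x) := by push_cast; ring
  rw [h1]
  exact (GoodDenOf_isIntegral_nat c).mul hx

theorem GoodDenOf_HD.mul {S : Set ℕ} {j k : ℕ} {f g : K⟦X⟧} (hf : GoodDenOf_HD S j f)
    (hg : GoodDenOf_HD S k g) : GoodDenOf_HD S (j + k) (f * g) := by
  intro n
  rw [coeff_mul, Finset.mul_sum]
  apply IsIntegral.sum
  rintro ⟨p, q⟩ hpq
  rw [Finset.HasAntidiagonal.mem_antidiagonal] at hpq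
  simp only at hpq ⊢
  have hp : p ≤ n := by omega
  have hq : q ≤ n := by omega
  have hd : (Den S p * Nat.lcmUpto p ^ j) * (Den S q * Nat.lcmUpto q ^ k) ∣
      Den S n * Nat.lcmUpto n ^ (j + k) := by
    have h1 : Den S p * Den S q ∣ Den S n := by
      have := Den_mul_dvd S p q
      rwa [hpq] at this
    have h2 : Nat.lcmUpto p ^ j * Nat.lcmUpto q ^ k ∣
        Nat.lcmUpto n ^ (j + k) := by
      rw [pow_add]
      exact mul_dvd_mul (pow_dvd_pow_of_dvd (GoodDenOf_lcm_dvd hp) j)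
        (pow_dvd_pow_of_dvd (GoodDenOf_lcm_dvd hq) k)
    have h3 := mul_dvd_mul h1 h2
    have e : (Den S p * Nat.lcmUpto p ^ j) * (Den S q * Nat.lcmUpto q ^ k) =
      Den S p * Den S q * (Nat.lcmUpto p ^ j * Nat.lcmUpto q ^ k) := by ring
    rw [e]
    exact h3
  apply GoodDenOf_of_dvd hd
  have h4 := (hf p).mul (hg q)
  have e : (((Den S p * Nat.lcmUpto p ^ j) * (Den S q * Nat.lcmUpto q ^ k) : ℕ) : K)
      * (coeff p f * coeff q g) =
      ((Den S p * Nat.lcmUpto p ^ j : ℕ) : K) * coeff p f *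
      (((Den S q * Nat.lcmUpto q ^ k : ℕ) : K) * coeff q g) := by
    push_cast; ring
  rw [e]
  exact h4

theorem GoodDenOf_HD_one (S : Set ℕ) : GoodDenOf_HD S 0 (1 : K⟦X⟧) := by
  intro n
  rw [coeff_one]
  apply (GoodDenOf_isIntegral_nat _).mul
  split_ifs
  · exact isIntegral_one
  · exact isIntegral_zero

theorem GoodDenOf_HD.pow {S : Set ℕ} {j : ℕ} {f : K⟦X⟧} (hf : GoodDenOf_HD S j f) (m : ℕ) :
    GoodDenOf_HD S (m * j) (f ^ m) := by
  induction m with
  | zero => simpa using GoodDenOf_HD_one S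
  | succ m ih =>
    rw [pow_succ, Nat.succ_mul]
    exact ih.mul hf

end

theorem goodDen_of_HS {K : Type*} [Field K] [CharZero K] (a b : K) (ha : IsIntegral ℤ a)
    (hb : IsIntegral ℤ b) (h : HS K a b) (N0 : ℕ) : GoodDen K a b N0 := by
  obtain ⟨S, hSp, hdens, hdiv⟩ := h
  have hx : HasDen S (xS a b) := HasDen_xS a b ha hb hSp hdiv
  have hx0 : GoodDenOf_HD S 0 (xS a b) := by
    intro n
    have := hx n
    simpa using this
  have hz1 : GoodDenOf_HD S 1 (zS a b) := by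
    intro n
    have hc : coeff n (zS a b) = - coeff n (xS a b) / ((n : K) - 1) := by
      rw [zS, coeff_mk]
    rw [hc, pow_one]
    rcases Nat.lt_or_ge n 2 with hn | hn
    · interval_cases n
      · have := (GoodDenOf_isIntegral_nat (K := K) (Nat.lcmUpto 0)).mul (hx 0)
        have e : ((Den S 0 * Nat.lcmUpto 0 : ℕ) : K) *
            (-coeff 0 (xS a b) / (((0 : ℕ) : K) - 1)) =
            (Nat.lcmUpto 0 : K) * ((Den S 0 : K) * coeff 0 (xS a b)) := by
          push_cast; ring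
        rw [e]; exact this
      · have e : ((Den S 1 * Nat.lcmUpto 1 : ℕ) : K) *
            (-coeff 1 (xS a b) / (((1 : ℕ) : K) - 1)) = 0 := by
          simp
        rw [e]; exact isIntegral_zero
    · obtain ⟨m, rfl⟩ : ∃ m, n = m + 2 := ⟨n - 2, by omega⟩
      have hd : m + 1 ∣ Nat.lcmUpto (m + 2) := by
        unfold Nat.lcmUpto
        exact Finset.dvd_lcm (f := id) (b := m + 1) (by rw [Finset.mem_Icc]; omega)
      obtain ⟨c, hc⟩ := hd
      have hm : ((m : K) + 1) ≠ 0 := by exact_mod_cast Nat.succ_ne_zero m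
      have e : ((Den S (m + 2) * Nat.lcmUpto (m + 2) : ℕ) : K) *
            (-coeff (m + 2) (xS a b) / (((m + 2 : ℕ) : K) - 1)) =
            -((c : K) * ((Den S (m + 2) : K) * coeff (m + 2) (xS a b))) := by
        rw [hc]
        have h2 : (((m + 2 : ℕ) : K) - 1) = (m : K) + 1 := by push_cast; ring
        rw [h2]
        push_cast
        field_simp
      rw [e]
      exact ((GoodDenOf_isIntegral_nat c).mul (hx _)).neg
  obtain ⟨C, hC0, hC⟩ := log_Den_le S hdens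
  refine ⟨fun n => Den S n * Nat.lcmUpto n ^ N0, ?_, ?_, ?_, ?_⟩
  · intro n
    exact Nat.mul_pos (Den_pos S n) (pow_pos (Nat.lcmUpto_pos n) _)
  · intro m n hmn
    exact mul_dvd_mul (GoodDenOf_Den_dvd S hmn) (pow_dvd_pow_of_dvd (GoodDenOf_lcm_dvd hmn) _)
  · refine ⟨C + N0 * (Real.log 4 + 4), by positivity, ?_⟩
    intro n
    have h1 := hC n
    have h2 : Real.log (Nat.lcmUpto n) ≤ (Real.log 4 + 4) * n := by
      rw [← Chebyshev.psi_eq_log_lcmUpto]
      exact Chebyshev.psi_le_const_mul_self (Nat.cast_nonneg n)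
    have hD : (Den S n : ℝ) ≠ 0 := by exact_mod_cast (Den_pos S n).ne'
    have hl : (Nat.lcmUpto n : ℝ) ≠ 0 := by exact_mod_cast (Nat.lcmUpto_pos n).ne'
    have e : Real.log ((Den S n * Nat.lcmUpto n ^ N0 : ℕ) : ℝ) =
        Real.log (Den S n) + N0 * Real.log (Nat.lcmUpto n) := by
      push_cast
      rw [Real.log_mul hD (pow_ne_zero _ hl), Real.log_pow]
    rw [e]
    have h3 : (N0 : ℝ) * Real.log (Nat.lcmUpto n) ≤ N0 * ((Real.log 4 + 4) * n) :=
      mul_le_mul_of_nonneg_left h2 (Nat.cast_nonneg _)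
    have h4 : 0 ≤ Real.log 4 := Real.log_nonneg (by norm_num)
    have h5 : 0 ≤ (N0 : ℝ) * (Real.log 4 + 4) := by positivity
    nlinarith [h1, h3, h5]
  · intro j k n hj hk
    have h1 := (hx0.pow j).mul (hz1.pow k) n
    rw [mul_zero, mul_one, zero_add] at h1
    have hd : Den S n * Nat.lcmUpto n ^ k ∣ Den S n * Nat.lcmUpto n ^ N0 :=
      mul_dvd_mul_left _ (pow_dvd_pow _ hk.le)
    exact GoodDenOf_of_dvd hd h1

end Pool.Agent.ZCM
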