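import Pool.Agent.ZCM.MC
import Pool.Agent.ZCM.GoodDenOf

/-! # P5: the final contradiction when `℘(β)` is algebraic too -/

namespace Pool.Agent.ZCM
open Polynomial NumberField

/-- a common denominator of four elements of a number field -/
theorem Contr_mult {K : Type*} [Field K] [NumberField K] (v : Fin 4 → K) :
    ∃ M : ℕ, 0 < M ∧ ∀ i, IsIntegral ℤ ((M : K) * v i) := by
  classical
  have hal : Algebra.IsAlgebraic ℤ K := ⟨fun z => by
    have h1 : IsAlgebraic ℚ z := Algebra.IsAlgebraic.isAlgebraic z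
    exact (IsFractionRing.isAlgebraic_iff ℤ ℚ K).2 h1⟩
  obtain ⟨y, hy, h⟩ :=
    Algebra.IsAlgebraic.exists_integral_multiples ℤ (Finset.univ.image v)
  refine ⟨y.natAbs, Int.natAbs_pos.2 hy, fun i => ?_⟩
  have h1 : IsIntegral ℤ (y • v i) := h (v i) (by simp)
  rw [zsmul_eq_mul] at h1
  rcases Int.natAbs_eq y with h2 | h2
  · have h3 : ((y.natAbs : ℕ) : K) = (y : K) := by
      have h4 := congrArg (fun z : ℤ => (z : K)) h2
      simp only [Int.cast_natCast] at h4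
      exact h4.symm
    rw [h3]; exact h1
  · have h3 : ((y.natAbs : ℕ) : K) = -(y : K) := by
      have h4 := congrArg (fun z : ℤ => (z : K)) h2
      simp only [Int.cast_neg, Int.cast_natCast] at h4
      rw [h4, neg_neg]
    rw [h3, neg_mul]; exact h1.neg

/-- integrality of a value of a polynomial, after multiplication with a power of a common
denominator of the arguments -/
theorem Contr_int {K : Type*} [Field K] [NumberField K] (P : MvPolynomial (Fin 4) (𝓞 K))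
    (v : Fin 4 → K) (M : ℕ) (hM : ∀ i, IsIntegral ℤ ((M : K) * v i)) (d : ℕ)
    (hd : P.totalDegree ≤ d) :
    IsIntegral ℤ ((M : K) ^ d *
      MvPolynomial.eval v (MvPolynomial.map (algebraMap (𝓞 K) K) P)) := by
  rw [MvPolynomial.eval_map, MvPolynomial.eval₂_eq', Finset.mul_sum]
  refine IsIntegral.sum _ fun m hm => ?_
  have h1 : ∑ i, m i ≤ d := by
    refine le_trans ?_ hd
    have := MvPolynomial.le_totalDegree hm
    rwa [Finsupp.sum_fintype _ _ (by intro; rfl)] at this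
  have h2 : (M : K) ^ d * (algebraMap (𝓞 K) K (P.coeff m) * ∏ i, v i ^ m i)
      = algebraMap (𝓞 K) K (P.coeff m) *
        ((M : K) ^ (d - ∑ i, m i) * ∏ i, ((M : K) * v i) ^ m i) := by
    have h3 : (M : K) ^ d = (M : K) ^ (d - ∑ i, m i) * (M : K) ^ (∑ i, m i) := by
      rw [← pow_add, Nat.sub_add_cancel h1]
    simp_rw [mul_pow, Finset.prod_mul_distrib, Finset.prod_pow_eq_pow_sum]
    rw [h3]; ring
  rw [h2]
  refine IsIntegral.mul (RingOfIntegers.isIntegral_coe _) (IsIntegral.mul ?_ ?_)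
  · have h4 : IsIntegral ℤ ((M : K)) := by
      have h5 := isIntegral_algebraMap (R := ℤ) (A := K) (x := (M : ℤ))
      simpa using h5
    exact h4.pow _
  · exact IsIntegral.prod _ fun i _ => (hM i).pow _

/-- the numerical choice of the parameters -/
theorem Contr_param (κ : ℕ) (hκ : 1 ≤ κ) : ∃ (N0 : ℕ) (x : ℝ), 0 < x ∧ x ≤ 1 ∧
    4 * (κ : ℝ) ≤ x * (N0 : ℝ) ^ 2 ∧ vs κ N0 + vt κ N0 x + x ≤ 1 / 16 ∧
    (κ : ℝ) * (vs κ N0 + vt κ N0 x) ≤ 1 / 8 ∧ 0 ≤ vs κ N0 ∧ 0 ≤ vt κ N0 x ∧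
    vt κ N0 x ≤ 1 := by
  have hk1 : (1 : ℝ) ≤ κ := by exact_mod_cast hκ
  have hk0 : (0 : ℝ) < κ := by linarith
  set u : ℝ := 1 / κ with hu
  have hu0 : 0 < u := by positivity
  have hu1 : u ≤ 1 := by
    rw [hu, div_le_one hk0]; exact hk1
  have hku : (κ : ℝ) * u = 1 := by rw [hu]; field_simp
  have hvs : vs κ (100 * κ ^ 2) = u ^ 3 / 5000 := by
    unfold vs
    rw [hu]
    push_cast
    field_simp
    norm_num
  have hvt : vt κ (100 * κ ^ 2) (u ^ 2 / 1000) = u ^ 2 / 1250 + u / 250 := by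
    unfold vt
    rw [hvs]
    have : 4 * (κ : ℝ) * (u ^ 3 / 5000 + u ^ 2 / 1000)
        = ((κ : ℝ) * u) * (u ^ 2 / 1250 + u / 250) := by ring
    rw [this, hku, one_mul]
  have hu2 : u ^ 2 ≤ 1 := by nlinarith
  have hu2' : 0 < u ^ 2 := by positivity
  have hu3 : u ^ 3 ≤ 1 := by nlinarith
  have hu3' : 0 < u ^ 3 := by positivity
  refine ⟨100 * κ ^ 2, u ^ 2 / 1000, by positivity, by linarith, ?_, ?_, ?_, ?_, ?_, ?_⟩
  · have h1 : u ^ 2 / 1000 * (((100 * κ ^ 2 : ℕ) : ℝ)) ^ 2 = 10 * ((κ : ℝ) * u) ^ 2 * κ ^ 2 := by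
      push_cast; ring
    rw [h1, hku]
    nlinarith
  · rw [hvs, hvt]; linarith
  · rw [hvs, hvt]
    have h1 : (κ : ℝ) * (u ^ 3 / 5000 + (u ^ 2 / 1250 + u / 250))
        = ((κ : ℝ) * u) * (u ^ 2 / 5000 + u / 1250 + 1 / 250) := by ring
    rw [h1, hku]; linarith
  · rw [hvs]; positivity
  · rw [hvt]; positivity
  · rw [hvt]; linarith

theorem contr (L : PeriodPair) {K : Type*} [Field K] [NumberField K] (ι : K →+* ℂ)
    (a b : 𝓞 K) (h2 : L.g₂ = -4 * oc ι a) (h3 : L.g₃ = -4 * oc ι b)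
    (hS : HS K (a : K) (b : K)) (β c θ θ' : K) (hβ : ι β ∉ L.lattice)
    (hc : zetaL L (ι β) = ι c) (hθ : L.weierstrassP (ι β) = ι θ)
    (hθ' : L.derivWeierstrassP (ι β) / 2 = ι θ') : False := by
  classical
  set κ : ℕ := Module.finrank ℚ K with hκdef
  have hκ : 1 ≤ κ := Module.finrank_pos
  have hk1 : (1 : ℝ) ≤ κ := by exact_mod_cast hκ
  obtain ⟨N0, x, hx, hx1, hN, hs, hk, hvs, hvt, hvt1⟩ := Contr_param κ hκ
  have hD : GoodDen K (a : K) (b : K) N0 :=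
    goodDen_of_HS _ _ (RingOfIntegers.isIntegral_coe a) (RingOfIntegers.isIntegral_coe b) hS N0
  obtain ⟨T0, hT0⟩ := mc L ι a b h2 h3 N0 x hx hD hN hs (ι β) hβ
  let v : Fin 4 → K := ![β, θ, θ', c]
  have hv4 : v4 L (ι β) = ⇑ι ∘ v := by
    funext i
    fin_cases i <;> simp [v4, v, hθ, hθ', hc]
  obtain ⟨M1, hM1, hM1i⟩ := Contr_mult v
  have hM1r : (1 : ℝ) ≤ M1 := by exact_mod_cast hM1
  obtain ⟨A, hA⟩ : ∃ A : ℝ, A = ∑ σ : K →+* ℂ, ‖σ (a : K)‖ := ⟨_, rfl⟩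
  obtain ⟨M2, hM2⟩ : ∃ M2 : ℝ, M2 = 1 + ∑ σ : K →+* ℂ, ∑ i, ‖σ (v i)‖ := ⟨_, rfl⟩
  have hA0 : 0 ≤ A := by rw [hA]; exact Finset.sum_nonneg fun _ _ => norm_nonneg _
  have hAσ : ∀ σ : K →+* ℂ, ‖σ (a : K)‖ ≤ A := fun σ => by
    rw [hA]
    exact Finset.single_le_sum (f := fun σ : K →+* ℂ => ‖σ (a : K)‖)
      (fun _ _ => norm_nonneg _) (Finset.mem_univ σ)
  have hM21 : 1 ≤ M2 := by
    rw [hM2]
    have : 0 ≤ ∑ σ : K →+* ℂ, ∑ i, ‖σ (v i)‖ :=
      Finset.sum_nonneg fun _ _ => Finset.sum_nonneg fun _ _ => norm_nonneg _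
    linarith
  have hM2σ : ∀ (σ : K →+* ℂ) (i : Fin 4), ‖σ (v i)‖ ≤ M2 := fun σ i => by
    have h5 : ‖σ (v i)‖ ≤ ∑ i, ‖σ (v i)‖ :=
      Finset.single_le_sum (f := fun i => ‖σ (v i)‖)
        (fun _ _ => norm_nonneg _) (Finset.mem_univ i)
    have h6 : ∑ i, ‖σ (v i)‖ ≤ ∑ σ : K →+* ℂ, ∑ i, ‖σ (v i)‖ :=
      Finset.single_le_sum (f := fun σ : K →+* ℂ => ∑ i, ‖σ (v i)‖)
        (fun _ _ => Finset.sum_nonneg fun _ _ => norm_nonneg _) (Finset.mem_univ σ)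
    rw [hM2]; linarith
  obtain ⟨C, hC⟩ : ∃ C : ℝ, C = Real.log (9 + 3 * A) + 3 * Real.log M1 + 3 * Real.log M2
      + 1 + (N0 : ℝ) ^ 2 := ⟨_, rfl⟩
  have hl1 : 0 ≤ Real.log (9 + 3 * A) := Real.log_nonneg (by linarith)
  have hl2 : 0 ≤ Real.log M1 := Real.log_nonneg hM1r
  have hl3 : 0 ≤ Real.log M2 := Real.log_nonneg hM21
  have hC0 : 0 ≤ C := by rw [hC]; positivity
  -- choice of `T`
  obtain ⟨T, hTT0, hT2N, hT1, hTlog⟩ : ∃ T : ℕ, T0 ≤ T ∧ 2 * N0 ≤ T ∧ 1 ≤ T ∧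
      8 * κ * C < Real.log T := by
    obtain ⟨T2, hT2⟩ := exists_nat_gt (Real.exp (8 * κ * C))
    refine ⟨T0 + 2 * N0 + T2 + 1, by omega, by omega, by omega, ?_⟩
    rw [Real.lt_log_iff_exp_lt (by positivity)]
    push_cast
    have : (0 : ℝ) ≤ T0 + 2 * N0 := by positivity
    linarith
  obtain ⟨p, hp, ⟨m, hm, hm0⟩, hsmall⟩ := hT0 T hTT0
  have hval := hsmall m hm
  set Lz : ℕ := ⌊x * T⌋₊ with hLz
  have hTr : (1 : ℝ) ≤ T := by exact_mod_cast hT1
  have hlogT : 0 ≤ Real.log T := Real.log_nonneg hTr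
  have hLzT : Lz ≤ T := by
    rw [hLz]
    have h5 : x * T ≤ (T : ℝ) := by nlinarith
    calc ⌊x * T⌋₊ ≤ ⌊(T : ℝ)⌋₊ := Nat.floor_mono h5
      _ = T := Nat.floor_natCast T
  have hmT : m ≤ T := by
    have h5 : (m : ℝ) ≤ T := le_trans hm (by nlinarith)
    exact_mod_cast h5
  set P : MvPolynomial (Fin 4) (𝓞 K) := (⇑(D4 a))^[m] (PP (𝓞 K) Lz N0 p) with hP
  set ξ : K := MvPolynomial.eval v (MvPolynomial.map (algebraMap (𝓞 K) K) P) with hξ
  have hPdeg : P.totalDegree ≤ 3 * T := by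
    refine le_trans (totalDegree_D4_iterate_le a _ m) ?_
    have := totalDegree_PP_le (R := 𝓞 K) Lz N0 p
    omega
  have hσξ : ∀ σ : K →+* ℂ, σ ξ = MvPolynomial.eval (⇑σ ∘ v)
      ((⇑(D4 (oc σ a)))^[m] (PP ℂ Lz N0 p)) := by
    intro σ
    rw [hξ, MvPolynomial.eval₂_comp, ← MvPolynomial.eval_map, MvPolynomial.map_map, hP]
    have h5 := map_D4_iterate a (oc σ) (PP (𝓞 K) Lz N0 p) m
    rw [map_PP] at h5
    rw [← h5]
  have hιξ : ι ξ = MvPolynomial.eval (v4 L (ι β)) ((⇑(D4 (oc ι a)))^[m] (PP ℂ Lz N0 p)) := by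
    rw [hσξ, hv4]
  have hξ0 : ξ ≠ 0 := by
    intro h5
    apply hm0
    rw [← hιξ, h5, map_zero]
  have hint : IsIntegral ℤ ((M1 : K) ^ (3 * T) * ξ) := Contr_int P v M1 hM1i (3 * T) hPdeg
  have hne : (M1 : K) ^ (3 * T) * ξ ≠ 0 := by
    refine mul_ne_zero (pow_ne_zero _ ?_) hξ0
    exact_mod_cast hM1.ne'
  -- exponential forms
  have hTpos : (0 : ℝ) < T := by linarith
  have e1 : (M1 : ℝ) ^ (3 * T) = Real.exp (3 * T * Real.log M1) := by
    rw [← Real.exp_log (show (0 : ℝ) < M1 by linarith), ← Real.exp_nat_mul, Real.log_exp]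
    push_cast
    ring_nf
  have e2 : (M2 : ℝ) ^ (3 * T) = Real.exp (3 * T * Real.log M2) := by
    rw [← Real.exp_log (show (0 : ℝ) < M2 by linarith), ← Real.exp_nat_mul, Real.log_exp]
    push_cast
    ring_nf
  have hNn : ∀ σ : K →+* ℂ, ‖σ ((M1 : K) ^ (3 * T) * ξ)‖ = (M1 : ℝ) ^ (3 * T) * ‖σ ξ‖ := by
    intro σ
    rw [map_mul, map_pow, map_natCast, norm_mul, norm_pow, Complex.norm_natCast]
  have hbd : ∀ σ : K →+* ℂ, ‖σ ((M1 : K) ^ (3 * T) * ξ)‖ ≤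
      Real.exp ((vs κ N0 + vt κ N0 x) * (T * Real.log T) + C * T) := by
    intro σ
    rw [hNn, hσξ]
    have h5 : ‖MvPolynomial.eval (⇑σ ∘ v) ((⇑(D4 (oc σ a)))^[m] (PP ℂ Lz N0 p))‖ ≤
        nm ((⇑(D4 (oc σ a)))^[m] (PP ℂ Lz N0 p)) *
          M2 ^ ((⇑(D4 (oc σ a)))^[m] (PP ℂ Lz N0 p)).totalDegree :=
      norm_eval_le _ _ M2 hM21 (fun i => hM2σ σ i)
    have hdeg : ((⇑(D4 (oc σ a)))^[m] (PP ℂ Lz N0 p)).totalDegree ≤ 3 * T := by
      refine le_trans (totalDegree_D4_iterate_le _ _ m) ?_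
      have := totalDegree_PP_le (R := ℂ) Lz N0 p
      omega
    have h6 : M2 ^ ((⇑(D4 (oc σ a)))^[m] (PP ℂ Lz N0 p)).totalDegree ≤ M2 ^ (3 * T) :=
      pow_le_pow_right₀ hM21 hdeg
    have h7 := nm_D4_iterate_le (oc σ a) (PP ℂ Lz N0 p) m
    have h8 := nm_PP_le Lz N0 p _ (Real.exp_pos (vs κ N0 * T * Real.log T)).le hp
    have h9 : ((3 + ‖oc σ a‖) * ((PP ℂ Lz N0 p).totalDegree + m)) ^ m ≤
        Real.exp (Real.log (9 + 3 * A) * T + vt κ N0 x * (T * Real.log T)) := by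
      have h10 : (3 + ‖oc σ a‖) * ((PP ℂ Lz N0 p).totalDegree + m) ≤ (9 + 3 * A) * T := by
        have h11 : ‖oc σ a‖ ≤ A := hAσ σ
        have h12 : (((PP ℂ Lz N0 p).totalDegree : ℝ) + m) ≤ 3 * T := by
          have := totalDegree_PP_le (R := ℂ) Lz N0 p
          have h13 : (PP ℂ Lz N0 p).totalDegree + m ≤ 3 * T := by omega
          exact_mod_cast h13
        calc (3 + ‖oc σ a‖) * (((PP ℂ Lz N0 p).totalDegree : ℝ) + m)
            ≤ (3 + A) * (3 * T) := by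
              apply mul_le_mul (by linarith) h12 (by positivity) (by linarith)
          _ = (9 + 3 * A) * T := by ring
      calc ((3 + ‖oc σ a‖) * (((PP ℂ Lz N0 p).totalDegree : ℝ) + m)) ^ m
          ≤ ((9 + 3 * A) * T) ^ m := pow_le_pow_left₀ (by positivity) h10 m
        _ = Real.exp (m * (Real.log (9 + 3 * A) + Real.log T)) := by
            rw [← Real.log_mul (by positivity) (by positivity), Real.exp_nat_mul,
              Real.exp_log (by positivity)]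
        _ ≤ Real.exp (Real.log (9 + 3 * A) * T + vt κ N0 x * (T * Real.log T)) := by
            apply Real.exp_le_exp.2
            have h14 : (m : ℝ) ≤ T := by exact_mod_cast hmT
            have h15 : (m : ℝ) * Real.log (9 + 3 * A) ≤ Real.log (9 + 3 * A) * T := by
              nlinarith
            have h16 : (m : ℝ) * Real.log T ≤ vt κ N0 x * T * Real.log T :=
              mul_le_mul_of_nonneg_right hm hlogT
            nlinarith
    have h17 : (Lz : ℝ) * (N0 : ℝ) ^ 2 ≤ Real.exp ((1 + (N0 : ℝ) ^ 2) * T) := by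
      have h18 : (Lz : ℝ) ≤ T := by exact_mod_cast hLzT
      have h19 : (T : ℝ) ≤ Real.exp T := by
        have := Real.add_one_le_exp (T : ℝ); linarith
      have h20 : (N0 : ℝ) ^ 2 ≤ Real.exp ((N0 : ℝ) ^ 2 * T) := by
        have := Real.add_one_le_exp ((N0 : ℝ) ^ 2 * T)
        nlinarith [sq_nonneg (N0 : ℝ)]
      calc (Lz : ℝ) * (N0 : ℝ) ^ 2 ≤ Real.exp T * Real.exp ((N0 : ℝ) ^ 2 * T) := by
            apply mul_le_mul (by linarith) h20 (by positivity) (by positivity)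
        _ = Real.exp ((1 + (N0 : ℝ) ^ 2) * T) := by
            rw [← Real.exp_add]; ring_nf
    have h21 : nm (PP ℂ Lz N0 p) ≤
        Real.exp (vs κ N0 * T * Real.log T + (1 + (N0 : ℝ) ^ 2) * T) := by
      rw [Real.exp_add]
      exact le_trans h8 (mul_le_mul_of_nonneg_left h17 (Real.exp_pos _).le)
    have h22 : nm ((⇑(D4 (oc σ a)))^[m] (PP ℂ Lz N0 p)) ≤
        Real.exp (Real.log (9 + 3 * A) * T + vt κ N0 x * (T * Real.log T)) *
          Real.exp (vs κ N0 * T * Real.log T + (1 + (N0 : ℝ) ^ 2) * T) :=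
      le_trans h7 (mul_le_mul h9 h21 (nm_nonneg _) (Real.exp_pos _).le)
    calc (M1 : ℝ) ^ (3 * T) *
          ‖MvPolynomial.eval (⇑σ ∘ v) ((⇑(D4 (oc σ a)))^[m] (PP ℂ Lz N0 p))‖
        ≤ Real.exp (3 * T * Real.log M1) *
          ((Real.exp (Real.log (9 + 3 * A) * T + vt κ N0 x * (T * Real.log T)) *
          Real.exp (vs κ N0 * T * Real.log T + (1 + (N0 : ℝ) ^ 2) * T)) *
            Real.exp (3 * T * Real.log M2)) := by
          rw [e1]
          refine mul_le_mul_of_nonneg_left (le_trans h5 ?_) (Real.exp_pos _).le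
          rw [← e2]
          exact mul_le_mul h22 h6 (by positivity) (by positivity)
      _ = Real.exp ((vs κ N0 + vt κ N0 x) * (T * Real.log T) + C * T) := by
          rw [← Real.exp_add, ← Real.exp_add, ← Real.exp_add, hC]
          congr 1
          ring
  have hli := liouville K _ hint hne _ hbd ι
  rw [hNn, hιξ, e1] at hli
  have hfin : Real.exp (-((κ : ℝ) - 1) * ((vs κ N0 + vt κ N0 x) * (T * Real.log T) + C * T)) ≤
      Real.exp (3 * T * Real.log M1 + -(1 / 4) * T * Real.log T) := by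
    rw [Real.exp_add]
    exact le_trans hli (mul_le_mul_of_nonneg_left hval (Real.exp_pos _).le)
  rw [Real.exp_le_exp] at hfin
  have hTL : 0 ≤ (T : ℝ) * Real.log T := by positivity
  have hCM : 3 * (T : ℝ) * Real.log M1 ≤ C * T := by
    have h5 : 3 * Real.log M1 ≤ C := by
      rw [hC]
      have : 0 ≤ (N0 : ℝ) ^ 2 := by positivity
      linarith
    nlinarith
  have hk2 : (κ : ℝ) * (vs κ N0 + vt κ N0 x) * (T * Real.log T) ≤ 1 / 8 * (T * Real.log T) :=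
    mul_le_mul_of_nonneg_right hk hTL
  have hsum0 : 0 ≤ (vs κ N0 + vt κ N0 x) * (T * Real.log T) := by positivity
  have hlast : (T : ℝ) * Real.log T ≤ (8 * κ * C) * T := by
    nlinarith
  have hlt : (8 * κ * C) * T < Real.log T * T := mul_lt_mul_of_pos_right hTlog hTpos
  linarith

end Pool.Agent.ZCM
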