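import Pool.Agent.ZCM.Defs
import Pool.Agent.Lib.ANT.SW

/-! # J7: half of the primes are inert (Mertens form) -/

namespace Pool.Agent.ZCM

open Finset in
/-- the prime number theorem in a class, upper bound -/
lemma DensChi_theta (q : ℕ) (hq : 0 < q) : ∃ C : ℝ, 0 < C ∧ ∀ a y : ℕ, a.Coprime q → 3 ≤ y →
    ∑ p ∈ (Icc 1 y).filter (fun p : ℕ => p.Prime ∧ p % q = a % q), Real.log p ≤
      (y:ℝ) / q.totient + C * y / Real.log y ^ 2 := by
  obtain ⟨C, hC, h⟩ := Pool.Agent.ANT.theta_ap 2 (ε := 1) one_pos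
  have : NeZero q := ⟨hq.ne'⟩
  refine ⟨C * q, by positivity, fun a y ha hy => ?_⟩
  have h1 := h q (a : ZMod q) ((ZMod.isUnit_iff_coprime a q).2 ha) y (by exact_mod_cast hy)
  rw [Nat.floor_natCast, Real.rpow_one] at h1
  have e : ∑ p ∈ (Icc 1 y).filter (fun p : ℕ => p.Prime ∧ p % q = a % q), Real.log p =
      ∑ p ∈ (Icc 1 y).filter (fun p : ℕ => p.Prime ∧ (p : ZMod q) = a), Real.log p := by
    refine Finset.sum_congr ?_ fun _ _ => rfl
    refine Finset.filter_congr fun p _ => ?_
    rw [ZMod.natCast_eq_natCast_iff]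
    rfl
  rw [e]
  have := (abs_le.mp h1).2
  linarith

/-- the character is odd -/
lemma DensChi_neg {D : ℤ} (hD : D < 0) {b : ℕ} (hb : Odd b) :
    jacobiSym D (b * (4 * D.natAbs - 1)) = - jacobiSym D b := by
  have hD1 : 1 ≤ D.natAbs := by omega
  set m := 4 * D.natAbs - 1 with hm
  have hm3 : m % 4 = 3 := by omega
  have hmodd : Odd m := Nat.odd_iff.mpr (by omega)
  have hm1 : 1 < m := by omega
  have : NeZero m := ⟨by omega⟩
  have : NeZero b := ⟨by rintro rfl; exact absurd hb (by decide)⟩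
  have hDe : D = (-1) * (D.natAbs : ℤ) := by omega
  have h1 : jacobiSym (-1) m = -1 := by
    rw [jacobiSym.at_neg_one hmodd]
    exact ZMod.χ₄_nat_three_mod_four hm3
  have h2 : jacobiSym 2 m ^ 2 = 1 := by
    refine jacobiSym.sq_one ?_
    have : Nat.Coprime 2 m := (Nat.coprime_two_left).mpr hmodd
    exact_mod_cast this
  have h3 : jacobiSym (4 * (D.natAbs : ℤ)) m = 1 := by
    have e : (4 * (D.natAbs : ℤ)) % (m : ℤ) = 1 := by
      have e1 : (4 * (D.natAbs : ℤ)) = 1 + (m : ℤ) * 1 := by omega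
      rw [e1, Int.add_mul_emod_self_left]
      exact Int.emod_eq_of_lt (by norm_num) (by exact_mod_cast hm1)
    rw [jacobiSym.mod_left, e, jacobiSym.one_left]
  have h4 : jacobiSym (D.natAbs : ℤ) m = 1 := by
    rw [jacobiSym.mul_left, show (4 : ℤ) = 2 * 2 by norm_num, jacobiSym.mul_left, ← sq, h2,
      one_mul] at h3
    exact h3
  have h5 : jacobiSym D m = -1 := by
    rw [hDe, jacobiSym.mul_left]
    rw [h1, h4]
    norm_num
  rw [jacobiSym.mul_right, h5]
  ring

open Finset in
/-- at most half of the classes -/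
lemma DensChi_card {D : ℤ} (hD : D < 0) :
    2 * ((range (4 * D.natAbs)).filter
      (fun a => a.Coprime (4 * D.natAbs) ∧ jacobiSym D a = 1)).card ≤
      (4 * D.natAbs).totient := by
  have hD1 : 1 ≤ D.natAbs := by omega
  set q := 4 * D.natAbs with hq
  set G := (range q).filter (fun a => a.Coprime q ∧ jacobiSym D a = 1) with hG
  set G' := (range q).filter (fun a => a.Coprime q ∧ jacobiSym D a = -1) with hG'
  have hodd : ∀ a : ℕ, a.Coprime q → Odd a := by
    intro a ha
    have h2 : a.Coprime 2 := Nat.Coprime.coprime_dvd_right (Dvd.intro (2 * D.natAbs) (by rw [hq]; ring)) ha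
    exact Nat.coprime_two_right.mp h2
  have hle : G.card ≤ G'.card := by
    refine Finset.card_le_card_of_injOn (fun a => q - a) ?_ ?_
    · intro a ha
      obtain ⟨h1, h2, h3⟩ := Finset.mem_filter.mp (Finset.mem_coe.mp ha)
      rw [Finset.mem_range] at h1
      have hao := hodd a h2
      have ha0 : 0 < a := hao.pos
      refine Finset.mem_coe.mpr (Finset.mem_filter.mpr
        ⟨Finset.mem_range.mpr (by show q - a < q; omega), ?_, ?_⟩)
      · exact (Nat.coprime_self_sub_left h1.le).mpr h2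
      · have hq1 : q - 1 = 4 * D.natAbs - 1 := by rw [hq]
        have h4 : (q - a) % q = (a * (q - 1)) % q := by
          have e : a * (q - 1) = (q - a) + q * (a - 1) := by
            obtain ⟨b, rfl⟩ : ∃ b, a = b + 1 := ⟨a - 1, by omega⟩
            obtain ⟨c, hc⟩ : ∃ c, q = b + 1 + c := ⟨q - (b + 1), by omega⟩
            rw [hc]
            have e1 : b + 1 + c - 1 = b + c := by omega
            have e2 : b + 1 + c - (b + 1) = c := by omega
            have e3 : b + 1 - 1 = b := by omega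
            rw [e1, e2, e3]
            ring
          rw [e, Nat.add_mul_mod_self_left]
        have ho1 : Odd (q - a) := by
          rw [Nat.odd_iff] at hao ⊢
          omega
        have ho2 : Odd (a * (q - 1)) := by
          refine hao.mul ?_
          rw [Nat.odd_iff]
          omega
        show jacobiSym D (q - a) = -1
        rw [jacobiSym.mod_right D ho1, ← hq, h4, hq, ← jacobiSym.mod_right D (by rw [← hq]; exact ho2),
          DensChi_neg hD hao, h3]
    · intro a ha b hb hab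
      have h1 := Finset.mem_range.mp (Finset.mem_filter.mp (Finset.mem_coe.mp ha)).1
      have h2 := Finset.mem_range.mp (Finset.mem_filter.mp (Finset.mem_coe.mp hb)).1
      simp only at hab
      omega
  have hdisj : Disjoint G G' := by
    rw [Finset.disjoint_left]
    intro a ha ha'
    have h1 := (Finset.mem_filter.mp ha).2.2
    have h2 := (Finset.mem_filter.mp ha').2.2
    rw [h1] at h2
    norm_num at h2
  have hsub : G ∪ G' ⊆ (range q).filter (fun a => q.Coprime a) := by
    intro a ha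
    rcases Finset.mem_union.mp ha with h | h
    · exact Finset.mem_filter.mpr ⟨(Finset.mem_filter.mp h).1, (Finset.mem_filter.mp h).2.1.symm⟩
    · exact Finset.mem_filter.mpr ⟨(Finset.mem_filter.mp h).1, (Finset.mem_filter.mp h).2.1.symm⟩
  have h1 := Finset.card_le_card hsub
  rw [Finset.card_union_of_disjoint hdisj, ← Nat.totient_eq_card_coprime] at h1
  omega

open Finset in
/-- partial summation -/
lemma DensChi_abel (f : ℕ → ℝ) (hf : ∀ k, 0 ≤ f k) (C : ℝ) (hC : 0 ≤ C)
    (h : ∀ y : ℕ, 3 ≤ y → ∑ k ∈ Icc 1 y, f k ≤ (1 / 2) * y + C * y / Real.log y ^ 2) :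
    ∃ C' : ℝ, ∀ N : ℕ, 1 ≤ N → ∑ k ∈ Icc 1 N, f k / k ≤ (1 / 2) * Real.log N + C' := by
  set S : ℕ → ℝ := fun n => ∑ k ∈ Icc 1 n, f k with hS
  set T : ℕ → ℝ := fun n => ∑ k ∈ Icc 1 n, f k / k with hT
  have hSs : ∀ n, S (n + 1) = S n + f (n + 1) := fun n => by
    simp only [hS]
    rw [Finset.sum_Icc_succ_top (by omega)]
  have hTs : ∀ n, T (n + 1) = T n + f (n + 1) / ((n + 1 : ℕ) : ℝ) := fun n => by
    simp only [hT]
    rw [Finset.sum_Icc_succ_top (by omega)]
  have hS0 : ∀ n, 0 ≤ S n := fun n => Finset.sum_nonneg fun k _ => hf k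
  have hlog3 : (1:ℝ) ≤ Real.log 3 := by
    rw [Real.le_log_iff_exp_le (by norm_num)]
    exact (Real.exp_one_lt_d9.trans (by norm_num)).le
  have hmain : ∀ N : ℕ, 3 ≤ N → T N - S N / ((N:ℝ) + 1) ≤
      T 3 + (1 / 2) * (Real.log N - Real.log 3) + C * (1 / Real.log 3 - 1 / Real.log N) := by
    intro N hN
    induction N, hN using Nat.le_induction with
    | base =>
      have : 0 ≤ S 3 / (((3:ℕ):ℝ) + 1) := div_nonneg (hS0 3) (by norm_num)
      push_cast at this ⊢
      linarith
    | succ N hN ih =>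
      have hNR : (3:ℝ) ≤ N := by exact_mod_cast hN
      have hN0 : (0:ℝ) < N := by linarith
      have hlN : 1 ≤ Real.log N := hlog3.trans (Real.log_le_log (by norm_num) hNR)
      have hlN1 : Real.log N ≤ Real.log ((N:ℝ) + 1) := Real.log_le_log hN0 (by linarith)
      have hd : 1 / ((N:ℝ) + 1) ≤ Real.log ((N:ℝ) + 1) - Real.log N := by
        have h1 := Real.one_sub_inv_le_log_of_pos (show (0:ℝ) < ((N:ℝ) + 1) / N by positivity)
        rw [Real.log_div (by linarith) hN0.ne'] at h1
        have e : 1 - (((N:ℝ) + 1) / N)⁻¹ = 1 / ((N:ℝ) + 1) := by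
          field_simp
          ring
        rw [e] at h1
        exact h1
      have hstep : T (N + 1) - S (N + 1) / (((N + 1 : ℕ):ℝ) + 1) =
          T N - S N / ((N:ℝ) + 1) + S (N + 1) / (((N:ℝ) + 1) * ((N:ℝ) + 2)) := by
        rw [hTs, hSs]
        push_cast
        field_simp
        ring
      have hSN := h (N + 1) (by omega)
      have hb : S (N + 1) / (((N:ℝ) + 1) * ((N:ℝ) + 2)) ≤
          (1 / 2) * (Real.log ((N:ℝ) + 1) - Real.log N) +
          C * (1 / Real.log N - 1 / Real.log ((N:ℝ) + 1)) := by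
        have hl0 : 0 < Real.log N := by linarith
        have hl1 : 0 < Real.log ((N:ℝ) + 1) := by linarith
        have e1 : 1 / Real.log N - 1 / Real.log ((N:ℝ) + 1) =
            (Real.log ((N:ℝ) + 1) - Real.log N) / (Real.log N * Real.log ((N:ℝ) + 1)) := by
          field_simp
        have e2 : 1 / ((N:ℝ) + 1) / Real.log ((N:ℝ) + 1) ^ 2 ≤
            (Real.log ((N:ℝ) + 1) - Real.log N) / (Real.log N * Real.log ((N:ℝ) + 1)) := by
          refine div_le_div₀ (by linarith) hd (by positivity) ?_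
          rw [sq]
          exact mul_le_mul_of_nonneg_right hlN1 hl1.le
        have e3 : 1 / ((N:ℝ) + 2) ≤ 1 / ((N:ℝ) + 1) :=
          one_div_le_one_div_of_le (by linarith) (by linarith)
        push_cast at hSN
        have e4 : S (N + 1) / (((N:ℝ) + 1) * ((N:ℝ) + 2)) ≤
            (1 / 2) * (1 / ((N:ℝ) + 2)) + C * (1 / ((N:ℝ) + 2) / Real.log ((N:ℝ) + 1) ^ 2) := by
          rw [div_le_iff₀ (by positivity)]
          refine hSN.trans (le_of_eq ?_)
          field_simp
        have e5 : 1 / ((N:ℝ) + 2) / Real.log ((N:ℝ) + 1) ^ 2 ≤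
            1 / ((N:ℝ) + 1) / Real.log ((N:ℝ) + 1) ^ 2 :=
          div_le_div_of_nonneg_right e3 (by positivity)
        rw [e1]
        have e6 := mul_le_mul_of_nonneg_left (e5.trans e2) hC
        linarith
      rw [hstep]
      push_cast
      linarith
  refine ⟨T 3 + C + (1 / 2) + C + ∑ k ∈ Icc 1 3, f k, fun N hN => ?_⟩
  have hfs : 0 ≤ ∑ k ∈ Icc 1 3, f k := Finset.sum_nonneg fun k _ => hf k
  have hT3 : 0 ≤ T 3 := Finset.sum_nonneg fun k _ => div_nonneg (hf k) (Nat.cast_nonneg _)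
  rcases lt_or_ge N 3 with h3 | h3
  · have h1 : T N ≤ T 3 := by
      refine Finset.sum_le_sum_of_subset_of_nonneg (Finset.Icc_subset_Icc_right h3.le) ?_
      exact fun k _ _ => div_nonneg (hf k) (Nat.cast_nonneg _)
    have h2 : 0 ≤ Real.log N := Real.log_natCast_nonneg N
    show T N ≤ _
    linarith
  · have h1 := hmain N h3
    have hNR : (3:ℝ) ≤ N := by exact_mod_cast h3
    have hlN : 1 ≤ Real.log N := hlog3.trans (Real.log_le_log (by norm_num) hNR)
    have h2 : S N / ((N:ℝ) + 1) ≤ 1 / 2 + C := by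
      rw [div_le_iff₀ (by linarith)]
      refine (h N h3).trans ?_
      have h4 : C * N / Real.log N ^ 2 ≤ C * N :=
        div_le_self (by positivity) (one_le_pow₀ hlN)
      nlinarith
    have h5 : 1 / Real.log 3 - 1 / Real.log N ≤ 1 := by
      have h6 : 1 / Real.log 3 ≤ 1 := by
        rw [div_le_one (by linarith)]; exact hlog3
      have h7 : 0 ≤ 1 / Real.log N := by positivity
      linarith
    have h6 := mul_le_mul_of_nonneg_left h5 hC
    show T N ≤ _
    linarith

open Classical in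
theorem dens_chi (Δ0 : ℤ) (hΔ : Δ0 < 0) (M : ℕ) (hM : 0 < M) :
    ∃ C : ℝ, ∀ N : ℕ, 1 ≤ N →
      ∑ p ∈ (Finset.range (N + 1)).filter (fun p => p.Prime ∧
          p ∉ {p : ℕ | p.Prime ∧ p ≠ 2 ∧ ¬ p ∣ M ∧ jacobiSym Δ0 p = -1}), Real.log p / p
        ≤ (1 / 2) * Real.log N + C := by
  have hD1 : 1 ≤ Δ0.natAbs := by omega
  set q := 4 * Δ0.natAbs with hq
  have hq0 : 0 < q := by omega
  obtain ⟨C, hC, hθ⟩ := DensChi_theta q hq0
  set G := (Finset.range q).filter (fun a => a.Coprime q ∧ jacobiSym Δ0 a = 1) with hG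
  have hGc : 2 * G.card ≤ q.totient := DensChi_card hΔ
  have hφ : 0 < q.totient := Nat.totient_pos.mpr hq0
  have hφR : (0:ℝ) < q.totient := by exact_mod_cast hφ
  set f : ℕ → ℝ := fun p => if p.Prime ∧ p ≠ 2 ∧ jacobiSym Δ0 p = 1 then Real.log p else 0 with hf
  have hf0 : ∀ k, 0 ≤ f k := by
    intro k
    simp only [hf]
    split_ifs
    · exact Real.log_natCast_nonneg k
    · exact le_refl _
  have hSb : ∀ y : ℕ, 3 ≤ y → ∑ k ∈ Finset.Icc 1 y, f k ≤
      (1 / 2) * y + (C * G.card) * y / Real.log y ^ 2 := by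
    intro y hy
    have h1 : ∑ k ∈ Finset.Icc 1 y, f k ≤ ∑ a ∈ G,
        ∑ p ∈ (Finset.Icc 1 y).filter (fun p : ℕ => p.Prime ∧ p % q = a % q), Real.log p := by
      simp only [hf]
      rw [← Finset.sum_filter]
      have hmaps : ∀ p ∈ (Finset.Icc 1 y).filter
          (fun p : ℕ => p.Prime ∧ p ≠ 2 ∧ jacobiSym Δ0 p = 1), p % q ∈ G := by
        intro p hp
        obtain ⟨hp1, hp2, hp3, hp4⟩ := Finset.mem_filter.mp hp
        have hpo : Odd p := hp2.odd_of_ne_two hp3
        have hcop : p.Coprime q := by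
          have h2 : Int.gcd Δ0 p = 1 := by
            by_contra hne
            have : NeZero p := ⟨hp2.ne_zero⟩
            have := (jacobiSym.eq_zero_iff_not_coprime (a := Δ0) (b := p)).mpr hne
            rw [this] at hp4
            norm_num at hp4
          have h3 : Nat.Coprime p Δ0.natAbs := by
            have : Nat.Coprime Δ0.natAbs p := by
              simpa [Int.gcd, Nat.Coprime] using h2
            exact this.symm
          have h4 : Nat.Coprime p 4 := by
            have : Nat.Coprime p 2 := Nat.coprime_two_right.mpr hpo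
            exact (this.pow_right 2 : Nat.Coprime p (2 ^ 2))
          exact Nat.Coprime.mul_right h4 h3
        refine Finset.mem_filter.mpr ⟨Finset.mem_range.mpr (Nat.mod_lt _ hq0), ?_, ?_⟩
        · have : Nat.gcd (p % q) q = Nat.gcd p q := (Nat.mod_modEq p q).gcd_eq
          unfold Nat.Coprime
          rw [this]
          exact hcop
        · rw [hq, ← jacobiSym.mod_right Δ0 hpo]
          exact hp4
      rw [← Finset.sum_fiberwise_of_maps_to hmaps]
      refine Finset.sum_le_sum fun a ha => ?_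
      refine Finset.sum_le_sum_of_subset_of_nonneg ?_ fun p _ _ => Real.log_natCast_nonneg p
      intro p hp
      obtain ⟨hp1, hp2⟩ := Finset.mem_filter.mp hp
      obtain ⟨hp3, hp4, _, _⟩ := Finset.mem_filter.mp hp1
      refine Finset.mem_filter.mpr ⟨hp3, hp4, ?_⟩
      rw [← hp2, Nat.mod_mod]
    have h2 : ∑ a ∈ G, ∑ p ∈ (Finset.Icc 1 y).filter
        (fun p : ℕ => p.Prime ∧ p % q = a % q), Real.log p ≤
        ∑ _a ∈ G, ((y:ℝ) / q.totient + C * y / Real.log y ^ 2) :=
      Finset.sum_le_sum fun a ha => hθ a y (Finset.mem_filter.mp ha).2.1 hy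
    refine h1.trans (h2.trans ?_)
    rw [Finset.sum_const, nsmul_eq_mul, mul_add]
    have h3 : (G.card : ℝ) * ((y:ℝ) / q.totient) ≤ (1 / 2) * y := by
      have h4 : (2:ℝ) * G.card ≤ q.totient := by exact_mod_cast hGc
      rw [← mul_div_assoc, div_le_iff₀ hφR]
      have hy0 : (0:ℝ) ≤ y := Nat.cast_nonneg _
      nlinarith
    have h5 : (G.card : ℝ) * (C * y / Real.log y ^ 2) = (C * G.card) * y / Real.log y ^ 2 := by
      ring
    rw [h5]
    linarith
  obtain ⟨C', hC'⟩ := DensChi_abel f hf0 (C * G.card) (by positivity) hSb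
  set E := (2 * M * Δ0.natAbs).primeFactors with hE
  have hE0 : 2 * M * Δ0.natAbs ≠ 0 := by positivity
  refine ⟨C' + ∑ p ∈ E, Real.log p / p, fun N hN => ?_⟩
  have hnn : ∀ p : ℕ, 0 ≤ Real.log p / p := fun p =>
    div_nonneg (Real.log_natCast_nonneg p) (Nat.cast_nonneg p)
  have hsub : (Finset.range (N + 1)).filter (fun p => p.Prime ∧
      p ∉ {p : ℕ | p.Prime ∧ p ≠ 2 ∧ ¬ p ∣ M ∧ jacobiSym Δ0 p = -1}) ⊆
      (Finset.Icc 1 N).filter (fun p => p.Prime ∧ p ≠ 2 ∧ jacobiSym Δ0 p = 1) ∪ E := by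
    intro p hp
    obtain ⟨h1, h2, h3⟩ := Finset.mem_filter.mp hp
    rw [Finset.mem_range] at h1
    rw [Finset.mem_union]
    by_cases hd : p ∣ 2 * M * Δ0.natAbs
    · exact Or.inr (Nat.mem_primeFactors.mpr ⟨h2, hd, hE0⟩)
    · left
      have hd2 : p ≠ 2 := by
        rintro rfl
        exact hd (Dvd.dvd.mul_right (Dvd.intro _ rfl) _)
      have hdM : ¬ p ∣ M := fun h => hd ((h.mul_left 2).mul_right _)
      have hdD : ¬ p ∣ Δ0.natAbs := fun h => hd (h.mul_left _)
      have hcop : Int.gcd Δ0 p = 1 := by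
        have : Nat.Coprime Δ0.natAbs p := ((Nat.Prime.coprime_iff_not_dvd h2).mpr hdD).symm
        simpa [Int.gcd, Nat.Coprime] using this
      refine Finset.mem_filter.mpr ⟨Finset.mem_Icc.mpr ⟨h2.pos, by omega⟩, h2, hd2, ?_⟩
      rcases jacobiSym.eq_one_or_neg_one hcop with h | h
      · exact h
      · exact absurd ⟨h2, hd2, hdM, h⟩ h3
  have hsum : ∑ p ∈ (Finset.range (N + 1)).filter (fun p => p.Prime ∧
      p ∉ {p : ℕ | p.Prime ∧ p ≠ 2 ∧ ¬ p ∣ M ∧ jacobiSym Δ0 p = -1}), Real.log p / p ≤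
      ∑ p ∈ (Finset.Icc 1 N).filter (fun p => p.Prime ∧ p ≠ 2 ∧ jacobiSym Δ0 p = 1) ∪ E,
        Real.log p / p :=
    Finset.sum_le_sum_of_subset_of_nonneg hsub fun p _ _ => hnn p
  refine hsum.trans ?_
  have hun := Finset.sum_union_inter (s₁ := (Finset.Icc 1 N).filter
    (fun p => p.Prime ∧ p ≠ 2 ∧ jacobiSym Δ0 p = 1)) (s₂ := E) (f := fun p : ℕ => Real.log p / p)
  have hin : 0 ≤ ∑ p ∈ (Finset.Icc 1 N).filter
    (fun p => p.Prime ∧ p ≠ 2 ∧ jacobiSym Δ0 p = 1) ∩ E, Real.log p / p :=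
    Finset.sum_nonneg fun p _ => hnn p
  have he : ∑ p ∈ (Finset.Icc 1 N).filter (fun p => p.Prime ∧ p ≠ 2 ∧ jacobiSym Δ0 p = 1),
      Real.log p / p = ∑ k ∈ Finset.Icc 1 N, f k / k := by
    rw [Finset.sum_filter]
    refine Finset.sum_congr rfl fun p _ => ?_
    simp only [hf]
    split_ifs
    · rfl
    · rw [zero_div]
  have := hC' N hN
  rw [← he] at this
  linarith

end Pool.Agent.ZCM
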