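import Pool.Agent.ZCM.Uniq

/-! # J2: realisation in Laurent series -/

namespace Pool.Agent.ZCM
open PowerSeries

theorem Laurent_single_mul_coeff {K : Type*} [Field K] (m : ℤ) (c : K) (f : LaurentSeries K) (n : ℤ) :
    ((HahnSeries.single m c : LaurentSeries K) * f).coeff n = c * f.coeff (n - m) := by
  have h := HahnSeries.coeff_single_mul_add (r := c) (x := f) (a := n - m) (b := m)
  rw [sub_add_cancel] at h
  exact h

theorem Laurent_D_single_mul {K : Type*} [Field K] (m : ℤ) (f : LaurentSeries K) :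
    LaurentSeries.derivative K ((HahnSeries.single m 1 : LaurentSeries K) * f) =
      (HahnSeries.single (m - 1) (m : K) : LaurentSeries K) * f +
      (HahnSeries.single m 1 : LaurentSeries K) * LaurentSeries.derivative K f := by
  ext n
  rw [HahnSeries.coeff_add, Laurent_single_mul_coeff, Laurent_single_mul_coeff,
    LaurentSeries.derivative_apply, LaurentSeries.derivative_apply,
    LaurentSeries.hasseDeriv_coeff, LaurentSeries.hasseDeriv_coeff, Laurent_single_mul_coeff]
  have e1 : n + ((1 : ℕ) : ℤ) - m = n - m + ((1 : ℕ) : ℤ) := by ring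
  have e2 : n - (m - 1) = n - m + ((1 : ℕ) : ℤ) := by push_cast; ring
  rw [e1, e2, Ring.choose_one_right, Ring.choose_one_right]
  simp only [zsmul_eq_mul, one_mul]
  push_cast
  ring

theorem Laurent_D_coe {K : Type*} [Field K] (f : K⟦X⟧) :
    LaurentSeries.derivative K (f : LaurentSeries K) =
      ((d⁄dX K f : K⟦X⟧) : LaurentSeries K) := by
  ext n
  rw [LaurentSeries.derivative_apply, LaurentSeries.hasseDeriv_coeff, Ring.choose_one_right,
    PowerSeries.coeff_coe, PowerSeries.coeff_coe]
  by_cases hn : n < 0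
  · rw [if_pos hn]
    by_cases hn' : n + ((1 : ℕ) : ℤ) < 0
    · rw [if_pos hn', smul_zero]
    · have : n + ((1 : ℕ) : ℤ) = 0 := by push_cast at hn' ⊢; omega
      rw [this, zero_smul]
  · rw [if_neg hn, if_neg (by push_cast; omega)]
    obtain ⟨k, rfl⟩ := Int.eq_ofNat_of_zero_le (not_lt.mp hn)
    have e1 : ((k : ℤ) + ((1 : ℕ) : ℤ)).natAbs = k + 1 := by omega
    have e2 : ((k : ℤ)).natAbs = k := by omega
    rw [e1, e2, PowerSeries.coeff_derivative]
    simp only [zsmul_eq_mul]
    push_cast
    ring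

theorem Laurent_eq {K : Type*} [Field K] (f : LaurentSeries K) :
    ∃ (m : ℤ) (F : K⟦X⟧), f = (HahnSeries.single m 1 : LaurentSeries K) * (F : LaurentSeries K) :=
  ⟨f.order, f.powerSeriesPart, (LaurentSeries.single_order_mul_powerSeriesPart f).symm⟩

theorem Laurent_leibniz {K : Type*} [Field K] (f g : LaurentSeries K) :
    LaurentSeries.derivative K (f * g) =
      f • LaurentSeries.derivative K g + g • LaurentSeries.derivative K f := by
  obtain ⟨m, F, rfl⟩ := Laurent_eq f
  obtain ⟨k, G, rfl⟩ := Laurent_eq g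
  have h1 : (HahnSeries.single m 1 : LaurentSeries K) * (F : LaurentSeries K) *
      ((HahnSeries.single k 1 : LaurentSeries K) * (G : LaurentSeries K)) =
      (HahnSeries.single (m + k) 1 : LaurentSeries K) * ((F * G : K⟦X⟧) : LaurentSeries K) := by
    rw [PowerSeries.coe_mul, show (HahnSeries.single (m + k) (1 : K) : LaurentSeries K) =
      HahnSeries.single m 1 * HahnSeries.single k 1 by
        rw [HahnSeries.single_mul_single, one_mul]]
    ring
  rw [h1, Laurent_D_single_mul, Laurent_D_single_mul, Laurent_D_single_mul, Laurent_D_coe,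
    Laurent_D_coe, Laurent_D_coe, Derivation.leibniz]
  simp only [smul_eq_mul, PowerSeries.coe_add, PowerSeries.coe_mul]
  have e1 : (HahnSeries.single (m + k - 1) (((m + k : ℤ)) : K) : LaurentSeries K) =
      HahnSeries.single (m - 1) (m : K) * HahnSeries.single k 1 +
      HahnSeries.single m 1 * HahnSeries.single (k - 1) (k : K) := by
    rw [HahnSeries.single_mul_single, HahnSeries.single_mul_single, mul_one, one_mul,
      show m - 1 + k = m + k - 1 by ring, show m + (k - 1) = m + k - 1 by ring,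
      ← HahnSeries.single_add]
    push_cast
    rfl
  have e2 : (HahnSeries.single (m + k) (1 : K) : LaurentSeries K) =
      HahnSeries.single m 1 * HahnSeries.single k 1 := by
    rw [HahnSeries.single_mul_single, one_mul]
  rw [e1, e2]
  ring

theorem Laurent_algebraMap {K : Type*} [Field K] (c : K) :
    ((C c : K⟦X⟧) : LaurentSeries K) = algebraMap K (LaurentSeries K) c := by
  rfl

theorem Laurent_D_algebraMap_mul {K : Type*} [Field K] (c : K) (f : LaurentSeries K) :
    LaurentSeries.derivative K (algebraMap K (LaurentSeries K) c * f) =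
      algebraMap K (LaurentSeries K) c * LaurentSeries.derivative K f := by
  rw [← Laurent_algebraMap, PowerSeries.coe_C, HahnSeries.C_mul_eq_smul,
    HahnSeries.C_mul_eq_smul, map_smul]

/-- `d/dz` on Laurent series is a derivation -/
theorem exists_derivation (K : Type*) [Field K] :
    ∃ D : Derivation K (LaurentSeries K) (LaurentSeries K),
      (∀ f : K⟦X⟧, D (f : LaurentSeries K) = ((d⁄dX K f : K⟦X⟧) : LaurentSeries K)) := by
  have h1 : LaurentSeries.derivative K (1 : LaurentSeries K) = 0 := by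
    have h := Laurent_D_coe (1 : K⟦X⟧)
    rw [PowerSeries.coe_one] at h
    rw [h, Derivation.map_one_eq_zero, PowerSeries.coe_zero]
  refine ⟨{ toFun := fun f => LaurentSeries.derivative K f
            map_add' := fun f g => map_add _ f g
            map_smul' := ?_
            map_one_eq_zero' := h1
            leibniz' := ?_ }, ?_⟩
  · intro c f
    rw [Algebra.smul_def, Laurent_D_algebraMap_mul, ← Laurent_algebraMap, PowerSeries.coe_C,
      HahnSeries.C_mul_eq_smul]
    rfl
  · intro f g
    exact Laurent_leibniz f g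
  · intro f
    exact Laurent_D_coe f

theorem Laurent_X_ne {K : Type*} [Field K] : ((X : K⟦X⟧) : LaurentSeries K) ≠ 0 := by
  rw [PowerSeries.coe_X]
  exact HahnSeries.single_ne_zero one_ne_zero

/-- the basic realisation -/
theorem Laurent_basic {K : Type*} [Field K] [CharZero K] (a b : K)
    (D : Derivation K (LaurentSeries K) (LaurentSeries K))
    (hD : ∀ f : K⟦X⟧, D (f : LaurentSeries K) = ((d⁄dX K f : K⟦X⟧) : LaurentSeries K))
    (x y : LaurentSeries K)
    (hx : ((X : K⟦X⟧) : LaurentSeries K) ^ 2 * x = ((xS a b : K⟦X⟧) : LaurentSeries K))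
    (hy : ((X : K⟦X⟧) : LaurentSeries K) ^ 3 * y = ((yS a b : K⟦X⟧) : LaurentSeries K)) :
    D x = 2 * y ∧ D y = 3 * x ^ 2 + algebraMap K (LaurentSeries K) a ∧
      y ^ 2 = x ^ 3 + algebraMap K (LaurentSeries K) a * x + algebraMap K (LaurentSeries K) b := by
  have hX := Laurent_X_ne (K := K)
  have hDX : D ((X : K⟦X⟧) : LaurentSeries K) = 1 := by
    rw [hD, PowerSeries.derivative_X, PowerSeries.coe_one]
  have r1 := congrArg (fun f : K⟦X⟧ => (f : LaurentSeries K)) (R1 a b)
  have r2 := congrArg (fun f : K⟦X⟧ => (f : LaurentSeries K)) (R2 a b)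
  have r3 := congrArg (fun f : K⟦X⟧ => (f : LaurentSeries K)) (R3 a b)
  have two : (((2 : K⟦X⟧)) : LaurentSeries K) = 2 := by
    exact map_ofNat (HahnSeries.ofPowerSeries ℤ K) 2
  have three : (((3 : K⟦X⟧)) : LaurentSeries K) = 3 := by
    exact map_ofNat (HahnSeries.ofPowerSeries ℤ K) 3
  simp only [PowerSeries.coe_add, PowerSeries.coe_mul, PowerSeries.coe_pow, ← hD, ← hx, ← hy,
    Laurent_algebraMap, two, three] at r1 r2 r3
  generalize ((X : K⟦X⟧) : LaurentSeries K) = Z at *
  generalize algebraMap K (LaurentSeries K) a = a' at *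
  generalize algebraMap K (LaurentSeries K) b = b' at *
  have d2 : D (Z ^ 2 * x) = Z ^ 2 * D x + x * (2 * Z) := by
    rw [Derivation.leibniz, Derivation.leibniz_pow, hDX]
    simp only [smul_eq_mul, nsmul_eq_mul]
    push_cast; ring
  have d3 : D (Z ^ 3 * y) = Z ^ 3 * D y + y * (3 * Z ^ 2) := by
    rw [Derivation.leibniz, Derivation.leibniz_pow, hDX]
    simp only [smul_eq_mul, nsmul_eq_mul]
    push_cast; ring
  rw [d2] at r2
  rw [d3] at r3
  refine ⟨?_, ?_, ?_⟩
  · apply mul_left_cancel₀ (pow_ne_zero 3 hX)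
    linear_combination r2
  · apply mul_left_cancel₀ (pow_ne_zero 4 hX)
    linear_combination r3
  · apply mul_left_cancel₀ (pow_ne_zero 6 hX)
    linear_combination r1

theorem Laurent_transc {K : Type*} [Field K] [CharZero K]
    (D : Derivation K (LaurentSeries K) (LaurentSeries K)) (x : LaurentSeries K)
    (hx : D x ≠ 0) : Transcendental K x := by
  intro halg
  have hsep : (minpoly K x).Separable := (minpoly.irreducible halg.isIntegral).separable
  have hne : Polynomial.aeval x (Polynomial.derivative (minpoly K x)) ≠ 0 :=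
    hsep.aeval_derivative_ne_zero (x := x) (minpoly.aeval K x)
  have h0 := D.map_aeval (minpoly K x) x
  have h1 : Polynomial.aeval x (minpoly K x) = 0 := minpoly.aeval K x
  rw [h1, map_zero, smul_eq_mul] at h0
  rcases mul_eq_zero.mp h0.symm with h0 | h0
  · exact hne h0
  · exact hx h0

/-- `x(z), y(z)` and `x(αz), y(αz)` as Laurent series -/
theorem realise (K : Type*) [Field K] [CharZero K] (a b al : K) (hal : al ≠ 0) :
    ∃ (D : Derivation K (LaurentSeries K) (LaurentSeries K)) (x y xi eta : LaurentSeries K),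
      D x = 2 * y ∧ D y = 3 * x ^ 2 + algebraMap K (LaurentSeries K) a ∧
      y ^ 2 = x ^ 3 + algebraMap K (LaurentSeries K) a * x + algebraMap K (LaurentSeries K) b ∧
      Transcendental K x ∧
      D xi = 2 * algebraMap K (LaurentSeries K) al * eta ∧
      D eta = algebraMap K (LaurentSeries K) al * (3 * xi ^ 2 + algebraMap K (LaurentSeries K) a) ∧
      eta ^ 2 = xi ^ 3 + algebraMap K (LaurentSeries K) a * xi
        + algebraMap K (LaurentSeries K) b ∧
      (((X : K⟦X⟧) : LaurentSeries K) ^ 2 * x = ((xS a b : K⟦X⟧) : LaurentSeries K)) ∧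
      (algebraMap K (LaurentSeries K) al ^ 2 * ((X : K⟦X⟧) : LaurentSeries K) ^ 2 * xi =
        ((rescale al (xS a b) : K⟦X⟧) : LaurentSeries K)) := by
  obtain ⟨D, hD⟩ := exists_derivation K
  have hX := Laurent_X_ne (K := K)
  have hal' : algebraMap K (LaurentSeries K) al ≠ 0 := by
    rw [Ne, _root_.map_eq_zero]; exact hal
  have hdiv : ∀ (m : ℕ) (f : LaurentSeries K), ∃ g : LaurentSeries K,
      ((X : K⟦X⟧) : LaurentSeries K) ^ m * g = f := fun m f =>
    ⟨(((X : K⟦X⟧) : LaurentSeries K) ^ m)⁻¹ * f, mul_inv_cancel_left₀ (pow_ne_zero m hX) f⟩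
  obtain ⟨x, hx⟩ := hdiv 2 ((xS a b : K⟦X⟧) : LaurentSeries K)
  obtain ⟨y, hy⟩ := hdiv 3 ((yS a b : K⟦X⟧) : LaurentSeries K)
  obtain ⟨x1, hx1⟩ := hdiv 2 ((xS (al ^ 4 * a) (al ^ 6 * b) : K⟦X⟧) : LaurentSeries K)
  obtain ⟨y1, hy1⟩ := hdiv 3 ((yS (al ^ 4 * a) (al ^ 6 * b) : K⟦X⟧) : LaurentSeries K)
  obtain ⟨g1, g2, g3⟩ := Laurent_basic a b D hD _ _ hx hy
  obtain ⟨k1, k2, k3⟩ := Laurent_basic (al ^ 4 * a) (al ^ 6 * b) D hD _ _ hx1 hy1
  obtain ⟨xi, hxi⟩ : ∃ xi, algebraMap K (LaurentSeries K) al ^ 2 * xi = x1 :=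
    ⟨(algebraMap K (LaurentSeries K) al ^ 2)⁻¹ * x1, mul_inv_cancel_left₀ (pow_ne_zero 2 hal') x1⟩
  obtain ⟨eta, heta⟩ : ∃ eta, algebraMap K (LaurentSeries K) al ^ 3 * eta = y1 :=
    ⟨(algebraMap K (LaurentSeries K) al ^ 3)⁻¹ * y1, mul_inv_cancel_left₀ (pow_ne_zero 3 hal') y1⟩
  have hDal : D (algebraMap K (LaurentSeries K) al) = 0 := D.map_algebraMap al
  have hyne : y ≠ 0 := by
    rintro rfl
    rw [mul_zero] at hy
    have h4 : ((yS a b : K⟦X⟧) : LaurentSeries K).coeff ((0 : ℕ) : ℤ) = coeff 0 (yS a b) :=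
      LaurentSeries.coeff_coe_powerSeries _ _
    rw [← hy, HahnSeries.coeff_zero, coeff_zero_eq_constantCoeff_apply, const_yS] at h4
    have : (1 : K) = 0 := by linear_combination h4
    exact one_ne_zero this
  refine ⟨D, x, y, xi, eta, g1, g2, g3, ?_, ?_, ?_, ?_, hx, ?_⟩
  · apply Laurent_transc D x
    rw [g1]
    have : CharZero (LaurentSeries K) :=
      charZero_of_injective_algebraMap (algebraMap K (LaurentSeries K)).injective
    exact mul_ne_zero two_ne_zero hyne
  · have e : D (algebraMap K (LaurentSeries K) al ^ 2 * xi) =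
        algebraMap K (LaurentSeries K) al ^ 2 * D xi := by
      rw [Derivation.leibniz, Derivation.leibniz_pow, hDal]
      simp
    rw [← hxi, ← heta, e] at k1
    apply mul_left_cancel₀ (pow_ne_zero 2 hal')
    linear_combination k1
  · have e : D (algebraMap K (LaurentSeries K) al ^ 3 * eta) =
        algebraMap K (LaurentSeries K) al ^ 3 * D eta := by
      rw [Derivation.leibniz, Derivation.leibniz_pow, hDal]
      simp
    rw [← hxi, ← heta, e, map_mul, map_pow] at k2
    apply mul_left_cancel₀ (pow_ne_zero 3 hal')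
    linear_combination k2
  · rw [← hxi, ← heta, map_mul, map_pow, map_mul, map_pow] at k3
    apply mul_left_cancel₀ (pow_ne_zero 6 hal')
    linear_combination k3
  · rw [rescale_xS, ← hx1, ← hxi]
    ring

end Pool.Agent.ZCM
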