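import Mathlib

/-! # J4b: descent of linear systems -/

namespace Pool.Agent.ZCM

/-- a linear system over `K` with a non-zero solution over an extension has one over `K` -/
theorem lin_descent {K F : Type*} [Field K] [Field F] [Algebra K F] {I n : Type*} [Fintype n]
    (M : I → n → K) (v : n → F) (hv : v ≠ 0)
    (h : ∀ i, ∑ j, algebraMap K F (M i j) * v j = 0) :
    ∃ w : n → K, w ≠ 0 ∧ ∀ i, ∑ j, M i j * w j = 0 := by
  obtain ⟨j0, hj0⟩ : ∃ j, v j ≠ 0 := by
    by_contra hc
    push Not at hc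
    exact hv (funext hc)
  obtain ⟨φ, hφ⟩ : ∃ φ : Module.Dual K F, φ (v j0) ≠ 0 := by
    by_contra hc
    push Not at hc
    exact hj0 ((Module.forall_dual_apply_eq_zero_iff K (v j0)).1 hc)
  refine ⟨fun j => φ (v j), fun hw => hφ (congrFun hw j0), fun i => ?_⟩
  have h1 := congrArg φ (h i)
  rw [map_sum, map_zero] at h1
  rw [← h1]
  refine Finset.sum_congr rfl fun j _ => ?_
  rw [← Algebra.smul_def, map_smul, smul_eq_mul]

end Pool.Agent.ZCM
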