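import Pool.Agent.ZCM.Defs

/-! # F1b: naturality of the series; `GS = FS * sS^(3 N0)` (no char 0 needed: pure unfolding) -/

namespace Pool.Agent.ZCM
open PowerSeries

theorem Nat_map_Dtw {R S : Type*} [CommRing R] [CommRing S] (f : R →+* S) (a b : R)
    (g : MvPolynomial (Fin 2) R) :
    MvPolynomial.map f (Dtw a b g) = Dtw (f a) (f b) (MvPolynomial.map f g) := by
  induction g using MvPolynomial.induction_on with
  | C r => simp
  | add p q hp hq => rw [map_add, map_add, hp, hq, map_add, map_add]
  | mul_X p i hp =>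
    rw [Derivation.leibniz, map_mul, Derivation.leibniz, map_add, smul_eq_mul, smul_eq_mul,
      smul_eq_mul, smul_eq_mul, map_mul, map_mul, hp, MvPolynomial.map_X]
    congr 2
    unfold Dtw
    rw [MvPolynomial.mkDerivation_X, MvPolynomial.mkDerivation_X]
    fin_cases i <;> simp

theorem Nat_map_iter {R S : Type*} [CommRing R] [CommRing S] (f : R →+* S) (a b : R) (n : ℕ)
    (g : MvPolynomial (Fin 2) R) :
    MvPolynomial.map f ((⇑(Dtw a b))^[n] g) =
      (⇑(Dtw (f a) (f b)))^[n] (MvPolynomial.map f g) := by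
  induction n generalizing g with
  | zero => rfl
  | succ n ih => rw [Function.iterate_succ_apply, Function.iterate_succ_apply, ih, Nat_map_Dtw]

theorem map_Tn {R S : Type*} [CommRing R] [CommRing S] (f : R →+* S) (a b : R) (n : ℕ) :
    f (Tn a b n) = Tn (f a) (f b) n := by
  unfold Tn
  rw [MvPolynomial.eval_zero, MvPolynomial.eval_zero, ← MvPolynomial.constantCoeff_map,
    Nat_map_iter, MvPolynomial.map_X]

theorem map_Wn {R S : Type*} [CommRing R] [CommRing S] (f : R →+* S) (a b : R) (n : ℕ) :
    f (Wn a b n) = Wn (f a) (f b) n := by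
  unfold Wn
  rw [MvPolynomial.eval_zero, MvPolynomial.eval_zero, ← MvPolynomial.constantCoeff_map,
    Nat_map_iter, MvPolynomial.map_X]

variable {K F : Type*} [Field K] [Field F] (f : K →+* F) (a b : K)

theorem map_tS : PowerSeries.map f (tS a b) = tS (f a) (f b) := by
  ext n
  simp only [tS, coeff_map, coeff_mk, map_div₀, map_natCast, map_Tn]

theorem map_wS : PowerSeries.map f (wS a b) = wS (f a) (f b) := by
  ext n
  simp only [wS, coeff_map, coeff_mk, map_div₀, map_natCast, map_Wn]

theorem map_uS : PowerSeries.map f (uS a b) = uS (f a) (f b) := by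
  ext n
  simp only [uS, coeff_map, coeff_mk, map_div₀, map_natCast, map_Tn]

theorem Nat_map_inv (φ : K⟦X⟧) : PowerSeries.map f φ⁻¹ = (PowerSeries.map f φ)⁻¹ := by
  by_cases h : constantCoeff φ = 0
  · have h' : constantCoeff (PowerSeries.map f φ) = 0 := by
      rw [← coeff_zero_eq_constantCoeff_apply, coeff_map, coeff_zero_eq_constantCoeff_apply, h,
        map_zero]
    rw [PowerSeries.inv_eq_zero.mpr h, PowerSeries.inv_eq_zero.mpr h', map_zero]
  · have h' : constantCoeff (PowerSeries.map f φ) ≠ 0 := by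
      rw [← coeff_zero_eq_constantCoeff_apply, coeff_map, coeff_zero_eq_constantCoeff_apply]
      simpa using h
    rw [PowerSeries.eq_inv_iff_mul_eq_one h', ← map_mul, PowerSeries.inv_mul_cancel _ h, map_one]

theorem map_xS : PowerSeries.map f (xS a b) = xS (f a) (f b) := by
  unfold xS eS
  rw [map_mul, map_pow, Nat_map_inv, map_uS, map_sub, map_sub, map_one, map_mul, map_mul, map_mul,
    map_pow, map_tS, map_wS, PowerSeries.map_C, PowerSeries.map_C]

theorem map_yS : PowerSeries.map f (yS a b) = yS (f a) (f b) := by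
  unfold yS
  rw [map_mul, map_xS, Nat_map_inv, map_uS]

theorem map_zS : PowerSeries.map f (zS a b) = zS (f a) (f b) := by
  ext n
  simp only [zS, coeff_map, coeff_mk, map_div₀, map_natCast, map_neg, map_sub, map_one]
  rw [← coeff_map, map_xS]

theorem Nat_map_sC (n : ℕ) : f (sC a b n) = sC (f a) (f b) n := by
  induction n using Nat.strong_induction_on with
  | _ n ih =>
    cases n with
    | zero => simp [sC]
    | succ n =>
      rw [sC, sC, map_div₀, map_sum, map_add, map_natCast, map_one]
      congr 1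
      refine Finset.sum_congr rfl fun m _ => ?_
      rw [map_mul, ih m m.2, ← coeff_map, map_zS]

theorem map_sS : PowerSeries.map f (sS a b) = sS (f a) (f b) := by
  ext n
  simp only [sS, coeff_map, coeff_mk, Nat_map_sC]

theorem map_FS (L N0 : ℕ) (p : ℕ → ℕ → ℕ → ℤ) :
    PowerSeries.map f (FS a b L N0 p) = FS (f a) (f b) L N0 p := by
  unfold FS
  simp only [map_sum, map_mul, map_pow, PowerSeries.map_C, PowerSeries.map_X, map_xS, map_zS,
    map_intCast]

theorem map_GS (L N0 : ℕ) (p : ℕ → ℕ → ℕ → ℤ) :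
    PowerSeries.map f (GS a b L N0 p) = GS (f a) (f b) L N0 p := by
  unfold GS SS QQ RR
  simp only [map_sum, map_mul, map_pow, PowerSeries.map_C, PowerSeries.map_X, map_xS, map_zS,
    map_sS, map_intCast]

theorem GS_eq (L N0 : ℕ) (p : ℕ → ℕ → ℕ → ℤ) :
    GS a b L N0 p = FS a b L N0 p * sS a b ^ (3 * N0) := by
  unfold GS FS SS QQ RR
  rw [Finset.sum_mul]
  refine Finset.sum_congr rfl fun i _ => ?_
  rw [Finset.sum_mul]
  refine Finset.sum_congr rfl fun j hj => ?_
  rw [Finset.sum_mul]
  refine Finset.sum_congr rfl fun k hk => ?_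
  have hj' := Finset.mem_range.mp hj
  have hk' := Finset.mem_range.mp hk
  have e : sS a b ^ (3 * N0) =
      sS a b ^ (3 * N0 - 2 * j - k) * (sS a b ^ 2) ^ j * sS a b ^ k := by
    rw [← pow_mul, ← pow_add, ← pow_add]
    congr 1
    omega
  rw [e, pow_add X i, mul_pow, mul_pow, mul_pow]
  ring

theorem Nat_const_sS : constantCoeff (sS a b) = 1 := by
  rw [← coeff_zero_eq_constantCoeff_apply, sS, coeff_mk, sC]

/-- if the coefficients below `n` of `FS` vanish, then the `n`-th coefficients agree -/
theorem coeff_GS_eq (L N0 : ℕ) (p : ℕ → ℕ → ℕ → ℤ) (n : ℕ)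
    (h : ∀ k < n, coeff k (FS a b L N0 p) = 0) :
    coeff n (GS a b L N0 p) = coeff n (FS a b L N0 p) := by
  rw [GS_eq, coeff_mul, Finset.sum_eq_single (n, 0)]
  · rw [coeff_zero_eq_constantCoeff_apply, map_pow, Nat_const_sS, one_pow, mul_one]
  · rintro ⟨i, j⟩ hij hne
    rw [Finset.HasAntidiagonal.mem_antidiagonal] at hij
    simp only at hij ⊢
    have : i < n := by
      rcases Nat.lt_or_ge i n with h1 | h1
      · exact h1
      · exfalso
        apply hne
        have h2 : i = n := by omega
        have h3 : j = 0 := by omega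
        rw [h2, h3]
    rw [h i this, zero_mul]
  · intro h1
    exact absurd (Finset.HasAntidiagonal.mem_antidiagonal.mpr (add_zero n)) h1

theorem coeff_GS_zero_iff (L N0 : ℕ) (p : ℕ → ℕ → ℕ → ℤ) (n : ℕ) :
    (∀ k < n, coeff k (GS a b L N0 p) = 0) ↔ (∀ k < n, coeff k (FS a b L N0 p) = 0) := by
  constructor
  · intro h k
    induction k using Nat.strong_induction_on with
    | _ k ih =>
      intro hk
      rw [← coeff_GS_eq a b L N0 p k fun m hm => ih m hm (hm.trans hk)]
      exact h k hk
  · intro h k hk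
    rw [coeff_GS_eq a b L N0 p k fun m hm => h m (hm.trans hk)]
    exact h k hk

end Pool.Agent.ZCM
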