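import Pool.Agent.ZCM.Isog
import Pool.Agent.ZCM.LinDesc
import Pool.Agent.ZCM.Laurent
import Pool.Agent.ZCM.Link
import Pool.Agent.ZCM.Nat

/-! # J4c: descent of the relation to `K` -/

namespace Pool.Agent.ZCM
open Polynomial NumberField

section Descent_aux
open PowerSeries Filter Topology
open scoped NNReal ENNReal

/-- the homogenised value `∑_j P_j x^j X^(2(m-j))` -/
noncomputable def Descent_hom {K : Type*} [Field K] (x : K⟦X⟧) (m : ℕ) (P : ℕ → K) : K⟦X⟧ :=
  ∑ j ∈ Finset.range (m + 1),
    (PowerSeries.C (P j) : K⟦X⟧) * x ^ j * (PowerSeries.X : K⟦X⟧) ^ (2 * (m - j))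

theorem Descent_hom_map {K F : Type*} [Field K] [Field F] (f : K →+* F) (x : K⟦X⟧) (m : ℕ)
    (P : ℕ → K) :
    PowerSeries.map f (Descent_hom x m P) = Descent_hom (PowerSeries.map f x) m (fun j => f (P j)) := by
  unfold Descent_hom
  rw [map_sum]
  refine Finset.sum_congr rfl fun j _ => ?_
  rw [map_mul, map_mul, map_pow, map_pow, PowerSeries.map_C, PowerSeries.map_X]

theorem Descent_hom_eq {K : Type*} [Field K] (x : K⟦X⟧) (m : ℕ) (P : K[X])
    (hP : P.natDegree ≤ m) :
    Descent_hom x m P.coeff =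
      (PowerSeries.X : K⟦X⟧) ^ (2 * (m - P.natDegree)) * Descent_hom x P.natDegree P.coeff := by
  unfold Descent_hom
  rw [Finset.mul_sum]
  rw [← Finset.sum_subset (s₁ := Finset.range (P.natDegree + 1)) (s₂ := Finset.range (m + 1))]
  · refine Finset.sum_congr rfl fun j hj => ?_
    have hj' : j ≤ P.natDegree := by
      have := Finset.mem_range.mp hj
      omega
    have : 2 * (m - j) = 2 * (m - P.natDegree) + 2 * (P.natDegree - j) := by omega
    rw [this, pow_add]
    ring
  · intro j hj
    rw [Finset.mem_range] at hj ⊢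
    omega
  · intro j _ hj
    have hj' : P.natDegree < j := by
      rw [Finset.mem_range] at hj
      omega
    rw [Polynomial.coeff_eq_zero_of_natDegree_lt hj']
    simp

theorem Descent_hom_const {K : Type*} [Field K] (x : K⟦X⟧) (hx : PowerSeries.constantCoeff x = 1)
    (P : K[X]) :
    PowerSeries.constantCoeff (Descent_hom x P.natDegree P.coeff) = P.leadingCoeff := by
  unfold Descent_hom
  rw [map_sum, Finset.sum_range_succ, Finset.sum_eq_zero]
  · simp [hx]
  · intro j hj
    have hj' : j < P.natDegree := Finset.mem_range.mp hj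
    have : 2 * (P.natDegree - j) ≠ 0 := by omega
    simp [hx, this]

theorem Descent_pow_eq {K : Type*} [Field K] {p q : ℕ} {U V : K⟦X⟧}
    (hU : PowerSeries.constantCoeff U ≠ 0) (hV : PowerSeries.constantCoeff V ≠ 0)
    (h : (PowerSeries.X : K⟦X⟧) ^ p * U = PowerSeries.X ^ q * V) : p = q := by
  have key : ∀ (p q : ℕ) (U V : K⟦X⟧), PowerSeries.constantCoeff U ≠ 0 →
      (PowerSeries.X : K⟦X⟧) ^ p * U = PowerSeries.X ^ q * V → ¬ p < q := by
    intro p q U V hU h hpq
    obtain ⟨r, rfl⟩ := Nat.exists_eq_add_of_lt hpq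
    have h1 : (PowerSeries.X : K⟦X⟧) ^ p * U = PowerSeries.X ^ p * (PowerSeries.X ^ (r + 1) * V) := by
      rw [h]
      ring
    have h2 := mul_left_cancel₀ (pow_ne_zero p PowerSeries.X_ne_zero) h1
    apply hU
    rw [h2]
    simp
  have h1 := key p q U V hU h
  have h2 := key q p V U hV h.symm
  omega

theorem Descent_Ent_rescale (c : ℂ) {f : ℂ⟦X⟧} (hf : Ent f) : Ent (rescale c f) := by
  intro r
  rw [nr_rescale]
  exact hf _

theorem Descent_ev_rescale (c : ℂ) (f : ℂ⟦X⟧) (z : ℂ) : ev (rescale c f) z = ev f (c * z) := by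
  unfold ev
  refine tsum_congr fun n => ?_
  rw [coeff_rescale, mul_pow]
  ring

theorem Descent_near (L : PeriodPair) (c : ℂ) (hc : c ≠ 0) :
    ∀ᶠ z in 𝓝[≠] (0 : ℂ), c * z ∉ L.lattice := by
  have h1 : (↑L.lattice \ {(0:ℂ)})ᶜ ∈ 𝓝 (0 : ℂ) := L.compl_lattice_sdiff_singleton_mem_nhds 0
  have h2 : Tendsto (fun z : ℂ => c * z) (𝓝 0) (𝓝 0) := by
    have : Continuous fun z : ℂ => c * z := by fun_prop
    have h3 := this.tendsto 0
    simpa using h3
  have h3 : ∀ᶠ z in 𝓝[≠] (0 : ℂ), c * z ∈ (↑L.lattice \ {(0:ℂ)} : Set ℂ)ᶜ :=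
    (h2.eventually h1).filter_mono nhdsWithin_le_nhds
  filter_upwards [h3, self_mem_nhdsWithin] with z hz hz0 hmem
  apply hz
  refine ⟨hmem, ?_⟩
  simp only [Set.mem_singleton_iff]
  exact mul_ne_zero hc hz0

theorem Descent_formal (L : PeriodPair) (a b al : ℂ) (h2 : L.g₂ = -4 * a) (h3 : L.g₃ = -4 * b)
    (hal : al ≠ 0) (A B : ℂ[X]) (m : ℕ) (hA : A.natDegree ≤ m) (hB : B.natDegree ≤ m)
    (h : ∀ᶠ z in 𝓝[≠] (0 : ℂ),
      L.weierstrassP (al * z) * B.eval (L.weierstrassP z) = A.eval (L.weierstrassP z)) :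
    rescale al (xS a b) * Descent_hom (xS a b) m B.coeff =
      PowerSeries.C (al ^ 2) * (PowerSeries.X : ℂ⟦X⟧) ^ 2 * Descent_hom (xS a b) m A.coeff := by
  have hS : Ent (SS a b) := (Gr_SS a b).ent
  have hQ : Ent (QQ a b) := (Gr_QQ a b).ent
  have hSr : Ent (rescale al (SS a b)) := Descent_Ent_rescale al hS
  have hQr : Ent (rescale al (QQ a b)) := Descent_Ent_rescale al hQ
  -- the sums
  have hterm : ∀ (P : ℂ[X]) (j : ℕ), Ent ((PowerSeries.C (P.coeff j) : ℂ⟦X⟧) * QQ a b ^ j *
      SS a b ^ (2 * (m - j))) := fun P j => ((Ent_C _).mul (hQ.pow _)).mul (hS.pow _)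
  have hEnt : ∀ P : ℂ[X], Ent (∑ j ∈ Finset.range (m + 1),
      (PowerSeries.C (P.coeff j) : ℂ⟦X⟧) * QQ a b ^ j * SS a b ^ (2 * (m - j))) :=
    fun P => Ent_sum _ _ fun j _ => hterm P j
  have hev : ∀ (P : ℂ[X]), P.natDegree ≤ m → ∀ z : ℂ, z ∉ L.lattice →
      ev (∑ j ∈ Finset.range (m + 1),
        (PowerSeries.C (P.coeff j) : ℂ⟦X⟧) * QQ a b ^ j * SS a b ^ (2 * (m - j))) z =
      ev (SS a b) z ^ (2 * m) * P.eval (L.weierstrassP z) := by
    intro P hP z hz
    rw [ev_sum _ _ (fun j _ => hterm P j)]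
    rw [Polynomial.eval_eq_sum_range' (Nat.lt_succ_of_le hP), Finset.mul_sum]
    refine Finset.sum_congr rfl fun j hj => ?_
    have hj' : j ≤ m := by
      have := Finset.mem_range.mp hj
      omega
    rw [ev_mul ((Ent_C _).mul (hQ.pow _)) (hS.pow _), ev_mul (Ent_C _) (hQ.pow _), ev_C,
      ev_pow hQ, ev_pow hS, ← link_Q L a b h2 h3 hz]
    have : 2 * m = 2 * j + 2 * (m - j) := by omega
    rw [this, pow_add, mul_pow, ← pow_mul]
    ring
  set U : ℂ⟦X⟧ := rescale al (QQ a b) * (∑ j ∈ Finset.range (m + 1),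
      (PowerSeries.C (B.coeff j) : ℂ⟦X⟧) * QQ a b ^ j * SS a b ^ (2 * (m - j))) with hU
  set V : ℂ⟦X⟧ := rescale al (SS a b) ^ 2 * (∑ j ∈ Finset.range (m + 1),
      (PowerSeries.C (A.coeff j) : ℂ⟦X⟧) * QQ a b ^ j * SS a b ^ (2 * (m - j))) with hV
  have hUE : Ent U := hQr.mul (hEnt B)
  have hVE : Ent V := (hSr.pow 2).mul (hEnt A)
  have hzero : U - V = 0 := by
    apply ev_eq_zero (hUE.sub hVE)
    have hn1 : ∀ᶠ z in 𝓝[≠] (0 : ℂ), z ∉ L.lattice := by
      have := Descent_near L 1 one_ne_zero
      simpa using this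
    filter_upwards [h, hn1, Descent_near L al hal] with z hz hz1 hz2
    rw [ev_sub hUE hVE, hU, hV, ev_mul hQr (hEnt B), ev_mul (hSr.pow 2) (hEnt A), ev_pow hSr,
      Descent_ev_rescale, Descent_ev_rescale, hev B hB z hz1, hev A hA z hz1,
      ← link_Q L a b h2 h3 hz2, ← hz]
    ring
  have hUV : U = V := sub_eq_zero.mp hzero
  -- factor out the powers of `sS`
  have hsum : ∀ P : ℂ[X], (∑ j ∈ Finset.range (m + 1),
      (PowerSeries.C (P.coeff j) : ℂ⟦X⟧) * QQ a b ^ j * SS a b ^ (2 * (m - j))) =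
      sS a b ^ (2 * m) * Descent_hom (xS a b) m P.coeff := by
    intro P
    unfold Descent_hom
    rw [Finset.mul_sum]
    refine Finset.sum_congr rfl fun j hj => ?_
    have hj' : j ≤ m := by
      have := Finset.mem_range.mp hj
      omega
    unfold QQ SS
    have : 2 * m = 2 * j + 2 * (m - j) := by omega
    rw [this, pow_add, mul_pow, mul_pow, ← pow_mul]
    have h5 : 2 * j + 2 * (m - j) - 2 * j = 2 * (m - j) := by omega
    ring
  have hQfac : rescale al (QQ a b) = rescale al (sS a b) ^ 2 * rescale al (xS a b) := by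
    unfold QQ
    rw [map_mul, map_pow]
  have hSfac : rescale al (SS a b) = (PowerSeries.C al * (PowerSeries.X : ℂ⟦X⟧)) * rescale al (sS a b) := by
    unfold SS
    rw [map_mul, rescale_X]
  rw [hU, hV, hsum, hsum, hQfac, hSfac] at hUV
  have hs0 : sS a b ≠ 0 := by
    intro h0
    have := const_sS a b
    rw [h0] at this
    simp at this
  have hsr0 : rescale al (sS a b) ≠ 0 := by
    intro h0
    have h1 := const_sS a b
    have h2 : PowerSeries.constantCoeff (rescale al (sS a b)) = 1 := by
      rw [← PowerSeries.coeff_zero_eq_constantCoeff_apply, coeff_rescale,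
        PowerSeries.coeff_zero_eq_constantCoeff_apply, h1]
      simp
    rw [h0] at h2
    simp at h2
  have hne : rescale al (sS a b) ^ 2 * sS a b ^ (2 * m) ≠ 0 :=
    mul_ne_zero (pow_ne_zero _ hsr0) (pow_ne_zero _ hs0)
  apply mul_left_cancel₀ hne
  rw [map_pow]
  linear_combination hUV

theorem Descent_integral {K : Type*} [Field K] [NumberField K] (s : Finset K) :
    ∃ n : ℤ, n ≠ 0 ∧ ∀ x ∈ s, IsIntegral ℤ ((n : K) * x) := by
  classical
  induction s using Finset.induction_on with
  | empty => exact ⟨1, one_ne_zero, by simp⟩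
  | insert x s hx ih =>
    obtain ⟨n, hn, h⟩ := ih
    have halg : IsAlgebraic ℤ x := by
      have h1 : IsAlgebraic ℚ x := Algebra.IsAlgebraic.isAlgebraic x
      exact (IsFractionRing.isAlgebraic_iff ℤ ℚ K).mpr h1
    obtain ⟨m, hm, hmi⟩ := halg.exists_integral_multiple
    refine ⟨n * m, mul_ne_zero hn hm, ?_⟩
    intro y hy
    rcases Finset.mem_insert.mp hy with rfl | hy
    · have : ((n * m : ℤ) : K) * y = (n : K) * (m • y) := by
        rw [zsmul_eq_mul]
        push_cast
        ring
      rw [this]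
      exact (isIntegral_algebraMap (x := n)).mul hmi
    · have : ((n * m : ℤ) : K) * y = (m : K) * ((n : K) * y) := by
        push_cast
        ring
      rw [this]
      exact (isIntegral_algebraMap (x := m)).mul (h y hy)

end Descent_aux

theorem descent (L : PeriodPair) {K : Type*} [Field K] [NumberField K] (ι : K →+* ℂ) (a b al : K)
    (h2 : L.g₂ = -4 * ι a) (h3 : L.g₃ = -4 * ι b) (hal : al ≠ 0)
    (hL : ∀ l ∈ L.lattice, ι al * l ∈ L.lattice) (x xi : LaurentSeries K)
    (hx : ((PowerSeries.X : PowerSeries K) : LaurentSeries K) ^ 2 * x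
      = ((xS a b : PowerSeries K) : LaurentSeries K))
    (hxi : algebraMap K (LaurentSeries K) al ^ 2 *
      ((PowerSeries.X : PowerSeries K) : LaurentSeries K) ^ 2 * xi =
        ((PowerSeries.rescale al (xS a b) : PowerSeries K) : LaurentSeries K)) :
    ∃ A B : K[X], (∀ i, IsIntegral ℤ (A.coeff i)) ∧ (∀ i, IsIntegral ℤ (B.coeff i)) ∧ B ≠ 0 ∧
      A.natDegree = B.natDegree + 1 ∧ xi * aeval x B = aeval x A := by
  classical
  have hial : ι al ≠ 0 := by
    intro h
    exact hal ((map_eq_zero ι).mp h)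
  obtain ⟨A0, B0, hB0, hAB⟩ := isog L (ι al) hial hL
  set m := max A0.natDegree B0.natDegree with hm
  have hform := Descent_formal L (ι a) (ι b) (ι al) h2 h3 hial A0 B0 m (le_max_left _ _)
    (le_max_right _ _) hAB
  let _ : Algebra K ℂ := ι.toAlgebra
  have halg : algebraMap K ℂ = ι := rfl
  -- the linear system
  let colB : ℕ → PowerSeries K := fun j => PowerSeries.rescale al (xS a b) *
    (xS a b ^ j * (PowerSeries.X : PowerSeries K) ^ (2 * (m - j)))
  let colA : ℕ → PowerSeries K := fun j => - (PowerSeries.C (al ^ 2) *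
    (PowerSeries.X : PowerSeries K) ^ 2 *
    (xS a b ^ j * (PowerSeries.X : PowerSeries K) ^ (2 * (m - j))))
  let M : ℕ → (Fin (m + 1) ⊕ Fin (m + 1)) → K := fun n => Sum.elim
    (fun j => PowerSeries.coeff n (colA j)) (fun j => PowerSeries.coeff n (colB j))
  let v : (Fin (m + 1) ⊕ Fin (m + 1)) → ℂ := Sum.elim (fun j => A0.coeff j) (fun j => B0.coeff j)
  have hmapx : PowerSeries.map ι (xS a b) = xS (ι a) (ι b) := map_xS ι a b
  have hmapr : PowerSeries.map ι (PowerSeries.rescale al (xS a b)) =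
      PowerSeries.rescale (ι al) (xS (ι a) (ι b)) := by
    rw [← hmapx]
    ext n
    simp [PowerSeries.coeff_rescale, PowerSeries.coeff_map]
  have hv : v ≠ 0 := by
    intro h0
    apply hB0
    ext j
    rw [Polynomial.coeff_zero]
    by_cases hj : j < m + 1
    · have := congrFun h0 (Sum.inr ⟨j, hj⟩)
      simpa [v] using this
    · apply Polynomial.coeff_eq_zero_of_natDegree_lt
      have : B0.natDegree ≤ m := le_max_right _ _
      omega
  have hsys : ∀ n, ∑ j, algebraMap K ℂ (M n j) * v j = 0 := by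
    intro n
    have h1 : (∑ j : Fin (m + 1), PowerSeries.map ι (colA j) * PowerSeries.C (A0.coeff j)) +
        ∑ j : Fin (m + 1), PowerSeries.map ι (colB j) * PowerSeries.C (B0.coeff j) = 0 := by
      rw [← sub_eq_zero] at hform
      unfold Descent_hom at hform
      rw [Finset.mul_sum, Finset.mul_sum, Finset.sum_range, Finset.sum_range] at hform
      rw [add_comm]
      rw [← hform, sub_eq_add_neg, ← Finset.sum_neg_distrib]
      congr 1
      · refine Finset.sum_congr rfl fun j _ => ?_
        simp only [colB, map_mul, map_pow, hmapx, hmapr, PowerSeries.map_X]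
        ring
      · refine Finset.sum_congr rfl fun j _ => ?_
        simp only [colA, map_mul, map_pow, map_neg, hmapx, PowerSeries.map_X, PowerSeries.map_C]
        ring
    have h4 := congrArg (PowerSeries.coeff n) h1
    rw [map_add, map_sum, map_sum, map_zero] at h4
    rw [Fintype.sum_sum_type]
    simp only [M, v, Sum.elim_inl, Sum.elim_inr, halg]
    rw [← h4]
    congr 1
    · refine Finset.sum_congr rfl fun j _ => ?_
      rw [PowerSeries.coeff_mul_C, PowerSeries.coeff_map]
    · refine Finset.sum_congr rfl fun j _ => ?_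
      rw [PowerSeries.coeff_mul_C, PowerSeries.coeff_map]
  obtain ⟨w, hw, hwsys⟩ := lin_descent M v hv hsys
  -- the polynomials over `K`
  let A1 : K[X] := ∑ j : Fin (m + 1), Polynomial.C (w (Sum.inl j)) * Polynomial.X ^ (j : ℕ)
  let B1 : K[X] := ∑ j : Fin (m + 1), Polynomial.C (w (Sum.inr j)) * Polynomial.X ^ (j : ℕ)
  have hcoeff : ∀ (u : Fin (m + 1) → K) (i : Fin (m + 1)),
      (∑ j : Fin (m + 1), Polynomial.C (u j) * Polynomial.X ^ (j : ℕ) : K[X]).coeff (i : ℕ) = u i := by
    intro u i
    rw [Polynomial.finsetSum_coeff]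
    simp only [Polynomial.coeff_C_mul, Polynomial.coeff_X_pow]
    rw [Finset.sum_eq_single i]
    · simp
    · intro j _ hj
      have : (i : ℕ) ≠ (j : ℕ) := fun h => hj (Fin.ext h.symm)
      simp [this]
    · simp
  have hdeg : ∀ (u : Fin (m + 1) → K),
      (∑ j : Fin (m + 1), Polynomial.C (u j) * Polynomial.X ^ (j : ℕ) : K[X]).natDegree ≤ m := by
    intro u
    apply Polynomial.natDegree_sum_le_of_forall_le
    intro j _
    refine (Polynomial.natDegree_C_mul_X_pow_le _ _).trans ?_
    omega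
  have hA1c : ∀ i : Fin (m + 1), A1.coeff (i : ℕ) = w (Sum.inl i) := fun i =>
    hcoeff (fun j => w (Sum.inl j)) i
  have hB1c : ∀ i : Fin (m + 1), B1.coeff (i : ℕ) = w (Sum.inr i) := fun i =>
    hcoeff (fun j => w (Sum.inr j)) i
  have hA1d : A1.natDegree ≤ m := hdeg _
  have hB1d : B1.natDegree ≤ m := hdeg _
  have hrel : PowerSeries.rescale al (xS a b) * Descent_hom (xS a b) m B1.coeff =
      PowerSeries.C (al ^ 2) * (PowerSeries.X : PowerSeries K) ^ 2 *
        Descent_hom (xS a b) m A1.coeff := by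
    rw [← sub_eq_zero]
    ext n
    have h5 := hwsys n
    rw [Fintype.sum_sum_type] at h5
    simp only [M, Sum.elim_inl, Sum.elim_inr] at h5
    unfold Descent_hom
    rw [Finset.mul_sum, Finset.mul_sum, Finset.sum_range, Finset.sum_range, sub_eq_add_neg,
      ← Finset.sum_neg_distrib, map_add, map_sum, map_sum, map_zero, add_comm, ← h5]
    congr 1
    · refine Finset.sum_congr rfl fun j _ => ?_
      rw [← PowerSeries.coeff_mul_C, hA1c]
      congr 1
      simp only [colA]
      ring
    · refine Finset.sum_congr rfl fun j _ => ?_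
      rw [← PowerSeries.coeff_mul_C, hB1c]
      congr 1
      simp only [colB]
      ring
  have hxc : PowerSeries.constantCoeff (xS a b) = 1 := const_xS a b
  have hrc : PowerSeries.constantCoeff (PowerSeries.rescale al (xS a b)) = 1 := by
    rw [← PowerSeries.coeff_zero_eq_constantCoeff_apply, PowerSeries.coeff_rescale,
      PowerSeries.coeff_zero_eq_constantCoeff_apply, hxc]
    simp
  have hr0 : PowerSeries.rescale al (xS a b) ≠ 0 := by
    intro h0
    rw [h0] at hrc
    simp at hrc
  have hhomne : ∀ P : K[X], P.natDegree ≤ m → P ≠ 0 → Descent_hom (xS a b) m P.coeff ≠ 0 := by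
    intro P hP hP0 h0
    rw [Descent_hom_eq _ m P hP] at h0
    rcases mul_eq_zero.mp h0 with h0 | h0
    · exact pow_ne_zero _ PowerSeries.X_ne_zero h0
    · have := Descent_hom_const (xS a b) hxc P
      rw [h0] at this
      simp at this
      exact hP0 (Polynomial.leadingCoeff_eq_zero.mp this.symm)
  have hCne : PowerSeries.C (al ^ 2) * (PowerSeries.X : PowerSeries K) ^ 2 ≠ 0 := by
    apply mul_ne_zero
    · intro h0
      have := congrArg PowerSeries.constantCoeff h0
      simp at this
      exact hal this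
    · exact pow_ne_zero _ PowerSeries.X_ne_zero
  have hhom0 : ∀ n : ℕ, Descent_hom (xS a b) n (0 : K[X]).coeff = 0 := by
    intro n
    unfold Descent_hom
    simp
  have hB1 : B1 ≠ 0 := by
    intro h0
    have hA0 : A1 ≠ 0 := by
      intro hA0
      apply hw
      funext j
      rcases j with j | j
      · have := hA1c j
        rw [hA0] at this
        simpa using this.symm
      · have := hB1c j
        rw [h0] at this
        simpa using this.symm
    rw [h0, hhom0, mul_zero] at hrel
    exact mul_ne_zero hCne (hhomne A1 hA1d hA0) hrel.symm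
  have hA1 : A1 ≠ 0 := by
    intro h0
    rw [h0, hhom0, mul_zero] at hrel
    exact mul_ne_zero hr0 (hhomne B1 hB1d hB1) hrel
  have hdegrel : A1.natDegree = B1.natDegree + 1 := by
    have h6 := hrel
    rw [Descent_hom_eq _ m B1 hB1d, Descent_hom_eq _ m A1 hA1d] at h6
    have h7 : (PowerSeries.X : PowerSeries K) ^ (2 * (m - B1.natDegree)) *
        (PowerSeries.rescale al (xS a b) * Descent_hom (xS a b) B1.natDegree B1.coeff) =
        PowerSeries.X ^ (2 + 2 * (m - A1.natDegree)) *
          (PowerSeries.C (al ^ 2) * Descent_hom (xS a b) A1.natDegree A1.coeff) := by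
      rw [pow_add]
      linear_combination h6
    have h8 := Descent_pow_eq (by
        rw [map_mul, hrc, one_mul, Descent_hom_const _ hxc]
        exact Polynomial.leadingCoeff_ne_zero.mpr hB1) (by
        rw [map_mul, Descent_hom_const _ hxc, PowerSeries.constantCoeff_C]
        exact mul_ne_zero (pow_ne_zero _ hal) (Polynomial.leadingCoeff_ne_zero.mpr hA1)) h7
    omega
  -- in Laurent series
  set φ : PowerSeries K →+* LaurentSeries K := HahnSeries.ofPowerSeries ℤ K with hφ
  have hφC : ∀ c : K, φ (PowerSeries.C c) = algebraMap K (LaurentSeries K) c := by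
    intro c
    rw [hφ]
    rfl
  have hx' : φ PowerSeries.X ^ 2 * x = φ (xS a b) := hx
  have hxi' : algebraMap K (LaurentSeries K) al ^ 2 * φ PowerSeries.X ^ 2 * xi =
      φ (PowerSeries.rescale al (xS a b)) := hxi
  have hφX : φ PowerSeries.X ≠ 0 := by
    intro h0
    have h9 : φ PowerSeries.X = φ 0 := by rw [h0, map_zero]
    exact PowerSeries.X_ne_zero (HahnSeries.ofPowerSeries_injective h9)
  have hφhom : ∀ P : K[X], P.natDegree ≤ m → φ (Descent_hom (xS a b) m P.coeff) =
      φ PowerSeries.X ^ (2 * m) * aeval x P := by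
    intro P hP
    unfold Descent_hom
    rw [map_sum, Polynomial.aeval_eq_sum_range' (Nat.lt_succ_of_le hP), Finset.mul_sum]
    refine Finset.sum_congr rfl fun j hj => ?_
    have hj' : j ≤ m := by
      have := Finset.mem_range.mp hj
      omega
    rw [map_mul, map_mul, map_pow, map_pow, hφC, ← hx', mul_pow, ← pow_mul, Algebra.smul_def]
    have : 2 * m = 2 * j + 2 * (m - j) := by omega
    rw [this, pow_add]
    have h5 : 2 * j + 2 * (m - j) - 2 * j = 2 * (m - j) := by omega
    ring
  have hfinal : xi * aeval x B1 = aeval x A1 := by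
    have h10 := congrArg φ hrel
    rw [map_mul, map_mul, map_mul, hφhom B1 hB1d, hφhom A1 hA1d, ← hxi', map_pow φ PowerSeries.X,
      hφC, map_pow] at h10
    have hne : algebraMap K (LaurentSeries K) al ^ 2 * φ PowerSeries.X ^ 2 *
        φ PowerSeries.X ^ (2 * m) ≠ 0 := by
      refine mul_ne_zero (mul_ne_zero (pow_ne_zero _ ?_) (pow_ne_zero _ hφX)) (pow_ne_zero _ hφX)
      intro h0
      exact hal ((map_eq_zero (algebraMap K (LaurentSeries K))).mp h0)
    apply mul_left_cancel₀ hne
    linear_combination h10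
  -- integrality
  obtain ⟨n, hn, hint⟩ := Descent_integral (K := K)
    ((Finset.range (m + 1)).image A1.coeff ∪ (Finset.range (m + 1)).image B1.coeff)
  have hnK : (n : K) ≠ 0 := by exact_mod_cast hn
  refine ⟨Polynomial.C (n : K) * A1, Polynomial.C (n : K) * B1, ?_, ?_, ?_, ?_, ?_⟩
  · intro i
    rw [Polynomial.coeff_C_mul]
    by_cases hi : i < m + 1
    · apply hint
      rw [Finset.mem_union]
      exact Or.inl (Finset.mem_image_of_mem _ (Finset.mem_range.mpr hi))
    · rw [Polynomial.coeff_eq_zero_of_natDegree_lt (by omega), mul_zero]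
      exact isIntegral_zero
  · intro i
    rw [Polynomial.coeff_C_mul]
    by_cases hi : i < m + 1
    · apply hint
      rw [Finset.mem_union]
      exact Or.inr (Finset.mem_image_of_mem _ (Finset.mem_range.mpr hi))
    · rw [Polynomial.coeff_eq_zero_of_natDegree_lt (by omega), mul_zero]
      exact isIntegral_zero
  · exact mul_ne_zero (Polynomial.C_ne_zero.mpr hnK) hB1
  · rw [Polynomial.natDegree_C_mul hnK, Polynomial.natDegree_C_mul hnK, hdegrel]
  · rw [map_mul, map_mul, aeval_C]
    linear_combination (algebraMap K (LaurentSeries K) (n : K)) * hfinal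

end Pool.Agent.ZCM
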