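import Pool.Agent.ZCM.Diff

/-! # J5: reduction of complex multiplication modulo `p` -/

namespace Pool.Agent.ZCM
open Polynomial

/-- polynomials with integral coefficients -/
def DiffCM_P0 (K : Type*) [Field K] : Subring K[X] where
  carrier := {G | ∀ i, IsIntegral ℤ (G.coeff i)}
  mul_mem' := by
    intro f g hf hg i
    rw [coeff_mul]
    exact IsIntegral.sum _ fun x _ => (hf _).mul (hg _)
  one_mem' := by
    intro i
    rw [coeff_one]
    split_ifs
    · exact isIntegral_one
    · exact isIntegral_zero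
  add_mem' := by
    intro f g hf hg i
    rw [coeff_add]
    exact (hf i).add (hg i)
  zero_mem' := by
    intro i
    rw [coeff_zero]
    exact isIntegral_zero
  neg_mem' := by
    intro f hf i
    rw [coeff_neg]
    exact (hf i).neg

section
variable {K F : Type*} [Field K] [Field F] [Algebra K F]

lemma DiffCM_mem_P0 (G : K[X]) : G ∈ DiffCM_P0 K ↔ ∀ i, IsIntegral ℤ (G.coeff i) := Iff.rfl

lemma DiffCM_X_mem : (X : K[X]) ∈ DiffCM_P0 K := by
  intro i
  rw [coeff_X]
  split_ifs
  · exact isIntegral_one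
  · exact isIntegral_zero

lemma DiffCM_C_mem {c : K} (hc : IsIntegral ℤ c) : (C c : K[X]) ∈ DiffCM_P0 K := by
  intro i
  rw [coeff_C]
  split_ifs
  · exact hc
  · exact isIntegral_zero

lemma DiffCM_der_mem {G : K[X]} (hG : G ∈ DiffCM_P0 K) : derivative G ∈ DiffCM_P0 K := by
  intro i
  rw [coeff_derivative]
  refine (hG _).mul (IsIntegral.add ?_ isIntegral_one)
  have h := isIntegral_algebraMap (R := ℤ) (A := K) (x := (i : ℤ))
  simpa using h

lemma DiffCM_fG_mem {a b : K} (ha : IsIntegral ℤ a) (hb : IsIntegral ℤ b) :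
    fG a b ∈ DiffCM_P0 K := by
  unfold fG
  exact add_mem (add_mem (pow_mem DiffCM_X_mem 3) (mul_mem (DiffCM_C_mem ha) DiffCM_X_mem))
    (DiffCM_C_mem hb)

lemma DiffCM_D_aeval (D : Derivation K F F) (x : F) (G : K[X]) :
    D (aeval x G) = aeval x (derivative G) * D x := by
  rw [Derivation.map_aeval, smul_eq_mul]

/-- the ring `O[x,y]` -/
def DiffCM_L0 (a b : K) (x y : F) (ha : IsIntegral ℤ a) (hb : IsIntegral ℤ b)
    (h3 : y ^ 2 = x ^ 3 + algebraMap K F a * x + algebraMap K F b) : Subring F where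
  carrier := {f | ∃ G ∈ DiffCM_P0 K, ∃ G' ∈ DiffCM_P0 K, f = aeval x G + y * aeval x G'}
  mul_mem' := by
    rintro _ _ ⟨G, hG, G', hG', rfl⟩ ⟨H, hH, H', hH', rfl⟩
    refine ⟨G * H + fG a b * (G' * H'), add_mem (mul_mem hG hH) (mul_mem (DiffCM_fG_mem ha hb)
      (mul_mem hG' hH')), G * H' + G' * H, add_mem (mul_mem hG hH') (mul_mem hG' hH), ?_⟩
    have hf : aeval x (fG a b) = y ^ 2 := by rw [h3]; simp [fG]
    rw [map_add, map_add, map_mul, map_mul, map_mul, map_mul, map_mul, hf]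
    ring
  one_mem' := ⟨1, one_mem _, 0, zero_mem _, by simp⟩
  add_mem' := by
    rintro _ _ ⟨G, hG, G', hG', rfl⟩ ⟨H, hH, H', hH', rfl⟩
    exact ⟨G + H, add_mem hG hH, G' + H', add_mem hG' hH', by rw [map_add, map_add]; ring⟩
  zero_mem' := ⟨0, zero_mem _, 0, zero_mem _, by simp⟩
  neg_mem' := by
    rintro _ ⟨G, hG, G', hG', rfl⟩
    exact ⟨-G, neg_mem hG, -G', neg_mem hG', by rw [map_neg, map_neg]; ring⟩

/-- the localisation `O[x,y][1/u]` -/
def DiffCM_R (L : Subring F) (u : F) (hu : u ∈ L) : Subring F where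
  carrier := {f | ∃ s : ℕ, u ^ s * f ∈ L}
  mul_mem' := by
    rintro f g ⟨s, hs⟩ ⟨t, ht⟩
    refine ⟨s + t, ?_⟩
    have : u ^ (s + t) * (f * g) = (u ^ s * f) * (u ^ t * g) := by ring
    rw [this]; exact mul_mem hs ht
  one_mem' := ⟨0, by simp⟩
  add_mem' := by
    rintro f g ⟨s, hs⟩ ⟨t, ht⟩
    refine ⟨s + t, ?_⟩
    have : u ^ (s + t) * (f + g) = u ^ t * (u ^ s * f) + u ^ s * (u ^ t * g) := by ring
    rw [this]; exact add_mem (mul_mem (pow_mem hu t) hs) (mul_mem (pow_mem hu s) ht)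
  zero_mem' := ⟨0, by simp⟩
  neg_mem' := by
    rintro f ⟨s, hs⟩
    refine ⟨s, ?_⟩
    rw [mul_neg]; exact neg_mem hs

lemma DiffCM_R_D (D : Derivation K F F) (L : Subring F) (hL : ∀ f ∈ L, D f ∈ L) (u : F)
    (hu : u ∈ L) (f : F) (hf : f ∈ DiffCM_R L u hu) : D f ∈ DiffCM_R L u hu := by
  obtain ⟨s, hs⟩ := hf
  refine ⟨s + 1, ?_⟩
  have h1 : D (u ^ s * f) = u ^ s * D f + f * D (u ^ s) := by
    rw [Derivation.leibniz, smul_eq_mul, smul_eq_mul]
  have h2 : u * D (u ^ s) = s * u ^ s * D u := by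
    rw [Derivation.leibniz_pow]
    cases s with
    | zero => simp
    | succ s =>
      rw [Nat.add_sub_cancel, nsmul_eq_mul, smul_eq_mul]
      ring
  have h3 : u ^ (s + 1) * D f = u * D (u ^ s * f) - s * D u * (u ^ s * f) := by
    rw [h1]
    linear_combination (-f) * h2
  rw [h3]
  exact sub_mem (mul_mem hu (hL _ hs)) (mul_mem (mul_mem (natCast_mem _ _) (hL _ hu)) hs)

/-- elements on which `δ = D^p - H D` is divisible by `p` form a subring -/
def DiffCM_M (D : Derivation K F F) (R : Subring F) (hR : ∀ f ∈ R, D f ∈ R) (p : ℕ)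
    (hp : p.Prime) (H : F) : Subring F where
  carrier := {f | f ∈ R ∧ ∃ r ∈ R, (⇑D)^[p] f - H * D f = p * r}
  mul_mem' := by
    rintro f g ⟨hf, r, hr, h1⟩ ⟨hg, r', hr', h2⟩
    refine ⟨mul_mem hf hg, ?_⟩
    obtain ⟨r'', hr'', h3⟩ := leibniz_mod_p D R hR p hp f g hf hg
    refine ⟨f * r' + g * r + r'', add_mem (add_mem (mul_mem hf hr') (mul_mem hg hr)) hr'', ?_⟩
    rw [h3, Derivation.leibniz, smul_eq_mul, smul_eq_mul]
    linear_combination g * h1 + f * h2
  one_mem' := by
    refine ⟨one_mem _, 0, zero_mem _, ?_⟩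
    have h1 : D (1 : F) = 0 := D.map_one_eq_zero
    have h2 : ∀ n : ℕ, (⇑D)^[n] (0 : F) = 0 := by
      intro n
      induction n with
      | zero => rfl
      | succ n ih => rw [Function.iterate_succ_apply', ih, map_zero]
    obtain ⟨q, rfl⟩ : ∃ q, p = q + 1 := ⟨p - 1, (Nat.succ_pred_eq_of_pos hp.pos).symm⟩
    rw [Function.iterate_succ_apply, h1, h2]; simp
  add_mem' := by
    rintro f g ⟨hf, r, hr, h1⟩ ⟨hg, r', hr', h2⟩
    refine ⟨add_mem hf hg, r + r', add_mem hr hr', ?_⟩
    have h3 : ∀ n : ℕ, (⇑D)^[n] (f + g) = (⇑D)^[n] f + (⇑D)^[n] g := by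
      intro n
      induction n with
      | zero => rfl
      | succ n ih => rw [Function.iterate_succ_apply', ih, map_add,
          Function.iterate_succ_apply', Function.iterate_succ_apply']
    rw [h3, map_add]
    linear_combination h1 + h2
  zero_mem' := by
    refine ⟨zero_mem _, 0, zero_mem _, ?_⟩
    have h2 : ∀ n : ℕ, (⇑D)^[n] (0 : F) = 0 := by
      intro n
      induction n with
      | zero => rfl
      | succ n ih => rw [Function.iterate_succ_apply', ih, map_zero]
    rw [h2, map_zero]; simp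
  neg_mem' := by
    rintro f ⟨hf, r, hr, h1⟩
    refine ⟨neg_mem hf, -r, neg_mem hr, ?_⟩
    have h3 : ∀ n : ℕ, (⇑D)^[n] (-f) = -(⇑D)^[n] f := by
      intro n
      induction n with
      | zero => rfl
      | succ n ih => rw [Function.iterate_succ_apply', ih, map_neg,
          Function.iterate_succ_apply']
    rw [h3, map_neg]
    linear_combination -h1


lemma DiffCM_L0_D (D : Derivation K F F) (a b : K) (x y : F) (ha : IsIntegral ℤ a)
    (hb : IsIntegral ℤ b) (h1 : D x = 2 * y) (h2 : D y = 3 * x ^ 2 + algebraMap K F a)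
    (h3 : y ^ 2 = x ^ 3 + algebraMap K F a * x + algebraMap K F b) (f : F)
    (hf : f ∈ DiffCM_L0 a b x y ha hb h3) : D f ∈ DiffCM_L0 a b x y ha hb h3 := by
  obtain ⟨G, hG, G', hG', rfl⟩ := hf
  refine ⟨(3 * X ^ 2 + C a) * G' + 2 * fG a b * derivative G', ?_, 2 * derivative G, ?_, ?_⟩
  · refine add_mem (mul_mem (add_mem (mul_mem ?_ (pow_mem DiffCM_X_mem 2)) (DiffCM_C_mem ha)) hG')
      (mul_mem (mul_mem ?_ (DiffCM_fG_mem ha hb)) (DiffCM_der_mem hG'))
    · exact_mod_cast natCast_mem (DiffCM_P0 K) 3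
    · exact_mod_cast natCast_mem (DiffCM_P0 K) 2
  · refine mul_mem ?_ (DiffCM_der_mem hG)
    exact_mod_cast natCast_mem (DiffCM_P0 K) 2
  · have hf : aeval x (fG a b) = y ^ 2 := by rw [h3]; simp [fG]
    rw [map_add, Derivation.leibniz, smul_eq_mul, smul_eq_mul, DiffCM_D_aeval, DiffCM_D_aeval,
      h1, h2]
    simp only [map_add, map_mul, map_pow, aeval_X, aeval_C, hf, map_ofNat]
    ring

lemma DiffCM_hG {a b : K} (ha : IsIntegral ℤ a) (hb : IsIntegral ℤ b) (p : ℕ) (hp : p.Prime)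
    (hp2 : p ≠ 2) : IsIntegral ℤ (HG a b p) ∧
      ∃ g ∈ DiffCM_P0 K, hG a b p = C (HG a b p) + (p : K[X]) * g := by
  let O := integralClosure ℤ K
  let a' : O := ⟨a, ha⟩
  let b' : O := ⟨b, hb⟩
  obtain ⟨h, hh⟩ := ss_ring a' b' p hp hp2
  have e1 := map_hG (algebraMap O K) a' b' p
  have e2 := map_HG (algebraMap O K) a' b' p
  have e3 : algebraMap O K a' = a := rfl
  have e4 : algebraMap O K b' = b := rfl
  rw [e3, e4] at e1 e2
  refine ⟨?_, h.map (algebraMap O K), ?_, ?_⟩
  · rw [← e2]; exact (HG a' b' p).2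
  · intro i
    rw [coeff_map]; exact (h.coeff i).2
  · rw [← e1, hh, Polynomial.map_add, Polynomial.map_mul, Polynomial.map_natCast, map_C, e2]

lemma DiffCM_indep (a b : K) (x y : F)
    (h3 : y ^ 2 = x ^ 3 + algebraMap K F a * x + algebraMap K F b) (hx : Transcendental K x)
    (P Q : K[X]) (h : aeval x P + y * aeval x Q = 0) : P = 0 ∧ Q = 0 := by
  have hf : aeval x (fG a b) = y ^ 2 := by rw [h3]; simp [fG]
  have h4 : P ^ 2 = fG a b * Q ^ 2 := by
    have h5 : aeval x (P ^ 2 - fG a b * Q ^ 2) = 0 := by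
      rw [map_sub, map_mul, map_pow, map_pow, hf]
      linear_combination (aeval x P - y * aeval x Q) * h
    exact sub_eq_zero.1 ((transcendental_iff.1 hx) _ h5)
  have hdf : (fG a b).natDegree = 3 := by unfold fG; compute_degree!
  have hf0 : fG a b ≠ 0 := by
    intro h0; rw [h0] at hdf; simp at hdf
  have hQ : Q = 0 := by
    by_contra hQ
    have h6 := congrArg natDegree h4
    rw [natDegree_pow, natDegree_mul hf0 (pow_ne_zero _ hQ), natDegree_pow, hdf] at h6
    omega
  rw [hQ] at h4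
  refine ⟨?_, hQ⟩
  have : P ^ 2 = 0 := by rw [h4]; ring
  exact pow_eq_zero_iff (two_ne_zero) |>.1 this

end

section
variable {K F : Type*} [Field K] [CharZero K] [Field F] [Algebra K F] (D : Derivation K F F)
  (a b : K) (x y : F)
  (ha : IsIntegral ℤ a) (hb : IsIntegral ℤ b)
  (h1 : D x = 2 * y) (h2 : D y = 3 * x ^ 2 + algebraMap K F a)
  (h3 : y ^ 2 = x ^ 3 + algebraMap K F a * x + algebraMap K F b)
  (hx : Transcendental K x)

include D ha hb h1 h2 h3 hx in
/-- `xi = x(α z) = A(x)/B(x)`. -/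
theorem cm_red (p : ℕ) (hp : p.Prime) (hp2 : p ≠ 2) (al : K) (hal : IsIntegral ℤ al)
    (xi eta : F) (k1 : D xi = 2 * algebraMap K F al * eta)
    (k2 : D eta = algebraMap K F al * (3 * xi ^ 2 + algebraMap K F a))
    (k3 : eta ^ 2 = xi ^ 3 + algebraMap K F a * xi + algebraMap K F b)
    (A B : K[X]) (hA : ∀ i, IsIntegral ℤ (A.coeff i)) (hB : ∀ i, IsIntegral ℤ (B.coeff i))
    (hB0 : B ≠ 0) (hdeg : A.natDegree = B.natDegree + 1)
    (hAB : xi * aeval x B = aeval x A) :
    ∃ s : ℕ, IsIntegral ℤ ((al ^ p - al) * HG a b p * 2 * A.leadingCoeff *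
      B.leadingCoeff ^ s / (p : K)) := by
  have hpo : p % 2 = 1 := by
    rcases hp.eq_two_or_odd with h | h
    · exact absurd h hp2
    · exact h
  obtain ⟨hH, g, hg, hgG⟩ := DiffCM_hG ha hb p hp hp2
  set L := DiffCM_L0 a b x y ha hb h3 with hL
  set u : F := aeval x B with hu
  have huL : u ∈ L := ⟨B, hB, 0, zero_mem _, by simp [hu]⟩
  have hu0 : u ≠ 0 := fun h => hB0 ((transcendental_iff.1 hx) _ h)
  set R := DiffCM_R L u huL with hR
  have hLR : ∀ f ∈ L, f ∈ R := fun f hf => ⟨0, by simpa using hf⟩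
  have hRD : ∀ f ∈ R, D f ∈ R :=
    DiffCM_R_D D L (DiffCM_L0_D D a b x y ha hb h1 h2 h3) u huL
  set H : F := algebraMap K F (HG a b p) with hHdef
  have hcL : ∀ c : K, IsIntegral ℤ c → algebraMap K F c ∈ L := fun c hc =>
    ⟨C c, DiffCM_C_mem hc, 0, zero_mem _, by simp⟩
  have hHR : H ∈ R := hLR _ (hcL _ hH)
  have hxL : x ∈ L := ⟨X, DiffCM_X_mem, 0, zero_mem _, by simp⟩
  have hyL : y ∈ L := ⟨0, zero_mem _, 1, one_mem _, by simp⟩
  set M := DiffCM_M D R hRD p hp H with hM
  have hgen : ∀ z : F, aeval z (hG a b p) = H + (p : F) * aeval z g := by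
    intro z
    rw [hgG, map_add, aeval_C, map_mul, map_natCast]
  have hiter0 : ∀ n : ℕ, (⇑D)^[n] (0 : F) = 0 := by
    intro n
    induction n with
    | zero => rfl
    | succ n ih => rw [Function.iterate_succ_apply', ih, map_zero]
  have hconst : ∀ c : K, IsIntegral ℤ c → algebraMap K F c ∈ M := by
    intro c hc
    refine ⟨hLR _ (hcL c hc), 0, zero_mem _, ?_⟩
    obtain ⟨q, hq⟩ : ∃ q, p = q + 1 := ⟨p - 1, (Nat.succ_pred_eq_of_pos hp.pos).symm⟩
    rw [hq, Function.iterate_succ_apply, Derivation.map_algebraMap, hiter0]; simp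
  have hx1 : (⇑D)^[p] x - H * D x = p * (D x * aeval x g) := by
    have h4 := D_iterate_x D a b 1 x y (by rw [h1]; simp) (by rw [h2]; simp) h3 p hpo
    rw [one_pow, map_one, one_mul, hgen] at h4
    rw [h4]; ring
  have hgR : ∀ z ∈ R, aeval z g ∈ R := by
    intro z hz
    rw [aeval_eq_sum_range]
    refine sum_mem fun i _ => ?_
    rw [Algebra.smul_def]
    exact mul_mem (hLR _ (hcL _ (hg i))) (pow_mem hz i)
  have hxM : x ∈ M := ⟨hLR _ hxL, D x * aeval x g, mul_mem (hRD _ (hLR _ hxL))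
    (hgR _ (hLR _ hxL)), hx1⟩
  have hyM : y ∈ M := by
    refine ⟨hLR _ hyL, ?_⟩
    have hyR := hLR _ hyL
    have hiterR : ∀ n : ℕ, ∀ f ∈ R, (⇑D)^[n] f ∈ R := by
      intro n f hf
      induction n with
      | zero => exact hf
      | succ n ih => rw [Function.iterate_succ_apply']; exact hRD _ ih
    set e : F := (⇑D)^[p] y - H * D y with he
    have heR : e ∈ R := sub_mem (hiterR p _ hyR) (mul_mem hHR (hRD _ hyR))
    have h5 : ∀ n : ℕ, (⇑D)^[n] (2 * y) = 2 * (⇑D)^[n] y := by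
      intro n
      induction n with
      | zero => rfl
      | succ n ih =>
        rw [Function.iterate_succ_apply', ih, Function.iterate_succ_apply', two_mul, map_add,
          two_mul]
    have h6 : 2 * e = p * D (D x * aeval x g) := by
      have h7 := congrArg D hx1
      have h8 : D ((p : F) * (D x * aeval x g)) = p * D (D x * aeval x g) := by
        rw [← nsmul_eq_mul, map_nsmul, nsmul_eq_mul]
      have h9 : D (H * D x) = H * D (D x) := by
        rw [Derivation.leibniz, hHdef, Derivation.map_algebraMap, smul_zero, add_zero,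
          smul_eq_mul]
      rw [h8, map_sub, h9, ← Function.iterate_succ_apply' (⇑D) p x,
        Function.iterate_succ_apply (⇑D) p x, h1, h5] at h7
      have h10 : D (2 * y) = 2 * D y := h5 1
      rw [h10] at h7
      rw [← h1] at h7
      rw [← h7, he]; ring
    obtain ⟨k, hk⟩ : ∃ k, p = 2 * k + 1 := ⟨p / 2, by omega⟩
    refine ⟨e - k * D (D x * aeval x g), sub_mem heR (mul_mem (natCast_mem _ _)
      (hRD _ (mul_mem (hRD _ (hLR _ hxL)) (hgR _ (hLR _ hxL))))), ?_⟩
    have hk' : (p : F) = 2 * k + 1 := by rw [hk]; push_cast; ring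
    have : (p : F) * e = e + k * (p * D (D x * aeval x g)) := by
      rw [← h6]; rw [hk']; ring
    linear_combination -this
  have hLM : ∀ f ∈ L, f ∈ M := by
    rintro _ ⟨G, hG, G', hG', rfl⟩
    have h4 : ∀ G ∈ DiffCM_P0 K, aeval x G ∈ M := by
      intro G hG
      rw [aeval_eq_sum_range]
      refine sum_mem fun i _ => ?_
      rw [Algebra.smul_def]
      exact mul_mem (hconst _ (hG i)) (pow_mem hxM i)
    exact add_mem (h4 G hG) (mul_mem hyM (h4 G' hG'))
  have huM : u ∈ M := hLM u huL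
  have huiR : u⁻¹ ∈ R := ⟨1, by rw [pow_one, mul_inv_cancel₀ hu0]; exact one_mem _⟩
  have huiM : u⁻¹ ∈ M := by
    refine ⟨huiR, ?_⟩
    obtain ⟨r, hr, h4⟩ := leibniz_mod_p D R hRD p hp u u⁻¹ huM.1 huiR
    obtain ⟨-, r', hr', h5⟩ := huM
    obtain ⟨-, r0, hr0, h6⟩ := one_mem M
    have hD1 : D (1 : F) = 0 := D.map_one_eq_zero
    have hDp1 : (⇑D)^[p] (1 : F) = 0 := by
      obtain ⟨q, hq⟩ : ∃ q, p = q + 1 := ⟨p - 1, (Nat.succ_pred_eq_of_pos hp.pos).symm⟩
      rw [hq, Function.iterate_succ_apply, hD1, hiter0]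
    have h7 : D (u * u⁻¹) = u * D u⁻¹ + u⁻¹ * D u := by
      rw [Derivation.leibniz, smul_eq_mul, smul_eq_mul]
    rw [mul_inv_cancel₀ hu0] at h4 h7
    rw [hDp1] at h4
    rw [hD1] at h7
    refine ⟨-(u⁻¹ * (u⁻¹ * r' + r)), neg_mem (mul_mem huiR (add_mem (mul_mem huiR hr') hr)), ?_⟩
    have huu : u * u⁻¹ = 1 := mul_inv_cancel₀ hu0
    set v := u⁻¹ with hv
    linear_combination (-((⇑D)^[p] v - H * D v)) * huu - v * h4 + v * H * h7 - v * v * h5
  have hxi : xi = aeval x A * u⁻¹ := by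
    rw [← hAB, mul_assoc, mul_inv_cancel₀ hu0, mul_one]
  have hAL : aeval x A ∈ L := ⟨A, hA, 0, zero_mem _, by simp⟩
  have hxiM : xi ∈ M := by rw [hxi]; exact mul_mem (hLM _ hAL) huiM
  obtain ⟨hxiR, r1, hr1, h4⟩ := hxiM
  have h5 := D_iterate_x D a b al xi eta k1 k2 k3 p hpo
  rw [hgen] at h5
  have halR : algebraMap K F al ∈ R := hLR _ (hcL _ hal)
  set α : F := algebraMap K F al with hα
  have halp : α ^ p = α ^ (p - 1) * α := by
    rw [← pow_succ, Nat.sub_add_cancel hp.pos]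
  rw [map_pow] at h5
  -- `(al^p - al) H D xi = p r2`
  set r2 : F := α * (r1 - α ^ (p - 1) * D xi * aeval xi g) with hr2
  have hr2R : r2 ∈ R := mul_mem halR (sub_mem hr1 (mul_mem (mul_mem (pow_mem halR _)
    (hRD _ hxiR)) (hgR _ hxiR)))
  have h6 : (α ^ p - α) * H * D xi = p * r2 := by
    rw [hr2, halp]
    linear_combination α * h4 - α * h5
  -- the derivative of `xi`
  have h7 : D xi * u ^ 2 = D x * (aeval x (derivative A * B - A * derivative B)) := by
    have h8 := congrArg D hAB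
    rw [Derivation.leibniz, smul_eq_mul, smul_eq_mul, DiffCM_D_aeval, DiffCM_D_aeval] at h8
    rw [map_sub, map_mul, map_mul]
    linear_combination u * h8 - aeval x (derivative B) * D x * hAB
  obtain ⟨s, G, hG, G', hG', h8⟩ := hr2R
  have h11 : C ((al ^ p - al) * HG a b p * 2) * (derivative A * B - A * derivative B) * B ^ s
      = (p : K[X]) * B ^ 2 * G' := by
    have e1 : aeval x (C ((al ^ p - al) * HG a b p * 2)) = (α ^ p - α) * H * 2 := by
      rw [aeval_C, map_mul, map_mul, map_sub, map_pow, map_ofNat]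
    generalize derivative A * B - A * derivative B = W at h7 ⊢
    generalize (al ^ p - al) * HG a b p * 2 = c at e1 ⊢
    have h9 : aeval x (-((p : K[X]) * B ^ 2 * G)) + y * aeval x
        (C c * W * B ^ s - (p : K[X]) * B ^ 2 * G') = 0 := by
      simp only [map_neg, map_mul, map_sub, map_pow, map_natCast, e1, ← hu]
      rw [h1] at h7
      linear_combination (p : F) * u ^ 2 * h8 + u ^ (s + 2) * h6
        - u ^ s * (α ^ p - α) * H * h7
    exact sub_eq_zero.1 (DiffCM_indep a b x y h3 hx _ _ h9).2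
  set m := B.natDegree with hm
  have h12 : (C ((al ^ p - al) * HG a b p * 2) * (derivative A * B - A * derivative B) *
      B ^ s).coeff (2 * m + s * m) = ((p : K[X]) * B ^ 2 * G').coeff (2 * m + s * m) := by
    rw [h11]
  have hdB : (derivative B).natDegree ≤ m - 1 := natDegree_derivative_le B
  have hdA : (derivative A).natDegree ≤ m := by
    have := natDegree_derivative_le A
    omega
  have hW : (derivative A * B - A * derivative B).coeff (2 * m) =
      A.leadingCoeff * B.leadingCoeff := by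
    rw [coeff_sub]
    have e1 : (derivative A * B).coeff (2 * m) = (m + 1) * A.leadingCoeff * B.leadingCoeff := by
      rw [two_mul, coeff_mul_add_eq_of_natDegree_le hdA le_rfl, coeff_derivative]
      rw [leadingCoeff, leadingCoeff, hdeg, ← hm]; ring
    have e2 : (A * derivative B).coeff (2 * m) = m * A.leadingCoeff * B.leadingCoeff := by
      rcases Nat.eq_zero_or_pos m with h0 | h0
      · have : derivative B = 0 := by
          rw [eq_C_of_natDegree_eq_zero (hm ▸ h0 : B.natDegree = 0)]; simp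
        rw [this, h0]; simp
      · obtain ⟨m', hm'⟩ : ∃ m', m = m' + 1 := ⟨m - 1, by omega⟩
        have : 2 * m = (m + 1) + (m - 1) := by omega
        rw [this, coeff_mul_add_eq_of_natDegree_le (le_of_eq hdeg) hdB, coeff_derivative]
        rw [leadingCoeff, leadingCoeff, hdeg, ← hm, hm']
        simp only [Nat.add_sub_cancel]
        push_cast; ring
    rw [e1, e2]; ring
  have hWd : (derivative A * B - A * derivative B).natDegree ≤ 2 * m := by
    refine (natDegree_sub_le _ _).trans (max_le ?_ ?_)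
    · exact natDegree_mul_le.trans (by omega)
    · rcases Nat.eq_zero_or_pos m with h0 | h0
      · have : derivative B = 0 := by
          rw [eq_C_of_natDegree_eq_zero (hm ▸ h0 : B.natDegree = 0)]; simp
        rw [this]; simp
      · exact natDegree_mul_le.trans (by omega)
  have hBs : (B ^ s).natDegree ≤ s * m := by rw [natDegree_pow]
  rw [mul_assoc, coeff_C_mul, coeff_mul_add_eq_of_natDegree_le hWd hBs, hW] at h12
  have hBsc : (B ^ s).coeff (s * m) = B.leadingCoeff ^ s := by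
    rw [coeff_pow_of_natDegree_le le_rfl]; rfl
  rw [hBsc] at h12
  have h13 : ((p : K[X]) * B ^ 2 * G').coeff (2 * m + s * m) =
      p * (B ^ 2 * G').coeff (2 * m + s * m) := by
    rw [mul_assoc, ← C_eq_natCast, coeff_C_mul]
  rw [h13] at h12
  refine ⟨s + 1, ?_⟩
  have hp0 : (p : K) ≠ 0 := Nat.cast_ne_zero.2 hp.ne_zero
  have h14 : (al ^ p - al) * HG a b p * 2 * A.leadingCoeff * B.leadingCoeff ^ (s + 1) / (p : K) =
      (B ^ 2 * G').coeff (2 * m + s * m) := by
    rw [div_eq_iff hp0]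
    linear_combination h12
  rw [h14]
  exact (mul_mem (pow_mem (show B ∈ DiffCM_P0 K from hB) 2) hG') _

end

end Pool.Agent.ZCM
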