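import Pool.Agent.ZCM.Defs

/-! # J6: inert primes -/

namespace Pool.Agent.ZCM
open NumberField

/-- divisibility by an integer prime to `p` can be removed -/
theorem Inert_cancel {R : Type*} [CommRing R] (p : ℕ) (N : ℤ) (hc : IsCoprime (p : ℤ) N) (h : R)
    (hd : (p : R) ∣ (N : R) * h) : (p : R) ∣ h := by
  obtain ⟨a, b, hab⟩ := hc
  have h1 : (a : R) * p + b * N = 1 := by
    have := congrArg (fun z : ℤ => (z : R)) hab
    simpa using this
  have h2 : h = (p : R) * ((a : R) * h) + (b : R) * ((N : R) * h) := by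
    linear_combination (-h) * h1
  rw [h2]
  exact dvd_add (dvd_mul_right _ _) (Dvd.dvd.mul_left hd _)

/-- the congruence `a^p + a - s ≡ 0 mod p` -/
theorem Inert_frob {R : Type*} [CommRing R] (a : R) (s n : ℤ) (hal : a ^ 2 - s * a + n = 0)
    (p : ℕ) [Fact p.Prime] (hp2 : p ≠ 2) (hleg : legendreSym p (s ^ 2 - 4 * n) = -1) :
    (p : R) ∣ a ^ p + a - s := by
  have hp : p.Prime := Fact.out
  set Δ : ℤ := s ^ 2 - 4 * n with hΔ
  set δ : R := 2 * a - s with hδ
  have hδ2 : δ ^ 2 = (Δ : R) := by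
    rw [hδ, hΔ]; push_cast; linear_combination 4 * hal
  have hodd : p = 2 * (p / 2) + 1 := by
    have := hp.eq_two_or_odd'
    rcases this with h | ⟨k, hk⟩
    · exact absurd h hp2
    · omega
  -- `Δ^{(p-1)/2} = -1 + p k`
  obtain ⟨k, hk⟩ : (p : ℤ) ∣ Δ ^ (p / 2) + 1 := by
    rw [← ZMod.intCast_zmod_eq_zero_iff_dvd]
    push_cast
    rw [← legendreSym.eq_pow, hleg]
    simp
  have hδp : δ ^ p = δ * (-1 + p * k) := by
    have h1 : δ ^ p = δ * (δ ^ 2) ^ (p / 2) := by
      rw [← pow_mul, ← pow_succ']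
      congr 1
    have h2 : ((Δ : R)) ^ (p / 2) = -1 + p * k := by
      have := congrArg (fun z : ℤ => (z : R)) hk
      push_cast at this
      linear_combination this
    rw [h1, hδ2, h2]
  -- Fermat
  obtain ⟨m1, hm1⟩ : (p : ℤ) ∣ (2 : ℤ) ^ p - 2 := by
    rw [← ZMod.intCast_zmod_eq_zero_iff_dvd]
    push_cast
    rw [ZMod.pow_card, sub_self]
  obtain ⟨m2, hm2⟩ : (p : ℤ) ∣ s ^ p - s := by
    rw [← ZMod.intCast_zmod_eq_zero_iff_dvd]
    push_cast
    rw [ZMod.pow_card, sub_self]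
  have hm1' : (2 : R) ^ p = 2 + p * m1 := by
    have := congrArg (fun z : ℤ => (z : R)) hm1
    push_cast at this
    linear_combination this
  have hm2' : (s : R) ^ p = s + p * m2 := by
    have := congrArg (fun z : ℤ => (z : R)) hm2
    push_cast at this
    linear_combination this
  obtain ⟨r, hr⟩ := exists_add_pow_prime_eq hp δ (s : R)
  have hsum : δ + s = 2 * a := by rw [hδ]; ring
  rw [hsum, mul_pow, hm1', hδp, hm2'] at hr
  -- `2 (a^p + a - s) = p * ...`
  have h2 : (p : R) ∣ ((2 : ℤ) : R) * (a ^ p + a - s) := by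
    refine ⟨δ * k + m2 + δ * s * r - m1 * a ^ p, ?_⟩
    push_cast
    rw [hδ] at hr ⊢
    linear_combination hr
  refine Inert_cancel p 2 ?_ _ h2
  rw [Int.isCoprime_iff_gcd_eq_one]
  have : Nat.Coprime p 2 := by
    rw [Nat.coprime_primes hp Nat.prime_two]
    exact hp2
  exact this

/-- `α^2 - sα + n = 0`, `Δ0 = s^2 - 4n` a non-residue mod the odd prime `p`:
if `(α^p - α) h ∈ p O` then `h ∈ p O` -/
theorem inert {K : Type*} [Field K] [NumberField K] (al : K) (s n : ℤ)
    (hal : al ^ 2 - s * al + n = 0) (p : ℕ) [Fact p.Prime] (hp2 : p ≠ 2)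
    (hleg : legendreSym p (s ^ 2 - 4 * n) = -1) (h : K) (hh : IsIntegral ℤ h)
    (hd : IsIntegral ℤ ((al ^ p - al) * h / (p : K))) : IsIntegral ℤ (h / (p : K)) := by
  have hp : p.Prime := Fact.out
  have hp0 : (p : K) ≠ 0 := Nat.cast_ne_zero.mpr hp.ne_zero
  -- `al` is integral
  have hali : IsIntegral ℤ al := by
    refine ⟨Polynomial.X ^ 2 - Polynomial.C s * Polynomial.X + Polynomial.C n, ?_, ?_⟩
    · monicity!
    · simp only [Polynomial.eval₂_add, Polynomial.eval₂_sub, Polynomial.eval₂_mul,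
        Polynomial.eval₂_pow, Polynomial.eval₂_X, Polynomial.eval₂_C]
      simpa using hal
  let O := integralClosure ℤ K
  let a : O := ⟨al, hali⟩
  let h' : O := ⟨h, hh⟩
  let d : O := ⟨_, hd⟩
  have ha : a ^ 2 - s * a + n = 0 := by
    apply Subtype.ext
    simpa [a] using hal
  have hdvd : (p : O) ∣ a ^ p + a - s := Inert_frob a s n ha p hp2 hleg
  have hpd : (p : O) * d = (a ^ p - a) * h' := by
    apply Subtype.ext
    simp only [d, a, h', MulMemClass.coe_mul, AddSubgroupClass.coe_sub,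
      SubmonoidClass.coe_pow]
    have : ((p : O) : K) = (p : K) := by simp
    rw [this]
    field_simp
  -- `Δ h ∈ p O`
  obtain ⟨c, hc⟩ := hdvd
  have h1 : (p : O) ∣ ((s ^ 2 - 4 * n : ℤ) : O) * h' := by
    -- `a^p - a = s - 2a + p c`
    have h2 : a ^ p - a = (s - 2 * a) + p * c := by linear_combination hc
    rw [h2] at hpd
    refine ⟨(s - 2 * a) * d - c * (s - 2 * a) * h', ?_⟩
    push_cast
    linear_combination (s - 2 * a) * (-1 : O) * hpd + (-4 * h') * ha
  have hcop : IsCoprime (p : ℤ) (s ^ 2 - 4 * n) := by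
    rw [Int.isCoprime_iff_gcd_eq_one]
    by_contra hcon
    have hdvd : (p : ℤ) ∣ s ^ 2 - 4 * n := by
      have hg := Int.gcd_dvd_left (p : ℤ) (s ^ 2 - 4 * n)
      have hg' := Int.gcd_dvd_right (p : ℤ) (s ^ 2 - 4 * n)
      have h3 : Int.gcd (p : ℤ) (s ^ 2 - 4 * n) ∣ p := by exact_mod_cast hg
      rcases (Nat.dvd_prime hp).mp h3 with h4 | h4
      · exact absurd h4 hcon
      · rw [h4] at hg'; exact hg'
    rw [← ZMod.intCast_zmod_eq_zero_iff_dvd] at hdvd
    rw [(legendreSym.eq_zero_iff p _).mpr hdvd] at hleg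
    exact absurd hleg (by decide)
  obtain ⟨q, hq⟩ := Inert_cancel p _ hcop h' h1
  have hq' : h = (p : K) * (q : K) := by
    have := congrArg (fun z : O => (z : K)) hq
    simpa [h'] using this
  have : h / (p : K) = (q : K) := by
    rw [hq']; field_simp
  rw [this]
  exact q.2

/-- removing an algebraic integer prime to `p` -/
theorem remove_unit {K : Type*} [Field K] [NumberField K] (u : K) (hu : IsIntegral ℤ u)
    (hu0 : u ≠ 0) : ∃ M : ℕ, 0 < M ∧ ∀ p : ℕ, p.Prime → ¬ p ∣ M → ∀ (h : K) (s : ℕ),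
      IsIntegral ℤ h → IsIntegral ℤ (h * u ^ s / (p : K)) → IsIntegral ℤ (h / (p : K)) := by
  let O := integralClosure ℤ K
  let u' : O := ⟨u, hu⟩
  -- `u ∣ N` for a nonzero integer `N`
  obtain ⟨N, hN0, w, hw⟩ : ∃ N : ℤ, N ≠ 0 ∧ ∃ w : O, (N : O) = u' * w := by
    let v : 𝓞 K := ⟨u, hu⟩
    have hv0 : v ≠ 0 := by
      intro h
      exact hu0 (congrArg (fun z : 𝓞 K => (z : K)) h)
    have hmem := Ideal.absNorm_mem (Ideal.span {v})
    rw [Ideal.mem_span_singleton] at hmem
    obtain ⟨w, hw⟩ := hmem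
    refine ⟨(Ideal.absNorm (Ideal.span {v}) : ℤ), ?_, ⟨(w : K), w.isIntegral_coe⟩, ?_⟩
    · rw [Int.natCast_ne_zero, Ne, Ideal.absNorm_eq_zero_iff, Ideal.span_singleton_eq_bot]
      exact hv0
    · apply Subtype.ext
      have h1 := congrArg (algebraMap (𝓞 K) K) hw
      rw [map_mul, map_natCast] at h1
      have h2 : (((Ideal.absNorm (Ideal.span {v}) : ℤ) : O) : K) =
          ((Ideal.absNorm (Ideal.span {v}) : ℕ) : K) := by simp
      rw [h2, h1]
      rfl
  refine ⟨N.natAbs, Int.natAbs_pos.mpr hN0, fun p hp hpM h s hh hd => ?_⟩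
  have hp0 : (p : K) ≠ 0 := Nat.cast_ne_zero.mpr hp.ne_zero
  let h' : O := ⟨h, hh⟩
  let d : O := ⟨_, hd⟩
  have hpd : (p : O) * d = h' * u' ^ s := by
    apply Subtype.ext
    simp only [d, h', u', MulMemClass.coe_mul, SubmonoidClass.coe_pow]
    have : ((p : O) : K) = (p : K) := by simp
    rw [this]
    field_simp
  have h1 : (p : O) ∣ ((N ^ s : ℤ) : O) * h' := by
    refine ⟨d * w ^ s, ?_⟩
    push_cast
    rw [hw, mul_pow]
    linear_combination (-(w ^ s)) * hpd
  have hcop : IsCoprime (p : ℤ) (N ^ s) := by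
    apply IsCoprime.pow_right
    rw [Int.isCoprime_iff_gcd_eq_one]
    exact (Nat.Prime.coprime_iff_not_dvd hp).mpr hpM
  obtain ⟨q, hq⟩ := Inert_cancel p _ hcop h' h1
  have hq' : h = (p : K) * (q : K) := by
    have := congrArg (fun z : O => (z : K)) hq
    simpa [h'] using this
  have : h / (p : K) = (q : K) := by
    rw [hq']; field_simp
  rw [this]
  exact q.2

end Pool.Agent.ZCM
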