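import Pool.Agent.ZCM.DiffDiv
import Pool.Agent.ZCM.DiffCM
import Pool.Agent.ZCM.Descent
import Pool.Agent.ZCM.Inert
import Pool.Agent.ZCM.DensChi

/-! # J8: complex multiplication implies the supersingular hypothesis -/

namespace Pool.Agent.ZCM
open NumberField

/-- the Hasse invariant of integral parameters is integral -/
theorem HSof_integral_HG {K : Type*} [Field K] (a b : K) (ha : IsIntegral ℤ a)
    (hb : IsIntegral ℤ b) (p : ℕ) : IsIntegral ℤ (HG a b p) := by
  have h := map_HG (algebraMap (integralClosure ℤ K) K) (⟨a, ha⟩ : integralClosure ℤ K)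
    (⟨b, hb⟩ : integralClosure ℤ K) p
  have ha' : algebraMap (integralClosure ℤ K) K (⟨a, ha⟩ : integralClosure ℤ K) = a := rfl
  have hb' : algebraMap (integralClosure ℤ K) K (⟨b, hb⟩ : integralClosure ℤ K) = b := rfl
  rw [ha', hb'] at h
  rw [← h]
  exact (HG (⟨a, ha⟩ : integralClosure ℤ K) (⟨b, hb⟩ : integralClosure ℤ K) p).2

theorem HSof_integral_al {K : Type*} [Field K] (al : K) (s n : ℤ)
    (hal : al ^ 2 - s * al + n = 0) : IsIntegral ℤ al := by
  refine ⟨Polynomial.X ^ 2 + (Polynomial.C (-s) * Polynomial.X + Polynomial.C n), ?_, ?_⟩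
  · apply Polynomial.monic_X_pow_add
    apply lt_of_le_of_lt (Polynomial.degree_add_le _ _)
    apply max_lt
    · apply lt_of_le_of_lt (Polynomial.degree_C_mul_X_le _)
      decide
    · apply lt_of_le_of_lt Polynomial.degree_C_le
      decide
  · simp only [Polynomial.eval₂_add, Polynomial.eval₂_pow, Polynomial.eval₂_X,
      Polynomial.eval₂_mul, Polynomial.eval₂_C]
    simp only [eq_intCast, Int.cast_neg]
    linear_combination hal

theorem HSof_mk (K F : Type*) [Field K] [Field F] [Algebra K F] (d : F → F)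
    (hadd : ∀ f g, d (f + g) = d f + d g)
    (hsmul : ∀ (c : K) (f : F), d (algebraMap K F c * f) = algebraMap K F c * d f)
    (hone : d 1 = 0) (hleib : ∀ f g, d (f * g) = f * d g + g * d f) :
    ∃ D : Derivation K F F, ∀ f, D f = d f := by
  refine ⟨{ toFun := d
            map_add' := hadd
            map_smul' := ?_
            map_one_eq_zero' := hone
            leibniz' := hleib }, fun f => rfl⟩
  intro c f
  rw [Algebra.smul_def, Algebra.smul_def]
  exact hsmul c f

/-- the conclusion of `cm_red` and `div_of_hasse` for a bare map -/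
theorem HSof_core (K F : Type*) [Field K] [NumberField K] [Field F] [Algebra K F] (d : F → F)
    (hadd : ∀ f g, d (f + g) = d f + d g)
    (hsmul : ∀ (c : K) (f : F), d (algebraMap K F c * f) = algebraMap K F c * d f)
    (hone : d 1 = 0) (hleib : ∀ f g, d (f * g) = f * d g + g * d f)
    (a b al : K) (ha : IsIntegral ℤ a) (hb : IsIntegral ℤ b) (s n : ℤ)
    (hal : al ^ 2 - s * al + n = 0) (hΔ : s ^ 2 - 4 * n < 0) (x y xi eta : F)
    (d1 : d x = 2 * y) (d2 : d y = 3 * x ^ 2 + algebraMap K F a)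
    (d3 : y ^ 2 = x ^ 3 + algebraMap K F a * x + algebraMap K F b)
    (htr : Transcendental K x) (d4 : d xi = 2 * algebraMap K F al * eta)
    (d5 : d eta = algebraMap K F al * (3 * xi ^ 2 + algebraMap K F a))
    (d6 : eta ^ 2 = xi ^ 3 + algebraMap K F a * xi + algebraMap K F b)
    (A B : Polynomial K) (hA : ∀ i, IsIntegral ℤ (A.coeff i)) (hB : ∀ i, IsIntegral ℤ (B.coeff i))
    (hB0 : B ≠ 0) (hdeg : A.natDegree = B.natDegree + 1)
    (hAB : xi * Polynomial.aeval x B = Polynomial.aeval x A) : HS K a b := by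
  obtain ⟨D, hD⟩ := HSof_mk K F d hadd hsmul hone hleib
  rw [← hD] at d1 d2 d4 d5
  have hali : IsIntegral ℤ al := HSof_integral_al al s n hal
  have hA0 : A ≠ 0 := by
    intro h
    rw [h, Polynomial.natDegree_zero] at hdeg
    omega
  have hlA : A.leadingCoeff ≠ 0 := Polynomial.leadingCoeff_ne_zero.mpr hA0
  have hlB : B.leadingCoeff ≠ 0 := Polynomial.leadingCoeff_ne_zero.mpr hB0
  have hlAi : IsIntegral ℤ A.leadingCoeff := hA _
  have hlBi : IsIntegral ℤ B.leadingCoeff := hB _
  have h2i : IsIntegral ℤ (2 : K) := by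
    have : IsIntegral ℤ ((2 : ℤ) : K) := isIntegral_algebraMap (R := ℤ) (A := K) (x := (2 : ℤ))
    simpa using this
  have hui : IsIntegral ℤ (2 * A.leadingCoeff * B.leadingCoeff) := (h2i.mul hlAi).mul hlBi
  have hu0 : 2 * A.leadingCoeff * B.leadingCoeff ≠ 0 := by
    simp [hlA, hlB]
  obtain ⟨M, hM, hrem⟩ := remove_unit (2 * A.leadingCoeff * B.leadingCoeff) hui hu0
  obtain ⟨C, hC⟩ := dens_chi (s ^ 2 - 4 * n) hΔ M hM
  refine ⟨{p : ℕ | p.Prime ∧ p ≠ 2 ∧ ¬ p ∣ M ∧ jacobiSym (s ^ 2 - 4 * n) p = -1},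
    fun p hp => hp.1, ⟨C, ?_⟩, ?_⟩
  · intro N hN
    refine le_trans (le_of_eq ?_) (hC N hN)
    apply Finset.sum_congr ?_ (fun _ _ => rfl)
    ext q
    simp only [Finset.mem_filter]
  · rintro p ⟨hp, hp2, hpM, hj⟩ m
    have : Fact p.Prime := ⟨hp⟩
    have hleg : legendreSym p (s ^ 2 - 4 * n) = -1 := by
      rw [jacobiSym.legendreSym.to_jacobiSym]
      exact hj
    have hHi : IsIntegral ℤ (HG a b p) := HSof_integral_HG a b ha hb p
    have hhi : IsIntegral ℤ ((al ^ p - al) * HG a b p) := ((hali.pow p).sub hali).mul hHi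
    obtain ⟨t, ht⟩ := cm_red D a b x y ha hb d1 d2 d3 htr p hp hp2 al hali xi eta d4 d5 d6 A B
      hA hB hB0 hdeg hAB
    have h6 : IsIntegral ℤ (((al ^ p - al) * HG a b p) *
        (2 * A.leadingCoeff * B.leadingCoeff) ^ (t + 1) / (p : K)) := by
      have h7 : ((al ^ p - al) * HG a b p) *
          (2 * A.leadingCoeff * B.leadingCoeff) ^ (t + 1) / (p : K) =
          ((al ^ p - al) * HG a b p * 2 * A.leadingCoeff * B.leadingCoeff ^ t / (p : K)) *
            (2 ^ t * A.leadingCoeff ^ t * B.leadingCoeff) := by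
        ring
      rw [h7]
      exact ht.mul (((h2i.pow t).mul (hlAi.pow t)).mul hlBi)
    have h8 := hrem p hp hpM _ _ hhi h6
    have h9 : IsIntegral ℤ (HG a b p / (p : K)) :=
      inert al s n hal p hp2 hleg (HG a b p) hHi h8
    exact div_of_hasse D a b x y ha hb d1 d2 d3 htr p hp hp2 h9 m

theorem hs_of_cm (L : PeriodPair) {K : Type*} [Field K] [NumberField K] (ι : K →+* ℂ)
    (a b al : K) (ha : IsIntegral ℤ a) (hb : IsIntegral ℤ b)
    (h2 : L.g₂ = -4 * ι a) (h3 : L.g₃ = -4 * ι b) (s n : ℤ)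
    (hal : al ^ 2 - s * al + n = 0) (hΔ : s ^ 2 - 4 * n < 0)
    (hL : ∀ l ∈ L.lattice, ι al * l ∈ L.lattice) : HS K a b := by
  have hal0 : al ≠ 0 := by
    intro h0
    rw [h0] at hal
    have h4 : (n : K) = 0 := by linear_combination hal
    have h5 : n = 0 := by exact_mod_cast h4
    rw [h5] at hΔ
    nlinarith [sq_nonneg s]
  obtain ⟨D, x, y, xi, eta, d1, d2, d3, htr, d4, d5, d6, d7, d8⟩ := realise K a b al hal0
  obtain ⟨A, B, hA, hB, hB0, hdeg, hAB⟩ := descent L ι a b al h2 h3 hal0 hL x xi d7 d8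
  apply HSof_core K (LaurentSeries K) D (fun f g => D.map_add f g) ?_ D.map_one_eq_zero
    (fun f g => D.leibniz f g) a b al ha hb s n hal hΔ x y xi eta d1 d2 d3 htr d4 d5 d6 A B hA hB
    hB0 hdeg hAB
  intro c f
  have h := D.leibniz (algebraMap K (LaurentSeries K) c) f
  rw [D.map_algebraMap, smul_zero, add_zero, smul_eq_mul] at h
  exact h

end Pool.Agent.ZCM
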