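import Pool.Agent.ZCM.ThetaAlg
import Pool.Agent.ZCM.Contr
import Pool.Agent.ZCM.HSof
import Pool.Agent.ZCM.Bridge

/-! # FIN: the theorem -/

namespace Pool.Agent.ZCM

/-- a number field containing finitely many algebraic numbers -/
theorem Fin_numberField (S : Set ℂ) [Finite S] (hS : ∀ x ∈ S, IsAlgebraic ℚ x) :
    ∃ (K : Type) (_ : Field K) (_ : NumberField K) (ι : K →+* ℂ), ∀ x ∈ S, ∃ k : K, ι k = x := by
  have hfd : FiniteDimensional ℚ (IntermediateField.adjoin ℚ S) :=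
    IntermediateField.finiteDimensional_adjoin fun x hx => (hS x hx).isIntegral
  refine ⟨IntermediateField.adjoin ℚ S, inferInstance, ⟨⟩, algebraMap _ ℂ, fun x hx => ?_⟩
  exact ⟨⟨x, IntermediateField.subset_adjoin ℚ S hx⟩, rfl⟩

theorem Fin_integral {K : Type} [Field K] (ι : K →+* ℂ) {k : K} (h : IsIntegral ℤ (ι k)) :
    IsIntegral ℤ k := by
  have : IsIntegral ℤ ((ι.toIntAlgHom) k) := h
  exact (isIntegral_algHom_iff ι.toIntAlgHom ι.injective).1 this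

/-- core statement for a lattice with integral `a, b` -/
theorem core (L : PeriodPair) (a b al β : ℂ) (ha : IsIntegral ℤ a) (hb : IsIntegral ℤ b)
    (h2 : L.g₂ = -4 * a) (h3 : L.g₃ = -4 * b) (s n : ℤ)
    (hal : al ^ 2 - s * al + n = 0) (hΔ : s ^ 2 - 4 * n < 0)
    (hL : ∀ l ∈ L.lattice, al * l ∈ L.lattice) (hβ : β ∉ L.lattice)
    (hβa : IsAlgebraic ℚ β) (hζ : IsAlgebraic ℚ (zetaL L β)) : False := by
  classical
  have haQ : IsAlgebraic ℚ a := (ha.tower_top (A := ℚ)).isAlgebraic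
  have hbQ : IsAlgebraic ℚ b := (hb.tower_top (A := ℚ)).isAlgebraic
  have halQ : IsAlgebraic ℚ al := by
    have hi : IsIntegral ℤ al := by
      refine ⟨Polynomial.X ^ 2 - Polynomial.C s * Polynomial.X + Polynomial.C n, ?_, ?_⟩
      · monicity!
      · rw [← Polynomial.aeval_def]
        simpa using hal
    exact (hi.tower_top (A := ℚ)).isAlgebraic
  -- common data for a number field
  have key : ∀ (K : Type) [Field K] [NumberField K] (ι : K →+* ℂ) (a' b' al' : K),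
      ι a' = a → ι b' = b → ι al' = al → HS K a' b' := by
    intro K _ _ ι a' b' al' e1 e2 e3
    refine hs_of_cm L ι a' b' al' (Fin_integral ι (e1 ▸ ha)) (Fin_integral ι (e2 ▸ hb))
      (by rw [h2, e1]) (by rw [h3, e2]) s n ?_ hΔ (by rw [e3]; exact hL)
    apply ι.injective
    simp only [map_add, map_sub, map_mul, map_pow, e3, map_intCast, map_zero]
    exact hal
  -- first step
  have hθ : IsAlgebraic ℚ (L.weierstrassP β) := by
    obtain ⟨K, _, _, ι, hK⟩ := Fin_numberField {a, b, al, β, zetaL L β} (by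
      intro x hx
      simp only [Set.mem_insert_iff, Set.mem_singleton_iff] at hx
      rcases hx with rfl | rfl | rfl | rfl | rfl <;> assumption)
    obtain ⟨a', ea⟩ := hK a (by simp)
    obtain ⟨b', eb⟩ := hK b (by simp)
    obtain ⟨al', eal⟩ := hK al (by simp)
    obtain ⟨β', eβ⟩ := hK β (by simp)
    obtain ⟨c', ec⟩ := hK (zetaL L β) (by simp)
    have ia : IsIntegral ℤ a' := Fin_integral ι (ea ▸ ha)
    have ib : IsIntegral ℤ b' := Fin_integral ι (eb ▸ hb)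
    have := theta_alg L ι ⟨a', ia⟩ ⟨b', ib⟩ (by rw [h2, ← ea]; rfl) (by rw [h3, ← eb]; rfl)
      (key K ι a' b' al' ea eb eal) β' c' (by rw [eβ]; exact hβ) (by rw [eβ, ec])
    rwa [eβ] at this
  have hθ' : IsAlgebraic ℚ (L.derivWeierstrassP β / 2) := by
    have hode := ode L a b h2 h3 hβ
    have : IsAlgebraic ℚ ((L.derivWeierstrassP β / 2) ^ 2) := by
      rw [hode]
      exact ((hθ.pow 3).add (haQ.mul hθ)).add hbQ
    exact this.of_pow (by norm_num)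
  -- second step
  obtain ⟨K, _, _, ι, hK⟩ := Fin_numberField
    {a, b, al, β, zetaL L β, L.weierstrassP β, L.derivWeierstrassP β / 2} (by
      intro x hx
      simp only [Set.mem_insert_iff, Set.mem_singleton_iff] at hx
      rcases hx with rfl | rfl | rfl | rfl | rfl | rfl | rfl <;> assumption)
  obtain ⟨a', ea⟩ := hK a (by simp)
  obtain ⟨b', eb⟩ := hK b (by simp)
  obtain ⟨al', eal⟩ := hK al (by simp)
  obtain ⟨β', eβ⟩ := hK β (by simp)
  obtain ⟨c', ec⟩ := hK (zetaL L β) (by simp)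
  obtain ⟨θ, eθ⟩ := hK (L.weierstrassP β) (by simp)
  obtain ⟨θ', eθ'⟩ := hK (L.derivWeierstrassP β / 2) (by simp)
  have ia : IsIntegral ℤ a' := Fin_integral ι (ea ▸ ha)
  have ib : IsIntegral ℤ b' := Fin_integral ι (eb ▸ hb)
  exact contr L ι ⟨a', ia⟩ ⟨b', ib⟩ (by rw [h2, ← ea]; rfl) (by rw [h3, ← eb]; rfl)
      (key K ι a' b' al' ea eb eal) β' c' θ θ' (by rw [eβ]; exact hβ) (by rw [eβ, ec])
      (by rw [eβ, eθ]) (by rw [eβ, eθ'])

/-- arithmetic of the CM hypothesis -/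
theorem cm_data (ω₁ ω₂ al : ℂ) (him : (ω₂ / ω₁).im ≠ 0) (hal : al.im ≠ 0)
    (h1 : ∃ a b : ℚ, al * ω₁ = a * ω₁ + b * ω₂) (h2 : ∃ a b : ℚ, al * ω₂ = a * ω₁ + b * ω₂) :
    ∃ (N : ℕ) (s n : ℤ), 0 < N ∧ ((N : ℂ) * al) ^ 2 - s * ((N : ℂ) * al) + n = 0 ∧
      s ^ 2 - 4 * n < 0 ∧ ∀ u v : ℤ, ∃ u' v' : ℤ,
        (N : ℂ) * al * (u * ω₁ + v * ω₂) = u' * ω₁ + v' * ω₂ := by
  obtain ⟨A, B, e1⟩ := h1
  obtain ⟨A', B', e2⟩ := h2
  have hω₁ : ω₁ ≠ 0 := by rintro rfl; simp at him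
  have hω₂ : ω₂ ≠ 0 := by rintro rfl; simp at him
  -- common denominator
  obtain ⟨N, hN, a, b, c, d, ha, hb, hc, hd⟩ : ∃ N : ℕ, 0 < N ∧ ∃ a b c d : ℤ,
      (a : ℚ) = N * A ∧ (b : ℚ) = N * B ∧ (c : ℚ) = N * A' ∧ (d : ℚ) = N * B' := by
    refine ⟨A.den * B.den * A'.den * B'.den, by positivity,
      A.num * B.den * A'.den * B'.den, B.num * A.den * A'.den * B'.den,
      A'.num * A.den * B.den * B'.den, B'.num * A.den * B.den * A'.den, ?_, ?_, ?_, ?_⟩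
    · have := Rat.mul_den_eq_num A
      push_cast; rw [← this]; ring
    · have := Rat.mul_den_eq_num B
      push_cast; rw [← this]; ring
    · have := Rat.mul_den_eq_num A'
      push_cast; rw [← this]; ring
    · have := Rat.mul_den_eq_num B'
      push_cast; rw [← this]; ring
  have ha' : (a : ℂ) = N * A := by exact_mod_cast congrArg (fun q : ℚ => (q : ℂ)) ha
  have hb' : (b : ℂ) = N * B := by exact_mod_cast congrArg (fun q : ℚ => (q : ℂ)) hb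
  have hc' : (c : ℂ) = N * A' := by exact_mod_cast congrArg (fun q : ℚ => (q : ℂ)) hc
  have hd' : (d : ℂ) = N * B' := by exact_mod_cast congrArg (fun q : ℚ => (q : ℂ)) hd
  have f1 : (N : ℂ) * al * ω₁ = a * ω₁ + b * ω₂ := by rw [ha', hb']; linear_combination (N : ℂ) * e1
  have f2 : (N : ℂ) * al * ω₂ = c * ω₁ + d * ω₂ := by rw [hc', hd']; linear_combination (N : ℂ) * e2
  have hquad : ((N : ℂ) * al) ^ 2 - ((a + d : ℤ) : ℂ) * ((N : ℂ) * al) + ((a * d - b * c : ℤ) : ℂ) = 0 := by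
    have : (ω₁ * ω₂) * (((N : ℂ) * al) ^ 2 - ((a + d : ℤ) : ℂ) * ((N : ℂ) * al)
        + ((a * d - b * c : ℤ) : ℂ)) = 0 := by
      push_cast
      have g1 : ((N : ℂ) * al - a) * ω₁ = b * ω₂ := by linear_combination f1
      have g2 : ((N : ℂ) * al - d) * ω₂ = c * ω₁ := by linear_combination f2
      have : (((N : ℂ) * al - a) * ω₁) * (((N : ℂ) * al - d) * ω₂) = (b * ω₂) * (c * ω₁) := by
        rw [g1, g2]
      linear_combination this
    exact (mul_eq_zero.1 this).resolve_left (mul_ne_zero hω₁ hω₂)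
  refine ⟨N, a + d, a * d - b * c, hN, hquad, ?_, fun u v => ⟨u * a + v * c, u * b + v * d, ?_⟩⟩
  · by_contra hcon
    push Not at hcon
    have hsq : (2 * ((N : ℂ) * al) - ((a + d : ℤ) : ℂ)) ^ 2
        = (((a + d) ^ 2 - 4 * (a * d - b * c) : ℤ) : ℂ) := by
      push_cast; push_cast at hquad; linear_combination 4 * hquad
    set w : ℂ := 2 * ((N : ℂ) * al) - ((a + d : ℤ) : ℂ) with hw
    have him' : (w ^ 2).im = 0 := by rw [hsq]; exact Complex.intCast_im _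
    have hre' : 0 ≤ (w ^ 2).re := by rw [hsq, Complex.intCast_re]; exact_mod_cast hcon
    have hwim : w.im = 2 * N * al.im := by simp [hw]; ring
    have hwne : w.im ≠ 0 := by
      rw [hwim]; have : (N : ℝ) ≠ 0 := by positivity
      exact mul_ne_zero (mul_ne_zero two_ne_zero this) hal
    have h3 : 2 * w.re * w.im = 0 := by
      have := him'; rw [sq, Complex.mul_im] at this; linarith
    have h4 : w.re = 0 := by
      rcases mul_eq_zero.1 h3 with h | h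
      · linarith
      · exact absurd h hwne
    have h5 : (w ^ 2).re = - w.im ^ 2 := by rw [sq, Complex.mul_re, h4]; ring
    rw [h5] at hre'
    have : 0 < w.im ^ 2 := by positivity
    linarith
  · push_cast
    linear_combination (u : ℂ) * f1 + (v : ℂ) * f2

theorem Fin_nat (k : ℕ) : IsIntegral ℤ (k : ℂ) := by
  have := isIntegral_algebraMap (R := ℤ) (A := ℂ) (x := (k : ℤ))
  simpa using this

theorem Fin_clear (x : ℂ) (hx : IsAlgebraic ℚ x) : ∃ d : ℕ, 0 < d ∧ IsIntegral ℤ ((d : ℂ) * x) := by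
  have hx' : IsAlgebraic ℤ x := (IsFractionRing.isAlgebraic_iff ℤ ℚ ℂ).2 hx
  obtain ⟨y, hy, h⟩ := hx'.exists_integral_multiple
  refine ⟨y.natAbs, Int.natAbs_pos.2 hy, ?_⟩
  have h' : IsIntegral ℤ ((y : ℂ) * x) := by simpa [zsmul_eq_mul] using h
  rcases Int.natAbs_eq y with h1 | h1
  · have : ((y.natAbs : ℕ) : ℂ) = (y : ℂ) := by
      rw [h1]; simp
    rw [this]; exact h'
  · have : ((y.natAbs : ℕ) : ℂ) = -(y : ℂ) := by
      have := congrArg (fun t : ℤ => (t : ℂ)) h1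
      simp only [Int.cast_neg, Int.cast_natCast] at this
      rw [this]; simp
    rw [this, neg_mul]; exact h'.neg

/-- the theorem -/
theorem main (ω₁ ω₂ : ℂ) (him : (ω₂ / ω₁).im ≠ 0)
    (hg2 : IsAlgebraic ℚ (60 * ∑' q : ℤ × ℤ,
      if q = 0 then (0 : ℂ) else 1 / ((q.1 : ℂ) * ω₁ + (q.2 : ℂ) * ω₂) ^ 4))
    (hg3 : IsAlgebraic ℚ (140 * ∑' q : ℤ × ℤ,
      if q = 0 then (0 : ℂ) else 1 / ((q.1 : ℂ) * ω₁ + (q.2 : ℂ) * ω₂) ^ 6))
    (al : ℂ) (hal : al.im ≠ 0) (h1 : ∃ a b : ℚ, al * ω₁ = a * ω₁ + b * ω₂)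
    (h2 : ∃ a b : ℚ, al * ω₂ = a * ω₁ + b * ω₂)
    (p : ℂ) (hp : ∀ a b : ℤ, p ≠ (a : ℂ) * ω₁ + (b : ℂ) * ω₂)
    (hζ : IsAlgebraic ℚ (1 / p + ∑' q : ℤ × ℤ,
          if q = 0 then (0 : ℂ) else
            (1 / (p - ((q.1 : ℂ) * ω₁ + (q.2 : ℂ) * ω₂))
              + 1 / ((q.1 : ℂ) * ω₁ + (q.2 : ℂ) * ω₂)
              + p / ((q.1 : ℂ) * ω₁ + (q.2 : ℂ) * ω₂) ^ 2))) :
    Transcendental ℚ p := by
  intro hpa
  obtain ⟨L, hL1, hL2⟩ := exists_periodPair ω₁ ω₂ him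
  subst hL1 hL2
  rw [← g₂_eq_tsum] at hg2
  rw [← g₃_eq_tsum] at hg3
  rw [← zetaL_eq_tsum] at hζ
  obtain ⟨N, s, n, hN, hq, hΔ, hmat⟩ := cm_data L.ω₁ L.ω₂ al him hal h1 h2
  obtain ⟨d2, hd2, i2⟩ := Fin_clear (-L.g₂ / 4) (by
    have : -L.g₂ / 4 = -(L.g₂) * ((1 / 4 : ℚ) : ℂ) := by push_cast; ring
    rw [this]; exact hg2.neg.mul (isAlgebraic_algebraMap (1 / 4 : ℚ)))
  obtain ⟨d3, hd3, i3⟩ := Fin_clear (-L.g₃ / 4) (by
    have : -L.g₃ / 4 = -(L.g₃) * ((1 / 4 : ℚ) : ℂ) := by push_cast; ring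
    rw [this]; exact hg3.neg.mul (isAlgebraic_algebraMap (1 / 4 : ℚ)))
  have hm : 0 < d2 * d3 := Nat.mul_pos hd2 hd3
  obtain ⟨L', hmem, hg2', hg3', hz⟩ := scale L (d2 * d3) hm
  have hmC : ((d2 * d3 : ℕ) : ℂ) ≠ 0 := by exact_mod_cast hm.ne'
  have memL : ∀ z : ℂ, z ∈ L.lattice ↔ ∃ u v : ℤ, z = u * L.ω₁ + v * L.ω₂ := by
    intro z
    rw [PeriodPair.mem_lattice]
    constructor
    · rintro ⟨u, v, h⟩; exact ⟨u, v, by rw [← h]⟩
    · rintro ⟨u, v, h⟩; exact ⟨u, v, by rw [h]⟩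
  refine core L' (((d2 * d3 : ℕ) : ℂ) ^ 4 * (-L.g₂ / 4)) (((d2 * d3 : ℕ) : ℂ) ^ 6 * (-L.g₃ / 4))
    ((N : ℂ) * al) (p / (d2 * d3 : ℕ)) ?_ ?_ ?_ ?_ s n hq hΔ ?_ ?_ ?_ ?_
  · have : ((d2 * d3 : ℕ) : ℂ) ^ 4 * (-L.g₂ / 4)
        = ((d2 ^ 3 * d3 ^ 4 : ℕ) : ℂ) * ((d2 : ℂ) * (-L.g₂ / 4)) := by push_cast; ring
    rw [this]
    exact (Fin_nat _).mul i2
  · have : ((d2 * d3 : ℕ) : ℂ) ^ 6 * (-L.g₃ / 4)
        = ((d2 ^ 6 * d3 ^ 5 : ℕ) : ℂ) * ((d3 : ℂ) * (-L.g₃ / 4)) := by push_cast; ring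
    rw [this]
    exact (Fin_nat _).mul i3
  · rw [hg2']; ring
  · rw [hg3']; ring
  · intro l hl
    rw [hmem] at hl ⊢
    obtain ⟨u, v, e⟩ := (memL _).1 hl
    obtain ⟨u', v', e'⟩ := hmat u v
    refine (memL _).2 ⟨u', v', ?_⟩
    rw [← e', ← e]; ring
  · rw [hmem, mul_div_cancel₀ _ hmC, memL]
    rintro ⟨u, v, e⟩
    exact hp u v e
  · have : p / (d2 * d3 : ℕ) = p * algebraMap ℚ ℂ (1 / (d2 * d3 : ℕ)) := by
      rw [eq_ratCast]; push_cast; ring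
    rw [this]; exact hpa.mul (isAlgebraic_algebraMap _)
  · rw [hz, mul_div_cancel₀ _ hmC]
    have : ((d2 * d3 : ℕ) : ℂ) = algebraMap ℚ ℂ (d2 * d3 : ℕ) := by simp
    rw [this]; exact (isAlgebraic_algebraMap _).mul hζ

end Pool.Agent.ZCM
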