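import Pool.Agent.ZCM.Zeta

/-! # L2b: derivatives of `℘`, `℘'/2` and of polynomial expressions -/

namespace Pool.Agent.ZCM
open Filter Topology

variable (L : PeriodPair) (a b : ℂ) (h2 : L.g₂ = -4 * a) (h3 : L.g₃ = -4 * b)

theorem hasDerivAt_P {z : ℂ} (hz : z ∉ L.lattice) :
    HasDerivAt L.weierstrassP (2 * (L.derivWeierstrassP z / 2)) z := by
  have h1 : DifferentiableAt ℂ L.weierstrassP z := (L.analyticOnNhd_weierstrassP z hz).differentiableAt
  have h4 := h1.hasDerivAt
  rw [L.deriv_weierstrassP] at h4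
  have h5 : 2 * (L.derivWeierstrassP z / 2) = L.derivWeierstrassP z := by ring
  rw [h5]
  exact h4

include h2 h3 in
theorem ode {z : ℂ} (hz : z ∉ L.lattice) :
    (L.derivWeierstrassP z / 2) ^ 2 = L.weierstrassP z ^ 3 + a * L.weierstrassP z + b := by
  have h := L.derivWeierstrassP_sq z hz
  rw [h2, h3] at h
  rw [div_pow, h]
  ring

/-- `℘'` does not vanish identically off the lattice. -/
theorem Chain_deriv_ne_zero : ¬ ∀ z ∈ ((L.lattice : Set ℂ)ᶜ), L.derivWeierstrassP z = 0 := by
  intro h
  have hconst : ∃ c : ℂ, ∀ z ∈ ((L.lattice : Set ℂ)ᶜ), L.weierstrassP z = c := by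
    refine ⟨L.weierstrassP (L.ω₁ / 2), fun z hz => ?_⟩
    refine (isOpen_compl L).is_const_of_deriv_eq_zero (isPreconnected_compl L)
      (fun w hw => (L.analyticOnNhd_weierstrassP w hw).differentiableAt.differentiableWithinAt)
      (fun w hw => ?_) hz L.ω₁_div_two_notMem_lattice
    rw [L.deriv_weierstrassP, h w hw]
    rfl
  obtain ⟨c, hc⟩ := hconst
  have h4 : L.weierstrassP =ᶠ[𝓝[≠] (0 : ℂ)] fun _ => c := by
    filter_upwards [eventually_notMem L] with z hz
    exact hc z hz
  have h5 := meromorphicOrderAt_congr h4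
  rw [L.order_weierstrassP 0 (zero_mem _)] at h5
  have h6 : (0 : WithTop ℤ) ≤ meromorphicOrderAt (fun _ : ℂ => c) 0 :=
    (analyticAt_const (v := c)).meromorphicOrderAt_nonneg
  rw [← h5] at h6
  exact absurd h6 (by decide)

include h2 h3 in
theorem hasDerivAt_P' {z : ℂ} (hz : z ∉ L.lattice) :
    HasDerivAt (fun z => L.derivWeierstrassP z / 2) (3 * L.weierstrassP z ^ 2 + a) z := by
  have hdiff : ∀ w ∈ ((L.lattice : Set ℂ)ᶜ), HasDerivAt (fun z => L.derivWeierstrassP z / 2)
      (deriv L.derivWeierstrassP w / 2) w := fun w hw =>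
    (L.analyticOnNhd_derivWeierstrassP w hw).differentiableAt.hasDerivAt.div_const 2
  have hmul : ∀ w ∈ ((L.lattice : Set ℂ)ᶜ), L.derivWeierstrassP w *
      (deriv L.derivWeierstrassP w / 2 - (3 * L.weierstrassP w ^ 2 + a)) = 0 := by
    intro w hw
    have h4 : HasDerivAt (fun z => (L.derivWeierstrassP z / 2) ^ 2)
        (2 * (L.derivWeierstrassP w / 2) * (deriv L.derivWeierstrassP w / 2)) w := by
      have h5 := (hdiff w hw).fun_pow 2
      simpa using h5
    have h5 : HasDerivAt (fun z => L.weierstrassP z ^ 3 + a * L.weierstrassP z + b)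
        (3 * L.weierstrassP w ^ 2 * (2 * (L.derivWeierstrassP w / 2)) +
          a * (2 * (L.derivWeierstrassP w / 2))) w := by
      have h6 := (((hasDerivAt_P L hw).fun_pow 3).fun_add
        ((hasDerivAt_P L hw).const_mul a)).add_const b
      simpa using h6
    have h6 : (fun z => (L.derivWeierstrassP z / 2) ^ 2) =ᶠ[𝓝 w]
        fun z => L.weierstrassP z ^ 3 + a * L.weierstrassP z + b := by
      filter_upwards [(isOpen_compl L).mem_nhds hw] with z hz
      exact ode L a b h2 h3 hz
    have h7 := (h5.congr_of_eventuallyEq h6).unique h4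
    linear_combination (-1 : ℂ) * h7
  have hf : AnalyticOnNhd ℂ L.derivWeierstrassP ((L.lattice : Set ℂ)ᶜ) :=
    L.analyticOnNhd_derivWeierstrassP
  have hg : AnalyticOnNhd ℂ (fun w => deriv L.derivWeierstrassP w / 2 -
      (3 * L.weierstrassP w ^ 2 + a)) ((L.lattice : Set ℂ)ᶜ) := by
    intro w hw
    have h4 := (hf w hw).deriv
    have h5 := L.analyticOnNhd_weierstrassP w hw
    exact (h4.div_const).sub (((analyticAt_const).mul (h5.pow 2)).add analyticAt_const)
  rcases AnalyticOnNhd.eq_zero_or_eq_zero_of_mul_eq_zero hf hg hmul (isPreconnected_compl L) with h | h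
  · exact absurd h (Chain_deriv_ne_zero L)
  · have h4 := h z hz
    have h5 : deriv L.derivWeierstrassP z / 2 = 3 * L.weierstrassP z ^ 2 + a := sub_eq_zero.mp h4
    rw [← h5]
    exact hdiff z hz

/-- The chain rule for a polynomial along a solution of a polynomial system. -/
theorem Chain_poly {n : ℕ} (v : ℂ → Fin n → ℂ) (g : Fin n → MvPolynomial (Fin n) ℂ) {z : ℂ}
    (hv : ∀ i, HasDerivAt (fun z => v z i) (MvPolynomial.eval (v z) (g i)) z)
    (U : MvPolynomial (Fin n) ℂ) :
    HasDerivAt (fun z => MvPolynomial.eval (v z) U)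
      (MvPolynomial.eval (v z) (MvPolynomial.mkDerivation ℂ g U)) z := by
  induction U using MvPolynomial.induction_on with
  | C c =>
    simp only [MvPolynomial.eval_C, MvPolynomial.derivation_C, map_zero]
    exact hasDerivAt_const z c
  | add p q hp hq =>
    simp only [map_add]
    exact hp.add hq
  | mul_X p i hp =>
    simp only [map_mul, MvPolynomial.eval_X, Derivation.leibniz, MvPolynomial.mkDerivation_X,
      smul_eq_mul, map_add]
    have h := hp.mul (hv i)
    refine h.congr_deriv ?_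
    ring

include h2 h3 in
theorem hasDerivAt_v3 (U : MvPolynomial (Fin 3) ℂ) {z : ℂ} (hz : z ∉ L.lattice) :
    HasDerivAt (fun z => MvPolynomial.eval (v3 L z) U) (MvPolynomial.eval (v3 L z) (D3 a U)) z := by
  refine Chain_poly (v3 L) _ (fun i => ?_) U
  fin_cases i
  · simpa [v3] using hasDerivAt_id' z
  · simpa [v3] using hasDerivAt_P L hz
  · simpa [v3] using hasDerivAt_P' L a b h2 h3 hz

include h2 h3 in
theorem hasDerivAt_v4 (U : MvPolynomial (Fin 4) ℂ) {z : ℂ} (hz : z ∉ L.lattice) :
    HasDerivAt (fun z => MvPolynomial.eval (v4 L z) U) (MvPolynomial.eval (v4 L z) (D4 a U)) z := by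
  refine Chain_poly (v4 L) _ (fun i => ?_) U
  fin_cases i
  · simpa [v4] using hasDerivAt_id' z
  · simpa [v4] using hasDerivAt_P L hz
  · simpa [v4] using hasDerivAt_P' L a b h2 h3 hz
  · simpa [v4] using hasDerivAt_zetaL L hz

include h2 h3 in
theorem iteratedDeriv_v4 (U : MvPolynomial (Fin 4) ℂ) (n : ℕ) {z : ℂ} (hz : z ∉ L.lattice) :
    iteratedDeriv n (fun z => MvPolynomial.eval (v4 L z) U) z
      = MvPolynomial.eval (v4 L z) ((⇑(D4 a))^[n] U) := by
  induction n generalizing z with
  | zero => simp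
  | succ n ih =>
    rw [iteratedDeriv_succ, Function.iterate_succ_apply']
    have h4 : iteratedDeriv n (fun z => MvPolynomial.eval (v4 L z) U) =ᶠ[𝓝 z]
        fun z => MvPolynomial.eval (v4 L z) ((⇑(D4 a))^[n] U) := by
      filter_upwards [(isOpen_compl L).mem_nhds hz] with w hw
      exact ih hw
    rw [h4.deriv_eq]
    exact (hasDerivAt_v4 L a b h2 h3 _ hz).deriv

/-- periodicity -/
theorem v3_add (z : ℂ) (l : L.lattice) :
    v3 L (z + l) = ![z + l, L.weierstrassP z, L.derivWeierstrassP z / 2] := by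
  rw [v3, L.weierstrassP_add_coe, L.derivWeierstrassP_add_coe]

end Pool.Agent.ZCM
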