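import Pool.Agent.ZCM.Defs

/-! # L1: the Weierstrass zeta function -/

namespace Pool.Agent.ZCM
open Filter Topology

variable (L : PeriodPair)

/-- `ℂ \ Λ` is open -/
theorem isOpen_compl : IsOpen ((L.lattice : Set ℂ)ᶜ) :=
  L.isClosed_lattice.isOpen_compl

/-- `ℂ \ Λ` is connected (`Λ` is countable) -/
theorem isPreconnected_compl : IsPreconnected ((L.lattice : Set ℂ)ᶜ) := by
  have hc : (L.lattice : Set ℂ).Countable := by
    have h1 : Countable L.lattice := L.latticeEquivProd.toEquiv.countable_iff.2 inferInstance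
    exact h1
  refine (Set.Countable.isPathConnected_compl_of_one_lt_rank ?_ hc).isConnected.isPreconnected
  rw [Complex.rank_real_complex]
  norm_num

/-- punctured neighbourhoods of 0 avoid the lattice -/
theorem eventually_notMem' (ω : ℂ) (h : ω ∈ L.lattice) : ∀ᶠ z in 𝓝[≠] ω, z ∉ L.lattice := by
  have h1 := L.compl_lattice_sdiff_singleton_mem_nhds ω
  filter_upwards [mem_nhdsWithin_of_mem_nhds h1, self_mem_nhdsWithin] with z hz hz'
  intro hzL
  exact hz ⟨hzL, hz'⟩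

theorem eventually_notMem : ∀ᶠ z in 𝓝[≠] (0 : ℂ), z ∉ L.lattice :=
  eventually_notMem' L 0 L.lattice.zero_mem

lemma Zeta_bound (r : ℝ) (hr : 0 < r) (s : ℂ) (hs : ‖s‖ < r) (l : ℂ) (h : 2 * r ≤ ‖l‖) :
    ‖1 / (s - l) + 1 / l + s / l ^ 2‖ ≤ 2 * r ^ 2 * ‖l‖ ^ (-3 : ℝ) := by
  have hsl : s ≠ l := by rintro rfl; linarith
  have hl : 0 < ‖l‖ := by linarith
  have hl0 : l ≠ 0 := norm_pos_iff.1 hl
  have hsl0 : s - l ≠ 0 := sub_ne_zero.2 hsl
  have h1 : 1 / (s - l) + 1 / l + s / l ^ 2 = s ^ 2 / ((s - l) * l ^ 2) := by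
    field_simp
    ring
  rw [h1, norm_div, norm_mul, norm_pow, norm_pow]
  have h2 : ‖l‖ / 2 ≤ ‖s - l‖ := by
    rw [norm_sub_rev]
    exact .trans (by linarith) (norm_sub_norm_le l s)
  calc ‖s‖ ^ 2 / (‖s - l‖ * ‖l‖ ^ 2) ≤ r ^ 2 / ((‖l‖ / 2) * ‖l‖ ^ 2) := by gcongr
    _ = 2 * r ^ 2 / ‖l‖ ^ 3 := by field_simp
    _ = _ := by norm_cast

/-- the zeta function with one term missing -/
noncomputable def Zeta_exc (l₀ : ℂ) (z : ℂ) : ℂ :=
  ∑' l : L.lattice, if l.1 = l₀ then 0 else (1 / (z - l) + 1 / l + z / l ^ 2)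

lemma Zeta_hasSumLU (l₀ : ℂ) : HasSumLocallyUniformly
    (fun (l : L.lattice) (z : ℂ) ↦ if l.1 = l₀ then 0 else (1 / (z - l) + 1 / l + z / l ^ 2))
      (Zeta_exc L l₀) := by
  refine L.hasSumLocallyUniformly_aux (u := (2 * · ^ 2 * ‖·‖ ^ (-3 : ℝ))) _
    (fun _ _ ↦ (ZLattice.summable_norm_rpow _ _ (by simp; norm_num)).mul_left _) fun r hr ↦
    Filter.eventually_atTop.mpr ⟨2 * r, ?_⟩
  rintro _ h s hs l rfl
  split_ifs
  · simpa using! show 0 ≤ 2 * r ^ 2 * (‖↑l‖ ^ 3)⁻¹ by positivity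
  · exact Zeta_bound r hr s hs l h

lemma Zeta_hasSum (l₀ : ℂ) (z : ℂ) :
    HasSum (fun l : L.lattice ↦ if l.1 = l₀ then 0 else (1 / (z - l) + 1 / l + z / l ^ 2))
      (Zeta_exc L l₀ z) :=
  (Zeta_hasSumLU L l₀).hasSum

lemma Zeta_diffOn (l₀ : ℂ) :
    DifferentiableOn ℂ (Zeta_exc L l₀) (L.lattice \ {l₀})ᶜ := by
  refine (Zeta_hasSumLU L l₀).hasSumLocallyUniformlyOn.differentiableOn
    (.of_forall fun s ↦ .fun_sum fun i hi ↦ ?_) L.isOpen_compl_lattice_sdiff
  split_ifs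
  · simp
  · exact .add (.add (.div (by fun_prop) (by fun_prop) (by aesop (add simp sub_eq_zero)))
      (by fun_prop)) (by fun_prop)

lemma Zeta_deriv (l₀ : ℂ) :
    Set.EqOn (deriv (Zeta_exc L l₀)) (fun z => - L.weierstrassPExcept l₀ z)
      (L.lattice \ {l₀})ᶜ := by
  refine ((Zeta_hasSumLU L l₀).tendstoLocallyUniformlyOn.deriv
    (.of_forall fun s ↦ ?_) L.isOpen_compl_lattice_sdiff).unique ?_
  · refine .fun_sum fun i hi ↦ ?_
    split_ifs
    · simp
    · exact .add (.add (.div (by fun_prop) (by fun_prop) (by aesop (add simp sub_eq_zero)))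
        (by fun_prop)) (by fun_prop)
  · refine (L.hasSumLocallyUniformly_weierstrassPExcept l₀).tendstoLocallyUniformlyOn.neg.congr ?_
    intro s l hl
    have hd : ∀ x ∈ s, HasDerivAt
        (fun z : ℂ => if x.1 = l₀ then (0 : ℂ) else (1 / (z - x.1) + 1 / x.1 + z / x.1 ^ 2))
        (-(if x.1 = l₀ then (0 : ℂ) else (1 / (l - x.1) ^ 2 - 1 / x.1 ^ 2))) l := by
      intro x _
      split_ifs with hl₁
      · simpa using hasDerivAt_const l (0 : ℂ)
      have hl₂ : l - x.1 ≠ 0 := fun e ↦ hl₁ (by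
        obtain rfl := sub_eq_zero.mp e
        simpa using hl)
      have h1 : HasDerivAt (fun z : ℂ => z - x.1) 1 l := (hasDerivAt_id l).sub_const x.1
      have h2 := h1.inv hl₂
      have h3 := (hasDerivAt_id l).div_const (x.1 ^ 2)
      have h4 := (h2.add_const (1 / x.1)).add h3
      have h5 : (fun z : ℂ => 1 / (z - x.1) + 1 / x.1 + z / x.1 ^ 2) =
          fun z : ℂ => (z - x.1)⁻¹ + 1 / x.1 + id z / x.1 ^ 2 := by
        funext z
        rw [one_div (z - x.1)]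
        rfl
      have h7 : -(1 / (l - x.1) ^ 2 - 1 / x.1 ^ 2) = -1 / (l - x.1) ^ 2 + 1 / x.1 ^ 2 := by ring
      rw [h5, h7]
      exact h4
    have h6 := (HasDerivAt.fun_sum hd).deriv
    simp only [Function.comp_apply, Pi.neg_apply]
    rw [h6, Finset.sum_neg_distrib]

lemma Zeta_exc_add (l₀ : L.lattice) (z : ℂ) :
    Zeta_exc L l₀ z + (1 / (z - l₀.1) + 1 / l₀.1 + z / l₀.1 ^ 2) = zetaL L z := by
  trans Zeta_exc L l₀ z + ∑' i : L.lattice,
      if i = l₀.1 then (1 / (z - l₀.1) + 1 / l₀.1 + z / l₀.1 ^ 2) else 0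
  · simp
  rw [Zeta_exc, ← Summable.tsum_add]
  · unfold zetaL
    congr with w
    split_ifs <;> simp only [zero_add, add_zero, *]
  · exact ⟨_, Zeta_hasSum L _ _⟩
  · exact summable_of_hasFiniteSupport ((Set.finite_singleton l₀).subset (by simp))

lemma Zeta_exc_of_notMem (l₀ : ℂ) (hl : l₀ ∉ L.lattice) : Zeta_exc L l₀ = zetaL L := by
  funext z
  unfold Zeta_exc zetaL
  refine tsum_congr fun l => ?_
  rw [if_neg]
  intro h
  exact hl (h ▸ l.2)

theorem hasDerivAt_zetaL {z : ℂ} (hz : z ∉ L.lattice) :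
    HasDerivAt (zetaL L) (-L.weierstrassP z) z := by
  have h0 := L.ω₁_div_two_notMem_lattice
  have hz' : z ∈ ((L.lattice : Set ℂ) \ {L.ω₁ / 2})ᶜ := fun h => hz h.1
  have h1 := (Zeta_diffOn L (L.ω₁ / 2)).differentiableAt
    (L.isOpen_compl_lattice_sdiff.mem_nhds hz')
  have h2 := Zeta_deriv L (L.ω₁ / 2) hz'
  have h3 := h1.hasDerivAt
  rw [h2, L.weierstrassPExcept_of_notMem _ h0, Zeta_exc_of_notMem L _ h0] at h3
  exact h3

theorem zetaL_near_zero : ∃ g : ℂ → ℂ, AnalyticAt ℂ g 0 ∧ g 0 = 0 ∧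
    ∀ᶠ z in 𝓝[≠] (0 : ℂ), zetaL L z = 1 / z + g z := by
  refine ⟨Zeta_exc L 0, ?_, ?_, ?_⟩
  · exact (Zeta_diffOn L 0).analyticAt (L.isOpen_compl_lattice_sdiff.mem_nhds (by simp))
  · unfold Zeta_exc
    have h : ∀ l : L.lattice, (if l.1 = (0:ℂ) then (0:ℂ) else
        (1 / (0 - l.1) + 1 / l.1 + 0 / l.1 ^ 2)) = 0 := by
      intro l
      split_ifs with hl
      · rfl
      · field_simp
        ring
    rw [tsum_congr h, tsum_zero]
  · refine Filter.Eventually.of_forall fun z => ?_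
    have h := Zeta_exc_add L 0 z
    rw [← h]
    simp
    ring

theorem zetaL_add : ∃ η : L.lattice →+ ℂ, ∀ z ∉ L.lattice, ∀ l : L.lattice,
    zetaL L (z + l) = zetaL L z + η l := by
  have hconst : ∀ l : L.lattice, ∀ z ∉ L.lattice, ∀ z' ∉ L.lattice,
      zetaL L (z + l) - zetaL L z = zetaL L (z' + l) - zetaL L z' := by
    intro l z hz z' hz'
    have hadd : ∀ z ∉ L.lattice, z + l ∉ L.lattice := by
      intro z hz h
      apply hz
      have := L.lattice.sub_mem h l.2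
      simpa using this
    have hd : ∀ z ∉ L.lattice, HasDerivAt (fun z => zetaL L (z + l) - zetaL L z) 0 z := by
      intro z hz
      have h1 := hasDerivAt_zetaL L (hadd z hz)
      have h2 := h1.comp_add_const z (l : ℂ)
      have h3 := h2.sub (hasDerivAt_zetaL L hz)
      rw [L.weierstrassP_add_coe, sub_self] at h3
      exact h3
    exact (isOpen_compl L).is_const_of_deriv_eq_zero (isPreconnected_compl L)
      (fun z hz => (hd z hz).differentiableAt.differentiableWithinAt)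
      (fun z hz => (hd z hz).deriv) hz hz'
  have h0 := L.ω₁_div_two_notMem_lattice
  have hadd0 : ∀ l : L.lattice, L.ω₁ / 2 + l ∉ L.lattice := by
    intro l h
    apply h0
    have := L.lattice.sub_mem h l.2
    simpa using this
  refine ⟨AddMonoidHom.mk' (fun l => zetaL L (L.ω₁ / 2 + l) - zetaL L (L.ω₁ / 2)) ?_, ?_⟩
  · intro a b
    have h1 := hconst b (L.ω₁ / 2 + a) (hadd0 a) (L.ω₁ / 2) h0
    have h2 : L.ω₁ / 2 + ((a + b : L.lattice) : ℂ) = L.ω₁ / 2 + a + b := by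
      push_cast
      ring
    rw [h2, ← h1]
    ring
  · intro z hz l
    have h1 := hconst l z hz (L.ω₁ / 2) h0
    simp only [AddMonoidHom.mk'_apply]
    rw [← h1]
    ring

end Pool.Agent.ZCM
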