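import Pool.Agent.ZCM.Defs

/-! # G0: one-variable norm; definitions for the Gelfond criterion -/

namespace Pool.Agent.ZCM
open Polynomial

/-- sum of the absolute values of the coefficients of an integer polynomial -/
noncomputable def nmZ (q : ℤ[X]) : ℝ := nm1 (q.map (Int.castRingHom ℂ))

/-- `nm1` as a sum over a large range -/
theorem Gel_nm1_eq (p : ℂ[X]) (s : Finset ℕ) (h : p.support ⊆ s) :
    nm1 p = ∑ m ∈ s, ‖p.coeff m‖ := by
  unfold nm1
  refine Finset.sum_subset h fun m _ hm => ?_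
  rw [notMem_support_iff.1 hm, norm_zero]

theorem nm1_nonneg (p : ℂ[X]) : 0 ≤ nm1 p := Finset.sum_nonneg fun _ _ => norm_nonneg _

theorem nm1_add_le (p q : ℂ[X]) : nm1 (p + q) ≤ nm1 p + nm1 q := by
  classical
  rw [Gel_nm1_eq (p + q) (p.support ∪ q.support) Polynomial.support_add,
    Gel_nm1_eq p (p.support ∪ q.support) Finset.subset_union_left,
    Gel_nm1_eq q (p.support ∪ q.support) Finset.subset_union_right, ← Finset.sum_add_distrib]
  exact Finset.sum_le_sum fun m _ => by rw [coeff_add]; exact norm_add_le _ _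

theorem Gel_nm1_neg (p : ℂ[X]) : nm1 (-p) = nm1 p := by
  unfold nm1
  simp

theorem nm1_sub_le (p q : ℂ[X]) : nm1 (p - q) ≤ nm1 p + nm1 q := by
  rw [sub_eq_add_neg]
  exact (nm1_add_le p (-q)).trans (by rw [Gel_nm1_neg])

theorem Gel_nm1_sum_le {ι : Type*} (s : Finset ι) (F : ι → ℂ[X]) :
    nm1 (∑ i ∈ s, F i) ≤ ∑ i ∈ s, nm1 (F i) := by
  classical
  induction s using Finset.induction_on with
  | empty => simp [nm1]
  | insert a s ha ih =>
    rw [Finset.sum_insert ha, Finset.sum_insert ha]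
    exact (nm1_add_le _ _).trans (by gcongr)

theorem Gel_nm1_monomial (n : ℕ) (c : ℂ) : nm1 (monomial n c) = ‖c‖ := by
  rw [Gel_nm1_eq _ {n} (support_monomial' n c)]
  simp

theorem Gel_nm1_monomial_mul (n : ℕ) (c : ℂ) (q : ℂ[X]) :
    nm1 (monomial n c * q) ≤ ‖c‖ * nm1 q := by
  conv_lhs => rw [q.as_sum_support, Finset.mul_sum]
  refine (Gel_nm1_sum_le _ _).trans ?_
  unfold nm1
  rw [Finset.mul_sum]
  refine Finset.sum_le_sum fun i _ => ?_
  rw [monomial_mul_monomial]
  have := Gel_nm1_monomial (n + i) (c * q.coeff i)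
  unfold nm1 at this
  rw [this, norm_mul]

theorem nm1_mul_le (p q : ℂ[X]) : nm1 (p * q) ≤ nm1 p * nm1 q := by
  conv_lhs => rw [p.as_sum_support, Finset.sum_mul]
  refine (Gel_nm1_sum_le _ _).trans ?_
  rw [nm1, Finset.sum_mul]
  exact Finset.sum_le_sum fun i _ => Gel_nm1_monomial_mul _ _ _

theorem nm1_prod_le {ι : Type*} (s : Finset ι) (F : ι → ℂ[X]) :
    nm1 (∏ i ∈ s, F i) ≤ ∏ i ∈ s, nm1 (F i) := by
  classical
  induction s using Finset.induction_on with
  | empty =>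
    have := Gel_nm1_monomial 0 1
    simp only [monomial_zero_left, map_one, norm_one] at this
    simp [this]
  | insert a s ha ih =>
    rw [Finset.prod_insert ha, Finset.prod_insert ha]
    exact (nm1_mul_le _ _).trans (mul_le_mul_of_nonneg_left ih (nm1_nonneg _))

theorem norm_coeff_le_nm1 (p : ℂ[X]) (i : ℕ) : ‖p.coeff i‖ ≤ nm1 p := by
  by_cases h : i ∈ p.support
  · exact Finset.single_le_sum (f := fun m => ‖p.coeff m‖) (fun _ _ => norm_nonneg _) h
  · rw [notMem_support_iff.1 h, norm_zero]; exact nm1_nonneg p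

theorem norm_eval_le1 (p : ℂ[X]) (z : ℂ) : ‖p.eval z‖ ≤ nm1 p * max 1 ‖z‖ ^ p.natDegree := by
  rw [eval_eq_sum, Polynomial.sum, nm1, Finset.sum_mul]
  refine (norm_sum_le _ _).trans (Finset.sum_le_sum fun i hi => ?_)
  rw [norm_mul, norm_pow]
  refine mul_le_mul_of_nonneg_left ?_ (norm_nonneg _)
  have h1 : ‖z‖ ^ i ≤ max 1 ‖z‖ ^ i := pow_le_pow_left₀ (norm_nonneg _) (le_max_right _ _) i
  exact h1.trans (pow_le_pow_right₀ (le_max_left _ _) (le_natDegree_of_mem_supp i hi))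

theorem one_le_nmZ (q : ℤ[X]) (h : q ≠ 0) : 1 ≤ nmZ q := by
  have h1 := norm_coeff_le_nm1 (q.map (Int.castRingHom ℂ)) q.natDegree
  refine le_trans ?_ h1
  rw [coeff_map, eq_intCast, Complex.norm_intCast]
  have : q.coeff q.natDegree ≠ 0 := by
    simpa using h
  exact_mod_cast Int.one_le_abs this

theorem nmZ_mul_le (p q : ℤ[X]) : nmZ (p * q) ≤ nmZ p * nmZ q := by
  unfold nmZ
  rw [Polynomial.map_mul]
  exact nm1_mul_le _ _

end Pool.Agent.ZCM
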