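import Pool.Agent.ZCM.Size
import Pool.Agent.ZCM.Gel

/-! # P2a: reduction modulo `y^2 = f(X)`, integrality and size (pure algebra) -/

namespace Pool.Agent.ZCM
open Polynomial NumberField

theorem Reduce_nm1_zero : nm1 0 = 0 := by simp [nm1]

theorem Reduce_nm1_sum {ι : Type*} (s : Finset ι) (F : ι → ℂ[X]) :
    nm1 (∑ i ∈ s, F i) ≤ ∑ i ∈ s, nm1 (F i) := by
  classical
  induction s using Finset.induction_on with
  | empty => simp [Reduce_nm1_zero]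
  | insert i s hi ih =>
    rw [Finset.sum_insert hi, Finset.sum_insert hi]
    exact (nm1_add_le _ _).trans (by linarith)

theorem Reduce_nm1_monomial (c : ℂ) (n : ℕ) : nm1 (C c * X ^ n) ≤ ‖c‖ := by
  unfold nm1
  by_cases hc : c = 0
  · simp [hc]
  · rw [C_mul_X_pow_eq_monomial, support_monomial n hc, Finset.sum_singleton, coeff_monomial,
      if_pos rfl]

theorem Reduce_nm1_C (c : ℂ) : nm1 (C c) ≤ ‖c‖ := by
  have := Reduce_nm1_monomial c 0
  simpa using this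

theorem Reduce_nm1_pow (p : ℂ[X]) (Q : ℝ) (hQ : nm1 p ≤ Q) (n : ℕ) :
    nm1 (p ^ n) ≤ Q ^ n := by
  have hQ0 : 0 ≤ Q := (nm1_nonneg p).trans hQ
  induction n with
  | zero =>
    have := Reduce_nm1_C 1
    simpa using this
  | succ n ih =>
    rw [pow_succ, pow_succ]
    refine (nm1_mul_le _ _).trans ?_
    gcongr
    exact nm1_nonneg _

/-- the cubic -/
noncomputable def Reduce_f {R : Type*} [CommRing R] (a b : R) : R[X] := X ^ 3 + C a * X + C b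

theorem Reduce_nm1_f (a b : ℂ) : nm1 (Reduce_f a b) ≤ 1 + ‖a‖ + ‖b‖ := by
  unfold Reduce_f
  have h1 := Reduce_nm1_monomial 1 3
  have h2 := Reduce_nm1_monomial a 1
  have h3 := Reduce_nm1_C b
  simp only [map_one, one_mul, norm_one, pow_one] at h1 h2
  have h4 := nm1_add_le (X ^ 3 + C a * X) (C b)
  have h5 := nm1_add_le (X ^ 3) (C a * X)
  linarith

theorem Reduce_map_f {R S : Type*} [CommRing R] [CommRing S] (φ : R →+* S) (a b : R) :
    (Reduce_f a b).map φ = Reduce_f (φ a) (φ b) := by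
  simp [Reduce_f]

/-- `g` in `O[z,X,y,Y]`, evaluated at `z = β`, `Y = c` and reduced modulo `y^2 = X^3+aX+b`,
is `(A(X) + B(X) y) / M0^(dz+dY)` -/
theorem reduce {K : Type*} [Field K] [NumberField K] (a b : 𝓞 K) (β c : K) (M0 : ℕ)
    (hM : 0 < M0) (hβ : IsIntegral ℤ ((M0 : K) * β)) (hc : IsIntegral ℤ ((M0 : K) * c)) :
    ∃ C : ℝ, 0 ≤ C ∧ ∀ (dz dY d : ℕ) (g : MvPolynomial (Fin 4) (𝓞 K)) (H : ℝ),
      g.degreeOf 0 ≤ dz → g.degreeOf 3 ≤ dY → g.totalDegree ≤ d → 0 ≤ H →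
      (∀ σ : K →+* ℂ, nm (MvPolynomial.map (oc σ) g) ≤ H) →
      ∃ A B : (𝓞 K)[X],
        (∀ σ : K →+* ℂ, ∀ X y : ℂ, y ^ 2 = X ^ 3 + oc σ a * X + oc σ b →
          (A.map (oc σ)).eval X + (B.map (oc σ)).eval X * y =
            (M0 : ℂ) ^ (dz + dY) *
              MvPolynomial.eval ![σ β, X, y, σ c] (MvPolynomial.map (oc σ) g)) ∧
        (∀ σ : K →+* ℂ, nm1 (A.map (oc σ)) ≤ H * Real.exp (C * (dz + dY + d + 1)) ∧
          nm1 (B.map (oc σ)) ≤ H * Real.exp (C * (dz + dY + d + 1))) := by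
  classical
  obtain ⟨β', hβ'⟩ : ∃ β' : 𝓞 K, (β' : K) = (M0 : K) * β := ⟨⟨_, hβ⟩, rfl⟩
  obtain ⟨c', hc'⟩ : ∃ c' : 𝓞 K, (c' : K) = (M0 : K) * c := ⟨⟨_, hc⟩, rfl⟩
  let Q : ℝ := 1 + M0 + ∑ σ : K →+* ℂ, (‖σ β‖ + ‖σ c‖ + ‖oc σ a‖ + ‖oc σ b‖)
  have hsum0 : ∀ σ : K →+* ℂ, ‖σ β‖ + ‖σ c‖ + ‖oc σ a‖ + ‖oc σ b‖ ≤
      ∑ σ : K →+* ℂ, (‖σ β‖ + ‖σ c‖ + ‖oc σ a‖ + ‖oc σ b‖) := fun σ =>
    Finset.single_le_sum (f := fun σ : K →+* ℂ => ‖σ β‖ + ‖σ c‖ + ‖oc σ a‖ + ‖oc σ b‖)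
      (fun τ _ => by positivity) (Finset.mem_univ σ)
  have hM0 : (0 : ℝ) ≤ M0 := Nat.cast_nonneg _
  have hsum1 : 0 ≤ ∑ σ : K →+* ℂ, (‖σ β‖ + ‖σ c‖ + ‖oc σ a‖ + ‖oc σ b‖) :=
    Finset.sum_nonneg fun τ _ => by positivity
  have hQ1 : 1 ≤ Q := by simp only [Q]; linarith
  have hQM : (M0 : ℝ) ≤ Q := by simp only [Q]; linarith
  have hQβ : ∀ σ : K →+* ℂ, ‖σ β‖ ≤ Q := fun σ => by
    have := hsum0 σ
    have h1 := norm_nonneg (σ β); have h2 := norm_nonneg (σ c)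
    have h3 := norm_nonneg (oc σ a); have h4 := norm_nonneg (oc σ b)
    simp only [Q]; linarith
  have hQc : ∀ σ : K →+* ℂ, ‖σ c‖ ≤ Q := fun σ => by
    have := hsum0 σ
    have h1 := norm_nonneg (σ β); have h2 := norm_nonneg (σ c)
    have h3 := norm_nonneg (oc σ a); have h4 := norm_nonneg (oc σ b)
    simp only [Q]; linarith
  have hQf : ∀ σ : K →+* ℂ, 1 + ‖oc σ a‖ + ‖oc σ b‖ ≤ Q := fun σ => by
    have := hsum0 σ
    have h1 := norm_nonneg (σ β); have h2 := norm_nonneg (σ c)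
    have h3 := norm_nonneg (oc σ a); have h4 := norm_nonneg (oc σ b)
    simp only [Q]; linarith
  have hQ0 : 0 < Q := by linarith
  refine ⟨2 * Real.log Q, by have := Real.log_nonneg hQ1; linarith, ?_⟩
  intro dz dY d g H hdz hdY hd hH hg
  -- integral coefficients
  let e : ℕ → ℕ → 𝓞 K := fun i l =>
    (M0 : 𝓞 K) ^ (dz - i) * β' ^ i * ((M0 : 𝓞 K) ^ (dY - l) * c' ^ l)
  have he : ∀ (σ : K →+* ℂ) (i l : ℕ), i ≤ dz → l ≤ dY →
      oc σ (e i l) = (M0 : ℂ) ^ (dz + dY) * (σ β ^ i * σ c ^ l) := by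
    intro σ i l hi hl
    have h1 : oc σ β' = (M0 : ℂ) * σ β := by
      show σ (β' : K) = _
      rw [hβ', map_mul, map_natCast]
    have h2 : oc σ c' = (M0 : ℂ) * σ c := by
      show σ (c' : K) = _
      rw [hc', map_mul, map_natCast]
    simp only [e, map_mul, map_pow, map_natCast, h1, h2]
    obtain ⟨u, rfl⟩ := Nat.exists_eq_add_of_le hi
    obtain ⟨v, rfl⟩ := Nat.exists_eq_add_of_le hl
    rw [Nat.add_sub_cancel_left, Nat.add_sub_cancel_left]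
    ring
  have hne : ∀ (σ : K →+* ℂ) (i l : ℕ), i ≤ dz → l ≤ dY →
      ‖oc σ (e i l)‖ ≤ Q ^ (dz + dY) * Q ^ (dz + dY) := by
    intro σ i l hi hl
    rw [he σ i l hi hl, norm_mul, norm_mul, norm_pow, norm_pow, norm_pow, Complex.norm_natCast]
    have h1 : ‖σ β‖ ^ i ≤ Q ^ dz := by
      calc ‖σ β‖ ^ i ≤ Q ^ i := pow_le_pow_left₀ (norm_nonneg _) (hQβ σ) i
        _ ≤ Q ^ dz := pow_le_pow_right₀ hQ1 hi
    have h2 : ‖σ c‖ ^ l ≤ Q ^ dY := by
      calc ‖σ c‖ ^ l ≤ Q ^ l := pow_le_pow_left₀ (norm_nonneg _) (hQc σ) l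
        _ ≤ Q ^ dY := pow_le_pow_right₀ hQ1 hl
    have h3 : (M0 : ℝ) ^ (dz + dY) ≤ Q ^ (dz + dY) := pow_le_pow_left₀ hM0 hQM _
    calc (M0 : ℝ) ^ (dz + dY) * (‖σ β‖ ^ i * ‖σ c‖ ^ l)
        ≤ Q ^ (dz + dY) * (Q ^ dz * Q ^ dY) := by gcongr
      _ = _ := by rw [← pow_add]
  have hm0 : ∀ m ∈ g.support, m 0 ≤ dz := fun m hm =>
    (MvPolynomial.monomial_le_degreeOf 0 hm).trans hdz
  have hm3 : ∀ m ∈ g.support, m 3 ≤ dY := fun m hm =>
    (MvPolynomial.monomial_le_degreeOf 3 hm).trans hdY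
  have hm2 : ∀ m ∈ g.support, m 2 ≤ d := by
    intro m hm
    refine le_trans ?_ ((MvPolynomial.le_totalDegree hm).trans hd)
    rw [Finsupp.sum_fintype _ _ (fun _ => rfl)]
    exact Finset.single_le_sum (f := fun i => m i) (fun _ _ => Nat.zero_le _) (Finset.mem_univ 2)
  let Q' : (Fin 4 →₀ ℕ) → (𝓞 K)[X] := fun m =>
    C (g.coeff m * e (m 0) (m 3)) * X ^ (m 1) * (Reduce_f a b) ^ (m 2 / 2)
  have hQ' : ∀ (σ : K →+* ℂ), ∀ m ∈ g.support,
      nm1 ((Q' m).map (oc σ)) ≤ ‖oc σ (g.coeff m)‖ * (Q ^ (dz + dY) * Q ^ (dz + dY) * Q ^ d) := by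
    intro σ m hm
    simp only [Q', Polynomial.map_mul, Polynomial.map_pow, Polynomial.map_C, Polynomial.map_X,
      Reduce_map_f]
    refine (nm1_mul_le _ _).trans ?_
    have h1 : nm1 (C (oc σ (g.coeff m * e (m 0) (m 3))) * X ^ (m 1)) ≤
        ‖oc σ (g.coeff m)‖ * (Q ^ (dz + dY) * Q ^ (dz + dY)) := by
      refine (Reduce_nm1_monomial _ _).trans ?_
      rw [map_mul, norm_mul]
      exact mul_le_mul_of_nonneg_left (hne σ _ _ (hm0 m hm) (hm3 m hm)) (norm_nonneg _)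
    have h2 : nm1 (Reduce_f (oc σ a) (oc σ b) ^ (m 2 / 2)) ≤ Q ^ d := by
      refine (Reduce_nm1_pow _ Q ((Reduce_nm1_f _ _).trans (hQf σ)) _).trans ?_
      exact pow_le_pow_right₀ hQ1 ((Nat.div_le_self _ _).trans (hm2 m hm))
    calc nm1 (C (oc σ (g.coeff m * e (m 0) (m 3))) * X ^ (m 1)) *
          nm1 (Reduce_f (oc σ a) (oc σ b) ^ (m 2 / 2))
        ≤ (‖oc σ (g.coeff m)‖ * (Q ^ (dz + dY) * Q ^ (dz + dY))) * Q ^ d := by
          apply mul_le_mul h1 h2 (nm1_nonneg _) (by positivity)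
      _ = _ := by ring
  have hsumg : ∀ σ : K →+* ℂ, ∑ m ∈ g.support, ‖oc σ (g.coeff m)‖ ≤ H := by
    intro σ
    refine le_trans (le_of_eq ?_) (hg σ)
    unfold nm
    have h1 : (MvPolynomial.map (oc σ) g).support ⊆ g.support :=
      MvPolynomial.support_map_subset _ _
    rw [← Finset.sum_subset h1]
    · apply Finset.sum_congr rfl
      intro m _
      rw [MvPolynomial.coeff_map]
    · intro m _ hm
      rw [MvPolynomial.notMem_support_iff] at hm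
      rw [← MvPolynomial.coeff_map, hm, norm_zero]
  have hfin : ∀ (σ : K →+* ℂ) (P : (Fin 4 →₀ ℕ) → Prop) [DecidablePred P],
      nm1 ((∑ m ∈ g.support, if P m then Q' m else 0).map (oc σ)) ≤
        H * Real.exp (2 * Real.log Q * (dz + dY + d + 1)) := by
    intro σ P _
    rw [Polynomial.map_sum]
    refine (Reduce_nm1_sum _ _).trans ?_
    have h1 : ∀ m ∈ g.support, nm1 ((if P m then Q' m else 0).map (oc σ)) ≤
        ‖oc σ (g.coeff m)‖ * (Q ^ (dz + dY) * Q ^ (dz + dY) * Q ^ d) := by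
      intro m hm
      split_ifs
      · exact hQ' σ m hm
      · rw [Polynomial.map_zero, Reduce_nm1_zero]
        positivity
    refine (Finset.sum_le_sum h1).trans ?_
    rw [← Finset.sum_mul]
    have h2 : Q ^ (dz + dY) * Q ^ (dz + dY) * Q ^ d ≤
        Real.exp (2 * Real.log Q * (dz + dY + d + 1)) := by
      have h3 : Real.exp (2 * Real.log Q * (dz + dY + d + 1)) = Q ^ (2 * (dz + dY + d + 1)) := by
        rw [show 2 * Real.log Q * (dz + dY + d + 1 : ℝ) =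
          ((2 * (dz + dY + d + 1) : ℕ) : ℝ) * Real.log Q by push_cast; ring,
          Real.exp_nat_mul, Real.exp_log hQ0]
      rw [h3, ← pow_add, ← pow_add]
      exact pow_le_pow_right₀ hQ1 (by omega)
    exact mul_le_mul (hsumg σ) h2 (by positivity) hH
  refine ⟨∑ m ∈ g.support, if Even (m 2) then Q' m else 0,
    ∑ m ∈ g.support, if ¬ Even (m 2) then Q' m else 0, ?_, ?_⟩
  · intro σ x y hxy
    rw [Polynomial.map_sum, Polynomial.map_sum, Polynomial.eval_finsetSum,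
      Polynomial.eval_finsetSum, Finset.sum_mul, ← Finset.sum_add_distrib,
      MvPolynomial.eval_map, MvPolynomial.eval₂_eq', Finset.mul_sum]
    apply Finset.sum_congr rfl
    intro m hm
    have h1 : ((Q' m).map (oc σ)).eval x = oc σ (g.coeff m) *
        ((M0 : ℂ) ^ (dz + dY) * (σ β ^ m 0 * σ c ^ m 3)) * x ^ m 1 * (y ^ 2) ^ (m 2 / 2) := by
      simp only [Q', Polynomial.map_mul, Polynomial.map_pow, Polynomial.map_C, Polynomial.map_X,
        Reduce_map_f, Polynomial.eval_mul, Polynomial.eval_pow, Polynomial.eval_C,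
        Polynomial.eval_X, map_mul]
      rw [he σ _ _ (hm0 m hm) (hm3 m hm), hxy]
      simp [Reduce_f]
    rw [Fin.prod_univ_four]
    simp only [Matrix.cons_val_zero, Matrix.cons_val_one, Matrix.cons_val]
    by_cases hev : Even (m 2)
    · rw [if_pos hev, if_neg (not_not.mpr hev), Polynomial.map_zero, Polynomial.eval_zero, h1]
      obtain ⟨r, hr⟩ := hev
      have h2 : m 2 / 2 = r := by omega
      have h3 : y ^ m 2 = (y ^ 2) ^ r := by rw [hr, ← two_mul, pow_mul]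
      rw [h2, h3]; ring
    · rw [if_neg hev, if_pos hev, Polynomial.map_zero, Polynomial.eval_zero, h1]
      obtain ⟨r, hr⟩ := Nat.not_even_iff_odd.mp hev
      have h2 : m 2 / 2 = r := by omega
      have h3 : y ^ m 2 = (y ^ 2) ^ r * y := by rw [hr, pow_succ, pow_mul]
      rw [h2, h3]; ring
  · intro σ
    exact ⟨hfin σ _, hfin σ _⟩

end Pool.Agent.ZCM
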