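import Pool.Agent.ZCM.Ev

/-! # M1: zeros at `β` versus the leading coefficient at 0 -/

namespace Pool.Agent.ZCM
open Filter Topology PowerSeries
open scoped NNReal ENNReal

/-- an entire function vanishing to order `m` at `β` is divisible by `(z - β) ^ m` -/
theorem Beta_factor (β : ℂ) (m : ℕ) : ∀ f : ℂ → ℂ, Differentiable ℂ f →
    (m : ℕ∞) ≤ analyticOrderAt f β →
    ∃ g : ℂ → ℂ, Differentiable ℂ g ∧ ∀ z, f z = (z - β) ^ m * g z := by
  induction m with
  | zero => intro f hf _; exact ⟨f, hf, fun z => by simp⟩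
  | succ m ih =>
    intro f hf hm
    have hfβ : f β = 0 := by
      by_contra hne
      have : analyticOrderAt f β = 0 := (hf.analyticAt β).analyticOrderAt_eq_zero.2 hne
      rw [this] at hm
      exact absurd hm (by simp)
    have hd : Differentiable ℂ (dslope f β) := by
      have := (Complex.differentiableOn_dslope (f := f) (s := Set.univ) (c := β)
        Filter.univ_mem).2 hf.differentiableOn
      exact differentiableOn_univ.1 this
    have hfac : ∀ z, f z = (z - β) * dslope f β z := by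
      intro z
      have := sub_smul_dslope f β z
      rw [hfβ, sub_zero, smul_eq_mul] at this
      exact this.symm
    have hord : (m : ℕ∞) ≤ analyticOrderAt (dslope f β) β := by
      have h1 : f = (fun z => z - β) * dslope f β := by
        funext z; simpa using hfac z
      have h2 : analyticOrderAt f β
          = analyticOrderAt (fun z : ℂ => z - β) β + analyticOrderAt (dslope f β) β := by
        conv_lhs => rw [h1]
        exact analyticOrderAt_mul (by fun_prop) (hd.analyticAt β)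
      have h3 : analyticOrderAt (fun z : ℂ => z - β) β = 1 := by
        have : AnalyticAt ℂ (fun z : ℂ => z - β) β := by fun_prop
        rw [show (1 : ℕ∞) = ((1 : ℕ) : ℕ∞) by rfl, this.analyticOrderAt_eq_natCast]
        exact ⟨fun _ => 1, analyticAt_const, one_ne_zero, by simp⟩
      rw [h2, h3, Nat.cast_succ, add_comm] at hm
      exact (ENat.add_le_add_iff_left (by simp)).1 hm
    obtain ⟨g, hg, hgf⟩ := ih _ hd hord
    exact ⟨g, hg, fun z => by rw [hfac z, hgf z]; ring⟩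

theorem zeros_at (G : ℂ⟦X⟧) (hG : Ent G) (n0 m : ℕ) (h : ∀ k < n0, coeff k G = 0) (β : ℂ)
    (hβ : β ≠ 0) (hm : ∀ j < m, iteratedDeriv j (ev G) β = 0) (r : ℝ≥0) (hr : ‖β‖ < r) :
    ‖coeff n0 G‖ * (r : ℝ) ^ n0 * ((r : ℝ) - ‖β‖) ^ m ≤ ‖β‖ ^ m * (nr r G).toReal := by
  obtain ⟨g, hg, hGg, hg0⟩ := exists_factor hG n0 h
  have hr0 : (0 : ℝ) < r := lt_of_le_of_lt (norm_nonneg _) hr
  have hEX : Ent ((X : ℂ⟦X⟧) ^ n0) := Ent_X.pow n0
  have hev : ∀ z, ev G z = z ^ n0 * ev g z := by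
    intro z
    rw [hGg, ev_mul hEX hg, ev_pow Ent_X, ev_X]
  have hdg : Differentiable ℂ (ev g) := differentiable_ev hg
  have hord : (m : ℕ∞) ≤ analyticOrderAt (ev g) β := by
    have h1 : (m : ℕ∞) ≤ analyticOrderAt (ev G) β :=
      (natCast_le_analyticOrderAt_iff_iteratedDeriv_eq_zero
        ((differentiable_ev hG).analyticAt β)).2 hm
    have h2 : ev G = (fun z : ℂ => z ^ n0) * ev g := by
      funext z; simpa using hev z
    have h3 : analyticOrderAt (ev G) β
        = analyticOrderAt (fun z : ℂ => z ^ n0) β + analyticOrderAt (ev g) β := by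
      conv_lhs => rw [h2]
      exact analyticOrderAt_mul (by fun_prop) (hdg.analyticAt β)
    have h4 : analyticOrderAt (fun z : ℂ => z ^ n0) β = 0 := by
      have : AnalyticAt ℂ (fun z : ℂ => z ^ n0) β := by fun_prop
      exact this.analyticOrderAt_eq_zero.2 (pow_ne_zero _ hβ)
    rw [h3, h4, zero_add] at h1
    exact h1
  obtain ⟨k, hk, hkg⟩ := Beta_factor β m (ev g) hdg hord
  have h0 : coeff n0 G = (-β) ^ m * k 0 := by
    rw [← hg0, ← ev_zero, hkg 0, zero_sub]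
  have hrb : (0 : ℝ) < (r : ℝ) - ‖β‖ := by linarith
  set M : ℝ := (nr r G).toReal / ((r : ℝ) ^ n0 * ((r : ℝ) - ‖β‖) ^ m) with hM
  have hden : (0 : ℝ) < (r : ℝ) ^ n0 * ((r : ℝ) - ‖β‖) ^ m := by positivity
  have hk0 : ‖k 0‖ ≤ M := by
    refine Complex.norm_le_of_forall_mem_frontier_norm_le (U := Metric.ball (0 : ℂ) r)
      Metric.isBounded_ball hk.diffContOnCl ?_ (subset_closure (Metric.mem_ball_self hr0))
    intro z hz
    rw [frontier_ball (0 : ℂ) hr0.ne', mem_sphere_zero_iff_norm] at hz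
    have hzβ : (r : ℝ) - ‖β‖ ≤ ‖z - β‖ := by
      have := norm_sub_norm_le z β
      rw [hz] at this
      exact this
    have hGz : ‖ev G z‖ ≤ (nr r G).toReal := norm_ev_le hG hz.le
    have hGk : ‖ev G z‖ = (r : ℝ) ^ n0 * ‖z - β‖ ^ m * ‖k z‖ := by
      rw [hev z, hkg z, norm_mul, norm_mul, norm_pow, norm_pow, hz, mul_assoc]
    rw [hM, le_div_iff₀ hden]
    calc ‖k z‖ * ((r : ℝ) ^ n0 * ((r : ℝ) - ‖β‖) ^ m)
        ≤ ‖k z‖ * ((r : ℝ) ^ n0 * ‖z - β‖ ^ m) := by gcongr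
      _ = ‖ev G z‖ := by rw [hGk]; ring
      _ ≤ _ := hGz
  rw [h0, norm_mul, norm_pow, norm_neg]
  have hM' : M * ((r : ℝ) ^ n0 * ((r : ℝ) - ‖β‖) ^ m) = (nr r G).toReal := by
    rw [hM, div_mul_cancel₀ _ hden.ne']
  calc ‖β‖ ^ m * ‖k 0‖ * (r : ℝ) ^ n0 * ((r : ℝ) - ‖β‖) ^ m
      = ‖β‖ ^ m * (‖k 0‖ * ((r : ℝ) ^ n0 * ((r : ℝ) - ‖β‖) ^ m)) := by ring
    _ ≤ ‖β‖ ^ m * (M * ((r : ℝ) ^ n0 * ((r : ℝ) - ‖β‖) ^ m)) := by gcongr
    _ = ‖β‖ ^ m * (nr r G).toReal := by rw [hM']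

end Pool.Agent.ZCM
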