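import Pool.Agent.ZCM.Quasi

/-! # L4: `℘` is not the derivative of a rational expression in `z, ℘, ℘'` -/

namespace Pool.Agent.ZCM
open Filter Topology

variable (L : PeriodPair) (a b : ℂ) (h2 : L.g₂ = -4 * a) (h3 : L.g₃ = -4 * b)

/-- one-variable specialisation `z ↦ X`, `X ↦ x0`, `y ↦ y0` -/
noncomputable def Claim2_spec (x0 y0 : ℂ) (U : MvPolynomial (Fin 3) ℂ) : Polynomial ℂ :=
  MvPolynomial.aeval ![(Polynomial.X : Polynomial ℂ), Polynomial.C x0, Polynomial.C y0] U

theorem Claim2_eval (x0 y0 t : ℂ) (U : MvPolynomial (Fin 3) ℂ) :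
    (Claim2_spec x0 y0 U).eval t = MvPolynomial.eval ![t, x0, y0] U := by
  unfold Claim2_spec
  induction U using MvPolynomial.induction_on with
  | C c => simp
  | add p q hp hq => rw [map_add, Polynomial.eval_add, hp, hq, map_add]
  | mul_X p i hp =>
    rw [map_mul, Polynomial.eval_mul, hp, map_mul]
    congr 1
    fin_cases i <;> simp

/-- a polynomial vanishing along an arithmetic progression is zero -/
theorem Claim2_zero (Q : Polynomial ℂ) (z0 w : ℂ) (hw : w ≠ 0)
    (h : ∀ n : ℕ, Q.eval (z0 + n * w) = 0) : Q = 0 := by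
  apply Polynomial.eq_zero_of_infinite_isRoot
  apply Set.infinite_of_injective_forall_mem (f := fun n : ℕ => z0 + n * w)
  · intro m n hmn
    have h1 : (m : ℂ) * w = n * w := by
      have : z0 + (m : ℂ) * w = z0 + n * w := hmn
      exact add_left_cancel this
    have h2 := mul_right_cancel₀ hw h1
    exact_mod_cast h2
  · intro n
    exact h n

include h2 h3

theorem claim2 (U V : MvPolynomial (Fin 3) ℂ) (c0 : ℂ) (hc : c0 ≠ 0)
    (hV : ∃ z, z ∉ L.lattice ∧ MvPolynomial.eval (v3 L z) V ≠ 0) :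
    ¬ ∀ z, z ∉ L.lattice → MvPolynomial.eval (v3 L z)
      (D3 a U * V - U * D3 a V - MvPolynomial.C c0 * MvPolynomial.X 1 * V ^ 2) = 0 := by
  intro hall
  obtain ⟨z0, hz0, hv0⟩ := hV
  obtain ⟨η, hη⟩ := zetaL_add L
  set u : ℂ → ℂ := fun z => MvPolynomial.eval (v3 L z) U with hu
  set v : ℂ → ℂ := fun z => MvPolynomial.eval (v3 L z) V with hv
  set u' : ℂ → ℂ := fun z => MvPolynomial.eval (v3 L z) (D3 a U) with hu'
  set v' : ℂ → ℂ := fun z => MvPolynomial.eval (v3 L z) (D3 a V) with hv'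
  have hdu : ∀ z, z ∉ L.lattice → HasDerivAt u (u' z) z := fun z hz => hasDerivAt_v3 L a b h2 h3 U hz
  have hdv : ∀ z, z ∉ L.lattice → HasDerivAt v (v' z) z := fun z hz => hasDerivAt_v3 L a b h2 h3 V hz
  have hrel : ∀ z, z ∉ L.lattice →
      u' z * v z - u z * v' z = c0 * L.weierstrassP z * v z ^ 2 := by
    intro z hz
    have h := hall z hz
    rw [map_sub, map_sub, map_mul, map_mul, map_mul, map_mul, map_pow, MvPolynomial.eval_C,
      MvPolynomial.eval_X] at h
    have h1 : v3 L z 1 = L.weierstrassP z := rfl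
    rw [h1] at h
    have h2 : u' z * v z - u z * v' z - c0 * L.weierstrassP z * v z ^ 2 = 0 := h
    linear_combination h2
  set g : ℂ → ℂ := fun z => u z + c0 * zetaL L z * v z with hg
  have hdg : ∀ z, z ∉ L.lattice → HasDerivAt g
      (u' z + (c0 * (-L.weierstrassP z) * v z + c0 * zetaL L z * v' z)) z := by
    intro z hz
    exact (hdu z hz).add (((hasDerivAt_zetaL L hz).const_mul c0).mul (hdv z hz))
  have hopen := isOpen_compl L
  -- near `z0` the quotient is constant
  have hvc : ContinuousAt v z0 := (hdv z0 hz0).continuousAt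
  have hev : ∀ᶠ z in 𝓝 z0, z ∉ L.lattice ∧ v z ≠ 0 := by
    apply Filter.Eventually.and
    · exact hopen.mem_nhds hz0
    · exact hvc.eventually_ne hv0
  obtain ⟨r, hr, hball⟩ := Metric.eventually_nhds_iff_ball.mp hev
  have hquot : ∀ z ∈ Metric.ball z0 r, HasDerivAt (fun z => g z / v z) 0 z := by
    intro z hz
    obtain ⟨hzl, hzv⟩ := hball z hz
    have h := (hdg z hzl).div (hdv z hzl) hzv
    have h0 : ((u' z + (c0 * (-L.weierstrassP z) * v z + c0 * zetaL L z * v' z)) * v z -
        g z * v' z) / v z ^ 2 = 0 := by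
      rw [div_eq_zero_iff]
      left
      simp only [hg]
      linear_combination hrel z hzl
    rw [h0] at h
    exact h
  have hconst : ∀ z ∈ Metric.ball z0 r, g z / v z = g z0 / v z0 := by
    intro z hz
    exact (convex_ball z0 r).is_const_of_fderivWithin_eq_zero (𝕜 := ℂ)
      (fun y hy => (hquot y hy).differentiableAt.differentiableWithinAt)
      (fun y hy => by
        rw [fderivWithin_of_isOpen Metric.isOpen_ball hy]
        exact (hquot y hy).hasFDerivAt.fderiv.trans (by ext; simp)) hz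
      (Metric.mem_ball_self hr)
  set c' : ℂ := g z0 / v z0 with hc'
  have hanalg : AnalyticOnNhd ℂ g ((L.lattice : Set ℂ)ᶜ) := by
    apply DifferentiableOn.analyticOnNhd _ hopen
    intro z hz
    exact (hdg z hz).differentiableAt.differentiableWithinAt
  have hanalv : AnalyticOnNhd ℂ (fun z => c' * v z) ((L.lattice : Set ℂ)ᶜ) := by
    apply DifferentiableOn.analyticOnNhd _ hopen
    intro z hz
    exact ((hdv z hz).const_mul c').differentiableAt.differentiableWithinAt
  have heq : ∀ z, z ∉ L.lattice → g z = c' * v z := by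
    have := hanalg.eqOn_of_preconnected_of_eventuallyEq hanalv (isPreconnected_compl L)
      (z₀ := z0) hz0 (by
        filter_upwards [Metric.ball_mem_nhds z0 hr] with z hz
        have h1 := hconst z hz
        rw [div_eq_iff (hball z hz).2] at h1
        exact h1)
    intro z hz
    exact this hz
  -- specialise along the two progressions
  set x0 : ℂ := L.weierstrassP z0 with hx0
  set y0 : ℂ := L.derivWeierstrassP z0 / 2 with hy0
  have hprog : ∀ (l : L.lattice) (n : ℕ), (l : ℂ) ≠ 0 →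
      (Claim2_spec x0 y0 U + (Polynomial.C (c0 * zetaL L z0 - c') +
        Polynomial.C (c0 * (η l / l)) * (Polynomial.X - Polynomial.C z0)) *
          Claim2_spec x0 y0 V).eval (z0 + n * (l : ℂ)) = 0 := by
    intro l n hl
    have hmem : ((n • l : L.lattice) : ℂ) = n * (l : ℂ) := by
      simp
    have hnot : z0 + ((n • l : L.lattice) : ℂ) ∉ L.lattice := by
      intro h
      apply hz0
      have := L.lattice.sub_mem h (n • l : L.lattice).2
      simpa using this
    have h1 := heq _ hnot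
    have h4 : zetaL L (z0 + ((n • l : L.lattice) : ℂ)) = zetaL L z0 + n * η l := by
      rw [hη z0 hz0 (n • l), map_nsmul, nsmul_eq_mul]
    have h5 := v3_add L z0 (n • l)
    simp only [hg, hu, hv] at h1
    rw [h4, h5, hmem] at h1
    rw [Polynomial.eval_add, Polynomial.eval_mul, Polynomial.eval_add, Polynomial.eval_mul,
      Polynomial.eval_sub, Polynomial.eval_C, Polynomial.eval_C, Polynomial.eval_C,
      Polynomial.eval_X, Claim2_eval, Claim2_eval]
    have h6 : c0 * (η l / l) * (z0 + n * (l : ℂ) - z0) = c0 * n * η l := by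
      field_simp
      ring
    rw [h6]
    linear_combination h1
  have hw1 : L.ω₁ ≠ 0 := by
    have := L.indep.ne_zero 0
    simpa using this
  have hw2 : L.ω₂ ≠ 0 := by
    have := L.indep.ne_zero 1
    simpa using this
  have hQ1 := Claim2_zero _ z0 L.ω₁ hw1 (fun n => hprog ⟨L.ω₁, L.ω₁_mem_lattice⟩ n hw1)
  have hQ2 := Claim2_zero _ z0 L.ω₂ hw2 (fun n => hprog ⟨L.ω₂, L.ω₂_mem_lattice⟩ n hw2)
  simp only at hQ1 hQ2
  have hdiff : Polynomial.C (c0 * (η ⟨L.ω₁, L.ω₁_mem_lattice⟩ / L.ω₁ -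
      η ⟨L.ω₂, L.ω₂_mem_lattice⟩ / L.ω₂)) * (Polynomial.X - Polynomial.C z0) *
        Claim2_spec x0 y0 V = 0 := by
    have hC : Polynomial.C (c0 * (η ⟨L.ω₁, L.ω₁_mem_lattice⟩ / L.ω₁ -
      η ⟨L.ω₂, L.ω₂_mem_lattice⟩ / L.ω₂)) = Polynomial.C (c0 * (η ⟨L.ω₁, L.ω₁_mem_lattice⟩ / L.ω₁))
      - Polynomial.C (c0 * (η ⟨L.ω₂, L.ω₂_mem_lattice⟩ / L.ω₂)) := by
      rw [← Polynomial.C_sub]
      congr 1
      ring
    rw [hC]
    linear_combination hQ1 - hQ2
  have hVne : Claim2_spec x0 y0 V ≠ 0 := by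
    intro h
    apply hv0
    have h1 := Claim2_eval x0 y0 z0 V
    rw [h, Polynomial.eval_zero] at h1
    exact h1.symm
  have hXne : (Polynomial.X - Polynomial.C z0 : Polynomial ℂ) ≠ 0 := Polynomial.X_sub_C_ne_zero z0
  have hCz : Polynomial.C (c0 * (η ⟨L.ω₁, L.ω₁_mem_lattice⟩ / L.ω₁ -
      η ⟨L.ω₂, L.ω₂_mem_lattice⟩ / L.ω₂)) = 0 := by
    rcases mul_eq_zero.mp hdiff with h | h
    · rcases mul_eq_zero.mp h with h | h
      · exact h
      · exact absurd h hXne
    · exact absurd h hVne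
  rw [Polynomial.C_eq_zero] at hCz
  have hz : η ⟨L.ω₁, L.ω₁_mem_lattice⟩ / L.ω₁ - η ⟨L.ω₂, L.ω₂_mem_lattice⟩ / L.ω₂ = 0 :=
    (mul_eq_zero.mp hCz).resolve_left hc
  apply legendre L a b h2 h3 η hη
  rw [sub_eq_zero, div_eq_div_iff hw1 hw2] at hz
  exact hz

end Pool.Agent.ZCM
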