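import Pool.Agent.ZCM.Defs

/-! # F1: the formal identities -/

set_option linter.unusedSectionVars false

namespace Pool.Agent.ZCM
open PowerSeries

variable {K : Type*} [Field K] [CharZero K] (a b : K)

/-- The Taylor expansion at `(0,0)` along the flow of `D`. -/
noncomputable def Formal_E (g : MvPolynomial (Fin 2) K) : K⟦X⟧ :=
  PowerSeries.mk fun n =>
    MvPolynomial.eval (0 : Fin 2 → K) ((⇑(Dtw a b))^[n] g) / (n.factorial : K)

omit [CharZero K] in
theorem Formal_E_add (g h : MvPolynomial (Fin 2) K) :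
    Formal_E a b (g + h) = Formal_E a b g + Formal_E a b h := by
  ext n
  simp only [Formal_E, coeff_mk, map_add]
  rw [iterate_map_add, map_add, add_div]

theorem Formal_d_E (g : MvPolynomial (Fin 2) K) :
    d⁄dX K (Formal_E a b g) = Formal_E a b (Dtw a b g) := by
  ext n
  rw [coeff_derivative]
  simp only [Formal_E, coeff_mk]
  rw [← Function.iterate_succ_apply, Nat.factorial_succ]
  have h1 : ((n : K) + 1) ≠ 0 := by exact_mod_cast n.succ_ne_zero
  have h2 : (n.factorial : K) ≠ 0 := by exact_mod_cast n.factorial_ne_zero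
  push_cast
  field_simp

theorem Formal_E_mul (g h : MvPolynomial (Fin 2) K) :
    Formal_E a b (g * h) = Formal_E a b g * Formal_E a b h := by
  ext n
  induction n generalizing g h with
  | zero => simp [Formal_E]
  | succ n ih =>
    have h1 : ((n : K) + 1) ≠ 0 := by exact_mod_cast n.succ_ne_zero
    have key : coeff n (d⁄dX K (Formal_E a b (g * h))) =
        coeff n (d⁄dX K (Formal_E a b g * Formal_E a b h)) := by
      rw [Formal_d_E, Derivation.leibniz, Derivation.leibniz, Formal_d_E, Formal_d_E,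
        smul_eq_mul, smul_eq_mul, smul_eq_mul, smul_eq_mul, Formal_E_add, map_add, map_add,
        ih, ih]
    rw [coeff_derivative, coeff_derivative] at key
    exact mul_right_cancel₀ h1 key

omit [CharZero K] in
theorem Formal_E_C (r : K) : Formal_E a b (MvPolynomial.C r) = C r := by
  ext n
  rcases n with _ | n
  · simp [Formal_E]
  · have h : Dtw a b (MvPolynomial.C r) = 0 := by
      rw [← MvPolynomial.algebraMap_eq]; exact Derivation.map_algebraMap _ r
    simp only [Formal_E, coeff_mk, Function.iterate_succ_apply, h, coeff_C]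
    rw [iterate_map_zero]; simp

omit [CharZero K] in
theorem Formal_E_zero : Formal_E a b 0 = 0 := by
  have := Formal_E_C a b 0
  simpa using this

omit [CharZero K] in
theorem Formal_E_one : Formal_E a b 1 = 1 := by
  have := Formal_E_C a b 1
  simpa using this

/-- The Taylor expansion as a ring homomorphism. -/
noncomputable def Formal_hom : MvPolynomial (Fin 2) K →+* K⟦X⟧ where
  toFun := Formal_E a b
  map_one' := Formal_E_one a b
  map_mul' := Formal_E_mul a b
  map_zero' := Formal_E_zero a b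
  map_add' := Formal_E_add a b

theorem Formal_hom_X0 : Formal_hom a b (MvPolynomial.X 0) = tS a b := rfl

theorem Formal_hom_X1 : Formal_hom a b (MvPolynomial.X 1) = wS a b := rfl

theorem Formal_hom_C (r : K) : Formal_hom a b (MvPolynomial.C r) = C r := Formal_E_C a b r

theorem Formal_d_hom (g : MvPolynomial (Fin 2) K) :
    d⁄dX K (Formal_hom a b g) = Formal_hom a b (Dtw a b g) := Formal_d_E a b g

omit [CharZero K] in
theorem Formal_D0 : Dtw a b (MvPolynomial.X 0) =
    -1 + 2 * MvPolynomial.C a * MvPolynomial.X 0 * MvPolynomial.X 1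
        + 3 * MvPolynomial.C b * MvPolynomial.X 1 ^ 2 := by
  simp [Dtw, MvPolynomial.mkDerivation_X]

omit [CharZero K] in
theorem Formal_D1 : Dtw a b (MvPolynomial.X 1) =
    -(3 * MvPolynomial.X 0 ^ 2) - MvPolynomial.C a * MvPolynomial.X 1 ^ 2 := by
  simp [Dtw, MvPolynomial.mkDerivation_X]

theorem d_tS : d⁄dX K (tS a b) = -1 + 2 * C a * tS a b * wS a b + 3 * C b * wS a b ^ 2 := by
  rw [← Formal_hom_X0, Formal_d_hom, Formal_D0, ← Formal_hom_X1]
  simp only [map_add, map_neg, map_mul, map_pow, map_one, Formal_hom_C, map_ofNat]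

theorem d_wS : d⁄dX K (wS a b) = -(3 * tS a b ^ 2) - C a * wS a b ^ 2 := by
  rw [← Formal_hom_X1, Formal_d_hom, Formal_D1, ← Formal_hom_X0]
  simp only [map_sub, map_neg, map_mul, map_pow, Formal_hom_C, map_ofNat]

theorem X_mul_uS : X * uS a b = tS a b := by
  ext n
  rcases n with _ | n
  · simp [tS, Tn]
  · rw [coeff_succ_X_mul]; simp [tS, uS]

theorem const_uS : constantCoeff (uS a b) = -1 := by
  rw [← coeff_zero_eq_constantCoeff_apply]
  simp only [uS, coeff_mk, Tn, zero_add, Function.iterate_one, Formal_D0]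
  simp

theorem wS_eq : wS a b = tS a b ^ 3 + C a * tS a b * wS a b ^ 2 + C b * wS a b ^ 3 := by
  let g : MvPolynomial (Fin 2) K := MvPolynomial.X 1 - (MvPolynomial.X 0 ^ 3 +
    MvPolynomial.C a * MvPolynomial.X 0 * MvPolynomial.X 1 ^ 2 +
    MvPolynomial.C b * MvPolynomial.X 1 ^ 3)
  have hC : ∀ r : K, Dtw a b (MvPolynomial.C r) = 0 := fun r => by
    rw [← MvPolynomial.algebraMap_eq]; exact Derivation.map_algebraMap _ r
  have hD : Dtw a b g = 0 := by
    simp only [g, map_sub, map_add, Derivation.leibniz, Derivation.leibniz_pow, hC, Formal_D0,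
      Formal_D1, smul_eq_mul, nsmul_eq_mul]
    push_cast
    ring
  have hg : Formal_hom a b g = 0 := by
    show Formal_E a b g = 0
    ext n
    rcases n with _ | n
    · simp [Formal_E, g]
    · simp only [Formal_E, coeff_mk, Function.iterate_succ_apply, hD]
      rw [iterate_map_zero]; simp
  simp only [g, map_sub, map_add, map_mul, map_pow, Formal_hom_C, Formal_hom_X0,
    Formal_hom_X1] at hg
  linear_combination hg

theorem Formal_u_ne : constantCoeff (uS a b) ≠ 0 := by rw [const_uS]; simp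

theorem Formal_u_inv : uS a b * (uS a b)⁻¹ = 1 := PowerSeries.mul_inv_cancel _ (Formal_u_ne a b)

theorem Formal_we : wS a b * eS a b = X ^ 3 * uS a b ^ 3 := by
  have h := wS_eq a b
  have h2 : tS a b ^ 3 = X ^ 3 * uS a b ^ 3 := by rw [← X_mul_uS]; ring
  rw [eS, ← h2]
  linear_combination h

theorem wS_mul_yS : wS a b * yS a b = X ^ 3 := by
  have h := Formal_we a b
  have hu := Formal_u_inv a b
  have hu3 : uS a b ^ 3 * (uS a b)⁻¹ ^ 3 = 1 := by rw [← mul_pow, hu, one_pow]
  rw [yS, xS]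
  calc wS a b * (eS a b * (uS a b)⁻¹ ^ 2 * (uS a b)⁻¹)
      = (wS a b * eS a b) * (uS a b)⁻¹ ^ 3 := by ring
    _ = X ^ 3 * (uS a b ^ 3 * (uS a b)⁻¹ ^ 3) := by rw [h]; ring
    _ = X ^ 3 := by rw [hu3, mul_one]

theorem tS_mul_yS : tS a b * yS a b = X * xS a b := by
  have hu := Formal_u_inv a b
  rw [yS, ← X_mul_uS]
  calc X * uS a b * (xS a b * (uS a b)⁻¹)
      = X * xS a b * (uS a b * (uS a b)⁻¹) := by ring
    _ = X * xS a b := by rw [hu, mul_one]

theorem const_xS : constantCoeff (xS a b) = 1 := by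
  have h1 : constantCoeff (tS a b) = 0 := by rw [← X_mul_uS]; simp
  have h2 : constantCoeff (wS a b) = 0 := by
    rw [← coeff_zero_eq_constantCoeff_apply]; simp [wS, Wn]
  simp [xS, eS, h1, h2, const_uS, PowerSeries.constantCoeff_inv]

theorem const_yS : constantCoeff (yS a b) = -1 := by
  simp [yS, const_xS, const_uS, PowerSeries.constantCoeff_inv]

theorem const_zS : constantCoeff (zS a b) = 1 := by
  rw [← coeff_zero_eq_constantCoeff_apply]
  simp [zS, const_xS]

theorem const_sS : constantCoeff (sS a b) = 1 := by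
  rw [← coeff_zero_eq_constantCoeff_apply]
  simp [sS, sC]

theorem R1 : yS a b ^ 2 = xS a b ^ 3 + C a * X ^ 4 * xS a b + C b * X ^ 6 := by
  have h := wS_eq a b
  have hw := wS_mul_yS a b
  have ht := tS_mul_yS a b
  have hX : (X : K⟦X⟧) ^ 3 ≠ 0 := pow_ne_zero _ X_ne_zero
  apply mul_left_cancel₀ hX
  have e1 : wS a b * yS a b ^ 3 = X ^ 3 * yS a b ^ 2 := by rw [← hw]; ring
  have e2 : tS a b ^ 3 * yS a b ^ 3 = X ^ 3 * xS a b ^ 3 := by
    rw [← mul_pow, ht]; ring
  have e3 : tS a b * wS a b ^ 2 * yS a b ^ 3 = X ^ 7 * xS a b := by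
    calc tS a b * wS a b ^ 2 * yS a b ^ 3 = (tS a b * yS a b) * (wS a b * yS a b) ^ 2 := by ring
      _ = X ^ 7 * xS a b := by rw [ht, hw]; ring
  have e4 : wS a b ^ 3 * yS a b ^ 3 = X ^ 9 := by rw [← mul_pow, hw]; ring
  linear_combination (yS a b ^ 3) * h - e1 + e2 + C a * e3 + C b * e4

theorem R3 : X * d⁄dX K (yS a b) = 3 * yS a b + 3 * xS a b ^ 2 + C a * X ^ 4 := by
  have hw := wS_mul_yS a b
  have ht := tS_mul_yS a b
  have hd := congrArg (d⁄dX K) hw
  rw [Derivation.leibniz, Derivation.leibniz_pow, d_wS] at hd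
  simp only [smul_eq_mul, nsmul_eq_mul, derivative_X, mul_one] at hd
  push_cast at hd
  have hX : (X : K⟦X⟧) ^ 2 ≠ 0 := pow_ne_zero _ X_ne_zero
  apply mul_left_cancel₀ hX
  have e1 : tS a b ^ 2 * yS a b ^ 2 = X ^ 2 * xS a b ^ 2 := by rw [← mul_pow, ht]; ring
  have e2 : wS a b ^ 2 * yS a b ^ 2 = X ^ 6 := by rw [← mul_pow, hw]; ring
  linear_combination (yS a b) * hd + 3 * e1 + C a * e2 - (d⁄dX K (yS a b)) * hw

theorem Formal_y_ne : yS a b ≠ 0 := by
  intro h
  have := const_yS a b
  rw [h] at this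
  simp at this

theorem R2 : X * d⁄dX K (xS a b) = 2 * xS a b + 2 * yS a b := by
  have hw := wS_mul_yS a b
  have ht := tS_mul_yS a b
  have h1 := R1 a b
  have h3 := R3 a b
  have hd := congrArg (d⁄dX K) ht
  rw [Derivation.leibniz, Derivation.leibniz, d_tS] at hd
  simp only [smul_eq_mul, derivative_X, mul_one] at hd
  apply mul_left_cancel₀ (Formal_y_ne a b)
  have e1 : tS a b * wS a b * yS a b ^ 2 = X ^ 4 * xS a b := by
    calc tS a b * wS a b * yS a b ^ 2 = (tS a b * yS a b) * (wS a b * yS a b) := by ring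
      _ = X ^ 4 * xS a b := by rw [ht, hw]; ring
  have e2 : wS a b ^ 2 * yS a b ^ 2 = X ^ 6 := by rw [← mul_pow, hw]; ring
  linear_combination (-(yS a b)) * hd + 2 * C a * e1 + 3 * C b * e2 +
    (d⁄dX K (yS a b)) * ht + xS a b * h3 - 3 * h1

theorem coeff_one_xS : coeff 1 (xS a b) = 0 := by
  have h2 := congrArg (coeff 1) (R2 a b)
  have h3 := congrArg (coeff 1) (R3 a b)
  have c0 := const_xS a b
  rw [← coeff_zero_eq_constantCoeff_apply] at c0
  have e1 : (coeff 1 (X * d⁄dX K (xS a b)) : K) = coeff 1 (xS a b) := by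
    rw [show (1 : ℕ) = 0 + 1 from rfl, coeff_succ_X_mul, coeff_derivative]; simp
  have e2 : (coeff 1 (X * d⁄dX K (yS a b)) : K) = coeff 1 (yS a b) := by
    rw [show (1 : ℕ) = 0 + 1 from rfl, coeff_succ_X_mul, coeff_derivative]; simp
  have n2 : ∀ f : K⟦X⟧, coeff 1 (2 * f) = 2 * coeff 1 f := by
    intro f
    rw [← map_ofNat (C (R := K)) 2, coeff_C_mul]
  have n3 : ∀ f : K⟦X⟧, coeff 1 (3 * f) = 3 * coeff 1 f := by
    intro f
    rw [← map_ofNat (C (R := K)) 3, coeff_C_mul]
  have sq : coeff 1 (xS a b ^ 2) = 2 * coeff 1 (xS a b) := by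
    rw [pow_two, coeff_mul, Finset.Nat.antidiagonal_succ]
    simp [c0, two_mul]
  have x4 : coeff 1 (C a * X ^ 4 : K⟦X⟧) = 0 := by
    rw [coeff_C_mul, coeff_X_pow]; simp
  rw [e1, map_add, n2, n2] at h2
  rw [e2, map_add, map_add, n3, n3, sq, x4] at h3
  have h5 : (5 : K) * coeff 1 (xS a b) = 0 := by linear_combination h2 - h3
  exact (mul_eq_zero.1 h5).resolve_left (by norm_num)

theorem coeff_one_zS : coeff 1 (zS a b) = 0 := by
  simp [zS, coeff_one_xS]

theorem R4 : X * d⁄dX K (zS a b) = zS a b - xS a b := by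
  ext n
  rw [map_sub]
  rcases n with _ | n
  · simp [const_zS, const_xS]
  · rw [coeff_succ_X_mul, coeff_derivative]
    rcases Nat.eq_zero_or_pos n with rfl | hn
    · have h1 : coeff (0 + 1) (xS a b) = 0 := coeff_one_xS a b
      have h2 : coeff (0 + 1) (zS a b) = 0 := coeff_one_zS a b
      rw [h1, h2]; simp
    · have hn' : (n : K) ≠ 0 := by exact_mod_cast hn.ne'
      simp only [zS, coeff_mk]
      push_cast
      rw [add_sub_cancel_right]
      field_simp
      ring

theorem R5 : X * d⁄dX K (sS a b) = sS a b * (zS a b - 1) := by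
  ext n
  rcases n with _ | n
  · simp [const_sS, const_zS]
  · have hn : ((n : K) + 1) ≠ 0 := by exact_mod_cast n.succ_ne_zero
    have hc : coeff 0 (zS a b) = 1 := by
      rw [coeff_zero_eq_constantCoeff_apply]; exact const_zS a b
    rw [coeff_succ_X_mul, coeff_derivative, coeff_mul,
      Finset.Nat.sum_antidiagonal_eq_sum_range_succ_mk, Finset.sum_range_succ]
    have hlast : coeff (n + 1) (sS a b) * coeff (n + 1 - (n + 1)) (zS a b - 1) = 0 := by
      rw [Nat.sub_self, map_sub, hc]; simp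
    rw [hlast, add_zero]
    have h1 : coeff (n + 1) (sS a b) = (∑ m : Fin (n + 1), sC a b m *
        coeff (n + 1 - m) (zS a b)) / ((n : K) + 1) := by
      simp only [sS, coeff_mk]; rw [sC]
    rw [h1, div_mul_cancel₀ _ hn, Finset.sum_range]
    refine Finset.sum_congr rfl fun m _ => ?_
    have h2 : coeff (n + 1 - (m : ℕ)) (1 : K⟦X⟧) = 0 := by
      rw [coeff_one, if_neg]
      have := m.2
      omega
    rw [map_sub, h2, sub_zero]
    simp [sS]

end Pool.Agent.ZCM
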