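import Pool.Agent.ZCM.Size

/-! # F5a: `|T_n|, |W_n| ≤ n! C^n` -/

namespace Pool.Agent.ZCM
open MvPolynomial

/-- norm of the derivation -/
theorem TnBound_nm (f : Fin 2 → MvPolynomial (Fin 2) ℂ) (M : ℝ) (hM : ∀ i, nm (f i) ≤ M)
    (p : MvPolynomial (Fin 2) ℂ) :
    nm (mkDerivation ℂ f p) ≤ M * p.totalDegree * nm p := by
  have hM0 : 0 ≤ M := le_trans (nm_nonneg _) (hM 0)
  have hmon : ∀ (s : Fin 2 →₀ ℕ) (r : ℂ), s ∈ p.support →
      nm (mkDerivation ℂ f (monomial s r)) ≤ M * p.totalDegree * ‖r‖ := by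
    intro s r hs
    rw [mkDerivation_monomial]
    have e : (r • s.sum fun i k => monomial (s - Finsupp.single i 1) (k : ℂ) • f i) =
        C r * ∑ i ∈ s.support, monomial (s - Finsupp.single i 1) ((s i : ℕ) : ℂ) * f i := by
      rw [MvPolynomial.smul_eq_C_mul]
      rfl
    rw [e]
    refine le_trans (nm_mul_le _ _) ?_
    rw [nm_C]
    have h1 : nm (∑ i ∈ s.support, monomial (s - Finsupp.single i 1) ((s i : ℕ) : ℂ) * f i) ≤
        M * p.totalDegree := by
      refine le_trans (nm_sum_le _ _) ?_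
      have h2 : ∀ i ∈ s.support,
          nm (monomial (s - Finsupp.single i 1) ((s i : ℕ) : ℂ) * f i) ≤ (s i : ℝ) * M := by
        intro i _
        refine le_trans (nm_mul_le _ _) ?_
        rw [nm_monomial, Complex.norm_natCast]
        exact mul_le_mul_of_nonneg_left (hM i) (Nat.cast_nonneg _)
      refine le_trans (Finset.sum_le_sum h2) ?_
      rw [← Finset.sum_mul, mul_comm]
      apply mul_le_mul_of_nonneg_left _ hM0
      have h3 := le_totalDegree hs
      have h4 : (∑ i ∈ s.support, (s i : ℝ)) = ((s.sum fun _ e => e : ℕ) : ℝ) := by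
        rw [Finsupp.sum]; push_cast; rfl
      rw [h4]
      exact_mod_cast h3
    calc ‖r‖ * _ ≤ ‖r‖ * (M * p.totalDegree) := mul_le_mul_of_nonneg_left h1 (norm_nonneg _)
      _ = _ := by ring
  conv_lhs => rw [← p.support_sum_monomial_coeff, map_sum]
  refine le_trans (nm_sum_le _ _) ?_
  refine le_trans (Finset.sum_le_sum fun s hs => hmon s _ hs) ?_
  rw [← Finset.mul_sum]
  exact le_of_eq rfl

/-- degree of the derivation -/
theorem TnBound_deg (f : Fin 2 → MvPolynomial (Fin 2) ℂ) (hf : ∀ i, (f i).totalDegree ≤ 2)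
    (p : MvPolynomial (Fin 2) ℂ) :
    (mkDerivation ℂ f p).totalDegree ≤ p.totalDegree + 1 := by
  conv_lhs => rw [← p.support_sum_monomial_coeff, map_sum]
  refine totalDegree_finsetSum_le fun s hs => ?_
  rw [mkDerivation_monomial]
  refine le_trans (totalDegree_smul_le _ _) ?_
  have e : (s.sum fun i k => monomial (s - Finsupp.single i 1) (k : ℂ) • f i) =
      ∑ i ∈ s.support, monomial (s - Finsupp.single i 1) ((s i : ℕ) : ℂ) * f i := rfl
  rw [e]
  refine totalDegree_finsetSum_le fun i hi => ?_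
  refine le_trans (totalDegree_mul _ _) ?_
  have h1 : (monomial (s - Finsupp.single i 1) ((s i : ℕ) : ℂ)).totalDegree ≤
      (s - Finsupp.single i 1).sum fun _ e => e := totalDegree_monomial_le _ _
  have h2 := le_totalDegree hs
  have hsi : 1 ≤ s i := Nat.one_le_iff_ne_zero.2 (Finsupp.mem_support_iff.1 hi)
  have h3 : ((s - Finsupp.single i 1).sum fun _ e => e) + 1 = s.sum fun _ e => e := by
    have h4 : s - Finsupp.single i 1 + Finsupp.single i 1 = s :=
      tsub_add_cancel_of_le (by rw [Finsupp.single_le_iff]; exact hsi)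
    conv_rhs => rw [← h4]
    rw [Finsupp.sum_add_index' (fun _ => rfl) (fun _ _ _ => rfl), Finsupp.sum_single_index rfl]
  have h5 := hf i
  omega

theorem TnBound_iter (f : Fin 2 → MvPolynomial (Fin 2) ℂ) (M : ℝ) (hM : ∀ i, nm (f i) ≤ M)
    (hf : ∀ i, (f i).totalDegree ≤ 2) (j : Fin 2) (n : ℕ) :
    ((⇑(mkDerivation ℂ f))^[n] (X j)).totalDegree ≤ n + 1 ∧
      nm ((⇑(mkDerivation ℂ f))^[n] (X j)) ≤ n.factorial * M ^ n := by
  have hM0 : 0 ≤ M := le_trans (nm_nonneg _) (hM 0)
  induction n with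
  | zero =>
    refine ⟨?_, ?_⟩
    · simp
    · simp only [Function.iterate_zero, id_eq, Nat.factorial_zero, Nat.cast_one, pow_zero, mul_one]
      rw [nm_X]
  | succ n ih =>
    rw [Function.iterate_succ_apply']
    refine ⟨?_, ?_⟩
    · exact le_trans (TnBound_deg f hf _) (by omega)
    · refine le_trans (TnBound_nm f M hM _) ?_
      have h1 : (((⇑(mkDerivation ℂ f))^[n] (X j)).totalDegree : ℝ) ≤ (n : ℝ) + 1 := by
        exact_mod_cast ih.1
      calc M * _ * _ ≤ M * ((n : ℝ) + 1) * (n.factorial * M ^ n) := by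
            apply mul_le_mul (mul_le_mul_of_nonneg_left h1 hM0) ih.2 (nm_nonneg _) (by positivity)
        _ = _ := by rw [Nat.factorial_succ]; push_cast; ring

theorem norm_Tn_le (a b : ℂ) : ∃ C : ℝ, 1 ≤ C ∧ ∀ n : ℕ,
    ‖Tn a b n‖ ≤ n.factorial * C ^ n ∧ ‖Wn a b n‖ ≤ n.factorial * C ^ n := by
  set f : Fin 2 → MvPolynomial (Fin 2) ℂ :=
    ![-1 + 2 * MvPolynomial.C a * MvPolynomial.X 0 * MvPolynomial.X 1
        + 3 * MvPolynomial.C b * MvPolynomial.X 1 ^ 2,
      -(3 * MvPolynomial.X 0 ^ 2) - MvPolynomial.C a * MvPolynomial.X 1 ^ 2] with hf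
  set M : ℝ := max 1 (max (nm (f 0)) (nm (f 1))) with hM
  have hM1 : 1 ≤ M := le_max_left _ _
  have hMi : ∀ i, nm (f i) ≤ M := by
    intro i
    fin_cases i
    · exact le_trans (le_max_left _ _) (le_max_right _ _)
    · exact le_trans (le_max_right _ _) (le_max_right _ _)
  have hX : ∀ i : Fin 2, (X i : MvPolynomial (Fin 2) ℂ).totalDegree ≤ 1 := fun i => by
    rw [totalDegree_X]
  have hX2 : ∀ i : Fin 2, ((X i : MvPolynomial (Fin 2) ℂ) ^ 2).totalDegree ≤ 2 := fun i =>
    le_trans (totalDegree_pow _ _) (by rw [totalDegree_X])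
  have hC : ∀ c : ℂ, (C c : MvPolynomial (Fin 2) ℂ).totalDegree ≤ 0 := fun c => by
    rw [totalDegree_C]
  have h3 : (3 : MvPolynomial (Fin 2) ℂ) = C 3 := by rw [map_ofNat]
  have h2 : (2 : MvPolynomial (Fin 2) ℂ) = C 2 := by rw [map_ofNat]
  have h1 : (1 : MvPolynomial (Fin 2) ℂ) = C 1 := by rw [map_one]
  have hdeg : ∀ i, (f i).totalDegree ≤ 2 := by
    intro i
    fin_cases i
    · show (-1 + 2 * MvPolynomial.C a * MvPolynomial.X 0 * MvPolynomial.X 1
        + 3 * MvPolynomial.C b * MvPolynomial.X 1 ^ 2 : MvPolynomial (Fin 2) ℂ).totalDegree ≤ 2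
      rw [h1, h2, h3]
      refine le_trans (totalDegree_add _ _) (max_le (le_trans (totalDegree_add _ _)
        (max_le ?_ ?_)) ?_)
      · rw [totalDegree_neg, totalDegree_C]; omega
      · refine le_trans (totalDegree_mul _ _) ?_
        refine le_trans (Nat.add_le_add (le_trans (totalDegree_mul _ _) (Nat.add_le_add
          (le_trans (totalDegree_mul _ _) (Nat.add_le_add (hC _) (hC _))) (hX 0))) (hX 1)) ?_
        omega
      · refine le_trans (totalDegree_mul _ _) ?_
        refine le_trans (Nat.add_le_add (le_trans (totalDegree_mul _ _) (Nat.add_le_add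
          (hC _) (hC _))) (hX2 1)) ?_
        omega
    · show (-(3 * MvPolynomial.X 0 ^ 2) - MvPolynomial.C a * MvPolynomial.X 1 ^ 2 :
        MvPolynomial (Fin 2) ℂ).totalDegree ≤ 2
      rw [h3]
      refine le_trans (totalDegree_sub _ _) (max_le ?_ ?_)
      · rw [totalDegree_neg]
        refine le_trans (totalDegree_mul _ _) (le_trans (Nat.add_le_add (hC _) (hX2 0)) ?_)
        omega
      · refine le_trans (totalDegree_mul _ _) (le_trans (Nat.add_le_add (hC _) (hX2 1)) ?_)
        omega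
  have hev : ∀ g : MvPolynomial (Fin 2) ℂ, ‖eval (0 : Fin 2 → ℂ) g‖ ≤ nm g := by
    intro g
    have := norm_eval_le g (0 : Fin 2 → ℂ) 1 le_rfl (fun i => by simp)
    simpa using this
  refine ⟨M, hM1, fun n => ⟨?_, ?_⟩⟩
  · exact le_trans (hev _) (TnBound_iter f M hMi hdeg 0 n).2
  · exact le_trans (hev _) (TnBound_iter f M hMi hdeg 1 n).2

end Pool.Agent.ZCM
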