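import Pool.Agent.ZCM.NormR
import Pool.Agent.ZCM.TnBound
import Pool.Agent.ZCM.Formal

/-! # F5b: convergence near 0 -/

namespace Pool.Agent.ZCM
open PowerSeries
open scoped NNReal ENNReal

theorem Conv_half : (2⁻¹ : ℝ≥0) < 1 := by
  rw [← NNReal.coe_lt_coe]
  push_cast
  norm_num

theorem Conv_bound (f : ℂ⟦X⟧) (A B r : ℝ≥0) (h : ∀ n, ‖coeff n f‖₊ ≤ A * B ^ n)
    (hr : B * r < 1) : nr r f ≠ ∞ := by
  unfold nr
  rw [ENNReal.tsum_coe_ne_top_iff_summable]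
  refine NNReal.summable_of_le (f := fun n => A * (B * r) ^ n) (fun n => ?_)
    ((NNReal.summable_geometric hr).mul_left A)
  rw [mul_pow, ← mul_assoc]
  gcongr
  exact h n

theorem Conv_tS (a b : ℂ) (B : ℝ≥0) (hB : ∀ n : ℕ,
    ‖Tn a b n‖ ≤ n.factorial * (B : ℝ) ^ n) (r : ℝ≥0) (hr : B * r < 1) :
    nr r (tS a b) ≠ ∞ := by
  refine Conv_bound _ 1 B r (fun n => ?_) hr
  rw [← NNReal.coe_le_coe]
  simp only [tS, coeff_mk, coe_nnnorm, norm_div, RCLike.norm_natCast, NNReal.coe_pow, one_mul]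
  rw [div_le_iff₀ (by positivity), mul_comm]
  exact hB n

theorem Conv_wS (a b : ℂ) (B : ℝ≥0) (hB : ∀ n : ℕ,
    ‖Wn a b n‖ ≤ n.factorial * (B : ℝ) ^ n) (r : ℝ≥0) (hr : B * r < 1) :
    nr r (wS a b) ≠ ∞ := by
  refine Conv_bound _ 1 B r (fun n => ?_) hr
  rw [← NNReal.coe_le_coe]
  simp only [wS, coeff_mk, coe_nnnorm, norm_div, RCLike.norm_natCast, NNReal.coe_pow, one_mul]
  rw [div_le_iff₀ (by positivity), mul_comm]
  exact hB n

theorem Conv_uS (a b : ℂ) (B : ℝ≥0) (hB : ∀ n : ℕ,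
    ‖Tn a b n‖ ≤ n.factorial * (B : ℝ) ^ n) (r : ℝ≥0) (hr : B * r < 1) :
    nr r (uS a b) ≠ ∞ := by
  refine Conv_bound _ B B r (fun n => ?_) hr
  rw [← NNReal.coe_le_coe]
  simp only [uS, coeff_mk, coe_nnnorm, norm_div, RCLike.norm_natCast, NNReal.coe_mul,
    NNReal.coe_pow]
  rw [div_le_iff₀ (by positivity)]
  refine (hB (n + 1)).trans (le_of_eq ?_)
  ring

theorem Conv_one (r : ℝ≥0) : nr r (1 : ℂ⟦X⟧) ≠ ∞ := by
  have h := nr_C r (1 : ℂ)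
  rw [map_one] at h
  rw [h]
  exact ENNReal.coe_ne_top

theorem Conv_mul (r : ℝ≥0) (f g : ℂ⟦X⟧) (hf : nr r f ≠ ∞) (hg : nr r g ≠ ∞) :
    nr r (f * g) ≠ ∞ :=
  ne_top_of_le_ne_top (ENNReal.mul_ne_top hf hg) (nr_mul_le r f g)

theorem Conv_sub (r : ℝ≥0) (f g : ℂ⟦X⟧) (hf : nr r f ≠ ∞) (hg : nr r g ≠ ∞) :
    nr r (f - g) ≠ ∞ :=
  ne_top_of_le_ne_top (ENNReal.add_ne_top.2 ⟨hf, hg⟩) (nr_sub_le r f g)

theorem Conv_pow (r : ℝ≥0) (f : ℂ⟦X⟧) (n : ℕ) (hf : nr r f ≠ ∞) :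
    nr r (f ^ n) ≠ ∞ :=
  ne_top_of_le_ne_top (ENNReal.pow_ne_top hf) (nr_pow_le r f n)

theorem Conv_C (r : ℝ≥0) (c : ℂ) : nr r (C c) ≠ ∞ := by
  rw [nr_C]
  exact ENNReal.coe_ne_top

theorem Conv_mono {r s : ℝ≥0} (f : ℂ⟦X⟧) (h : r ≤ s) (hf : nr s f ≠ ∞) : nr r f ≠ ∞ :=
  ne_top_of_le_ne_top hf (nr_mono r f h)

theorem Conv_zS_coeff (a b : ℂ) (n : ℕ) :
    ‖coeff n (zS a b)‖ ≤ ‖coeff n (xS a b)‖ := by
  simp only [zS, coeff_mk, norm_div, norm_neg]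
  rcases Nat.lt_or_ge n 2 with h | h
  · interval_cases n
    · simp
    · simp
  · have h1 : (1 : ℝ) ≤ ‖(n : ℂ) - 1‖ := by
      have h2 : (n : ℂ) - 1 = (((n - 1 : ℕ) : ℝ) : ℂ) := by
        rw [Nat.cast_sub (by omega)]
        push_cast
        ring
      rw [h2, Complex.norm_real, Real.norm_natCast]
      exact_mod_cast (by omega : 1 ≤ n - 1)
    exact div_le_self (norm_nonneg _) h1

theorem Conv_zS (a b : ℂ) (r : ℝ≥0) (h : nr r (xS a b) ≠ ∞) : nr r (zS a b) ≠ ∞ := by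
  refine ne_top_of_le_ne_top h ?_
  unfold nr
  refine ENNReal.tsum_le_tsum fun n => ?_
  rw [ENNReal.coe_le_coe]
  gcongr
  exact Conv_zS_coeff a b n

theorem Conv_sC (a b : ℂ) (M B : ℝ) (hM : 0 ≤ M) (hB : 0 ≤ B)
    (h : ∀ n, ‖coeff n (zS a b)‖ ≤ M * B ^ n) (n : ℕ) :
    ‖sC a b n‖ ≤ (B * (M + 1)) ^ n := by
  induction n using Nat.strong_induction_on with
  | _ n ih =>
    rcases n with _ | n
    · simp [sC]
    · rw [sC, norm_div]
      have h1 : ‖(n : ℂ) + 1‖ = (n : ℝ) + 1 := by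
        have h2 : (n : ℂ) + 1 = (((n + 1 : ℕ) : ℝ) : ℂ) := by push_cast; ring
        rw [h2, Complex.norm_real, Real.norm_natCast]
        push_cast
        ring
      rw [h1, div_le_iff₀ (by positivity)]
      refine (norm_sum_le _ _).trans ?_
      have h3 : ∀ m ∈ (Finset.univ : Finset (Fin (n + 1))),
          ‖sC a b m * coeff (n + 1 - m) (zS a b)‖ ≤ (B * (M + 1)) ^ (n + 1) := by
        intro m _
        rw [norm_mul]
        have h4 := ih m m.2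
        have h5 := h (n + 1 - m)
        have h6 : (m : ℕ) + (n + 1 - m) = n + 1 := by omega
        calc ‖sC a b m‖ * ‖coeff (n + 1 - m) (zS a b)‖
            ≤ (B * (M + 1)) ^ (m : ℕ) * (M * B ^ (n + 1 - m)) := by gcongr
          _ = B ^ ((m : ℕ) + (n + 1 - m)) * ((M + 1) ^ (m : ℕ) * M) := by
              rw [mul_pow, pow_add]; ring
          _ = B ^ (n + 1) * ((M + 1) ^ (m : ℕ) * M) := by rw [h6]
          _ ≤ B ^ (n + 1) * ((M + 1) ^ n * (M + 1)) := by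
              have h7 : (M + 1) ^ (m : ℕ) ≤ (M + 1) ^ n :=
                pow_le_pow_right₀ (by linarith) (by omega)
              gcongr
              linarith
          _ = (B * (M + 1)) ^ (n + 1) := by rw [mul_pow]; ring
      refine (Finset.sum_le_sum h3).trans ?_
      rw [Finset.sum_const, Finset.card_univ, Fintype.card_fin, nsmul_eq_mul]
      push_cast
      rw [mul_comm]

theorem Conv_coeff_le (r : ℝ≥0) (hr : 0 < r) (f : ℂ⟦X⟧) (h : nr r f ≠ ∞) (n : ℕ) :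
    ‖coeff n f‖ ≤ ((nr r f).toNNReal : ℝ) * ((r⁻¹ : ℝ≥0) : ℝ) ^ n := by
  have h1 := coeff_le_nr r f n
  have h2 : ‖coeff n f‖₊ * r ^ n ≤ (nr r f).toNNReal := by
    rw [← ENNReal.coe_le_coe, ENNReal.coe_toNNReal h]
    exact h1
  have h3 : ‖coeff n f‖ * (r : ℝ) ^ n ≤ ((nr r f).toNNReal : ℝ) := by
    exact_mod_cast h2
  have h4 : (0 : ℝ) < (r : ℝ) ^ n := by positivity
  rw [NNReal.coe_inv, inv_pow, ← div_eq_mul_inv, le_div_iff₀ h4]
  exact h3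

theorem conv_all (a b : ℂ) : ∃ r : ℝ≥0, 0 < r ∧ nr r (xS a b) ≠ ∞ ∧ nr r (yS a b) ≠ ∞ ∧
    nr r (zS a b) ≠ ∞ ∧ nr r (sS a b) ≠ ∞ := by
  obtain ⟨B', hB1, hB⟩ := norm_Tn_le a b
  obtain ⟨B, rfl⟩ : ∃ B : ℝ≥0, (B : ℝ) = B' := ⟨⟨B', by linarith⟩, rfl⟩
  have hB1' : (1 : ℝ≥0) ≤ B := by exact_mod_cast hB1
  have hB0 : 0 < B := lt_of_lt_of_le one_pos hB1'
  set r0 : ℝ≥0 := (2 * B)⁻¹ with hr0
  have hr0pos : 0 < r0 := by positivity
  have hBr0 : B * r0 < 1 := by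
    rw [hr0, mul_inv, mul_comm (2⁻¹ : ℝ≥0), ← mul_assoc, mul_inv_cancel₀ hB0.ne', one_mul]
    exact Conv_half
  have ht := Conv_tS a b B (fun n => (hB n).1) r0 hBr0
  have hw := Conv_wS a b B (fun n => (hB n).2) r0 hBr0
  have hu := Conv_uS a b B (fun n => (hB n).1) r0 hBr0
  have he : nr r0 (eS a b) ≠ ∞ := by
    unfold eS
    exact Conv_sub _ _ _ (Conv_sub _ _ _ (Conv_one _)
      (Conv_mul _ _ _ (Conv_mul _ _ _ (Conv_C _ _) ht) hw))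
      (Conv_mul _ _ _ (Conv_C _ _) (Conv_pow _ _ _ hw))
  have hu0 : constantCoeff (uS a b) ≠ 0 := by
    rw [const_uS]
    norm_num
  obtain ⟨r1, hr1, hui⟩ := nr_inv r0 (uS a b) hu0 hr0pos hu
  set r2 : ℝ≥0 := min r0 r1 with hr2
  have hr2pos : 0 < r2 := lt_min hr0pos hr1
  have hui2 : nr r2 (uS a b)⁻¹ ≠ ∞ := Conv_mono _ (min_le_right _ _) hui
  have he2 : nr r2 (eS a b) ≠ ∞ := Conv_mono _ (min_le_left _ _) he
  have hx : nr r2 (xS a b) ≠ ∞ := by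
    unfold xS
    exact Conv_mul _ _ _ he2 (Conv_pow _ _ _ hui2)
  have hy : nr r2 (yS a b) ≠ ∞ := by
    unfold yS
    exact Conv_mul _ _ _ hx hui2
  have hz : nr r2 (zS a b) ≠ ∞ := Conv_zS a b r2 hx
  have hzc := Conv_coeff_le r2 hr2pos _ hz
  set M : ℝ≥0 := (nr r2 (zS a b)).toNNReal with hM
  have hs := Conv_sC a b M ((r2⁻¹ : ℝ≥0) : ℝ) M.2 (NNReal.coe_nonneg _) hzc
  set r3 : ℝ≥0 := (2 * (r2⁻¹ * (M + 1)))⁻¹ with hr3
  have hq : 0 < r2⁻¹ * (M + 1) := by positivity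
  have hr3pos : 0 < r3 := by positivity
  have hs3 : nr r3 (sS a b) ≠ ∞ := by
    refine Conv_bound _ 1 (r2⁻¹ * (M + 1)) r3 (fun n => ?_) ?_
    · rw [← NNReal.coe_le_coe]
      simp only [sS, coeff_mk, coe_nnnorm, one_mul]
      push_cast
      have h := hs n
      push_cast at h
      exact h
    · rw [hr3, mul_inv, mul_comm (2⁻¹ : ℝ≥0), ← mul_assoc, mul_inv_cancel₀ hq.ne', one_mul]
      exact Conv_half
  refine ⟨min r2 r3, lt_min hr2pos hr3pos, ?_, ?_, ?_, ?_⟩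
  · exact Conv_mono _ (min_le_left _ _) hx
  · exact Conv_mono _ (min_le_left _ _) hy
  · exact Conv_mono _ (min_le_left _ _) hz
  · exact Conv_mono _ (min_le_right _ _) hs3

end Pool.Agent.ZCM
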