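import Pool.Agent.ZCM.Size
import Pool.Agent.ZCM.Liou
import Pool.Agent.ZCM.Zeta

/-! # W3a: a lattice point where a polynomial is not small -/

namespace Pool.Agent.ZCM
open NumberField

/-- distinct lattice points are far apart -/
theorem GoodPt_sep (L : PeriodPair) : ∃ δ : ℝ, 0 < δ ∧ δ ≤ 1 ∧ ∀ m n m' n' : ℕ,
    ¬ (m = m' ∧ n = n') →
      2 * δ ≤ ‖((m : ℂ) * L.ω₁ + n * L.ω₂) - ((m' : ℂ) * L.ω₁ + n' * L.ω₂)‖ := by
  set c0 : ℂ →L[ℝ] ℝ := LinearMap.toContinuousLinearMap (L.basis.coord 0) with hc0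
  set c1 : ℂ →L[ℝ] ℝ := LinearMap.toContinuousLinearMap (L.basis.coord 1) with hc1
  set A : ℝ := ‖c0‖ + ‖c1‖ + 1 with hA
  have hA1 : 1 ≤ A := by
    have h1 := norm_nonneg c0
    have h2 := norm_nonneg c1
    linarith
  have hA0 : 0 < A := by linarith
  refine ⟨1 / (2 * A), by positivity, ?_, ?_⟩
  · rw [div_le_one (by positivity)]
    linarith
  intro m n m' n' hne
  set z : ℂ := ((m : ℂ) * L.ω₁ + n * L.ω₂) - ((m' : ℂ) * L.ω₁ + n' * L.ω₂) with hz
  have hz' : z = (((m : ℤ) - m' : ℤ) : ℝ) • L.basis 0 + (((n : ℤ) - n' : ℤ) : ℝ) • L.basis 1 := by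
    rw [hz, L.basis_zero, L.basis_one]
    simp only [Complex.real_smul]
    push_cast
    ring
  have h0 : c0 z = (((m : ℤ) - m' : ℤ) : ℝ) := by
    rw [hz', hc0]
    simp only [map_add, map_smul, LinearMap.coe_toContinuousLinearMap', Module.Basis.coord_apply,
      Module.Basis.repr_self, smul_eq_mul]
    simp
  have h1 : c1 z = (((n : ℤ) - n' : ℤ) : ℝ) := by
    rw [hz', hc1]
    simp only [map_add, map_smul, LinearMap.coe_toContinuousLinearMap', Module.Basis.coord_apply,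
      Module.Basis.repr_self, smul_eq_mul]
    simp
  have hb0 : ‖c0 z‖ ≤ A * ‖z‖ := (c0.le_opNorm z).trans
    (mul_le_mul_of_nonneg_right (by have := norm_nonneg c1; linarith) (norm_nonneg z))
  have hb1 : ‖c1 z‖ ≤ A * ‖z‖ := (c1.le_opNorm z).trans
    (mul_le_mul_of_nonneg_right (by have := norm_nonneg c0; linarith) (norm_nonneg z))
  have h2 : 1 ≤ A * ‖z‖ := by
    by_cases hm : m = m'
    · have hn : n ≠ n' := fun h => hne ⟨hm, h⟩
      have h3 : (1 : ℤ) ≤ |(n : ℤ) - n'| := Int.one_le_abs (by omega)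
      have h4 : (1 : ℝ) ≤ ‖c1 z‖ := by
        rw [h1, Real.norm_eq_abs, ← Int.cast_abs]
        exact_mod_cast h3
      linarith
    · have h3 : (1 : ℤ) ≤ |(m : ℤ) - m'| := Int.one_le_abs (by omega)
      have h4 : (1 : ℝ) ≤ ‖c0 z‖ := by
        rw [h0, Real.norm_eq_abs, ← Int.cast_abs]
        exact_mod_cast h3
      linarith
  calc 2 * (1 / (2 * A)) = 1 / A := by field_simp
    _ ≤ ‖z‖ := by rw [div_le_iff₀ hA0]; linarith

/-- a point of the grid far away from all the roots -/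
theorem GoodPt_grid (L : PeriodPair) (δ : ℝ) (hδ : 0 < δ) (hsep : ∀ m n m' n' : ℕ,
    ¬ (m = m' ∧ n = n') →
      2 * δ ≤ ‖((m : ℂ) * L.ω₁ + n * L.ω₂) - ((m' : ℂ) * L.ω₁ + n' * L.ω₂)‖)
    (l : ℕ) (R : Finset ℂ) (hR : R.card ≤ l) :
    ∃ m n : ℕ, m ≤ Nat.sqrt l ∧ n ≤ Nat.sqrt l ∧
      ∀ ρ ∈ R, δ ≤ ‖((m : ℂ) * L.ω₁ + n * L.ω₂) - ρ‖ := by
  by_contra hcon
  push Not at hcon
  have h1 : ∀ P : Fin (Nat.sqrt l + 1) × Fin (Nat.sqrt l + 1), ∃ ρ ∈ R,
      ‖(((P.1 : ℕ) : ℂ) * L.ω₁ + ((P.2 : ℕ) : ℂ) * L.ω₂) - ρ‖ < δ := fun P =>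
    hcon P.1 P.2 (Nat.lt_succ_iff.mp P.1.2) (Nat.lt_succ_iff.mp P.2.2)
  choose f hf1 hf2 using h1
  have hinj : Function.Injective (fun P => (⟨f P, hf1 P⟩ : R)) := by
    intro P Q hPQ
    have h2 : f P = f Q := congrArg Subtype.val hPQ
    by_contra hne
    have h3 : ¬ ((P.1 : ℕ) = (Q.1 : ℕ) ∧ (P.2 : ℕ) = (Q.2 : ℕ)) := fun h =>
      hne (Prod.ext (Fin.ext h.1) (Fin.ext h.2))
    have h4 := hsep _ _ _ _ h3
    have h5 := hf2 P
    have h6 := hf2 Q
    rw [← h2] at h6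
    have h7 := norm_sub_le_norm_sub_add_norm_sub
      (((P.1 : ℕ) : ℂ) * L.ω₁ + ((P.2 : ℕ) : ℂ) * L.ω₂) (f P)
      (((Q.1 : ℕ) : ℂ) * L.ω₁ + ((Q.2 : ℕ) : ℂ) * L.ω₂)
    rw [norm_sub_rev (f P)] at h7
    linarith
  have hcard := Fintype.card_le_of_injective _ hinj
  rw [Fintype.card_prod, Fintype.card_fin, Fintype.card_coe] at hcard
  have := Nat.lt_succ_sqrt l
  simp only [Nat.succ_eq_add_one] at this
  omega

/-- a good lattice point for a polynomial in one variable with integral coefficients -/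
theorem good_point (L : PeriodPair) {K : Type*} [Field K] [NumberField K] (ι : K →+* ℂ) :
    ∃ C : ℝ, 0 ≤ C ∧ ∀ (l : ℕ) (H : ℝ) (r : Polynomial (𝓞 K)), 1 ≤ H → r ≠ 0 →
      r.natDegree ≤ l → (∀ σ : K →+* ℂ, ∀ i, ‖oc σ (r.coeff i)‖ ≤ H) →
      ∃ m n : ℕ, (m : ℝ) ^ 2 + (n : ℝ) ^ 2 ≤ C * (l + 1) ∧
        Real.exp (-C * (Real.log H + l + 1)) ≤
          ‖(r.map (oc ι)).eval ((m : ℂ) * L.ω₁ + n * L.ω₂)‖ := by
  obtain ⟨δ, hδ, hδ1, hsep⟩ := GoodPt_sep L
  have hlδ : Real.log δ ≤ 0 := Real.log_nonpos hδ.le hδ1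
  set κ : ℝ := (Module.finrank ℚ K : ℝ) with hκ
  have hκ0 : 0 ≤ κ := by positivity
  refine ⟨κ - Real.log δ + 2, by linarith, ?_⟩
  intro l H r hH hr hdeg hσ
  set q := r.map (oc ι) with hq
  have hinj : Function.Injective (oc ι) :=
    ι.injective.comp (IsFractionRing.injective (𝓞 K) K)
  have hq0 : q ≠ 0 := (Polynomial.map_ne_zero_iff hinj).mpr hr
  have hqdeg : q.natDegree = r.natDegree := Polynomial.natDegree_map_eq_of_injective hinj r
  have hcard : q.roots.card ≤ l := (Polynomial.card_roots' q).trans (hqdeg.le.trans hdeg)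
  obtain ⟨m, n, hm, hn, hmn⟩ := GoodPt_grid L δ hδ hsep l q.roots.toFinset
    ((Multiset.toFinset_card_le _).trans hcard)
  refine ⟨m, n, ?_, ?_⟩
  · have h1 : m ^ 2 ≤ l := by
      calc m ^ 2 ≤ Nat.sqrt l ^ 2 := Nat.pow_le_pow_left hm 2
        _ ≤ l := Nat.sqrt_le' l
    have h2 : n ^ 2 ≤ l := by
      calc n ^ 2 ≤ Nat.sqrt l ^ 2 := Nat.pow_le_pow_left hn 2
        _ ≤ l := Nat.sqrt_le' l
    have h1' : (m : ℝ) ^ 2 ≤ l := by exact_mod_cast h1
    have h2' : (n : ℝ) ^ 2 ≤ l := by exact_mod_cast h2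
    have hl : (0 : ℝ) ≤ l := by positivity
    nlinarith
  · set ω := (m : ℂ) * L.ω₁ + n * L.ω₂ with hω
    -- the leading coefficient
    have hlc : Real.exp (-(κ - 1) * Real.log H) ≤ ‖q.leadingCoeff‖ := by
      have h1 := liouville K ((r.leadingCoeff : 𝓞 K) : K) (r.leadingCoeff).2
        (by
          intro h
          exact hr (Polynomial.leadingCoeff_eq_zero.mp (RingOfIntegers.coe_eq_zero_iff.mp h)))
        (Real.log H) (fun σ => by
          rw [Real.exp_log (by linarith)]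
          exact hσ σ r.natDegree) ι
      have h2 : q.leadingCoeff = ι ((r.leadingCoeff : 𝓞 K) : K) := by
        rw [hq, Polynomial.leadingCoeff_map_of_injective hinj]
        rfl
      rw [h2]
      exact h1
    -- the product
    have heval : q.eval ω = q.leadingCoeff * (q.roots.map (fun ρ => ω - ρ)).prod :=
      (IsAlgClosed.splits q).eval_eq_prod_roots ω
    have hprod : δ ^ q.roots.card ≤ ‖(q.roots.map (fun ρ => ω - ρ)).prod‖ := by
      have h3 : ∀ s : Multiset ℂ, (∀ ρ ∈ s, δ ≤ ‖ω - ρ‖) →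
          δ ^ s.card ≤ ‖(s.map (fun ρ => ω - ρ)).prod‖ := by
        intro s
        induction s using Multiset.induction_on with
        | empty => intro _; simp
        | cons a s ih =>
          intro h
          rw [Multiset.card_cons, Multiset.map_cons, Multiset.prod_cons, norm_mul, pow_succ']
          exact mul_le_mul (h a (Multiset.mem_cons_self a s))
            (ih fun ρ hρ => h ρ (Multiset.mem_cons_of_mem hρ)) (by positivity) (norm_nonneg _)
      exact h3 _ fun ρ hρ => hmn ρ (Multiset.mem_toFinset.mpr hρ)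
    rw [heval, norm_mul]
    have hlH : 0 ≤ Real.log H := Real.log_nonneg hH
    have h4 : δ ^ l ≤ δ ^ q.roots.card := pow_le_pow_of_le_one hδ.le hδ1 hcard
    have h5 : Real.exp (Real.log δ * l) = δ ^ l := by
      rw [Real.exp_mul, Real.exp_log hδ, Real.rpow_natCast]
    calc Real.exp (-(κ - Real.log δ + 2) * (Real.log H + l + 1))
        ≤ Real.exp (-(κ - 1) * Real.log H + Real.log δ * l) := by
          apply Real.exp_le_exp.mpr
          have hl : (0 : ℝ) ≤ l := by positivity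
          nlinarith [mul_nonneg hκ0 hl, mul_nonneg (neg_nonneg.mpr hlδ) hlH]
      _ = Real.exp (-(κ - 1) * Real.log H) * δ ^ l := by rw [Real.exp_add, h5]
      _ ≤ ‖q.leadingCoeff‖ * ‖(q.roots.map (fun ρ => ω - ρ)).prod‖ :=
          mul_le_mul hlc (h4.trans hprod) (by positivity) (norm_nonneg _)

end Pool.Agent.ZCM
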