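import Pool.Agent.ZCM.Claim2
import Pool.Agent.ZCM.GoodPt

/-! # W2: elimination of `ζ` -/

namespace Pool.Agent.ZCM
open Filter Topology Asymptotics PowerSeries NumberField


/-! ## big-O calculus at 0 -/

theorem Elim_zpow_mono {j k : ℤ} (h : j ≤ k) :
    (fun z : ℂ => z ^ k) =O[𝓝[≠] (0 : ℂ)] fun z => z ^ j := by
  refine IsBigO.of_bound 1 ?_
  have h1 : ∀ᶠ z in 𝓝[≠] (0 : ℂ), z ∈ Metric.ball (0 : ℂ) 1 :=
    mem_nhdsWithin_of_mem_nhds (Metric.ball_mem_nhds _ one_pos)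
  filter_upwards [h1, self_mem_nhdsWithin] with z hz hz0
  have hz1 : ‖z‖ < 1 := by simpa using hz
  have hz2 : 0 < ‖z‖ := norm_pos_iff.2 hz0
  rw [one_mul, norm_zpow, norm_zpow]
  exact zpow_le_zpow_right_of_le_one₀ hz2 hz1.le h

theorem Elim_zpow_mul (j k : ℤ) {f g : ℂ → ℂ}
    (hf : f =O[𝓝[≠] (0 : ℂ)] fun z => z ^ j) (hg : g =O[𝓝[≠] (0 : ℂ)] fun z => z ^ k) :
    (fun z => f z * g z) =O[𝓝[≠] (0 : ℂ)] fun z => z ^ (j + k) := by
  refine (hf.mul hg).congr' (EventuallyEq.refl _ _) ?_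
  filter_upwards [self_mem_nhdsWithin] with z hz
  exact (zpow_add₀ hz j k).symm

theorem Elim_zpow_pow (j : ℤ) {f : ℂ → ℂ}
    (hf : f =O[𝓝[≠] (0 : ℂ)] fun z => z ^ j) (n : ℕ) :
    (fun z => f z ^ n) =O[𝓝[≠] (0 : ℂ)] fun z => z ^ (j * n) := by
  refine (hf.pow n).congr' (EventuallyEq.refl _ _) ?_
  filter_upwards [self_mem_nhdsWithin] with z hz
  rw [zpow_mul, zpow_natCast]

theorem Elim_deriv_isBigO {f : ℂ → ℂ} {m : ℤ} (hf : f =O[𝓝[≠] (0 : ℂ)] fun z => z ^ m)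
    (hd : ∀ᶠ z in 𝓝[≠] (0 : ℂ), DifferentiableAt ℂ f z) :
    deriv f =O[𝓝[≠] (0 : ℂ)] fun z => z ^ (m - 1) := by
  obtain ⟨C, hC0, hC⟩ := hf.exists_pos
  have hC1 := hC.bound
  have hev := hC1.and hd
  rw [eventually_nhdsWithin_iff, Metric.eventually_nhds_iff] at hev
  obtain ⟨r, hr, hev⟩ := hev
  have hW : ∀ w : ℂ, w ≠ 0 → ‖w‖ < r → ‖f w‖ ≤ C * ‖w‖ ^ m ∧ DifferentiableAt ℂ f w := by
    intro w hw0 hw
    have := hev (y := w) (by simpa using hw) hw0
    rw [norm_zpow] at this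
    exact this
  refine IsBigO.of_bound (C * (2 : ℝ) ^ |m| * 2) ?_
  have h1 : ∀ᶠ z in 𝓝[≠] (0 : ℂ), z ∈ Metric.ball (0 : ℂ) (r / 2) :=
    mem_nhdsWithin_of_mem_nhds (Metric.ball_mem_nhds _ (by positivity))
  filter_upwards [h1, self_mem_nhdsWithin] with z hz hz0
  have hz1 : ‖z‖ < r / 2 := by simpa using hz
  have hz2 : 0 < ‖z‖ := norm_pos_iff.2 hz0
  have hball : ∀ w ∈ Metric.closedBall z (‖z‖ / 2), ‖z‖ / 2 ≤ ‖w‖ ∧ ‖w‖ ≤ 2 * ‖z‖ := by
    intro w hw
    rw [mem_closedBall_iff_norm] at hw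
    have h2 : ‖z‖ ≤ ‖w‖ + ‖w - z‖ := by
      calc ‖z‖ = ‖w - (w - z)‖ := by congr 1; ring
        _ ≤ ‖w‖ + ‖w - z‖ := norm_sub_le _ _
    have h3 : ‖w‖ ≤ ‖z‖ + ‖w - z‖ := by
      calc ‖w‖ = ‖z + (w - z)‖ := by congr 1; ring
        _ ≤ ‖z‖ + ‖w - z‖ := norm_add_le _ _
    constructor <;> linarith
  have hdiff : DiffContOnCl ℂ f (Metric.ball z (‖z‖ / 2)) := by
    apply DifferentiableOn.diffContOnCl
    intro w hw
    have hw' := hball w (Metric.closure_ball_subset_closedBall hw)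
    have hw0 : w ≠ 0 := norm_pos_iff.1 (by linarith)
    have hwr : ‖w‖ < r := by linarith
    exact (hW w hw0 hwr).2.differentiableWithinAt
  have hbd : ∀ w ∈ Metric.sphere z (‖z‖ / 2), ‖f w‖ ≤ C * ((2 : ℝ) ^ |m| * ‖z‖ ^ m) := by
    intro w hw
    have hw' := hball w (Metric.sphere_subset_closedBall hw)
    have hwp : 0 < ‖w‖ := by linarith
    have hw0 : w ≠ 0 := norm_pos_iff.1 hwp
    have hwr : ‖w‖ < r := by linarith
    refine (hW w hw0 hwr).1.trans (mul_le_mul_of_nonneg_left ?_ hC0.le)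
    rcases le_or_gt 0 m with hm | hm
    · rw [abs_of_nonneg hm, ← mul_zpow]
      exact zpow_le_zpow_left₀ hm (by positivity) hw'.2
    · rw [abs_of_neg hm]
      have h5 : ‖w‖ ^ m ≤ (‖z‖ / 2) ^ m := by
        rw [← inv_le_inv₀ (by positivity) (by positivity), ← zpow_neg, ← zpow_neg]
        exact zpow_le_zpow_left₀ (by omega) (by positivity) hw'.1
      refine h5.trans (le_of_eq ?_)
      rw [div_zpow, zpow_neg, div_eq_mul_inv, mul_comm]
  have h6 := Complex.norm_deriv_le_of_forall_mem_sphere_norm_le (by positivity) hdiff hbd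
  refine h6.trans (le_of_eq ?_)
  rw [norm_zpow, zpow_sub₀ hz2.ne', zpow_one]
  field_simp

/-! ## the Weierstrass functions near 0 -/

theorem Elim_P_isBigO (L : PeriodPair) :
    (fun z => L.weierstrassP z) =O[𝓝[≠] (0 : ℂ)] fun z => z ^ (-2 : ℤ) := by
  have h0 : (0 : ℂ) ∈ L.lattice := zero_mem _
  have h1 : ∀ z, L.weierstrassP z = L.weierstrassPExcept 0 z + 1 / z ^ 2 := by
    intro z
    have := L.weierstrassPExcept_def ⟨0, h0⟩ z
    simp only [sub_zero] at this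
    rw [this]; simp
  have h2 : (fun z => L.weierstrassPExcept 0 z) =O[𝓝[≠] (0 : ℂ)] fun z => z ^ (0 : ℤ) := by
    simp only [zpow_zero]
    exact ((L.analyticAt_weierstrassPExcept 0).continuousAt.isBigO_one ℂ).mono
      nhdsWithin_le_nhds
  have h3 := (h2.trans (Elim_zpow_mono (j := -2) (by norm_num))).add
    (isBigO_refl (fun z : ℂ => z ^ (-2 : ℤ)) (𝓝[≠] (0 : ℂ)))
  refine h3.congr' ?_ (EventuallyEq.refl _ _)
  filter_upwards with z
  rw [h1, zpow_neg, one_div]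
  norm_cast

theorem Elim_P'_isBigO (L : PeriodPair) :
    (fun z => L.derivWeierstrassP z / 2) =O[𝓝[≠] (0 : ℂ)] fun z => z ^ (-3 : ℤ) := by
  have h0 : (0 : ℂ) ∈ L.lattice := zero_mem _
  have h1 : ∀ z, L.derivWeierstrassP z = L.derivWeierstrassPExcept 0 z - 2 * (z ^ 3)⁻¹ := by
    intro z
    have := L.derivWeierstrassPExcept_sub ⟨0, h0⟩ z
    simp only [sub_zero] at this
    rw [← this]; ring
  have h2 : (fun z => L.derivWeierstrassPExcept 0 z) =O[𝓝[≠] (0 : ℂ)] fun z => z ^ (0 : ℤ) := by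
    simp only [zpow_zero]
    exact ((L.analyticAt_derivWeierstrassPExcept 0).continuousAt.isBigO_one ℂ).mono
      nhdsWithin_le_nhds
  have h3 := (h2.trans (Elim_zpow_mono (j := -3) (by norm_num))).sub
    ((isBigO_refl (fun z : ℂ => z ^ (-3 : ℤ)) (𝓝[≠] (0 : ℂ))).const_mul_left 2)
  refine (h3.const_mul_left (1 / 2)).congr' ?_ (EventuallyEq.refl _ _)
  filter_upwards with z
  rw [h1, zpow_neg]
  norm_cast
  ring

theorem Elim_eval_isBigO (L : PeriodPair) (U : MvPolynomial (Fin 3) ℂ) (d1 d2 : ℕ)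
    (h1 : U.degreeOf 1 ≤ d1) (h2 : U.degreeOf 2 ≤ d2) :
    (fun z => MvPolynomial.eval (v3 L z) U) =O[𝓝[≠] (0 : ℂ)]
      fun z => z ^ (-(2 * d1 + 3 * d2 : ℤ)) := by
  have hev : ∀ z, MvPolynomial.eval (v3 L z) U = ∑ m ∈ U.support, U.coeff m *
      (z ^ (m 0) * L.weierstrassP z ^ (m 1) * (L.derivWeierstrassP z / 2) ^ (m 2)) := by
    intro z
    rw [MvPolynomial.eval_eq']
    refine Finset.sum_congr rfl fun m _ => ?_
    rw [Fin.prod_univ_three]
    simp [v3]
  simp only [hev]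
  refine IsBigO.fun_sum (s := U.support) (A := fun m z => U.coeff m *
      (z ^ (m 0) * L.weierstrassP z ^ (m 1) * (L.derivWeierstrassP z / 2) ^ (m 2))) fun m hm => ?_
  have hz : (fun z : ℂ => z ^ (m 0)) =O[𝓝[≠] (0 : ℂ)] fun z => z ^ (0 : ℤ) := by
    have := Elim_zpow_mono (j := 0) (k := (m 0 : ℤ)) (by omega)
    simpa only [zpow_natCast] using this
  have hP := Elim_zpow_pow _ (Elim_P_isBigO L) (m 1)
  have hP' := Elim_zpow_pow _ (Elim_P'_isBigO L) (m 2)
  have h := Elim_zpow_mul _ _ (Elim_zpow_mul _ _ hz hP) hP'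
  have e1 := (MvPolynomial.monomial_le_degreeOf 1 hm).trans h1
  have e2 := (MvPolynomial.monomial_le_degreeOf 2 hm).trans h2
  zify at e1 e2
  exact (h.trans (Elim_zpow_mono (by linarith))).const_mul_left _



theorem Elim_infinite_P (L : PeriodPair) :
    (L.weierstrassP '' {z : ℂ | z ∉ L.lattice}).Infinite := by
  intro hfin
  obtain ⟨M, hM⟩ := hfin.isBounded.exists_norm_le
  have h0 : (0 : ℂ) ∈ L.lattice := zero_mem _
  have h1 : ∀ z, L.weierstrassP z = L.weierstrassPExcept 0 z + 1 / z ^ 2 := by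
    intro z
    have := L.weierstrassPExcept_def ⟨0, h0⟩ z
    simp only [sub_zero] at this
    rw [this]; simp
  have hlim : Tendsto (fun z => z ^ 2 * L.weierstrassP z) (𝓝[≠] (0 : ℂ)) (𝓝 1) := by
    have hc : ContinuousAt (fun z => z ^ 2 * L.weierstrassPExcept 0 z + 1) 0 := by
      have := (L.analyticAt_weierstrassPExcept 0).continuousAt
      fun_prop
    have h2 : Tendsto (fun z => z ^ 2 * L.weierstrassPExcept 0 z + 1) (𝓝[≠] (0 : ℂ)) (𝓝 1) := by
      have := hc.tendsto.mono_left (nhdsWithin_le_nhds (s := {0}ᶜ))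
      simpa using this
    refine h2.congr' ?_
    filter_upwards [self_mem_nhdsWithin] with z hz
    have hz' : z ≠ 0 := hz
    rw [h1]
    field_simp
  have hlim0 : Tendsto (fun z => z ^ 2 * L.weierstrassP z) (𝓝[≠] (0 : ℂ)) (𝓝 0) := by
    refine squeeze_zero_norm' (a := fun z => ‖z‖ ^ 2 * M) ?_ ?_
    · filter_upwards [eventually_notMem L] with z hz
      rw [norm_mul, norm_pow]
      exact mul_le_mul_of_nonneg_left (hM _ ⟨z, hz, rfl⟩) (by positivity)
    · have hc : ContinuousAt (fun z : ℂ => ‖z‖ ^ 2 * M) 0 := by fun_prop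
      have := hc.tendsto.mono_left (nhdsWithin_le_nhds (s := {0}ᶜ))
      simpa using this
  exact zero_ne_one (tendsto_nhds_unique hlim0 hlim)

theorem Elim_ne (L : PeriodPair) (l N : ℕ) (c : ℕ → ℕ → ℂ)
    (h : ∃ i < l, ∃ j < N, c i j ≠ 0) :
    ∃ z, z ∉ L.lattice ∧
      ∑ i ∈ Finset.range l, ∑ j ∈ Finset.range N, c i j * z ^ i * L.weierstrassP z ^ j ≠ 0 := by
  by_contra hcon
  push Not at hcon
  obtain ⟨i0, hi0, j0, hj0, hc⟩ := h
  have hω : L.ω₁ ≠ 0 := by
    intro h0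
    apply L.ω₁_div_two_notMem_lattice
    rw [h0]; simp
  have hA : ∀ z0 ∉ L.lattice, ∑ j ∈ Finset.range N, c i0 j * L.weierstrassP z0 ^ j = 0 := by
    intro z0 hz0
    set Q : Polynomial ℂ := ∑ i ∈ Finset.range l,
      Polynomial.C (∑ j ∈ Finset.range N, c i j * L.weierstrassP z0 ^ j) * Polynomial.X ^ i with hQ
    have hQ0 : Q = 0 := by
      refine Polynomial.eq_zero_of_infinite_isRoot Q ?_
      have hinj : Function.Injective (fun n : ℕ => z0 + n * L.ω₁) := by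
        intro m n hmn
        simp only [add_right_inj] at hmn
        exact_mod_cast mul_right_cancel₀ hω hmn
      refine (Set.infinite_range_of_injective hinj).mono ?_
      rintro _ ⟨n, rfl⟩
      have hl : (n : ℂ) * L.ω₁ ∈ L.lattice := by
        have := L.lattice.smul_mem (n : ℤ) L.ω₁_mem_lattice
        simpa using this
      have hP : L.weierstrassP (z0 + n * L.ω₁) = L.weierstrassP z0 :=
        L.weierstrassP_add_coe z0 ⟨_, hl⟩
      have hnot : z0 + n * L.ω₁ ∉ L.lattice := fun hmem => hz0 (by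
        have := L.lattice.sub_mem hmem hl
        simpa using this)
      have := hcon _ hnot
      simp only [Set.mem_ofPred_eq, Polynomial.IsRoot.def, hQ, Polynomial.eval_finsetSum,
        Polynomial.eval_mul, Polynomial.eval_C, Polynomial.eval_pow, Polynomial.eval_X]
      rw [← this]
      refine Finset.sum_congr rfl fun i _ => ?_
      rw [Finset.sum_mul]
      refine Finset.sum_congr rfl fun j _ => ?_
      rw [hP]; ring
    have := congrArg (fun P => Polynomial.coeff P i0) hQ0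
    simp only [hQ, Polynomial.finsetSum_coeff, Polynomial.coeff_C_mul_X_pow,
      Polynomial.coeff_zero] at this
    rw [Finset.sum_ite_eq] at this
    simpa [hi0] using this
  set P : Polynomial ℂ := ∑ j ∈ Finset.range N, Polynomial.C (c i0 j) * Polynomial.X ^ j with hP
  have hP0 : P = 0 := by
    refine Polynomial.eq_zero_of_infinite_isRoot P ((Elim_infinite_P L).mono ?_)
    rintro _ ⟨z0, hz0, rfl⟩
    simp only [Set.mem_ofPred_eq, Polynomial.IsRoot.def, hP, Polynomial.eval_finsetSum,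
        Polynomial.eval_mul, Polynomial.eval_C, Polynomial.eval_pow, Polynomial.eval_X]
    exact hA z0 hz0
  have := congrArg (fun P => Polynomial.coeff P j0) hP0
  simp only [hP, Polynomial.finsetSum_coeff, Polynomial.coeff_C_mul_X_pow,
      Polynomial.coeff_zero] at this
  rw [Finset.sum_ite_eq] at this
  exact hc (by simpa [hj0] using this)

/-! ## the elimination step -/

/-- one step of the elimination -/
noncomputable def ElimQ {R : Type*} [CommRing R] (a : R) (m : ℕ)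
    (q : ℕ → MvPolynomial (Fin 3) R) (k : ℕ) : MvPolynomial (Fin 3) R :=
  q (m + 1) * (D3 a (q k) - MvPolynomial.C ((k + 1 : ℕ) : R) * MvPolynomial.X 1 * q (k + 1))
    - D3 a (q (m + 1)) * q k

theorem Elim_map_Q {R S : Type*} [CommRing R] [CommRing S] (f : R →+* S) (a : R) (m : ℕ)
    (q : ℕ → MvPolynomial (Fin 3) R) (k : ℕ) :
    MvPolynomial.map f (ElimQ a m q k) = ElimQ (f a) m (fun i => MvPolynomial.map f (q i)) k := by
  simp only [ElimQ, map_sub, map_mul, map_D3, MvPolynomial.map_X, map_natCast]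

theorem Elim_algebra (m : ℕ) (A A' : ℕ → ℂ) (ζ x : ℂ) :
    ∑ k ∈ Finset.range (m + 1),
      (A (m + 1) * (A' k - ((k + 1 : ℕ) : ℂ) * x * A (k + 1)) - A' (m + 1) * A k) * ζ ^ k
    = A (m + 1) * ∑ k ∈ Finset.range (m + 2), (A' k * ζ ^ k + A k * ((k : ℂ) * ζ ^ (k - 1) * (-x)))
      - A' (m + 1) * ∑ k ∈ Finset.range (m + 2), A k * ζ ^ k := by
  have h1 : ∑ k ∈ Finset.range (m + 2), (A k * ((k : ℂ) * ζ ^ (k - 1) * (-x)))
      = ∑ k ∈ Finset.range (m + 1), A (k + 1) * (((k + 1 : ℕ) : ℂ) * ζ ^ k * (-x)) := by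
    rw [Finset.sum_range_succ']
    simp
  rw [Finset.sum_add_distrib, h1, Finset.sum_range_succ (fun k => A' k * ζ ^ k),
    Finset.sum_range_succ (fun k => A k * ζ ^ k)]
  have h2 : ∑ k ∈ Finset.range (m + 1),
      (A (m + 1) * (A' k - ((k + 1 : ℕ) : ℂ) * x * A (k + 1)) - A' (m + 1) * A k) * ζ ^ k
      = A (m + 1) * ∑ k ∈ Finset.range (m + 1), A' k * ζ ^ k
        + A (m + 1) * ∑ k ∈ Finset.range (m + 1), A (k + 1) * (((k + 1 : ℕ) : ℂ) * ζ ^ k * (-x))
        - A' (m + 1) * ∑ k ∈ Finset.range (m + 1), A k * ζ ^ k := by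
    rw [Finset.mul_sum, Finset.mul_sum, Finset.mul_sum, ← Finset.sum_add_distrib,
      ← Finset.sum_sub_distrib]
    refine Finset.sum_congr rfl fun k _ => ?_
    ring
  rw [h2]; ring

theorem Elim_totalDegree_le {R : Type*} [CommSemiring R] (p : MvPolynomial (Fin 3) R) :
    p.totalDegree ≤ p.degreeOf 0 + p.degreeOf 1 + p.degreeOf 2 := by
  rw [MvPolynomial.totalDegree]
  refine Finset.sup_le fun m hm => ?_
  rw [Finsupp.sum_fintype _ _ (fun _ => rfl), Fin.sum_univ_three]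
  have e0 := MvPolynomial.monomial_le_degreeOf 0 hm
  have e1 := MvPolynomial.monomial_le_degreeOf 1 hm
  have e2 := MvPolynomial.monomial_le_degreeOf 2 hm
  omega

theorem Elim_degreeOf_map_le {σ R S : Type*} [CommSemiring R] [CommSemiring S] (f : R →+* S)
    (p : MvPolynomial σ R) (i : σ) : (MvPolynomial.map f p).degreeOf i ≤ p.degreeOf i := by
  rw [MvPolynomial.degreeOf_le_iff]
  intro m hm
  exact MvPolynomial.monomial_le_degreeOf i (MvPolynomial.support_map_subset f p hm)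

section deg
variable {R : Type*} [CommRing R] (a : R) (m : ℕ) (q : ℕ → MvPolynomial (Fin 3) R)

theorem Elim_deg0 (e : ℕ) (h : ∀ k ≤ m + 1, (q k).degreeOf 0 ≤ e) (k : ℕ) (hk : k ≤ m) :
    (ElimQ a m q k).degreeOf 0 ≤ 2 * e := by
  have h1 := h (m + 1) le_rfl
  have h2 := h k (by omega)
  have h3 := h (k + 1) (by omega)
  have hD1 := (degreeOf_zero_D3_le a (q (m + 1))).trans h1
  have hD2 := (degreeOf_zero_D3_le a (q k)).trans h2
  have hX : (MvPolynomial.C ((k + 1 : ℕ) : R) * MvPolynomial.X 1 * q (k + 1)).degreeOf 0 ≤ e := by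
    rw [mul_assoc]
    refine (MvPolynomial.degreeOf_C_mul_le _ _ _).trans ?_
    rw [mul_comm, MvPolynomial.degreeOf_mul_X_of_ne _ (by decide)]
    exact h3
  refine (MvPolynomial.degreeOf_sub_le _ _ _).trans (max_le ?_ ?_)
  · refine (MvPolynomial.degreeOf_mul_le _ _ _).trans ?_
    have := (MvPolynomial.degreeOf_sub_le 0 (D3 a (q k))
      (MvPolynomial.C ((k + 1 : ℕ) : R) * MvPolynomial.X 1 * q (k + 1))).trans (max_le hD2 hX)
    omega
  · refine (MvPolynomial.degreeOf_mul_le _ _ _).trans ?_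
    omega

theorem Elim_deg1 (e : ℕ) (h : ∀ k ≤ m + 1, (q k).degreeOf 1 ≤ e) (k : ℕ) (hk : k ≤ m) :
    (ElimQ a m q k).degreeOf 1 ≤ 2 * e + 2 := by
  have h1 := h (m + 1) le_rfl
  have h2 := h k (by omega)
  have h3 := h (k + 1) (by omega)
  have hD1 := (degreeOf_one_D3_le a (q (m + 1))).trans (Nat.add_le_add_right h1 2)
  have hD2 := (degreeOf_one_D3_le a (q k)).trans (Nat.add_le_add_right h2 2)
  have hX : (MvPolynomial.C ((k + 1 : ℕ) : R) * MvPolynomial.X 1 * q (k + 1)).degreeOf 1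
      ≤ e + 2 := by
    rw [mul_assoc]
    refine (MvPolynomial.degreeOf_C_mul_le _ _ _).trans ?_
    rw [mul_comm]
    refine (MvPolynomial.degreeOf_mul_X_self _ _).trans ?_
    omega
  refine (MvPolynomial.degreeOf_sub_le _ _ _).trans (max_le ?_ ?_)
  · refine (MvPolynomial.degreeOf_mul_le _ _ _).trans ?_
    have := (MvPolynomial.degreeOf_sub_le 1 (D3 a (q k))
      (MvPolynomial.C ((k + 1 : ℕ) : R) * MvPolynomial.X 1 * q (k + 1))).trans (max_le hD2 hX)
    omega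
  · refine (MvPolynomial.degreeOf_mul_le _ _ _).trans ?_
    omega

theorem Elim_deg2 (e : ℕ) (h : ∀ k ≤ m + 1, (q k).degreeOf 2 ≤ e) (k : ℕ) (hk : k ≤ m) :
    (ElimQ a m q k).degreeOf 2 ≤ 2 * e + 1 := by
  have h1 := h (m + 1) le_rfl
  have h2 := h k (by omega)
  have h3 := h (k + 1) (by omega)
  have hD1 := (degreeOf_two_D3_le a (q (m + 1))).trans (Nat.add_le_add_right h1 1)
  have hD2 := (degreeOf_two_D3_le a (q k)).trans (Nat.add_le_add_right h2 1)
  have hX : (MvPolynomial.C ((k + 1 : ℕ) : R) * MvPolynomial.X 1 * q (k + 1)).degreeOf 2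
      ≤ e + 1 := by
    rw [mul_assoc]
    refine (MvPolynomial.degreeOf_C_mul_le _ _ _).trans ?_
    rw [mul_comm, MvPolynomial.degreeOf_mul_X_of_ne _ (by decide)]
    omega
  refine (MvPolynomial.degreeOf_sub_le _ _ _).trans (max_le ?_ ?_)
  · refine (MvPolynomial.degreeOf_mul_le _ _ _).trans ?_
    have := (MvPolynomial.degreeOf_sub_le 2 (D3 a (q k))
      (MvPolynomial.C ((k + 1 : ℕ) : R) * MvPolynomial.X 1 * q (k + 1))).trans (max_le hD2 hX)
    omega
  · refine (MvPolynomial.degreeOf_mul_le _ _ _).trans ?_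
    omega
end deg

/-- size of a step -/
theorem Elim_nm (a : ℂ) (m : ℕ) (q : ℕ → MvPolynomial (Fin 3) ℂ) (A : ℝ) (hA : ‖a‖ ≤ A)
    (B : ℝ) (hB : ∀ k ≤ m + 1, nm (q k) ≤ B) (T : ℝ)
    (hT : ∀ k ≤ m + 1, ((q k).totalDegree : ℝ) ≤ T) (k : ℕ) (hk : k ≤ m) :
    nm (ElimQ a m q k) ≤ B ^ 2 * (2 * (3 + A) * T + (m + 2)) := by
  have hB0 : 0 ≤ B := (nm_nonneg _).trans (hB 0 (by omega))
  have hT0 : 0 ≤ T := (Nat.cast_nonneg _).trans (hT 0 (by omega))
  have hA0 : 0 ≤ A := (norm_nonneg _).trans hA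
  have h1 := hB (m + 1) le_rfl
  have h2 := hB k (by omega)
  have h3 := hB (k + 1) (by omega)
  have hD : ∀ j ≤ m + 1, nm (D3 a (q j)) ≤ (3 + A) * T * B := by
    intro j hj
    refine (nm_D3_le a (q j)).trans ?_
    have := hT j hj
    have hb := hB j hj
    have := nm_nonneg (q j)
    gcongr
  have hX : nm (MvPolynomial.C (((k + 1 : ℕ) : ℂ)) * MvPolynomial.X 1 * q (k + 1))
      ≤ (m + 2) * B := by
    refine (nm_mul_le _ _).trans ?_
    have hc : nm (MvPolynomial.C (((k + 1 : ℕ) : ℂ)) * MvPolynomial.X 1 : MvPolynomial (Fin 3) ℂ)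
        ≤ m + 2 := by
      refine (nm_mul_le _ _).trans ?_
      rw [nm_C, nm_X, mul_one, Complex.norm_natCast]
      push_cast
      have : (k : ℝ) ≤ m := by exact_mod_cast hk
      linarith
    exact mul_le_mul hc h3 (nm_nonneg _) (by positivity)
  have hS : nm (D3 a (q k) - MvPolynomial.C (((k + 1 : ℕ) : ℂ)) * MvPolynomial.X 1 * q (k + 1))
      ≤ (3 + A) * T * B + (m + 2) * B :=
    (nm_sub_le _ _).trans (add_le_add (hD k (by omega)) hX)
  refine (nm_sub_le _ _).trans ?_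
  have h4 : nm (q (m + 1) * (D3 a (q k)
      - MvPolynomial.C (((k + 1 : ℕ) : ℂ)) * MvPolynomial.X 1 * q (k + 1)))
      ≤ B * ((3 + A) * T * B + (m + 2) * B) :=
    (nm_mul_le _ _).trans (mul_le_mul h1 hS (nm_nonneg _) hB0)
  have h5 : nm (D3 a (q (m + 1)) * q k) ≤ ((3 + A) * T * B) * B :=
    (nm_mul_le _ _).trans (mul_le_mul (hD _ le_rfl) h2 (nm_nonneg _) (by positivity))
  calc _ ≤ B * ((3 + A) * T * B + (m + 2) * B) + ((3 + A) * T * B) * B := add_le_add h4 h5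
    _ = B ^ 2 * (2 * (3 + A) * T + (m + 2)) := by ring

theorem Elim_pow_mono {c c' : ℕ} (h : c ≤ c') (h1 : 1 ≤ c') (l : ℕ) (H : ℝ) (hH : 1 ≤ H) :
    ((c : ℝ) * (l + 1) * H) ^ c ≤ ((c' : ℝ) * (l + 1) * H) ^ c' := by
  have h2 : (c : ℝ) ≤ c' := by exact_mod_cast h
  have h3 : (1 : ℝ) ≤ c' := by exact_mod_cast h1
  have h4 : (1 : ℝ) ≤ l + 1 := by
    have : (0 : ℝ) ≤ l := Nat.cast_nonneg l
    linarith
  have h5 : (1 : ℝ) ≤ (c' : ℝ) * (l + 1) * H := by
    have := one_le_mul_of_one_le_of_one_le (one_le_mul_of_one_le_of_one_le h3 h4) hH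
    exact this
  calc ((c : ℝ) * (l + 1) * H) ^ c ≤ ((c' : ℝ) * (l + 1) * H) ^ c := by gcongr
    _ ≤ ((c' : ℝ) * (l + 1) * H) ^ c' := pow_le_pow_right₀ h5 h


/-- the induction: elimination of `ζ` from a polynomial of degree `m` in `ζ` -/
theorem Elim_ind (L : PeriodPair) {K : Type*} [Field K] [NumberField K] (ι : K →+* ℂ) (a b : 𝓞 K)
    (h2 : L.g₂ = -4 * oc ι a) (h3 : L.g₃ = -4 * oc ι b) (m : ℕ) :
    ∀ d : ℕ, ∃ C : ℕ, ∀ (l : ℕ) (H : ℝ), 1 ≤ H → ∀ q : ℕ → MvPolynomial (Fin 3) (𝓞 K),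
    (∀ k ≤ m, (q k).degreeOf 0 ≤ d * (l + 1) ∧ (q k).degreeOf 1 ≤ d ∧ (q k).degreeOf 2 ≤ d ∧
      ∀ σ : K →+* ℂ, nm (MvPolynomial.map (oc σ) (q k)) ≤ ((d : ℝ) * (l + 1) * H) ^ d) →
    (∃ z, z ∉ L.lattice ∧ MvPolynomial.eval (v3 L z) (MvPolynomial.map (oc ι) (q m)) ≠ 0) →
    ∃ Rp : MvPolynomial (Fin 3) (𝓞 K),
      Rp.degreeOf 0 ≤ C * (l + 1) ∧ Rp.degreeOf 1 ≤ C ∧ Rp.degreeOf 2 ≤ C ∧
      (∀ σ : K →+* ℂ, nm (MvPolynomial.map (oc σ) Rp) ≤ ((C : ℝ) * (l + 1) * H) ^ C) ∧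
      (∃ z, z ∉ L.lattice ∧ MvPolynomial.eval (v3 L z) (MvPolynomial.map (oc ι) Rp) ≠ 0) ∧
      ∀ e : ℤ, ((fun z => ∑ k ∈ Finset.range (m + 1),
          MvPolynomial.eval (v3 L z) (MvPolynomial.map (oc ι) (q k)) * zetaL L z ^ k)
            =O[𝓝[≠] (0 : ℂ)] fun z => z ^ e) →
        (fun z => MvPolynomial.eval (v3 L z) (MvPolynomial.map (oc ι) Rp))
          =O[𝓝[≠] (0 : ℂ)] fun z => z ^ (e - C) := by
  induction m with
  | zero =>
    intro d
    refine ⟨d, fun l H hH q hq hne => ⟨q 0, (hq 0 le_rfl).1, (hq 0 le_rfl).2.1,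
      (hq 0 le_rfl).2.2.1, (hq 0 le_rfl).2.2.2, hne, fun e he => ?_⟩⟩
    have h : (fun z => MvPolynomial.eval (v3 L z) (MvPolynomial.map (oc ι) (q 0)))
        =O[𝓝[≠] (0 : ℂ)] fun z => z ^ e := by
      simpa using he
    exact h.trans (Elim_zpow_mono (by omega))
  | succ m ih =>
    intro d
    set A : ℝ := ∑ σ : K →+* ℂ, ‖oc σ a‖ with hA
    have hAσ : ∀ σ : K →+* ℂ, ‖oc σ a‖ ≤ A := fun σ =>
      Finset.single_le_sum (f := fun σ : K →+* ℂ => ‖oc σ a‖) (fun _ _ => norm_nonneg _)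
        (Finset.mem_univ σ)
    obtain ⟨A', hA'⟩ := exists_nat_ge A
    have hA0 : 0 ≤ A := Finset.sum_nonneg fun _ _ => norm_nonneg _
    set d' : ℕ := 6 * d * (3 + A') + 2 * d + m + 4 with hd'
    obtain ⟨C', hC'⟩ := ih d'
    refine ⟨C' + 5 * d + 7, fun l H hH q hq hne => ?_⟩
    have hl1 : (1 : ℝ) ≤ (l : ℝ) + 1 := by
      have : (0 : ℝ) ≤ l := Nat.cast_nonneg l
      linarith
    -- the new sequence
    have hq' : ∀ k ≤ m, (ElimQ a m q k).degreeOf 0 ≤ d' * (l + 1) ∧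
        (ElimQ a m q k).degreeOf 1 ≤ d' ∧ (ElimQ a m q k).degreeOf 2 ≤ d' ∧
        ∀ σ : K →+* ℂ, nm (MvPolynomial.map (oc σ) (ElimQ a m q k))
          ≤ ((d' : ℝ) * (l + 1) * H) ^ d' := by
      intro k hk
      refine ⟨?_, ?_, ?_, fun σ => ?_⟩
      · refine (Elim_deg0 a m q _ (fun k hk => (hq k hk).1) k hk).trans ?_
        have : 2 * d ≤ d' := by rw [hd']; omega
        calc 2 * (d * (l + 1)) = (2 * d) * (l + 1) := by ring
          _ ≤ d' * (l + 1) := Nat.mul_le_mul_right _ this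
      · refine (Elim_deg1 a m q _ (fun k hk => (hq k hk).2.1) k hk).trans ?_
        rw [hd']; omega
      · refine (Elim_deg2 a m q _ (fun k hk => (hq k hk).2.2.1) k hk).trans ?_
        rw [hd']; omega
      · rw [Elim_map_Q]
        set B : ℝ := ((d : ℝ) * (l + 1) * H) ^ d with hB
        have hT : ∀ k ≤ m + 1, ((MvPolynomial.map (oc σ) (q k)).totalDegree : ℝ)
            ≤ 3 * d * (l + 1) := by
          intro k hk
          have h2 := Elim_totalDegree_le (MvPolynomial.map (oc σ) (q k))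
          have m0 := Elim_degreeOf_map_le (oc σ) (q k) 0
          have m1 := Elim_degreeOf_map_le (oc σ) (q k) 1
          have m2 := Elim_degreeOf_map_le (oc σ) (q k) 2
          obtain ⟨e0, e1, e2, -⟩ := hq k hk
          have h3 : d ≤ d * (l + 1) := Nat.le_mul_of_pos_right _ (by omega)
          have h4 : (MvPolynomial.map (oc σ) (q k)).totalDegree ≤ 3 * (d * (l + 1)) := by omega
          calc ((MvPolynomial.map (oc σ) (q k)).totalDegree : ℝ)
              ≤ ((3 * (d * (l + 1)) : ℕ) : ℝ) := by exact_mod_cast h4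
            _ = 3 * d * (l + 1) := by push_cast; ring
        have h1 := Elim_nm (oc σ a) m (fun i => MvPolynomial.map (oc σ) (q i)) A (hAσ σ) B
          (fun k hk => (hq k hk).2.2.2 σ) (3 * d * (l + 1)) hT k hk
        refine h1.trans ?_
        have hd'1 : (1 : ℝ) ≤ (d' : ℝ) := by
          have : 1 ≤ d' := by rw [hd']; omega
          exact_mod_cast this
        have hdd' : (d : ℝ) ≤ d' := by
          have : d ≤ d' := by rw [hd']; omega
          exact_mod_cast this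
        have hbase : (1 : ℝ) ≤ (d' : ℝ) * (l + 1) * H :=
          one_le_mul_of_one_le_of_one_le (one_le_mul_of_one_le_of_one_le hd'1 hl1) hH
        have h2 : B ^ 2 ≤ ((d' : ℝ) * (l + 1) * H) ^ (2 * d) := by
          rw [hB, ← pow_mul, mul_comm d 2]
          gcongr
        have h3 : 2 * (3 + A) * (3 * d * (l + 1)) + (m + 2) ≤ (d' : ℝ) * (l + 1) * H := by
          have e1 : 2 * (3 + A) * (3 * d * (l + 1)) + ((m : ℝ) + 2)
              ≤ (6 * d * (3 + A') + 2 * d + m + 4) * (l + 1) := by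
            have e2 : 2 * (3 + A) * (3 * d * (l + 1)) ≤ 2 * (3 + A') * (3 * d * ((l : ℝ) + 1)) := by
              gcongr
            have e3 : (m : ℝ) + 2 ≤ (m + 2) * (l + 1) := by
              have : (0 : ℝ) ≤ (m : ℝ) + 2 := by positivity
              nlinarith
            have e4 : 0 ≤ (2 * (d : ℝ) + 2) * (l + 1) := by positivity
            nlinarith
          calc _ ≤ (6 * d * (3 + A') + 2 * d + m + 4) * ((l : ℝ) + 1) := e1
            _ = (d' : ℝ) * (l + 1) := by rw [hd']; push_cast; ring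
            _ ≤ (d' : ℝ) * (l + 1) * H := le_mul_of_one_le_right (by positivity) hH
        calc B ^ 2 * (2 * (3 + A) * (3 * d * (l + 1)) + (m + 2))
            ≤ ((d' : ℝ) * (l + 1) * H) ^ (2 * d) * ((d' : ℝ) * (l + 1) * H) := by gcongr
          _ = ((d' : ℝ) * (l + 1) * H) ^ (2 * d + 1) := by rw [pow_succ]
          _ ≤ ((d' : ℝ) * (l + 1) * H) ^ d' := pow_le_pow_right₀ hbase (by rw [hd']; omega)
    -- the top coefficient does not vanish identically
    have hne' : ∃ z, z ∉ L.lattice ∧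
        MvPolynomial.eval (v3 L z) (MvPolynomial.map (oc ι) (ElimQ a m q m)) ≠ 0 := by
      by_contra hcon
      push Not at hcon
      refine claim2 L (oc ι a) (oc ι b) h2 h3 (MvPolynomial.map (oc ι) (q m))
        (MvPolynomial.map (oc ι) (q (m + 1))) (((m + 1 : ℕ) : ℂ)) (by
          exact_mod_cast Nat.succ_ne_zero m) hne fun z hz => ?_
      have := hcon z hz
      rw [Elim_map_Q] at this
      rw [← this]
      congr 1
      simp only [ElimQ]
      ring
    obtain ⟨Rp, r0, r1, r2, rn, rne, rO⟩ := hC' l H hH (ElimQ a m q) hq' hne'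
    refine ⟨Rp, r0.trans ?_, r1.trans (by omega), r2.trans (by omega), fun σ => ?_, rne,
      fun e he => ?_⟩
    · exact Nat.mul_le_mul_right _ (by omega)
    · exact (rn σ).trans (Elim_pow_mono (by omega) (by omega) l H hH)
    -- the big-O
    set f : ℂ → ℂ := fun z => ∑ k ∈ Finset.range (m + 2),
      MvPolynomial.eval (v3 L z) (MvPolynomial.map (oc ι) (q k)) * zetaL L z ^ k with hf
    have hderiv : ∀ z ∉ L.lattice, HasDerivAt f (∑ k ∈ Finset.range (m + 2),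
        (MvPolynomial.eval (v3 L z) (D3 (oc ι a) (MvPolynomial.map (oc ι) (q k))) * zetaL L z ^ k
          + MvPolynomial.eval (v3 L z) (MvPolynomial.map (oc ι) (q k)) *
            ((k : ℂ) * zetaL L z ^ (k - 1) * (-L.weierstrassP z)))) z := by
      intro z hz
      have h1 : ∀ k ∈ Finset.range (m + 2), HasDerivAt
          (fun z => MvPolynomial.eval (v3 L z) (MvPolynomial.map (oc ι) (q k)) * zetaL L z ^ k)
          (MvPolynomial.eval (v3 L z) (D3 (oc ι a) (MvPolynomial.map (oc ι) (q k))) * zetaL L z ^ k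
          + MvPolynomial.eval (v3 L z) (MvPolynomial.map (oc ι) (q k)) *
            ((k : ℂ) * zetaL L z ^ (k - 1) * (-L.weierstrassP z))) z := fun k _ =>
        (hasDerivAt_v3 L (oc ι a) (oc ι b) h2 h3 _ hz).mul ((hasDerivAt_zetaL L hz).pow k)
      have := HasDerivAt.fun_sum h1
      exact this
    have hdf : ∀ᶠ z in 𝓝[≠] (0 : ℂ), DifferentiableAt ℂ f z := by
      filter_upwards [eventually_notMem L] with z hz
      exact (hderiv z hz).differentiableAt
    have hO1 := Elim_deriv_isBigO he hdf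
    obtain ⟨-, e1, e2, -⟩ := hq (m + 1) le_rfl
    have hV := Elim_eval_isBigO L (MvPolynomial.map (oc ι) (q (m + 1))) d d
      ((Elim_degreeOf_map_le _ _ _).trans e1) ((Elim_degreeOf_map_le _ _ _).trans e2)
    have hV' := Elim_eval_isBigO L (D3 (oc ι a) (MvPolynomial.map (oc ι) (q (m + 1))))
      (d + 2) (d + 1)
      ((degreeOf_one_D3_le _ _).trans
        (Nat.add_le_add_right ((Elim_degreeOf_map_le _ _ _).trans e1) 2))
      ((degreeOf_two_D3_le _ _).trans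
        (Nat.add_le_add_right ((Elim_degreeOf_map_le _ _ _).trans e2) 1))
    have hg1 := (Elim_zpow_mul _ _ hV hO1).trans
      (Elim_zpow_mono (j := e - (5 * d + 7 : ℕ)) (by push_cast; linarith))
    have hg2 := (Elim_zpow_mul _ _ hV' he).trans
      (Elim_zpow_mono (j := e - (5 * d + 7 : ℕ)) (by push_cast; linarith))
    have hg := hg1.sub hg2
    have hfin := rO (e - (5 * d + 7 : ℕ)) (hg.congr' ?_ (EventuallyEq.refl _ _))
    · refine hfin.trans (Elim_zpow_mono ?_)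
      push_cast
      linarith
    · filter_upwards [eventually_notMem L] with z hz
      rw [(hderiv z hz).deriv]
      rw [← Elim_algebra m (fun k => MvPolynomial.eval (v3 L z) (MvPolynomial.map (oc ι) (q k)))
        (fun k => MvPolynomial.eval (v3 L z) (D3 (oc ι a) (MvPolynomial.map (oc ι) (q k))))
        (zetaL L z) (L.weierstrassP z)]
      refine Finset.sum_congr rfl fun k _ => ?_
      rw [Elim_map_Q]
      simp [ElimQ, v3]

/-- the coefficients of `P` as a polynomial in `Y` -/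
noncomputable def ElimP (R : Type*) [CommRing R] (l N : ℕ) (p : ℕ → ℕ → ℕ → ℤ) (k : ℕ) :
    MvPolynomial (Fin 3) R :=
  ∑ i ∈ Finset.range l, ∑ j ∈ Finset.range N,
    MvPolynomial.C ((p i j k : ℤ) : R) * MvPolynomial.X 0 ^ i * MvPolynomial.X 1 ^ j

theorem Elim_map_P {R S : Type*} [CommRing R] [CommRing S] (f : R →+* S) (l N : ℕ)
    (p : ℕ → ℕ → ℕ → ℤ) (k : ℕ) : MvPolynomial.map f (ElimP R l N p k) = ElimP S l N p k := by
  simp [ElimP]

theorem Elim_eval_P (L : PeriodPair) (l N : ℕ) (p : ℕ → ℕ → ℕ → ℤ) (k : ℕ) (z : ℂ) :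
    MvPolynomial.eval (v3 L z) (ElimP ℂ l N p k)
      = ∑ i ∈ Finset.range l, ∑ j ∈ Finset.range N,
          ((p i j k : ℤ) : ℂ) * z ^ i * L.weierstrassP z ^ j := by
  simp [ElimP, v3]

theorem Elim_deg_P (R : Type*) [CommRing R] (l N : ℕ) (p : ℕ → ℕ → ℕ → ℤ) (k : ℕ) :
    (ElimP R l N p k).degreeOf 0 ≤ l ∧ (ElimP R l N p k).degreeOf 1 ≤ N ∧
      (ElimP R l N p k).degreeOf 2 ≤ 0 := by
  classical
  rcases subsingleton_or_nontrivial R with hR | hR
  · have : ElimP R l N p k = 0 := Subsingleton.elim _ _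
    simp [this]
  have key : ∀ (c : Fin 3) (t : ℕ), (∀ i < l, ∀ j < N,
      (MvPolynomial.C ((p i j k : ℤ) : R) * MvPolynomial.X 0 ^ i
        * MvPolynomial.X 1 ^ j : MvPolynomial (Fin 3) R).degreeOf c ≤ t) →
      (ElimP R l N p k).degreeOf c ≤ t := by
    intro c t h
    refine (MvPolynomial.degreeOf_sum_le _ _ _).trans (Finset.sup_le fun i hi => ?_)
    refine (MvPolynomial.degreeOf_sum_le _ _ _).trans (Finset.sup_le fun j hj => ?_)
    exact h i (Finset.mem_range.1 hi) j (Finset.mem_range.1 hj)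
  have hterm : ∀ (c : Fin 3) (i j : ℕ) (x : R), (MvPolynomial.C x * MvPolynomial.X 0 ^ i
        * MvPolynomial.X 1 ^ j : MvPolynomial (Fin 3) R).degreeOf c
        ≤ (if c = 0 then i else 0) + (if c = 1 then j else 0) := by
    intro c i j x
    refine (MvPolynomial.degreeOf_mul_le _ _ _).trans (Nat.add_le_add ?_ ?_)
    · refine (MvPolynomial.degreeOf_C_mul_le _ _ _).trans ?_
      refine (MvPolynomial.degreeOf_pow_le _ _ _).trans ?_
      rw [MvPolynomial.degreeOf_X]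
      split_ifs <;> simp
    · refine (MvPolynomial.degreeOf_pow_le _ _ _).trans ?_
      rw [MvPolynomial.degreeOf_X]
      split_ifs <;> simp
  refine ⟨key 0 l fun i hi j hj => (hterm 0 i j _).trans ?_,
    key 1 N fun i hi j hj => (hterm 1 i j _).trans ?_,
    key 2 0 fun i hi j hj => (hterm 2 i j _).trans ?_⟩
  · simp; omega
  · simp; omega
  · simp

theorem Elim_nm_P (l N : ℕ) (p : ℕ → ℕ → ℕ → ℤ) (k : ℕ) (H : ℝ)
    (hp : ∀ i j k, |(p i j k : ℝ)| ≤ H) : nm (ElimP ℂ l N p k) ≤ l * N * H := by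
  have h1 : ∀ i j : ℕ, nm (MvPolynomial.C ((p i j k : ℤ) : ℂ) * MvPolynomial.X 0 ^ i
        * MvPolynomial.X 1 ^ j : MvPolynomial (Fin 3) ℂ) ≤ H := by
    intro i j
    have hX : ∀ (c : Fin 3) (n : ℕ), nm (MvPolynomial.X c ^ n : MvPolynomial (Fin 3) ℂ) ≤ 1 := by
      intro c n
      refine (nm_pow_le _ _).trans ?_
      rw [nm_X, one_pow]
    have hC : nm (MvPolynomial.C ((p i j k : ℤ) : ℂ) : MvPolynomial (Fin 3) ℂ) ≤ H := by
      rw [nm_C]
      have := hp i j k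
      simpa using this
    have hH0 : 0 ≤ H := (abs_nonneg _).trans (hp 0 0 0)
    have h2 : nm (MvPolynomial.C ((p i j k : ℤ) : ℂ) * MvPolynomial.X 0 ^ i
        : MvPolynomial (Fin 3) ℂ) ≤ H * 1 :=
      (nm_mul_le _ _).trans (mul_le_mul hC (hX 0 i) (nm_nonneg _) hH0)
    have h3 := (nm_mul_le (MvPolynomial.C ((p i j k : ℤ) : ℂ) * MvPolynomial.X 0 ^ i)
      (MvPolynomial.X 1 ^ j : MvPolynomial (Fin 3) ℂ)).trans
      (mul_le_mul h2 (hX 1 j) (nm_nonneg _) (by linarith))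
    linarith
  refine (nm_sum_le _ _).trans ?_
  calc ∑ i ∈ Finset.range l, nm (∑ j ∈ Finset.range N, _)
      ≤ ∑ i ∈ Finset.range l, ∑ j ∈ Finset.range N, H :=
        Finset.sum_le_sum fun i _ => (nm_sum_le _ _).trans (Finset.sum_le_sum fun j _ => h1 i j)
    _ = l * N * H := by simp; ring

theorem elim (L : PeriodPair) {K : Type*} [Field K] [NumberField K] (ι : K →+* ℂ) (a b : 𝓞 K)
    (h2 : L.g₂ = -4 * oc ι a) (h3 : L.g₃ = -4 * oc ι b) (N0 : ℕ) :
    ∃ C : ℕ, ∀ (Lz : ℕ) (p : ℕ → ℕ → ℕ → ℤ) (H : ℝ), 1 ≤ H → (∀ i j k, |(p i j k : ℝ)| ≤ H) →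
    (∃ i < Lz, ∃ j < N0, ∃ k < N0, p i j k ≠ 0) →
    ∃ Rp : MvPolynomial (Fin 3) (𝓞 K),
      Rp.degreeOf 0 ≤ C * (Lz + 1) ∧ Rp.degreeOf 1 ≤ C ∧ Rp.degreeOf 2 ≤ C ∧
      (∀ σ : K →+* ℂ, nm (MvPolynomial.map (oc σ) Rp) ≤ ((C : ℝ) * (Lz + 1) * H) ^ C) ∧
      (∃ z, z ∉ L.lattice ∧ MvPolynomial.eval (v3 L z) (MvPolynomial.map (oc ι) Rp) ≠ 0) ∧
      ∀ n : ℕ, (∀ k < n, coeff k (GS (oc ι a) (oc ι b) Lz N0 p) = 0) →
        (fun z => MvPolynomial.eval (v3 L z) (MvPolynomial.map (oc ι) Rp))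
          =O[𝓝[≠] (0 : ℂ)] fun z => z ^ ((n : ℤ) - C) := by
  classical
  set d : ℕ := N0 + 1 with hd
  choose Cf hCf using fun m => Elim_ind L ι a b h2 h3 m d
  refine ⟨∑ m ∈ Finset.range N0, Cf m + 3 * N0 + 1, fun Lz p H hH hp hex => ?_⟩
  -- the largest exponent of `ζ`
  set S : Finset ℕ := (Finset.range N0).filter (fun k => ∃ i < Lz, ∃ j < N0, p i j k ≠ 0) with hS
  have hSne : S.Nonempty := by
    obtain ⟨i, hi, j, hj, k, hk, h⟩ := hex
    exact ⟨k, by simp only [hS, Finset.mem_filter, Finset.mem_range]; exact ⟨hk, i, hi, j, hj, h⟩⟩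
  set m := S.max' hSne with hm
  have hmS : m ∈ S := S.max'_mem hSne
  have hmS' := hmS
  simp only [hS, Finset.mem_filter, Finset.mem_range] at hmS'
  obtain ⟨hmN, i0, hi0, j0, hj0, hpne⟩ := hmS'
  have hzero : ∀ k, m < k → k < N0 → ∀ i < Lz, ∀ j < N0, p i j k = 0 := by
    intro k hk hkN i hi j hj
    by_contra hne
    have hkS : k ∈ S := by
      simp only [hS, Finset.mem_filter, Finset.mem_range]
      exact ⟨hkN, i, hi, j, hj, hne⟩
    exact absurd (S.le_max' k hkS) (by rw [← hm]; omega)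
  have hCm : Cf m ≤ ∑ m ∈ Finset.range N0, Cf m :=
    Finset.single_le_sum (f := Cf) (fun _ _ => Nat.zero_le _) (Finset.mem_range.2 hmN)
  have hbound : ∀ k ≤ m, (ElimP (𝓞 K) Lz N0 p k).degreeOf 0 ≤ d * (Lz + 1) ∧
      (ElimP (𝓞 K) Lz N0 p k).degreeOf 1 ≤ d ∧ (ElimP (𝓞 K) Lz N0 p k).degreeOf 2 ≤ d ∧
      ∀ σ : K →+* ℂ, nm (MvPolynomial.map (oc σ) (ElimP (𝓞 K) Lz N0 p k))
        ≤ ((d : ℝ) * (Lz + 1) * H) ^ d := by
    intro k _
    obtain ⟨g0, g1, g2⟩ := Elim_deg_P (𝓞 K) Lz N0 p k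
    refine ⟨g0.trans ?_, g1.trans (by omega), g2.trans (Nat.zero_le _), fun σ => ?_⟩
    · calc Lz ≤ 1 * (Lz + 1) := by omega
        _ ≤ d * (Lz + 1) := Nat.mul_le_mul_right _ (by omega)
    · rw [Elim_map_P]
      refine (Elim_nm_P Lz N0 p k H hp).trans ?_
      have hd1 : (1 : ℝ) ≤ (d : ℝ) := by
        have : 1 ≤ d := by omega
        exact_mod_cast this
      have hl1 : (1 : ℝ) ≤ (Lz : ℝ) + 1 := by
        have : (0 : ℝ) ≤ Lz := Nat.cast_nonneg Lz
        linarith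
      have hbase : (1 : ℝ) ≤ (d : ℝ) * (Lz + 1) * H :=
        one_le_mul_of_one_le_of_one_le (one_le_mul_of_one_le_of_one_le hd1 hl1) hH
      calc (Lz : ℝ) * N0 * H ≤ (Lz + 1) * d * H := by
            have : (N0 : ℝ) ≤ d := by rw [hd]; push_cast; linarith
            gcongr
            linarith
        _ = ((d : ℝ) * (Lz + 1) * H) ^ 1 := by ring
        _ ≤ ((d : ℝ) * (Lz + 1) * H) ^ d := pow_le_pow_right₀ hbase (by omega)
  have hne : ∃ z, z ∉ L.lattice ∧
      MvPolynomial.eval (v3 L z) (MvPolynomial.map (oc ι) (ElimP (𝓞 K) Lz N0 p m)) ≠ 0 := by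
    obtain ⟨z, hz, h⟩ := Elim_ne L Lz N0 (fun i j => ((p i j m : ℤ) : ℂ))
      ⟨i0, hi0, j0, hj0, by exact_mod_cast hpne⟩
    refine ⟨z, hz, ?_⟩
    rw [Elim_map_P, Elim_eval_P]
    exact h
  obtain ⟨Rp, r0, r1, r2, rn, rne, rO⟩ := hCf m Lz H hH (ElimP (𝓞 K) Lz N0 p) hbound hne
  refine ⟨Rp, r0.trans ?_, r1.trans (by omega), r2.trans (by omega), fun σ => ?_, rne,
    fun n hn => ?_⟩
  · exact Nat.mul_le_mul_right _ (by omega)
  · exact (rn σ).trans (Elim_pow_mono (by omega) (by omega) Lz H hH)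
  have hF := isBigO_F L (oc ι a) (oc ι b) h2 h3 Lz N0 p n hn
  have hFeq : (fun z => MvPolynomial.eval (v4 L z) (PP ℂ Lz N0 p))
      = fun z => ∑ k ∈ Finset.range (m + 1),
        MvPolynomial.eval (v3 L z) (MvPolynomial.map (oc ι) (ElimP (𝓞 K) Lz N0 p k))
          * zetaL L z ^ k := by
    funext z
    have h1 : MvPolynomial.eval (v4 L z) (PP ℂ Lz N0 p) = ∑ k ∈ Finset.range N0,
        MvPolynomial.eval (v3 L z) (MvPolynomial.map (oc ι) (ElimP (𝓞 K) Lz N0 p k))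
          * zetaL L z ^ k := by
      simp only [Elim_map_P, Elim_eval_P, PP, map_sum, map_mul, map_pow, MvPolynomial.eval_C,
        MvPolynomial.eval_X, Finset.sum_mul]
      conv_rhs => rw [Finset.sum_comm]
      refine Finset.sum_congr rfl fun i _ => ?_
      conv_rhs => rw [Finset.sum_comm]
      refine Finset.sum_congr rfl fun j _ => ?_
      refine Finset.sum_congr rfl fun k _ => ?_
      simp [v4]
    rw [h1]
    symm
    refine Finset.sum_subset (Finset.range_mono (by omega)) fun k hk hk' => ?_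
    simp only [Finset.mem_range] at hk hk'
    rw [Elim_map_P, Elim_eval_P]
    rw [Finset.sum_eq_zero, zero_mul]
    intro i hi
    refine Finset.sum_eq_zero fun j hj => ?_
    rw [hzero k (by omega) hk i (Finset.mem_range.1 hi) j (Finset.mem_range.1 hj)]
    simp
  rw [hFeq] at hF
  refine (rO _ hF).trans (Elim_zpow_mono ?_)
  have : (Cf m : ℤ) ≤ ((∑ m ∈ Finset.range N0, Cf m : ℕ) : ℤ) := by exact_mod_cast hCm
  push_cast at this ⊢
  linarith

end Pool.Agent.ZCM
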