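import Pool.Agent.ZCM.LatEval
import Pool.Agent.ZCM.Elim

/-! # W4: the weak zero estimate -/

namespace Pool.Agent.ZCM
open Filter Topology PowerSeries NumberField
open scoped NNReal ENNReal

/-- the elementary estimate behind the weak zero estimate -/
theorem WZE_analytic (C1 : ℕ) (D : ℝ) (hD : 1 ≤ D) :
    ∃ (A : ℝ) (T0 : ℕ), 0 ≤ A ∧ ∀ T : ℕ, T0 ≤ T →
      (1 ≤ Real.log (Real.log T) ∧ Real.log (Real.log T) ≤ Real.log T ∧ (1 : ℝ) ≤ T) ∧
      ∀ Lz : ℕ, Lz ≤ T → ∀ (m : ℕ) (x : ℝ), 0 ≤ x →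
      x ≤ D * Real.sqrt (((C1 * (Lz + 1) : ℕ) : ℝ) + 1) →
      0 < Real.sqrt (T * Real.sqrt (Real.log T)) ∧
      x ≤ Real.sqrt (T * Real.sqrt (Real.log T)) ∧
      (Real.exp (-D * (Real.log ((((C1 : ℝ) + 1) * (Lz + 1) * Real.exp (T * Real.log T)) ^ C1) +
          ((C1 * (Lz + 1) : ℕ) : ℝ) + 1)) ≤
        (x / Real.sqrt (T * Real.sqrt (Real.log T))) ^ m *
          (D * (((C1 : ℝ) + 1) * (Lz + 1) * Real.exp (T * Real.log T)) ^ C1 *
            max 1 (Real.sqrt (T * Real.sqrt (Real.log T))) ^ (C1 * (Lz + 1)) *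
            Real.exp (D * (1 + Real.sqrt (T * Real.sqrt (Real.log T)) ^ 2))) →
        (m : ℝ) ≤ A * (T * Real.log T / Real.log (Real.log T))) := by
  set c : ℝ := (C1 : ℝ) with hc
  have hc0 : 0 ≤ c := Nat.cast_nonneg _
  set B : ℝ := D ^ 2 * (2 * c + 1) with hB
  have hB1 : 1 ≤ B := by
    have : 1 ≤ D ^ 2 := by nlinarith
    rw [hB]; nlinarith
  have hlim : Tendsto (fun T : ℕ => Real.log (Real.log T)) atTop atTop :=
    Real.tendsto_log_atTop.comp (Real.tendsto_log_atTop.comp tendsto_natCast_atTop_atTop)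
  obtain ⟨T0, hT0⟩ := (hlim.eventually_ge_atTop (max 1 (4 * Real.log B))).exists_forall_of_atTop
  set A1 : ℝ := D * (c * (c + 2) + 2 * c + 1) with hA1
  set A2 : ℝ := D + c * (c + 2) + 2 * c + 2 * D with hA2
  refine ⟨8 * (A1 + A2), T0 + 1, ?_, ?_⟩
  · rw [hA1, hA2]
    have h0 : 0 ≤ D := by linarith
    positivity
  intro T hT
  have hΛ := hT0 T (by omega)
  set ell : ℝ := Real.log T with hell
  set lam : ℝ := Real.log ell with hlam
  have hlam1 : 1 ≤ lam := le_trans (le_max_left _ _) hΛ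
  have hlamB : 4 * Real.log B ≤ lam := le_trans (le_max_right _ _) hΛ
  have hT1 : (1 : ℝ) ≤ T := by
    have : 1 ≤ T := by omega
    exact_mod_cast this
  have hell0 : 0 ≤ ell := Real.log_nonneg hT1
  have hellpos : 0 < ell := by
    rcases hell0.lt_or_eq with h | h
    · exact h
    · rw [hlam, ← h, Real.log_zero] at hlam1
      norm_num at hlam1
  have hlamell : lam ≤ ell := by
    have := Real.log_le_sub_one_of_pos hellpos
    rw [hlam]; linarith
  have hell1 : 1 ≤ ell := le_trans hlam1 hlamell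
  have hellT : ell ≤ T := by
    have := Real.log_le_sub_one_of_pos (show (0 : ℝ) < T by linarith)
    rw [hell]; linarith
  have hexpell : Real.exp ell = T := Real.exp_log (by linarith)
  have hexplam : Real.exp lam = ell := Real.exp_log hellpos
  refine ⟨⟨hlam1, hlamell, hT1⟩, ?_⟩
  intro Lz hLz m x hx0 hx
  have hLzT : (Lz : ℝ) ≤ T := by exact_mod_cast hLz
  have hTell : (T : ℝ) ≤ T * ell := le_mul_of_one_le_right (by linarith) hell1
  have h1Tell : (1 : ℝ) ≤ T * ell := le_trans hT1 hTell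
  have hsq : Real.sqrt ell ≤ ell := by
    rw [Real.sqrt_le_left hell0, sq]
    exact le_mul_of_one_le_left hell0 hell1
  have hsq1 : 1 ≤ Real.sqrt ell := by
    rw [Real.one_le_sqrt]; exact hell1
  have hr2pos : 0 < (T : ℝ) * Real.sqrt ell := by positivity
  set r : ℝ := Real.sqrt (T * Real.sqrt ell) with hr
  have hrsq : r ^ 2 = T * Real.sqrt ell := Real.sq_sqrt hr2pos.le
  have hrpos : 0 < r := Real.sqrt_pos.2 hr2pos
  have hlcast : ((C1 * (Lz + 1) : ℕ) : ℝ) = c * (Lz + 1) := by push_cast; rfl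
  have hl1 : c * ((Lz : ℝ) + 1) ≤ 2 * c * T := by
    calc c * ((Lz : ℝ) + 1) ≤ c * (2 * T) := mul_le_mul_of_nonneg_left (by linarith) hc0
      _ = 2 * c * T := by ring
  -- the ratio
  have hratio : x / r ≤ Real.exp (-(lam / 8)) := by
    rw [div_le_iff₀ hrpos]
    have h1 : x ^ 2 ≤ D ^ 2 * (c * (Lz + 1) + 1) := by
      calc x ^ 2 ≤ (D * Real.sqrt (((C1 * (Lz + 1) : ℕ) : ℝ) + 1)) ^ 2 :=
            pow_le_pow_left₀ hx0 hx 2
        _ = D ^ 2 * (c * (Lz + 1) + 1) := by
            rw [mul_pow, Real.sq_sqrt (by positivity), hlcast]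
    have h2 : x ^ 2 ≤ B * T := by
      refine h1.trans ?_
      rw [hB]
      have : c * ((Lz : ℝ) + 1) + 1 ≤ (2 * c + 1) * T := by
        rw [add_mul, one_mul]; exact add_le_add hl1 hT1
      calc D ^ 2 * (c * (Lz + 1) + 1) ≤ D ^ 2 * ((2 * c + 1) * T) :=
            mul_le_mul_of_nonneg_left this (by positivity)
        _ = D ^ 2 * (2 * c + 1) * T := by ring
    have h3 : B ≤ Real.exp (lam / 4) := by
      rw [← Real.log_le_iff_le_exp (by linarith)]
      linarith
    have h4 : Real.sqrt ell = Real.exp (lam / 2) := by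
      rw [← hexplam]
      rw [show Real.exp lam = Real.exp (lam / 2) ^ 2 by rw [← Real.exp_nat_mul]; congr 1; push_cast; ring]
      exact Real.sqrt_sq (Real.exp_pos _).le
    have h5 : x ^ 2 ≤ (Real.exp (-(lam / 8)) * r) ^ 2 := by
      rw [mul_pow, hrsq, ← Real.exp_nat_mul, h4]
      calc x ^ 2 ≤ B * T := h2
        _ ≤ Real.exp (lam / 4) * T := mul_le_mul_of_nonneg_right h3 (by linarith)
        _ = Real.exp (((2 : ℕ) : ℝ) * -(lam / 8)) * (T * Real.exp (lam / 2)) := by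
            rw [mul_left_comm, ← Real.exp_add, mul_comm]
            congr 2
            push_cast; ring
    exact le_of_sq_le_sq h5 (by positivity)
  have hxr0 : 0 ≤ x / r := div_nonneg hx0 hrpos.le
  have hxr : x ≤ r := by
    have h1 : x / r ≤ 1 := hratio.trans (by rw [Real.exp_le_one_iff]; linarith)
    rwa [div_le_one hrpos] at h1
  refine ⟨hrpos, hxr, ?_⟩
  intro hmain
  set H1 : ℝ := (c + 1) * (Lz + 1) * Real.exp (T * ell) with hH1
  have hH1pos : 0 < H1 := by positivity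
  have hlogH1 : Real.log H1 ≤ (c + 2) * (T * ell) := by
    rw [hH1, Real.log_mul (by positivity) (Real.exp_pos _).ne',
      Real.log_mul (by positivity) (by positivity), Real.log_exp]
    have e1 : Real.log (c + 1) ≤ c := by
      have := Real.log_le_sub_one_of_pos (show (0 : ℝ) < c + 1 by linarith); linarith
    have e2 : Real.log ((Lz : ℝ) + 1) ≤ Lz := by
      have := Real.log_le_sub_one_of_pos (show (0 : ℝ) < (Lz : ℝ) + 1 by positivity); linarith
    have e3 : c ≤ c * (T * ell) := le_mul_of_one_le_right hc0 h1Tell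
    rw [add_mul]
    linarith
  have hlogH : Real.log (H1 ^ C1) ≤ c * (c + 2) * (T * ell) := by
    rw [Real.log_pow]
    calc (C1 : ℝ) * Real.log H1 ≤ (C1 : ℝ) * ((c + 2) * (T * ell)) :=
          mul_le_mul_of_nonneg_left hlogH1 (Nat.cast_nonneg _)
      _ = c * (c + 2) * (T * ell) := by rw [← hc]; ring
  have hHle : H1 ^ C1 ≤ Real.exp (c * (c + 2) * (T * ell)) := by
    rw [← Real.log_le_iff_le_exp (by positivity)]; exact hlogH
  -- lower bound
  have hlow : Real.exp (-(A1 * (T * ell))) ≤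
      Real.exp (-D * (Real.log (H1 ^ C1) + ((C1 * (Lz + 1) : ℕ) : ℝ) + 1)) := by
    apply Real.exp_le_exp.2
    rw [hlcast]
    have e1 : Real.log (H1 ^ C1) + c * (Lz + 1) + 1 ≤
        (c * (c + 2) + 2 * c + 1) * (T * ell) := by
      have e0 : 2 * c * T ≤ 2 * c * (T * ell) := mul_le_mul_of_nonneg_left hTell (by positivity)
      have e5 : (c * (c + 2) + 2 * c + 1) * (T * ell) =
        c * (c + 2) * (T * ell) + 2 * c * (T * ell) + T * ell := by ring
      rw [e5]
      linarith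
    have e2 := mul_le_mul_of_nonneg_left e1 (show 0 ≤ D by linarith)
    have e3 : A1 * (T * ell) = D * ((c * (c + 2) + 2 * c + 1) * (T * ell)) := by rw [hA1]; ring
    have e4 : -D * (Real.log (H1 ^ C1) + c * (Lz + 1) + 1) =
        -(D * (Real.log (H1 ^ C1) + c * (Lz + 1) + 1)) := by ring
    rw [e3, e4]
    exact neg_le_neg e2
  -- upper bound
  have hmax : max 1 r ≤ Real.exp ell := by
    rw [hexpell]
    refine max_le hT1 ?_
    refine le_of_sq_le_sq ?_ (by linarith)
    rw [hrsq, sq]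
    exact mul_le_mul_of_nonneg_left (hsq.trans hellT) (by linarith)
  have hup1 : max 1 r ^ (C1 * (Lz + 1)) ≤ Real.exp (2 * c * (T * ell)) := by
    calc max 1 r ^ (C1 * (Lz + 1)) ≤ Real.exp ell ^ (C1 * (Lz + 1)) :=
          pow_le_pow_left₀ (by positivity) hmax _
      _ = Real.exp (c * (Lz + 1) * ell) := by
          rw [← Real.exp_nat_mul, hlcast]
      _ ≤ Real.exp (2 * c * (T * ell)) := by
          apply Real.exp_le_exp.2
          calc c * (Lz + 1) * ell ≤ 2 * c * T * ell := mul_le_mul_of_nonneg_right hl1 hell0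
            _ = 2 * c * (T * ell) := by ring
  have hup2 : Real.exp (D * (1 + r ^ 2)) ≤ Real.exp (2 * D * (T * ell)) := by
    apply Real.exp_le_exp.2
    rw [hrsq]
    have : (T : ℝ) * Real.sqrt ell ≤ T * ell := mul_le_mul_of_nonneg_left hsq (by linarith)
    calc D * (1 + T * Real.sqrt ell) ≤ D * (2 * (T * ell)) :=
          mul_le_mul_of_nonneg_left (by linarith) (by linarith)
      _ = 2 * D * (T * ell) := by ring
  have hDexp : D ≤ Real.exp (D * (T * ell)) := by
    have e1 : D ≤ D * (T * ell) := le_mul_of_one_le_right (by linarith) h1Tell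
    have e2 := Real.add_one_le_exp (D * (T * ell))
    linarith
  have hup : D * H1 ^ C1 * max 1 r ^ (C1 * (Lz + 1)) * Real.exp (D * (1 + r ^ 2)) ≤
      Real.exp (A2 * (T * ell)) := by
    calc D * H1 ^ C1 * max 1 r ^ (C1 * (Lz + 1)) * Real.exp (D * (1 + r ^ 2))
        ≤ Real.exp (D * (T * ell)) * Real.exp (c * (c + 2) * (T * ell)) *
          Real.exp (2 * c * (T * ell)) * Real.exp (2 * D * (T * ell)) := by gcongr
      _ = Real.exp (A2 * (T * ell)) := by
          rw [← Real.exp_add, ← Real.exp_add, ← Real.exp_add, hA2]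
          congr 1; ring
  have hfin : Real.exp (-(A1 * (T * ell))) ≤
      Real.exp (-(lam / 8) * m + A2 * (T * ell)) := by
    refine hlow.trans (hmain.trans ?_)
    rw [Real.exp_add]
    have e1 : (x / r) ^ m ≤ Real.exp (-(lam / 8) * m) := by
      rw [mul_comm, Real.exp_nat_mul]
      exact pow_le_pow_left₀ hxr0 hratio m
    exact mul_le_mul e1 hup (by positivity) (Real.exp_pos _).le
  rw [Real.exp_le_exp] at hfin
  have hlampos : 0 < lam := by linarith
  rw [mul_div_assoc', le_div_iff₀ hlampos]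
  linarith

theorem WZE_one_le {c l : ℝ} (hc : 0 ≤ c) (hl : 0 ≤ l) {e : ℝ} (he : 1 ≤ e) (k : ℕ) :
    1 ≤ ((c + 1) * (l + 1) * e) ^ k := by
  apply one_le_pow₀
  have h1 : 1 ≤ (c + 1) * (l + 1) := by nlinarith
  nlinarith

theorem wze (L : PeriodPair) {K : Type*} [Field K] [NumberField K] (ι : K →+* ℂ) (a b : 𝓞 K)
    (h2 : L.g₂ = -4 * oc ι a) (h3 : L.g₃ = -4 * oc ι b) (N0 : ℕ) :
    ∃ (C : ℝ) (T0 : ℕ), 0 ≤ C ∧ ∀ T : ℕ, T0 ≤ T → ∀ Lz : ℕ, Lz ≤ T →
      ∀ p : ℕ → ℕ → ℕ → ℤ, (∀ i j k, |(p i j k : ℝ)| ≤ Real.exp (T * Real.log T)) →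
      (∃ i < Lz, ∃ j < N0, ∃ k < N0, p i j k ≠ 0) →
      ∃ n0 : ℕ, (n0 : ℝ) ≤ C * T * Real.log T / Real.log (Real.log T) ∧
        coeff n0 (GS (oc ι a) (oc ι b) Lz N0 p) ≠ 0 ∧
        ∀ k < n0, coeff k (GS (oc ι a) (oc ι b) Lz N0 p) = 0 := by
  obtain ⟨C1, hC1⟩ := elim L ι a b h2 h3 N0
  obtain ⟨C2, hC2, hlat⟩ := latEval L ι a b h2 h3 C1
  set D : ℝ := max 1 C2 with hD
  have hD1 : 1 ≤ D := le_max_left _ _
  have hC2D : C2 ≤ D := le_max_right _ _
  obtain ⟨A, T0, hA, hmain⟩ := WZE_analytic C1 D hD1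
  refine ⟨A + C1, T0, by positivity, ?_⟩
  intro T hT Lz hLz p hp hpne
  obtain ⟨⟨hlam1, hlamell, hT1⟩, hmain⟩ := hmain T hT
  have hell0 : 0 ≤ Real.log T := by linarith
  have hH : 1 ≤ Real.exp (T * Real.log T) := Real.one_le_exp (by positivity)
  obtain ⟨Rp, hd0, hd1, hd2, hnm, hne, hO⟩ := hC1 Lz p _ hH hp hpne
  set H' : ℝ := (((C1 : ℝ) + 1) * (Lz + 1) * Real.exp (T * Real.log T)) ^ C1 with hH'
  have hH'1 : 1 ≤ H' := WZE_one_le (Nat.cast_nonneg _) (Nat.cast_nonneg _) hH C1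
  have hnm' : ∀ σ : K →+* ℂ, nm (MvPolynomial.map (oc σ) Rp) ≤ H' := by
    intro σ
    refine (hnm σ).trans ?_
    rw [hH']
    apply pow_le_pow_left₀ (by positivity)
    gcongr
    linarith
  obtain ⟨w0, G, ω, hw0, hG, hev, hω, hlow⟩ :=
    hlat (C1 * (Lz + 1)) H' Rp hH'1 hd0 hd1 hd2 hnm' hne
  have hEnt : Ent G := fun r => ne_top_of_le_ne_top ENNReal.ofReal_ne_top (hG r)
  have hEntS : Ent (SS (oc ι a) (oc ι b)) := (Gr_SS _ _).ent
  -- main claim
  have claim : ∀ n : ℕ, (∀ k < n, coeff k (GS (oc ι a) (oc ι b) Lz N0 p) = 0) →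
      (n : ℝ) ≤ (A + C1) * T * Real.log T / Real.log (Real.log T) := by
    intro n hn
    have hO1 := hO n hn
    have hO2 : (ev G) =O[𝓝[≠] (0 : ℂ)] fun z => z ^ ((n : ℤ) - C1) := by
      have h1 : (fun z => ev (SS (oc ι a) (oc ι b)) z ^ w0) =O[𝓝[≠] (0 : ℂ)]
          fun _ => (1 : ℂ) := by
        have hcont : ContinuousAt (fun z => ev (SS (oc ι a) (oc ι b)) z ^ w0) 0 :=
          ((differentiable_ev hEntS).continuous.pow w0).continuousAt
        exact (hcont.isBigO_one ℂ).mono nhdsWithin_le_nhds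
      have h2 := h1.mul hO1
      simp only [one_mul] at h2
      refine h2.congr' ?_ EventuallyEq.rfl
      filter_upwards [eventually_notMem L] with z hz
      exact (hev z hz).symm
    have hco := coeff_zero_of_isBigO hEnt _ hO2
    have hco' : ∀ k < n - C1, coeff k G = 0 := fun k hk => hco k (by omega)
    have hωD : ‖ω‖ ≤ D * Real.sqrt (((C1 * (Lz + 1) : ℕ) : ℝ) + 1) :=
      hω.trans (mul_le_mul_of_nonneg_right hC2D (Real.sqrt_nonneg _))
    obtain ⟨hrpos, hxr, himp⟩ := hmain Lz hLz (n - C1) ‖ω‖ (norm_nonneg _) hωD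
    set r : ℝ := Real.sqrt (T * Real.sqrt (Real.log T)) with hr
    have hsch := ev_schwarz hEnt hco' (z := ω) (r := ⟨r, hrpos.le⟩) hrpos hxr
    have hnr : (nr ⟨r, hrpos.le⟩ G).toReal ≤
        D * H' * max 1 r ^ (C1 * (Lz + 1)) * Real.exp (D * (1 + r ^ 2)) := by
      have h1 := ENNReal.toReal_le_of_le_ofReal (by positivity) (hG ⟨r, hrpos.le⟩)
      refine h1.trans ?_
      change C2 * H' * max 1 r ^ (C1 * (Lz + 1)) * Real.exp (C2 * (1 + r ^ 2)) ≤ _
      gcongr
    have hD0 : 0 ≤ Real.log H' + ((C1 * (Lz + 1) : ℕ) : ℝ) + 1 := by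
      have := Real.log_nonneg hH'1
      positivity
    have hlow' : Real.exp (-D * (Real.log H' + ((C1 * (Lz + 1) : ℕ) : ℝ) + 1)) ≤ ‖ev G ω‖ := by
      refine le_trans (Real.exp_le_exp.2 ?_) hlow
      have := mul_le_mul_of_nonneg_right hC2D hD0
      rw [neg_mul, neg_mul]
      exact neg_le_neg this
    have hm := himp (hlow'.trans (hsch.trans
      (mul_le_mul_of_nonneg_left hnr (by positivity))))
    have hn1 : (n : ℝ) ≤ ((n - C1 : ℕ) : ℝ) + C1 := by
      have : n ≤ (n - C1) + C1 := by omega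
      exact_mod_cast this
    have hq : 1 ≤ T * Real.log T / Real.log (Real.log T) := by
      rw [one_le_div (by linarith)]
      exact hlamell.trans (le_mul_of_one_le_left hell0 hT1)
    have e1 : (A + C1) * T * Real.log T / Real.log (Real.log T) =
        A * (T * Real.log T / Real.log (Real.log T)) +
          C1 * (T * Real.log T / Real.log (Real.log T)) := by ring
    rw [e1]
    have e2 : (C1 : ℝ) * 1 ≤ C1 * (T * Real.log T / Real.log (Real.log T)) :=
      mul_le_mul_of_nonneg_left hq (Nat.cast_nonneg _)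
    linarith
  -- existence of the first non-vanishing index
  have hex : ∃ n, coeff n (GS (oc ι a) (oc ι b) Lz N0 p) ≠ 0 := by
    by_contra hcon
    push Not at hcon
    obtain ⟨N, hN⟩ := exists_nat_gt ((A + C1) * T * Real.log T / Real.log (Real.log T))
    exact absurd (claim N fun k _ => hcon k) (not_le.2 hN)
  classical
  refine ⟨Nat.find hex, claim _ fun k hk => ?_, Nat.find_spec hex, fun k hk => ?_⟩
  · exact not_not.1 (Nat.find_min hex hk)
  · exact not_not.1 (Nat.find_min hex hk)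

end Pool.Agent.ZCM
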