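import Pool.Agent.ZCM.SiegelL
import Pool.Agent.ZCM.WZE
import Pool.Agent.ZCM.Beta

/-! # M2: the main construction -/

namespace Pool.Agent.ZCM
open Filter Topology PowerSeries NumberField
open scoped NNReal ENNReal

/-- `ς` -/
noncomputable def vs (κ N0 : ℕ) : ℝ := 2 * κ / (N0 : ℝ) ^ 2
/-- `ϑ` -/
noncomputable def vt (κ N0 : ℕ) (x : ℝ) : ℝ := 4 * κ * (vs κ N0 + x)

private theorem MC_tlog : Tendsto (fun T : ℕ => Real.log T) atTop atTop :=
  Real.tendsto_log_atTop.comp tendsto_natCast_atTop_atTop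

private theorem MC_loglog (c ε : ℝ) (hε : 0 < ε) :
    ∀ᶠ T : ℕ in atTop, Real.log (c * Real.log T) ≤ ε * Real.log T := by
  have h1 : ∀ᶠ y : ℝ in atTop, Real.log y ≤ (ε / 2) * y := by
    have := Real.isLittleO_log_id_atTop.bound (half_pos hε)
    filter_upwards [this, eventually_ge_atTop (1 : ℝ)] with y hy hy1
    rw [Real.norm_of_nonneg (Real.log_nonneg hy1), id, Real.norm_of_nonneg (by linarith)] at hy
    exact hy
  have h2 := MC_tlog.eventually h1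
  have h3 := MC_tlog.eventually_ge_atTop (2 * |Real.log c| / ε)
  have h4 := MC_tlog.eventually_gt_atTop 0
  filter_upwards [h2, h3, h4] with T h2 h3 h4
  rcases eq_or_ne c 0 with rfl | hc
  · rw [zero_mul, Real.log_zero]
    positivity
  rw [Real.log_mul hc h4.ne']
  have h5 : 2 * |Real.log c| ≤ ε * Real.log T := by
    rw [div_le_iff₀ hε] at h3
    linarith
  have h6 := le_abs_self (Real.log c)
  nlinarith

/-- constants are `o(log T)` -/
private theorem MC_const (c ε : ℝ) (hε : 0 < ε) : ∀ᶠ T : ℕ in atTop, c ≤ ε * Real.log T := by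
  filter_upwards [MC_tlog.eventually_ge_atTop (c / ε)] with T h
  rw [div_le_iff₀ hε] at h
  linarith

/-- the main comparison giving the bound for `m` -/
private theorem MC_A (κ s x v C C1 C3 C4 : ℝ) (N0 : ℕ) (hκ : 1 ≤ κ) (hs : 0 ≤ s) (hx : 0 < x)
    (hx1 : x ≤ 1) (hv : v = 4 * κ * (s + x)) (hC1 : 0 ≤ C1) (hC3 : 0 ≤ C3)
    (hN0 : 1 ≤ N0) :
    ∀ᶠ T : ℕ in atTop, ∀ n0 Lz : ℕ, T ≤ n0 →
      (n0 : ℝ) ≤ C * T * Real.log T / Real.log (Real.log T) → 1 ≤ Lz → (Lz : ℝ) ≤ x * T →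
      κ * (s * T * Real.log T + Real.log (Lz * (N0 : ℝ) ^ 2) + (Lz / 2) * Real.log (n0 + 1)
        + C1 * (n0 + 1)) + C3 * (n0 + 1) < v * T * (1 / 2 * Real.log n0 - C4) ∧
      0 ≤ 1 / 2 * Real.log n0 - C4 := by
  have hv0 : 0 < v := by rw [hv]; positivity
  set A : ℝ := κ + κ * x / 2 + 2 * κ * C1 + 2 * C3 + v with hA
  have hA0 : 0 < A := by positivity
  have hAκ : κ * x ≤ A := by
    have : 0 ≤ 2 * κ * C1 := by positivity
    have : κ * x ≤ κ * 1 := by gcongr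
    have : 0 ≤ κ * x / 2 := by positivity
    linarith
  set ε : ℝ := κ * x / A with hε
  have hε0 : 0 < ε := by positivity
  have hε1 : ε ≤ 1 := by rw [hε, div_le_one hA0]; exact hAκ
  have hεA : ε * A = κ * x := by rw [hε]; field_simp
  have tll : Tendsto (fun T : ℕ => Real.log (Real.log T)) atTop atTop :=
    Real.tendsto_log_atTop.comp MC_tlog
  filter_upwards [tll.eventually_ge_atTop (C / ε), tll.eventually_gt_atTop 0,
    MC_loglog (2 * ε) ε hε0, MC_loglog 1 ε hε0, MC_const 1 ε hε0, MC_const (Real.log ((N0 : ℝ) ^ 2)) (ε / 2) (by positivity),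
    MC_const C4 (ε / 2) (by positivity), eventually_ge_atTop 2, MC_const 1 (1 / 2) (by norm_num),
    MC_const C4 (1 / 2) (by norm_num),
    (tendsto_natCast_atTop_atTop (R := ℝ)).eventually (Real.isLittleO_log_id_atTop.bound (c := ε / 2) (by positivity))]
    with T hT1 hT2 hT3 hT4 hT5 hT6 hT7 hT8 hT9 hT11 hT10
  intro n0 Lz hn hn' hL1 hLx
  have hTpos : (0 : ℝ) < T := by exact_mod_cast (by omega : 0 < T)
  have hT1' : (1 : ℝ) ≤ T := by exact_mod_cast (by omega : 1 ≤ T)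
  have hlog : 2 ≤ Real.log T := by linarith
  have hlogpos : 0 < Real.log T := by linarith
  have hn0 : (T : ℝ) ≤ n0 := by exact_mod_cast hn
  have hn0pos : (0 : ℝ) < n0 := by linarith
  have hTL : 0 < T * Real.log T := by positivity
  have hnε : (n0 : ℝ) ≤ ε * (T * Real.log T) := by
    refine hn'.trans ?_
    rw [div_le_iff₀ hT2]
    rw [div_le_iff₀ hε0] at hT1
    calc C * T * Real.log T ≤ Real.log (Real.log T) * ε * T * Real.log T := by gcongr
      _ = _ := by ring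
  have hlTL : Real.log T ≤ T * Real.log T := le_mul_of_one_le_left hlogpos.le hT1'
  have hTTL : (T : ℝ) ≤ T * Real.log T := le_mul_of_one_le_right hTpos.le (by linarith)
  have h1ε : 1 ≤ ε * (T * Real.log T) := hT5.trans (by gcongr)
  have hn1 : (n0 : ℝ) + 1 ≤ 2 * ε * (T * Real.log T) := by linarith
  have hlogn : Real.log ((n0 : ℝ) + 1) ≤ (1 + ε) * Real.log T := by
    have h1 : Real.log ((n0 : ℝ) + 1) ≤ Real.log (2 * ε * (T * Real.log T)) :=
      Real.log_le_log (by positivity) hn1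
    have h2 : Real.log (2 * ε * (T * Real.log T)) = Real.log T + Real.log (2 * ε * Real.log T) := by
      rw [← Real.log_mul (by positivity) (by positivity)]
      congr 1
      ring
    linarith
  have hLpos : (1 : ℝ) ≤ Lz := by exact_mod_cast hL1
  have hLT : (Lz : ℝ) ≤ T := hLx.trans (mul_le_of_le_one_left hTpos.le hx1)
  have hN0' : (1 : ℝ) ≤ N0 := by exact_mod_cast hN0
  have hlogL : Real.log (Lz * (N0 : ℝ) ^ 2) ≤ ε * (T * Real.log T) := by
    rw [Real.log_mul (by positivity) (by positivity)]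
    have h1 : Real.log Lz ≤ Real.log T := Real.log_le_log (by linarith) hLT
    have h2 : Real.log T ≤ ε / 2 * T := by
      rw [Real.norm_of_nonneg hlogpos.le, id, Real.norm_of_nonneg hTpos.le] at hT10
      exact hT10
    have h3 : ε / 2 * T ≤ ε / 2 * (T * Real.log T) := by gcongr
    have h4 : ε / 2 * Real.log T ≤ ε / 2 * (T * Real.log T) := by gcongr
    linarith
  have hlogn0 : Real.log T ≤ Real.log n0 := Real.log_le_log hTpos hn0
  have hL2 : (Lz : ℝ) / 2 * Real.log ((n0 : ℝ) + 1) ≤ (x / 2) * (1 + ε) * (T * Real.log T) := by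
    have h1 : 0 ≤ Real.log ((n0 : ℝ) + 1) := Real.log_nonneg (by linarith)
    calc (Lz : ℝ) / 2 * Real.log ((n0 : ℝ) + 1) ≤ (x * T) / 2 * ((1 + ε) * Real.log T) := by
          gcongr
      _ = (x / 2) * (1 + ε) * (T * Real.log T) := by ring
  have hlhs : κ * (s * T * Real.log T + Real.log (Lz * (N0 : ℝ) ^ 2) + (Lz / 2) * Real.log (n0 + 1)
        + C1 * (n0 + 1)) + C3 * (n0 + 1) ≤
      (κ * (s + ε + (x / 2) * (1 + ε) + 2 * C1 * ε) + 2 * C3 * ε) * (T * Real.log T) := by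
    have h1 : C1 * ((n0 : ℝ) + 1) ≤ C1 * (2 * ε * (T * Real.log T)) := by gcongr
    have h2 : C3 * ((n0 : ℝ) + 1) ≤ C3 * (2 * ε * (T * Real.log T)) := by gcongr
    have h3 : κ * (s * T * Real.log T + Real.log (Lz * (N0 : ℝ) ^ 2)
        + (Lz / 2) * Real.log (n0 + 1) + C1 * (n0 + 1)) ≤
        κ * (s * T * Real.log T + ε * (T * Real.log T) + (x / 2) * (1 + ε) * (T * Real.log T)
          + C1 * (2 * ε * (T * Real.log T))) := by
      gcongr
    calc _ ≤ κ * (s * T * Real.log T + ε * (T * Real.log T) + (x / 2) * (1 + ε) * (T * Real.log T)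
          + C1 * (2 * ε * (T * Real.log T))) + C3 * (2 * ε * (T * Real.log T)) := by linarith
      _ = _ := by ring
  have hrhs : v * (1 / 2 - ε / 2) * (T * Real.log T) ≤ v * T * (1 / 2 * Real.log n0 - C4) := by
    have h1 : (1 / 2 - ε / 2) * Real.log T ≤ 1 / 2 * Real.log n0 - C4 := by linarith
    calc v * (1 / 2 - ε / 2) * (T * Real.log T) = v * T * ((1 / 2 - ε / 2) * Real.log T) := by ring
      _ ≤ _ := by gcongr
  have hcmp : κ * (s + ε + (x / 2) * (1 + ε) + 2 * C1 * ε) + 2 * C3 * ε <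
      v * (1 / 2 - ε / 2) := by
    have e1 : κ * (s + ε + (x / 2) * (1 + ε) + 2 * C1 * ε) + 2 * C3 * ε + v * (ε / 2)
        = κ * s + κ * x / 2 + ε * A - v * (ε / 2) := by rw [hA]; ring
    have e2 : v * (1 / 2) = 2 * κ * s + 2 * κ * x := by rw [hv]; ring
    have e3 : 0 ≤ κ * s := by positivity
    have e4 : 0 < κ * x := by positivity
    have e5 : 0 < v * (ε / 2) := by positivity
    rw [hεA] at e1
    have e6 : v * (1 / 2 - ε / 2) = v * (1 / 2) - v * (ε / 2) := by ring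
    rw [e6, e2]
    linarith
  refine ⟨hlhs.trans_lt (lt_of_lt_of_le ?_ hrhs), by linarith⟩
  exact mul_lt_mul_of_pos_right hcmp hTL

/-- the exponent for the values -/
private theorem MC_B (s x v C5 C6 C7 : ℝ) (N0 : ℕ) (hs : 0 ≤ s) (hx : 0 < x) (hv : 0 ≤ v)
    (h16 : s + v + x ≤ 1 / 16) (hC5 : 0 ≤ C5) (hN0 : 1 ≤ N0) :
    ∀ᶠ T : ℕ in atTop, ∀ n0 Lz : ℕ, T ≤ n0 → 1 ≤ Lz → (Lz : ℝ) ≤ x * T →
      v * T * Real.log T + C6 * T + C7 + C5 * (n0 + 1) - n0 / 2 * Real.log n0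
        + (s * T * Real.log T + Real.log (Lz * (N0 : ℝ) ^ 2) + Lz / 2 * Real.log n0)
      ≤ -(1 / 4) * T * Real.log T := by
  filter_upwards [MC_const (|C6| + |C7| + 2 * C5 + 1 + Real.log ((N0 : ℝ) ^ 2)) (3 / 16)
      (by norm_num), MC_const (2 * C5) (1 / 4) (by norm_num), eventually_ge_atTop 3,
    (tendsto_natCast_atTop_atTop (R := ℝ)).eventually
      (Real.isLittleO_log_id_atTop.bound (c := 1) (by norm_num))]
    with T hT1 hT2 hT3 hT4
  intro n0 Lz hn hL1 hLx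
  have hTpos : (0 : ℝ) < T := by exact_mod_cast (by omega : 0 < T)
  have hT1' : (1 : ℝ) ≤ T := by exact_mod_cast (by omega : 1 ≤ T)
  have hlogpos : 0 ≤ Real.log T := Real.log_nonneg hT1'
  have hn0 : (T : ℝ) ≤ n0 := by exact_mod_cast hn
  have hn0pos : (0 : ℝ) < n0 := by linarith
  have hlogn0 : Real.log T ≤ Real.log n0 := Real.log_le_log hTpos hn0
  have hN0' : (1 : ℝ) ≤ N0 := by exact_mod_cast hN0
  have hLpos : (1 : ℝ) ≤ Lz := by exact_mod_cast hL1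
  have hLT : (Lz : ℝ) ≤ T := hLx.trans (mul_le_of_le_one_left hTpos.le (by linarith))
  have hlogT : Real.log T ≤ T := by
    rw [Real.norm_of_nonneg hlogpos, id, Real.norm_of_nonneg hTpos.le, one_mul] at hT4
    exact hT4
  have hlN : 0 ≤ Real.log ((N0 : ℝ) ^ 2) := Real.log_nonneg (by nlinarith)
  have hlogL : Real.log (Lz * (N0 : ℝ) ^ 2) ≤ (1 + Real.log ((N0 : ℝ) ^ 2)) * T := by
    rw [Real.log_mul (by positivity) (by positivity)]
    have h1 : Real.log Lz ≤ Real.log T := Real.log_le_log (by linarith) hLT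
    nlinarith
  -- (Lz/2) log n0 ≤ (x n0 / 2) log n0
  have hL2 : (Lz : ℝ) / 2 * Real.log n0 ≤ x * n0 / 2 * Real.log n0 := by
    have : 0 ≤ Real.log n0 := hlogpos.trans hlogn0
    have h2 : (Lz : ℝ) ≤ x * n0 := hLx.trans (by gcongr)
    gcongr
  have hC5' : C5 * ((n0 : ℝ) + 1) ≤ 2 * C5 * n0 := by
    have : (n0 : ℝ) + 1 ≤ 2 * n0 := by linarith
    calc C5 * ((n0 : ℝ) + 1) ≤ C5 * (2 * n0) := by gcongr
      _ = _ := by ring
  -- n0 ((1/2 - x/2) log n0 - 2 C5) ≥ T ((1/2 - x/2) log T - 2 C5)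
  have hax : 1 / 4 ≤ 1 / 2 - x / 2 := by linarith
  have h5 : 0 ≤ (1 / 2 - x / 2) * Real.log T - 2 * C5 := by
    have : 1 / 4 * Real.log T ≤ (1 / 2 - x / 2) * Real.log T := by gcongr
    linarith
  have h6 : T * ((1 / 2 - x / 2) * Real.log T - 2 * C5) ≤
      n0 * ((1 / 2 - x / 2) * Real.log n0 - 2 * C5) := by
    have h7 : (1 / 2 - x / 2) * Real.log T - 2 * C5 ≤ (1 / 2 - x / 2) * Real.log n0 - 2 * C5 := by
      have : (0 : ℝ) ≤ 1 / 2 - x / 2 := by linarith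
      gcongr
    calc _ ≤ (n0 : ℝ) * ((1 / 2 - x / 2) * Real.log T - 2 * C5) := by gcongr
      _ ≤ _ := by gcongr
  have h8 : C6 * T + C7 ≤ (|C6| + |C7|) * T := by
    have h9 : C6 * T ≤ |C6| * T := by
      gcongr
      exact le_abs_self C6
    have h10 : C7 ≤ |C7| * T := (le_abs_self C7).trans (le_mul_of_one_le_right (abs_nonneg C7) hT1')
    linarith
  have h12 : (|C6| + |C7| + 2 * C5 + 1 + Real.log ((N0 : ℝ) ^ 2)) * T ≤
      3 / 16 * Real.log T * T := by gcongr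
  have h13 : (v + s + x / 2) * (T * Real.log T) ≤ 1 / 16 * (T * Real.log T) := by
    have : 0 ≤ T * Real.log T := by positivity
    have : v + s + x / 2 ≤ 1 / 16 := by linarith
    gcongr
  linarith

/-- integrality of the coefficients of `FS` -/
private theorem MC_integral {K : Type*} [Field K] (a b : K) (N0 : ℕ) (D : ℕ → ℕ)
    (hD2 : ∀ m n, m ≤ n → D m ∣ D n)
    (hD4 : ∀ j k n : ℕ, j < N0 → k < N0 →
      IsIntegral ℤ ((D n : K) * coeff n (xS a b ^ j * zS a b ^ k)))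
    (L : ℕ) (p : ℕ → ℕ → ℕ → ℤ) (n : ℕ) :
    IsIntegral ℤ ((D n : K) * coeff n (FS a b L N0 p)) := by
  unfold FS
  rw [map_sum, Finset.mul_sum]
  refine IsIntegral.sum _ fun i _ => ?_
  rw [map_sum, Finset.mul_sum]
  refine IsIntegral.sum _ fun j hj => ?_
  rw [map_sum, Finset.mul_sum]
  refine IsIntegral.sum _ fun k hk => ?_
  rw [mul_assoc, mul_assoc, coeff_C_mul, coeff_X_pow_mul']
  split_ifs with h
  · obtain ⟨e, he⟩ := hD2 (n - (i + (3 * N0 - 2 * j - k))) n (Nat.sub_le _ _)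
    rw [he, Nat.cast_mul]
    have h1 := hD4 j k (n - (i + (3 * N0 - 2 * j - k))) (Finset.mem_range.mp hj)
      (Finset.mem_range.mp hk)
    have h2 : ((D (n - (i + (3 * N0 - 2 * j - k))) : K) * (e : K)) *
        (((p i j k : ℤ) : K) * coeff (n - (i + (3 * N0 - 2 * j - k))) (xS a b ^ j * zS a b ^ k)) =
        ((e : K) * ((p i j k : ℤ) : K)) * ((D (n - (i + (3 * N0 - 2 * j - k))) : K) *
          coeff (n - (i + (3 * N0 - 2 * j - k))) (xS a b ^ j * zS a b ^ k)) := by ring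
    rw [h2]
    refine IsIntegral.mul (IsIntegral.mul ?_ ?_) h1
    · have h3 : IsIntegral ℤ (algebraMap ℤ K (e : ℤ)) := isIntegral_algebraMap
      rwa [eq_intCast, Int.cast_natCast] at h3
    · have h3 : IsIntegral ℤ (algebraMap ℤ K (p i j k)) := isIntegral_algebraMap
      rwa [eq_intCast] at h3
  · rw [mul_zero, mul_zero]
    exact isIntegral_zero


/-- vanishing to order `M` passes to multiples -/
private theorem MC_order (F S G : ℂ → ℂ) (β : ℂ) (c M : ℕ) (hF : AnalyticAt ℂ F β)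
    (hS : AnalyticAt ℂ S β) (hG : G =ᶠ[𝓝 β] fun z => S z ^ c * F z)
    (h : ∀ j < M, iteratedDeriv j F β = 0) : ∀ j < M, iteratedDeriv j G β = 0 := by
  have h1 : (M : ℕ∞) ≤ analyticOrderAt F β :=
    (natCast_le_analyticOrderAt_iff_iteratedDeriv_eq_zero hF).mpr h
  have hSF : AnalyticAt ℂ (fun z => S z ^ c * F z) β := (hS.pow c).mul hF
  have hGa : AnalyticAt ℂ G β := hSF.congr hG.symm
  rw [← natCast_le_analyticOrderAt_iff_iteratedDeriv_eq_zero hGa, analyticOrderAt_congr hG]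
  have h2 : analyticOrderAt (fun z => S z ^ c * F z) β =
      analyticOrderAt (fun z => S z ^ c) β + analyticOrderAt F β :=
    analyticOrderAt_mul (hS.pow c) hF
  rw [h2]
  exact h1.trans le_add_self

private theorem MC_rpow (r : ℝ) (n0 : ℕ) (hr0 : 0 < r) (hr2 : r ^ 2 = n0) (k : ℕ) :
    r ^ k = Real.exp (k * (1 / 2 * Real.log n0)) := by
  have hrlog : Real.log r = 1 / 2 * Real.log n0 := by
    rw [← hr2, Real.log_pow]
    push_cast
    ring
  rw [← hrlog, ← Real.log_pow, Real.exp_log (by positivity)]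

/-- existence of `m` -/
private theorem MC_m (G : ℂ⟦X⟧) (hG : Ent G) (F S : ℂ → ℂ) (β : ℂ) (hβ : β ≠ 0) (c n0 : ℕ)
    (r : ℝ≥0) (Dn E V e1 e2 C4 : ℝ) (hz : ∀ k < n0, coeff k G = 0) (hDn : 0 < Dn)
    (hco : Real.exp (-E) ≤ Dn * ‖coeff n0 G‖) (hD1 : Dn ≤ Real.exp e1)
    (hrβ : 2 * ‖β‖ ≤ r) (hr2 : (r : ℝ) ^ 2 = n0) (hnr : (nr r G).toReal ≤ Real.exp e2)
    (hF : AnalyticAt ℂ F β) (hS : AnalyticAt ℂ S β)
    (hGF : ev G =ᶠ[𝓝 β] fun z => S z ^ c * F z)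
    (hC4 : Real.log (2 * ‖β‖) ≤ C4) (h0 : 0 ≤ 1 / 2 * Real.log n0 - C4) (hV : 0 ≤ V)
    (hlt : E + e1 + e2 - n0 * (1 / 2 * Real.log n0) < V * (1 / 2 * Real.log n0 - C4)) :
    ∃ m : ℕ, (m : ℝ) ≤ V ∧ iteratedDeriv m F β ≠ 0 := by
  by_contra hcon
  push Not at hcon
  have hβpos : 0 < ‖β‖ := norm_pos_iff.mpr hβ
  have hrpos : (0 : ℝ) < r := by linarith
  have hM : ∀ j < ⌊V⌋₊ + 1, iteratedDeriv j F β = 0 := fun j hj => by
    refine hcon j ?_
    exact (Nat.le_floor_iff hV).mp (Nat.lt_succ_iff.mp hj)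
  have hMV : V < ((⌊V⌋₊ + 1 : ℕ) : ℝ) := by
    push_cast
    exact Nat.lt_floor_add_one V
  generalize ⌊V⌋₊ + 1 = M at hM hMV
  have hz2 := zeros_at G hG n0 M hz β hβ (MC_order F S (ev G) β c M hF hS hGF hM) r
    (by linarith)
  have hr1 := MC_rpow r n0 hrpos hr2
  have h1 : ‖β‖ * Real.exp (1 / 2 * Real.log n0 - C4) ≤ r - ‖β‖ := by
    have h2 : Real.exp (1 / 2 * Real.log n0 - C4) ≤ r / (2 * ‖β‖) := by
      have h3 := hr1 1
      rw [pow_one, Nat.cast_one, one_mul] at h3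
      rw [Real.exp_sub, ← h3]
      have h4 : 2 * ‖β‖ ≤ Real.exp C4 := (Real.log_le_iff_le_exp (by positivity)).mp hC4
      gcongr
    have h5 : ‖β‖ * (r / (2 * ‖β‖)) = r / 2 := by field_simp
    have h6 : ‖β‖ * Real.exp (1 / 2 * Real.log n0 - C4) ≤ ‖β‖ * (r / (2 * ‖β‖)) := by gcongr
    linarith
  have h2 : ‖β‖ ^ M * Real.exp (M * (1 / 2 * Real.log n0 - C4)) ≤ ((r : ℝ) - ‖β‖) ^ M := by
    rw [Real.exp_nat_mul, ← mul_pow]
    exact pow_le_pow_left₀ (by positivity) h1 M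
  have h3 : Real.exp (-E) * (r : ℝ) ^ n0 * (‖β‖ ^ M * Real.exp (M * (1 / 2 * Real.log n0 - C4)))
      ≤ Real.exp e1 * (‖β‖ ^ M * Real.exp e2) := by
    calc Real.exp (-E) * (r : ℝ) ^ n0 * (‖β‖ ^ M * Real.exp (M * (1 / 2 * Real.log n0 - C4)))
        ≤ (Dn * ‖coeff n0 G‖) * (r : ℝ) ^ n0 * ((r : ℝ) - ‖β‖) ^ M := by
          refine mul_le_mul (mul_le_mul_of_nonneg_right hco (by positivity)) h2 (by positivity)
            (by positivity)
      _ = Dn * (‖coeff n0 G‖ * (r : ℝ) ^ n0 * ((r : ℝ) - ‖β‖) ^ M) := by ring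
      _ ≤ Dn * (‖β‖ ^ M * (nr r G).toReal) := mul_le_mul_of_nonneg_left hz2 hDn.le
      _ ≤ Real.exp e1 * (‖β‖ ^ M * Real.exp e2) := by
          refine mul_le_mul hD1 ?_ (by positivity) (Real.exp_pos _).le
          exact mul_le_mul_of_nonneg_left hnr (by positivity)
  have hβM : 0 < ‖β‖ ^ M := by positivity
  have h4 : Real.exp (-E + n0 * (1 / 2 * Real.log n0) + M * (1 / 2 * Real.log n0 - C4)) ≤
      Real.exp (e1 + e2) := by
    rw [Real.exp_add, Real.exp_add, Real.exp_add, ← hr1 n0]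
    refine le_of_mul_le_mul_left ?_ hβM
    linarith
  have h5 := Real.exp_le_exp.mp h4
  have h6 : V * (1 / 2 * Real.log n0 - C4) ≤ M * (1 / 2 * Real.log n0 - C4) := by gcongr
  linarith

/-- the values -/
private theorem MC_val (G : ℂ⟦X⟧) (hG : Ent G) (F S : ℂ → ℂ) (β : ℂ) (c n0 t T : ℕ)
    (r : ℝ≥0) (r1 s1 e2 V : ℝ) (hz : ∀ k < n0, coeff k G = 0) (hr10 : 0 < r1) (hr11 : r1 ≤ 1)
    (hs10 : 0 < s1) (hrβ : ‖β‖ + r1 ≤ r) (hr2 : (r : ℝ) ^ 2 = n0)
    (hnr : (nr r G).toReal ≤ Real.exp e2) (hF : DiffContOnCl ℂ F (Metric.ball β r1))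
    (hGF : ∀ z ∈ Metric.sphere β r1, ev G z = S z ^ c * F z)
    (hS : ∀ z ∈ Metric.sphere β r1, s1 ≤ ‖S z‖) (hT : 1 ≤ T) (htV : (t : ℝ) ≤ V)
    (htT : t ≤ T) :
    ‖iteratedDeriv t F β‖ ≤ Real.exp (V * Real.log T + (-Real.log r1) * T +
      (-c * Real.log s1) + n0 * Real.log (‖β‖ + r1) - n0 / 2 * Real.log n0 + e2) := by
  have hρ : 0 < ‖β‖ + r1 := by positivity
  have hrpos : (0 : ℝ) < r := lt_of_lt_of_le hρ hrβ
  have hrpos' : 0 < r := by exact_mod_cast hrpos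
  have hTpos : (0 : ℝ) < T := by exact_mod_cast (by omega : 0 < T)
  have hlogT : 0 ≤ Real.log T := Real.log_nonneg (by exact_mod_cast hT)
  have hb : ∀ z ∈ Metric.sphere β r1, ‖F z‖ ≤
      Real.exp (n0 * Real.log (‖β‖ + r1) - n0 / 2 * Real.log n0 + e2 - c * Real.log s1) := by
    intro z hz1
    have hzn : ‖z‖ ≤ ‖β‖ + r1 := by
      have h1 : ‖z - β‖ = r1 := by rw [← dist_eq_norm]; exact Metric.mem_sphere.mp hz1
      calc ‖z‖ = ‖β + (z - β)‖ := by ring_nf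
        _ ≤ ‖β‖ + ‖z - β‖ := norm_add_le _ _
        _ = _ := by rw [h1]
    have h1 := ev_schwarz hG hz hrpos' (hzn.trans hrβ)
    have h2 : ‖ev G z‖ ≤ ((‖β‖ + r1) / r) ^ n0 * Real.exp e2 := by
      refine h1.trans ?_
      refine mul_le_mul (pow_le_pow_left₀ (by positivity) ?_ n0) hnr ENNReal.toReal_nonneg
        (by positivity)
      gcongr
    have h3 : s1 ^ c * ‖F z‖ ≤ ‖ev G z‖ := by
      rw [hGF z hz1, norm_mul, norm_pow]
      have := hS z hz1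
      gcongr
    have h4 : ((‖β‖ + r1) / (r : ℝ)) ^ n0 =
        Real.exp (n0 * Real.log (‖β‖ + r1) - n0 / 2 * Real.log n0) := by
      rw [div_pow, MC_rpow r n0 hrpos hr2, Real.exp_sub, ← Real.log_pow,
        Real.exp_log (by positivity)]
      congr 2
      ring
    have h5 : s1 ^ c = Real.exp (c * Real.log s1) := by
      rw [← Real.log_pow, Real.exp_log (by positivity)]
    rw [h4, ← Real.exp_add] at h2
    rw [h5] at h3
    rw [Real.exp_sub, le_div_iff₀ (Real.exp_pos _), mul_comm]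
    exact h3.trans h2
  have h6 := Complex.norm_iteratedDeriv_le_of_forall_mem_sphere_norm_le t hr10 hF hb
  have h7 : (t.factorial : ℝ) ≤ Real.exp (V * Real.log T) := by
    have h8 : (t.factorial : ℝ) ≤ (T : ℝ) ^ t := by
      exact_mod_cast (Nat.factorial_le_pow t).trans (Nat.pow_le_pow_left htT t)
    refine h8.trans ?_
    rw [← Real.exp_log hTpos, ← Real.exp_nat_mul, Real.exp_log hTpos]
    apply Real.exp_le_exp.mpr
    gcongr
  have h8 : (r1 ^ t)⁻¹ ≤ Real.exp ((-Real.log r1) * T) := by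
    have h9 : r1 ^ t = Real.exp (t * Real.log r1) := by
      rw [← Real.log_pow, Real.exp_log (by positivity)]
    rw [h9, ← Real.exp_neg]
    apply Real.exp_le_exp.mpr
    have h10 : Real.log r1 ≤ 0 := Real.log_nonpos hr10.le hr11
    have h11 : (t : ℝ) ≤ T := by exact_mod_cast htT
    nlinarith
  refine h6.trans ?_
  rw [div_eq_mul_inv]
  calc (t.factorial : ℝ) * Real.exp (n0 * Real.log (‖β‖ + r1) - n0 / 2 * Real.log n0 + e2
        - c * Real.log s1) * (r1 ^ t)⁻¹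
      ≤ Real.exp (V * Real.log T) * Real.exp (n0 * Real.log (‖β‖ + r1) - n0 / 2 * Real.log n0 + e2
        - c * Real.log s1) * Real.exp ((-Real.log r1) * T) := by gcongr
    _ = _ := by
      rw [← Real.exp_add, ← Real.exp_add]
      congr 1
      ring



private theorem MC_mulexp (p q a b : ℝ) (hp : p ≤ Real.exp a) (hq0 : 0 ≤ q)
    (hq : q ≤ Real.exp b) : p * q ≤ Real.exp (a + b) := by
  rw [Real.exp_add]
  exact mul_le_mul hp hq hq0 (Real.exp_pos _).le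

theorem mc (L : PeriodPair) {K : Type*} [Field K] [NumberField K] (ι : K →+* ℂ) (a b : 𝓞 K)
    (h2 : L.g₂ = -4 * oc ι a) (h3 : L.g₃ = -4 * oc ι b) (N0 : ℕ) (x : ℝ) (hx : 0 < x)
    (hD : GoodDen K (a : K) (b : K) N0)
    (hN : 4 * (Module.finrank ℚ K : ℝ) ≤ x * (N0 : ℝ) ^ 2)
    (hs : vs (Module.finrank ℚ K) N0 + vt (Module.finrank ℚ K) N0 x + x ≤ 1 / 16)
    (β : ℂ) (hβ : β ∉ L.lattice) :
    ∃ T0 : ℕ, ∀ T : ℕ, T0 ≤ T → ∃ p : ℕ → ℕ → ℕ → ℤ,
      (∀ i j k, |(p i j k : ℝ)| ≤ Real.exp (vs (Module.finrank ℚ K) N0 * T * Real.log T)) ∧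
      (∃ m : ℕ, (m : ℝ) ≤ vt (Module.finrank ℚ K) N0 x * T ∧
        MvPolynomial.eval (v4 L β) ((⇑(D4 (oc ι a)))^[m] (PP ℂ ⌊x * T⌋₊ N0 p)) ≠ 0) ∧
      ∀ t : ℕ, (t : ℝ) ≤ vt (Module.finrank ℚ K) N0 x * T →
        ‖MvPolynomial.eval (v4 L β) ((⇑(D4 (oc ι a)))^[t] (PP ℂ ⌊x * T⌋₊ N0 p))‖
          ≤ Real.exp (-(1 / 4) * T * Real.log T) := by
  classical
  have hκ : (1 : ℝ) ≤ (Module.finrank ℚ K : ℝ) := by
    exact_mod_cast (Module.finrank_pos : 0 < Module.finrank ℚ K)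
  have hN0 : 1 ≤ N0 := by
    rcases Nat.eq_zero_or_pos N0 with h | h
    · subst h
      norm_num at hN
      linarith
    · exact h
  have hN0' : (1 : ℝ) ≤ N0 := by exact_mod_cast hN0
  have hvs0 : 0 ≤ vs (Module.finrank ℚ K) N0 := by unfold vs; positivity
  have hvt0 : 0 ≤ vt (Module.finrank ℚ K) N0 x := by unfold vt; positivity
  have hvtdef : vt (Module.finrank ℚ K) N0 x =
      4 * (Module.finrank ℚ K : ℝ) * (vs (Module.finrank ℚ K) N0 + x) := rfl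
  have hsg0 := siegel K (a : K) (b : K) a.isIntegral_coe b.isIntegral_coe N0 x hx (by linarith) hN hD
  change ∃ T0 : ℕ, ∀ T : ℕ, T0 ≤ T → ∃ p : ℕ → ℕ → ℕ → ℤ,
      (∀ i j k, |(p i j k : ℝ)| ≤ Real.exp (vs (Module.finrank ℚ K) N0 * T * Real.log T)) ∧
      (∃ i < ⌊x * T⌋₊, ∃ j < N0, ∃ k < N0, p i j k ≠ 0) ∧
      ∀ n < T + 3 * N0, coeff n (FS (a : K) (b : K) ⌊x * T⌋₊ N0 p) = 0 at hsg0
  generalize hsdef : vs (Module.finrank ℚ K) N0 = s at *
  generalize hvdef : vt (Module.finrank ℚ K) N0 x = v at *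
  obtain ⟨Ts, hsg⟩ := hsg0
  obtain ⟨D, hDpos, hDdvd, ⟨CD, hCD0, hCD⟩, hDint⟩ := hD
  choose Cσ hCσ0 hCσ using fun σ : K →+* ℂ => coeff_GS_le (σ a) (σ b) N0
  obtain ⟨C2, hC20, hC2⟩ := nr_GS_le (oc ι a) (oc ι b) N0
  obtain ⟨Cw, Tw, hCw0, hw⟩ := wze L ι a b h2 h3 N0
  have hβ0 : β ≠ 0 := by
    rintro rfl
    exact hβ (zero_mem _)
  have hβpos : 0 < ‖β‖ := norm_pos_iff.mpr hβ0
  -- a disc around β
  obtain ⟨r1, hr10, hr11, hr1⟩ : ∃ r1 : ℝ, 0 < r1 ∧ r1 ≤ 1 ∧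
      ∀ z ∈ Metric.closedBall β r1, z ∉ L.lattice := by
    obtain ⟨ε, hε, h⟩ := Metric.isOpen_iff.mp (isOpen_compl L) β hβ
    refine ⟨min (ε / 2) 1, by positivity, min_le_right _ _, fun z hz => ?_⟩
    refine h (Metric.mem_ball.mpr (lt_of_le_of_lt (Metric.mem_closedBall.mp hz) ?_))
    exact (min_le_left _ _).trans_lt (by linarith)
  obtain ⟨s1, hs10, hs1⟩ : ∃ s1 : ℝ, 0 < s1 ∧
      ∀ z ∈ Metric.closedBall β r1, s1 ≤ ‖ev (SS (oc ι a) (oc ι b)) z‖ := by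
    have hc : ContinuousOn (fun z => ‖ev (SS (oc ι a) (oc ι b)) z‖) (Metric.closedBall β r1) :=
      (continuous_iff_continuousAt.mpr fun z =>
        (hasDerivAt_S (oc ι a) (oc ι b) z).continuousAt).norm.continuousOn
    obtain ⟨z0, hz0, hmin⟩ := (isCompact_closedBall β r1).exists_isMinOn
      ⟨β, Metric.mem_closedBall_self hr10.le⟩ hc
    refine ⟨_, norm_pos_iff.mpr fun h => ?_, fun z hz => hmin hz⟩
    exact hr1 z0 hz0 ((S_eq_zero_iff L (oc ι a) (oc ι b) h2 h3 z0).mp h)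
  have hopen : IsOpen {z : ℂ | z ∉ L.lattice} := isOpen_compl L
  have hFd : ∀ U : MvPolynomial (Fin 4) ℂ,
      DifferentiableOn ℂ (fun z => MvPolynomial.eval (v4 L z) U) {z : ℂ | z ∉ L.lattice} :=
    fun U z hz => (hasDerivAt_v4 L (oc ι a) (oc ι b) h2 h3 U hz).differentiableAt.differentiableWithinAt
  have hFa : ∀ U : MvPolynomial (Fin 4) ℂ,
      AnalyticAt ℂ (fun z => MvPolynomial.eval (v4 L z) U) β :=
    fun U => (hFd U).analyticAt (hopen.mem_nhds hβ)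
  have hFc : ∀ U : MvPolynomial (Fin 4) ℂ,
      DiffContOnCl ℂ (fun z => MvPolynomial.eval (v4 L z) U) (Metric.ball β r1) := fun U => by
    refine ((hFd U).mono ?_).diffContOnCl
    rw [closure_ball β hr10.ne']
    exact fun z hz => hr1 z hz
  have hSa : AnalyticAt ℂ (ev (SS (oc ι a) (oc ι b))) β := by
    have : Differentiable ℂ (ev (SS (oc ι a) (oc ι b))) :=
      fun z => (hasDerivAt_S (oc ι a) (oc ι b) z).differentiableAt
    exact this.analyticAt β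
  obtain ⟨C1, hCσsum, hCDC1, hC10⟩ : ∃ C1 : ℝ, (∀ σ, CD + Cσ σ ≤ C1) ∧ CD ≤ C1 ∧ 0 ≤ C1 := by
    have h4 := Finset.sum_nonneg (s := Finset.univ) (f := Cσ) (fun σ _ => hCσ0 σ)
    refine ⟨CD + ∑ σ, Cσ σ, fun σ => ?_, by linarith, by linarith⟩
    have := Finset.single_le_sum (f := Cσ) (fun σ _ => hCσ0 σ) (Finset.mem_univ σ)
    linarith
  have hA := MC_A (Module.finrank ℚ K) s x v Cw C1 C2 |Real.log (2 * ‖β‖)| N0 hκ hvs0 hx
    (by linarith) hvtdef hC10 hC20 hN0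
  have hB := MC_B s x v (|Real.log (‖β‖ + r1)| + C2) (-Real.log r1)
    (-((3 * N0 : ℕ) : ℝ) * Real.log s1) N0 hvs0 hx hvt0 (by linarith) (by positivity) hN0
  have hr : ∀ᶠ T : ℕ in atTop, (2 * ‖β‖ + 2) ^ 2 ≤ (T : ℝ) :=
    tendsto_natCast_atTop_atTop.eventually_ge_atTop _
  refine eventually_atTop.mp ?_
  filter_upwards [hA, hB, hr, eventually_ge_atTop Ts, eventually_ge_atTop Tw,
    eventually_ge_atTop 3] with T hA hB hr hTs hTw hT3
  have hTpos : (0 : ℝ) < T := by exact_mod_cast (by omega : 0 < T)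
  have hT1' : (1 : ℝ) ≤ T := by exact_mod_cast (by omega : 1 ≤ T)
  have hlogpos : 0 ≤ Real.log T := Real.log_nonneg hT1'
  obtain ⟨p, hp1, ⟨i0, hi0, j0, hj0, k0, hk0, hne⟩, hp3⟩ := hsg T hTs
  have hLzx : ((⌊x * T⌋₊ : ℕ) : ℝ) ≤ x * T := Nat.floor_le (by positivity)
  generalize ⌊x * (T : ℝ)⌋₊ = Lz at *
  have hLz1 : 1 ≤ Lz := by omega
  have hLz1' : (1 : ℝ) ≤ Lz := by exact_mod_cast hLz1
  have hLzT : Lz ≤ T := by
    have : (Lz : ℝ) ≤ T := hLzx.trans (mul_le_of_le_one_left hTpos.le (by linarith))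
    exact_mod_cast this
  have hp1' : ∀ i j k, |(p i j k : ℝ)| ≤ Real.exp (T * Real.log T) := fun i j k => by
    refine (hp1 i j k).trans (Real.exp_le_exp.mpr ?_)
    have h4 : s ≤ 1 := by linarith
    calc s * T * Real.log T = s * (T * Real.log T) := by ring
      _ ≤ T * Real.log T := mul_le_of_le_one_left (by positivity) h4
  obtain ⟨n0, hn0le, hn0ne, hn0z⟩ := hw T hTw Lz hLzT p hp1' ⟨i0, hi0, j0, hj0, k0, hk0, hne⟩
  -- transfer to K
  have hmap : ∀ (σ : K →+* ℂ) (n : ℕ), coeff n (GS (σ a) (σ b) Lz N0 p) =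
      σ (coeff n (GS (a : K) (b : K) Lz N0 p)) := fun σ n => by
    rw [← map_GS, coeff_map]
  have hzK : ∀ k < n0, coeff k (GS (a : K) (b : K) Lz N0 p) = 0 := fun k hk => by
    have h4 := hn0z k hk
    have h5 := hmap ι k
    exact (map_eq_zero ι).mp (h5.symm.trans h4)
  have hzF := (coeff_GS_zero_iff (a : K) (b : K) Lz N0 p n0).mp hzK
  have hcoF := coeff_GS_eq (a : K) (b : K) Lz N0 p n0 hzF
  have hneK : coeff n0 (GS (a : K) (b : K) Lz N0 p) ≠ 0 := fun h => by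
    apply hn0ne
    have h5 := hmap ι n0
    rw [h, map_zero] at h5
    exact h5
  have hn0T : T ≤ n0 := by
    by_contra hcon
    apply hneK
    rw [hcoF]
    exact hp3 n0 (by omega)
  have hn0T' : (T : ℝ) ≤ n0 := by exact_mod_cast hn0T
  have hn0pos : (0 : ℝ) < n0 := by linarith
  obtain ⟨hA1, hA2⟩ := hA n0 Lz hn0T hn0le hLz1 hLzx
  have hB1 := hB n0 Lz hn0T hLz1 hLzx
  have hLN : (0 : ℝ) < Lz * (N0 : ℝ) ^ 2 := by positivity
  have hDpos' : (0 : ℝ) < D n0 := by exact_mod_cast hDpos n0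
  have hDb : (D n0 : ℝ) ≤ Real.exp (1 / 2 * n0 * Real.log n0 + CD * n0 + CD) :=
    (Real.log_le_iff_le_exp hDpos').mp (hCD n0)
  have hyi := MC_integral (a : K) (b : K) N0 D hDdvd hDint Lz p n0
  have hyne : (D n0 : K) * coeff n0 (FS (a : K) (b : K) Lz N0 p) ≠ 0 := by
    rw [← hcoF]
    refine mul_ne_zero ?_ hneK
    exact_mod_cast (hDpos n0).ne'
  have hσy : ∀ σ : K →+* ℂ, ‖σ ((D n0 : K) * coeff n0 (FS (a : K) (b : K) Lz N0 p))‖ =
      D n0 * ‖coeff n0 (GS (σ a) (σ b) Lz N0 p)‖ := fun σ => by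
    rw [← hcoF, map_mul, map_natCast, norm_mul, hmap, Complex.norm_natCast]
  have hbound : ∀ σ : K →+* ℂ,
      ‖σ ((D n0 : K) * coeff n0 (FS (a : K) (b : K) Lz N0 p))‖ ≤
      Real.exp (s * T * Real.log T + Real.log (Lz * (N0 : ℝ) ^ 2)
        + (Lz / 2) * Real.log (n0 + 1) + C1 * (n0 + 1)) := fun σ => by
    rw [hσy]
    have h4 := hCσ σ Lz p _ (Real.exp_pos _).le hp1 n0
    rw [← Real.exp_log hLN, ← Real.exp_add, ← Real.exp_add] at h4
    refine (MC_mulexp _ _ _ _ hDb (norm_nonneg _) h4).trans (Real.exp_le_exp.mpr ?_)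
    have h5 : (CD + Cσ σ) * ((n0 : ℝ) + 1) ≤ C1 * (n0 + 1) :=
      mul_le_mul_of_nonneg_right (hCσsum σ) (by positivity)
    linarith
  have hliou := liouville K _ hyi hyne _ hbound ι
  rw [hσy] at hliou
  change _ ≤ (D n0 : ℝ) * ‖coeff n0 (GS (oc ι a) (oc ι b) Lz N0 p)‖ at hliou
  rw [neg_mul] at hliou
  -- the radius √n0
  obtain ⟨r, hrsq⟩ : ∃ r : ℝ≥0, (r : ℝ) ^ 2 = n0 :=
    ⟨NNReal.sqrt n0, by norm_cast; exact NNReal.sq_sqrt _⟩
  have hrbig : 2 * ‖β‖ + 2 ≤ r := by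
    refine le_of_sq_le_sq ?_ r.coe_nonneg
    rw [hrsq]
    exact hr.trans hn0T'
  have hr1le : (1 : ℝ) ≤ r := by linarith
  have hEnt := Ent_GS (oc ι a) (oc ι b) Lz N0 p
  have hnr : (nr r (GS (oc ι a) (oc ι b) Lz N0 p)).toReal ≤
      Real.exp (s * T * Real.log T + Real.log (Lz * (N0 : ℝ) ^ 2) +
        Lz / 2 * Real.log n0 + C2 * (n0 + 1)) := by
    have h4 := hC2 Lz p _ (Real.exp_pos _).le hp1 r
    refine (ENNReal.toReal_mono ENNReal.ofReal_ne_top h4).trans ?_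
    rw [ENNReal.toReal_ofReal (by positivity), max_eq_right hr1le, hrsq,
      MC_rpow r n0 (by linarith) hrsq, ← Real.exp_log hLN, ← Real.exp_add, ← Real.exp_add,
      ← Real.exp_add, Real.exp_log hLN]
    apply le_of_eq
    congr 1
    ring
  have hlink : ∀ z, z ∉ L.lattice → ev (GS (oc ι a) (oc ι b) Lz N0 p) z =
      ev (SS (oc ι a) (oc ι b)) z ^ (3 * N0) * MvPolynomial.eval (v4 L z) (PP ℂ Lz N0 p) :=
    fun z hz => (link_GS L (oc ι a) (oc ι b) h2 h3 Lz N0 p hz).symm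
  have hC1C : CD * (n0 + 1) ≤ C1 * ((n0 : ℝ) + 1) :=
    mul_le_mul_of_nonneg_right hCDC1 (by positivity)
  have hlogn1 : (Lz : ℝ) / 2 * Real.log n0 ≤ Lz / 2 * Real.log (n0 + 1) :=
    mul_le_mul_of_nonneg_left (Real.log_le_log hn0pos (by linarith)) (by positivity)
  refine ⟨p, hp1, ?_, fun t ht => ?_⟩
  · obtain ⟨m, hm1, hm2⟩ := MC_m (GS (oc ι a) (oc ι b) Lz N0 p) hEnt
      (fun z => MvPolynomial.eval (v4 L z) (PP ℂ Lz N0 p)) (ev (SS (oc ι a) (oc ι b))) β hβ0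
      (3 * N0) n0 r (D n0) _ (v * T) _ _ |Real.log (2 * ‖β‖)| hn0z hDpos' hliou hDb
      (by linarith) hrsq hnr (hFa _) hSa
      (by filter_upwards [hopen.mem_nhds hβ] with z hz using hlink z hz)
      (le_abs_self _) hA2 (by positivity) (by linarith)
    refine ⟨m, hm1, ?_⟩
    rw [iteratedDeriv_v4 L (oc ι a) (oc ι b) h2 h3 _ m hβ] at hm2
    exact hm2
  · have htT : t ≤ T := by
      have : (t : ℝ) ≤ T := ht.trans (mul_le_of_le_one_left hTpos.le (by linarith))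
      exact_mod_cast this
    have h4 := MC_val (GS (oc ι a) (oc ι b) Lz N0 p) hEnt
      (fun z => MvPolynomial.eval (v4 L z) (PP ℂ Lz N0 p)) (ev (SS (oc ι a) (oc ι b))) β
      (3 * N0) n0 t T r r1 s1 _ (v * T) hn0z hr10 hr11 hs10 (by linarith) hrsq hnr (hFc _)
      (fun z hz => hlink z (hr1 z (Metric.sphere_subset_closedBall hz)))
      (fun z hz => hs1 z (Metric.sphere_subset_closedBall hz)) (by omega) ht htT
    rw [iteratedDeriv_v4 L (oc ι a) (oc ι b) h2 h3 _ t hβ] at h4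
    refine h4.trans (Real.exp_le_exp.mpr ?_)
    have h5 : (n0 : ℝ) * Real.log (‖β‖ + r1) ≤ |Real.log (‖β‖ + r1)| * (n0 + 1) := by
      have h6 := mul_le_mul_of_nonneg_left (le_abs_self (Real.log (‖β‖ + r1))) hn0pos.le
      have h7 := abs_nonneg (Real.log (‖β‖ + r1))
      linarith
    linarith

end Pool.Agent.ZCM
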