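import Pool.Agent.ZCM.Chain

/-! # P2b: pole order and degrees -/

namespace Pool.Agent.ZCM
open Polynomial Filter Topology Asymptotics

theorem PoleDeg_P (L : PeriodPair) :
    Tendsto (fun u => L.weierstrassP u * u ^ 2) (𝓝[≠] (0 : ℂ)) (𝓝 1) := by
  have hd : ContinuousAt (L.weierstrassPExcept 0) 0 :=
    ((L.differentiableOn_weierstrassPExcept 0).continuousOn).continuousAt
      (L.compl_lattice_sdiff_singleton_mem_nhds 0)
  have h1 : Tendsto (fun u => L.weierstrassPExcept 0 u * u ^ 2 + 1) (𝓝[≠] (0 : ℂ)) (𝓝 1) := by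
    have h : Tendsto (fun u => L.weierstrassPExcept 0 u * u ^ 2 + 1) (𝓝 (0 : ℂ))
        (𝓝 (L.weierstrassPExcept 0 0 * 0 ^ 2 + 1)) :=
      (hd.mul (continuousAt_id.pow 2)).add continuousAt_const
    simp only [ne_eq, OfNat.ofNat_ne_zero, not_false_eq_true, zero_pow, mul_zero, zero_add] at h
    exact h.mono_left nhdsWithin_le_nhds
  refine h1.congr' ?_
  filter_upwards [self_mem_nhdsWithin] with u hu
  have hu' : u ≠ 0 := hu
  have h2 := L.weierstrassPExcept_def 0 u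
  simp only [ZeroMemClass.coe_zero, ne_eq, OfNat.ofNat_ne_zero, not_false_eq_true, zero_pow,
    div_zero, sub_zero, zero_sub] at h2
  rw [h2]
  field_simp
  ring

theorem PoleDeg_y (L : PeriodPair) :
    Tendsto (fun u => L.derivWeierstrassP u / 2 * u ^ 3) (𝓝[≠] (0 : ℂ)) (𝓝 (-1)) := by
  have hd : ContinuousAt (L.derivWeierstrassPExcept 0) 0 :=
    ((L.differentiableOn_derivWeierstrassPExcept 0).continuousOn).continuousAt
      (L.compl_lattice_sdiff_singleton_mem_nhds 0)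
  have h1 : Tendsto (fun u => L.derivWeierstrassPExcept 0 u / 2 * u ^ 3 + (-1)) (𝓝[≠] (0 : ℂ))
      (𝓝 (-1)) := by
    have h : Tendsto (fun u => L.derivWeierstrassPExcept 0 u / 2 * u ^ 3 + (-1)) (𝓝 (0 : ℂ))
        (𝓝 (L.derivWeierstrassPExcept 0 0 / 2 * 0 ^ 3 + (-1))) :=
      ((hd.div_const 2).mul (continuousAt_id.pow 3)).add continuousAt_const
    simp only [ne_eq, OfNat.ofNat_ne_zero, not_false_eq_true, zero_pow, mul_zero, zero_add] at h
    exact h.mono_left nhdsWithin_le_nhds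
  refine h1.congr' ?_
  filter_upwards [self_mem_nhdsWithin] with u hu
  have hu' : u ≠ 0 := hu
  have h2 := L.derivWeierstrassPExcept_def 0 u
  simp only [ZeroMemClass.coe_zero, sub_zero] at h2
  rw [h2]
  field_simp
  ring

theorem PoleDeg_poly (P : ℂ → ℂ) (hP : Tendsto (fun u => P u * u ^ 2) (𝓝[≠] (0 : ℂ)) (𝓝 1))
    (A : ℂ[X]) (n : ℕ) (hn : A.natDegree ≤ n) :
    Tendsto (fun u => A.eval (P u) * u ^ (2 * n)) (𝓝[≠] (0 : ℂ)) (𝓝 (A.coeff n)) := by
  have h0 : Tendsto (fun u : ℂ => u ^ 2) (𝓝[≠] (0 : ℂ)) (𝓝 0) := by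
    have h : Tendsto (fun u : ℂ => u ^ 2) (𝓝 (0 : ℂ)) (𝓝 (0 ^ 2)) := (continuous_pow 2).tendsto 0
    rw [zero_pow two_ne_zero] at h
    exact h.mono_left nhdsWithin_le_nhds
  have h1 : ∀ u, A.eval (P u) * u ^ (2 * n)
      = ∑ i ∈ Finset.range (n + 1), A.coeff i * (P u * u ^ 2) ^ i * (u ^ 2) ^ (n - i) := by
    intro u
    rw [Polynomial.eval_eq_sum_range' (Nat.lt_succ_of_le hn), Finset.sum_mul]
    refine Finset.sum_congr rfl fun i hi => ?_
    have hi' : i ≤ n := Nat.lt_succ_iff.1 (Finset.mem_range.1 hi)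
    have h2 : u ^ (2 * n) = (u ^ 2) ^ i * (u ^ 2) ^ (n - i) := by
      rw [← pow_add, ← pow_mul, Nat.add_sub_of_le hi']
    rw [h2, mul_pow]
    ring
  have h3 : A.coeff n
      = ∑ i ∈ Finset.range (n + 1), A.coeff i * (1 : ℂ) ^ i * (0 : ℂ) ^ (n - i) := by
    rw [Finset.sum_eq_single n]
    · simp
    · intro i hi hne
      have hi' : i ≤ n := Nat.lt_succ_iff.1 (Finset.mem_range.1 hi)
      have : n - i ≠ 0 := by omega
      rw [zero_pow this, mul_zero]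
    · intro h
      exact absurd (Finset.mem_range.2 (Nat.lt_succ_self n)) h
  rw [h3]
  refine (tendsto_finsetSum _ fun i _ => ?_).congr fun u => (h1 u).symm
  exact (tendsto_const_nhds.mul (hP.pow i)).mul (h0.pow _)

/-- the leading behaviour -/
theorem PoleDeg_lead (L : PeriodPair) (A B : ℂ[X]) (hAB : ¬ (A = 0 ∧ B = 0)) :
    ∃ (k : ℕ) (γ : ℂ), γ ≠ 0 ∧ 2 * A.natDegree ≤ k ∧ (B ≠ 0 → 2 * B.natDegree + 3 ≤ k) ∧
      Tendsto (fun u => (A.eval (L.weierstrassP u) + B.eval (L.weierstrassP u) *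
      (L.derivWeierstrassP u / 2)) * u ^ k) (𝓝[≠] (0 : ℂ)) (𝓝 γ) := by
  have hP := PoleDeg_P L
  have hy := PoleDeg_y L
  have hA := PoleDeg_poly _ hP A _ le_rfl
  have hB := PoleDeg_poly _ hP B _ le_rfl
  have hpow : ∀ j : ℕ, 0 < j → Tendsto (fun u : ℂ => u ^ j) (𝓝[≠] (0 : ℂ)) (𝓝 0) := by
    intro j hj
    have h : Tendsto (fun u : ℂ => u ^ j) (𝓝 (0 : ℂ)) (𝓝 (0 ^ j)) := (continuous_pow j).tendsto 0
    rw [zero_pow hj.ne'] at h
    exact h.mono_left nhdsWithin_le_nhds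
  by_cases hB0 : B = 0
  · have hA0 : A ≠ 0 := fun h => hAB ⟨h, hB0⟩
    refine ⟨2 * A.natDegree, A.leadingCoeff, leadingCoeff_ne_zero.2 hA0, le_rfl,
      fun h => absurd hB0 h, ?_⟩
    simp only [hB0, eval_zero, zero_mul, add_zero]
    exact hA
  by_cases hlt : 2 * B.natDegree + 3 < 2 * A.natDegree
  · have hA0 : A ≠ 0 := by
      rintro rfl
      simp at hlt
    refine ⟨2 * A.natDegree, A.leadingCoeff, leadingCoeff_ne_zero.2 hA0, le_rfl,
      fun _ => hlt.le, ?_⟩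
    obtain ⟨j, hj⟩ : ∃ j, 2 * A.natDegree = 2 * B.natDegree + 3 + j :=
      ⟨2 * A.natDegree - (2 * B.natDegree + 3), by omega⟩
    have hj0 : 0 < j := by omega
    have h := hA.add ((hB.mul hy).mul (hpow j hj0))
    rw [mul_zero, add_zero] at h
    refine h.congr fun u => ?_
    rw [add_mul]
    congr 1
    rw [hj, pow_add, pow_add]
    ring
  · have hlt' : 2 * A.natDegree < 2 * B.natDegree + 3 := by omega
    refine ⟨2 * B.natDegree + 3, B.leadingCoeff * (-1),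
      mul_ne_zero (leadingCoeff_ne_zero.2 hB0) (by norm_num), hlt'.le, fun _ => le_rfl, ?_⟩
    obtain ⟨j, hj⟩ : ∃ j, 2 * B.natDegree + 3 = 2 * A.natDegree + j :=
      ⟨2 * B.natDegree + 3 - 2 * A.natDegree, by omega⟩
    have hj0 : 0 < j := by omega
    have h := (hA.mul (hpow j hj0)).add (hB.mul hy)
    rw [mul_zero, zero_add] at h
    refine h.congr fun u => ?_
    rw [add_mul]
    congr 1
    · rw [hj, pow_add]
      ring
    · rw [pow_add]
      ring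

theorem pole_deg (L : PeriodPair) (a b : ℂ) (h2 : L.g₂ = -4 * a) (h3 : L.g₃ = -4 * b)
    (A B : ℂ[X]) (d : ℕ)
    (h : (fun u => A.eval (L.weierstrassP u) + B.eval (L.weierstrassP u) *
      (L.derivWeierstrassP u / 2)) =O[𝓝[≠] (0 : ℂ)] fun u => u ^ (-(d : ℤ))) :
    2 * A.natDegree ≤ d ∧ (B ≠ 0 → 2 * B.natDegree + 3 ≤ d) := by
  by_cases hAB : A = 0 ∧ B = 0
  · obtain ⟨rfl, rfl⟩ := hAB
    simp
  obtain ⟨k, γ, hγ, hk1, hk2, hlim⟩ := PoleDeg_lead L A B hAB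
  suffices hkd : k ≤ d from ⟨hk1.trans hkd, fun hB => (hk2 hB).trans hkd⟩
  by_contra hcon
  have hlt : d < k := not_le.1 hcon
  have h1 : (fun u => (A.eval (L.weierstrassP u) + B.eval (L.weierstrassP u) *
      (L.derivWeierstrassP u / 2)) * u ^ k) =O[𝓝[≠] (0 : ℂ)] fun u => u ^ (k - d) := by
    have h4 := h.mul (isBigO_refl (fun u : ℂ => u ^ k) (𝓝[≠] (0 : ℂ)))
    refine h4.congr' (EventuallyEq.refl _ _) ?_
    filter_upwards [self_mem_nhdsWithin] with u hu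
    have hu' : u ≠ 0 := hu
    rw [← zpow_natCast, ← zpow_natCast, ← zpow_add₀ hu']
    congr 1
    have : ((k - d : ℕ) : ℤ) = (k : ℤ) - d := by omega
    rw [this]
    ring
  have h5 : Tendsto (fun u : ℂ => u ^ (k - d)) (𝓝[≠] (0 : ℂ)) (𝓝 0) := by
    have h6 : Tendsto (fun u : ℂ => u ^ (k - d)) (𝓝 (0 : ℂ)) (𝓝 (0 ^ (k - d))) :=
      (continuous_pow (k - d)).tendsto 0
    rw [zero_pow (by omega)] at h6
    exact h6.mono_left nhdsWithin_le_nhds
  exact hγ (tendsto_nhds_unique hlim (h1.trans_tendsto h5))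

theorem pole_zero (L : PeriodPair) (a b : ℂ) (h2 : L.g₂ = -4 * a) (h3 : L.g₃ = -4 * b)
    (A B : ℂ[X])
    (h : ∀ᶠ u in 𝓝[≠] (0 : ℂ), A.eval (L.weierstrassP u) + B.eval (L.weierstrassP u) *
      (L.derivWeierstrassP u / 2) = 0) : A = 0 ∧ B = 0 := by
  by_contra hAB
  obtain ⟨k, γ, hγ, hk1, hk2, hlim⟩ := PoleDeg_lead L A B hAB
  refine hγ (tendsto_nhds_unique hlim ?_)
  refine Tendsto.congr' ?_ tendsto_const_nhds
  filter_upwards [h] with u hu
  rw [hu, zero_mul]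

end Pool.Agent.ZCM
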