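import Pool.Agent.ZCM.Curve
import Pool.Agent.ZCM.Reduce
import Pool.Agent.ZCM.PoleDeg
import Pool.Agent.ZCM.MC

/-! # P2: the pairs `(A,B)` -/

namespace Pool.Agent.ZCM
open Polynomial NumberField Filter Topology Asymptotics

/-- common denominator -/
theorem CurvePoly_den {K : Type*} [Field K] [NumberField K] (β c : K) :
    ∃ M0 : ℕ, 0 < M0 ∧ IsIntegral ℤ ((M0 : K) * β) ∧ IsIntegral ℤ ((M0 : K) * c) := by
  have h : ∀ z : K, ∃ n : ℕ, 0 < n ∧ IsIntegral ℤ ((n : K) * z) := by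
    intro z
    have hz : IsAlgebraic ℤ z := by
      have h1 : IsAlgebraic ℚ z := Algebra.IsAlgebraic.isAlgebraic z
      exact (IsFractionRing.isAlgebraic_iff ℤ ℚ K).2 h1
    obtain ⟨y, hy0, hy⟩ := hz.exists_integral_multiple
    refine ⟨y.natAbs, Int.natAbs_pos.2 hy0, ?_⟩
    rcases Int.natAbs_eq y with h | h
    · have e : (y.natAbs : K) * z = y • z := by
        rw [zsmul_eq_mul]
        conv_rhs => rw [h]
        simp
      rw [e]; exact hy
    · have e : (y.natAbs : K) * z = -(y • z) := by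
        rw [zsmul_eq_mul]
        conv_rhs => rw [h]
        simp
      rw [e]; exact hy.neg
  obtain ⟨n, hn, hn'⟩ := h β
  obtain ⟨k, hk, hk'⟩ := h c
  have hint : ∀ j : ℕ, IsIntegral ℤ (j : K) := fun j => by
    simpa using (isIntegral_algebraMap (R := ℤ) (A := K) (x := (j : ℤ)))
  refine ⟨n * k, Nat.mul_pos hn hk, ?_, ?_⟩
  · have e : ((n * k : ℕ) : K) * β = (k : K) * ((n : K) * β) := by push_cast; ring
    rw [e]; exact (hint k).mul hn'
  · have e : ((n * k : ℕ) : K) * c = (n : K) * ((k : K) * c) := by push_cast; ring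
    rw [e]; exact (hint n).mul hk'

/-- the size estimate -/
theorem CurvePoly_size (A0 Cr s θ x : ℝ) (N0 : ℕ) (hA : 0 ≤ A0) (hCr : 0 ≤ Cr) (hx : 0 < x)
    (hθ : 0 ≤ θ) : ∃ C : ℝ, 0 ≤ C ∧ ∀ T : ℕ, 1 ≤ T → ∀ Lz t : ℕ, (Lz : ℝ) ≤ x * T →
      (t : ℝ) ≤ θ * T →
      ((3 + A0) * (((Lz + 2 * N0 : ℕ) : ℝ) + t)) ^ t * (Real.exp (s * T * Real.log T) *
        (Lz * (N0 : ℝ) ^ 2)) * Real.exp (Cr * (Lz + N0 + ((Lz + 2 * N0 + t : ℕ) : ℝ) + 1)) ≤
      Real.exp ((s + θ) * T * Real.log T + C * T) := by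
  set B : ℝ := (3 + A0) * (x + 2 * N0 + θ) + 1 with hB
  have hN : (0 : ℝ) ≤ N0 := Nat.cast_nonneg _
  have hB1 : 1 ≤ B := by
    have : 0 ≤ (3 + A0) * (x + 2 * N0 + θ) := by positivity
    linarith
  have hlB : 0 ≤ Real.log B := Real.log_nonneg hB1
  refine ⟨θ * Real.log B + x * (N0 : ℝ) ^ 2 + Cr * (2 * x + 3 * N0 + θ + 1), by positivity, ?_⟩
  intro T hT Lz t hL ht
  have hT1 : (1 : ℝ) ≤ T := by exact_mod_cast hT
  have hT0 : (0 : ℝ) < T := by linarith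
  have hlT : 0 ≤ Real.log T := Real.log_nonneg hT1
  have hbase : (3 + A0) * (((Lz + 2 * N0 : ℕ) : ℝ) + t) ≤ B * T := by
    have h1 : ((Lz + 2 * N0 : ℕ) : ℝ) + t ≤ (x + 2 * N0 + θ) * T := by
      push_cast
      nlinarith
    have h2 : (3 + A0) * (((Lz + 2 * N0 : ℕ) : ℝ) + t) ≤ (3 + A0) * ((x + 2 * N0 + θ) * T) :=
      mul_le_mul_of_nonneg_left h1 (by positivity)
    calc _ ≤ (3 + A0) * ((x + 2 * N0 + θ) * T) := h2
      _ ≤ B * T := by rw [hB]; nlinarith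
  have hBT : 1 ≤ B * T := by nlinarith
  have e1 : ((3 + A0) * (((Lz + 2 * N0 : ℕ) : ℝ) + t)) ^ t ≤
      Real.exp (θ * T * (Real.log B + Real.log T)) := by
    calc ((3 + A0) * (((Lz + 2 * N0 : ℕ) : ℝ) + t)) ^ t ≤ (B * T) ^ t :=
          pow_le_pow_left₀ (by positivity) hbase t
      _ = Real.exp (t * Real.log (B * T)) := by
          rw [← Real.log_pow, Real.exp_log (by positivity)]
      _ ≤ Real.exp (θ * T * (Real.log B + Real.log T)) := by
          apply Real.exp_le_exp.2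
          rw [Real.log_mul (by positivity) (by positivity)]
          exact mul_le_mul_of_nonneg_right ht (by positivity)
  have e2 : (Lz : ℝ) * (N0 : ℝ) ^ 2 ≤ Real.exp (x * (N0 : ℝ) ^ 2 * T) := by
    have h1 : (Lz : ℝ) * (N0 : ℝ) ^ 2 ≤ x * (N0 : ℝ) ^ 2 * T := by
      have : (Lz : ℝ) * (N0 : ℝ) ^ 2 ≤ x * T * (N0 : ℝ) ^ 2 :=
        mul_le_mul_of_nonneg_right hL (by positivity)
      linarith
    have h2 := Real.add_one_le_exp (x * (N0 : ℝ) ^ 2 * T)
    linarith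
  have e3 : Cr * (Lz + N0 + ((Lz + 2 * N0 + t : ℕ) : ℝ) + 1) ≤
      Cr * (2 * x + 3 * N0 + θ + 1) * T := by
    have h1 : (Lz : ℝ) + N0 + ((Lz + 2 * N0 + t : ℕ) : ℝ) + 1 ≤ (2 * x + 3 * N0 + θ + 1) * T := by
      push_cast
      nlinarith
    have h2 := mul_le_mul_of_nonneg_left h1 hCr
    linarith
  calc _ ≤ Real.exp (θ * T * (Real.log B + Real.log T)) * (Real.exp (s * T * Real.log T) *
        Real.exp (x * (N0 : ℝ) ^ 2 * T)) * Real.exp (Cr * (2 * x + 3 * N0 + θ + 1) * T) := by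
        apply mul_le_mul _ (Real.exp_le_exp.2 e3) (Real.exp_pos _).le (by positivity)
        apply mul_le_mul e1 _ (by positivity) (Real.exp_pos _).le
        exact mul_le_mul_of_nonneg_left e2 (Real.exp_pos _).le
    _ = _ := by
        rw [← Real.exp_add, ← Real.exp_add, ← Real.exp_add]
        congr 1
        ring

/-- output of the main construction on the curve `{β} × E × {c}` -/
theorem curve_poly (L : PeriodPair) {K : Type*} [Field K] [NumberField K] (ι : K →+* ℂ)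
    (a b : 𝓞 K) (h2 : L.g₂ = -4 * oc ι a) (h3 : L.g₃ = -4 * oc ι b) (N0 : ℕ) (x : ℝ)
    (hx : 0 < x) (hD : GoodDen K (a : K) (b : K) N0)
    (hN : 4 * (Module.finrank ℚ K : ℝ) ≤ x * (N0 : ℝ) ^ 2)
    (hs : vs (Module.finrank ℚ K) N0 + vt (Module.finrank ℚ K) N0 x + x ≤ 1 / 16)
    (β c : K) (hβ : ι β ∉ L.lattice) (hc : zetaL L (ι β) = ι c) :
    ∃ (C : ℝ) (T0 : ℕ), 0 ≤ C ∧ ∀ T : ℕ, T0 ≤ T → ∃ A B : (𝓞 K)[X],
      ¬ (A = 0 ∧ B = 0) ∧ 2 * A.natDegree ≤ 4 * N0 ∧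
      (B ≠ 0 → 2 * B.natDegree + 3 ≤ 4 * N0) ∧
      (∀ σ : K →+* ℂ, nm1 (A.map (oc σ)) ≤ Real.exp
          ((vs (Module.finrank ℚ K) N0 + vt (Module.finrank ℚ K) N0 x) * T * Real.log T + C * T) ∧
        nm1 (B.map (oc σ)) ≤ Real.exp
          ((vs (Module.finrank ℚ K) N0 + vt (Module.finrank ℚ K) N0 x) * T * Real.log T + C * T)) ∧
      ‖(A.map (oc ι)).eval (L.weierstrassP (ι β)) + (B.map (oc ι)).eval (L.weierstrassP (ι β)) *
        (L.derivWeierstrassP (ι β) / 2)‖ ≤ Real.exp (-(1 / 4) * T * Real.log T + C * T) := by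
  classical
  obtain ⟨M0, hM0, hMβ, hMc⟩ := CurvePoly_den β c
  obtain ⟨Cr, hCr, hred⟩ := reduce a b β c M0 hM0 hMβ hMc
  obtain ⟨T1, hmc⟩ := mc L ι a b h2 h3 N0 x hx hD hN hs (ι β) hβ
  set s := vs (Module.finrank ℚ K) N0 with hs_def
  set θ := vt (Module.finrank ℚ K) N0 x with hθ_def
  have hs0 : 0 ≤ s := by rw [hs_def]; unfold vs; positivity
  have hθ0 : 0 ≤ θ := by rw [hθ_def]; unfold vt; positivity
  set A0 : ℝ := ∑ σ : K →+* ℂ, ‖oc σ a‖ with hA0
  have hA0' : 0 ≤ A0 := Finset.sum_nonneg fun σ _ => norm_nonneg _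
  have hσA : ∀ σ : K →+* ℂ, ‖oc σ a‖ ≤ A0 := fun σ =>
    Finset.single_le_sum (f := fun σ : K →+* ℂ => ‖oc σ a‖) (fun σ _ => norm_nonneg _)
      (Finset.mem_univ σ)
  obtain ⟨C1, hC1, hsize⟩ := CurvePoly_size A0 Cr s θ x N0 hA0' hCr hx hθ0
  set C2 : ℝ := Real.log M0 * (x + N0) with hC2
  have hlM : 0 ≤ Real.log M0 := Real.log_nonneg (by exact_mod_cast hM0)
  have hC2' : 0 ≤ C2 := by positivity
  refine ⟨C1 + C2, max T1 1, by positivity, ?_⟩
  intro T hT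
  have hTT1 : T1 ≤ T := le_trans (le_max_left _ _) hT
  have hT1 : 1 ≤ T := le_trans (le_max_right _ _) hT
  have hT1' : (1 : ℝ) ≤ T := by exact_mod_cast hT1
  obtain ⟨p, hp, ⟨m, hm, hm0⟩, hval⟩ := hmc T hTT1
  set Lz := ⌊x * T⌋₊ with hLz
  have hLz' : (Lz : ℝ) ≤ x * T := Nat.floor_le (by positivity)
  have hvv : v4 L (ι β) = vc L (ι β) (ι c) (ι β) := by
    unfold v4 vc; rw [hc]
  -- the first non vanishing derivative
  have hex : ∃ t : ℕ, ¬ ∀ u, u ∉ L.lattice →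
      MvPolynomial.eval (vc L (ι β) (ι c) u) ((⇑(D4 (oc ι a)))^[t] (PP ℂ Lz N0 p)) = 0 := by
    refine ⟨m, fun h => hm0 ?_⟩
    rw [hvv]
    exact h _ hβ
  have hmt : Nat.find hex ≤ m := Nat.find_min' hex (fun h => hm0 (by rw [hvv]; exact h _ hβ))
  have hspec := Nat.find_spec hex
  have hmin : ∀ t' < Nat.find hex, ∀ u, u ∉ L.lattice →
      MvPolynomial.eval (vc L (ι β) (ι c) u) ((⇑(D4 (oc ι a)))^[t'] (PP ℂ Lz N0 p)) = 0 := by
    intro t' ht'
    have := Nat.find_min hex ht'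
    push Not at this
    exact this
  revert hmt hspec hmin
  generalize Nat.find hex = t
  intro hmt hspec hmin
  have ht : (t : ℝ) ≤ θ * T := le_trans (by exact_mod_cast hmt) hm
  have hpole := curve_pole L (oc ι a) (oc ι b) h2 h3 N0 Lz p (ι β) (ι c) t hmin
  -- the polynomial over the ring of integers
  set g : MvPolynomial (Fin 4) (𝓞 K) := (⇑(D4 a))^[t] (PP (𝓞 K) Lz N0 p) with hg
  have hmap : ∀ σ : K →+* ℂ, MvPolynomial.map (oc σ) g =
      (⇑(D4 (oc σ a)))^[t] (PP ℂ Lz N0 p) := by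
    intro σ
    rw [hg, map_D4_iterate, map_PP]
  set H : ℝ := ((3 + A0) * (((Lz + 2 * N0 : ℕ) : ℝ) + t)) ^ t *
    (Real.exp (s * T * Real.log T) * (Lz * (N0 : ℝ) ^ 2)) with hH
  have hH0 : 0 ≤ H := by positivity
  have hgH : ∀ σ : K →+* ℂ, nm (MvPolynomial.map (oc σ) g) ≤ H := by
    intro σ
    rw [hmap σ]
    refine le_trans (nm_D4_iterate_le _ _ t) ?_
    have hd : ((PP ℂ Lz N0 p).totalDegree : ℝ) ≤ ((Lz + 2 * N0 : ℕ) : ℝ) := by
      exact_mod_cast totalDegree_PP_le (R := ℂ) Lz N0 p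
    apply mul_le_mul _ (nm_PP_le Lz N0 p _ (Real.exp_pos _).le hp) (nm_nonneg _) (by positivity)
    apply pow_le_pow_left₀ (by positivity)
    apply mul_le_mul _ (by linarith) (by positivity) (by positivity)
    linarith [hσA σ]
  obtain ⟨A, B, hAB, hnm⟩ := hred Lz N0 (Lz + 2 * N0 + t) g H
    (le_trans (degreeOf_zero_D4_iterate_le _ _ _) (degreeOf_zero_PP_le _ _ _))
    (le_trans (degreeOf_three_D4_iterate_le _ _ _) (degreeOf_three_PP_le _ _ _))
    (le_trans (totalDegree_D4_iterate_le _ _ _) (Nat.add_le_add_right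
      (totalDegree_PP_le _ _ _) _)) hH0 hgH
  have hM0' : (M0 : ℂ) ≠ 0 := by exact_mod_cast hM0.ne'
  have hkey : ∀ u, u ∉ L.lattice → (A.map (oc ι)).eval (L.weierstrassP u) +
      (B.map (oc ι)).eval (L.weierstrassP u) * (L.derivWeierstrassP u / 2) =
      (M0 : ℂ) ^ (Lz + N0) * MvPolynomial.eval (vc L (ι β) (ι c) u)
        ((⇑(D4 (oc ι a)))^[t] (PP ℂ Lz N0 p)) := by
    intro u hu
    rw [hAB ι _ _ (ode L (oc ι a) (oc ι b) h2 h3 hu), hmap ι]
    rfl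
  have hev : (fun u => (A.map (oc ι)).eval (L.weierstrassP u) +
      (B.map (oc ι)).eval (L.weierstrassP u) * (L.derivWeierstrassP u / 2)) =O[𝓝[≠] (0 : ℂ)]
      fun u => u ^ (-((4 * N0 : ℕ) : ℤ)) := by
    have h1 := hpole.const_mul_left ((M0 : ℂ) ^ (Lz + N0))
    have h4 : (fun u : ℂ => u ^ (-((4 * N0 : ℕ) : ℤ))) = fun u => u ^ (-(4 * N0 : ℤ)) := by
      funext u; push_cast; rfl
    rw [h4]
    refine h1.congr' ?_ EventuallyEq.rfl
    filter_upwards [eventually_notMem L] with u hu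
    exact (hkey u hu).symm
  obtain ⟨hdA, hdB⟩ := pole_deg L (oc ι a) (oc ι b) h2 h3 _ _ _ hev
  have hinj : Function.Injective (oc ι) :=
    ι.injective.comp (FaithfulSMul.algebraMap_injective (𝓞 K) K)
  rw [Polynomial.natDegree_map_eq_of_injective hinj] at hdA hdB
  refine ⟨A, B, ?_, hdA, fun hB => hdB ((Polynomial.map_ne_zero_iff hinj).2 hB), ?_, ?_⟩
  · rintro ⟨rfl, rfl⟩
    apply hspec
    intro u hu
    have := hkey u hu
    simp only [Polynomial.map_zero, Polynomial.eval_zero, zero_mul, add_zero] at this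
    rcases mul_eq_zero.1 this.symm with h | h
    · exact absurd h (pow_ne_zero _ hM0')
    · exact h
  · intro σ
    have hle : H * Real.exp (Cr * (Lz + N0 + ((Lz + 2 * N0 + t : ℕ) : ℝ) + 1)) ≤
        Real.exp ((s + θ) * T * Real.log T + (C1 + C2) * T) := by
      refine le_trans (hsize T hT1 Lz t hLz' ht) (Real.exp_le_exp.2 ?_)
      nlinarith
    exact ⟨le_trans (hnm σ).1 hle, le_trans (hnm σ).2 hle⟩
  · rw [hkey _ hβ, norm_mul, norm_pow, Complex.norm_natCast, ← hvv]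
    have h5 := hval t ht
    have h6 : (M0 : ℝ) ^ (Lz + N0) ≤ Real.exp (C2 * T) := by
      have h7 : (M0 : ℝ) ^ (Lz + N0) = Real.exp (((Lz + N0 : ℕ) : ℝ) * Real.log M0) := by
        rw [← Real.log_pow, Real.exp_log (by positivity)]
      rw [h7]
      apply Real.exp_le_exp.2
      rw [hC2]
      have h8 : ((Lz + N0 : ℕ) : ℝ) ≤ (x + N0) * T := by
        push_cast
        nlinarith [Nat.cast_nonneg (α := ℝ) N0]
      nlinarith
    calc (M0 : ℝ) ^ (Lz + N0) * _ ≤ Real.exp (C2 * T) * Real.exp (-(1 / 4) * T * Real.log T) :=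
          mul_le_mul h6 h5 (norm_nonneg _) (Real.exp_pos _).le
      _ = Real.exp (-(1 / 4) * T * Real.log T + C2 * T) := by
          rw [← Real.exp_add]; congr 1; ring
      _ ≤ _ := by
          apply Real.exp_le_exp.2
          nlinarith

end Pool.Agent.ZCM
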