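import Pool.Agent.ZCM.Defs

/-! # A1a: the function `Den` -/

namespace Pool.Agent.ZCM

open Classical in
/-- `Den(n) = ∏_{p ≤ n+1} p^{e_p(n)}` -/
noncomputable def Den (S : Set ℕ) (n : ℕ) : ℕ :=
  ∏ p ∈ (Finset.range (n + 2)).filter Nat.Prime,
    p ^ (if p ∈ S then n / (p * (p - 1)) else n / (p - 1))

theorem Den_pos (S : Set ℕ) (n : ℕ) : 0 < Den S n := by
  unfold Den
  refine Finset.prod_pos fun p hp => ?_
  exact pow_pos (Finset.mem_filter.1 hp).2.pos _

open Classical in
theorem DenArith_Den_eq (S : Set ℕ) (n N : ℕ) (hN : n + 2 ≤ N) :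
    Den S n = ∏ p ∈ (Finset.range N).filter Nat.Prime,
      p ^ (if p ∈ S then n / (p * (p - 1)) else n / (p - 1)) := by
  unfold Den
  refine Finset.prod_subset ?_ ?_
  · intro p hp
    simp only [Finset.mem_filter, Finset.mem_range] at hp ⊢
    exact ⟨by omega, hp.2⟩
  · intro p hp hp'
    simp only [Finset.mem_filter, Finset.mem_range, not_and] at hp hp'
    have h1 : n + 2 ≤ p := by
      by_contra h
      exact hp' (by omega) hp.2
    have h2 : n < p - 1 := by omega
    have h3 : n < p * (p - 1) := by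
      have : 1 * (p - 1) ≤ p * (p - 1) := Nat.mul_le_mul_right _ (by omega)
      omega
    rw [Nat.div_eq_of_lt h2, Nat.div_eq_of_lt h3]
    simp

theorem Den_zero (S : Set ℕ) : Den S 0 = 1 := by
  unfold Den
  refine Finset.prod_eq_one fun p _ => ?_
  simp

theorem Den_mul_dvd (S : Set ℕ) (k m : ℕ) : Den S k * Den S m ∣ Den S (k + m) := by
  classical
  rw [DenArith_Den_eq S k (k + m + 2) (by omega), DenArith_Den_eq S m (k + m + 2) (by omega),
    DenArith_Den_eq S (k + m) (k + m + 2) (by omega), ← Finset.prod_mul_distrib]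
  refine Finset.prod_dvd_prod_of_dvd _ _ fun p _ => ?_
  rw [← pow_add]
  refine pow_dvd_pow _ ?_
  split_ifs with h
  · exact Nat.div_add_div_le_add_div
  · exact Nat.div_add_div_le_add_div

open Classical in
/-- `g_n = ∏_{p ∈ S, p ≤ n} p^{⌊n/p⌋}` -/
noncomputable def gS (S : Set ℕ) (n : ℕ) : ℕ :=
  ∏ p ∈ (Finset.range (n + 1)).filter (fun p => p.Prime ∧ p ∈ S), p ^ (n / p)

theorem gS_pos (S : Set ℕ) (n : ℕ) : 0 < gS S n := by
  unfold gS
  refine Finset.prod_pos fun p hp => ?_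
  simp only [Finset.mem_filter] at hp
  exact pow_pos hp.2.1.pos _

open Classical in
theorem DenArith_gS_eq (S : Set ℕ) (n N : ℕ) (hN : n + 1 ≤ N) :
    gS S n = ∏ p ∈ (Finset.range N).filter Nat.Prime, p ^ (if p ∈ S then n / p else 0) := by
  unfold gS
  rw [Finset.prod_filter, Finset.prod_filter]
  have h1 : ∀ p ∈ Finset.range (n + 1), (if p.Prime ∧ p ∈ S then p ^ (n / p) else 1)
      = (if p.Prime then p ^ (if p ∈ S then n / p else 0) else 1) := by
    intro p _
    by_cases hp : p.Prime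
    · by_cases hS : p ∈ S
      · simp [hp, hS]
      · simp [hp, hS]
    · simp [hp]
  rw [Finset.prod_congr rfl h1]
  refine Finset.prod_subset ?_ ?_
  · intro p hp
    simp only [Finset.mem_range] at hp ⊢
    omega
  · intro p hp hp'
    simp only [Finset.mem_range] at hp hp'
    have : n / p = 0 := Nat.div_eq_of_lt (by omega)
    simp [this]

theorem DenArith_val_succ (p n : ℕ) (hp : p.Prime) :
    padicValNat p (n + 1).factorial ≤ n / (p - 1) := by
  have := Fact.mk hp
  have h := sub_one_mul_padicValNat_factorial_lt_of_ne_zero p (n := n + 1) (Nat.succ_ne_zero n)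
  rw [Nat.le_div_iff_mul_le (by have := hp.two_le; omega), mul_comm]
  omega

theorem DenArith_val_zero (p n : ℕ) (hp : p.Prime) :
    padicValNat p n.factorial ≤ (n - 1) / (p - 1) := by
  rcases n with _ | n
  · simp
  · simpa using DenArith_val_succ p n hp

theorem DenArith_val_div (p n : ℕ) (hp : p.Prime) :
    padicValNat p n.factorial = padicValNat p (n / p).factorial + n / p := by
  have := Fact.mk hp
  rw [← padicValNat_mul_div_factorial n (p := p), padicValNat_factorial_mul]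

theorem DenArith_val_S (p n : ℕ) (hp : p.Prime) :
    padicValNat p n.factorial ≤ n / (p * (p - 1)) + n / p := by
  rw [DenArith_val_div p n hp, ← Nat.div_div_eq_div_mul]
  refine Nat.add_le_add_right ((DenArith_val_zero p (n / p) hp).trans ?_) _
  exact Nat.div_le_div_right (Nat.sub_le _ _)

theorem DenArith_val_S' (p n : ℕ) (hp : p.Prime) :
    padicValNat p (n + 1).factorial ≤ n / (p * (p - 1)) + (n + 1) / p := by
  rw [DenArith_val_div p (n + 1) hp, ← Nat.div_div_eq_div_mul]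
  refine Nat.add_le_add_right ((DenArith_val_zero p ((n + 1) / p) hp).trans ?_) _
  refine Nat.div_le_div_right ?_
  have h : (n + 1) / p ≤ n / p + 1 := by
    calc (n + 1) / p ≤ (n + p) / p := Nat.div_le_div_right (by have := hp.two_le; omega)
      _ = n / p + 1 := Nat.add_div_right n hp.pos
  exact Nat.sub_le_iff_le_add.2 h

theorem DenArith_dvd (S : Set ℕ) (m n : ℕ)
    (h1 : ∀ p : ℕ, p.Prime → p ∉ S → padicValNat p m.factorial ≤ n / (p - 1))
    (h2 : ∀ p : ℕ, p.Prime → p ∈ S → padicValNat p m.factorial ≤ n / (p * (p - 1)) + m / p) :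
    m.factorial ∣ Den S n * gS S m := by
  classical
  have hN := Nat.prod_pow_prime_padicValNat m.factorial (Nat.factorial_ne_zero m)
    (m.factorial + m + n + 2) (by omega)
  rw [DenArith_Den_eq S n (m.factorial + m + n + 2) (by omega),
    DenArith_gS_eq S m (m.factorial + m + n + 2) (by omega), ← Finset.prod_mul_distrib]
  conv_lhs => rw [← hN]
  refine Finset.prod_dvd_prod_of_dvd _ _ fun p hp => ?_
  have hp' : p.Prime := (Finset.mem_filter.1 hp).2
  rw [← pow_add]
  refine pow_dvd_pow _ ?_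
  by_cases hS : p ∈ S
  · simpa [hS] using h2 p hp' hS
  · simpa [hS] using h1 p hp' hS

theorem factorial_dvd (S : Set ℕ) (n : ℕ) : n.factorial ∣ Den S n * gS S n := by
  refine DenArith_dvd S n n (fun p hp _ => ?_) (fun p hp _ => DenArith_val_S p n hp)
  exact (DenArith_val_zero p n hp).trans (Nat.div_le_div_right (Nat.sub_le _ _))

theorem factorial_succ_dvd (S : Set ℕ) (n : ℕ) :
    (n + 1).factorial ∣ Den S n * gS S (n + 1) :=
  DenArith_dvd S (n + 1) n (fun p hp _ => DenArith_val_succ p n hp)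
    (fun p hp _ => DenArith_val_S' p n hp)

/-- bound of `log p / (p (p-1))` -/
theorem DenArith_term (p : ℕ) (hp : 2 ≤ p) :
    Real.log p / ((p : ℝ) * ((p : ℝ) - 1)) ≤ 4 * (1 / (p : ℝ) ^ (3 / 2 : ℝ)) := by
  have hp0 : (2 : ℝ) ≤ p := by exact_mod_cast hp
  have hpos : (0 : ℝ) < p := by linarith
  have h1 : Real.log p ≤ (p : ℝ) ^ (1 / 2 : ℝ) / (1 / 2) :=
    Real.log_le_rpow_div hpos.le (by norm_num)
  have h2 : (p : ℝ) ^ 2 / 2 ≤ (p : ℝ) * ((p : ℝ) - 1) := by nlinarith
  have h3 : (p : ℝ) ^ (2 : ℝ) = (p : ℝ) ^ 2 := by norm_cast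
  have h4 : (p : ℝ) ^ (1 / 2 : ℝ) * (p : ℝ) ^ (3 / 2 : ℝ) = (p : ℝ) ^ 2 := by
    rw [← Real.rpow_add hpos, ← h3]; norm_num
  have h5 : 0 < (p : ℝ) ^ (3 / 2 : ℝ) := Real.rpow_pos_of_pos hpos _
  have h6 : 0 ≤ (p : ℝ) ^ (1 / 2 : ℝ) := Real.rpow_nonneg hpos.le _
  rw [div_le_iff₀ (by nlinarith)]
  have h7 : (p : ℝ) ^ (1 / 2 : ℝ) / (1 / 2)
      ≤ 4 * (1 / (p : ℝ) ^ (3 / 2 : ℝ)) * ((p : ℝ) ^ 2 / 2) := by
    rw [← h4]
    have : 4 * (1 / (p : ℝ) ^ (3 / 2 : ℝ)) *
        ((p : ℝ) ^ (1 / 2 : ℝ) * (p : ℝ) ^ (3 / 2 : ℝ) / 2) = (p : ℝ) ^ (1 / 2 : ℝ) / (1 / 2) := by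
      field_simp
      norm_num
    rw [this]
  refine h1.trans (h7.trans ?_)
  exact mul_le_mul_of_nonneg_left h2 (by positivity)

theorem DenArith_summable : Summable fun p : ℕ => 4 * (1 / (p : ℝ) ^ (3 / 2 : ℝ)) :=
  (Real.summable_one_div_nat_rpow.2 (by norm_num)).mul_left 4

theorem DenArith_sum_le (s : Finset ℕ) (hs : ∀ p ∈ s, 2 ≤ p) :
    ∑ p ∈ s, Real.log p / ((p : ℝ) * ((p : ℝ) - 1))
      ≤ ∑' p : ℕ, 4 * (1 / (p : ℝ) ^ (3 / 2 : ℝ)) := by
  refine (Finset.sum_le_sum fun p hp => DenArith_term p (hs p hp)).trans ?_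
  exact DenArith_summable.sum_le_tsum s fun p _ => by positivity

open Classical in
theorem log_Den_le (S : Set ℕ)
    (h : ∃ C : ℝ, ∀ N : ℕ, 1 ≤ N →
      ∑ p ∈ (Finset.range (N + 1)).filter (fun p => p.Prime ∧ p ∉ S), Real.log p / p
        ≤ (1 / 2) * Real.log N + C) :
    ∃ C : ℝ, 0 ≤ C ∧ ∀ n : ℕ, Real.log (Den S n) ≤ (1 / 2) * n * Real.log n + C * n + C := by
  obtain ⟨C, hC⟩ := h
  set T : ℝ := ∑' p : ℕ, 4 * (1 / (p : ℝ) ^ (3 / 2 : ℝ)) with hT
  have hT0 : 0 ≤ T := tsum_nonneg fun p => by positivity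
  refine ⟨|C| + T + 1, by positivity, fun n => ?_⟩
  have hlog : Real.log (Den S n) = ∑ p ∈ (Finset.range (n + 2)).filter Nat.Prime,
      ((if p ∈ S then n / (p * (p - 1)) else n / (p - 1) : ℕ) : ℝ) * Real.log p := by
    unfold Den
    rw [Nat.cast_prod, Real.log_prod]
    · refine Finset.sum_congr rfl fun p _ => ?_
      rw [Nat.cast_pow, Real.log_pow]
    · intro p hp
      have := (Finset.mem_filter.1 hp).2.pos
      positivity
  have hbound : ∀ p ∈ (Finset.range (n + 2)).filter Nat.Prime,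
      ((if p ∈ S then n / (p * (p - 1)) else n / (p - 1) : ℕ) : ℝ) * Real.log p
        ≤ (n : ℝ) * ((if p.Prime ∧ p ∉ S then Real.log p / p else 0)
          + Real.log p / ((p : ℝ) * ((p : ℝ) - 1))) := by
    intro p hp
    have hp' : p.Prime := (Finset.mem_filter.1 hp).2
    have hp2 : (2 : ℝ) ≤ p := by exact_mod_cast hp'.two_le
    have hl : 0 ≤ Real.log p := Real.log_nonneg (by linarith)
    have hc : ((p - 1 : ℕ) : ℝ) = (p : ℝ) - 1 := by
      rw [Nat.cast_sub hp'.one_le]; simp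
    have hp1 : (0 : ℝ) < (p : ℝ) - 1 := by linarith
    have hp0 : (0 : ℝ) < (p : ℝ) := by linarith
    by_cases hS : p ∈ S
    · have h1 : ((n / (p * (p - 1)) : ℕ) : ℝ) ≤ (n : ℝ) / ((p : ℝ) * ((p : ℝ) - 1)) := by
        have := Nat.cast_div_le (α := ℝ) (m := n) (n := p * (p - 1))
        rwa [Nat.cast_mul, hc] at this
      simp only [hS, if_true, not_true_eq_false, and_false, if_false, zero_add]
      calc ((n / (p * (p - 1)) : ℕ) : ℝ) * Real.log p
          ≤ (n : ℝ) / ((p : ℝ) * ((p : ℝ) - 1)) * Real.log p := mul_le_mul_of_nonneg_right h1 hl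
        _ = (n : ℝ) * (Real.log p / ((p : ℝ) * ((p : ℝ) - 1))) := by ring
    · have h1 : ((n / (p - 1) : ℕ) : ℝ) ≤ (n : ℝ) / ((p : ℝ) - 1) := by
        have := Nat.cast_div_le (α := ℝ) (m := n) (n := p - 1)
        rwa [hc] at this
      simp only [hS, if_false, hp', not_false_eq_true, and_self, if_true]
      calc ((n / (p - 1) : ℕ) : ℝ) * Real.log p
          ≤ (n : ℝ) / ((p : ℝ) - 1) * Real.log p := mul_le_mul_of_nonneg_right h1 hl
        _ = (n : ℝ) * (Real.log p / p + Real.log p / ((p : ℝ) * ((p : ℝ) - 1))) := by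
            field_simp
            ring
  rw [hlog]
  refine (Finset.sum_le_sum hbound).trans ?_
  rw [← Finset.mul_sum, Finset.sum_add_distrib]
  have hA : ∑ p ∈ (Finset.range (n + 2)).filter Nat.Prime,
      (if p.Prime ∧ p ∉ S then Real.log p / p else 0)
      = ∑ p ∈ (Finset.range (n + 1 + 1)).filter (fun p => p.Prime ∧ p ∉ S), Real.log p / p := by
    rw [Finset.sum_filter, Finset.sum_filter]
    refine Finset.sum_congr rfl fun p _ => ?_
    by_cases hp : p.Prime
    · simp [hp]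
    · simp [hp]
  have hB := DenArith_sum_le ((Finset.range (n + 2)).filter Nat.Prime)
    (fun p hp => (Finset.mem_filter.1 hp).2.two_le)
  have hC' := hC (n + 1) (by omega)
  rw [hA]
  rcases Nat.eq_zero_or_pos n with h0 | h0
  · subst h0
    simp
    positivity
  · have hn : (0 : ℝ) < n := by exact_mod_cast h0
    have h1 : Real.log ((n + 1 : ℕ) : ℝ) ≤ Real.log n + 1 / n := by
      have h2 : ((n + 1 : ℕ) : ℝ) = n * (1 + 1 / n) := by
        push_cast; field_simp
      rw [h2, Real.log_mul hn.ne' (by positivity)]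
      have := Real.log_le_sub_one_of_pos (show (0 : ℝ) < 1 + 1 / n by positivity)
      linarith
    have h3 : (n : ℝ) * (1 / n) = 1 := by field_simp
    have hCabs : C ≤ |C| := le_abs_self C
    calc (n : ℝ) * (∑ p ∈ (Finset.range (n + 1 + 1)).filter (fun p => p.Prime ∧ p ∉ S),
            Real.log p / p + ∑ p ∈ (Finset.range (n + 2)).filter Nat.Prime,
              Real.log p / ((p : ℝ) * ((p : ℝ) - 1)))
        ≤ (n : ℝ) * (((1 / 2) * (Real.log n + 1 / n) + |C|) + T) := by
          refine mul_le_mul_of_nonneg_left ?_ hn.le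
          linarith
      _ = (1 / 2) * n * Real.log n + (1 / 2) * (n * (1 / n)) + (|C| + T) * n := by ring
      _ ≤ (1 / 2) * n * Real.log n + (|C| + T + 1) * n + (|C| + T + 1) := by
          rw [h3]
          nlinarith [abs_nonneg C]

end Pool.Agent.ZCM
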