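import Pool.Agent.ZCM.DenArith
import Pool.Agent.ZCM.Formal
import Pool.Agent.ZCM.Nat

/-! # A1b: `Den(n) * (coefficient of xS)` is integral -/

namespace Pool.Agent.ZCM
open PowerSeries

/-- series with denominators `Den` -/
def HasDen {K : Type*} [Field K] (S : Set ℕ) (f : K⟦X⟧) : Prop :=
  ∀ n : ℕ, IsIntegral ℤ ((Den S n : K) * coeff n f)

lemma DenInt_nat {K : Type*} [Field K] (n : ℕ) : IsIntegral ℤ (n : K) := by
  have := isIntegral_algebraMap (R := ℤ) (A := K) (x := (n : ℤ))
  simpa using this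

lemma DenInt_term {K : Type*} [Field K] {S : Set ℕ} {n i j : ℕ} (hij : i + j = n) {x y : K}
    (hx : IsIntegral ℤ ((Den S i : K) * x)) (hy : IsIntegral ℤ ((Den S j : K) * y)) :
    IsIntegral ℤ ((Den S n : K) * (x * y)) := by
  obtain ⟨c, hc⟩ := Den_mul_dvd S i j
  rw [hij] at hc
  have : (Den S n : K) * (x * y) = (c : K) * (((Den S i : K) * x) * ((Den S j : K) * y)) := by
    rw [hc]; push_cast; ring
  rw [this]
  exact (DenInt_nat c).mul (hx.mul hy)

variable {K : Type*} [Field K] [CharZero K] {S : Set ℕ}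

theorem HasDen.add {f g : K⟦X⟧} (hf : HasDen S f) (hg : HasDen S g) : HasDen S (f + g) := by
  intro n
  rw [map_add, mul_add]
  exact (hf n).add (hg n)

theorem HasDen.mul {f g : K⟦X⟧} (hf : HasDen S f) (hg : HasDen S g) : HasDen S (f * g) := by
  intro n
  rw [coeff_mul, Finset.mul_sum]
  refine IsIntegral.sum _ fun p hp => ?_
  exact DenInt_term (Finset.HasAntidiagonal.mem_antidiagonal.1 hp) (hf p.1) (hg p.2)

theorem HasDen.neg {f : K⟦X⟧} (hf : HasDen S f) : HasDen S (-f) := by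
  intro n
  rw [map_neg, mul_neg]
  exact (hf n).neg

theorem HasDen_C {c : K} (hc : IsIntegral ℤ c) : HasDen S (C c : K⟦X⟧) := by
  intro n
  rw [coeff_C]
  split_ifs with h
  · subst h
    rw [Den_zero, Nat.cast_one, one_mul]
    exact hc
  · rw [mul_zero]; exact isIntegral_zero

theorem HasDen.inv {f : K⟦X⟧} (hf : HasDen S f)
    (h0 : constantCoeff f = 1 ∨ constantCoeff f = -1) : HasDen S f⁻¹ := by
  have hε : IsIntegral ℤ ((constantCoeff f)⁻¹ : K) := by
    rcases h0 with h | h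
    · rw [h, inv_one]; exact isIntegral_one
    · rw [h, inv_neg, inv_one]; exact isIntegral_one.neg
  intro n
  induction n using Nat.strong_induction_on with
  | _ n ih =>
    rw [PowerSeries.coeff_inv]
    split_ifs with h
    · subst h
      rw [Den_zero, Nat.cast_one, one_mul]
      exact hε
    · have e1 : (Den S n : K) * (-(constantCoeff f)⁻¹ * ∑ x ∈ Finset.HasAntidiagonal.antidiagonal n,
          if x.2 < n then coeff x.1 f * coeff x.2 f⁻¹ else 0) =
          -(constantCoeff f)⁻¹ * ∑ x ∈ Finset.HasAntidiagonal.antidiagonal n,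
            (Den S n : K) * (if x.2 < n then coeff x.1 f * coeff x.2 f⁻¹ else 0) := by
        rw [← Finset.mul_sum]; ring
      refine (congrArg (IsIntegral ℤ) e1).mpr ?_
      refine hε.neg.mul (IsIntegral.sum _ fun p hp => ?_)
      split_ifs with hlt
      · exact DenInt_term (Finset.HasAntidiagonal.mem_antidiagonal.1 hp) (hf p.1) (ih p.2 hlt)
      · rw [mul_zero]; exact isIntegral_zero

lemma DenInt_one : HasDen S (1 : K⟦X⟧) := by
  have : (1 : K⟦X⟧) = C 1 := by simp
  rw [this]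
  exact HasDen_C isIntegral_one

lemma DenInt_coprime {x : K} {m n : ℕ} (hmn : Nat.Coprime m n) (hm0 : m ≠ 0) (hn0 : n ≠ 0)
    (hm : IsIntegral ℤ (x / (m : K))) (hn : IsIntegral ℤ (x / (n : K))) :
    IsIntegral ℤ (x / ((m * n : ℕ) : K)) := by
  have hb : (1 : ℤ) = m * Nat.gcdA m n + n * Nat.gcdB m n := by
    have := Nat.gcd_eq_gcd_ab m n
    rw [hmn] at this
    exact_mod_cast this
  have hb' : (1 : K) = (m : K) * (Nat.gcdA m n : ℤ) + (n : K) * (Nat.gcdB m n : ℤ) := by
    have := congrArg (Int.cast : ℤ → K) hb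
    push_cast at this
    exact this
  have hm0' : (m : K) ≠ 0 := by exact_mod_cast hm0
  have hn0' : (n : K) ≠ 0 := by exact_mod_cast hn0
  have e : x / ((m * n : ℕ) : K) = (Nat.gcdA m n : ℤ) * (x / (n : K)) +
      (Nat.gcdB m n : ℤ) * (x / (m : K)) := by
    push_cast
    field_simp
    linear_combination x * hb'
  rw [e]
  have hint : ∀ z : ℤ, IsIntegral ℤ ((z : ℤ) : K) := fun z => by
    have := isIntegral_algebraMap (R := ℤ) (A := K) (x := z)
    simpa using this
  exact ((hint _).mul hn).add ((hint _).mul hm)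

lemma DenInt_prod {x : K} (hx : IsIntegral ℤ x) (F : Finset ℕ) (hF : ∀ p ∈ F, p.Prime)
    (e : ℕ → ℕ) (h : ∀ p ∈ F, IsIntegral ℤ (x / (p : K) ^ e p)) :
    IsIntegral ℤ (x / ((∏ p ∈ F, p ^ e p : ℕ) : K)) := by
  classical
  induction F using Finset.induction_on with
  | empty => simpa using hx
  | insert q F hq ih =>
    rw [Finset.prod_insert hq]
    refine DenInt_coprime ?_ ?_ ?_ ?_ ?_
    · refine Nat.Coprime.prod_right fun p hp => Nat.Coprime.pow _ _ ?_
      rw [Nat.coprime_primes (hF q (Finset.mem_insert_self _ _))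
        (hF p (Finset.mem_insert_of_mem hp))]
      rintro rfl
      exact hq hp
    · exact pow_ne_zero _ (hF q (Finset.mem_insert_self _ _)).ne_zero
    · exact Finset.prod_ne_zero_iff.2 fun p hp =>
        pow_ne_zero _ (hF p (Finset.mem_insert_of_mem hp)).ne_zero
    · have := h q (Finset.mem_insert_self _ _)
      push_cast
      exact this
    · exact ih (fun p hp => hF p (Finset.mem_insert_of_mem hp))
        (fun p hp => h p (Finset.mem_insert_of_mem hp))

lemma DenInt_Tn {K : Type*} [Field K] (a b : K) (ha : IsIntegral ℤ a) (hb : IsIntegral ℤ b)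
    (n : ℕ) : IsIntegral ℤ (Tn a b n) ∧ IsIntegral ℤ (Wn a b n) := by
  let f : integralClosure ℤ K →+* K := algebraMap (integralClosure ℤ K) K
  have h1 := map_Tn f ⟨a, ha⟩ ⟨b, hb⟩ n
  have h2 := map_Wn f ⟨a, ha⟩ ⟨b, hb⟩ n
  have hfa : f ⟨a, ha⟩ = a := rfl
  have hfb : f ⟨b, hb⟩ = b := rfl
  rw [hfa, hfb] at h1 h2
  rw [← h1, ← h2]
  exact ⟨(Tn (R := integralClosure ℤ K) ⟨a, ha⟩ ⟨b, hb⟩ n).2,
    (Wn (R := integralClosure ℤ K) ⟨a, ha⟩ ⟨b, hb⟩ n).2⟩

lemma DenInt_coeff {x : K} {N D g : ℕ} (hN : N ≠ 0) (hg : g ≠ 0) (hd : N ∣ D * g)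
    (hx : IsIntegral ℤ (x / (g : K))) : IsIntegral ℤ ((D : K) * (x / (N : K))) := by
  obtain ⟨c, hc⟩ := hd
  have hc' : (D : K) * g = N * c := by exact_mod_cast hc
  have hN' : (N : K) ≠ 0 := by exact_mod_cast hN
  have hg' : (g : K) ≠ 0 := by exact_mod_cast hg
  have e : (D : K) * (x / (N : K)) = c * (x / (g : K)) := by
    field_simp
    linear_combination x * hc'
  rw [e]
  exact (DenInt_nat c).mul hx

/-- main result of the file -/
theorem HasDen_xS (a b : K) (ha : IsIntegral ℤ a) (hb : IsIntegral ℤ b)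
    (hS : ∀ p ∈ S, p.Prime)
    (hdiv : ∀ p ∈ S, ∀ n : ℕ, IsIntegral ℤ (Tn a b n / (p : K) ^ (n / p)) ∧
      IsIntegral ℤ (Wn a b n / (p : K) ^ (n / p))) :
    HasDen S (xS a b) := by
  classical
  have hgT : ∀ n : ℕ, IsIntegral ℤ (Tn a b n / (gS S n : K)) := by
    intro n
    unfold gS
    refine DenInt_prod (DenInt_Tn a b ha hb n).1 _ (fun p hp => (Finset.mem_filter.1 hp).2.1)
      (fun p => n / p) (fun p hp => (hdiv p (Finset.mem_filter.1 hp).2.2 n).1)
  have hgW : ∀ n : ℕ, IsIntegral ℤ (Wn a b n / (gS S n : K)) := by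
    intro n
    unfold gS
    refine DenInt_prod (DenInt_Tn a b ha hb n).2 _ (fun p hp => (Finset.mem_filter.1 hp).2.1)
      (fun p => n / p) (fun p hp => (hdiv p (Finset.mem_filter.1 hp).2.2 n).2)
  have ht : HasDen S (tS a b) := by
    intro n
    unfold tS
    rw [coeff_mk]
    exact DenInt_coeff (Nat.factorial_ne_zero n) (gS_pos S n).ne' (factorial_dvd S n) (hgT n)
  have hw : HasDen S (wS a b) := by
    intro n
    unfold wS
    rw [coeff_mk]
    exact DenInt_coeff (Nat.factorial_ne_zero n) (gS_pos S n).ne' (factorial_dvd S n) (hgW n)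
  have hu : HasDen S (uS a b) := by
    intro n
    unfold uS
    rw [coeff_mk]
    exact DenInt_coeff (Nat.factorial_ne_zero (n + 1)) (gS_pos S (n + 1)).ne'
      (factorial_succ_dvd S n) (hgT (n + 1))
  have hui : HasDen S ((uS a b)⁻¹) := hu.inv (Or.inr (const_uS a b))
  have he : HasDen S (eS a b) := by
    have e1 : eS a b = 1 + -(C a * tS a b * wS a b) + -(C b * (wS a b * wS a b)) := by
      unfold eS; ring
    rw [e1]
    exact (DenInt_one.add (((HasDen_C ha).mul ht).mul hw).neg).add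
      ((HasDen_C hb).mul (hw.mul hw)).neg
  have e2 : xS a b = eS a b * ((uS a b)⁻¹ * (uS a b)⁻¹) := by
    unfold xS; ring
  rw [e2]
  exact he.mul (hui.mul hui)

end Pool.Agent.ZCM
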