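import Pool.Agent.ZCM.SSuniv

/-! # J1a: the formula for `D^p x`

Setting: `F` a field containing `K`, `D` a `K`-derivation of `F`. -/

namespace Pool.Agent.ZCM
open Polynomial

/-- derivation of `g(x)` -/
theorem Diff_aeval {K F : Type*} [Field K] [Field F] [Algebra K F] (D : Derivation K F F)
    (x : F) (g : K[X]) : D (aeval x g) = aeval x (derivative g) * D x := by
  rw [Derivation.map_aeval, smul_eq_mul]

/-- general Leibniz rule -/
theorem Diff_leibniz {K F : Type*} [Field K] [Field F] [Algebra K F] (D : Derivation K F F)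
    (f g : F) (n : ℕ) :
    (⇑D)^[n] (f * g) = ∑ i ∈ Finset.range (n + 1),
      ((n.choose i : ℕ) : F) * ((⇑D)^[i] f * (⇑D)^[n - i] g) := by
  induction n with
  | zero => simp
  | succ n ih =>
    rw [Finset.sum_choose_succ_mul (fun i j => (⇑D)^[i] f * (⇑D)^[j] g) n,
      Function.iterate_succ_apply', ih, map_sum, ← Finset.sum_add_distrib]
    refine Finset.sum_congr rfl fun i hi => ?_
    have hle : i ≤ n := by
      have := Finset.mem_range.1 hi
      omega
    have hs : n + 1 - i = (n - i) + 1 := by omega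
    simp only [hs, Function.iterate_succ_apply', Derivation.leibniz, smul_eq_mul,
      Derivation.map_natCast]
    ring

section formula
variable {K F : Type*} [Field K] [Field F] [Algebra K F] (D : Derivation K F F) (a b : K)
  (al : K) (x y : F)
  (h1 : D x = 2 * algebraMap K F al * y)
  (h2 : D y = algebraMap K F al * (3 * x ^ 2 + algebraMap K F a))
  (h3 : y ^ 2 = x ^ 3 + algebraMap K F a * x + algebraMap K F b)

include h1 h2 h3 in
/-- `D² (g(x)) = al² (Δ g)(x)` -/
theorem Diff_DD (g : K[X]) :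
    D (D (aeval x g)) = algebraMap K F (al ^ 2) * aeval x (DelG a b g) := by
  have hc : D (algebraMap K F al) = 0 := Derivation.map_algebraMap D al
  have h2' : D (2 : F) = 0 := by
    have := Derivation.map_natCast D 2
    simpa using this
  rw [Diff_aeval, Derivation.leibniz, smul_eq_mul, smul_eq_mul, Diff_aeval, h1]
  rw [Derivation.leibniz, Derivation.leibniz, hc, h2', h2]
  simp only [smul_eq_mul, DelG, fG, map_add, map_mul, map_pow, aeval_X, aeval_C,
    derivative_mul, derivative_X_pow, derivative_C, derivative_X,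
    map_ofNat, map_natCast, map_one, map_zero]
  have e1 : y * y = x ^ 3 + algebraMap K F a * x + algebraMap K F b := by rw [← h3]; ring
  linear_combination (4 * (algebraMap K F al) ^ 2 * aeval x (derivative (derivative g))) * e1

include h1 h2 h3 in
theorem Diff_iter (m : ℕ) (g : K[X]) :
    (⇑D)^[2 * m] (aeval x g) = algebraMap K F (al ^ (2 * m)) * aeval x ((DelG a b)^[m] g) := by
  induction m with
  | zero => simp
  | succ m ih =>
    rw [show 2 * (m + 1) = 2 * m + 1 + 1 by ring, Function.iterate_succ_apply',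
      Function.iterate_succ_apply', ih, Derivation.leibniz, Derivation.map_algebraMap,
      smul_zero, add_zero, smul_eq_mul, Derivation.leibniz, Derivation.map_algebraMap,
      smul_zero, add_zero, smul_eq_mul, Diff_DD D a b al x y h1 h2 h3,
      Function.iterate_succ_apply', ← mul_assoc, ← map_mul]
    ring_nf

include h1 h2 h3 in
/-- `D^p x = al^(p-1) Dx h_p(x)` for odd `p` (apply with `al = 1` for `℘`, and with `al = α`
for `℘(α z)`) -/
theorem D_iterate_x (p : ℕ) (hp : p % 2 = 1) :
    (⇑D)^[p] x = algebraMap K F (al ^ (p - 1)) * D x * aeval x (hG a b p) := by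
  obtain ⟨m, rfl⟩ : ∃ m, p = 2 * m + 1 := ⟨p / 2, by omega⟩
  have hm : (2 * m + 1 - 1) / 2 = m := by omega
  have hx := Diff_iter D a b al x y h1 h2 h3 m X
  rw [aeval_X] at hx
  rw [Function.iterate_succ_apply', hx, Derivation.leibniz, Derivation.map_algebraMap,
      smul_zero, add_zero, smul_eq_mul, Diff_aeval, hG, hm, Nat.add_sub_cancel]
  ring
end formula

/-- iterated derivatives stay in `R` -/
theorem Diff_mem {F : Type*} [Field F] {K : Type*} [Field K] [Algebra K F]
    (D : Derivation K F F) (R : Subring F) (hR : ∀ f ∈ R, D f ∈ R) (n : ℕ) (f : F)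
    (hf : f ∈ R) : (⇑D)^[n] f ∈ R := by
  induction n with
  | zero => simpa using hf
  | succ n ih =>
    rw [Function.iterate_succ_apply']
    exact hR _ ih

/-- Leibniz modulo `p`: if `M` is an additive subgroup of `F`, closed under multiplication by the
subring `R` of `F`, `D R ⊆ R`, then for `f, g ∈ R` one has
`D^p(fg) - f D^p g - g D^p f ∈ p R` -/
theorem leibniz_mod_p {F : Type*} [Field F] {K : Type*} [Field K] [Algebra K F]
    (D : Derivation K F F) (R : Subring F) (hR : ∀ f ∈ R, D f ∈ R) (p : ℕ) (hp : p.Prime)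
    (f g : F) (hf : f ∈ R) (hg : g ∈ R) :
    ∃ r ∈ R, (⇑D)^[p] (f * g) = f * (⇑D)^[p] g + g * (⇑D)^[p] f + p * r := by
  obtain ⟨q, rfl⟩ : ∃ q, p = q + 1 := ⟨p - 1, by have := hp.pos; omega⟩
  obtain ⟨s, rfl⟩ : ∃ s, q = s + 1 := ⟨q - 1, by have := hp.two_le; omega⟩
  refine ⟨∑ i ∈ Finset.range (s + 1), (((s + 1 + 1).choose (i + 1) / (s + 1 + 1) : ℕ) : F) *
    ((⇑D)^[i + 1] f * (⇑D)^[s + 1 + 1 - (i + 1)] g), ?_, ?_⟩
  · refine R.sum_mem fun i _ => ?_
    exact R.mul_mem (natCast_mem R _) (R.mul_mem (Diff_mem D R hR _ f hf) (Diff_mem D R hR _ g hg))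
  · rw [Diff_leibniz, Finset.sum_range_succ, Finset.sum_range_succ', Finset.mul_sum]
    have key : ∀ i ∈ Finset.range (s + 1),
        ((s + 1 + 1 : ℕ) : F) * ((((s + 1 + 1).choose (i + 1) / (s + 1 + 1) : ℕ) : F) *
          ((⇑D)^[i + 1] f * (⇑D)^[s + 1 + 1 - (i + 1)] g))
        = (((s + 1 + 1).choose (i + 1) : ℕ) : F) *
          ((⇑D)^[i + 1] f * (⇑D)^[s + 1 + 1 - (i + 1)] g) := by
      intro i hi
      have hle : i < s + 1 := Finset.mem_range.1 hi
      have hdvd : (s + 1 + 1) ∣ (s + 1 + 1).choose (i + 1) :=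
        hp.dvd_choose_self (by omega) (by omega)
      rw [← mul_assoc, ← Nat.cast_mul, Nat.mul_div_cancel' hdvd]
    rw [Finset.sum_congr rfl key]
    simp only [Nat.choose_zero_right, Nat.choose_self, Nat.cast_one, Function.iterate_zero, id,
      Nat.sub_zero, Nat.sub_self, one_mul]
    ring

end Pool.Agent.ZCM
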