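import Pool.Agent.ZCM.Diff
import Pool.Agent.ZCM.Nat

/-! # J1b: the supersingular divisibility -/

namespace Pool.Agent.ZCM
open Polynomial

section DiffDiv

/-- the integers of `K`, in `F` -/
noncomputable def DiffDiv_j (K F : Type*) [Field K] [Field F] [Algebra K F] :
    integralClosure ℤ K →+* F := (algebraMap K F).comp (algebraMap (integralClosure ℤ K) K)

/-- the ring `O[x, y, 1/y]` -/
noncomputable def DiffDiv_L (K : Type*) {F : Type*} [Field K] [Field F] [Algebra K F] (x y : F) :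
    Subring F :=
  Subring.closure (Set.range (DiffDiv_j K F) ∪ {x, y, y⁻¹})

variable {K F : Type*} [Field K] [Field F] [Algebra K F]

lemma DiffDiv_j_apply (c : integralClosure ℤ K) : DiffDiv_j K F c = algebraMap K F (c : K) := rfl

lemma DiffDiv_j_mem (x y : F) (c : integralClosure ℤ K) : DiffDiv_j K F c ∈ DiffDiv_L K x y :=
  Subring.subset_closure (Or.inl ⟨c, rfl⟩)

lemma DiffDiv_x_mem (x y : F) : x ∈ DiffDiv_L K x y :=
  Subring.subset_closure (Or.inr (by simp))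

lemma DiffDiv_y_mem (x y : F) : y ∈ DiffDiv_L K x y :=
  Subring.subset_closure (Or.inr (by simp))

lemma DiffDiv_yinv_mem (x y : F) : y⁻¹ ∈ DiffDiv_L K x y :=
  Subring.subset_closure (Or.inr (by simp))

lemma DiffDiv_eval_mem (x y : F) (A : (integralClosure ℤ K)[X]) :
    eval₂ (DiffDiv_j K F) x A ∈ DiffDiv_L K x y := by
  rw [eval₂_eq_sum_range]
  exact sum_mem fun i _ => mul_mem (DiffDiv_j_mem x y _) (pow_mem (DiffDiv_x_mem x y) _)

lemma DiffDiv_nat_mem (x y : F) (n : ℕ) : (n : F) ∈ DiffDiv_L K x y := natCast_mem _ n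

lemma DiffDiv_D_j (D : Derivation K F F) (c : integralClosure ℤ K) : D (DiffDiv_j K F c) = 0 := by
  rw [DiffDiv_j_apply]
  exact D.map_algebraMap _

lemma DiffDiv_two_mem (x y : F) : (2 : F) ∈ DiffDiv_L K x y := by
  exact_mod_cast DiffDiv_nat_mem (K := K) x y 2

lemma DiffDiv_three_mem (x y : F) : (3 : F) ∈ DiffDiv_L K x y := by
  exact_mod_cast DiffDiv_nat_mem (K := K) x y 3

/-- the ring is stable under the derivation -/
lemma DiffDiv_D_mem (D : Derivation K F F) (a : integralClosure ℤ K) {x y : F}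
    (h1 : D x = 2 * y) (h2 : D y = 3 * x ^ 2 + DiffDiv_j K F a) :
    ∀ f ∈ DiffDiv_L K x y, D f ∈ DiffDiv_L K x y := by
  have hx := DiffDiv_x_mem (K := K) x y
  have hy := DiffDiv_y_mem (K := K) x y
  have hyi := DiffDiv_yinv_mem (K := K) x y
  have h2' : D y ∈ DiffDiv_L K x y := by
    rw [h2]
    exact add_mem (mul_mem (DiffDiv_three_mem x y) (pow_mem hx 2)) (DiffDiv_j_mem x y a)
  intro f hf
  induction hf using Subring.closure_induction with
  | mem f hf =>
    rcases hf with ⟨c, rfl⟩ | hf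
    · rw [DiffDiv_D_j]
      exact zero_mem _
    · simp only [Set.mem_insert_iff, Set.mem_singleton_iff] at hf
      rcases hf with hf | hf | hf
      · rw [hf, h1]
        exact mul_mem (DiffDiv_two_mem x y) hy
      · rw [hf]
        exact h2'
      · rw [hf, D.leibniz_inv, smul_eq_mul]
        exact mul_mem (neg_mem (pow_mem hyi 2)) h2'
  | zero => rw [map_zero]; exact zero_mem _
  | one => rw [D.map_one_eq_zero]; exact zero_mem _
  | add f g _ _ hf hg => rw [map_add]; exact add_mem hf hg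
  | neg f _ hf => rw [map_neg]; exact neg_mem hf
  | mul f g hfL hgL hf hg =>
    rw [D.leibniz, smul_eq_mul, smul_eq_mul]
    exact add_mem (mul_mem hfL hg) (mul_mem hgL hf)

lemma DiffDiv_iter_zero (D : Derivation K F F) (n : ℕ) : (⇑D)^[n] 0 = 0 := by
  induction n with
  | zero => rfl
  | succ n ih => rw [Function.iterate_succ_apply, map_zero, ih]

lemma DiffDiv_iter_add (D : Derivation K F F) (n : ℕ) (f g : F) :
    (⇑D)^[n] (f + g) = (⇑D)^[n] f + (⇑D)^[n] g := by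
  induction n generalizing f g with
  | zero => rfl
  | succ n ih => rw [Function.iterate_succ_apply, map_add, ih, Function.iterate_succ_apply,
      Function.iterate_succ_apply]

lemma DiffDiv_iter_neg (D : Derivation K F F) (n : ℕ) (f : F) :
    (⇑D)^[n] (-f) = -(⇑D)^[n] f := by
  induction n generalizing f with
  | zero => rfl
  | succ n ih => rw [Function.iterate_succ_apply, map_neg, ih, Function.iterate_succ_apply]

lemma DiffDiv_D_nat (D : Derivation K F F) (m : ℕ) (f : F) : D ((m : F) * f) = (m : F) * D f := by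
  rw [D.leibniz, D.map_natCast, smul_zero, add_zero, smul_eq_mul]

lemma DiffDiv_iter_nat (D : Derivation K F F) (n m : ℕ) (f : F) :
    (⇑D)^[n] ((m : F) * f) = (m : F) * (⇑D)^[n] f := by
  induction n generalizing f with
  | zero => rfl
  | succ n ih => rw [Function.iterate_succ_apply, DiffDiv_D_nat, ih, Function.iterate_succ_apply]

lemma DiffDiv_iter_mem (D : Derivation K F F) {x y : F}
    (hD : ∀ f ∈ DiffDiv_L K x y, D f ∈ DiffDiv_L K x y) (n : ℕ) :
    ∀ f ∈ DiffDiv_L K x y, (⇑D)^[n] f ∈ DiffDiv_L K x y := by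
  induction n with
  | zero => exact fun f hf => hf
  | succ n ih =>
    intro f hf
    rw [Function.iterate_succ_apply]
    exact ih _ (hD f hf)

/-- `D^p x` is divisible by `p` -/
lemma DiffDiv_Dp_x [CharZero K] (D : Derivation K F F) (a b : integralClosure ℤ K) {x y : F}
    (h1 : D x = 2 * y) (h2 : D y = 3 * x ^ 2 + DiffDiv_j K F a)
    (h3 : y ^ 2 = x ^ 3 + DiffDiv_j K F a * x + DiffDiv_j K F b)
    {p : ℕ} (hp : p.Prime) (hp2 : p ≠ 2) (hH : IsIntegral ℤ (HG (a : K) (b : K) p / (p : K))) :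
    ∃ g ∈ DiffDiv_L K x y, (⇑D)^[p] x = (p : F) * (2 * (y * g)) := by
  obtain ⟨h, hh⟩ := ss_ring a b p hp hp2
  have hodd : p % 2 = 1 := (hp.eq_two_or_odd).resolve_left hp2
  have hp0 : (p : K) ≠ 0 := Nat.cast_ne_zero.2 hp.ne_zero
  have e1 := D_iterate_x D (a : K) (b : K) 1 x y (by rw [map_one, mul_one, h1])
    (by rw [map_one, one_mul, h2, DiffDiv_j_apply]) h3 p hodd
  have e2 : aeval x (hG (a : K) (b : K) p) = eval₂ (DiffDiv_j K F) x (hG a b p) := by
    have h4 := map_hG (algebraMap (integralClosure ℤ K) K) a b p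
    have h5 : hG (a : K) (b : K) p = (hG a b p).map (algebraMap (integralClosure ℤ K) K) := h4.symm
    rw [h5, aeval_def, eval₂_map]
    rfl
  have e3 : DiffDiv_j K F (HG a b p) = (p : F) * DiffDiv_j K F ⟨_, hH⟩ := by
    have h4 := map_HG (algebraMap (integralClosure ℤ K) K) a b p
    have h5 : ((HG a b p : integralClosure ℤ K) : K) = HG (a : K) (b : K) p := h4
    rw [DiffDiv_j_apply, DiffDiv_j_apply, h5]
    rw [← map_natCast (algebraMap K F) p, ← map_mul]
    congr 1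
    change _ = (p : K) * (HG (a : K) (b : K) p / (p : K))
    field_simp
  refine ⟨DiffDiv_j K F ⟨_, hH⟩ + eval₂ (DiffDiv_j K F) x h,
    add_mem (DiffDiv_j_mem x y _) (DiffDiv_eval_mem x y _), ?_⟩
  rw [e1, e2, hh, eval₂_add, eval₂_C, e3, eval₂_mul, eval₂_natCast, h1, one_pow, map_one, one_mul]
  ring

/-- `D^p` of the ring is divisible by `p` -/
lemma DiffDiv_Dp [CharZero K] (D : Derivation K F F) (a b : integralClosure ℤ K) {x y : F}
    (hy : y ≠ 0) (h1 : D x = 2 * y) (h2 : D y = 3 * x ^ 2 + DiffDiv_j K F a)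
    (h3 : y ^ 2 = x ^ 3 + DiffDiv_j K F a * x + DiffDiv_j K F b)
    {p : ℕ} (hp : p.Prime) (hp2 : p ≠ 2) (hH : IsIntegral ℤ (HG (a : K) (b : K) p / (p : K))) :
    ∀ f ∈ DiffDiv_L K x y, ∃ g ∈ DiffDiv_L K x y, (⇑D)^[p] f = (p : F) * g := by
  have hD := DiffDiv_D_mem D a h1 h2
  have hchar : (2 : F) ≠ 0 := by
    have : (algebraMap K F) 2 ≠ 0 := (_root_.map_ne_zero _).2 two_ne_zero
    rwa [map_ofNat] at this
  have hxm := DiffDiv_x_mem (K := K) x y
  have hym := DiffDiv_y_mem (K := K) x y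
  have hyi := DiffDiv_yinv_mem (K := K) x y
  have hcomm : ∀ n f, (⇑D)^[n] (D f) = D ((⇑D)^[n] f) := fun n f => by
    rw [← Function.iterate_succ_apply, Function.iterate_succ_apply']
  obtain ⟨g₀, hg₀, hx⟩ := DiffDiv_Dp_x D a b h1 h2 h3 hp hp2 hH
  have hypy : ∃ g ∈ DiffDiv_L K x y, (⇑D)^[p] y = (p : F) * g := by
    refine ⟨D (y * g₀), hD _ (mul_mem hym hg₀), ?_⟩
    have e1 : (⇑D)^[p] (D x) = 2 * (⇑D)^[p] y := by
      have := DiffDiv_iter_nat D p 2 y
      rw [h1]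
      exact_mod_cast this
    have e2 : (⇑D)^[p] (D x) = 2 * ((p : F) * D (y * g₀)) := by
      rw [hcomm, hx, DiffDiv_D_nat]
      have := DiffDiv_D_nat D 2 (y * g₀)
      rw [Nat.cast_ofNat] at this
      rw [this]
      ring
    exact mul_left_cancel₀ hchar (e1.symm.trans e2)
  obtain ⟨g₁, hg₁, hyp⟩ := hypy
  intro f hf
  induction hf using Subring.closure_induction with
  | mem f hf =>
    rcases hf with ⟨c, rfl⟩ | hf
    · refine ⟨0, zero_mem _, ?_⟩
      obtain ⟨n, rfl⟩ : ∃ n, p = n + 1 := ⟨p - 1, (Nat.succ_pred_eq_of_pos hp.pos).symm⟩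
      rw [Function.iterate_succ_apply, DiffDiv_D_j, DiffDiv_iter_zero, mul_zero]
    · simp only [Set.mem_insert_iff, Set.mem_singleton_iff] at hf
      rcases hf with hf | hf | hf
      · rw [hf]
        exact ⟨_, mul_mem (DiffDiv_two_mem x y) (mul_mem hym hg₀), hx⟩
      · rw [hf]
        exact ⟨g₁, hg₁, hyp⟩
      · rw [hf]
        obtain ⟨r, hr, hr'⟩ := leibniz_mod_p D (DiffDiv_L K x y) hD p hp y y⁻¹ hym hyi
        obtain ⟨n, hn⟩ : ∃ n, p = n + 1 := ⟨p - 1, (Nat.succ_pred_eq_of_pos hp.pos).symm⟩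
        have e1 : (⇑D)^[p] (1 : F) = 0 := by
          rw [hn, Function.iterate_succ_apply, D.map_one_eq_zero, DiffDiv_iter_zero]
        rw [mul_inv_cancel₀ hy, e1, hyp] at hr'
        refine ⟨-(y⁻¹ * (y⁻¹ * g₁ + r)), neg_mem (mul_mem hyi (add_mem (mul_mem hyi hg₁) hr)), ?_⟩
        have e2 : y * (⇑D)^[p] y⁻¹ = -(p : F) * (y⁻¹ * g₁ + r) := by linear_combination -hr'
        have e3 : (⇑D)^[p] y⁻¹ = y⁻¹ * (y * (⇑D)^[p] y⁻¹) := by
          rw [← mul_assoc, inv_mul_cancel₀ hy, one_mul]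
        rw [e3, e2]
        ring
  | zero => exact ⟨0, zero_mem _, by rw [DiffDiv_iter_zero, mul_zero]⟩
  | one =>
    refine ⟨0, zero_mem _, ?_⟩
    obtain ⟨n, hn⟩ : ∃ n, p = n + 1 := ⟨p - 1, (Nat.succ_pred_eq_of_pos hp.pos).symm⟩
    rw [mul_zero, hn, Function.iterate_succ_apply, D.map_one_eq_zero, DiffDiv_iter_zero]
  | add f g _ _ hf hg =>
    obtain ⟨f', hf', hf⟩ := hf
    obtain ⟨g', hg', hg⟩ := hg
    exact ⟨f' + g', add_mem hf' hg', by rw [DiffDiv_iter_add, hf, hg, mul_add]⟩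
  | neg f _ hf =>
    obtain ⟨f', hf', hf⟩ := hf
    exact ⟨-f', neg_mem hf', by rw [DiffDiv_iter_neg, hf, mul_neg]⟩
  | mul f g hfL hgL hf hg =>
    obtain ⟨f', hf', hf⟩ := hf
    obtain ⟨g', hg', hg⟩ := hg
    obtain ⟨r, hr, hr'⟩ := leibniz_mod_p D (DiffDiv_L K x y) hD p hp f g hfL hgL
    refine ⟨f * g' + g * f' + r, add_mem (add_mem (mul_mem hfL hg') (mul_mem hgL hf')) hr, ?_⟩
    rw [hr', hf, hg]
    ring

/-- `D^n` of the ring is divisible by `p^⌊n/p⌋` -/
lemma DiffDiv_Dn [CharZero K] (D : Derivation K F F) (a b : integralClosure ℤ K) {x y : F}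
    (hy : y ≠ 0) (h1 : D x = 2 * y) (h2 : D y = 3 * x ^ 2 + DiffDiv_j K F a)
    (h3 : y ^ 2 = x ^ 3 + DiffDiv_j K F a * x + DiffDiv_j K F b)
    {p : ℕ} (hp : p.Prime) (hp2 : p ≠ 2) (hH : IsIntegral ℤ (HG (a : K) (b : K) p / (p : K)))
    (n : ℕ) : ∀ f ∈ DiffDiv_L K x y, ∃ g ∈ DiffDiv_L K x y,
      (⇑D)^[n] f = (p : F) ^ (n / p) * g := by
  have hD := DiffDiv_D_mem D a h1 h2
  have hDp := DiffDiv_Dp D a b hy h1 h2 h3 hp hp2 hH
  have key : ∀ m, ∀ f ∈ DiffDiv_L K x y, ∃ g ∈ DiffDiv_L K x y,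
      (⇑D)^[p * m] f = (p : F) ^ m * g := by
    intro m
    induction m with
    | zero => exact fun f hf => ⟨f, hf, by rw [mul_zero, pow_zero, one_mul]; rfl⟩
    | succ m ih =>
      intro f hf
      obtain ⟨g, hg, hfg⟩ := hDp f hf
      obtain ⟨g', hg', hfg'⟩ := ih g hg
      refine ⟨g', hg', ?_⟩
      rw [mul_add, mul_one, Function.iterate_add_apply, hfg, DiffDiv_iter_nat, hfg', pow_succ]
      ring
  intro f hf
  have hmem := DiffDiv_iter_mem D hD (n % p) f hf
  obtain ⟨g, hg, hfg⟩ := key (n / p) _ hmem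
  refine ⟨g, hg, ?_⟩
  rw [← hfg, ← Function.iterate_add_apply, Nat.div_add_mod]

/-- the ring homomorphism `O[t, w] → F` -/
noncomputable def DiffDiv_phi (K : Type*) {F : Type*} [Field K] [Field F] [Algebra K F] (x y : F) :
    MvPolynomial (Fin 2) (integralClosure ℤ K) →+* F :=
  MvPolynomial.eval₂Hom (DiffDiv_j K F) ![x / y, y⁻¹]

lemma DiffDiv_phi_C (x y : F) (c : integralClosure ℤ K) :
    DiffDiv_phi K x y (MvPolynomial.C c) = DiffDiv_j K F c := by
  rw [DiffDiv_phi, MvPolynomial.eval₂Hom_C]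

lemma DiffDiv_phi_X0 (x y : F) : DiffDiv_phi K x y (MvPolynomial.X 0) = x / y := by
  rw [DiffDiv_phi, MvPolynomial.eval₂Hom_X']
  rfl

lemma DiffDiv_phi_X1 (x y : F) : DiffDiv_phi K x y (MvPolynomial.X 1) = y⁻¹ := by
  rw [DiffDiv_phi, MvPolynomial.eval₂Hom_X']
  rfl

lemma DiffDiv_comm (D : Derivation K F F) (a b : integralClosure ℤ K) {x y : F}
    (hy : y ≠ 0) (h1 : D x = 2 * y) (h2 : D y = 3 * x ^ 2 + DiffDiv_j K F a)
    (h3 : y ^ 2 = x ^ 3 + DiffDiv_j K F a * x + DiffDiv_j K F b)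
    (G : MvPolynomial (Fin 2) (integralClosure ℤ K)) :
    D (DiffDiv_phi K x y G) = DiffDiv_phi K x y (Dtw a b G) := by
  have hw : D y⁻¹ = DiffDiv_phi K x y (Dtw a b (MvPolynomial.X 1)) := by
    rw [D.leibniz_inv, smul_eq_mul, h2, Dtw, MvPolynomial.mkDerivation_X]
    simp only [Matrix.cons_val_one, Matrix.cons_val_fin_one, map_sub,
      map_neg, map_mul, map_pow, map_ofNat, DiffDiv_phi_C, DiffDiv_phi_X0, DiffDiv_phi_X1]
    field_simp
    ring
  have ht : D (x / y) = DiffDiv_phi K x y (Dtw a b (MvPolynomial.X 0)) := by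
    rw [div_eq_mul_inv, D.leibniz, D.leibniz_inv, smul_eq_mul, smul_eq_mul, smul_eq_mul, h1, h2,
      Dtw, MvPolynomial.mkDerivation_X]
    simp only [Matrix.cons_val_zero, map_add, map_neg, map_mul, map_pow, map_ofNat, map_one,
      DiffDiv_phi_C, DiffDiv_phi_X0, DiffDiv_phi_X1]
    field_simp
    linear_combination 3 * h3
  induction G using MvPolynomial.induction_on with
  | C c =>
    rw [DiffDiv_phi_C, DiffDiv_D_j]
    have : Dtw a b (MvPolynomial.C c) = 0 := MvPolynomial.derivation_C _ _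
    rw [this, map_zero]
  | add p q hp hq => rw [map_add, map_add, hp, hq, map_add, map_add]
  | mul_X p i hp =>
    rw [map_mul, D.leibniz, (Dtw a b).leibniz, smul_eq_mul, smul_eq_mul, smul_eq_mul, smul_eq_mul,
      map_add, map_mul, map_mul, hp]
    fin_cases i
    · change _ * D (DiffDiv_phi K x y (MvPolynomial.X 0)) + DiffDiv_phi K x y (MvPolynomial.X 0) * _
        = _ * DiffDiv_phi K x y (Dtw a b (MvPolynomial.X 0)) +
          DiffDiv_phi K x y (MvPolynomial.X 0) * _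
      rw [← ht, DiffDiv_phi_X0]
    · change _ * D (DiffDiv_phi K x y (MvPolynomial.X 1)) + DiffDiv_phi K x y (MvPolynomial.X 1) * _
        = _ * DiffDiv_phi K x y (Dtw a b (MvPolynomial.X 1)) +
          DiffDiv_phi K x y (MvPolynomial.X 1) * _
      rw [← hw, DiffDiv_phi_X1]

lemma DiffDiv_comm_iter (D : Derivation K F F) (a b : integralClosure ℤ K) {x y : F}
    (hy : y ≠ 0) (h1 : D x = 2 * y) (h2 : D y = 3 * x ^ 2 + DiffDiv_j K F a)
    (h3 : y ^ 2 = x ^ 3 + DiffDiv_j K F a * x + DiffDiv_j K F b) (n : ℕ)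
    (G : MvPolynomial (Fin 2) (integralClosure ℤ K)) :
    (⇑D)^[n] (DiffDiv_phi K x y G) = DiffDiv_phi K x y ((⇑(Dtw a b))^[n] G) := by
  induction n generalizing G with
  | zero => rfl
  | succ n ih => rw [Function.iterate_succ_apply, Function.iterate_succ_apply,
      DiffDiv_comm D a b hy h1 h2 h3, ih]

/-- normal form: `y ^ (2 k) g = A(x) + B(x) y` for all large `k` -/
def DiffDiv_NF (K : Type*) {F : Type*} [Field K] [Field F] [Algebra K F] (x y g : F) : Prop :=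
  ∃ k₀ : ℕ, ∀ k ≥ k₀, ∃ A B : (integralClosure ℤ K)[X],
    y ^ (2 * k) * g = eval₂ (DiffDiv_j K F) x A + eval₂ (DiffDiv_j K F) x B * y

lemma DiffDiv_eval_fG (a b : integralClosure ℤ K) (x : F) :
    eval₂ (DiffDiv_j K F) x (fG a b) =
      x ^ 3 + DiffDiv_j K F a * x + DiffDiv_j K F b := by
  simp [fG]

lemma DiffDiv_ypow (a b : integralClosure ℤ K) {x y : F}
    (h3 : y ^ 2 = x ^ 3 + DiffDiv_j K F a * x + DiffDiv_j K F b) (k : ℕ) :
    y ^ (2 * k) = eval₂ (DiffDiv_j K F) x (fG a b ^ k) := by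
  rw [pow_mul, h3, eval₂_pow, DiffDiv_eval_fG]

lemma DiffDiv_NF_of_mem (a b : integralClosure ℤ K) {x y : F} (hy : y ≠ 0)
    (h3 : y ^ 2 = x ^ 3 + DiffDiv_j K F a * x + DiffDiv_j K F b) :
    ∀ g ∈ DiffDiv_L K x y, DiffDiv_NF K x y g := by
  intro g hg
  induction hg using Subring.closure_induction with
  | mem g hg =>
    rcases hg with ⟨c, rfl⟩ | hg
    · refine ⟨0, fun k _ => ⟨C c * fG a b ^ k, 0, ?_⟩⟩
      rw [DiffDiv_ypow a b h3, eval₂_mul, eval₂_C, eval₂_zero]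
      ring
    · simp only [Set.mem_insert_iff, Set.mem_singleton_iff] at hg
      rcases hg with hg | hg | hg
      · refine ⟨0, fun k _ => ⟨X * fG a b ^ k, 0, ?_⟩⟩
        rw [hg, DiffDiv_ypow a b h3, eval₂_mul, eval₂_X, eval₂_zero]
        ring
      · refine ⟨0, fun k _ => ⟨0, fG a b ^ k, ?_⟩⟩
        rw [hg, DiffDiv_ypow a b h3, eval₂_zero]
        ring
      · refine ⟨1, fun k hk => ?_⟩
        obtain ⟨m, rfl⟩ : ∃ m, k = m + 1 := ⟨k - 1, by omega⟩
        refine ⟨0, fG a b ^ m, ?_⟩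
        rw [hg, ← DiffDiv_ypow a b h3, eval₂_zero, show 2 * (m + 1) = 2 * m + 1 + 1 by ring,
          pow_succ, mul_assoc, mul_inv_cancel₀ hy]
        ring
  | zero => exact ⟨0, fun k _ => ⟨0, 0, by simp⟩⟩
  | one =>
    refine ⟨0, fun k _ => ⟨fG a b ^ k, 0, ?_⟩⟩
    rw [DiffDiv_ypow a b h3, eval₂_zero]
    ring
  | add f g _ _ hf hg =>
    obtain ⟨k₁, h1⟩ := hf
    obtain ⟨k₂, h2⟩ := hg
    refine ⟨max k₁ k₂, fun k hk => ?_⟩
    obtain ⟨A, B, h⟩ := h1 k (le_trans (le_max_left _ _) hk)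
    obtain ⟨A', B', h'⟩ := h2 k (le_trans (le_max_right _ _) hk)
    refine ⟨A + A', B + B', ?_⟩
    rw [mul_add, h, h', eval₂_add, eval₂_add]
    ring
  | neg f _ hf =>
    obtain ⟨k₁, h1⟩ := hf
    refine ⟨k₁, fun k hk => ?_⟩
    obtain ⟨A, B, h⟩ := h1 k hk
    refine ⟨-A, -B, ?_⟩
    rw [mul_neg, h, eval₂_neg, eval₂_neg]
    ring
  | mul f g _ _ hf hg =>
    obtain ⟨k₁, h1⟩ := hf
    obtain ⟨k₂, h2⟩ := hg
    refine ⟨k₁ + k₂, fun k hk => ?_⟩
    obtain ⟨A, B, h⟩ := h1 k₁ le_rfl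
    obtain ⟨A', B', h'⟩ := h2 (k - k₁) (by omega)
    refine ⟨A * A' + fG a b * (B * B'), A * B' + B * A', ?_⟩
    have e1 : y ^ (2 * k) * (f * g) = (y ^ (2 * k₁) * f) * (y ^ (2 * (k - k₁)) * g) := by
      have : 2 * k = 2 * k₁ + 2 * (k - k₁) := by omega
      rw [this, pow_add]
      ring
    rw [e1, h, h', eval₂_add, eval₂_mul, eval₂_mul, eval₂_mul, eval₂_add, eval₂_mul, eval₂_mul,
      DiffDiv_eval_fG, ← h3]
    ring

lemma DiffDiv_fG_monic (a b : integralClosure ℤ K) : (fG a b).Monic := by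
  rw [fG]
  monicity!

lemma DiffDiv_fG_natDegree (a b : integralClosure ℤ K) : (fG a b).natDegree = 3 := by
  rw [fG]
  compute_degree!

/-- the normal form of the elements of `O[t, w]` -/
lemma DiffDiv_phi_NF (a b : integralClosure ℤ K) {x y : F} (hy : y ≠ 0)
    (h3 : y ^ 2 = x ^ 3 + DiffDiv_j K F a * x + DiffDiv_j K F b)
    (G : MvPolynomial (Fin 2) (integralClosure ℤ K)) :
    ∃ k₀ : ℕ, ∀ k ≥ k₀, ∃ A B : (integralClosure ℤ K)[X],
      y ^ (2 * k) * DiffDiv_phi K x y G =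
        eval₂ (DiffDiv_j K F) x A + eval₂ (DiffDiv_j K F) x B * y ∧
      A.coeff (3 * k) = MvPolynomial.eval (0 : Fin 2 → integralClosure ℤ K) G := by
  induction G using MvPolynomial.induction_on' with
  | monomial s c =>
    refine ⟨s 0 + s 1, fun k hk => ?_⟩
    have e0 : MvPolynomial.eval (0 : Fin 2 → integralClosure ℤ K) (MvPolynomial.monomial s c) =
        c * (0 ^ s 0 * 0 ^ s 1) := by
      rw [MvPolynomial.eval_monomial, Finsupp.prod_fintype _ _ (fun i => pow_zero _),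
        Fin.prod_univ_two]
      rfl
    have e1 : DiffDiv_phi K x y (MvPolynomial.monomial s c) =
        DiffDiv_j K F c * ((x / y) ^ s 0 * y⁻¹ ^ s 1) := by
      rw [DiffDiv_phi, MvPolynomial.coe_eval₂Hom, MvPolynomial.eval₂_monomial,
        Finsupp.prod_fintype _ _ (fun i => pow_zero _), Fin.prod_univ_two]
      rfl
    have e2 : y ^ (2 * k) * ((x / y) ^ s 0 * y⁻¹ ^ s 1) = x ^ s 0 * y ^ (2 * k - (s 0 + s 1)) := by
      have h4 : 2 * k = (2 * k - (s 0 + s 1)) + s 0 + s 1 := by omega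
      have h5 : y ^ (2 * k) = y ^ (2 * k - (s 0 + s 1)) * y ^ s 0 * y ^ s 1 := by
        rw [← pow_add, ← pow_add, ← h4]
      rw [h5, div_pow, inv_pow]
      have := pow_ne_zero (s 0) hy
      have := pow_ne_zero (s 1) hy
      field_simp
    rcases Nat.even_or_odd' (s 0 + s 1) with ⟨r, hr | hr⟩
    · refine ⟨C c * X ^ s 0 * fG a b ^ (k - r), 0, ?_, ?_⟩
      · rw [e1, mul_left_comm, e2, hr, ← Nat.mul_sub, DiffDiv_ypow a b h3, eval₂_mul, eval₂_mul,
          eval₂_C, eval₂_X_pow, eval₂_zero]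
        ring
      · rw [e0]
        by_cases hs : s 0 + s 1 = 0
        · have hs0 : s 0 = 0 := by omega
          have hs1 : s 1 = 0 := by omega
          have hr0 : r = 0 := by omega
          rw [hs0, hs1, hr0, pow_zero, pow_zero, mul_one, mul_one, mul_one, Nat.sub_zero,
            coeff_C_mul]
          have h6 : (fG a b ^ k).natDegree = 3 * k := by
            rw [(DiffDiv_fG_monic a b).natDegree_pow, DiffDiv_fG_natDegree, mul_comm]
          have h7 := ((DiffDiv_fG_monic a b).pow k).coeff_natDegree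
          rw [h6] at h7
          rw [h7, mul_one]
        · have h6 : (0 : integralClosure ℤ K) ^ s 0 * 0 ^ s 1 = 0 := by
            rw [← pow_add, zero_pow hs]
          rw [h6, mul_zero]
          refine coeff_eq_zero_of_natDegree_lt ?_
          have h7 : (C c * X ^ s 0 * fG a b ^ (k - r)).natDegree ≤ s 0 + (k - r) * 3 := by
            refine natDegree_mul_le.trans (add_le_add ?_ ?_)
            · exact natDegree_C_mul_X_pow_le c (s 0)
            · rw [(DiffDiv_fG_monic a b).natDegree_pow, DiffDiv_fG_natDegree]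
          omega
    · refine ⟨0, C c * X ^ s 0 * fG a b ^ (k - r - 1), ?_, ?_⟩
      · have h4 : 2 * k - (s 0 + s 1) = 2 * (k - r - 1) + 1 := by omega
        rw [e1, mul_left_comm, e2, h4, pow_succ, DiffDiv_ypow a b h3, eval₂_mul, eval₂_mul,
          eval₂_C, eval₂_X_pow, eval₂_zero]
        ring
      · rw [e0, ← pow_add, zero_pow (by omega), mul_zero, coeff_zero]
  | add p q hp hq =>
    obtain ⟨k₁, h1⟩ := hp
    obtain ⟨k₂, h2⟩ := hq
    refine ⟨max k₁ k₂, fun k hk => ?_⟩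
    obtain ⟨A, B, h, hc⟩ := h1 k (le_trans (le_max_left _ _) hk)
    obtain ⟨A', B', h', hc'⟩ := h2 k (le_trans (le_max_right _ _) hk)
    refine ⟨A + A', B + B', ?_, ?_⟩
    · rw [map_add, mul_add, h, h', eval₂_add, eval₂_add]
      ring
    · rw [coeff_add, hc, hc', map_add]

/-- uniqueness of the normal form -/
lemma DiffDiv_unique (a b : integralClosure ℤ K) {x y : F}
    (h3 : y ^ 2 = x ^ 3 + DiffDiv_j K F a * x + DiffDiv_j K F b) (hx : Transcendental K x)
    {A B : (integralClosure ℤ K)[X]}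
    (h : eval₂ (DiffDiv_j K F) x A + eval₂ (DiffDiv_j K F) x B * y = 0) : A = 0 := by
  have hinj : ∀ P : (integralClosure ℤ K)[X], eval₂ (DiffDiv_j K F) x P = 0 → P = 0 := by
    intro P hP
    have h4 : aeval x (P.map (algebraMap (integralClosure ℤ K) K)) = 0 := by
      rw [aeval_def, eval₂_map]
      exact hP
    have h5 := (transcendental_iff.1 hx) _ h4
    exact (Polynomial.map_eq_zero_iff
      (FaithfulSMul.algebraMap_injective (integralClosure ℤ K) K)).1 h5
  have h4 : A ^ 2 - B ^ 2 * fG a b = 0 := by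
    apply hinj
    rw [eval₂_sub, eval₂_mul, eval₂_pow, eval₂_pow, DiffDiv_eval_fG, ← h3]
    linear_combination (eval₂ (DiffDiv_j K F) x A - eval₂ (DiffDiv_j K F) x B * y) * h
  by_contra hA
  have hB : B ≠ 0 := by
    rintro rfl
    apply hA
    rw [zero_pow two_ne_zero, zero_mul, sub_zero] at h4
    exact pow_eq_zero_iff two_ne_zero |>.1 h4
  have h5 := congrArg natDegree (sub_eq_zero.1 h4)
  rw [natDegree_pow, natDegree_mul (pow_ne_zero 2 hB) (DiffDiv_fG_monic a b).ne_zero,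
    natDegree_pow, DiffDiv_fG_natDegree] at h5
  omega

/-- the divisibility of the values at the origin -/
lemma DiffDiv_main [CharZero K] (D : Derivation K F F) (a b : integralClosure ℤ K) {x y : F}
    (h1 : D x = 2 * y) (h2 : D y = 3 * x ^ 2 + DiffDiv_j K F a)
    (h3 : y ^ 2 = x ^ 3 + DiffDiv_j K F a * x + DiffDiv_j K F b) (hx : Transcendental K x)
    {p : ℕ} (hp : p.Prime) (hp2 : p ≠ 2) (hH : IsIntegral ℤ (HG (a : K) (b : K) p / (p : K)))
    (n : ℕ) (G : MvPolynomial (Fin 2) (integralClosure ℤ K))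
    (hG : DiffDiv_phi K x y G ∈ DiffDiv_L K x y) :
    IsIntegral ℤ (((MvPolynomial.eval (0 : Fin 2 → integralClosure ℤ K)
      ((⇑(Dtw a b))^[n] G) : integralClosure ℤ K) : K) / (p : K) ^ (n / p)) := by
  have hy : y ≠ 0 := by
    intro hy
    have h4 : eval₂ (DiffDiv_j K F) x (fG a b) + eval₂ (DiffDiv_j K F) x 0 * y = 0 := by
      rw [DiffDiv_eval_fG, ← h3, hy, eval₂_zero]
      ring
    exact (DiffDiv_fG_monic a b).ne_zero (DiffDiv_unique a b h3 hx h4)
  obtain ⟨g, hg, hgn⟩ := DiffDiv_Dn D a b hy h1 h2 h3 hp hp2 hH n _ hG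
  rw [DiffDiv_comm_iter D a b hy h1 h2 h3] at hgn
  obtain ⟨k₁, hk₁⟩ := DiffDiv_phi_NF a b hy h3 ((⇑(Dtw a b))^[n] G)
  obtain ⟨k₂, hk₂⟩ := DiffDiv_NF_of_mem a b hy h3 g hg
  obtain ⟨A, B, hAB, hc⟩ := hk₁ (max k₁ k₂) (le_max_left _ _)
  obtain ⟨A', B', hAB'⟩ := hk₂ (max k₁ k₂) (le_max_right _ _)
  have h4 : eval₂ (DiffDiv_j K F) x (A - (p : (integralClosure ℤ K)[X]) ^ (n / p) * A') +
      eval₂ (DiffDiv_j K F) x (B - (p : (integralClosure ℤ K)[X]) ^ (n / p) * B') * y = 0 := by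
    rw [eval₂_sub, eval₂_sub, eval₂_mul, eval₂_mul, eval₂_pow, eval₂_natCast]
    rw [hgn] at hAB
    linear_combination -hAB + (p : F) ^ (n / p) * hAB'
  have h5 := DiffDiv_unique a b h3 hx h4
  have h6 := congrArg (fun P => coeff P (3 * max k₁ k₂)) h5
  simp only [coeff_sub, coeff_zero] at h6
  rw [hc, ← C_eq_natCast, ← C_pow, coeff_C_mul, sub_eq_zero] at h6
  rw [h6]
  have hp0 : (p : K) ≠ 0 := Nat.cast_ne_zero.2 hp.ne_zero
  have h7 : ((((p : integralClosure ℤ K) ^ (n / p) * A'.coeff (3 * max k₁ k₂) :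
      integralClosure ℤ K)) : K) / (p : K) ^ (n / p) = (A'.coeff (3 * max k₁ k₂) : K) := by
    push_cast
    field_simp
  rw [h7]
  exact (A'.coeff (3 * max k₁ k₂)).2

end DiffDiv

variable {K F : Type*} [Field K] [CharZero K] [Field F] [Algebra K F] (D : Derivation K F F)
  (a b : K) (x y : F)
  (ha : IsIntegral ℤ a) (hb : IsIntegral ℤ b)
  (h1 : D x = 2 * y) (h2 : D y = 3 * x ^ 2 + algebraMap K F a)
  (h3 : y ^ 2 = x ^ 3 + algebraMap K F a * x + algebraMap K F b)
  (hx : Transcendental K x)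

include D ha hb h1 h2 h3 hx in
/-- if `p` divides the Hasse invariant then `p^⌊n/p⌋` divides `T_n, W_n` -/
theorem div_of_hasse (p : ℕ) (hp : p.Prime) (hp2 : p ≠ 2)
    (hH : IsIntegral ℤ (HG a b p / (p : K))) (n : ℕ) :
    IsIntegral ℤ (Tn a b n / (p : K) ^ (n / p)) ∧ IsIntegral ℤ (Wn a b n / (p : K) ^ (n / p)) := by
  lift a to integralClosure ℤ K using ha
  lift b to integralClosure ℤ K using hb
  constructor
  · have h4 : Tn (a : K) (b : K) n = ((Tn a b n : integralClosure ℤ K) : K) :=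
      (map_Tn (algebraMap (integralClosure ℤ K) K) a b n).symm
    rw [h4]
    refine DiffDiv_main D a b h1 h2 h3 hx hp hp2 hH n _ ?_
    rw [DiffDiv_phi_X0, div_eq_mul_inv]
    exact mul_mem (DiffDiv_x_mem x y) (DiffDiv_yinv_mem x y)
  · have h4 : Wn (a : K) (b : K) n = ((Wn a b n : integralClosure ℤ K) : K) :=
      (map_Wn (algebraMap (integralClosure ℤ K) K) a b n).symm
    rw [h4]
    refine DiffDiv_main D a b h1 h2 h3 hx hp hp2 hH n _ ?_
    rw [DiffDiv_phi_X1]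
    exact DiffDiv_yinv_mem x y

end Pool.Agent.ZCM
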