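import Pool.Agent.ZCM.Zeta

/-! # J3: periodic meromorphic functions -/

namespace Pool.Agent.ZCM
open Filter Topology

variable (L : PeriodPair)

/-- a periodic meromorphic function without poles is constant -/
theorem ell_const (f : ℂ → ℂ) (hf : ∀ z, MeromorphicAt f z)
    (hper : ∀ l ∈ L.lattice, ∀ z, f (z + l) = f z)
    (hord : ∀ z, 0 ≤ meromorphicOrderAt f z) :
    ∃ c : ℂ, ∀ z, f =ᶠ[𝓝[≠] z] fun _ => c := by
  have hf' : MeromorphicOn f Set.univ := fun z _ => hf z
  obtain ⟨F, hF⟩ : ∃ F, F = toMeromorphicNFOn f Set.univ := ⟨_, rfl⟩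
  have h1 : ∀ z, f =ᶠ[𝓝[≠] z] F := fun z => by
    rw [hF]
    exact (hf'.toMeromorphicNFOn_eq_self_on_nhdsNE (Set.mem_univ z)).symm
  have h2 : ∀ z, AnalyticAt ℂ F z := by
    intro z
    have h3 : MeromorphicNFAt F z := by
      rw [hF]
      exact meromorphicNFOn_toMeromorphicNFOn f Set.univ (Set.mem_univ z)
    refine h3.meromorphicOrderAt_nonneg_iff_analyticAt.1 ?_
    rw [← meromorphicOrderAt_congr (h1 z)]
    exact hord z
  have h3 : ∀ l ∈ L.lattice, ∀ z, F (z + l) = F z := by
    intro l hl z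
    have e1 : Tendsto F (𝓝[≠] z) (𝓝 (F z)) :=
      (h2 z).continuousAt.tendsto.mono_left nhdsWithin_le_nhds
    have e0 : Tendsto (fun w : ℂ => w + l) (𝓝 z) (𝓝 (z + l)) := by
      have : ContinuousAt (fun w : ℂ => w + l) z := by fun_prop
      exact this
    have e2 : Tendsto (fun w => F (w + l)) (𝓝[≠] z) (𝓝 (F (z + l))) :=
      ((h2 (z + l)).continuousAt.tendsto.comp e0).mono_left nhdsWithin_le_nhds
    have e4 : Tendsto (fun w : ℂ => w + l) (𝓝[≠] z) (𝓝[≠] (z + l)) := by
      refine tendsto_nhdsWithin_iff.2 ⟨e0.mono_left nhdsWithin_le_nhds, ?_⟩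
      filter_upwards [self_mem_nhdsWithin] with w hw
      intro h
      exact hw (add_right_cancel h)
    have e3 : (fun w => F (w + l)) =ᶠ[𝓝[≠] z] F := by
      filter_upwards [e4.eventually (h1 (z + l)), h1 z] with w hw hw'
      rw [← hw, ← hw', hper l hl w]
    exact tendsto_nhds_unique (e2.congr' e3) e1
  have h4 : Differentiable ℂ F := fun z => (h2 z).differentiableAt
  refine ⟨F 0, fun z => ?_⟩
  filter_upwards [h1 z] with w hw
  rw [hw]
  exact h4.apply_eq_apply_of_bounded (IsZLattice.isCompact_range_of_periodic L.lattice _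
    h4.continuous fun z w hw ↦ h3 w hw z).isBounded w 0

/-- the order at `0` of an even function is even -/
lemma EllEven_even (f : ℂ → ℂ) (hf : MeromorphicAt f 0) (heven : ∀ z, f (-z) = f z)
    (n : ℤ) (hn : meromorphicOrderAt f 0 = n) : Even n := by
  obtain ⟨g, hg, hg0, he⟩ := (meromorphicOrderAt_eq_int_iff hf).1 hn
  by_contra hodd
  have hodd' : Odd n := Int.not_even_iff_odd.1 hodd
  have hneg : Tendsto (fun z : ℂ => -z) (𝓝[≠] 0) (𝓝[≠] 0) := by
    refine tendsto_nhdsWithin_iff.2 ⟨?_, ?_⟩
    · have : Tendsto (fun z : ℂ => -z) (𝓝 0) (𝓝 (-0)) := tendsto_neg 0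
      rw [neg_zero] at this
      exact this.mono_left nhdsWithin_le_nhds
    · filter_upwards [self_mem_nhdsWithin] with z hz
      intro h
      exact hz (neg_eq_zero.1 h)
  have h1 : (fun z => g (-z)) =ᶠ[𝓝[≠] (0 : ℂ)] fun z => - g z := by
    filter_upwards [he, hneg.eventually he, self_mem_nhdsWithin] with z h2 h3 h4
    have hz : z ≠ 0 := h4
    rw [heven z, h2, sub_zero, sub_zero, smul_eq_mul, smul_eq_mul, hodd'.neg_zpow] at h3
    have h5 : z ^ n ≠ 0 := zpow_ne_zero _ hz
    have h6 : z ^ n * (g z + g (-z)) = 0 := by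
      rw [mul_add, h3]
      ring
    rcases mul_eq_zero.1 h6 with h7 | h7
    · exact absurd h7 h5
    · linear_combination h7
  have e1 : Tendsto g (𝓝[≠] (0 : ℂ)) (𝓝 (g 0)) :=
    hg.continuousAt.tendsto.mono_left nhdsWithin_le_nhds
  have e2 : Tendsto (fun z => g (-z)) (𝓝[≠] (0 : ℂ)) (𝓝 (g 0)) := e1.comp hneg
  have e3 : Tendsto (fun z => g (-z)) (𝓝[≠] (0 : ℂ)) (𝓝 (- g 0)) := e1.neg.congr' h1.symm
  have e4 := tendsto_nhds_unique e2 e3
  have e5 : (2 : ℂ) * g 0 = 0 := by linear_combination e4
  rcases mul_eq_zero.1 e5 with h | h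
  · norm_num at h
  · exact hg0 h

/-- an even periodic meromorphic function with poles only on the lattice is a polynomial in `℘` -/
theorem ell_even (f : ℂ → ℂ) (hf : ∀ z, MeromorphicAt f z)
    (hper : ∀ l ∈ L.lattice, ∀ z, f (z + l) = f z) (heven : ∀ z, f (-z) = f z)
    (hord : ∀ z, z ∉ L.lattice → 0 ≤ meromorphicOrderAt f z)
    (k : ℕ) (h0 : -(2 * k : ℤ) ≤ meromorphicOrderAt f 0) :
    ∃ A : Polynomial ℂ, ∀ z, f =ᶠ[𝓝[≠] z] fun z => A.eval (L.weierstrassP z) := by
  induction k generalizing f with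
  | zero =>
    have hord' : ∀ z, 0 ≤ meromorphicOrderAt f z := by
      intro z
      by_cases hz : z ∈ L.lattice
      · have e1 : meromorphicOrderAt (f ∘ (· + z)) 0 = meromorphicOrderAt f (0 + z) :=
          meromorphicOrderAt_comp_add_const_eq_meromorphicOrderAt
        have e2 : f ∘ (· + z) = f := by
          funext w
          exact hper z hz w
        rw [e2, zero_add] at e1
        rw [← e1]
        simpa using h0
      · exact hord z hz
    obtain ⟨c, hc⟩ := ell_const L f hf hper hord'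
    refine ⟨Polynomial.C c, fun z => ?_⟩
    filter_upwards [hc z] with w hw
    rw [hw, Polynomial.eval_C]
  | succ k ih =>
    by_cases h1 : -(2 * k : ℤ) ≤ meromorphicOrderAt f 0
    · exact ih f hf hper heven hord h1
    -- the order is `-(2k+2)`
    have hne : meromorphicOrderAt f 0 ≠ ⊤ := by
      intro h
      exact h1 (by rw [h]; exact le_top)
    obtain ⟨n, hn⟩ := WithTop.ne_top_iff_exists.1 hne
    have hnE := EllEven_even f (hf 0) heven n hn.symm
    have hn1 : ¬ (-(2 * k : ℤ) ≤ n) := by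
      intro h
      apply h1
      rw [← hn]
      exact_mod_cast h
    have hn2 : -(2 * ((k : ℤ) + 1)) ≤ n := by
      rw [← hn] at h0
      have h0' := h0
      push_cast at h0'
      exact_mod_cast h0'
    have hn3 : n = -(2 * ((k : ℤ) + 1)) := by
      obtain ⟨m, hm⟩ := hnE
      omega
    obtain ⟨g, hg, hg0, he⟩ := (meromorphicOrderAt_eq_int_iff (hf 0)).1 hn.symm
    -- the function `z² ℘(z)`
    have hpa : AnalyticAt ℂ (fun z => z ^ 2 * L.weierstrassPExcept 0 z + 1) 0 := by
      have := L.analyticAt_weierstrassPExcept 0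
      fun_prop
    have hp : ∀ z, z ≠ 0 → z ^ 2 * L.weierstrassP z = z ^ 2 * L.weierstrassPExcept 0 z + 1 := by
      intro z hz
      have h := L.ite_eq_one_sub_sq_mul_weierstrassP 0 L.lattice.zero_mem z
      rw [if_neg hz] at h
      simpa using h
    obtain ⟨h, hh⟩ : ∃ h : ℂ → ℂ, h = fun z => f z - g 0 * L.weierstrassP z ^ (k + 1) := ⟨_, rfl⟩
    have hPm : ∀ z, MeromorphicAt (fun z => g 0 * L.weierstrassP z ^ (k + 1)) z := by
      intro z
      have := L.meromorphic_weierstrassP z
      fun_prop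
    have hhm : ∀ z, MeromorphicAt h z := by
      intro z
      rw [hh]
      exact (hf z).sub (hPm z)
    have hhper : ∀ l ∈ L.lattice, ∀ z, h (z + l) = h z := by
      intro l hl z
      rw [hh]
      have := L.weierstrassP_add_coe z ⟨l, hl⟩
      simp only [hper l hl z]
      rw [this]
    have hheven : ∀ z, h (-z) = h z := by
      intro z
      rw [hh]
      simp only [heven z, L.weierstrassP_neg z]
    have hhord : ∀ z, z ∉ L.lattice → 0 ≤ meromorphicOrderAt h z := by
      intro z hz
      have e1 : 0 ≤ meromorphicOrderAt (fun z => g 0 * L.weierstrassP z ^ (k + 1)) z := by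
        have := L.analyticOnNhd_weierstrassP z hz
        refine AnalyticAt.meromorphicOrderAt_nonneg ?_
        fun_prop
      have e2 : 0 ≤ meromorphicOrderAt (-(fun z => g 0 * L.weierstrassP z ^ (k + 1))) z := by
        rw [← meromorphicOrderAt_neg]
        exact e1
      have e3 := meromorphicOrderAt_add (hf z) (hPm z).neg
      have e4 : f + -(fun z => g 0 * L.weierstrassP z ^ (k + 1)) = h := by
        rw [hh]
        funext w
        simp [sub_eq_add_neg]
      rw [e4] at e3
      exact (le_min (hord z hz) e2).trans e3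
    have hh0 : -(2 * k : ℤ) ≤ meromorphicOrderAt h 0 := by
      -- `z^(2k+2) h(z) = g z - g 0 * (z^2 ℘)^(k+1)`
      obtain ⟨q, hq⟩ : ∃ q : ℂ → ℂ,
          q = fun z => g z - g 0 * (z ^ 2 * L.weierstrassPExcept 0 z + 1) ^ (k + 1) := ⟨_, rfl⟩
      have hqa : AnalyticAt ℂ q 0 := by
        rw [hq]
        fun_prop
      have hq0 : q 0 = 0 := by
        rw [hq]
        simp
      have hqh : h =ᶠ[𝓝[≠] (0 : ℂ)] (fun z => z ^ n) * q := by
        filter_upwards [he, self_mem_nhdsWithin] with z h2 h3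
        have hz : z ≠ 0 := h3
        rw [Pi.mul_apply, hh, hq]
        simp only
        rw [h2, sub_zero, smul_eq_mul, ← hp z hz, hn3, mul_sub, mul_pow, ← pow_mul]
        have h4 : z ^ (-(2 * ((k : ℤ) + 1))) * z ^ (2 * (k + 1)) = 1 := by
          rw [← zpow_natCast z (2 * (k + 1)), ← zpow_add₀ hz]
          push_cast
          rw [neg_add_cancel, zpow_zero]
        linear_combination (g 0 * L.weierstrassP z ^ (k + 1)) * h4
      have hzn : MeromorphicAt (fun z : ℂ => z ^ n) 0 := by fun_prop
      have hzo : meromorphicOrderAt (fun z : ℂ => z ^ n) 0 = n := by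
        rw [meromorphicOrderAt_eq_int_iff hzn]
        refine ⟨fun _ => 1, analyticAt_const, one_ne_zero, ?_⟩
        filter_upwards with z
        simp
      have e1 := meromorphicOrderAt_congr hqh
      rw [meromorphicOrderAt_mul hzn hqa.meromorphicAt, hzo] at e1
      have e2 : 0 < meromorphicOrderAt q 0 := by
        rw [← tendsto_zero_iff_meromorphicOrderAt_pos hqa.meromorphicAt]
        have := hqa.continuousAt.tendsto.mono_left (nhdsWithin_le_nhds (s := {0}ᶜ))
        rwa [hq0] at this
      by_cases htop : meromorphicOrderAt h 0 = ⊤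
      · rw [htop]
        exact le_top
      obtain ⟨m, hm⟩ := WithTop.ne_top_iff_exists.1 htop
      have hmE := EllEven_even h (hhm 0) hheven m hm.symm
      have hqt : meromorphicOrderAt q 0 ≠ ⊤ := by
        intro hq'
        rw [hq'] at e1
        exact htop (by rw [e1]; rfl)
      obtain ⟨r, hr⟩ := WithTop.ne_top_iff_exists.1 hqt
      rw [← hm, ← hr] at e1
      have e3 : m = n + r := by exact_mod_cast e1
      rw [← hr] at e2
      have e4 : 0 < r := by exact_mod_cast e2
      rw [← hm]
      have e5 : -(2 * (k : ℤ)) ≤ m := by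
        obtain ⟨m', hm'⟩ := hmE
        omega
      exact_mod_cast e5
    obtain ⟨A, hA⟩ := ih h hhm hhper hheven hhord hh0
    refine ⟨A + Polynomial.C (g 0) * Polynomial.X ^ (k + 1), fun z => ?_⟩
    filter_upwards [hA z] with w hw
    rw [Polynomial.eval_add, Polynomial.eval_mul, Polynomial.eval_C, Polynomial.eval_pow,
      Polynomial.eval_X, ← hw, hh]
    ring

end Pool.Agent.ZCM
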