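import Pool.Agent.ZCM.GelRes
import Pool.Agent.ZCM.GelHt

/-! # G3: isolating a prime power factor -/

namespace Pool.Agent.ZCM
open Polynomial

theorem GelIso_unit (θ : ℂ) (x : ℤ[X]) (hx : IsUnit x) : ‖aeval θ x‖ = 1 := by
  obtain ⟨r, hr, rfl⟩ := Polynomial.isUnit_iff.1 hx
  rcases Int.isUnit_iff.1 hr with rfl | rfl <;> simp

/-- If every unitary factorisation of `q` has a factor of size at least `ε` and `q(θ)` is smaller
than `ε ^ 3`, then some prime power exactly dividing `q` is smaller than `ε` at `θ`. -/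
theorem GelIso_exists (θ : ℂ) (q : ℤ[X]) (ε : ℝ) (hε0 : 0 < ε) (hε1 : ε ≤ 1)
    (hq : ‖aeval θ q‖ < ε ^ 3)
    (hmax : ∀ A B : ℤ[X], q = A * B → IsRelPrime A B → ε ≤ max ‖aeval θ A‖ ‖aeval θ B‖)
    (hq0 : q ≠ 0) :
    ∃ (s : ℤ[X]) (k : ℕ) (B : ℤ[X]), Irreducible s ∧ 1 ≤ k ∧ q = s ^ k * B ∧
      IsRelPrime (s ^ k) B ∧ ‖aeval θ (s ^ k)‖ < ε := by
  have key : ∀ A : ℤ[X], A ≠ 0 → ∀ B : ℤ[X], q = A * B → IsRelPrime A B → ‖aeval θ A‖ < ε →
      ∃ (s : ℤ[X]) (k : ℕ) (B : ℤ[X]), Irreducible s ∧ 1 ≤ k ∧ q = s ^ k * B ∧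
      IsRelPrime (s ^ k) B ∧ ‖aeval θ (s ^ k)‖ < ε := by
    intro A
    refine UniqueFactorizationMonoid.induction_on_coprime (P := fun A : ℤ[X] => A ≠ 0 →
      ∀ B : ℤ[X], q = A * B → IsRelPrime A B → ‖aeval θ A‖ < ε →
      ∃ (s : ℤ[X]) (k : ℕ) (B : ℤ[X]), Irreducible s ∧ 1 ≤ k ∧ q = s ^ k * B ∧
      IsRelPrime (s ^ k) B ∧ ‖aeval θ (s ^ k)‖ < ε) A ?_ ?_ ?_ ?_
    · intro h; exact absurd rfl h
    · intro x hx _ B _ _ h
      rw [GelIso_unit θ x hx] at h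
      exact absurd h (not_lt.2 hε1)
    · intro p i hp _ B hB hrel h
      rcases Nat.eq_zero_or_pos i with hi | hi
      · subst hi
        rw [pow_zero, map_one, norm_one] at h
        exact absurd h (not_lt.2 hε1)
      · exact ⟨p, i, B, hp.irreducible, hi, hB, hrel, h⟩
    · intro x y hxy hx hy hxy0 B hB hrel h
      have hx0 : x ≠ 0 := left_ne_zero_of_mul hxy0
      have hy0 : y ≠ 0 := right_ne_zero_of_mul hxy0
      have hBε : ε ≤ ‖aeval θ B‖ := by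
        rcases le_max_iff.1 (hmax _ _ hB hrel) with h1 | h1
        · exact absurd h (not_lt.2 h1)
        · exact h1
      have hprod : ‖aeval θ q‖ = ‖aeval θ x‖ * ‖aeval θ y‖ * ‖aeval θ B‖ := by
        rw [hB, map_mul, map_mul, norm_mul, norm_mul]
      by_cases hx1 : ‖aeval θ x‖ < ε
      · refine hx hx0 (y * B) (by rw [hB, mul_assoc]) ?_ hx1
        exact hxy.mul_right hrel.of_mul_left_left
      · by_cases hy1 : ‖aeval θ y‖ < ε
        · refine hy hy0 (x * B) (by rw [hB]; ring) ?_ hy1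
          exact hxy.symm.mul_right hrel.of_mul_left_right
        · exfalso
          rw [not_lt] at hx1 hy1
          have h3 : ε ^ 3 ≤ ‖aeval θ q‖ := by
            rw [hprod]
            calc ε ^ 3 = ε * ε * ε := by ring
              _ ≤ ‖aeval θ x‖ * ‖aeval θ y‖ * ‖aeval θ B‖ := by gcongr
          exact absurd hq (not_lt.2 h3)
  refine key q hq0 1 (mul_one q).symm isRelPrime_one_right (hq.trans_le ?_)
  calc ε ^ 3 ≤ ε ^ 1 := pow_le_pow_of_le_one hε0.le hε1 (by norm_num)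
    _ = ε := pow_one ε

theorem isolate (δ : ℕ) (hδ : 1 ≤ δ) (θ : ℂ) : ∃ C : ℝ, 0 ≤ C ∧ ∀ (h : ℝ) (q : ℤ[X]), C ≤ h →
    q ≠ 0 → q.natDegree ≤ δ → nmZ q ≤ Real.exp h → ‖aeval θ q‖ ≤ Real.exp (-6 * δ * h) →
    ∃ (s : ℤ[X]) (k : ℕ), Irreducible s ∧ 1 ≤ s.natDegree ∧ 1 ≤ k ∧ s ^ k ∣ q ∧ k ≤ δ ∧
      nmZ (s ^ k) ≤ Real.exp (h + C) ∧ ‖aeval θ (s ^ k)‖ ≤ Real.exp (-5 * δ * h + C) := by
  obtain ⟨C1, hC1, hres⟩ := res_ineq δ θ
  obtain ⟨C2, hC2, hht⟩ := nmZ_mul_ge δ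
  have hC1' : 0 < C1 := by linarith
  have hC2' : 0 < C2 := by linarith
  have hl1 : 0 ≤ Real.log C1 := Real.log_nonneg hC1
  have hl2 : 0 ≤ Real.log C2 := Real.log_nonneg hC2
  have hδ' : (1:ℝ) ≤ (δ:ℝ) := by exact_mod_cast hδ
  set C' : ℝ := Real.log C1 + δ * Real.log C2 with hC'
  have hC'0 : 0 ≤ C' := by positivity
  refine ⟨C' + Real.log C2 + 1, by positivity, fun h q hh hq0 hqδ hqn hqθ => ?_⟩
  have hh0 : 0 < h := by linarith
  have hδh : h ≤ δ * h := le_mul_of_one_le_left hh0.le hδ'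
  set ε : ℝ := Real.exp (-(δ * h) - C') with hε
  have hε0 : 0 < ε := Real.exp_pos _
  have hε1 : ε ≤ 1 := by
    rw [hε, Real.exp_le_one_iff]; linarith
  have hmax : ∀ A B : ℤ[X], q = A * B → IsRelPrime A B →
      ε ≤ max ‖aeval θ A‖ ‖aeval θ B‖ := by
    intro A B hAB hrel
    have hA0 : A ≠ 0 := by rintro rfl; exact hq0 (by rw [hAB, zero_mul])
    have hB0 : B ≠ 0 := by rintro rfl; exact hq0 (by rw [hAB, mul_zero])
    have hAδ : A.natDegree ≤ δ :=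
      (Polynomial.natDegree_le_of_dvd ⟨B, hAB⟩ hq0).trans hqδ
    have hBδ : B.natDegree ≤ δ :=
      (Polynomial.natDegree_le_of_dvd ⟨A, by rw [hAB, mul_comm]⟩ hq0).trans hqδ
    have h1 := hres A B hA0 hB0 hrel hAδ hBδ
    have h2 : nmZ A * nmZ B ≤ C2 * Real.exp h := by
      refine (hht A B hA0 hB0 (hAB ▸ hqδ)).trans ?_
      rw [← hAB]
      exact mul_le_mul_of_nonneg_left hqn hC2'.le
    have hnA := one_le_nmZ A hA0
    have hnB := one_le_nmZ B hB0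
    set M := max ‖aeval θ A‖ ‖aeval θ B‖ with hM
    have hM0 : 0 ≤ M := le_max_of_le_left (norm_nonneg _)
    have h3 : 1 ≤ C1 * (C2 * Real.exp h) ^ δ * M := by
      refine h1.trans ?_
      have h4 : (nmZ A * nmZ B) ^ δ ≤ (C2 * Real.exp h) ^ δ :=
        pow_le_pow_left₀ (by positivity) h2 δ
      exact mul_le_mul_of_nonneg_right (mul_le_mul_of_nonneg_left h4 hC1'.le) hM0
    have h5 : C1 * (C2 * Real.exp h) ^ δ = Real.exp (δ * h + C') := by
      rw [mul_pow, ← Real.exp_nat_mul, hC', Real.exp_add, Real.exp_add, Real.exp_log hC1',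
        ← Real.log_pow, Real.exp_log (pow_pos hC2' δ)]
      ring
    rw [h5] at h3
    have h6 : ε * Real.exp (δ * h + C') = 1 := by
      rw [hε, ← Real.exp_add]
      have : -(↑δ * h) - C' + (↑δ * h + C') = 0 := by ring
      rw [this, Real.exp_zero]
    have h7 : 0 < Real.exp (δ * h + C') := Real.exp_pos _
    nlinarith
  have hq3 : ‖aeval θ q‖ < ε ^ 3 := by
    refine hqθ.trans_lt ?_
    rw [hε, ← Real.exp_nat_mul, Real.exp_lt_exp]
    push_cast
    nlinarith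
  obtain ⟨s, k, B, hs, hk, hqs, hrel, hsε⟩ := GelIso_exists θ q ε hε0 hε1 hq3 hmax hq0
  have hsk0 : s ^ k ≠ 0 := pow_ne_zero _ hs.ne_zero
  have hB0 : B ≠ 0 := by rintro rfl; exact hq0 (by rw [hqs, mul_zero])
  have hBε : ε ≤ ‖aeval θ B‖ := by
    rcases le_max_iff.1 (hmax _ _ hqs hrel) with h1 | h1
    · exact absurd hsε (not_lt.2 h1)
    · exact h1
  -- the value
  have hval : ‖aeval θ (s ^ k)‖ ≤ Real.exp (-5 * δ * h + C') := by
    have h1 : ‖aeval θ (s ^ k)‖ * ‖aeval θ B‖ = ‖aeval θ q‖ := by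
      rw [← norm_mul, ← map_mul, ← hqs]
    have h2 : ‖aeval θ (s ^ k)‖ * ε ≤ Real.exp (-6 * δ * h) := by
      calc ‖aeval θ (s ^ k)‖ * ε ≤ ‖aeval θ (s ^ k)‖ * ‖aeval θ B‖ := by gcongr
        _ = ‖aeval θ q‖ := h1
        _ ≤ _ := hqθ
    have h3 : Real.exp (-5 * δ * h + C') * ε = Real.exp (-6 * δ * h) := by
      rw [hε, ← Real.exp_add]
      congr 1; ring
    rw [← h3] at h2
    exact le_of_mul_le_mul_right h2 hε0
  have hdvd : s ^ k ∣ q := ⟨B, hqs⟩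
  -- nonconstant
  have hsdeg : 1 ≤ s.natDegree := by
    by_contra hcon
    have h0 : s.natDegree = 0 := by omega
    obtain ⟨c, hc⟩ := Polynomial.natDegree_eq_zero.1 h0
    have hc0 : c ≠ 0 := by
      rintro rfl
      exact hs.ne_zero (by rw [← hc, map_zero])
    have h1 : (1:ℝ) ≤ ‖aeval θ (s ^ k)‖ := by
      rw [map_pow, norm_pow, ← hc, aeval_C]
      refine one_le_pow₀ ?_
      simp only [algebraMap_int_eq, eq_intCast]
      rw [Complex.norm_intCast]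
      exact_mod_cast Int.one_le_abs hc0
    have h2 : Real.exp (-5 * δ * h + C') < 1 := by
      rw [← Real.exp_zero, Real.exp_lt_exp]
      nlinarith
    linarith
  have hkδ : k ≤ δ := by
    have h1 := Polynomial.natDegree_le_of_dvd hdvd hq0
    rw [Polynomial.natDegree_pow] at h1
    calc k = k * 1 := (mul_one k).symm
      _ ≤ k * s.natDegree := Nat.mul_le_mul_left k hsdeg
      _ ≤ q.natDegree := h1
      _ ≤ δ := hqδ
  refine ⟨s, k, hs, hsdeg, hk, hdvd, hkδ, ?_, ?_⟩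
  · have h1 := hht (s ^ k) B hsk0 hB0 (hqs ▸ hqδ)
    rw [← hqs] at h1
    have h2 := one_le_nmZ B hB0
    have h3 := one_le_nmZ (s ^ k) hsk0
    calc nmZ (s ^ k) ≤ nmZ (s ^ k) * nmZ B := le_mul_of_one_le_right (by linarith) h2
      _ ≤ C2 * nmZ q := h1
      _ ≤ C2 * Real.exp h := mul_le_mul_of_nonneg_left hqn hC2'.le
      _ = Real.exp (h + Real.log C2) := by rw [Real.exp_add, Real.exp_log hC2']; ring
      _ ≤ Real.exp (h + (C' + Real.log C2 + 1)) := by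
          rw [Real.exp_le_exp]; linarith
  · refine hval.trans ?_
    rw [Real.exp_le_exp]; linarith

end Pool.Agent.ZCM
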