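import Pool.Agent.ZCM.GelIso

/-! # G4: Gelfond's criterion, fixed degree, linear threshold -/

namespace Pool.Agent.ZCM
open Polynomial Filter

lemma Gelfond_norm_unit (θ : ℂ) {u : ℤ[X]} (hu : IsUnit u) : ‖aeval θ u‖ = 1 := by
  rw [Polynomial.isUnit_iff] at hu
  obtain ⟨r, hr, rfl⟩ := hu
  rw [Int.isUnit_iff] at hr
  rcases hr with rfl | rfl <;> simp

lemma Gelfond_norm_assoc (θ : ℂ) {s t : ℤ[X]} (h : Associated s t) :
    ‖aeval θ s‖ = ‖aeval θ t‖ := by
  obtain ⟨u, rfl⟩ := h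
  rw [map_mul, norm_mul, Gelfond_norm_unit θ u.isUnit, mul_one]

theorem gelfond (δ : ℕ) (hδ : 1 ≤ δ) (θ : ℂ) (h : ℕ → ℝ) (hh : Tendsto h atTop atTop) (T0 : ℕ)
    (h2 : ∀ T ≥ T0, h (T + 1) ≤ 2 * h T) (hmono : ∀ T ≥ T0, h T ≤ h (T + 1)) (q : ℕ → ℤ[X])
    (hq : ∀ T ≥ T0, q T ≠ 0 ∧ (q T).natDegree ≤ δ ∧ nmZ (q T) ≤ Real.exp (h T) ∧
      ‖aeval θ (q T)‖ ≤ Real.exp (-6 * δ * h T)) :
    IsAlgebraic ℚ θ := by
  obtain ⟨C, hC, hiso⟩ := isolate δ hδ θ
  obtain ⟨C', hC', hres⟩ := res_ineq δ θ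
  have hδR : (1 : ℝ) ≤ δ := by exact_mod_cast hδ
  -- thresholds
  have hev : ∀ᶠ T in atTop, C ≤ h T ∧ Real.log C' + 2 * δ * C + C < 2 * δ * h T := by
    have h1 : Tendsto (fun T => 2 * (δ : ℝ) * h T) atTop atTop :=
      hh.const_mul_atTop (by positivity)
    filter_upwards [hh.eventually_ge_atTop C, h1.eventually_gt_atTop
      (Real.log C' + 2 * δ * C + C)] with T ha hb
    exact ⟨ha, hb⟩
  obtain ⟨T1, hT1⟩ := eventually_atTop.1 hev
  set T2 := max T0 T1 with hT2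
  have hT20 : ∀ T, T2 ≤ T → T0 ≤ T := fun T hT => (le_max_left _ _).trans hT
  have hT21 : ∀ T, T2 ≤ T → T1 ≤ T := fun T hT => (le_max_right _ _).trans hT
  have hex : ∀ T, ∃ (s : ℤ[X]) (k : ℕ), T2 ≤ T → (Irreducible s ∧ 1 ≤ k ∧ s ^ k ∣ q T ∧
      k ≤ δ ∧ nmZ (s ^ k) ≤ Real.exp (h T + C) ∧
      ‖aeval θ (s ^ k)‖ ≤ Real.exp (-5 * δ * h T + C)) := by
    intro T
    by_cases hT : T2 ≤ T
    · obtain ⟨ha, hb, hc, hd⟩ := hq T (hT20 T hT)
      obtain ⟨s, k, h1, _, h3, h4, h5, h6, h7⟩ := hiso (h T) (q T) (hT1 T (hT21 T hT)).1 ha hb hc hd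
      exact ⟨s, k, fun _ => ⟨h1, h3, h4, h5, h6, h7⟩⟩
    · exact ⟨0, 0, fun h => absurd h hT⟩
  choose s k hsk using hex
  -- consecutive primes are associated
  have hassoc : ∀ T, T2 ≤ T → Associated (s T) (s (T + 1)) := by
    intro T hT
    obtain ⟨a1, a2, a3, a4, a5, a6⟩ := hsk T hT
    obtain ⟨b1, b2, b3, b4, b5, b6⟩ := hsk (T + 1) (hT.trans (Nat.le_succ T))
    by_contra hna
    have hrel : IsRelPrime (s T ^ k T) (s (T + 1) ^ k (T + 1)) := by
      apply IsRelPrime.pow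
      exact a1.isRelPrime_iff_not_dvd.2 fun hd => hna (a1.associated_of_dvd b1 hd)
    have hd1 : (s T ^ k T).natDegree ≤ δ :=
      (natDegree_le_of_dvd a3 (hq T (hT20 T hT)).1).trans (hq T (hT20 T hT)).2.1
    have hd2 : (s (T + 1) ^ k (T + 1)).natDegree ≤ δ :=
      (natDegree_le_of_dvd b3 (hq (T + 1) (hT20 _ (hT.trans (Nat.le_succ T)))).1).trans
        (hq (T + 1) (hT20 _ (hT.trans (Nat.le_succ T)))).2.1
    have h5 := hres _ _ (pow_ne_zero _ a1.ne_zero) (pow_ne_zero _ b1.ne_zero) hrel hd1 hd2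
    have hle : h T ≤ h (T + 1) := hmono T (hT20 T hT)
    have hle2 : h (T + 1) ≤ 2 * h T := h2 T (hT20 T hT)
    have h6 : max ‖aeval θ (s T ^ k T)‖ ‖aeval θ (s (T + 1) ^ k (T + 1))‖ ≤
        Real.exp (-5 * δ * h T + C) := by
      refine max_le a6 (b6.trans (Real.exp_le_exp.2 ?_))
      have : (δ : ℝ) * h T ≤ δ * h (T + 1) := mul_le_mul_of_nonneg_left hle (by positivity)
      linarith
    have h7 : nmZ (s T ^ k T) * nmZ (s (T + 1) ^ k (T + 1)) ≤ Real.exp (3 * h T + 2 * C) := by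
      calc nmZ (s T ^ k T) * nmZ (s (T + 1) ^ k (T + 1))
          ≤ Real.exp (h T + C) * Real.exp (h (T + 1) + C) :=
            mul_le_mul a5 b5 (nm1_nonneg _) (Real.exp_pos _).le
        _ = Real.exp (h T + C + (h (T + 1) + C)) := by rw [← Real.exp_add]
        _ ≤ Real.exp (3 * h T + 2 * C) := Real.exp_le_exp.2 (by linarith)
    have h8 : 1 ≤ C' * (Real.exp (3 * h T + 2 * C)) ^ δ * Real.exp (-5 * δ * h T + C) := by
      refine h5.trans ?_
      have h9 : 0 ≤ nmZ (s T ^ k T) * nmZ (s (T + 1) ^ k (T + 1)) :=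
        mul_nonneg (nm1_nonneg _) (nm1_nonneg _)
      have h10 : (nmZ (s T ^ k T) * nmZ (s (T + 1) ^ k (T + 1))) ^ δ ≤
          (Real.exp (3 * h T + 2 * C)) ^ δ := pow_le_pow_left₀ h9 h7 δ
      have h11 : (0:ℝ) ≤ max ‖aeval θ (s T ^ k T)‖ ‖aeval θ (s (T + 1) ^ k (T + 1))‖ :=
        le_max_of_le_left (norm_nonneg _)
      have hC'0 : 0 ≤ C' := by linarith
      exact mul_le_mul (mul_le_mul_of_nonneg_left h10 hC'0) h6 h11
        (mul_nonneg hC'0 (pow_nonneg (Real.exp_pos _).le _))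
    have h12 : C' * (Real.exp (3 * h T + 2 * C)) ^ δ * Real.exp (-5 * δ * h T + C) =
        Real.exp (Real.log C' + 2 * δ * C + C - 2 * δ * h T) := by
      rw [← Real.exp_nat_mul]
      conv_lhs => rw [← Real.exp_log (show 0 < C' by linarith)]
      rw [← Real.exp_add, ← Real.exp_add]
      congr 1
      ring
    rw [h12] at h8
    have h13 := (hT1 T (hT21 T hT)).2
    have h14 : Real.exp (Real.log C' + 2 * δ * C + C - 2 * δ * h T) < 1 := by
      rw [Real.exp_lt_one_iff]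
      linarith
    linarith
  have hassoc2 : ∀ n : ℕ, Associated (s T2) (s (T2 + n)) := by
    intro n
    induction n with
    | zero => exact Associated.refl _
    | succ n ih => exact ih.trans (hassoc (T2 + n) (Nat.le_add_right _ _))
  -- the value at `θ` vanishes
  have hzero : aeval θ (s T2) = 0 := by
    by_contra hne
    set c := ‖aeval θ (s T2)‖ with hc
    have hc0 : 0 < c := norm_pos_iff.2 hne
    have hlow : ∀ n : ℕ, (min 1 c) ^ δ ≤ Real.exp (-5 * δ * h (T2 + n) + C) := by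
      intro n
      obtain ⟨a1, a2, a3, a4, a5, a6⟩ := hsk (T2 + n) (Nat.le_add_right _ _)
      refine le_trans ?_ a6
      rw [map_pow, norm_pow, ← Gelfond_norm_assoc θ (hassoc2 n), ← hc]
      have hm0 : 0 ≤ min 1 c := le_min zero_le_one hc0.le
      calc (min 1 c) ^ δ ≤ (min 1 c) ^ k (T2 + n) :=
            pow_le_pow_of_le_one hm0 (min_le_left _ _) a4
        _ ≤ c ^ k (T2 + n) := pow_le_pow_left₀ hm0 (min_le_right _ _) _
    have hlim : Tendsto (fun n : ℕ => Real.exp (-5 * δ * h (T2 + n) + C)) atTop (nhds 0) := by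
      apply Real.tendsto_exp_atBot.comp
      apply tendsto_atBot_add_const_right
      have h1 : Tendsto (fun n : ℕ => h (T2 + n)) atTop atTop := by
        have := (tendsto_add_atTop_iff_nat T2).2 hh
        simpa [add_comm] using this
      exact h1.const_mul_atTop_of_neg (by linarith)
    have := ge_of_tendsto' hlim hlow
    have hpos : 0 < (min 1 c) ^ δ := pow_pos (lt_min one_pos hc0) _
    linarith
  have halg : IsAlgebraic ℤ θ := ⟨s T2, (hsk T2 le_rfl).1.ne_zero, hzero⟩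
  exact (IsFractionRing.isAlgebraic_iff ℤ ℚ ℂ).1 halg

end Pool.Agent.ZCM
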