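import Pool.Agent.ZCM.Quasi
import Pool.Agent.ZCM.Size
import Pool.Agent.ZCM.GoodPt

/-! # W3b: evaluation at a good lattice point -/

namespace Pool.Agent.ZCM
open Filter Topology Asymptotics PowerSeries NumberField
open scoped NNReal ENNReal

section LatEvalAlg
variable {R S : Type*} [CommRing R] [CommRing S]

/-- the coefficients of `X^j (X^3+aX+b)^k` -/
noncomputable def LatEval_q (a b : R) (j k i : ℕ) : R :=
  ((Polynomial.X : Polynomial R) ^ j *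
    (Polynomial.X ^ 3 + Polynomial.C a * Polynomial.X + Polynomial.C b) ^ k).coeff i

theorem LatEval_q_map (f : R →+* S) (a b : R) (j k i : ℕ) :
    f (LatEval_q a b j k i) = LatEval_q (f a) (f b) j k i := by
  unfold LatEval_q
  rw [← Polynomial.coeff_map]
  simp

theorem LatEval_q_sum (a b x : R) (j k D : ℕ) (h : j + 3 * k ≤ D) :
    ∑ i ∈ Finset.range (D + 1), LatEval_q a b j k i * x ^ i
      = x ^ j * (x ^ 3 + a * x + b) ^ k := by
  unfold LatEval_q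
  rw [← Polynomial.eval_eq_sum_range']
  · simp
  · refine Nat.lt_succ_of_le (le_trans Polynomial.natDegree_mul_le ?_)
    refine le_trans (add_le_add (Polynomial.natDegree_X_pow_le j) Polynomial.natDegree_pow_le) ?_
    have h3 : (Polynomial.X ^ 3 + Polynomial.C a * Polynomial.X
        + Polynomial.C b : Polynomial R).natDegree ≤ 3 := by compute_degree
    have := Nat.mul_le_mul_left k h3
    omega

/-- the coefficient (in `R[z]`) of `X^i y^ε` in the reduction of `p` modulo `y^2=X^3+aX+b` -/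
noncomputable def LatEval_r (a b : R) (p : MvPolynomial (Fin 3) R) (ε i : ℕ) : Polynomial R :=
  ∑ m ∈ p.support, if m 2 % 2 = ε then
    Polynomial.monomial (m 0) (p.coeff m * LatEval_q a b (m 1) (m 2 / 2) i) else 0

theorem LatEval_r_eval (f : R →+* S) (a b : R) (p : MvPolynomial (Fin 3) R) (ε i : ℕ) (z : S) :
    ((LatEval_r a b p ε i).map f).eval z = ∑ m ∈ p.support, if m 2 % 2 = ε then
      f (p.coeff m) * LatEval_q (f a) (f b) (m 1) (m 2 / 2) i * z ^ (m 0) else 0 := by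
  unfold LatEval_r
  rw [Polynomial.map_sum, Polynomial.eval_finsetSum]
  refine Finset.sum_congr rfl fun m _ => ?_
  split_ifs
  · rw [Polynomial.map_monomial, Polynomial.eval_monomial, map_mul, LatEval_q_map]
  · simp

theorem LatEval_r_natDegree (a b : R) (p : MvPolynomial (Fin 3) R) (ε i l : ℕ)
    (h : p.degreeOf 0 ≤ l) : (LatEval_r a b p ε i).natDegree ≤ l := by
  unfold LatEval_r
  refine Polynomial.natDegree_sum_le_of_forall_le _ _ fun m hm => ?_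
  split_ifs
  · exact (Polynomial.natDegree_monomial_le _).trans (MvPolynomial.degreeOf_le_iff.mp h m hm)
  · simp

theorem LatEval_nm (f : R →+* ℂ) (p : MvPolynomial (Fin 3) R) :
    ∑ m ∈ p.support, ‖f (p.coeff m)‖ = nm (MvPolynomial.map f p) := by
  unfold nm
  symm
  rw [Finset.sum_subset (MvPolynomial.support_map_subset f p)]
  · refine Finset.sum_congr rfl fun m _ => ?_
    rw [MvPolynomial.coeff_map]
  · intro m _ hm
    simpa using hm

theorem LatEval_r_coeff (f : R →+* ℂ) (a b : R) (p : MvPolynomial (Fin 3) R) (ε i c n : ℕ)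
    (B : ℝ) (h1 : p.degreeOf 1 ≤ c) (h2 : p.degreeOf 2 ≤ c)
    (hB : ∀ j ≤ c, ∀ k ≤ c, ‖LatEval_q (f a) (f b) j k i‖ ≤ B) :
    ‖f ((LatEval_r a b p ε i).coeff n)‖ ≤ nm (MvPolynomial.map f p) * B := by
  have hB0 : 0 ≤ B := (norm_nonneg _).trans (hB 0 (Nat.zero_le _) 0 (Nat.zero_le _))
  unfold LatEval_r
  rw [Polynomial.finsetSum_coeff, map_sum, ← LatEval_nm, Finset.sum_mul]
  refine (norm_sum_le _ _).trans (Finset.sum_le_sum fun m hm => ?_)
  have hm1 : m 1 ≤ c := MvPolynomial.degreeOf_le_iff.mp h1 m hm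
  have hm2 : m 2 / 2 ≤ c := (Nat.div_le_self _ _).trans (MvPolynomial.degreeOf_le_iff.mp h2 m hm)
  have key : ‖f (p.coeff m * LatEval_q a b (m 1) (m 2 / 2) i)‖ ≤ ‖f (p.coeff m)‖ * B := by
    rw [map_mul, norm_mul, LatEval_q_map]
    exact mul_le_mul_of_nonneg_left (hB _ hm1 _ hm2) (norm_nonneg _)
  split_ifs
  · rw [Polynomial.coeff_monomial]
    split_ifs
    · exact key
    · simpa using mul_nonneg (norm_nonneg (f (p.coeff m))) hB0
  · simpa using mul_nonneg (norm_nonneg (f (p.coeff m))) hB0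

theorem LatEval_total (f : R →+* S) (a b : R) (p : MvPolynomial (Fin 3) R) (c D : ℕ)
    (hD : 4 * c ≤ D) (h1 : p.degreeOf 1 ≤ c) (h2 : p.degreeOf 2 ≤ c) (v : Fin 3 → S)
    (hy : v 2 ^ 2 = v 1 ^ 3 + f a * v 1 + f b) :
    ∑ ε ∈ Finset.range 2, ∑ i ∈ Finset.range (D + 1),
      ((LatEval_r a b p ε i).map f).eval (v 0) * v 1 ^ i * v 2 ^ ε
      = MvPolynomial.eval v (MvPolynomial.map f p) := by
  rw [MvPolynomial.eval_map, MvPolynomial.eval₂_eq']
  simp only [LatEval_r_eval, Finset.sum_mul]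
  have e1 : ∀ ε ∈ Finset.range 2, ∑ i ∈ Finset.range (D + 1), ∑ m ∈ p.support,
      (if m 2 % 2 = ε then f (p.coeff m) * LatEval_q (f a) (f b) (m 1) (m 2 / 2) i * v 0 ^ (m 0)
        else 0) * v 1 ^ i * v 2 ^ ε
      = ∑ m ∈ p.support, ∑ i ∈ Finset.range (D + 1),
      (if m 2 % 2 = ε then f (p.coeff m) * LatEval_q (f a) (f b) (m 1) (m 2 / 2) i * v 0 ^ (m 0)
        else 0) * v 1 ^ i * v 2 ^ ε := fun ε _ => Finset.sum_comm
  rw [Finset.sum_congr rfl e1, Finset.sum_comm]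
  refine Finset.sum_congr rfl fun m hm => ?_
  have hm1 : m 1 ≤ c := MvPolynomial.degreeOf_le_iff.mp h1 m hm
  have hm2 : m 2 ≤ c := MvPolynomial.degreeOf_le_iff.mp h2 m hm
  rw [Finset.sum_eq_single_of_mem (m 2 % 2) (Finset.mem_range.mpr (Nat.mod_lt _ two_pos))]
  · simp only [if_true]
    have e2 : ∀ i ∈ Finset.range (D + 1),
        f (p.coeff m) * LatEval_q (f a) (f b) (m 1) (m 2 / 2) i * v 0 ^ (m 0) * v 1 ^ i
          * v 2 ^ (m 2 % 2)
        = (f (p.coeff m) * v 0 ^ (m 0) * v 2 ^ (m 2 % 2)) *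
          (LatEval_q (f a) (f b) (m 1) (m 2 / 2) i * v 1 ^ i) := fun i _ => by ring
    rw [Finset.sum_congr rfl e2, ← Finset.mul_sum, LatEval_q_sum _ _ _ _ _ _ (by omega),
      Fin.prod_univ_three, ← hy, ← pow_mul]
    have e3 : v 2 ^ (m 2) = v 2 ^ (m 2 % 2) * v 2 ^ (2 * (m 2 / 2)) := by
      rw [← pow_add, Nat.mod_add_div]
    rw [e3]
    ring
  · intro ε _ hne
    refine Finset.sum_eq_zero fun i _ => ?_
    rw [if_neg (Ne.symm hne)]
    ring

end LatEvalAlg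

/-- the power series version of `LatEval_r` -/
noncomputable def LatEval_PS {R : Type*} [CommRing R] (f : R →+* ℂ) (a b : R)
    (p : MvPolynomial (Fin 3) R) (ε i : ℕ) : ℂ⟦X⟧ :=
  ∑ m ∈ p.support, if m 2 % 2 = ε then
    C (f (p.coeff m) * LatEval_q (f a) (f b) (m 1) (m 2 / 2) i) * X ^ (m 0) else 0

theorem LatEval_PS_ent {R : Type*} [CommRing R] (f : R →+* ℂ) (a b : R)
    (p : MvPolynomial (Fin 3) R) (ε i : ℕ) : Ent (LatEval_PS f a b p ε i) := by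
  refine Ent_sum _ _ fun m _ => ?_
  split_ifs
  · exact (Ent_C _).mul (Ent_X.pow _)
  · have := Ent_C 0
    rwa [map_zero] at this

theorem LatEval_PS_ev {R : Type*} [CommRing R] (f : R →+* ℂ) (a b : R)
    (p : MvPolynomial (Fin 3) R) (ε i : ℕ) (z : ℂ) :
    ev (LatEval_PS f a b p ε i) z = ((LatEval_r a b p ε i).map f).eval z := by
  unfold LatEval_PS
  rw [LatEval_r_eval, ev_sum]
  · refine Finset.sum_congr rfl fun m _ => ?_
    split_ifs
    · rw [ev_mul (Ent_C _) (Ent_X.pow _), ev_C, ev_pow Ent_X, ev_X]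
    · have := ev_C 0 z
      rwa [map_zero] at this
  · intro m _
    split_ifs
    · exact (Ent_C _).mul (Ent_X.pow _)
    · have := Ent_C 0
      rwa [map_zero] at this

theorem LatEval_PS_nr {R : Type*} [CommRing R] (f : R →+* ℂ) (a b : R)
    (p : MvPolynomial (Fin 3) R) (ε i c l : ℕ) (B : ℝ) (h0 : p.degreeOf 0 ≤ l)
    (h1 : p.degreeOf 1 ≤ c) (h2 : p.degreeOf 2 ≤ c)
    (hB : ∀ j ≤ c, ∀ k ≤ c, ‖LatEval_q (f a) (f b) j k i‖ ≤ B) (r : ℝ≥0) :
    nr r (LatEval_PS f a b p ε i) ≤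
      ENNReal.ofReal (nm (MvPolynomial.map f p) * B * max 1 (r : ℝ) ^ l) := by
  have hB0 : 0 ≤ B := (norm_nonneg _).trans (hB 0 (Nat.zero_le _) 0 (Nat.zero_le _))
  have hM : (1 : ℝ) ≤ max 1 (r : ℝ) := le_max_left _ _
  unfold LatEval_PS
  rw [← LatEval_nm, Finset.sum_mul, Finset.sum_mul, ENNReal.ofReal_sum_of_nonneg]
  swap
  · intro m _
    positivity
  refine (nr_sum_le _ _ _).trans (Finset.sum_le_sum fun m hm => ?_)
  have hm0 : m 0 ≤ l := MvPolynomial.degreeOf_le_iff.mp h0 m hm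
  have hm1 : m 1 ≤ c := MvPolynomial.degreeOf_le_iff.mp h1 m hm
  have hm2 : m 2 / 2 ≤ c := (Nat.div_le_self _ _).trans (MvPolynomial.degreeOf_le_iff.mp h2 m hm)
  split_ifs
  · refine (nr_mul_le _ _ _).trans ?_
    rw [nr_C]
    refine (mul_le_mul' le_rfl (nr_pow_le _ _ _)).trans ?_
    rw [nr_X]
    have e : ((‖f (p.coeff m) * LatEval_q (f a) (f b) (m 1) (m 2 / 2) i‖₊ : ℝ≥0) : ℝ≥0∞)
        * (r : ℝ≥0∞) ^ (m 0)
        = ENNReal.ofReal (‖f (p.coeff m) * LatEval_q (f a) (f b) (m 1) (m 2 / 2) i‖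
          * (r : ℝ) ^ (m 0)) := by
      rw [ENNReal.ofReal_mul (norm_nonneg _), ENNReal.ofReal_pow (NNReal.coe_nonneg r),
        ENNReal.ofReal_coe_nnreal, ← coe_nnnorm, ENNReal.ofReal_coe_nnreal]
    rw [e]
    refine ENNReal.ofReal_le_ofReal ?_
    refine mul_le_mul ?_ ?_ (by positivity) (by positivity)
    · rw [norm_mul]
      exact mul_le_mul_of_nonneg_left (hB _ hm1 _ hm2) (norm_nonneg _)
    · calc (r : ℝ) ^ (m 0) ≤ max 1 (r : ℝ) ^ (m 0) :=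
            pow_le_pow_left₀ (NNReal.coe_nonneg r) (le_max_right _ _) _
        _ ≤ max 1 (r : ℝ) ^ l := pow_le_pow_right₀ hM hm0
  · have e : nr r (0 : ℂ⟦X⟧) = 0 := by
      have := nr_C r 0
      rw [map_zero] at this
      rw [this]; simp
    rw [e]
    exact bot_le

theorem LatEval_single {α : Type*} (s : Finset α) (f : α → ℝ) (h0 : ∀ i, 0 ≤ f i) (i : α)
    (hi : i ∈ s) : f i ≤ ∑ j ∈ s, f j :=
  Finset.single_le_sum (fun j _ => h0 j) hi

/-- a common bound for the coefficients of `X^j (X^3+aX+b)^k` -/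
theorem LatEval_bound {K : Type*} [Field K] [NumberField K] (a b : 𝓞 K) (c D : ℕ) :
    ∃ B : ℝ, 1 ≤ B ∧ ∀ σ : K →+* ℂ, ∀ i ≤ D, ∀ j ≤ c, ∀ k ≤ c,
      ‖LatEval_q (oc σ a) (oc σ b) j k i‖ ≤ B := by
  classical
  refine ⟨1 + ∑ σ : K →+* ℂ, ∑ i ∈ Finset.range (D + 1), ∑ j ∈ Finset.range (c + 1),
    ∑ k ∈ Finset.range (c + 1), ‖LatEval_q (oc σ a) (oc σ b) j k i‖, ?_, ?_⟩
  · have : 0 ≤ ∑ σ : K →+* ℂ, ∑ i ∈ Finset.range (D + 1), ∑ j ∈ Finset.range (c + 1),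
      ∑ k ∈ Finset.range (c + 1), ‖LatEval_q (oc σ a) (oc σ b) j k i‖ := by positivity
    linarith
  · intro σ i hi j hj k hk
    have s1 : ‖LatEval_q (oc σ a) (oc σ b) j k i‖ ≤ ∑ k ∈ Finset.range (c + 1),
        ‖LatEval_q (oc σ a) (oc σ b) j k i‖ :=
      LatEval_single (Finset.range (c + 1)) (fun k => ‖LatEval_q (oc σ a) (oc σ b) j k i‖)
        (fun _ => norm_nonneg _) k (Finset.mem_range.mpr (by omega))
    have s2 : ∑ k ∈ Finset.range (c + 1), ‖LatEval_q (oc σ a) (oc σ b) j k i‖ ≤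
        ∑ j ∈ Finset.range (c + 1), ∑ k ∈ Finset.range (c + 1),
        ‖LatEval_q (oc σ a) (oc σ b) j k i‖ :=
      LatEval_single (Finset.range (c + 1)) (fun j => ∑ k ∈ Finset.range (c + 1),
        ‖LatEval_q (oc σ a) (oc σ b) j k i‖)
        (fun _ => Finset.sum_nonneg fun _ _ => norm_nonneg _) j (Finset.mem_range.mpr (by omega))
    have s3 : ∑ j ∈ Finset.range (c + 1), ∑ k ∈ Finset.range (c + 1),
        ‖LatEval_q (oc σ a) (oc σ b) j k i‖ ≤ ∑ i ∈ Finset.range (D + 1),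
        ∑ j ∈ Finset.range (c + 1), ∑ k ∈ Finset.range (c + 1),
        ‖LatEval_q (oc σ a) (oc σ b) j k i‖ :=
      LatEval_single (Finset.range (D + 1)) (fun i => ∑ j ∈ Finset.range (c + 1),
        ∑ k ∈ Finset.range (c + 1), ‖LatEval_q (oc σ a) (oc σ b) j k i‖)
        (fun _ => Finset.sum_nonneg fun _ _ => Finset.sum_nonneg fun _ _ => norm_nonneg _) i
        (Finset.mem_range.mpr (by omega))
    have s4 := LatEval_single (Finset.univ) (fun σ : K →+* ℂ => ∑ i ∈ Finset.range (D + 1),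
        ∑ j ∈ Finset.range (c + 1), ∑ k ∈ Finset.range (c + 1),
        ‖LatEval_q (oc σ a) (oc σ b) j k i‖)
        (fun _ => Finset.sum_nonneg fun _ _ => Finset.sum_nonneg fun _ _ =>
          Finset.sum_nonneg fun _ _ => norm_nonneg _) σ (Finset.mem_univ σ)
    have s5 := s1.trans (s2.trans (s3.trans s4))
    exact s5.trans (le_add_of_nonneg_left zero_le_one)

theorem LatEval_log {H B : ℝ} (hH : 1 ≤ H) (hB : 1 ≤ B) :
    Real.log (H * B) = Real.log H + Real.log B :=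
  Real.log_mul (by linarith) (by linarith)

theorem LatEval_sqrt (m n : ℕ) (X : ℝ) (h : (m : ℝ) ^ 2 + (n : ℝ) ^ 2 ≤ X) :
    (m : ℝ) ≤ Real.sqrt X ∧ (n : ℝ) ≤ Real.sqrt X :=
  ⟨Real.le_sqrt_of_sq_le (by nlinarith [sq_nonneg (n : ℝ)]),
    Real.le_sqrt_of_sq_le (by nlinarith [sq_nonneg (m : ℝ)])⟩

theorem latEval (L : PeriodPair) {K : Type*} [Field K] [NumberField K] (ι : K →+* ℂ) (a b : 𝓞 K)
    (h2 : L.g₂ = -4 * oc ι a) (h3 : L.g₃ = -4 * oc ι b) (c : ℕ) :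
    ∃ C : ℝ, 0 ≤ C ∧ ∀ (l : ℕ) (H : ℝ) (Rp : MvPolynomial (Fin 3) (𝓞 K)), 1 ≤ H →
      Rp.degreeOf 0 ≤ l → Rp.degreeOf 1 ≤ c → Rp.degreeOf 2 ≤ c →
      (∀ σ : K →+* ℂ, nm (MvPolynomial.map (oc σ) Rp) ≤ H) →
      (∃ z, z ∉ L.lattice ∧ MvPolynomial.eval (v3 L z) (MvPolynomial.map (oc ι) Rp) ≠ 0) →
      ∃ (w0 : ℕ) (G : ℂ⟦X⟧) (ω : ℂ), (w0 : ℝ) ≤ C ∧
        (∀ r : ℝ≥0, nr r G ≤ ENNReal.ofReal
          (C * H * max 1 (r : ℝ) ^ l * Real.exp (C * (1 + (r : ℝ) ^ 2)))) ∧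
        (∀ z, z ∉ L.lattice → ev G z = ev (SS (oc ι a) (oc ι b)) z ^ w0 *
          MvPolynomial.eval (v3 L z) (MvPolynomial.map (oc ι) Rp)) ∧
        ‖ω‖ ≤ C * Real.sqrt (l + 1) ∧
        Real.exp (-C * (Real.log H + l + 1)) ≤ ‖ev G ω‖ := by
  classical
  set D : ℕ := 4 * c with hDdef
  set W : ℕ := 2 * D + 3 with hWdef
  obtain ⟨Cg, hCg0, hg⟩ := grow (oc ι a) (oc ι b)
  obtain ⟨Cr, hCr0, hr⟩ := RR_lower L _ _ h2 h3
  obtain ⟨Cp, hCp0, hp⟩ := good_point L ι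
  obtain ⟨B, hB1, hB⟩ := LatEval_bound a b c D
  have hlB : 0 ≤ Real.log B := Real.log_nonneg hB1
  set Om : ℝ := ‖L.ω₁‖ + ‖L.ω₂‖ with hOm
  have hOm0 : 0 ≤ Om := by positivity
  set C1 : ℝ := 2 * (D + 1) * B with hC1
  set C2 : ℝ := (D + 1 + W) * Cg with hC2
  set C3 : ℝ := Real.sqrt Cp * Om with hC3
  set C4 : ℝ := Cp + Cp * Real.log B + W * Cr * Cp + W * Cr with hC4
  have hC1' : 0 ≤ C1 := by positivity
  have hC2' : 0 ≤ C2 := by positivity
  have hC3' : 0 ≤ C3 := by positivity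
  have hC4' : 0 ≤ C4 := by positivity
  have hW0 : (0 : ℝ) ≤ W := Nat.cast_nonneg _
  refine ⟨C1 + C2 + C3 + C4 + W, by positivity, ?_⟩
  intro l H Rp hH hl h1 h2' hnm hne
  -- a nonzero coefficient
  have hex : ∃ e ∈ (Finset.range 2 ×ˢ Finset.range (D + 1)), LatEval_r a b Rp e.1 e.2 ≠ 0 := by
    by_contra hcon
    push Not at hcon
    obtain ⟨z, hz, hzne⟩ := hne
    apply hzne
    rw [← LatEval_total (oc ι) a b Rp c D le_rfl h1 h2' (v3 L z)]
    · refine Finset.sum_eq_zero fun ε hε => Finset.sum_eq_zero fun i hi => ?_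
      rw [hcon (ε, i) (Finset.mem_product.mpr ⟨hε, hi⟩)]
      simp
    · exact ode L _ _ h2 h3 hz
  obtain ⟨e₀, he₀, hmax⟩ := Finset.exists_max_image
    ((Finset.range 2 ×ˢ Finset.range (D + 1)).filter fun e => LatEval_r a b Rp e.1 e.2 ≠ 0)
    (fun e => 2 * e.2 + 3 * e.1) (by
      obtain ⟨e, he, hne'⟩ := hex
      exact ⟨e, Finset.mem_filter.mpr ⟨he, hne'⟩⟩)
  obtain ⟨ε₀, i₀⟩ := e₀
  simp only [Finset.mem_filter, Finset.mem_product, Finset.mem_range] at he₀ hmax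
  obtain ⟨⟨hε₀, hi₀⟩, hr₀⟩ := he₀
  have hmax' : ∀ ε < 2, ∀ i < D + 1, 2 * i₀ + 3 * ε₀ < 2 * i + 3 * ε →
      LatEval_r a b Rp ε i = 0 := by
    intro ε hε i hi hlt
    by_contra hcon
    have := hmax (ε, i) ⟨⟨hε, hi⟩, hcon⟩
    simp only at this
    omega
  clear hmax
  set w0 : ℕ := 2 * i₀ + 3 * ε₀ with hw0
  have hw0W : w0 ≤ W := by omega
  have hcoeff : ∀ σ : K →+* ℂ, ∀ n, ‖oc σ ((LatEval_r a b Rp ε₀ i₀).coeff n)‖ ≤ H * B := by
    intro σ n
    refine (LatEval_r_coeff (oc σ) a b Rp ε₀ i₀ c n B h1 h2' fun j hj k hk =>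
      hB σ i₀ (by omega) j hj k hk).trans ?_
    exact mul_le_mul_of_nonneg_right (hnm σ) (by linarith)
  obtain ⟨m, n, hmn, hlow⟩ := hp l (H * B) (LatEval_r a b Rp ε₀ i₀) (by nlinarith) hr₀
    (LatEval_r_natDegree a b Rp ε₀ i₀ l hl) hcoeff
  set ω : ℂ := (m : ℂ) * L.ω₁ + n * L.ω₂ with hω
  have hωL : ω ∈ L.lattice := by
    have e1 : (m : ℂ) * L.ω₁ = m • L.ω₁ := by rw [nsmul_eq_mul]
    have e2 : (n : ℂ) * L.ω₂ = n • L.ω₂ := by rw [nsmul_eq_mul]
    rw [hω, e1, e2]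
    exact add_mem (nsmul_mem L.ω₁_mem_lattice m) (nsmul_mem L.ω₂_mem_lattice n)
  have hent : ∀ ε i : ℕ, Ent (LatEval_PS (oc ι) a b Rp ε i * QQ (oc ι a) (oc ι b) ^ i *
      qq (oc ι a) (oc ι b) ^ ε * SS (oc ι a) (oc ι b) ^ (w0 - (2 * i + 3 * ε))) := fun ε i =>
    (((LatEval_PS_ent _ _ _ _ _ _).mul ((Gr_QQ _ _).ent.pow _)).mul
      ((Gr_qq _ _).ent.pow _)).mul ((Gr_SS _ _).ent.pow _)
  have hevt : ∀ (ε i : ℕ) (z : ℂ), ev (LatEval_PS (oc ι) a b Rp ε i * QQ (oc ι a) (oc ι b) ^ i *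
      qq (oc ι a) (oc ι b) ^ ε * SS (oc ι a) (oc ι b) ^ (w0 - (2 * i + 3 * ε))) z
      = ((LatEval_r a b Rp ε i).map (oc ι)).eval z * ev (QQ (oc ι a) (oc ι b)) z ^ i *
        ev (qq (oc ι a) (oc ι b)) z ^ ε *
        ev (SS (oc ι a) (oc ι b)) z ^ (w0 - (2 * i + 3 * ε)) := by
    intro ε i z
    rw [ev_mul (((LatEval_PS_ent _ _ _ _ _ _).mul ((Gr_QQ _ _).ent.pow _)).mul
      ((Gr_qq _ _).ent.pow _)) ((Gr_SS _ _).ent.pow _),
      ev_mul ((LatEval_PS_ent _ _ _ _ _ _).mul ((Gr_QQ _ _).ent.pow _))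
      ((Gr_qq _ _).ent.pow _), ev_mul (LatEval_PS_ent _ _ _ _ _ _) ((Gr_QQ _ _).ent.pow _),
      LatEval_PS_ev, ev_pow (Gr_QQ _ _).ent, ev_pow (Gr_qq _ _).ent, ev_pow (Gr_SS _ _).ent]
  set G : ℂ⟦X⟧ := ∑ ε ∈ Finset.range 2, ∑ i ∈ Finset.range (D + 1),
    LatEval_PS (oc ι) a b Rp ε i * QQ (oc ι a) (oc ι b) ^ i *
      qq (oc ι a) (oc ι b) ^ ε * SS (oc ι a) (oc ι b) ^ (w0 - (2 * i + 3 * ε)) with hG
  have hevG : ∀ z, ev G z = ∑ ε ∈ Finset.range 2, ∑ i ∈ Finset.range (D + 1),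
      ((LatEval_r a b Rp ε i).map (oc ι)).eval z * ev (QQ (oc ι a) (oc ι b)) z ^ i *
        ev (qq (oc ι a) (oc ι b)) z ^ ε *
        ev (SS (oc ι a) (oc ι b)) z ^ (w0 - (2 * i + 3 * ε)) := by
    intro z
    rw [hG, ev_sum _ _ (fun ε _ => Ent_sum _ _ fun i _ => hent ε i)]
    refine Finset.sum_congr rfl fun ε _ => ?_
    rw [ev_sum _ _ (fun i _ => hent ε i)]
    exact Finset.sum_congr rfl fun i _ => hevt ε i z
  refine ⟨w0, G, ω, ?_, ?_, ?_, ?_, ?_⟩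
  · have : (w0 : ℝ) ≤ W := by exact_mod_cast hw0W
    linarith
  · intro r
    have hr1 : (1 : ℝ) ≤ Real.exp (Cg * (1 + (r : ℝ) ^ 2)) := Real.one_le_exp (by positivity)
    set E : ℝ := Real.exp (Cg * (1 + (r : ℝ) ^ 2)) with hE
    have hE0 : 0 ≤ E := (zero_le_one).trans hr1
    have hM0 : (0 : ℝ) ≤ max 1 (r : ℝ) := (zero_le_one).trans (le_max_left _ _)
    have hterm : ∀ ε ∈ Finset.range 2, ∀ i ∈ Finset.range (D + 1),
        nr r (LatEval_PS (oc ι) a b Rp ε i * QQ (oc ι a) (oc ι b) ^ i *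
          qq (oc ι a) (oc ι b) ^ ε * SS (oc ι a) (oc ι b) ^ (w0 - (2 * i + 3 * ε)))
        ≤ ENNReal.ofReal (H * B * max 1 (r : ℝ) ^ l * E ^ (D + 1 + W)) := by
      intro ε hε i hi
      rw [Finset.mem_range] at hε hi
      obtain ⟨g1, g2, g3, _⟩ := hg r
      have p1 : nr r (LatEval_PS (oc ι) a b Rp ε i)
          ≤ ENNReal.ofReal (H * B * max 1 (r : ℝ) ^ l) := by
        refine (LatEval_PS_nr (oc ι) a b Rp ε i c l B hl h1 h2' (fun j hj k hk =>
          hB ι i (by omega) j hj k hk) r).trans (ENNReal.ofReal_le_ofReal ?_)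
        have : nm (MvPolynomial.map (oc ι) Rp) * B ≤ H * B :=
          mul_le_mul_of_nonneg_right (hnm ι) (by linarith)
        exact mul_le_mul_of_nonneg_right this (by positivity)
      have hpow : ∀ (F : ℂ⟦X⟧) (k : ℕ), nr r F ≤ ENNReal.ofReal E →
          nr r (F ^ k) ≤ ENNReal.ofReal (E ^ k) := by
        intro F k hF
        rw [ENNReal.ofReal_pow hE0]
        exact (nr_pow_le _ _ _).trans (pow_le_pow_left' hF k)
      refine (nr_mul_le _ _ _).trans ?_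
      refine (mul_le_mul' ((nr_mul_le _ _ _).trans (mul_le_mul' ((nr_mul_le _ _ _).trans
        (mul_le_mul' p1 (hpow _ i g2))) (hpow _ ε g3))) (hpow _ _ g1)).trans ?_
      have q0 : 0 ≤ H * B * max 1 (r : ℝ) ^ l := by positivity
      rw [← ENNReal.ofReal_mul q0, ← ENNReal.ofReal_mul (by positivity),
        ← ENNReal.ofReal_mul (by positivity)]
      refine ENNReal.ofReal_le_ofReal ?_
      have : H * B * max 1 (r : ℝ) ^ l * E ^ i * E ^ ε * E ^ (w0 - (2 * i + 3 * ε))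
          = H * B * max 1 (r : ℝ) ^ l * E ^ (i + ε + (w0 - (2 * i + 3 * ε))) := by
        rw [pow_add, pow_add]; ring
      rw [this]
      refine mul_le_mul_of_nonneg_left (pow_le_pow_right₀ hr1 ?_) q0
      omega
    have hsum : nr r G ≤ ∑ ε ∈ Finset.range 2, ∑ i ∈ Finset.range (D + 1),
        ENNReal.ofReal (H * B * max 1 (r : ℝ) ^ l * E ^ (D + 1 + W)) := by
      rw [hG]
      refine (nr_sum_le _ _ _).trans (Finset.sum_le_sum fun ε hε => ?_)
      exact (nr_sum_le _ _ _).trans (Finset.sum_le_sum fun i hi => hterm ε hε i hi)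
    refine hsum.trans ?_
    simp only [Finset.sum_const, Finset.card_range, nsmul_eq_mul]
    have q1 : 0 ≤ H * B * max 1 (r : ℝ) ^ l * E ^ (D + 1 + W) := by positivity
    rw [← ENNReal.ofReal_natCast (D + 1), ← ENNReal.ofReal_natCast 2,
      ← ENNReal.ofReal_mul (Nat.cast_nonneg _), ← ENNReal.ofReal_mul (Nat.cast_nonneg _)]
    refine ENNReal.ofReal_le_ofReal ?_
    have hEp : E ^ (D + 1 + W) = Real.exp (C2 * (1 + (r : ℝ) ^ 2)) := by
      rw [hE, ← Real.exp_nat_mul, hC2]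
      congr 1
      push_cast
      ring
    rw [hEp]
    have hexp : Real.exp (C2 * (1 + (r : ℝ) ^ 2)) ≤
        Real.exp ((C1 + C2 + C3 + C4 + W) * (1 + (r : ℝ) ^ 2)) := by
      refine Real.exp_le_exp.mpr (mul_le_mul_of_nonneg_right ?_ (by positivity))
      linarith
    calc ((2 : ℕ) : ℝ) * (((D + 1 : ℕ) : ℝ) *
          (H * B * max 1 (r : ℝ) ^ l * Real.exp (C2 * (1 + (r : ℝ) ^ 2))))
        = C1 * H * max 1 (r : ℝ) ^ l * Real.exp (C2 * (1 + (r : ℝ) ^ 2)) := by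
          rw [hC1]; push_cast; ring
      _ ≤ (C1 + C2 + C3 + C4 + W) * H * max 1 (r : ℝ) ^ l *
          Real.exp ((C1 + C2 + C3 + C4 + W) * (1 + (r : ℝ) ^ 2)) := by
          refine mul_le_mul ?_ hexp (Real.exp_pos _).le (by positivity)
          refine mul_le_mul_of_nonneg_right ?_ (by positivity)
          refine mul_le_mul_of_nonneg_right ?_ (by linarith)
          linarith
  · intro z hz
    rw [hevG, ← LatEval_total (oc ι) a b Rp c D le_rfl h1 h2' (v3 L z)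
      (ode L _ _ h2 h3 hz), Finset.mul_sum]
    refine Finset.sum_congr rfl fun ε hε => ?_
    rw [Finset.mul_sum]
    refine Finset.sum_congr rfl fun i hi => ?_
    rw [Finset.mem_range] at hε hi
    by_cases hlt : w0 < 2 * i + 3 * ε
    · rw [hmax' ε hε i hi hlt]
      simp
    · rw [← link_Q L _ _ h2 h3 hz, ← link_q L _ _ h2 h3 hz]
      have hsplit : ev (SS (oc ι a) (oc ι b)) z ^ w0 = ev (SS (oc ι a) (oc ι b)) z ^ (2 * i) *
          ev (SS (oc ι a) (oc ι b)) z ^ (3 * ε) *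
          ev (SS (oc ι a) (oc ι b)) z ^ (w0 - (2 * i + 3 * ε)) := by
        rw [← pow_add, ← pow_add]
        congr 1
        omega
      rw [hsplit, mul_pow, mul_pow, ← pow_mul, ← pow_mul]
      simp only [v3, Matrix.cons_val_zero, Matrix.cons_val_one, Matrix.cons_val_two,
        Matrix.head_cons, Matrix.tail_cons]
      ring
  · obtain ⟨hm, hn⟩ := LatEval_sqrt m n _ hmn
    rw [Real.sqrt_mul hCp0] at hm hn
    calc ‖ω‖ ≤ ‖(m : ℂ) * L.ω₁‖ + ‖(n : ℂ) * L.ω₂‖ := norm_add_le _ _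
      _ = m * ‖L.ω₁‖ + n * ‖L.ω₂‖ := by simp
      _ ≤ (Real.sqrt Cp * Real.sqrt (l + 1)) * ‖L.ω₁‖
          + (Real.sqrt Cp * Real.sqrt (l + 1)) * ‖L.ω₂‖ := by gcongr
      _ = C3 * Real.sqrt (l + 1) := by rw [hC3, hOm]; ring
      _ ≤ (C1 + C2 + C3 + C4 + W) * Real.sqrt (l + 1) :=
          mul_le_mul_of_nonneg_right (by linarith) (Real.sqrt_nonneg _)
  · have hval : ev G ω = ((LatEval_r a b Rp ε₀ i₀).map (oc ι)).eval ω *
        ev (QQ (oc ι a) (oc ι b)) ω ^ i₀ * ev (qq (oc ι a) (oc ι b)) ω ^ ε₀ := by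
      rw [hevG, Finset.sum_eq_single_of_mem ε₀ (Finset.mem_range.mpr hε₀),
        Finset.sum_eq_single_of_mem i₀ (Finset.mem_range.mpr hi₀)]
      · rw [show w0 - (2 * i₀ + 3 * ε₀) = 0 by omega, pow_zero, mul_one]
      · intro i hi hne'
        rw [Finset.mem_range] at hi
        by_cases hlt : w0 < 2 * i + 3 * ε₀
        · rw [hmax' ε₀ hε₀ i hi hlt]; simp
        · rw [(S_eq_zero_iff L _ _ h2 h3 ω).mpr hωL, zero_pow (by omega), mul_zero]
      · intro ε hε hne'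
        refine Finset.sum_eq_zero fun i hi => ?_
        rw [Finset.mem_range] at hε hi
        by_cases hlt : w0 < 2 * i + 3 * ε
        · rw [hmax' ε hε i hi hlt]; simp
        · rw [(S_eq_zero_iff L _ _ h2 h3 ω).mpr hωL, zero_pow (by omega), mul_zero]
    have hQ : ‖ev (QQ (oc ι a) (oc ι b)) ω‖ = ‖ev (RR (oc ι a) (oc ι b)) ω‖ ^ 2 := by
      rw [Q_lattice L _ _ h2 h3 hωL, norm_pow]
    have hq : ‖ev (qq (oc ι a) (oc ι b)) ω‖ = ‖ev (RR (oc ι a) (oc ι b)) ω‖ ^ 3 := by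
      have := congrArg norm (q_lattice L _ _ h2 h3 hωL)
      rw [norm_pow, norm_pow, hQ] at this
      have h' : ‖ev (qq (oc ι a) (oc ι b)) ω‖ ^ 2 = (‖ev (RR (oc ι a) (oc ι b)) ω‖ ^ 3) ^ 2 := by
        rw [this]; ring
      exact (sq_eq_sq₀ (norm_nonneg _) (by positivity)).mp h'
    have hnorm : ‖ev G ω‖ = ‖((LatEval_r a b Rp ε₀ i₀).map (oc ι)).eval ω‖ *
        ‖ev (RR (oc ι a) (oc ι b)) ω‖ ^ w0 := by
      rw [hval, norm_mul, norm_mul, norm_pow, norm_pow, hQ, hq, hw0, pow_add, ← pow_mul,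
        ← pow_mul]
      ring
    rw [hnorm]
    have hR : Real.exp (-Cr * ((m : ℝ) ^ 2 + (n : ℝ) ^ 2 + 1)) ^ w0 ≤
        ‖ev (RR (oc ι a) (oc ι b)) ω‖ ^ w0 := pow_le_pow_left₀ (Real.exp_pos _).le (hr m n) _
    refine le_trans ?_ (mul_le_mul hlow hR (by positivity) (norm_nonneg _))
    rw [← Real.exp_nat_mul, ← Real.exp_add]
    refine Real.exp_le_exp.mpr ?_
    rw [LatEval_log hH hB1]
    have hlH : 0 ≤ Real.log H := Real.log_nonneg hH
    have hl0 : (0 : ℝ) ≤ l := Nat.cast_nonneg _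
    have hwW : (w0 : ℝ) ≤ W := by exact_mod_cast hw0W
    have t1 : (w0 : ℝ) * (Cr * ((m : ℝ) ^ 2 + (n : ℝ) ^ 2 + 1)) ≤
        W * (Cr * (Cp * (l + 1) + 1)) := by
      refine mul_le_mul hwW ?_ (by positivity) hW0
      exact mul_le_mul_of_nonneg_left (by linarith) hCr0
    have t2 : (C1 + C2 + C3 + C4 + W) * (Real.log H + l + 1) ≥ C4 * (Real.log H + l + 1) :=
      mul_le_mul_of_nonneg_right (by linarith) (by linarith)
    have t3 : C4 * (Real.log H + l + 1) ≥ Cp * (Real.log H + Real.log B + l + 1) +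
        W * (Cr * (Cp * (l + 1) + 1)) := by
      have u1 : 0 ≤ Cp * Real.log B * (Real.log H + l) := by positivity
      have u2 : 0 ≤ (W : ℝ) * Cr * Cp * Real.log H := by positivity
      have u3 : 0 ≤ (W : ℝ) * Cr * (Real.log H + l) := by positivity
      have u4 : C4 * (Real.log H + l + 1) = Cp * (Real.log H + Real.log B + l + 1) +
        W * (Cr * (Cp * (l + 1) + 1)) + Cp * Real.log B * (Real.log H + l) +
        (W : ℝ) * Cr * Cp * Real.log H + (W : ℝ) * Cr * (Real.log H + l) := by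
        rw [hC4]; ring
      linarith
    have t4 : -(C1 + C2 + C3 + C4 + W) * (Real.log H + l + 1)
        = -((C1 + C2 + C3 + C4 + W) * (Real.log H + l + 1)) := by ring
    have t5 : -Cp * (Real.log H + Real.log B + l + 1) +
        (w0 : ℝ) * (-Cr * ((m : ℝ) ^ 2 + (n : ℝ) ^ 2 + 1))
        = -(Cp * (Real.log H + Real.log B + l + 1)
          + (w0 : ℝ) * (Cr * ((m : ℝ) ^ 2 + (n : ℝ) ^ 2 + 1))) := by ring
    rw [t4, t5]
    linarith

end Pool.Agent.ZCM
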