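import Pool.Agent.ZCM.Defs

/-! # P3: norm of a polynomial over `𝓞 K` -/

namespace Pool.Agent.ZCM
open Polynomial NumberField

theorem NormPoly_prod_rat {K : Type*} [Field K] [NumberField K] (x : K) :
    (∏ σ : K →+* ℂ, σ x) = ((Algebra.norm ℚ x : ℚ) : ℂ) := by
  have h := Algebra.norm_eq_prod_embeddings ℚ ℂ x
  have h2 : (∏ σ : K →+* ℂ, σ x) = ∏ σ : K →ₐ[ℚ] ℂ, σ x :=
    Fintype.prod_equiv (RingHom.equivRatAlgHom K ℂ) (fun f => f x) (fun φ => φ x)
      (fun _ => by simp [RingHom.equivRatAlgHom_apply])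
  rw [h2, ← h]
  simp

theorem normPoly {K : Type*} [Field K] [NumberField K] (G : (𝓞 K)[X]) :
    ∃ q : ℤ[X], q.map (Int.castRingHom ℂ) = ∏ σ : K →+* ℂ, G.map (oc σ) := by
  set P : ℂ[X] := ∏ σ : K →+* ℂ, G.map (oc σ) with hP
  -- rationality
  set n := P.natDegree + 1 with hn
  set Q : ℚ[X] := Lagrange.interpolate (Finset.range n) (fun i : ℕ => (i : ℚ))
    (fun i : ℕ => (Algebra.norm ℚ (algebraMap (𝓞 K) K (G.eval (i : 𝓞 K))))) with hQ
  have hinjQ : Set.InjOn (fun i : ℕ => (i : ℚ)) (Finset.range n) :=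
    fun a _ b _ h => Nat.cast_injective h
  have hinjC : Set.InjOn (fun i : ℕ => (i : ℂ)) (Finset.range n) :=
    fun a _ b _ h => Nat.cast_injective h
  have hPQ : P = Q.map (algebraMap ℚ ℂ) := by
    refine Polynomial.eq_of_degrees_lt_of_eval_index_eq (s := Finset.range n)
      (v := fun i : ℕ => (i : ℂ)) hinjC ?_ ?_ ?_
    · rw [Finset.card_range, hn]
      exact lt_of_le_of_lt degree_le_natDegree (by exact_mod_cast Nat.lt_succ_self _)
    · rw [degree_map]
      exact Lagrange.degree_interpolate_lt _ hinjQ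
    · intro i hi
      have e1 : (Q.map (algebraMap ℚ ℂ)).eval ((i : ℕ) : ℂ)
          = algebraMap ℚ ℂ (Q.eval ((i : ℕ) : ℚ)) := by
        rw [Polynomial.eval_map, Polynomial.eval₂_at_natCast]
      show P.eval ((i : ℕ) : ℂ) = (Q.map (algebraMap ℚ ℂ)).eval ((i : ℕ) : ℂ)
      rw [e1, hQ, Lagrange.eval_interpolate_at_node _ hinjQ hi]
      rw [hP, Polynomial.eval_prod]
      have := NormPoly_prod_rat (algebraMap (𝓞 K) K (G.eval (i : 𝓞 K)))
      rw [eq_ratCast, ← this]
      refine Finset.prod_congr rfl fun σ _ => ?_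
      rw [Polynomial.eval_map, Polynomial.eval₂_at_natCast]
      rfl
  -- integrality
  have hint : ∀ k, IsIntegral ℤ (P.coeff k) := by
    intro k
    have hmem : P ∈ Polynomial.lifts (algebraMap (integralClosure ℤ ℂ) ℂ) := by
      rw [hP]
      refine Subsemiring.prod_mem _ fun σ _ => ?_
      rw [Polynomial.lifts_iff_coeff_lifts]
      intro m
      rw [Polynomial.coeff_map]
      refine ⟨⟨oc σ (G.coeff m), ?_⟩, rfl⟩
      rw [mem_integralClosure_iff]
      exact map_isIntegral_int σ (RingOfIntegers.isIntegral_coe (G.coeff m))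
    rw [Polynomial.lifts_iff_coeff_lifts] at hmem
    obtain ⟨y, hy⟩ := hmem k
    rw [← hy]
    exact y.2
  have hZ : P ∈ Polynomial.lifts (Int.castRingHom ℂ) := by
    rw [Polynomial.lifts_iff_coeff_lifts]
    intro k
    have h1 := hint k
    rw [hPQ, Polynomial.coeff_map] at h1 ⊢
    have h2 : IsIntegral ℤ (Q.coeff k) :=
      (isIntegral_algebraMap_iff (algebraMap ℚ ℂ).injective).1 h1
    obtain ⟨z, hz⟩ := IsIntegrallyClosed.isIntegral_iff.1 h2
    refine ⟨z, ?_⟩
    rw [← hz]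
    simp
  exact (Polynomial.mem_lifts _).1 hZ

end Pool.Agent.ZCM
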