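import Pool.Agent.ZCM.Defs

/-! # F4: the norm `nr` -/

namespace Pool.Agent.ZCM
open PowerSeries
open scoped NNReal ENNReal

variable (r : ℝ≥0) (f g : ℂ⟦X⟧)

theorem nr_add_le : nr r (f + g) ≤ nr r f + nr r g := by
  unfold nr
  rw [← ENNReal.tsum_add]
  refine ENNReal.tsum_le_tsum fun n => ?_
  rw [← ENNReal.coe_add, ENNReal.coe_le_coe, map_add, ← add_mul]
  exact mul_le_mul_left (nnnorm_add_le _ _) _

theorem nr_mul_le : nr r (f * g) ≤ nr r f * nr r g := by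
  classical
  unfold nr
  set F : ℕ → ℝ≥0∞ := fun n => ((‖coeff n f‖₊ * r ^ n : ℝ≥0) : ℝ≥0∞) with hF
  set G : ℕ → ℝ≥0∞ := fun n => ((‖coeff n g‖₊ * r ^ n : ℝ≥0) : ℝ≥0∞) with hG
  have h1 : ∀ n, ((‖coeff n (f * g)‖₊ * r ^ n : ℝ≥0) : ℝ≥0∞)
      ≤ ∑ kl ∈ Finset.HasAntidiagonal.antidiagonal n, F kl.1 * G kl.2 := by
    intro n
    simp only [hF, hG]
    have h2 : ∀ kl ∈ Finset.HasAntidiagonal.antidiagonal n,
        ((‖coeff kl.1 f‖₊ * r ^ kl.1 : ℝ≥0) : ℝ≥0∞) * ((‖coeff kl.2 g‖₊ * r ^ kl.2 : ℝ≥0) : ℝ≥0∞)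
        = ((‖coeff kl.1 f * coeff kl.2 g‖₊ * r ^ n : ℝ≥0) : ℝ≥0∞) := by
      intro kl hkl
      rw [Finset.HasAntidiagonal.mem_antidiagonal] at hkl
      rw [← ENNReal.coe_mul, ← hkl, nnnorm_mul, pow_add]
      congr 1
      ring
    rw [Finset.sum_congr rfl h2, ← ENNReal.ofNNReal_finsetSum, ENNReal.coe_le_coe, PowerSeries.coeff_mul,
      ← Finset.sum_mul]
    exact mul_le_mul_left (nnnorm_sum_le _ _) _
  calc ∑' n : ℕ, ((‖coeff n (f * g)‖₊ * r ^ n : ℝ≥0) : ℝ≥0∞)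
      ≤ ∑' n : ℕ, ∑ kl ∈ Finset.HasAntidiagonal.antidiagonal n, F kl.1 * G kl.2 :=
        ENNReal.tsum_le_tsum h1
    _ = ∑' n : ℕ, ∑' kl : Finset.HasAntidiagonal.antidiagonal n, F (kl : ℕ × ℕ).1 * G (kl : ℕ × ℕ).2 := by
        refine tsum_congr fun n => ?_
        rw [tsum_fintype, ← Finset.sum_coe_sort]
    _ = ∑' x : (Σ n : ℕ, Finset.HasAntidiagonal.antidiagonal n), F (x.2 : ℕ × ℕ).1 * G (x.2 : ℕ × ℕ).2 := by
        rw [ENNReal.tsum_sigma']
    _ = ∑' p : ℕ × ℕ, F p.1 * G p.2 :=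
        Equiv.tsum_eq Finset.HasAntidiagonal.sigmaAntidiagonalEquivProd (fun p : ℕ × ℕ => F p.1 * G p.2)
    _ = ∑' i : ℕ, ∑' j : ℕ, F i * G j := by
        rw [ENNReal.tsum_prod']
    _ = (∑' i : ℕ, F i) * ∑' j : ℕ, G j := by
        simp_rw [ENNReal.tsum_mul_left]
        rw [ENNReal.tsum_mul_right]

theorem nr_C (c : ℂ) : nr r (C c) = (‖c‖₊ : ℝ≥0∞) := by
  unfold nr
  rw [tsum_eq_single 0]
  · simp
  · intro n hn
    rw [PowerSeries.coeff_C, if_neg hn]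
    simp

theorem nr_pow_le (n : ℕ) : nr r (f ^ n) ≤ nr r f ^ n := by
  induction n with
  | zero =>
    have h := nr_C r 1
    rw [map_one] at h
    simp only [pow_zero]
    rw [h]
    simp
  | succ n ih =>
    rw [pow_succ, pow_succ]
    exact (nr_mul_le r (f ^ n) f).trans (mul_le_mul_left ih _)

theorem nr_neg : nr r (-f) = nr r f := by
  unfold nr
  simp

theorem nr_sub_le : nr r (f - g) ≤ nr r f + nr r g := by
  rw [sub_eq_add_neg, ← nr_neg r g]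
  exact nr_add_le r f (-g)

theorem nr_X : nr r (X : ℂ⟦X⟧) = (r : ℝ≥0∞) := by
  unfold nr
  rw [tsum_eq_single 1]
  · simp
  · intro n hn
    rw [PowerSeries.coeff_X, if_neg hn]
    simp

theorem nr_sum_le {ι : Type*} (s : Finset ι) (F : ι → ℂ⟦X⟧) :
    nr r (∑ i ∈ s, F i) ≤ ∑ i ∈ s, nr r (F i) := by
  classical
  induction s using Finset.induction_on with
  | empty => simp [nr]
  | insert a s ha ih =>
    rw [Finset.sum_insert ha, Finset.sum_insert ha]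
    exact (nr_add_le r _ _).trans (add_le_add_right ih _)

theorem nr_mono {s : ℝ≥0} (h : r ≤ s) : nr r f ≤ nr s f := by
  unfold nr
  refine ENNReal.tsum_le_tsum fun n => ?_
  rw [ENNReal.coe_le_coe]
  exact mul_le_mul_right (pow_le_pow_left' h n) _

theorem nr_rescale (c : ℂ) : nr r (rescale c f) = nr (‖c‖₊ * r) f := by
  unfold nr
  refine tsum_congr fun n => ?_
  rw [PowerSeries.coeff_rescale, nnnorm_mul, nnnorm_pow, mul_pow]
  congr 1
  ring

theorem coeff_le_nr (n : ℕ) : ((‖coeff n f‖₊ * r ^ n : ℝ≥0) : ℝ≥0∞) ≤ nr r f :=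
  ENNReal.le_tsum (f := fun n : ℕ => ((‖coeff n f‖₊ * r ^ n : ℝ≥0) : ℝ≥0∞)) n

/-- a series without constant term is small on small discs -/
theorem NormR_small (hg : constantCoeff g = 0) (t : ℝ≥0) (ht : t ≤ 1) :
    nr (t * r) g ≤ t * nr r g := by
  unfold nr
  rw [← ENNReal.tsum_mul_left]
  refine ENNReal.tsum_le_tsum fun n => ?_
  rw [← ENNReal.coe_mul, ENNReal.coe_le_coe]
  rcases n with _ | n
  · rw [PowerSeries.coeff_zero_eq_constantCoeff_apply, hg]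
    simp
  · rw [mul_pow, pow_succ t]
    calc ‖coeff (n + 1) g‖₊ * (t ^ n * t * r ^ (n + 1))
        = t ^ n * (t * (‖coeff (n + 1) g‖₊ * r ^ (n + 1))) := by ring
      _ ≤ 1 * (t * (‖coeff (n + 1) g‖₊ * r ^ (n + 1))) :=
          mul_le_mul_left (pow_le_one' ht n) _
      _ = t * (‖coeff (n + 1) g‖₊ * r ^ (n + 1)) := one_mul _

/-- the basic estimate for the geometric series -/
theorem NormR_geom (s : ℝ≥0) (h : ℂ⟦X⟧) (c : ℂ) (hg0 : constantCoeff g = 0)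
    (hg : nr s g ≤ 1) (hh : h = C c + g * h) :
    ∀ n, ‖coeff n h‖₊ * s ^ n ≤ ‖c‖₊ := by
  intro n
  induction n using Nat.strong_induction_on with
  | _ n ih =>
    rcases Nat.eq_zero_or_pos n with rfl | hn
    · have e : coeff 0 h = c := by
        conv_lhs => rw [hh]
        rw [PowerSeries.coeff_zero_eq_constantCoeff_apply]
        simp [hg0]
      rw [e]
      simp
    · have e : coeff n h = ∑ kl ∈ Finset.HasAntidiagonal.antidiagonal n, coeff kl.1 g * coeff kl.2 h := by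
        conv_lhs => rw [hh]
        rw [map_add, PowerSeries.coeff_C, if_neg hn.ne', zero_add, PowerSeries.coeff_mul]
      have h1 : ‖coeff n h‖₊ * s ^ n
          ≤ ∑ kl ∈ Finset.HasAntidiagonal.antidiagonal n, (‖coeff kl.1 g‖₊ * s ^ kl.1) * ‖c‖₊ := by
        rw [e]
        refine (mul_le_mul_left (nnnorm_sum_le _ _) _).trans ?_
        rw [Finset.sum_mul]
        refine Finset.sum_le_sum fun kl hkl => ?_
        rw [Finset.HasAntidiagonal.mem_antidiagonal] at hkl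
        rcases Nat.eq_zero_or_pos kl.1 with h0 | h0
        · rw [h0, PowerSeries.coeff_zero_eq_constantCoeff_apply, hg0]
          simp
        · have hlt : kl.2 < n := by omega
          have e2 : ‖coeff kl.1 g * coeff kl.2 h‖₊ * s ^ n
              = (‖coeff kl.1 g‖₊ * s ^ kl.1) * (‖coeff kl.2 h‖₊ * s ^ kl.2) := by
            rw [nnnorm_mul, ← hkl, pow_add]
            ring
          rw [e2]
          exact mul_le_mul_right (ih kl.2 hlt) _
      refine h1.trans ?_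
      rw [← Finset.sum_mul]
      have h2 : ∑ kl ∈ Finset.HasAntidiagonal.antidiagonal n, (‖coeff kl.1 g‖₊ * s ^ kl.1)
          = ∑ k ∈ Finset.range (n + 1), (‖coeff k g‖₊ * s ^ k) :=
        Finset.Nat.sum_antidiagonal_eq_sum_range_succ (fun i _ => ‖coeff i g‖₊ * s ^ i) n
      have h3 : ∑ k ∈ Finset.range (n + 1), (‖coeff k g‖₊ * s ^ k) ≤ 1 := by
        have h4 : ((∑ k ∈ Finset.range (n + 1), (‖coeff k g‖₊ * s ^ k) : ℝ≥0) : ℝ≥0∞) ≤ 1 := by
          rw [ENNReal.ofNNReal_finsetSum]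
          exact (ENNReal.sum_le_tsum _).trans hg
        exact_mod_cast h4
      rw [h2]
      calc (∑ k ∈ Finset.range (n + 1), (‖coeff k g‖₊ * s ^ k)) * ‖c‖₊ ≤ 1 * ‖c‖₊ :=
            mul_le_mul_left h3 _
        _ = ‖c‖₊ := one_mul _

/-- bounded weighted coefficients give convergence on a smaller disc -/
theorem NormR_half (s : ℝ≥0) (h : ℂ⟦X⟧) (M : ℝ≥0) (hM : ∀ n, ‖coeff n h‖₊ * s ^ n ≤ M) :
    nr (s / 2) h ≤ 2 * M := by
  unfold nr
  have h1 : ∀ n : ℕ, ((‖coeff n h‖₊ * (s / 2) ^ n : ℝ≥0) : ℝ≥0∞) ≤ (M : ℝ≥0∞) * (2⁻¹ : ℝ≥0∞) ^ n := by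
    intro n
    have e : ((M : ℝ≥0∞) * (2⁻¹ : ℝ≥0∞) ^ n) = ((M * (2⁻¹ : ℝ≥0) ^ n : ℝ≥0) : ℝ≥0∞) := by
      rw [ENNReal.coe_mul, ENNReal.coe_pow, ENNReal.coe_inv (by norm_num)]
      simp
    rw [e, ENNReal.coe_le_coe, div_eq_mul_inv, mul_pow, ← mul_assoc]
    exact mul_le_mul_left (hM n) _
  refine (ENNReal.tsum_le_tsum h1).trans ?_
  rw [ENNReal.tsum_mul_left, ENNReal.tsum_geometric, ENNReal.one_sub_inv_two, inv_inv, mul_comm]

theorem nr_inv (hf : constantCoeff f ≠ 0) (hr : 0 < r) (h : nr r f ≠ ∞) :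
    ∃ r' : ℝ≥0, 0 < r' ∧ nr r' f⁻¹ ≠ ∞ := by
  set c : ℂ := constantCoeff f with hc
  set g : ℂ⟦X⟧ := 1 - C c⁻¹ * f with hg
  have hg0 : constantCoeff g = 0 := by
    rw [hg, map_sub, map_mul, PowerSeries.constantCoeff_C, map_one, ← hc, inv_mul_cancel₀ hf,
      sub_self]
  have hgr : nr r g ≠ ∞ := by
    have h1 : nr r g ≤ nr r (1 : ℂ⟦X⟧) + nr r (C c⁻¹) * nr r f := by
      refine (nr_sub_le r _ _).trans ?_
      exact add_le_add_right (nr_mul_le r _ _) _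
    have h2 : nr r (1 : ℂ⟦X⟧) = 1 := by
      have h := nr_C r 1
      rw [map_one] at h
      rw [h]; simp
    rw [h2, nr_C] at h1
    refine ne_top_of_le_ne_top ?_ h1
    exact ENNReal.add_ne_top.mpr ⟨ENNReal.one_ne_top, ENNReal.mul_ne_top ENNReal.coe_ne_top h⟩
  -- choose `t`
  set m : ℝ≥0 := (nr r g).toNNReal with hm
  have hmg : (m : ℝ≥0∞) = nr r g := ENNReal.coe_toNNReal hgr
  set t : ℝ≥0 := (m + 1)⁻¹ with ht
  have ht0 : 0 < t := by rw [ht]; positivity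
  have ht1 : t ≤ 1 := by
    rw [ht]
    exact inv_le_one_of_one_le₀ (by simp)
  have hsmall : nr (t * r) g ≤ 1 := by
    refine (NormR_small r g hg0 t ht1).trans ?_
    rw [← hmg, ← ENNReal.coe_mul]
    have : t * m ≤ 1 := by
      rw [ht, inv_mul_le_iff₀ (by positivity), mul_one]
      simp
    exact_mod_cast this
  have hinv : f⁻¹ = C c⁻¹ + g * f⁻¹ := by
    have h1 : f * f⁻¹ = 1 := PowerSeries.mul_inv_cancel f hf
    rw [hg, sub_mul, one_mul, mul_assoc, h1, mul_one]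
    ring
  have hb := NormR_geom g (t * r) f⁻¹ c⁻¹ hg0 hsmall hinv
  refine ⟨t * r / 2, by positivity, ?_⟩
  exact ne_top_of_le_ne_top (ENNReal.mul_ne_top (by norm_num) ENNReal.coe_ne_top)
    (NormR_half (t * r) f⁻¹ _ hb)

theorem nr_ofNat_mul (n : ℕ) : nr r ((n : ℂ⟦X⟧) * f) ≤ n * nr r f := by
  refine (nr_mul_le r _ _).trans ?_
  have e : (n : ℂ⟦X⟧) = C (n : ℂ) := by simp
  rw [e, nr_C]
  have : (‖(n : ℂ)‖₊ : ℝ≥0∞) = n := by
    simp
  rw [this]

end Pool.Agent.ZCM
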