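import Pool.Agent.ZCM.Defs

/-! # J0: the universal Hasse polynomial -/

namespace Pool.Agent.ZCM
open Polynomial

/-- `ℤ[a,b]` -/
abbrev Ru := MvPolynomial (Fin 2) ℤ

/-- `f = X^3 + a X + b` -/
noncomputable def fG {R : Type*} [CommRing R] (a b : R) : R[X] := X ^ 3 + C a * X + C b

/-- `Δ g = 4 f g'' + 2 f' g'` -/
noncomputable def DelG {R : Type*} [CommRing R] (a b : R) (g : R[X]) : R[X] :=
  4 * fG a b * derivative (derivative g) + 2 * derivative (fG a b) * derivative g

/-- `h_p = (Δ^{(p-1)/2} X)'` -/
noncomputable def hG {R : Type*} [CommRing R] (a b : R) (p : ℕ) : R[X] :=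
  derivative ((DelG a b)^[(p - 1) / 2] X)

/-- Hasse invariant `H_p(a,b)` = constant coefficient of `h_p` -/
noncomputable def HG {R : Type*} [CommRing R] (a b : R) (p : ℕ) : R := (hG a b p).coeff 0

theorem SSuniv_map_fG {R S : Type*} [CommRing R] [CommRing S] (f : R →+* S) (a b : R) :
    (fG a b).map f = fG (f a) (f b) := by
  simp [fG]

theorem SSuniv_map_Del {R S : Type*} [CommRing R] [CommRing S] (f : R →+* S) (a b : R) (g : R[X]) :
    (DelG a b g).map f = DelG (f a) (f b) (g.map f) := by
  unfold DelG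
  rw [Polynomial.map_add, Polynomial.map_mul, Polynomial.map_mul, Polynomial.map_mul,
    Polynomial.map_mul, ← SSuniv_map_fG, derivative_map, derivative_map, derivative_map]
  simp [Polynomial.derivative_map]

theorem SSuniv_map_iter {R S : Type*} [CommRing R] [CommRing S] (f : R →+* S) (a b : R) (m : ℕ)
    (g : R[X]) : ((DelG a b)^[m] g).map f = (DelG (f a) (f b))^[m] (g.map f) := by
  induction m generalizing g with
  | zero => rfl
  | succ m ih => rw [Function.iterate_succ_apply, ih, SSuniv_map_Del, Function.iterate_succ_apply]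

theorem map_hG {R S : Type*} [CommRing R] [CommRing S] (f : R →+* S) (a b : R) (p : ℕ) :
    (hG a b p).map f = hG (f a) (f b) p := by
  unfold hG
  rw [← derivative_map, SSuniv_map_iter, Polynomial.map_X]

theorem map_HG {R S : Type*} [CommRing R] [CommRing S] (f : R →+* S) (a b : R) (p : ℕ) :
    f (HG a b p) = HG (f a) (f b) p := by
  unfold HG
  rw [← map_hG, coeff_map]

theorem SSuniv_leib {A : Type*} [CommRing A] (D : A → A) (hadd : ∀ u v, D (u + v) = D u + D v)
    (hmul : ∀ u v, D (u * v) = u * D v + v * D u) (n : ℕ) (u v : A) :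
    D^[n] (u * v) = ∑ ij ∈ Finset.HasAntidiagonal.antidiagonal n,
      (n.choose ij.1 : A) * (D^[ij.1] u * D^[ij.2] v) := by
  have hz : D 0 = 0 := by simpa using hadd 0 0
  have hsum : ∀ (s : Finset (ℕ × ℕ)) (F : ℕ × ℕ → A), D (∑ i ∈ s, F i) = ∑ i ∈ s, D (F i) := by
    intro s F
    classical
    induction s using Finset.induction_on with
    | empty => simp [hz]
    | insert a s ha ih => rw [Finset.sum_insert ha, Finset.sum_insert ha, hadd, ih]
  have hnat : ∀ (k : ℕ) (w : A), D ((k : A) * w) = (k : A) * D w := by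
    intro k w
    induction k with
    | zero => simp [hz]
    | succ k ih => push_cast; rw [add_mul, one_mul, hadd, ih]; ring
  induction n with
  | zero => simp
  | succ n ih =>
    rw [Function.iterate_succ_apply', ih, hsum,
      Finset.sum_antidiagonal_choose_succ_mul (fun i j => D^[i] u * D^[j] v)]
    rw [← Finset.sum_add_distrib]
    refine Finset.sum_congr rfl fun ij hij => ?_
    have hs : n.choose ij.2 = n.choose ij.1 := by
      have := Finset.HasAntidiagonal.mem_antidiagonal.1 hij
      exact (Nat.choose_symm_of_eq_add (by omega))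
    rw [hnat, hmul, hs, Function.iterate_succ_apply', Function.iterate_succ_apply']
    ring

theorem SSuniv_leib_p {A : Type*} [CommRing A] (D : A → A) (hadd : ∀ u v, D (u + v) = D u + D v)
    (hmul : ∀ u v, D (u * v) = u * D v + v * D u) (p : ℕ) (hp : p.Prime) (hc : (p : A) = 0)
    (u v : A) : D^[p] (u * v) = u * D^[p] v + v * D^[p] u := by
  rw [SSuniv_leib D hadd hmul]
  obtain ⟨m, rfl⟩ : ∃ m, p = m + 1 := ⟨p - 1, by have := hp.pos; omega⟩
  rw [Finset.Nat.sum_antidiagonal_eq_sum_range_succ_mk, Finset.sum_range_succ,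
    Finset.sum_range_succ']
  have : ∑ k ∈ Finset.range m, (((m + 1).choose (k + 1) : ℕ) : A) *
      (D^[k + 1] u * D^[m + 1 - (k + 1)] v) = 0 := by
    refine Finset.sum_eq_zero fun k hk => ?_
    have hk' := Finset.mem_range.1 hk
    obtain ⟨c, hc'⟩ := hp.dvd_choose_self (k := k + 1) (by omega) (by omega)
    rw [hc']
    push_cast
    push_cast at hc
    rw [hc]; ring
  simp only [this]
  simp
  ring

section quad
variable {R : Type*} [CommRing R] (a b : R)

/-- the derivation of `R[X][y]/(y^2-f)` -/
noncomputable def SSuniv_D (u : QuadraticAlgebra R[X] (fG a b) 0) :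
    QuadraticAlgebra R[X] (fG a b) 0 :=
  ⟨2 * fG a b * derivative u.im + derivative (fG a b) * u.im, 2 * derivative u.re⟩

theorem SSuniv_D_add (u v : QuadraticAlgebra R[X] (fG a b) 0) :
    SSuniv_D a b (u + v) = SSuniv_D a b u + SSuniv_D a b v := by
  ext1
  · simp [SSuniv_D]; ring
  · simp [SSuniv_D]; ring

theorem SSuniv_D_mul (u v : QuadraticAlgebra R[X] (fG a b) 0) :
    SSuniv_D a b (u * v) = u * SSuniv_D a b v + v * SSuniv_D a b u := by
  ext1
  · simp [SSuniv_D]; ring
  · simp [SSuniv_D]; ring

theorem SSuniv_D2 (g : R[X]) (m : ℕ) :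
    (SSuniv_D a b)^[2 * m] (⟨g, 0⟩ : QuadraticAlgebra R[X] (fG a b) 0)
      = ⟨(DelG a b)^[m] g, 0⟩ := by
  induction m generalizing g with
  | zero => rfl
  | succ m ih =>
    rw [show 2 * (m + 1) = 2 * m + 1 + 1 by ring, Function.iterate_succ_apply,
      Function.iterate_succ_apply, Function.iterate_succ_apply, ← ih]
    congr 1
    ext1
    · simp only [SSuniv_D, DelG, derivative_zero, mul_zero, add_zero, derivative_mul,
        derivative_ofNat, zero_mul, zero_add]
      ring
    · simp [SSuniv_D]

theorem SSuniv_natDegree (m : ℕ) : ((DelG a b)^[m] X).natDegree ≤ m + 1 := by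
  induction m with
  | zero => simpa using natDegree_X_le
  | succ m ih =>
    rw [Function.iterate_succ_apply']
    set g := (DelG a b)^[m] X with hg
    have hf : (fG a b).natDegree ≤ 3 := by unfold fG; compute_degree
    have hf' : (derivative (fG a b)).natDegree ≤ 2 := (natDegree_derivative_le _).trans (by omega)
    have hg' : (derivative g).natDegree ≤ m := (natDegree_derivative_le _).trans (by omega)
    have hg'' : (derivative (derivative g)).natDegree ≤ m - 1 :=
      (natDegree_derivative_le _).trans (by omega)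
    unfold DelG
    refine (natDegree_add_le _ _).trans (max_le ?_ ?_)
    · by_cases hm : m = 0
      · have : derivative (derivative g) = 0 := by
          have h0 : (derivative g).natDegree = 0 := by omega
          rw [natDegree_eq_zero.1 h0 |>.choose_spec.symm]
          simp
        rw [this]; simp
      · refine natDegree_mul_le.trans ?_
        have h4 : (4 * fG a b).natDegree ≤ 3 := by
          refine natDegree_mul_le.trans ?_
          have : (4 : R[X]).natDegree = 0 := natDegree_ofNat 4
          omega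
        omega
    · refine natDegree_mul_le.trans ?_
      have h4 : (2 * derivative (fG a b)).natDegree ≤ 2 := by
        refine natDegree_mul_le.trans ?_
        have : (2 : R[X]).natDegree = 0 := natDegree_ofNat 2
        omega
      omega

end quad

/-- over a ring in which `p = 0` the polynomial `h_p` is constant -/
theorem SSuniv_const {R : Type*} [CommRing R] (a b : R) (p : ℕ) (hp : p.Prime) (hp2 : p ≠ 2)
    (hc : (p : R) = 0) : hG a b p = C (HG a b p) := by
  classical
  obtain ⟨m, hm⟩ : ∃ m, p = 2 * m + 1 := by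
    rcases hp.eq_two_or_odd' with h | h
    · exact absurd h hp2
    · exact h
  have hm' : (p - 1) / 2 = m := by omega
  set f := fG a b with hf
  set Dq := SSuniv_D a b with hDq
  set h := hG a b p with hh
  have hcQ : ((p : ℕ) : QuadraticAlgebra R[X] (fG a b) 0) = 0 := by
    have : ((p : ℕ) : QuadraticAlgebra R[X] (fG a b) 0) = ⟨((p : R[X])), 0⟩ := by
      ext1 <;> simp
    rw [this]
    have : (p : R[X]) = 0 := by
      rw [← C_eq_natCast, hc, C_0]
    rw [this]; rfl
  have hleib := SSuniv_leib_p Dq (SSuniv_D_add a b) (SSuniv_D_mul a b) p hp hcQ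
  have hconst : ∀ r : R, Dq^[p] (⟨C r, 0⟩ : QuadraticAlgebra R[X] (fG a b) 0) = 0 := by
    intro r
    rw [hm, Function.iterate_succ_apply]
    have : Dq (⟨C r, 0⟩ : QuadraticAlgebra R[X] (fG a b) 0) = 0 := by
      ext1 <;> simp [hDq, SSuniv_D]
    rw [this]
    have : Dq 0 = 0 := by ext1 <;> simp [hDq, SSuniv_D]
    exact Function.iterate_fixed this _
  have hX : Dq^[p] (⟨X, 0⟩ : QuadraticAlgebra R[X] (fG a b) 0) = ⟨0, 2 * h⟩ := by
    have e := SSuniv_D2 a b X m
    rw [hm, Function.iterate_succ_apply', hDq, e, hh, hG, hm']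
    ext1 <;> simp [SSuniv_D]
  -- `D^p (2 ω)`
  have hω : Dq^[p] (⟨0, 2⟩ : QuadraticAlgebra R[X] (fG a b) 0)
      = ⟨4 * f * derivative h + 2 * derivative f * h, 0⟩ := by
    have e1 : (⟨0, 2⟩ : QuadraticAlgebra R[X] (fG a b) 0) = Dq ⟨X, 0⟩ := by
      ext1 <;> simp [hDq, SSuniv_D]
    rw [e1, ← Function.iterate_succ_apply, Function.iterate_succ_apply', hX]
    ext1
    · simp [hDq, SSuniv_D, ← hf]; ring
    · simp [hDq, SSuniv_D]
  have hadd : ∀ u v, Dq^[p] (u + v) = Dq^[p] u + Dq^[p] v := by
    intro u v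
    have : ∀ n, ∀ u v, Dq^[n] (u + v) = Dq^[n] u + Dq^[n] v := by
      intro n
      induction n with
      | zero => intro u v; rfl
      | succ n ih =>
        intro u v
        rw [Function.iterate_succ_apply, Function.iterate_succ_apply, Function.iterate_succ_apply,
          hDq, SSuniv_D_add, ih]
    exact this p u v
  -- `D^p f`
  have hfD : Dq^[p] (⟨f, 0⟩ : QuadraticAlgebra R[X] (fG a b) 0)
      = ⟨0, 2 * derivative f * h⟩ := by
    have e1 : (⟨f, 0⟩ : QuadraticAlgebra R[X] (fG a b) 0)
        = ⟨X, 0⟩ * (⟨X, 0⟩ * ⟨X, 0⟩) + ⟨C a, 0⟩ * ⟨X, 0⟩ + ⟨C b, 0⟩ := by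
      ext1
      · simp only [QuadraticAlgebra.re_add, QuadraticAlgebra.re_mul, QuadraticAlgebra.im_mul,
          mul_zero, zero_mul, add_zero, zero_add]
        rw [hf, fG]; ring
      · simp only [QuadraticAlgebra.im_add, QuadraticAlgebra.re_mul, QuadraticAlgebra.im_mul,
          mul_zero, zero_mul, add_zero, zero_add]
    have hf' : derivative f = 3 * X ^ 2 + C a := by
      rw [hf, fG]
      simp only [derivative_add, derivative_mul, derivative_X, derivative_C, derivative_X_pow,
        zero_mul, mul_one, add_zero, zero_add]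
      norm_num
      rw [show (C 3 : R[X]) = 3 from map_ofNat C 3]
    rw [e1, hadd, hadd, hleib, hleib, hleib, hconst, hconst, hX]
    ext1
    · simp only [QuadraticAlgebra.re_add, QuadraticAlgebra.re_mul, QuadraticAlgebra.im_mul,
        QuadraticAlgebra.im_add, QuadraticAlgebra.re_zero, QuadraticAlgebra.im_zero,
          mul_zero, zero_mul, add_zero, zero_add]
    · simp only [QuadraticAlgebra.re_add, QuadraticAlgebra.re_mul, QuadraticAlgebra.im_mul,
        QuadraticAlgebra.im_add, QuadraticAlgebra.re_zero, QuadraticAlgebra.im_zero,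
          mul_zero, zero_mul, add_zero, zero_add]
      rw [hf']; ring
  have hkey : 4 * f * derivative h = 0 := by
    have e1 : (⟨0, 1⟩ : QuadraticAlgebra R[X] (fG a b) 0) * ⟨0, 1⟩ = ⟨f, 0⟩ := by
      ext1 <;> simp [hf]
    have e2 := hleib ⟨0, 1⟩ ⟨0, 1⟩
    rw [e1, hfD] at e2
    have e3 : (⟨0, 2⟩ : QuadraticAlgebra R[X] (fG a b) 0) = ⟨0, 1⟩ + ⟨0, 1⟩ := by
      ext1
      · simp
      · simp; norm_num
    rw [e3, hadd] at hω
    have e4 : (⟨0, 1⟩ : QuadraticAlgebra R[X] (fG a b) 0) * Dq^[p] ⟨0, 1⟩
        + ⟨0, 1⟩ * Dq^[p] ⟨0, 1⟩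
        = ⟨0, 1⟩ * ⟨4 * f * derivative h + 2 * derivative f * h, 0⟩ := by
      rw [← mul_add, hω]
    rw [e4] at e2
    have e5 := congrArg QuadraticAlgebra.im e2
    simp only [QuadraticAlgebra.im_mul] at e5
    simp at e5
    exact e5
  have hmon : f.Monic := by rw [hf]; unfold fG; monicity!
  have h4 : 4 * derivative h = 0 := by
    have : f * (4 * derivative h) = 0 := by linear_combination hkey
    exact (hmon.mul_right_eq_zero_iff).1 this
  have hd : derivative h = 0 := by
    have e : (2 * (m : R[X]) + 1) = 0 := by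
      have : ((p : ℕ) : R[X]) = 0 := by rw [← C_eq_natCast, hc, C_0]
      rw [hm] at this; push_cast at this; exact this
    linear_combination (m : R[X]) ^ 2 * h4 + (1 - 2 * (m : R[X])) * derivative h * e
  -- coefficients
  have hdeg : h.natDegree ≤ m := by
    rw [hh, hG, hm']
    exact (natDegree_derivative_le _).trans (by have := SSuniv_natDegree a b m; omega)
  ext i
  rcases Nat.eq_zero_or_pos i with rfl | hi
  · simp [HG, ← hh]
  · rw [coeff_C_of_ne_zero (by omega)]
    by_cases hip : i ≤ m
    · have e := congrArg (fun q => coeff q (i - 1)) hd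
      simp only [coeff_derivative, coeff_zero] at e
      rw [show i - 1 + 1 = i by omega] at e
      have e' : h.coeff i * (i : R) = 0 := by
        have : ((i - 1 : ℕ) : R) + 1 = (i : R) := by
          rw [← Nat.cast_succ]; congr 1; omega
        rwa [this] at e
      have hcop : Nat.Coprime i p := by
        refine (Nat.Coprime.symm ((hp.coprime_iff_not_dvd).2 fun hdv => ?_))
        have := Nat.le_of_dvd hi hdv; omega
      have hu : IsUnit (i : R) := by
        have hb := Nat.gcd_eq_gcd_ab i p
        rw [hcop] at hb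
        have hb' : (1 : R) = i * (Nat.gcdA i p : R) + p * (Nat.gcdB i p : R) := by
          exact_mod_cast congrArg (fun z : ℤ => (z : R)) hb
        rw [hc, zero_mul, add_zero] at hb'
        exact IsUnit.of_mul_eq_one _ hb'.symm
      exact (hu.mul_left_eq_zero).1 e'
    · exact coeff_eq_zero_of_natDegree_lt (by omega)

/-- consequence over any ring -/
theorem ss_ring {R : Type*} [CommRing R] (a b : R) (p : ℕ) (hp : p.Prime) (hp2 : p ≠ 2) :
    ∃ h1 : R[X], hG a b p = C (HG a b p) + (p : R[X]) * h1 := by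
  let I : Ideal R := Ideal.span {(p : R)}
  let π := Ideal.Quotient.mk I
  have hc : ((p : ℕ) : R ⧸ I) = 0 := by
    rw [← map_natCast π]
    exact Ideal.Quotient.eq_zero_iff_mem.2 (Ideal.mem_span_singleton_self _)
  have h := SSuniv_const (π a) (π b) p hp hp2 hc
  rw [← map_hG, ← map_HG] at h
  have hdvd : C (p : R) ∣ hG a b p - C (HG a b p) := by
    rw [C_dvd_iff_dvd_coeff]
    intro i
    have := congrArg (fun q => coeff q i) h
    simp only [coeff_map, coeff_C] at this
    rw [← Ideal.mem_span_singleton, ← Ideal.Quotient.eq_zero_iff_mem, coeff_sub, map_sub]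
    change π _ - π _ = 0
    rw [this, coeff_C]
    split_ifs <;> simp
  obtain ⟨h1, e⟩ := hdvd
  exact ⟨h1, by rw [C_eq_natCast] at e; linear_combination e⟩

/-- universal statement -/
theorem ss_univ (p : ℕ) (hp : p.Prime) (hp2 : p ≠ 2) : ∃ h1 : Ru[X],
    hG (MvPolynomial.X 0 : Ru) (MvPolynomial.X 1) p
      = C (HG (MvPolynomial.X 0 : Ru) (MvPolynomial.X 1) p) + (p : Ru[X]) * h1 :=
  ss_ring _ _ p hp hp2

end Pool.Agent.ZCM
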