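import Pool.Agent.ZCM.Count
import Pool.Agent.ZCM.GrowGS
import Pool.Agent.ZCM.Nat

/-! # S2: the auxiliary polynomial -/

namespace Pool.Agent.ZCM
open PowerSeries NumberField Filter

section
variable {K : Type*} [Field K] (a b : K) (L N0 : ℕ)

theorem SiegelL_FS_sub (p q : ℕ → ℕ → ℕ → ℤ) :
    FS a b L N0 (fun i j k => p i j k - q i j k) = FS a b L N0 p - FS a b L N0 q := by
  simp only [FS, ← Finset.sum_sub_distrib]
  refine Finset.sum_congr rfl fun i _ => Finset.sum_congr rfl fun j _ =>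
    Finset.sum_congr rfl fun k _ => ?_
  rw [Int.cast_sub, map_sub]
  ring

theorem SiegelL_coeff_FS (p : ℕ → ℕ → ℕ → ℤ) (n : ℕ) :
    coeff n (FS a b L N0 p) = ∑ i ∈ Finset.range L, ∑ j ∈ Finset.range N0,
      ∑ k ∈ Finset.range N0, ((p i j k : ℤ) : K) *
        (if i + (3 * N0 - 2 * j - k) ≤ n then
          coeff (n - (i + (3 * N0 - 2 * j - k))) (xS a b ^ j * zS a b ^ k) else 0) := by
  simp only [FS, map_sum]
  refine Finset.sum_congr rfl fun i _ => Finset.sum_congr rfl fun j _ =>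
    Finset.sum_congr rfl fun k _ => ?_
  have h : (C ((p i j k : ℤ) : K) * X ^ (i + (3 * N0 - 2 * j - k)) * xS a b ^ j * zS a b ^ k) =
      C ((p i j k : ℤ) : K) * (X ^ (i + (3 * N0 - 2 * j - k)) * (xS a b ^ j * zS a b ^ k)) := by
    ring
  rw [h, coeff_C_mul, coeff_X_pow_mul']

theorem SiegelL_int (D : ℕ → ℕ) (hD : ∀ m n, m ≤ n → D m ∣ D n)
    (hI : ∀ j k n : ℕ, j < N0 → k < N0 → IsIntegral ℤ ((D n : K) * coeff n (xS a b ^ j * zS a b ^ k)))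
    (p : ℕ → ℕ → ℕ → ℤ) (n : ℕ) : IsIntegral ℤ ((D n : K) * coeff n (FS a b L N0 p)) := by
  rw [SiegelL_coeff_FS]
  simp only [Finset.mul_sum]
  refine IsIntegral.sum _ fun i _ => IsIntegral.sum _ fun j hj => IsIntegral.sum _ fun k hk => ?_
  split_ifs with h
  · obtain ⟨c, hc⟩ := hD (n - (i + (3 * N0 - 2 * j - k))) n (Nat.sub_le _ _)
    have h1 : (D n : K) * (((p i j k : ℤ) : K) *
        coeff (n - (i + (3 * N0 - 2 * j - k))) (xS a b ^ j * zS a b ^ k)) =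
        (((p i j k * (c:ℤ) : ℤ)) : K) * ((D (n - (i + (3 * N0 - 2 * j - k))) : K) *
        coeff (n - (i + (3 * N0 - 2 * j - k))) (xS a b ^ j * zS a b ^ k)) := by
      rw [hc]; push_cast; ring
    rw [h1]
    refine IsIntegral.mul ?_ (hI j k _ (Finset.mem_range.1 hj) (Finset.mem_range.1 hk))
    exact isIntegral_algebraMap (R := ℤ) (A := K) (x := p i j k * (c:ℤ))
  · simp only [mul_zero]
    exact isIntegral_zero

end

/-- extension of an array -/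
def SiegelL_ext {L N0 X : ℕ} (q : Fin L × Fin N0 × Fin N0 → Fin X) (i j k : ℕ) : ℤ :=
  if h : i < L ∧ j < N0 ∧ k < N0 then ((q (⟨i, h.1⟩, ⟨j, h.2.1⟩, ⟨k, h.2.2⟩) : ℕ) : ℤ) else 0

theorem SiegelL_ext_apply {L N0 X : ℕ} (q : Fin L × Fin N0 × Fin N0 → Fin X)
    (t : Fin L × Fin N0 × Fin N0) : SiegelL_ext q t.1 t.2.1 t.2.2 = ((q t : ℕ) : ℤ) := by
  unfold SiegelL_ext
  rw [dif_pos ⟨t.1.2, t.2.1.2, t.2.2.2⟩]

theorem SiegelL_ext_bound {L N0 X : ℕ} (q q' : Fin L × Fin N0 × Fin N0 → Fin X) (i j k : ℕ) :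
    |((SiegelL_ext q i j k - SiegelL_ext q' i j k : ℤ) : ℝ)| ≤ X := by
  have h1 : ∀ r : Fin L × Fin N0 × Fin N0 → Fin X, 0 ≤ SiegelL_ext r i j k ∧
      SiegelL_ext r i j k ≤ X := by
    intro r
    unfold SiegelL_ext
    split_ifs with h
    · have := (r (⟨i, h.1⟩, ⟨j, h.2.1⟩, ⟨k, h.2.2⟩)).2
      constructor <;> omega
    · constructor <;> omega
  have h2 := h1 q
  have h3 := h1 q'
  have h4 : |SiegelL_ext q i j k - SiegelL_ext q' i j k| ≤ (X : ℤ) := by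
    rw [abs_le]
    constructor <;> omega
  rw [← Int.cast_abs]
  exact_mod_cast h4

/-- the core: pigeonhole for given parameters -/
theorem SiegelL_core (K : Type*) [Field K] [NumberField K] (a b : K) (N0 : ℕ)
    (D : ℕ → ℕ) (hD0 : ∀ n, 0 < D n) (hD : ∀ m n, m ≤ n → D m ∣ D n)
    (hI : ∀ j k n : ℕ, j < N0 → k < N0 → IsIntegral ℤ ((D n : K) * coeff n (xS a b ^ j * zS a b ^ k)))
    (CP : ℝ) (hpig : ∀ {α : Type} (Om : Finset α) (T1 : ℕ) (y : ℕ → α → 𝓞 K) (ρ : ℕ → ℝ),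
      (∀ n, 0 ≤ ρ n) →
      (∀ p ∈ Om, ∀ p' ∈ Om, ∀ n < T1, (∀ i < n, y i p = y i p') →
        ∀ σ : K →+* ℂ, ‖σ ((y n p : K) - (y n p' : K))‖ ≤ ρ n) →
      ∏ n ∈ Finset.range T1, (CP * (1 + ρ n)) ^ (Module.finrank ℚ K) < (Om.card : ℝ) →
      ∃ p ∈ Om, ∃ p' ∈ Om, p ≠ p' ∧ ∀ n < T1, y n p = y n p')
    (L X T1 : ℕ) (ρ : ℕ → ℝ) (hρ : ∀ n, 0 ≤ ρ n)
    (hbound : ∀ n < T1, ∀ (p : ℕ → ℕ → ℕ → ℤ), (∀ i j k, |(p i j k : ℝ)| ≤ X) → ∀ σ : K →+* ℂ,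
      (D n : ℝ) * ‖coeff n (GS (σ a) (σ b) L N0 p)‖ ≤ ρ n)
    (hprod : ∏ n ∈ Finset.range T1, (CP * (1 + ρ n)) ^ (Module.finrank ℚ K) <
      (X : ℝ) ^ (L * (N0 * N0))) :
    ∃ p : ℕ → ℕ → ℕ → ℤ, (∀ i j k, |(p i j k : ℝ)| ≤ X) ∧
      (∃ i < L, ∃ j < N0, ∃ k < N0, p i j k ≠ 0) ∧
      ∀ n < T1, coeff n (FS a b L N0 p) = 0 := by
  classical
  let y : ℕ → (Fin L × Fin N0 × Fin N0 → Fin X) → 𝓞 K := fun n q =>
    ⟨(D n : K) * coeff n (FS a b L N0 (SiegelL_ext q)),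
      SiegelL_int a b L N0 D hD hI (SiegelL_ext q) n⟩
  have hy : ∀ n q, ((y n q : 𝓞 K) : K) = (D n : K) * coeff n (FS a b L N0 (SiegelL_ext q)) :=
    fun n q => rfl
  have hyc : ∀ n q q', y n q = y n q' → coeff n (FS a b L N0
      (fun i j k => SiegelL_ext q i j k - SiegelL_ext q' i j k)) = 0 := by
    intro n q q' h
    have h1 : ((y n q : 𝓞 K) : K) = ((y n q' : 𝓞 K) : K) := by rw [h]
    rw [hy, hy] at h1
    have h2 : (D n : K) ≠ 0 := by exact_mod_cast (hD0 n).ne'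
    rw [SiegelL_FS_sub, map_sub, mul_left_cancel₀ h2 h1, sub_self]
  obtain ⟨q, -, q', -, hne, heq⟩ := hpig (Finset.univ : Finset (Fin L × Fin N0 × Fin N0 → Fin X))
    T1 y ρ hρ (by
      intro q _ q' _ n hn hlow σ
      have h1 : ((y n q : 𝓞 K) : K) - ((y n q' : 𝓞 K) : K) = (D n : K) * coeff n (FS a b L N0
          (fun i j k => SiegelL_ext q i j k - SiegelL_ext q' i j k)) := by
        rw [hy, hy, SiegelL_FS_sub, map_sub]; ring
      have h2 := coeff_GS_eq a b L N0 (fun i j k => SiegelL_ext q i j k - SiegelL_ext q' i j k) n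
        (fun i hi => hyc i q q' (hlow i hi))
      rw [h1, ← h2, map_mul, map_natCast, norm_mul, Complex.norm_natCast]
      have h3 : σ (coeff n (GS a b L N0
          (fun i j k => SiegelL_ext q i j k - SiegelL_ext q' i j k))) =
          coeff n (GS (σ a) (σ b) L N0
          (fun i j k => SiegelL_ext q i j k - SiegelL_ext q' i j k)) := by
        rw [← map_GS, coeff_map]
      rw [h3]
      exact hbound n hn _ (fun i j k => SiegelL_ext_bound q q' i j k) σ) (by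
      rw [Finset.card_univ, Fintype.card_fun, Fintype.card_prod, Fintype.card_prod,
        Fintype.card_fin, Fintype.card_fin, Fintype.card_fin, Nat.cast_pow]
      exact hprod)
  refine ⟨fun i j k => SiegelL_ext q i j k - SiegelL_ext q' i j k,
    fun i j k => SiegelL_ext_bound q q' i j k, ?_, fun n hn => hyc n q q' (heq n hn)⟩
  obtain ⟨t, ht⟩ := Function.ne_iff.1 hne
  refine ⟨t.1, t.1.2, t.2.1, t.2.1.2, t.2.2, t.2.2.2, ?_⟩
  change SiegelL_ext q t.1 t.2.1 t.2.2 - SiegelL_ext q' t.1 t.2.1 t.2.2 ≠ 0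
  rw [SiegelL_ext_apply, SiegelL_ext_apply]
  intro h
  apply ht
  apply Fin.ext
  omega

/-- the numerical inequality behind the pigeonhole principle -/
theorem SiegelL_num (κ N0 : ℕ) (hκ : 1 ≤ κ) (x CK C1 : ℝ) (hx : 0 < x) (hx1 : x ≤ 1)
    (hN : 4 * (κ : ℝ) ≤ x * (N0 : ℝ) ^ 2) (hCK : 1 ≤ CK) (hC1 : 0 ≤ C1) :
    ∀ᶠ T : ℕ in atTop, 1 ≤ ⌊x * T⌋₊ ∧ 2 ≤ T ∧
      1 ≤ ⌊Real.exp (2 * (κ : ℝ) / (N0 : ℝ) ^ 2 * T * Real.log T)⌋₊ ∧
      (κ : ℝ) * ((T : ℝ) + 3 * N0) *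
        (Real.log (⌊Real.exp (2 * (κ : ℝ) / (N0 : ℝ) ^ 2 * T * Real.log T)⌋₊ : ℝ) +
          Real.log (2 * CK * ((⌊x * T⌋₊ : ℝ) * (N0 : ℝ) ^ 2)) +
          (⌊x * T⌋₊ : ℝ) / 2 * Real.log ((T : ℝ) + 3 * N0) + C1 * ((T : ℝ) + 3 * N0)) <
      (⌊x * T⌋₊ : ℝ) * (N0 : ℝ) ^ 2 *
        Real.log (⌊Real.exp (2 * (κ : ℝ) / (N0 : ℝ) ^ 2 * T * Real.log T)⌋₊ : ℝ) := by
  have hκ0 : (1:ℝ) ≤ κ := by exact_mod_cast hκ
  have hN2 : (0:ℝ) < (N0 : ℝ) ^ 2 := by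
    by_contra h
    push Not at h
    have : x * (N0:ℝ) ^ 2 ≤ 0 := mul_nonpos_of_nonneg_of_nonpos hx.le h
    linarith
  have hN0 : (0:ℝ) ≤ N0 := Nat.cast_nonneg _
  have hN1 : (4:ℝ) ≤ (N0:ℝ) ^ 2 := by nlinarith
  -- the constant collecting all lower order terms
  obtain ⟨M, hM⟩ : ∃ M : ℝ, M = 2 * κ * (2 * CK * (N0:ℝ) ^ 2) + 2 * κ * x + 4 * κ * C1 +
      x * (N0:ℝ) ^ 2 := ⟨_, rfl⟩
  have hM0 : 0 ≤ M := by rw [hM]; positivity
  have htend : Tendsto (fun T : ℕ => Real.log (T:ℝ)) atTop atTop :=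
    Real.tendsto_log_atTop.comp tendsto_natCast_atTop_atTop
  have e1 := htend.eventually_gt_atTop (M / (κ * x / 2))
  have e2 := (tendsto_natCast_atTop_atTop (R := ℝ)).eventually_ge_atTop (24 * N0 : ℝ)
  have e3 := (tendsto_natCast_atTop_atTop (R := ℝ)).eventually_ge_atTop
    (12 * ((N0:ℝ) ^ 2 + 3 * κ * N0 + 1) / (x * (N0:ℝ) ^ 2) : ℝ)
  have e4 := (tendsto_natCast_atTop_atTop (R := ℝ)).eventually_ge_atTop (2 / x : ℝ)
  filter_upwards [e1, e2, e3, e4, eventually_ge_atTop 3] with T h1 h2 h3 h4 h5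
  have hT3 : (3:ℝ) ≤ T := by exact_mod_cast h5
  have hT0 : (0:ℝ) < T := by linarith
  have hlog1 : 1 ≤ Real.log T := by
    rw [Real.le_log_iff_exp_le hT0]
    have := Real.exp_one_lt_d9
    linarith
  have hlog2 : Real.log 2 ≤ 1 := by
    have := Real.log_two_lt_d9
    linarith
  rw [div_le_iff₀ (by positivity)] at h3
  rw [div_le_iff₀ hx] at h4
  rw [div_lt_iff₀ (by positivity)] at h1
  -- L
  obtain ⟨L, hL⟩ : ∃ L : ℕ, L = ⌊x * T⌋₊ := ⟨_, rfl⟩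
  have hL1 : (L:ℝ) ≤ x * T := by rw [hL]; exact Nat.floor_le (by positivity)
  have hL2 : x * T - 1 < L := by rw [hL]; exact Nat.sub_one_lt_floor _
  have hLT : (L:ℝ) ≤ T := by
    calc (L:ℝ) ≤ x * T := hL1
      _ ≤ 1 * T := by gcongr
      _ = T := one_mul _
  have hN0ne : (N0:ℝ) ≠ 0 := fun h => by rw [h] at hN2; norm_num at hN2
  have hL3 : 1 ≤ L := by
    have : (0:ℝ) < L := by nlinarith
    exact_mod_cast this
  have hL4 : (1:ℝ) ≤ L := by exact_mod_cast hL3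
  -- X
  obtain ⟨E, hE⟩ : ∃ E : ℝ, E = 2 * (κ : ℝ) / (N0 : ℝ) ^ 2 * T * Real.log T := ⟨_, rfl⟩
  have hE0 : 0 ≤ E := by rw [hE]; positivity
  obtain ⟨X, hX⟩ : ∃ X : ℕ, X = ⌊Real.exp E⌋₊ := ⟨_, rfl⟩
  have hexp1 : 1 ≤ Real.exp E := Real.one_le_exp hE0
  have hX1 : 1 ≤ X := by
    rw [hX]
    exact Nat.le_floor (by simpa using hexp1)
  have hX2 : (1:ℝ) ≤ X := by exact_mod_cast hX1
  have hX3 : Real.exp E / 2 ≤ X := by
    have h6 : Real.exp E - 1 < X := by rw [hX]; exact Nat.sub_one_lt_floor _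
    rcases le_total 2 (Real.exp E) with h7 | h7
    · linarith
    · linarith
  have hX4 : E - 1 ≤ Real.log X := by
    have h6 : Real.log (Real.exp E / 2) ≤ Real.log X := Real.log_le_log (by positivity) hX3
    rw [Real.log_div (Real.exp_pos E).ne' two_ne_zero, Real.log_exp] at h6
    linarith
  have hX5 : 0 ≤ Real.log X := Real.log_nonneg hX2
  rw [← hL, ← hE, ← hX]
  refine ⟨hL3, by omega, hX1, ?_⟩
  -- T1
  obtain ⟨T1, hT1⟩ : ∃ T1 : ℝ, T1 = (T:ℝ) + 3 * N0 := ⟨_, rfl⟩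
  rw [← hT1]
  have hT1a : T1 ≤ 9 / 8 * T := by rw [hT1]; linarith
  have hT1b : (T:ℝ) ≤ T1 := by rw [hT1]; linarith
  have hT1c : 0 < T1 := by linarith
  have hlogT1 : Real.log T1 ≤ Real.log T + 1 := by
    have h6 : Real.log T1 ≤ Real.log (2 * T) := Real.log_le_log hT1c (by linarith)
    rw [Real.log_mul two_ne_zero hT0.ne'] at h6
    linarith
  have hlogT1' : 0 ≤ Real.log T1 := Real.log_nonneg (by linarith)
  -- the terms on the left
  have t1 : Real.log (2 * CK * ((L:ℝ) * (N0:ℝ) ^ 2)) ≤ 2 * CK * (N0:ℝ) ^ 2 * T := by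
    calc Real.log (2 * CK * ((L:ℝ) * (N0:ℝ) ^ 2)) ≤ 2 * CK * ((L:ℝ) * (N0:ℝ) ^ 2) := by
          have := Real.log_le_sub_one_of_pos (x := 2 * CK * ((L:ℝ) * (N0:ℝ) ^ 2)) (by positivity)
          linarith
      _ ≤ 2 * CK * ((T:ℝ) * (N0:ℝ) ^ 2) := by
          apply mul_le_mul_of_nonneg_left _ (by positivity)
          exact mul_le_mul_of_nonneg_right hLT hN2.le
      _ = 2 * CK * (N0:ℝ) ^ 2 * T := by ring
  have t2 : (L:ℝ) / 2 * Real.log T1 ≤ x * T / 2 * (Real.log T + 1) := by gcongr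
  have t3 : C1 * T1 ≤ C1 * (2 * T) := by
    apply mul_le_mul_of_nonneg_left _ hC1
    linarith
  -- coefficient of log X
  have c1 : 2 / 3 * (x * (N0:ℝ) ^ 2) * T ≤ (L:ℝ) * (N0:ℝ) ^ 2 - κ * T1 := by
    have h6 : (x * T - 1) * (N0:ℝ) ^ 2 ≤ (L:ℝ) * (N0:ℝ) ^ 2 := by gcongr
    have h7 : 4 * (κ:ℝ) * T ≤ x * (N0:ℝ) ^ 2 * T := by gcongr
    rw [hT1]
    nlinarith [h3, h6, h7]
  have c2 : 0 ≤ 2 / 3 * (x * (N0:ℝ) ^ 2) * T := by positivity
  have main : (κ:ℝ) * T1 * (Real.log (2 * CK * ((L:ℝ) * (N0:ℝ) ^ 2)) +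
      (L:ℝ) / 2 * Real.log T1 + C1 * T1) < ((L:ℝ) * (N0:ℝ) ^ 2 - κ * T1) * Real.log X := by
    have r1 : 2 / 3 * (x * (N0:ℝ) ^ 2) * T * (E - 1) ≤
        ((L:ℝ) * (N0:ℝ) ^ 2 - κ * T1) * Real.log X := by
      calc 2 / 3 * (x * (N0:ℝ) ^ 2) * T * (E - 1) ≤ 2 / 3 * (x * (N0:ℝ) ^ 2) * T * Real.log X := by
            gcongr
        _ ≤ ((L:ℝ) * (N0:ℝ) ^ 2 - κ * T1) * Real.log X := by gcongr
    have r2 : 2 / 3 * (x * (N0:ℝ) ^ 2) * T * (E - 1) =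
        4 / 3 * κ * x * T ^ 2 * Real.log T - 2 / 3 * (x * (N0:ℝ) ^ 2) * T := by
      rw [hE]
      field_simp
      ring
    have l1 : (κ:ℝ) * T1 * (Real.log (2 * CK * ((L:ℝ) * (N0:ℝ) ^ 2)) +
        (L:ℝ) / 2 * Real.log T1 + C1 * T1) ≤ (κ:ℝ) * (9 / 8 * T) * (2 * CK * (N0:ℝ) ^ 2 * T +
          x * T / 2 * (Real.log T + 1) + C1 * (2 * T)) := by
      have h6 : 0 ≤ 2 * CK * (N0:ℝ) ^ 2 * T + x * T / 2 * (Real.log T + 1) + C1 * (2 * T) := by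
        positivity
      have h7 : 0 ≤ (κ:ℝ) * T1 := by positivity
      calc _ ≤ (κ:ℝ) * T1 * (2 * CK * (N0:ℝ) ^ 2 * T + x * T / 2 * (Real.log T + 1) +
            C1 * (2 * T)) := by
            apply mul_le_mul_of_nonneg_left _ h7
            linarith
        _ ≤ _ := by
            apply mul_le_mul_of_nonneg_right _ h6
            gcongr
    have hT2 : (0:ℝ) < (T:ℝ) ^ 2 := by positivity
    have h8 : M * (T:ℝ) ^ 2 < Real.log T * (κ * x / 2) * (T:ℝ) ^ 2 :=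
      mul_lt_mul_of_pos_right h1 hT2
    have h9 : (0:ℝ) ≤ κ * CK * (N0:ℝ) ^ 2 * (T:ℝ) ^ 2 := by positivity
    have h10 : (0:ℝ) ≤ κ * x * (T:ℝ) ^ 2 := by positivity
    have h11 : (0:ℝ) ≤ κ * C1 * (T:ℝ) ^ 2 := by positivity
    have h12 : (x * (N0:ℝ) ^ 2) * T ≤ (x * (N0:ℝ) ^ 2) * (T:ℝ) ^ 2 := by
      apply mul_le_mul_of_nonneg_left _ (by positivity)
      rw [pow_two]
      have : (1:ℝ) * T ≤ T * T := mul_le_mul_of_nonneg_right (by linarith) hT0.le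
      linarith
    have h14 : (0:ℝ) ≤ (x * (N0:ℝ) ^ 2) * T := by positivity
    have k1 : M * (T:ℝ) ^ 2 = 4 * (κ * CK * (N0:ℝ) ^ 2 * (T:ℝ) ^ 2) +
        2 * (κ * x * (T:ℝ) ^ 2) + 4 * (κ * C1 * (T:ℝ) ^ 2) + (x * (N0:ℝ) ^ 2) * (T:ℝ) ^ 2 := by
      rw [hM]; ring
    have k2 : Real.log T * (κ * x / 2) * (T:ℝ) ^ 2 =
        1 / 2 * (κ * x * (T:ℝ) ^ 2 * Real.log T) := by ring
    have k3 : (κ:ℝ) * (9 / 8 * T) * (2 * CK * (N0:ℝ) ^ 2 * T +
          x * T / 2 * (Real.log T + 1) + C1 * (2 * T)) =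
        9 / 4 * (κ * CK * (N0:ℝ) ^ 2 * (T:ℝ) ^ 2) + 9 / 16 * (κ * x * (T:ℝ) ^ 2 * Real.log T) +
        9 / 16 * (κ * x * (T:ℝ) ^ 2) + 9 / 4 * (κ * C1 * (T:ℝ) ^ 2) := by ring
    have k4 : 4 / 3 * κ * x * (T:ℝ) ^ 2 * Real.log T = 4 / 3 * (κ * x * (T:ℝ) ^ 2 * Real.log T) := by
      ring
    have h13 : (0:ℝ) ≤ κ * x * (T:ℝ) ^ 2 * Real.log T := by positivity
    rw [k1, k2] at h8
    rw [k3] at l1
    rw [r2, k4] at r1
    linarith
  have k5 : (κ:ℝ) * T1 * (Real.log X + Real.log (2 * CK * ((L:ℝ) * (N0:ℝ) ^ 2)) +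
      (L:ℝ) / 2 * Real.log T1 + C1 * T1) = κ * T1 * Real.log X +
      (κ:ℝ) * T1 * (Real.log (2 * CK * ((L:ℝ) * (N0:ℝ) ^ 2)) +
      (L:ℝ) / 2 * Real.log T1 + C1 * T1) := by ring
  rw [k5]
  have k6 : ((L:ℝ) * (N0:ℝ) ^ 2 - κ * T1) * Real.log X =
      (L:ℝ) * (N0:ℝ) ^ 2 * Real.log X - κ * T1 * Real.log X := by ring
  rw [k6] at main
  linarith

theorem siegel (K : Type*) [Field K] [NumberField K] (a b : K) (ha : IsIntegral ℤ a)
    (hb : IsIntegral ℤ b) (N0 : ℕ) (x : ℝ) (hx : 0 < x) (hx1 : x ≤ 1)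
    (hN : 4 * (Module.finrank ℚ K : ℝ) ≤ x * (N0 : ℝ) ^ 2) (hD : GoodDen K a b N0) :
    ∃ T0 : ℕ, ∀ T : ℕ, T0 ≤ T → ∃ p : ℕ → ℕ → ℕ → ℤ,
      (∀ i j k, |(p i j k : ℝ)| ≤
        Real.exp (2 * (Module.finrank ℚ K : ℝ) / (N0 : ℝ) ^ 2 * T * Real.log T)) ∧
      (∃ i < ⌊x * T⌋₊, ∃ j < N0, ∃ k < N0, p i j k ≠ 0) ∧
      ∀ n < T + 3 * N0, coeff n (FS a b ⌊x * T⌋₊ N0 p) = 0 := by
  obtain ⟨D, hD0, hDd, ⟨CD, hCD0, hlogD⟩, hI⟩ := hD
  obtain ⟨CP, hCP, hpig⟩ := pigeon K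
  choose CG hCG0 hCG using fun σ : K →+* ℂ => coeff_GS_le (σ a) (σ b) N0
  obtain ⟨C1, hC1def⟩ : ∃ C1 : ℝ, C1 = (∑ σ : K →+* ℂ, CG σ) + CD := ⟨_, rfl⟩
  have hsum0 : 0 ≤ ∑ σ : K →+* ℂ, CG σ := Finset.sum_nonneg fun σ _ => hCG0 σ
  have hC1 : 0 ≤ C1 := by rw [hC1def]; linarith
  have hCGle : ∀ σ : K →+* ℂ, CG σ + CD ≤ C1 := fun σ => by
    rw [hC1def]
    have := Finset.single_le_sum (f := CG) (fun σ _ => hCG0 σ) (Finset.mem_univ σ)
    linarith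
  have hκ : 1 ≤ Module.finrank ℚ K := Module.finrank_pos
  obtain ⟨T0, hT0⟩ := eventually_atTop.1
    (SiegelL_num (Module.finrank ℚ K) N0 hκ x CP C1 hx hx1 hN hCP hC1)
  refine ⟨T0, fun T hT => ?_⟩
  obtain ⟨hL1, hT2, hX1, hnum⟩ := hT0 T hT
  have hfl : ((⌊Real.exp (2 * (Module.finrank ℚ K : ℝ) / (N0 : ℝ) ^ 2 * T * Real.log T)⌋₊ : ℕ) : ℝ)
      ≤ Real.exp (2 * (Module.finrank ℚ K : ℝ) / (N0 : ℝ) ^ 2 * T * Real.log T) :=
    Nat.floor_le (Real.exp_pos _).le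
  generalize hLd : ⌊x * T⌋₊ = L at *
  generalize hXd : ⌊Real.exp (2 * (Module.finrank ℚ K : ℝ) / (N0 : ℝ) ^ 2 * T * Real.log T)⌋₊ = X
    at *
  have hN0pos : 1 ≤ N0 := by
    by_contra h
    have h0 : N0 = 0 := by omega
    rw [h0] at hN
    have : (1:ℝ) ≤ (Module.finrank ℚ K : ℝ) := by exact_mod_cast hκ
    norm_num at hN
    linarith
  have hN0r : (1:ℝ) ≤ (N0:ℝ) := by exact_mod_cast hN0pos
  have hLr : (1:ℝ) ≤ (L:ℝ) := by exact_mod_cast hL1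
  have hXr : (1:ℝ) ≤ (X:ℝ) := by exact_mod_cast hX1
  have hN2 : (1:ℝ) ≤ (N0:ℝ) ^ 2 := one_le_pow₀ hN0r
  have hLN : (1:ℝ) ≤ (L:ℝ) * (N0:ℝ) ^ 2 := by nlinarith
  obtain ⟨T1, hT1⟩ : ∃ T1 : ℝ, T1 = (T:ℝ) + 3 * N0 := ⟨_, rfl⟩
  have hTr : (2:ℝ) ≤ (T:ℝ) := by exact_mod_cast hT2
  have hT1pos : 1 ≤ T1 := by rw [hT1]; linarith
  rw [← hT1] at hnum
  obtain ⟨p, hp1, hp2, hp3⟩ := SiegelL_core K a b N0 D hD0 hDd hI CP hpig L X (T + 3 * N0)
    (fun n => (X:ℝ) * (L * (N0:ℝ) ^ 2) * Real.exp ((L / 2) * Real.log (n + 1) + C1 * (n + 1)))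
    (fun n => by positivity) (by
      intro n hn p hp σ
      have h1 := hCG σ L p X (by positivity) hp n
      have h2 : (D n : ℝ) ≤ Real.exp ((1 / 2) * n * Real.log n + CD * n + CD) := by
        rw [← Real.log_le_iff_le_exp (by exact_mod_cast hD0 n)]
        exact hlogD n
      calc (D n : ℝ) * ‖coeff n (GS (σ a) (σ b) L N0 p)‖
          ≤ Real.exp ((1 / 2) * n * Real.log n + CD * n + CD) *
            ((X:ℝ) * (L * (N0 : ℝ) ^ 2) *
              Real.exp ((L / 2) * Real.log (n + 1) - (n / 2) * Real.log n + CG σ * (n + 1))) :=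
            mul_le_mul h2 h1 (norm_nonneg _) (Real.exp_pos _).le
        _ = (X:ℝ) * (L * (N0 : ℝ) ^ 2) * (Real.exp ((1 / 2) * n * Real.log n + CD * n + CD) *
              Real.exp ((L / 2) * Real.log (n + 1) - (n / 2) * Real.log n + CG σ * (n + 1))) := by
            ring
        _ = (X:ℝ) * (L * (N0 : ℝ) ^ 2) *
              Real.exp ((L / 2) * Real.log (n + 1) + (CG σ + CD) * (n + 1)) := by
            rw [← Real.exp_add]
            congr 2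
            ring
        _ ≤ (X:ℝ) * (L * (N0 : ℝ) ^ 2) *
              Real.exp ((L / 2) * Real.log (n + 1) + C1 * (n + 1)) := by
            apply mul_le_mul_of_nonneg_left _ (by positivity)
            apply Real.exp_le_exp.2
            have := mul_le_mul_of_nonneg_right (hCGle σ) (by positivity : (0:ℝ) ≤ (n:ℝ) + 1)
            linarith) (by
      have hB0 : 0 < 2 * CP * ((L:ℝ) * (N0:ℝ) ^ 2) := by positivity
      have h1 : ∀ n ∈ Finset.range (T + 3 * N0),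
          (CP * (1 + (X:ℝ) * (L * (N0:ℝ) ^ 2) *
            Real.exp ((L / 2) * Real.log (n + 1) + C1 * (n + 1)))) ^ (Module.finrank ℚ K) ≤
          Real.exp ((Module.finrank ℚ K : ℝ) * (Real.log X +
            Real.log (2 * CP * ((L:ℝ) * (N0:ℝ) ^ 2)) + (L:ℝ) / 2 * Real.log T1 + C1 * T1)) := by
        intro n hn
        have hn1 : (n:ℝ) + 1 ≤ T1 := by
          have := Finset.mem_range.1 hn
          have h2 : ((n + 1 : ℕ) : ℝ) ≤ ((T + 3 * N0 : ℕ) : ℝ) := by exact_mod_cast this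
          push_cast at h2
          rw [hT1]
          exact h2
        have h3 : Real.exp ((L / 2) * Real.log (n + 1) + C1 * (n + 1)) ≤
            Real.exp ((L:ℝ) / 2 * Real.log T1 + C1 * T1) := by
          apply Real.exp_le_exp.2
          apply add_le_add
          · apply mul_le_mul_of_nonneg_left _ (by positivity)
            exact Real.log_le_log (by positivity) hn1
          · exact mul_le_mul_of_nonneg_left hn1 hC1
        have h4 : 1 ≤ (X:ℝ) * (L * (N0:ℝ) ^ 2) *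
            Real.exp ((L:ℝ) / 2 * Real.log T1 + C1 * T1) := by
          have h5 : 1 ≤ Real.exp ((L:ℝ) / 2 * Real.log T1 + C1 * T1) := by
            apply Real.one_le_exp
            have := Real.log_nonneg hT1pos
            positivity
          have h6 : 1 ≤ (X:ℝ) * (L * (N0:ℝ) ^ 2) := one_le_mul_of_one_le_of_one_le hXr hLN
          exact one_le_mul_of_one_le_of_one_le h6 h5
        have h7 : CP * (1 + (X:ℝ) * (L * (N0:ℝ) ^ 2) *
            Real.exp ((L / 2) * Real.log (n + 1) + C1 * (n + 1))) ≤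
            Real.exp (Real.log X + Real.log (2 * CP * ((L:ℝ) * (N0:ℝ) ^ 2)) +
              (L:ℝ) / 2 * Real.log T1 + C1 * T1) := by
          have h8 : Real.exp (Real.log X + Real.log (2 * CP * ((L:ℝ) * (N0:ℝ) ^ 2)) +
              (L:ℝ) / 2 * Real.log T1 + C1 * T1) = X * (2 * CP * ((L:ℝ) * (N0:ℝ) ^ 2)) *
              Real.exp ((L:ℝ) / 2 * Real.log T1 + C1 * T1) := by
            rw [add_assoc, Real.exp_add, Real.exp_add, Real.exp_log (by linarith),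
              Real.exp_log hB0]
          rw [h8]
          calc CP * (1 + (X:ℝ) * (L * (N0:ℝ) ^ 2) *
              Real.exp ((L / 2) * Real.log (n + 1) + C1 * (n + 1)))
              ≤ CP * ((X:ℝ) * (L * (N0:ℝ) ^ 2) * Real.exp ((L:ℝ) / 2 * Real.log T1 + C1 * T1) +
                (X:ℝ) * (L * (N0:ℝ) ^ 2) * Real.exp ((L:ℝ) / 2 * Real.log T1 + C1 * T1)) := by
                apply mul_le_mul_of_nonneg_left _ (by linarith)
                apply add_le_add h4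
                exact mul_le_mul_of_nonneg_left h3 (by positivity)
            _ = _ := by ring
        have h9 : (Real.exp (Real.log X + Real.log (2 * CP * ((L:ℝ) * (N0:ℝ) ^ 2)) +
              (L:ℝ) / 2 * Real.log T1 + C1 * T1)) ^ (Module.finrank ℚ K) =
            Real.exp ((Module.finrank ℚ K : ℝ) * (Real.log X +
            Real.log (2 * CP * ((L:ℝ) * (N0:ℝ) ^ 2)) + (L:ℝ) / 2 * Real.log T1 + C1 * T1)) := by
          rw [← Real.exp_nat_mul]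
        rw [← h9]
        exact pow_le_pow_left₀ (by positivity) h7 _
      have h10 := Finset.prod_le_prod (s := Finset.range (T + 3 * N0))
        (fun n _ => by positivity) h1
      rw [Finset.prod_const, Finset.card_range, ← Real.exp_nat_mul] at h10
      refine lt_of_le_of_lt h10 ?_
      have h11 : (X:ℝ) ^ (L * (N0 * N0)) = Real.exp ((L:ℝ) * (N0:ℝ) ^ 2 * Real.log X) := by
        rw [← Real.exp_log (show (0:ℝ) < X by linarith), ← Real.exp_nat_mul, Real.log_exp]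
        congr 1
        push_cast
        ring
      rw [h11]
      apply Real.exp_lt_exp.2
      refine lt_of_eq_of_lt ?_ hnum
      rw [hT1]
      push_cast
      ring)
  exact ⟨p, fun i j k => (hp1 i j k).trans hfl, hp2, hp3⟩

end Pool.Agent.ZCM
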