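import Pool.Agent.ZCM.CurvePoly
import Pool.Agent.ZCM.NormPoly
import Pool.Agent.ZCM.Gelfond
import Pool.Agent.ZCM.GoodDenOf

/-! # P4: `℘(β)` is algebraic -/

namespace Pool.Agent.ZCM
open Polynomial NumberField

theorem ThetaAlg_ne {R : Type*} [CommRing R] [IsDomain R] (A B f : R[X])
    (hf : f.natDegree = 3) (hAB : ¬ (A = 0 ∧ B = 0)) : A ^ 2 - B ^ 2 * f ≠ 0 := by
  intro h
  have h1 : A ^ 2 = B ^ 2 * f := sub_eq_zero.mp h
  have hf0 : f ≠ 0 := by
    rintro rfl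
    simp at hf
  by_cases hB : B = 0
  · subst hB
    have h3 : A ^ 2 = 0 := by rw [h1]; ring
    exact hAB ⟨pow_eq_zero_iff (two_ne_zero) |>.mp h3, rfl⟩
  · have h2 : (A ^ 2).natDegree = (B ^ 2 * f).natDegree := by rw [h1]
    rw [natDegree_pow, natDegree_mul (pow_ne_zero 2 hB) hf0, natDegree_pow, hf] at h2
    omega

theorem ThetaAlg_deg {R : Type*} [CommRing R] [IsDomain R] (A B f : R[X]) (D : ℕ)
    (hf : f.natDegree = 3) (hA : 2 * A.natDegree ≤ D)
    (hB : B ≠ 0 → 2 * B.natDegree + 3 ≤ D) : (A ^ 2 - B ^ 2 * f).natDegree ≤ D := by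
  refine (natDegree_sub_le _ _).trans (max_le ?_ ?_)
  · rw [natDegree_pow]; exact hA
  · by_cases hB0 : B = 0
    · subst hB0
      simp
    · refine natDegree_mul_le.trans ?_
      rw [natDegree_pow, hf]
      exact hB hB0

theorem ThetaAlg_f {R : Type*} [CommRing R] [IsDomain R] (a b : R) :
    (X ^ 3 + C a * X + C b : R[X]).natDegree = 3 := by
  compute_degree!

theorem ThetaAlg_nm {R : Type*} [CommRing R] (A B f : R[X]) (σ : R →+* ℂ) :
    nm1 ((A ^ 2 - B ^ 2 * f).map σ) ≤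
      nm1 (A.map σ) ^ 2 + nm1 (B.map σ) ^ 2 * nm1 (f.map σ) := by
  rw [Polynomial.map_sub, Polynomial.map_mul, Polynomial.map_pow, Polynomial.map_pow]
  refine (nm1_sub_le _ _).trans (add_le_add ?_ ?_)
  · rw [pow_two, pow_two]; exact nm1_mul_le _ _
  · refine (nm1_mul_le _ _).trans (mul_le_mul_of_nonneg_right ?_ (nm1_nonneg _))
    rw [pow_two, pow_two]; exact nm1_mul_le _ _

/-- the choice of the parameters -/
theorem ThetaAlg_param (κ : ℕ) (hκ : 1 ≤ κ) : ∃ (N0 : ℕ) (x : ℝ), 1 ≤ N0 ∧ 0 < x ∧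
    4 * (κ : ℝ) ≤ x * (N0 : ℝ) ^ 2 ∧ vs κ N0 + vt κ N0 x + x ≤ 1 / 16 ∧
    0 < vs κ N0 + vt κ N0 x ∧ κ * (vs κ N0 + vt κ N0 x) ≤ 1 / 1000 ∧
    (κ : ℝ) ^ 2 * N0 * (vs κ N0 + vt κ N0 x) ≤ 1 / 1000 := by
  have hk : (1 : ℝ) ≤ (κ : ℝ) := by exact_mod_cast hκ
  have hk0 : (0 : ℝ) < (κ : ℝ) := by linarith
  have hp : ∀ n : ℕ, (1 : ℝ) ≤ (κ : ℝ) ^ n := fun n => one_le_pow₀ hk
  refine ⟨40000 * κ ^ 4, 1 / (400000000 * (κ : ℝ) ^ 7), ?_, by positivity, ?_, ?_⟩
  · have : 1 ≤ κ ^ 4 := Nat.one_le_pow _ _ hκ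
    omega
  · push_cast
    rw [div_mul_eq_mul_div, le_div_iff₀ (by positivity)]
    ring_nf
    exact le_rfl
  · have hvs : vs κ (40000 * κ ^ 4) = 1 / (800000000 * (κ : ℝ) ^ 7) := by
      unfold vs
      push_cast
      field_simp
      norm_num
    have hS : vs κ (40000 * κ ^ 4) + vt κ (40000 * κ ^ 4) (1 / (400000000 * (κ : ℝ) ^ 7)) =
        (1 + 12 * κ) / (800000000 * (κ : ℝ) ^ 7) := by
      unfold vt
      rw [hvs]
      field_simp
      ring
    rw [hS]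
    refine ⟨?_, by positivity, ?_, ?_⟩
    · have e : (1 + 12 * (κ : ℝ)) / (800000000 * (κ : ℝ) ^ 7) + 1 / (400000000 * (κ : ℝ) ^ 7) =
          (3 + 12 * κ) / (800000000 * (κ : ℝ) ^ 7) := by
        field_simp
        ring
      rw [e, div_le_iff₀ (by positivity)]
      have h7 : (κ : ℝ) ^ 7 = κ * (κ : ℝ) ^ 6 := by ring
      nlinarith [hp 7, mul_le_mul_of_nonneg_left (hp 6) hk0.le]
    · rw [← mul_div_assoc, div_le_iff₀ (by positivity)]
      have h7 : (κ : ℝ) ^ 7 = κ ^ 2 * (κ : ℝ) ^ 5 := by ring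
      nlinarith [hp 7, mul_le_mul_of_nonneg_left (hp 5) (sq_nonneg (κ : ℝ)),
        mul_le_mul_of_nonneg_left (hp 6) hk0.le]
    · rw [← mul_div_assoc, div_le_iff₀ (by positivity)]
      push_cast
      have h7 : (κ : ℝ) ^ 2 * (40000 * (κ : ℝ) ^ 4) * (1 + 12 * κ) =
          40000 * (κ : ℝ) ^ 6 + 480000 * (κ : ℝ) ^ 7 := by ring
      rw [h7]
      have h8 : (κ : ℝ) ^ 7 = κ * (κ : ℝ) ^ 6 := by ring
      have h9 : (κ : ℝ) ^ 6 ≤ (κ : ℝ) ^ 7 := by
        rw [h8]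
        nlinarith [hp 6]
      clear h8
      have h10 := hp 7
      linarith

/-- the growth facts for `T log T` -/
theorem ThetaAlg_growth (c : ℝ) (hc : 0 < c) :
    Filter.Tendsto (fun T : ℕ => c * ((T : ℝ) * Real.log T)) Filter.atTop Filter.atTop ∧
    (∀ T : ℕ, 3 ≤ T → c * (((T + 1 : ℕ) : ℝ) * Real.log ((T + 1 : ℕ) : ℝ)) ≤
      2 * (c * ((T : ℝ) * Real.log T))) ∧
    (∀ T : ℕ, 3 ≤ T → c * ((T : ℝ) * Real.log T) ≤
      c * (((T + 1 : ℕ) : ℝ) * Real.log ((T + 1 : ℕ) : ℝ))) := by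
  refine ⟨?_, ?_, ?_⟩
  · refine Filter.Tendsto.const_mul_atTop hc ?_
    exact tendsto_natCast_atTop_atTop.atTop_mul_atTop₀
      (Real.tendsto_log_atTop.comp tendsto_natCast_atTop_atTop)
  · intro T hT
    have hT' : (3 : ℝ) ≤ (T : ℝ) := by exact_mod_cast hT
    have hT0 : (0 : ℝ) < T := by linarith
    have hlog1 : 1 ≤ Real.log T := by
      rw [Real.le_log_iff_exp_le hT0]
      have := Real.exp_one_lt_d9
      linarith
    have h1 : Real.log ((T + 1 : ℕ) : ℝ) ≤ Real.log T + 1 / T := by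
      push_cast
      have h2 : (T : ℝ) + 1 = T * (1 + 1 / T) := by field_simp
      rw [h2, Real.log_mul (by positivity) (by positivity)]
      have h3 := Real.log_le_sub_one_of_pos (show (0 : ℝ) < 1 + 1 / T by positivity)
      linarith
    have h4 : ((T + 1 : ℕ) : ℝ) * Real.log ((T + 1 : ℕ) : ℝ) ≤ 2 * ((T : ℝ) * Real.log T) := by
      have h5 : ((T + 1 : ℕ) : ℝ) * Real.log ((T + 1 : ℕ) : ℝ) ≤
          ((T : ℝ) + 1) * (Real.log T + 1 / T) := by
        push_cast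
        push_cast at h1
        exact mul_le_mul_of_nonneg_left h1 (by positivity)
      have h6 : ((T : ℝ) + 1) * (Real.log T + 1 / T) =
          T * Real.log T + Real.log T + 1 + 1 / T := by field_simp; ring
      have h7 : 1 / (T : ℝ) ≤ 1 := by
        rw [div_le_one hT0]; linarith
      nlinarith
    nlinarith
  · intro T hT
    have hT' : (3 : ℝ) ≤ (T : ℝ) := by exact_mod_cast hT
    refine mul_le_mul_of_nonneg_left ?_ hc.le
    push_cast
    have h1 : Real.log (T : ℝ) ≤ Real.log ((T : ℝ) + 1) :=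
      Real.log_le_log (by linarith) (by linarith)
    have h2 : 0 ≤ Real.log (T : ℝ) := Real.log_nonneg (by linarith)
    nlinarith

theorem theta_alg (L : PeriodPair) {K : Type*} [Field K] [NumberField K] (ι : K →+* ℂ)
    (a b : 𝓞 K) (h2 : L.g₂ = -4 * oc ι a) (h3 : L.g₃ = -4 * oc ι b)
    (hS : HS K (a : K) (b : K)) (β c : K) (hβ : ι β ∉ L.lattice)
    (hc : zetaL L (ι β) = ι c) : IsAlgebraic ℚ (L.weierstrassP (ι β)) := by
  classical
  obtain ⟨κ, hκdef⟩ : ∃ κ : ℕ, κ = Module.finrank ℚ K := ⟨_, rfl⟩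
  have hκ : 1 ≤ κ := by rw [hκdef]; exact Module.finrank_pos
  obtain ⟨N0, x, hN0, hx, hN, hs, hSpos, hSk, hSk2⟩ := ThetaAlg_param κ hκ
  have hGD : GoodDen K (a : K) (b : K) N0 :=
    goodDen_of_HS _ _ (RingOfIntegers.isIntegral_coe a) (RingOfIntegers.isIntegral_coe b) hS N0
  obtain ⟨C, T0, hC, hAB⟩ := curve_poly L ι a b h2 h3 N0 x hx hGD (by rw [← hκdef]; exact hN)
    (by rw [← hκdef]; exact hs) β c hβ hc
  rw [← hκdef] at hAB
  obtain ⟨S, hSdef⟩ : ∃ S : ℝ, S = vs κ N0 + vt κ N0 x := ⟨_, rfl⟩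
  rw [← hSdef] at hAB hSpos hSk hSk2
  have hk1 : (1 : ℝ) ≤ (κ : ℝ) := by exact_mod_cast hκ
  have hk0 : (0 : ℝ) < (κ : ℝ) := by linarith
  obtain ⟨θ, hθ⟩ : ∃ θ : ℂ, θ = L.weierstrassP (ι β) := ⟨_, rfl⟩
  obtain ⟨θ', hθ'⟩ : ∃ θ' : ℂ, θ' = L.derivWeierstrassP (ι β) / 2 := ⟨_, rfl⟩
  rw [← hθ, ← hθ'] at hAB
  rw [← hθ]
  have hcurve : θ' ^ 2 = θ ^ 3 + oc ι a * θ + oc ι b := by
    have h := L.derivWeierstrassP_sq (ι β) hβ
    rw [h2, h3, ← hθ] at h
    rw [hθ', div_pow, h]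
    ring
  -- the cubic
  let f : (𝓞 K)[X] := X ^ 3 + Polynomial.C a * X + Polynomial.C b
  have hf3 : f.natDegree = 3 := ThetaAlg_f a b
  obtain ⟨Cf, hCf⟩ : ∃ Cf : ℝ, Cf = ∑ σ : K →+* ℂ, nm1 (f.map (oc σ)) := ⟨_, rfl⟩
  have hCf0 : 0 ≤ Cf := by
    rw [hCf]; exact Finset.sum_nonneg fun σ _ => nm1_nonneg _
  have hCfσ : ∀ σ : K →+* ℂ, nm1 (f.map (oc σ)) ≤ Cf := by
    intro σ
    rw [hCf]
    exact Finset.single_le_sum (f := fun σ : K →+* ℂ => nm1 (f.map (oc σ)))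
      (fun σ _ => nm1_nonneg _) (Finset.mem_univ σ)
  obtain ⟨lm, hlm0, hlm⟩ : ∃ lm : ℝ, 0 ≤ lm ∧ max 1 ‖θ‖ = Real.exp lm := by
    refine ⟨Real.log (max 1 ‖θ‖), Real.log_nonneg (le_max_left _ _), ?_⟩
    rw [Real.exp_log (lt_of_lt_of_le one_pos (le_max_left _ _))]
  obtain ⟨C1, hC1⟩ : ∃ C1 : ℝ, C1 = 2 * C + Cf := ⟨_, rfl⟩
  obtain ⟨C2, hC2⟩ : ∃ C2 : ℝ, C2 = 2 * C + 2 * N0 * lm + ‖θ'‖ := ⟨_, rfl⟩
  obtain ⟨C4, hC4⟩ : ∃ C4 : ℝ, C4 = C1 + 4 * N0 * lm := ⟨_, rfl⟩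
  obtain ⟨C5, hC5⟩ : ∃ C5 : ℝ, C5 = C2 + κ * C4 := ⟨_, rfl⟩
  have hC10 : 0 ≤ C1 := by rw [hC1]; positivity
  have hC20 : 0 ≤ C2 := by rw [hC2]; positivity
  have hC40 : 0 ≤ C4 := by rw [hC4]; positivity
  have hC50 : 0 ≤ C5 := by rw [hC5]; positivity
  have hcard : Fintype.card (K →+* ℂ) = κ := by
    rw [hκdef]; exact NumberField.Embeddings.card K ℂ
  obtain ⟨T1, hT1⟩ : ∃ T1 : ℕ, ∀ T : ℕ, T1 ≤ T →
      C1 ≤ S * Real.log T ∧ 8 * C5 ≤ Real.log T := by
    have ht : Filter.Tendsto (fun T : ℕ => Real.log (T : ℝ)) Filter.atTop Filter.atTop :=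
      Real.tendsto_log_atTop.comp tendsto_natCast_atTop_atTop
    obtain ⟨T1, hT1⟩ := Filter.eventually_atTop.mp
      ((ht.eventually_ge_atTop (C1 / S)).and (ht.eventually_ge_atTop (8 * C5)))
    refine ⟨T1, fun T hT => ⟨?_, (hT1 T hT).2⟩⟩
    have h := (hT1 T hT).1
    rw [div_le_iff₀ hSpos] at h
    linarith
  -- the main estimate
  have key : ∀ T : ℕ, max (max T0 T1) 3 ≤ T → ∃ q : ℤ[X], q ≠ 0 ∧
      q.natDegree ≤ 4 * N0 * κ ∧ nmZ q ≤ Real.exp (3 * κ * S * ((T : ℝ) * Real.log T)) ∧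
      ‖aeval θ q‖ ≤ Real.exp (-6 * ((4 * N0 * κ : ℕ) : ℝ) *
        (3 * κ * S * ((T : ℝ) * Real.log T))) := by
    intro T hT
    have hTT0 : T0 ≤ T := (le_max_left _ _).trans ((le_max_left _ _).trans hT)
    have hTT1 : T1 ≤ T := (le_max_right _ _).trans ((le_max_left _ _).trans hT)
    have hT3 : 3 ≤ T := (le_max_right _ _).trans hT
    have hT1' : (1 : ℝ) ≤ (T : ℝ) := by
      have : (3 : ℝ) ≤ (T : ℝ) := by exact_mod_cast hT3
      linarith
    obtain ⟨hL1, hL2⟩ := hT1 T hTT1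
    obtain ⟨A, B, hAB0, hdA, hdB, hnm, hval⟩ := hAB T hTT0
    obtain ⟨E, hE⟩ : ∃ E : ℝ, E = (T : ℝ) * Real.log T := ⟨_, rfl⟩
    have hE0 : 0 ≤ E := by
      rw [hE]; exact mul_nonneg (by linarith) (Real.log_nonneg hT1')
    have hCE : C1 * T ≤ S * E := by
      rw [hE]; nlinarith
    have hCE5 : 8 * (C5 * T) ≤ E := by
      rw [hE]; nlinarith
    have hSE0 : 0 ≤ S * E := mul_nonneg hSpos.le hE0
    have hnmA : ∀ σ : K →+* ℂ, nm1 (A.map (oc σ)) ≤ Real.exp (S * E + C * T) := by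
      intro σ
      refine (hnm σ).1.trans (le_of_eq ?_)
      congr 1
      rw [hE]; ring
    have hnmB : ∀ σ : K →+* ℂ, nm1 (B.map (oc σ)) ≤ Real.exp (S * E + C * T) := by
      intro σ
      refine (hnm σ).2.trans (le_of_eq ?_)
      congr 1
      rw [hE]; ring
    have hval' : ‖(A.map (oc ι)).eval θ + (B.map (oc ι)).eval θ * θ'‖ ≤
        Real.exp (-(1 / 4) * E + C * T) := by
      refine hval.trans (le_of_eq ?_)
      congr 1
      rw [hE]; ring
    let G : (𝓞 K)[X] := A ^ 2 - B ^ 2 * f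
    have hG0 : G ≠ 0 := ThetaAlg_ne A B f hf3 hAB0
    have hGdeg : G.natDegree ≤ 4 * N0 := ThetaAlg_deg A B f (4 * N0) hf3 hdA hdB
    obtain ⟨q, hq⟩ := normPoly G
    have hinj : ∀ σ : K →+* ℂ, Function.Injective (oc σ) := fun σ =>
      σ.injective.comp (RingOfIntegers.coe_injective)
    have hGσ0 : ∀ σ : K →+* ℂ, G.map (oc σ) ≠ 0 := fun σ =>
      (Polynomial.map_ne_zero_iff (hinj σ)).mpr hG0
    -- size of G
    have hGnm : ∀ σ : K →+* ℂ, nm1 (G.map (oc σ)) ≤ Real.exp (2 * (S * E) + C1 * T) := by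
      intro σ
      have e1 : nm1 (G.map (oc σ)) ≤ nm1 (A.map (oc σ)) ^ 2 +
          nm1 (B.map (oc σ)) ^ 2 * nm1 (f.map (oc σ)) := ThetaAlg_nm A B f (oc σ)
      have e2 : nm1 (A.map (oc σ)) ^ 2 ≤ Real.exp (S * E + C * T) ^ 2 :=
        pow_le_pow_left₀ (nm1_nonneg _) (hnmA σ) 2
      have e3 : nm1 (B.map (oc σ)) ^ 2 ≤ Real.exp (S * E + C * T) ^ 2 :=
        pow_le_pow_left₀ (nm1_nonneg _) (hnmB σ) 2
      have e4 : nm1 (B.map (oc σ)) ^ 2 * nm1 (f.map (oc σ)) ≤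
          Real.exp (S * E + C * T) ^ 2 * Cf :=
        mul_le_mul e3 (hCfσ σ) (nm1_nonneg _) (by positivity)
      have e5 : 1 + Cf ≤ Real.exp (Cf * T) := by
        have h := Real.add_one_le_exp (Cf * T)
        nlinarith
      have e6 : nm1 (G.map (oc σ)) ≤ Real.exp (S * E + C * T) ^ 2 * (1 + Cf) := by
        have : Real.exp (S * E + C * T) ^ 2 * (1 + Cf) =
          Real.exp (S * E + C * T) ^ 2 + Real.exp (S * E + C * T) ^ 2 * Cf := by ring
        rw [this]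
        linarith
      refine e6.trans ?_
      have e7 : Real.exp (S * E + C * T) ^ 2 * (1 + Cf) ≤
          Real.exp (S * E + C * T) ^ 2 * Real.exp (Cf * T) :=
        mul_le_mul_of_nonneg_left e5 (by positivity)
      refine e7.trans (le_of_eq ?_)
      rw [← Real.exp_nat_mul, ← Real.exp_add]
      congr 1
      push_cast
      rw [hC1]; ring
    have hGev : ∀ σ : K →+* ℂ, ‖(G.map (oc σ)).eval θ‖ ≤ Real.exp (2 * (S * E) + C4 * T) := by
      intro σ
      have e1 := norm_eval_le1 (G.map (oc σ)) θ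
      have e2 : max 1 ‖θ‖ ^ (G.map (oc σ)).natDegree ≤ Real.exp (4 * N0 * lm * T) := by
        have e3 : (G.map (oc σ)).natDegree ≤ 4 * N0 := natDegree_map_le.trans hGdeg
        have e4 : max 1 ‖θ‖ ^ (G.map (oc σ)).natDegree ≤ max 1 ‖θ‖ ^ (4 * N0) :=
          pow_le_pow_right₀ (le_max_left _ _) e3
        refine e4.trans ?_
        rw [hlm, ← Real.exp_nat_mul]
        refine Real.exp_le_exp.mpr ?_
        push_cast
        have e5 : 0 ≤ 4 * (N0 : ℝ) * lm := by positivity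
        nlinarith
      have e6 : ‖(G.map (oc σ)).eval θ‖ ≤
          Real.exp (2 * (S * E) + C1 * T) * Real.exp (4 * N0 * lm * T) :=
        e1.trans (mul_le_mul (hGnm σ) e2 (by positivity) (by positivity))
      refine e6.trans (le_of_eq ?_)
      rw [← Real.exp_add]
      congr 1
      rw [hC4]; ring
    have hGι : ‖(G.map (oc ι)).eval θ‖ ≤ Real.exp (-(1 / 4) * E + S * E + C2 * T) := by
      have e1 : (G.map (oc ι)).eval θ =
          ((A.map (oc ι)).eval θ + (B.map (oc ι)).eval θ * θ') *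
          ((A.map (oc ι)).eval θ - (B.map (oc ι)).eval θ * θ') := by
        have e2 : (f.map (oc ι)).eval θ = θ' ^ 2 := by
          rw [hcurve]
          simp [f]
        show ((A ^ 2 - B ^ 2 * f).map (oc ι)).eval θ = _
        rw [Polynomial.map_sub, Polynomial.map_mul, Polynomial.map_pow, Polynomial.map_pow,
          eval_sub, eval_mul, eval_pow, eval_pow, e2]
        ring
      rw [e1, norm_mul]
      have hdegA : A.natDegree ≤ 2 * N0 := by omega
      have hdegB : B.natDegree ≤ 2 * N0 := by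
        by_cases hB0 : B = 0
        · rw [hB0]; simp
        · have := hdB hB0; omega
      have hev : ∀ P : (𝓞 K)[X], P.natDegree ≤ 2 * N0 →
          nm1 (P.map (oc ι)) ≤ Real.exp (S * E + C * T) →
          ‖(P.map (oc ι)).eval θ‖ ≤ Real.exp (S * E + C * T) * Real.exp (2 * N0 * lm) := by
        intro P hP hPn
        have e3 := norm_eval_le1 (P.map (oc ι)) θ
        have e4 : max 1 ‖θ‖ ^ (P.map (oc ι)).natDegree ≤ Real.exp (2 * N0 * lm) := by
          have e5 : (P.map (oc ι)).natDegree ≤ 2 * N0 := natDegree_map_le.trans hP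
          have e6 : max 1 ‖θ‖ ^ (P.map (oc ι)).natDegree ≤ max 1 ‖θ‖ ^ (2 * N0) :=
            pow_le_pow_right₀ (le_max_left _ _) e5
          refine e6.trans (le_of_eq ?_)
          rw [hlm, ← Real.exp_nat_mul]
          congr 1
          push_cast
          ring
        exact e3.trans (mul_le_mul hPn e4 (by positivity) (by positivity))
      have e7 : ‖(A.map (oc ι)).eval θ - (B.map (oc ι)).eval θ * θ'‖ ≤
          Real.exp (S * E + C * T) * Real.exp (2 * N0 * lm) * (1 + ‖θ'‖) := by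
        refine (norm_sub_le _ _).trans ?_
        rw [norm_mul]
        have e8 := hev A hdegA (hnmA ι)
        have e9 := mul_le_mul_of_nonneg_right (hev B hdegB (hnmB ι)) (norm_nonneg θ')
        linarith
      have e10 : 1 + ‖θ'‖ ≤ Real.exp (‖θ'‖ * T) := by
        have h := Real.add_one_le_exp (‖θ'‖ * T)
        nlinarith [norm_nonneg θ']
      have e11 : Real.exp (2 * N0 * lm) ≤ Real.exp (2 * N0 * lm * T) := by
        refine Real.exp_le_exp.mpr ?_
        have e5 : 0 ≤ 2 * (N0 : ℝ) * lm := by positivity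
        nlinarith
      have e12 : ‖(A.map (oc ι)).eval θ - (B.map (oc ι)).eval θ * θ'‖ ≤
          Real.exp (S * E + C * T) * Real.exp (2 * N0 * lm * T) * Real.exp (‖θ'‖ * T) := by
        refine e7.trans ?_
        refine mul_le_mul (mul_le_mul_of_nonneg_left e11 (by positivity)) e10
          (by positivity) (by positivity)
      refine (mul_le_mul hval' e12 (norm_nonneg _) (by positivity)).trans (le_of_eq ?_)
      rw [← Real.exp_add, ← Real.exp_add, ← Real.exp_add]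
      congr 1
      rw [hC2]; ring
    refine ⟨q, ?_, ?_, ?_, ?_⟩
    · intro hq0
      rw [hq0, Polynomial.map_zero] at hq
      exact (Finset.prod_ne_zero_iff.mpr fun σ _ => hGσ0 σ) hq.symm
    · have e1 : (q.map (Int.castRingHom ℂ)).natDegree = q.natDegree :=
        natDegree_map_eq_of_injective (RingHom.injective_int _) q
      rw [← e1, hq]
      refine (natDegree_prod_le _ _).trans ?_
      refine (Finset.sum_le_card_nsmul _ _ (4 * N0) fun σ _ => ?_).trans ?_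
      · exact natDegree_map_le.trans hGdeg
      · rw [Finset.card_univ, hcard, smul_eq_mul, mul_comm]
    · show nm1 (q.map (Int.castRingHom ℂ)) ≤ _
      rw [hq]
      refine (nm1_prod_le _ _).trans ?_
      refine (Finset.prod_le_prod (fun σ _ => nm1_nonneg _) fun σ _ => hGnm σ).trans ?_
      rw [Finset.prod_const, Finset.card_univ, hcard, ← Real.exp_nat_mul]
      refine Real.exp_le_exp.mpr ?_
      rw [← hE]
      nlinarith
    · have e1 : aeval θ q = ∏ σ : K →+* ℂ, (G.map (oc σ)).eval θ := by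
        have e2 : aeval θ q = (q.map (Int.castRingHom ℂ)).eval θ := by
          rw [eval_map, aeval_def]
          rfl
        rw [e2, hq, eval_prod]
      rw [e1, norm_prod, ← Finset.mul_prod_erase _ _ (Finset.mem_univ ι)]
      have e3 : ∏ σ ∈ Finset.univ.erase ι, ‖(G.map (oc σ)).eval θ‖ ≤
          Real.exp (κ * (2 * (S * E) + C4 * T)) := by
        refine (Finset.prod_le_prod (fun σ _ => norm_nonneg _) fun σ _ => hGev σ).trans ?_
        rw [Finset.prod_const, Finset.card_erase_of_mem (Finset.mem_univ _), Finset.card_univ,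
          hcard, ← Real.exp_nat_mul]
        refine Real.exp_le_exp.mpr ?_
        refine mul_le_mul_of_nonneg_right ?_ (by positivity)
        exact_mod_cast Nat.sub_le κ 1
      refine (mul_le_mul hGι e3 (Finset.prod_nonneg fun σ _ => norm_nonneg _)
        (by positivity)).trans ?_
      rw [← Real.exp_add]
      refine Real.exp_le_exp.mpr ?_
      rw [← hE]
      push_cast
      have e4 : (κ : ℝ) * S * E ≤ 1 / 1000 * E := mul_le_mul_of_nonneg_right hSk hE0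
      have e5 : (κ : ℝ) ^ 2 * N0 * S * E ≤ 1 / 1000 * E := mul_le_mul_of_nonneg_right hSk2 hE0
      have e6 : S * E ≤ κ * S * E := by
        rw [mul_assoc]
        nlinarith
      have e7 : -6 * (4 * (N0 : ℝ) * κ) * (3 * κ * S * E) = -72 * ((κ : ℝ) ^ 2 * N0 * S * E) := by
        ring
      have e8 : -(1 / 4) * E + S * E + C2 * T + κ * (2 * (S * E) + C4 * T) =
          -(1 / 4) * E + S * E + 2 * (κ * S * E) + C5 * T := by
        rw [hC5]; ring
      rw [e7, e8]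
      linarith
  -- conclusion
  choose! q hq using key
  obtain ⟨g1, g2, g3⟩ := ThetaAlg_growth (3 * κ * S) (by positivity)
  have hδ : 1 ≤ 4 * N0 * κ := by
    have : 1 ≤ N0 * κ := Nat.mul_pos hN0 hκ
    nlinarith
  refine gelfond (4 * N0 * κ) hδ θ (fun T => 3 * κ * S * ((T : ℝ) * Real.log T)) g1
    (max (max T0 T1) 3) (fun T hT => g2 T ((le_max_right _ _).trans hT))
    (fun T hT => g3 T ((le_max_right _ _).trans hT)) q (fun T hT => hq T hT)

end Pool.Agent.ZCM
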